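import Pool.Agent.Lib.MP_796ce4_ag.ZY.Base

/-! Square systems of polynomial equations with leading powers of the variables. -/

namespace Pool.Agent.ZeroCyc

open Polynomial Module
open scoped Classical IntermediateField PowerSeries

set_option linter.unusedSectionVars false

variable {R S : Type} [CommRing R] [CommRing S] {σ : Type} [Fintype σ]

/-- every equation is a power of its variable plus terms of lower weight -/
def Sys (w M : σ → ℕ) (F : σ → MvPolynomial σ R) : Prop :=
  ∀ j m, m ∈ (F j - MvPolynomial.X j ^ M j).support → Finsupp.weight w m < w j * M j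

/-- the Jacobian matrix -/
noncomputable def jac (φ : R →+* S) (F : σ → MvPolynomial σ R) (z : σ → S) : Matrix σ σ S :=
  Matrix.of fun j k => MvPolynomial.eval₂ φ z (MvPolynomial.pderiv k (F j))

variable {w M : σ → ℕ} {F F' : σ → MvPolynomial σ R}

theorem Sys.map (h : Sys w M F) (φ : R →+* S) : Sys w M fun j => MvPolynomial.map φ (F j) := by
  intro j m hm
  refine h j m (MvPolynomial.support_map_subset φ _ ?_)
  simpa using hm

/-- the pencil spanned by two systems -/
noncomputable def pencil (F F' : σ → MvPolynomial σ R) : σ → MvPolynomial σ R[X] := fun j =>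
  MvPolynomial.map C (F j) + MvPolynomial.C X * MvPolynomial.map C (F' j - F j)

theorem Sys.pencil (h : Sys w M F) (h' : Sys w M F') : Sys w M (pencil F F') := by
  intro j m hm
  by_contra hlt
  have h1 : MvPolynomial.coeff m (F j - MvPolynomial.X j ^ M j) = 0 := by
    by_contra e
    exact hlt (h j m (MvPolynomial.mem_support_iff.2 e))
  have h2 : MvPolynomial.coeff m (F' j - MvPolynomial.X j ^ M j) = 0 := by
    by_contra e
    exact hlt (h' j m (MvPolynomial.mem_support_iff.2 e))
  have e : Pool.Agent.ZeroCyc.pencil F F' j - MvPolynomial.X j ^ M j =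
      MvPolynomial.map C (F j - MvPolynomial.X j ^ M j) + MvPolynomial.C X *
        (MvPolynomial.map C (F' j - MvPolynomial.X j ^ M j) -
          MvPolynomial.map C (F j - MvPolynomial.X j ^ M j)) := by
    simp only [Pool.Agent.ZeroCyc.pencil, map_sub, map_pow, MvPolynomial.map_X]
    ring
  refine MvPolynomial.mem_support_iff.1 hm ?_
  rw [e, MvPolynomial.coeff_add, MvPolynomial.coeff_C_mul, MvPolynomial.coeff_sub,
    MvPolynomial.coeff_map, MvPolynomial.coeff_map, h1, h2]
  simp

theorem eval₂_pencil (ψ : R[X] →+* S) (z : σ → S) (j : σ) :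
    MvPolynomial.eval₂ ψ z (pencil F F' j) = MvPolynomial.eval₂ (ψ.comp C) z (F j) +
      ψ X * (MvPolynomial.eval₂ (ψ.comp C) z (F' j) - MvPolynomial.eval₂ (ψ.comp C) z (F j)) := by
  simp only [pencil, MvPolynomial.eval₂_add, MvPolynomial.eval₂_mul, MvPolynomial.eval₂_C,
    MvPolynomial.eval₂_map, MvPolynomial.eval₂_sub]

theorem jac_pencil (ψ : R[X] →+* S) (z : σ → S) :
    jac ψ (pencil F F') z = jac (ψ.comp C) F z + ψ X • (jac (ψ.comp C) F' z - jac (ψ.comp C) F z) := by
  ext j k
  simp only [jac, pencil, Matrix.of_apply, Matrix.add_apply, Matrix.smul_apply, Matrix.sub_apply,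
    map_add, MvPolynomial.pderiv_C_mul, MvPolynomial.pderiv_map, MvPolynomial.eval₂_add,
    MvPolynomial.eval₂_mul, MvPolynomial.eval₂_C, MvPolynomial.eval₂_map, map_sub,
    MvPolynomial.eval₂_sub, smul_eq_mul]

theorem Sys.finite_quot (h : Sys w M F) :
    Module.Finite R (MvPolynomial σ R ⧸ Ideal.span (Set.range F)) := by
  set I := Ideal.span (Set.range F) with hI
  let s : Set (σ →₀ ℕ) := {m | ∀ j, m j < M j}
  have hs : s.Finite := by
    refine Set.Finite.of_finite_image (f := fun m : σ →₀ ℕ => (m : σ → ℕ)) ?_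
      (DFunLike.coe_injective.injOn)
    refine (Set.Finite.pi' (t := fun j => Set.Iio (M j)) fun j => Set.finite_Iio _).subset ?_
    rintro _ ⟨m, hm, rfl⟩
    exact hm
  let f : (σ →₀ ℕ) → MvPolynomial σ R ⧸ I := fun m =>
    Ideal.Quotient.mkₐ R I (MvPolynomial.monomial m 1)
  have key : ∀ n, ∀ m : σ →₀ ℕ, Finsupp.weight w m = n → f m ∈ Submodule.span R (f '' s) := by
    intro n
    induction n using Nat.strong_induction_on with
    | _ n ih =>
      intro m hm
      by_cases hms : m ∈ s
      · exact Submodule.subset_span ⟨m, hms, rfl⟩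
      obtain ⟨j, hj⟩ : ∃ j, M j ≤ m j := by
        by_contra hc
        exact hms fun j => by
          by_contra e
          exact hc ⟨j, not_lt.1 e⟩
      obtain ⟨m', rfl⟩ : ∃ m', m = m' + Finsupp.single j (M j) :=
        ⟨m - Finsupp.single j (M j), (tsub_add_cancel_of_le (Finsupp.single_le_iff.2 hj)).symm⟩
      set g := F j - MvPolynomial.X j ^ M j with hg
      have e1 : f (m' + Finsupp.single j (M j)) =
          -Ideal.Quotient.mkₐ R I (MvPolynomial.monomial m' 1 * g) := by
        rw [eq_neg_iff_add_eq_zero, ← map_add, hg]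
        refine Ideal.Quotient.eq_zero_iff_mem.2 ?_
        rw [MvPolynomial.monomial_add_single, mul_sub, add_sub_cancel]
        exact Ideal.mul_mem_left _ _ (Ideal.subset_span ⟨j, rfl⟩)
      rw [e1, g.as_sum, Finset.mul_sum, map_sum]
      refine neg_mem (Submodule.sum_mem _ fun a ha => ?_)
      have e2 : MvPolynomial.monomial m' (1 : R) * MvPolynomial.monomial a (g.coeff a) =
          g.coeff a • MvPolynomial.monomial (m' + a) 1 := by
        rw [MvPolynomial.monomial_mul, MvPolynomial.smul_monomial, one_mul, smul_eq_mul, mul_one]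
      rw [e2, map_smul]
      refine Submodule.smul_mem _ _ (ih _ ?_ _ rfl)
      have h3 := h j a ha
      rw [← hm, map_add, map_add, Finsupp.weight_single, smul_eq_mul, mul_comm (M j)]
      omega
  refine ⟨Submodule.fg_def.2 ⟨f '' s, hs.image f, eq_top_iff.2 fun x _ => ?_⟩⟩
  obtain ⟨G, rfl⟩ := Ideal.Quotient.mkₐ_surjective R I x
  rw [G.as_sum, map_sum]
  refine Submodule.sum_mem _ fun a _ => ?_
  have e2 : MvPolynomial.monomial a (G.coeff a) = G.coeff a • MvPolynomial.monomial a (1 : R) := by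
    rw [MvPolynomial.smul_monomial, smul_eq_mul, mul_one]
  rw [e2, map_smul]
  exact Submodule.smul_mem _ _ (key _ _ rfl)

/-- the coordinates of the zeros satisfy fixed monic equations -/
theorem Sys.exists_monic (h : Sys w M F) (j : σ) : ∃ g : R[X], g.Monic ∧
    ∀ (S : Type) [CommRing S] (φ : R →+* S) (z : σ → S),
      (∀ i, MvPolynomial.eval₂ φ z (F i) = 0) → g.eval₂ φ (z j) = 0 := by
  have := h.finite_quot
  obtain ⟨g, hg, h0⟩ : IsIntegral R (Ideal.Quotient.mk (Ideal.span (Set.range F))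
    (MvPolynomial.X j : MvPolynomial σ R)) := Algebra.IsIntegral.isIntegral _
  refine ⟨g, hg, fun S _ φ z hz => ?_⟩
  let ψ : (MvPolynomial σ R ⧸ Ideal.span (Set.range F)) →+* S :=
    Ideal.Quotient.lift _ (MvPolynomial.eval₂Hom φ z) fun a ha => by
      refine (Ideal.span_le (I := RingHom.ker (MvPolynomial.eval₂Hom φ z))).2 ?_ ha
      rintro _ ⟨i, rfl⟩
      exact hz i
  have h1 := congrArg ψ h0
  rw [hom_eval₂, map_zero] at h1
  have e1 : ψ.comp (algebraMap R _) = φ := RingHom.ext fun c => by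
    exact MvPolynomial.eval₂Hom_C φ z c
  have e2 : ψ (Ideal.Quotient.mk _ (MvPolynomial.X j)) = z j := MvPolynomial.eval₂Hom_X' φ z j
  rwa [e1, e2] at h1

theorem Sys.finite_zeros [IsDomain S] (h : Sys w M F) (φ : R →+* S) :
    {z : σ → S | ∀ i, MvPolynomial.eval₂ φ z (F i) = 0}.Finite := by
  choose g hg h0 using h.exists_monic
  refine (Set.Finite.pi' (t := fun j => ((g j).map φ).rootSet S) fun j =>
    rootSet_finite _ _).subset fun z hz j => ?_
  rw [((hg j).map φ).mem_rootSet, coe_aeval_eq_eval, eval_map]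
  exact h0 j S φ z hz

/-- the zeros of a system with integral coefficients are integral -/
theorem Sys.norm_le {Λ : Type} [NormedField Λ] [IsUltrametricDist Λ] (h : Sys w M F) {φ : R →+* Λ}
    (hφ : ∀ c, ‖φ c‖ ≤ 1) {z : σ → Λ} (hz : ∀ i, MvPolynomial.eval₂ φ z (F i) = 0) (j : σ) :
    ‖z j‖ ≤ 1 := by
  obtain ⟨g, hg, h0⟩ := h.exists_monic j
  have h1 := h0 Λ φ z hz
  by_contra hlt
  rw [not_le] at hlt
  rw [hg.as_sum, eval₂_add, eval₂_pow, eval₂_X, eval₂_finsetSum] at h1
  have h2 : ‖∑ i ∈ Finset.range g.natDegree, eval₂ φ (z j) (C (g.coeff i) * X ^ i)‖ <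
      ‖z j‖ ^ g.natDegree := by
    rcases Nat.eq_zero_or_pos g.natDegree with h3 | h3
    · rw [h3]; simp
    obtain ⟨i, hi, h4⟩ := IsUltrametricDist.exists_norm_finsetSum_le_of_nonempty
      (Finset.nonempty_range_iff.2 h3.ne') fun i => eval₂ φ (z j) (C (g.coeff i) * X ^ i)
    refine h4.trans_lt ?_
    rw [eval₂_mul, eval₂_C, eval₂_pow, eval₂_X, norm_mul, norm_pow]
    calc ‖φ (g.coeff i)‖ * ‖z j‖ ^ i ≤ 1 * ‖z j‖ ^ i := by gcongr; exact hφ _
      _ < ‖z j‖ ^ g.natDegree := by
        rw [one_mul]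
        exact pow_lt_pow_right₀ hlt (Finset.mem_range.1 hi)
  rw [← neg_eq_of_add_eq_zero_right h1, norm_neg, norm_pow] at h2
  exact lt_irrefl _ h2

/-- divided differences -/
theorem exists_sub_eq (φ : R →+* S) (x x' : σ → S) (I : Ideal S) (hI : ∀ k, x k - x' k ∈ I)
    (G : MvPolynomial σ R) : ∃ c : σ → S,
      MvPolynomial.eval₂ φ x G - MvPolynomial.eval₂ φ x' G = ∑ k, c k * (x k - x' k) ∧
        ∀ k, c k - MvPolynomial.eval₂ φ x' (MvPolynomial.pderiv k G) ∈ I := by
  induction G using MvPolynomial.induction_on with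
  | C a => exact ⟨0, by simp, fun k => by simp⟩
  | add G H hG hH =>
    obtain ⟨c, h1, h2⟩ := hG
    obtain ⟨c', h1', h2'⟩ := hH
    refine ⟨c + c', ?_, fun k => ?_⟩
    · simp only [MvPolynomial.eval₂_add, Pi.add_apply, add_mul, Finset.sum_add_distrib]
      rw [← h1, ← h1']
      ring
    · have := I.add_mem (h2 k) (h2' k)
      rw [map_add, MvPolynomial.eval₂_add, Pi.add_apply]
      rwa [← add_sub_add_comm] at this
  | mul_X G j hG =>
    obtain ⟨c, h1, h2⟩ := hG
    refine ⟨fun k => c k * x j + if k = j then MvPolynomial.eval₂ φ x' G else 0, ?_, fun k => ?_⟩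
    · simp only [MvPolynomial.eval₂_mul, MvPolynomial.eval₂_X, add_mul, Finset.sum_add_distrib,
        ite_mul, zero_mul, Finset.sum_ite_eq', Finset.mem_univ, if_true]
      have e : ∑ k, c k * x j * (x k - x' k) = (∑ k, c k * (x k - x' k)) * x j := by
        rw [Finset.sum_mul]
        exact Finset.sum_congr rfl fun k _ => by ring
      rw [e, ← h1]
      ring
    · have h3 := I.add_mem (I.mul_mem_right (x j) (h2 k))
        (I.mul_mem_left (MvPolynomial.eval₂ φ x' (MvPolynomial.pderiv k G)) (hI j))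
      rw [MvPolynomial.pderiv_mul, MvPolynomial.eval₂_add, MvPolynomial.eval₂_mul,
        MvPolynomial.eval₂_mul, MvPolynomial.eval₂_X]
      dsimp only
      by_cases hk : k = j
      · subst hk
        rw [MvPolynomial.pderiv_X_self, MvPolynomial.eval₂_one, if_pos rfl]
        refine (congrArg (· ∈ I) ?_).mp h3
        ring
      · rw [MvPolynomial.pderiv_X_of_ne (Ne.symm hk), MvPolynomial.eval₂_zero, if_neg hk]
        refine (congrArg (· ∈ I) ?_).mp h3
        ring

/-- the matrix of divided differences -/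
theorem exists_mat (φ : R →+* S) (F : σ → MvPolynomial σ R) (x x' : σ → S) (I : Ideal S)
    (hI : ∀ k, x k - x' k ∈ I) : ∃ c : Matrix σ σ S,
      (fun j => MvPolynomial.eval₂ φ x (F j) - MvPolynomial.eval₂ φ x' (F j)) =
        c.mulVec (x - x') ∧ ∀ j k, c j k - jac φ F x' j k ∈ I := by
  choose c h1 h2 using fun j => exists_sub_eq φ x x' I hI (F j)
  exact ⟨Matrix.of c, funext fun j => h1 j, h2⟩

theorem map_jac {T : Type} [CommRing T] (ψ : S →+* T) (φ : R →+* S) (F : σ → MvPolynomial σ R)
    (z : σ → S) : (jac φ F z).map ψ = jac (ψ.comp φ) F fun i => ψ (z i) := by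
  ext j k
  simp only [jac, Matrix.map_apply, Matrix.of_apply, MvPolynomial.eval₂_comp_left]
  rfl

/-- zeros with the same simple specialisation are equal -/
theorem sys_unique {T : Type} [CommRing T] [IsDomain S] (ψ : S →+* T) (φ : R →+* S)
    (F : σ → MvPolynomial σ R) {x x' : σ → S}
    (h : ∀ j, MvPolynomial.eval₂ φ x (F j) = MvPolynomial.eval₂ φ x' (F j))
    (e : ∀ k, ψ (x k) = ψ (x' k)) (hd : (jac (ψ.comp φ) F fun i => ψ (x' i)).det ≠ 0) : x = x' := by
  obtain ⟨c, h1, h2⟩ := exists_mat φ F x x' (RingHom.ker ψ) fun k => by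
    rw [RingHom.mem_ker, map_sub, e, sub_self]
  have h3 : c.map ψ = jac (ψ.comp φ) F fun i => ψ (x' i) := by
    rw [← map_jac]
    ext j k
    have := h2 j k
    rw [RingHom.mem_ker, map_sub, sub_eq_zero] at this
    exact this
  have h4 : c.det ≠ 0 := fun h0 => hd (by
    rw [← h3]
    exact (ψ.map_det c).symm.trans (by rw [h0, map_zero]))
  refine sub_eq_zero.1 (Matrix.eq_zero_of_mulVec_eq_zero h4 ?_)
  rw [← h1]
  exact funext fun j => sub_eq_zero.2 (h j)

/-- Newton's method; the iterates stay in a given subring -/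
theorem sys_newton (I : Ideal S) [IsAdicComplete I S] (φ : R →+* S) (F : σ → MvPolynomial σ R)
    (x₀ : σ → S) (h0 : ∀ j, MvPolynomial.eval₂ φ x₀ (F j) ∈ I) (B : Matrix σ σ S)
    (hB : ∀ j k, (jac φ F x₀ * B - 1) j k ∈ I) (A : Subring S) (hφ : ∀ c, φ c ∈ A)
    (hx : ∀ k, x₀ k ∈ A) (hA : ∀ j k, B j k ∈ A) :
    ∃ x : σ → S, (∀ j, MvPolynomial.eval₂ φ x (F j) = 0) ∧ (∀ k, x k - x₀ k ∈ I) ∧
      ∀ n k, ∃ y ∈ A, x k - y ∈ I ^ n := by
  let E : (σ → S) → σ → S := fun x j => MvPolynomial.eval₂ φ x (F j)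
  let y : ℕ → σ → S := fun n => (fun x => x - B.mulVec (E x))^[n] x₀
  have ys : ∀ n, y (n + 1) = y n - B.mulVec (E (y n)) := fun n => Function.iterate_succ_apply' _ _ _
  have mv : ∀ (𝔞 : Ideal S) (v : σ → S), (∀ j, v j ∈ 𝔞) → ∀ k, B.mulVec v k ∈ 𝔞 :=
    fun 𝔞 v hv k => Ideal.sum_mem _ fun j _ => Ideal.mul_mem_left _ _ (hv j)
  have key : ∀ n, (∀ j, E (y n) j ∈ I ^ (n + 1)) ∧ (∀ k, y n k - x₀ k ∈ I) ∧ ∀ k, y n k ∈ A := by
    intro n
    induction n with
    | zero => exact ⟨fun j => by rw [zero_add, pow_one]; exact h0 j,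
        fun k => by rw [show y 0 k = x₀ k from rfl, sub_self]; exact zero_mem _, hx⟩
    | succ n ih =>
      obtain ⟨h1, h2, h3⟩ := ih
      have h4 : ∀ k, y (n + 1) k - y n k ∈ I := fun k => by
        rw [ys, Pi.sub_apply, sub_sub_cancel_left]
        exact neg_mem (Ideal.pow_le_self n.succ_ne_zero (mv _ _ h1 k))
      refine ⟨fun j => ?_, fun k => ?_, fun k => ?_⟩
      · obtain ⟨c, e1, e2⟩ := exists_mat φ F (y (n + 1)) (y n) I h4
        have e3 : ∀ j k, jac φ F (y n) j k - jac φ F x₀ j k ∈ I := fun j k => by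
          obtain ⟨c', e, -⟩ := exists_sub_eq φ (y n) x₀ I h2 (MvPolynomial.pderiv k (F j))
          rw [jac, jac, Matrix.of_apply, Matrix.of_apply, e]
          exact Ideal.sum_mem _ fun i _ => Ideal.mul_mem_left _ _ (h2 i)
        have e4 : ∀ j k, (c * B - 1) j k ∈ I := fun j k => by
          have e : c * B - 1 = (c - jac φ F x₀) * B + (jac φ F x₀ * B - 1) := by
            rw [Matrix.sub_mul]; abel
          rw [e, Matrix.add_apply]
          refine add_mem ?_ (hB j k)
          rw [Matrix.mul_apply]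
          refine Ideal.sum_mem _ fun i _ => Ideal.mul_mem_right _ _ ?_
          have := add_mem (e2 j i) (e3 j i)
          rwa [sub_add_sub_cancel] at this
        have e5 : E (y (n + 1)) = -(c * B - 1).mulVec (E (y n)) := by
          have e6 : E (y (n + 1)) - E (y n) = c.mulVec (y (n + 1) - y n) := e1
          rw [ys n, sub_sub_cancel_left, Matrix.mulVec_neg, Matrix.mulVec_mulVec, ← ys n] at e6
          rw [Matrix.sub_mulVec, Matrix.one_mulVec, neg_sub, eq_add_of_sub_eq e6]
          abel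
        rw [e5, Pi.neg_apply, pow_succ']
        exact neg_mem (Ideal.sum_mem _ fun i _ => Ideal.mul_mem_mul (e4 j i) (h1 i))
      · have := add_mem (h4 k) (h2 k)
        rwa [sub_add_sub_cancel] at this
      · rw [ys, Pi.sub_apply]
        refine sub_mem (h3 k) (A.sum_mem fun i _ => mul_mem (hA k i) ?_)
        exact MvPolynomial.eval₂_mem (fun m _ => hφ _) h3
  have hc : ∀ k, ∃ L : S, ∀ n, y n k - L ∈ I ^ n := fun k => by
    obtain ⟨L, hL⟩ := IsPrecomplete.prec (I := I) (M := S) inferInstance (f := fun n => y n k)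
      (fun {m n} hmn => by
        rw [SModEq.sub_mem, smul_eq_mul, Ideal.mul_top]
        induction n, hmn using Nat.le_induction with
        | base => rw [sub_self]; exact zero_mem _
        | succ n hmn ih =>
          have h5 : y n k - y (n + 1) k ∈ I ^ m := by
            rw [ys, Pi.sub_apply, sub_sub_cancel]
            exact Ideal.pow_le_pow_right (by omega) (mv _ _ (key n).1 k)
          have := add_mem ih h5
          rwa [sub_add_sub_cancel] at this)
    exact ⟨L, fun n => by
      have := hL n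
      rwa [SModEq.sub_mem, smul_eq_mul, Ideal.mul_top] at this⟩
  choose x hx' using hc
  refine ⟨x, fun j => ?_, fun k => ?_, fun n k => ⟨y n k, (key n).2.2 k, ?_⟩⟩
  · refine IsHausdorff.haus (I := I) (M := S) inferInstance _ fun n => ?_
    rw [SModEq.zero, smul_eq_mul, Ideal.mul_top]
    obtain ⟨c, e, -⟩ := exists_sub_eq φ (y n) x (I ^ n) (fun k => hx' k n) (F j)
    have h6 : E (y n) j - MvPolynomial.eval₂ φ x (F j) ∈ I ^ n := by
      rw [show E (y n) j = MvPolynomial.eval₂ φ (y n) (F j) from rfl, e]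
      exact Ideal.sum_mem _ fun i _ => Ideal.mul_mem_left _ _ (hx' i n)
    have := sub_mem (Ideal.pow_le_pow_right n.le_succ ((key n).1 j)) h6
    rwa [sub_sub_cancel] at this
  · have h7 := hx' k 1
    rw [pow_one] at h7
    have := sub_mem ((key 1).2.1 k) h7
    rwa [sub_sub_sub_cancel_left] at this
  · have := neg_mem (hx' k n)
    rwa [neg_sub] at this

end Pool.Agent.ZeroCyc
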