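import Pool.Agent.Lib.MP_796ce4_ag.ZQ.QDefs

/-! Coverings by varieties with a regular model. -/

namespace Pool.Agent.ZeroCyc

open Module

variable {K L : Type} (Λ : Type) [Field K] [Field L] [Field Λ] [Algebra K Λ] [Algebra L Λ]
  {N M : ℕ}

/-- The set `𝓕` of tuples of forms over `L` defines a morphism from the variety of `J'` to the
variety of `J`, and above every point of degree `n` there is a zero-cycle of degree `d n`. -/
structure Dom (J : Ideal (MvPolynomial (Fin (N + 1)) K)) (J' : Ideal (MvPolynomial (Fin (M + 1)) L))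
    (𝓕 : Set (Fin (N + 1) → MvPolynomial (Fin (M + 1)) L)) (d : ℕ) : Prop where
  hom : ∀ F ∈ 𝓕, ∃ k, ∀ i, (F i).IsHomogeneous k
  on : ∀ F ∈ 𝓕, ∀ w : Fin (M + 1) → Λ, OnX J' w → OnX J fun i => MvPolynomial.aeval w (F i)
  ne : ∀ w : Fin (M + 1) → Λ, w ≠ 0 → OnX J' w →
    ∃ F ∈ 𝓕, (fun i => MvPolynomial.aeval w (F i)) ≠ 0
  glue : ∀ F ∈ 𝓕, ∀ G ∈ 𝓕, ∀ w : Fin (M + 1) → Λ, OnX J' w → ∀ i j,
    MvPolynomial.aeval w (F i * G j) = MvPolynomial.aeval w (F j * G i)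
  deg : ∀ (E : IntermediateField K Λ) (v : Fin (N + 1) → Λ), FiniteDimensional K E → v ≠ 0 →
    OnX J v → (∀ i, v i ∈ E) → (d * finrank K E : ℤ) ∈ AddSubgroup.closure
      {n : ℤ | ∃ (E' : IntermediateField K Λ) (w : Fin (M + 1) → Λ) (σ : Λ ≃ₐ[K] Λ) (c : Λ),
        FiniteDimensional K E' ∧ (∀ x : L, algebraMap L Λ x ∈ E') ∧ (∀ i, w i ∈ E') ∧ w ≠ 0 ∧
        OnX J' w ∧ c ≠ 0 ∧ (∃ F ∈ 𝓕, ∀ i, MvPolynomial.aeval w (F i) = c * σ (v i)) ∧
        n = finrank K E'}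

/-- The variety of `J` is dominated in degree `d` by the generic fibre of a regular model over the
integers of a finite extension `L` of `K`. -/
def Covered (p : ℕ) [Fact p.Prime] [Algebra ℤ_[p] K] (J : Ideal (MvPolynomial (Fin (N + 1)) K))
    (d : ℕ) : Prop :=
  ∃ (L : Type) (_ : Field L) (_ : Algebra K L) (_ : Algebra L (AlgebraicClosure K))
    (_ : IsScalarTower K L (AlgebraicClosure K)) (_ : FiniteDimensional K L) (_ : Algebra ℤ_[p] L)
    (_ : IsScalarTower ℤ_[p] K L) (M : ℕ)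
    (I : Ideal (MvPolynomial (Fin (M + 1)) (integralClosure ℤ_[p] L))) (𝓕 : Set _),
    RegModel (integralClosure ℤ_[p] L) I ∧
      Dom (AlgebraicClosure K) J (I.map (MvPolynomial.map (algebraMap _ L))) 𝓕 d

end Pool.Agent.ZeroCyc
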