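import Pool.Agent.Lib.MP_796ce4_ag.ZY.GT
import Pool.Agent.Lib.MP_796ce4_ag.ZY.Grp

/-! Quotients and sums of groups of the expected shape. -/

namespace Pool.Agent.ZeroCyc

open scoped Classical

variable (p : ℕ) [Fact p.Prime] {V V' : Type} [AddCommGroup V] [AddCommGroup V']

/-- the hypotheses of the structure theorem -/
def GTH (A : AddSubgroup V) : Prop :=
  ∃ (B : AddSubgroup V) (s : Finset V), B ≤ A ∧ (∃ t : Finset V, ∀ a ∈ A, ∃ x ∈ t, a - x ∈ B) ∧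
    (∀ m : ℕ, ¬p ∣ m → B ≤ mulS m B) ∧ (∀ x ∈ s, x ∈ B) ∧
    B ≤ AddSubgroup.closure (s : Set V) ⊔ mulS p B ∧
    ∀ x ∈ s, ∀ c : ℕ → ℕ, ∃ y : ℕ → V, ∀ n, y n ∈ B ∧ y n = c n • x + p • y (n + 1)

variable {p}

theorem maxDiv_div {m : ℕ} (hm : m ≠ 0) {x : V} (hx : x ∈ maxDiv V) : ∃ y ∈ maxDiv V, m • y = x := by
  rw [maxDiv, sSup_eq_iSup'] at hx
  induction hx using AddSubgroup.iSup_induction' with
  | hp H x hx =>
    obtain ⟨y, hy, h⟩ := H.2 m hm x hx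
    exact ⟨y, le_sSup (s := {H : AddSubgroup V | ∀ n : ℕ, n ≠ 0 → ∀ x ∈ H, ∃ y ∈ H, n • y = x})
      H.2 hy, h⟩
  | h1 => exact ⟨0, zero_mem _, smul_zero _⟩
  | hadd x x' _ _ h h' =>
    obtain ⟨y, hy, rfl⟩ := h
    obtain ⟨y', hy', rfl⟩ := h'
    exact ⟨y + y', add_mem hy hy', smul_add _ _ _⟩

theorem GTH.iso {A : AddSubgroup V} (h : GTH p A) :
    ∃ (n : ℕ) (F : Type) (_ : AddCommGroup F) (_ : Finite F),
      Nonempty ((A ⧸ maxDiv A) ≃+ (Fin n → ℤ_[p]) × F) := by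
  obtain ⟨B, s, h1, h2, h3, h4, h5, h6⟩ := h
  exact GT A B h1 h2 h3 s h4 h5 h6

theorem zqaagrp_ser (c : ℕ → ℕ) : ∃ z : ℕ → ℤ_[p], ∀ n, z n = c n + p * z (n + 1) := by
  have hs : ∀ n, Summable fun k => (c (n + k) : ℤ_[p]) * (p : ℤ_[p]) ^ k := fun n =>
    Summable.of_norm_bounded (summable_geometric_of_lt_one (norm_nonneg (p : ℤ_[p]))
      (PadicInt.norm_natCast_lt_one_iff.2 dvd_rfl)) fun k => by
        rw [norm_mul, norm_pow]
        exact mul_le_of_le_one_left (by positivity) (PadicInt.norm_le_one _)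
  refine ⟨fun n => ∑' k, (c (n + k) : ℤ_[p]) * (p : ℤ_[p]) ^ k, fun n => ?_⟩
  simp only
  rw [(hs n).tsum_eq_zero_add, ← (hs (n + 1)).tsum_mul_left, add_zero, pow_zero, mul_one]
  congr 1
  refine tsum_congr fun k => ?_
  rw [show n + (k + 1) = n + 1 + k by omega]
  ring

theorem gth_of_iso {n : ℕ} {F : Type} [AddCommGroup F] [Finite F]
    (e : (V ⧸ maxDiv V) ≃+ (Fin n → ℤ_[p]) × F) : GTH p (⊤ : AddSubgroup V) := by
  let q : V →+ (Fin n → ℤ_[p]) × F := e.toAddMonoidHom.comp (QuotientAddGroup.mk' _)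
  have hs : Function.Surjective q := e.surjective.comp (QuotientAddGroup.mk'_surjective _)
  have hk : ∀ x, q x = 0 ↔ x ∈ maxDiv V := fun x =>
    e.map_eq_zero_iff.trans (QuotientAddGroup.eq_zero_iff x)
  have key : ∀ m : ℕ, m ≠ 0 → ∀ (x : V) (z : Fin n → ℤ_[p]), q x = ((m : ℤ_[p]) • z, 0) →
      ∃ y, q y = (z, 0) ∧ m • y = x := by
    intro m hm x z h
    obtain ⟨y, hy⟩ := hs (z, 0)
    obtain ⟨d, hd, e⟩ := maxDiv_div hm ((hk (x - m • y)).1 (by
      rw [map_sub, map_nsmul, h, hy, Nat.cast_smul_eq_nsmul]; simp))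
    exact ⟨y + d, by rw [map_add, hy, (hk d).2 hd, add_zero], by rw [smul_add, e]; abel⟩
  have hp : p ≠ 0 := (Fact.out : p.Prime).ne_zero
  choose r hr using hs
  have := Fintype.ofFinite F
  let B : AddSubgroup V := ((AddMonoidHom.snd _ _).comp q).ker
  have hB : ∀ x, x ∈ B ↔ (q x).2 = 0 := fun x => Iff.rfl
  refine ⟨B, Finset.univ.image fun i => r (Pi.single i 1, 0), le_top,
    ⟨Finset.univ.image fun f => r (0, f), fun a _ => ⟨r (0, (q a).2),
      Finset.mem_image_of_mem _ (Finset.mem_univ _), by simp [hB, hr]⟩⟩,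
    fun m hm x hx => ?_, fun x hx => ?_, fun x hx => ?_, fun x hx c => ?_⟩
  · obtain ⟨u, hu⟩ : IsUnit (m : ℤ_[p]) := PadicInt.isUnit_iff.2
      (PadicInt.norm_natCast_eq_one_iff.2 ((Nat.Prime.coprime_iff_not_dvd Fact.out).2 hm))
    obtain ⟨y, h1, h2⟩ := key m (by rintro rfl; exact hm (dvd_zero p)) x
      ((↑u⁻¹ : ℤ_[p]) • (q x).1) (Prod.ext (by simp [← hu, smul_smul]) hx)
    exact mem_mulS.2 ⟨y, (hB y).2 (by rw [h1]), h2⟩
  · obtain ⟨i, -, rfl⟩ := Finset.mem_image.1 hx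
    simp [hB, hr]
  · choose μ hμ using fun i => gt2_appr 1 ((q x).1 i)
    obtain ⟨y, h1, h2⟩ := key p hp (x - ∑ i, ((q x).1 i).appr 1 • r (Pi.single i 1, 0)) μ (by
      rw [map_sub, map_sum]
      simp only [map_nsmul, hr]
      refine Prod.ext (funext fun i => ?_) ?_
      · simp only [Prod.fst_sub, Prod.fst_sum, Prod.smul_fst, Pi.sub_apply, Finset.sum_apply,
          Pi.smul_apply, smul_eq_mul]
        rw [Finset.sum_eq_single i (fun j _ hj => by simp [hj.symm]) (by simp)]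
        simp only [Pi.single_eq_same, nsmul_eq_mul, mul_one]
        linear_combination hμ i
      · simp [Prod.snd_sum, (hB x).1 hx])
    rw [← add_sub_cancel (∑ i, ((q x).1 i).appr 1 • r (Pi.single i 1, 0)) x]
    refine AddSubgroup.add_mem_sup (sum_mem fun i _ => nsmul_mem (AddSubgroup.subset_closure ?_) _)
      (mem_mulS.2 ⟨y, (hB y).2 (by rw [h1]), h2⟩)
    exact Finset.mem_coe.2 (Finset.mem_image_of_mem _ (Finset.mem_univ i))
  · have hx0 : (q x).2 = 0 := by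
      obtain ⟨i, -, rfl⟩ := Finset.mem_image.1 hx
      simp [hr]
    obtain ⟨z, hz⟩ := zqaagrp_ser (p := p) c
    have st : ∀ k (y : {y // q y = (z k • (q x).1, 0)}),
        ∃ y' : {y // q y = (z (k + 1) • (q x).1, 0)}, y.1 = c k • x + p • y'.1 := by
      intro k y
      obtain ⟨y', h1, h2⟩ := key p hp (y.1 - c k • x) (z (k + 1) • (q x).1) (by
        rw [map_sub, map_nsmul, y.2]
        refine Prod.ext ?_ (by simp [hx0])
        simp only [Prod.fst_sub, Prod.smul_fst]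
        rw [hz k, add_smul, mul_smul, Nat.cast_smul_eq_nsmul]
        abel)
      exact ⟨⟨y', h1⟩, by rw [h2]; abel⟩
    choose nx hn using st
    let Y : ∀ k, {y // q y = (z k • (q x).1, 0)} := fun k => Nat.rec ⟨r _, hr _⟩ nx k
    exact ⟨fun k => (Y k).1, fun k => ⟨(hB _).2 (by rw [(Y k).2]), hn k (Y k)⟩⟩

theorem GTH.map {A : AddSubgroup V} (h : GTH p A) (f : V →+ V') : GTH p (A.map f) := by
  obtain ⟨B, s, h1, ⟨t, h2⟩, h3, h4, h5, h6⟩ := h
  have hm : ∀ m, (mulS m B).map f ≤ mulS m (B.map f) := by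
    rintro m _ ⟨x, hx, rfl⟩
    obtain ⟨y, hy, rfl⟩ := mem_mulS.1 hx
    exact mem_mulS.2 ⟨f y, ⟨y, hy, rfl⟩, (map_nsmul f m y).symm⟩
  refine ⟨B.map f, s.image f, AddSubgroup.map_mono h1, ⟨t.image f, ?_⟩,
    fun m h => (AddSubgroup.map_mono (h3 m h)).trans (hm m), fun x hx => ?_, ?_, fun x hx c => ?_⟩
  · rintro _ ⟨a, ha, rfl⟩
    obtain ⟨x, hx, h⟩ := h2 a ha
    exact ⟨f x, Finset.mem_image_of_mem f hx, a - x, h, map_sub f a x⟩
  · obtain ⟨y, hy, rfl⟩ := Finset.mem_image.1 hx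
    exact ⟨y, h4 y hy, rfl⟩
  · refine (AddSubgroup.map_mono h5).trans ?_
    rw [AddSubgroup.map_sup, AddMonoidHom.map_closure, Finset.coe_image]
    exact sup_le_sup_left (hm p) _
  · obtain ⟨w, hw, rfl⟩ := Finset.mem_image.1 hx
    obtain ⟨y, hy⟩ := h6 w hw c
    refine ⟨fun n => f (y n), fun n => ⟨⟨y n, (hy n).1, rfl⟩, ?_⟩⟩
    simpa only [map_add, map_nsmul] using congrArg f (hy n).2

theorem gth_bot : GTH p (⊥ : AddSubgroup V) := by
  exact ⟨⊥, ∅, le_rfl, ⟨{0}, fun a ha => ⟨0, by simp, by simpa using ha⟩⟩, fun _ _ => bot_le,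
    by simp, bot_le, by simp⟩

theorem GTH.sup {A A' : AddSubgroup V} (h : GTH p A) (h' : GTH p A') : GTH p (A ⊔ A') := by
  obtain ⟨B, s, h1, ⟨t, h2⟩, h3, h4, h5, h6⟩ := h
  obtain ⟨B', s', h1', ⟨t', h2'⟩, h3', h4', h5', h6'⟩ := h'
  refine ⟨B ⊔ B', s ∪ s', sup_le_sup h1 h1', ⟨Finset.image₂ (· + ·) t t', fun a ha => ?_⟩,
    fun m h => sup_le ((h3 m h).trans (mulS_mono m le_sup_left))
      ((h3' m h).trans (mulS_mono m le_sup_right)), fun x hx => ?_, sup_le ?_ ?_, fun x hx c => ?_⟩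
  · obtain ⟨b, hb, b', hb', rfl⟩ := AddSubgroup.mem_sup.1 ha
    obtain ⟨x, hx, e⟩ := h2 b hb
    obtain ⟨x', hx', e'⟩ := h2' b' hb'
    refine ⟨x + x', Finset.mem_image₂_of_mem hx hx', ?_⟩
    rw [add_sub_add_comm]
    exact AddSubgroup.add_mem_sup e e'
  · rcases Finset.mem_union.1 hx with hx | hx
    · exact AddSubgroup.mem_sup_left (h4 x hx)
    · exact AddSubgroup.mem_sup_right (h4' x hx)
  · exact h5.trans (sup_le_sup (AddSubgroup.closure_mono (by simp)) (mulS_mono p le_sup_left))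
  · exact h5'.trans (sup_le_sup (AddSubgroup.closure_mono (by simp)) (mulS_mono p le_sup_right))
  · rcases Finset.mem_union.1 hx with hx | hx
    · obtain ⟨y, hy⟩ := h6 x hx c
      exact ⟨y, fun n => ⟨AddSubgroup.mem_sup_left (hy n).1, (hy n).2⟩⟩
    · obtain ⟨y, hy⟩ := h6' x hx c
      exact ⟨y, fun n => ⟨AddSubgroup.mem_sup_right (hy n).1, (hy n).2⟩⟩

end Pool.Agent.ZeroCyc
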