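import Pool.Agent.Lib.MP_796ce4_ag.ZQ.AGrp

/-! Extensions of bounded exponent. -/

namespace Pool.Agent.ZeroCyc

open scoped Classical

variable {p : ℕ} [Fact p.Prime] {V : Type} [AddCommGroup V]

theorem zqaagrp2_unit {m : ℕ} (hm : m ≠ 0) :
    ∃ (a m' : ℕ) (w : ℤ_[p]), m = p ^ a * m' ∧ (m' : ℤ_[p]) * w = 1 := by
  obtain ⟨a, m', hm', h⟩ := Nat.exists_eq_pow_mul_and_not_dvd hm p (Fact.out : p.Prime).ne_one
  have hu : IsUnit (m' : ℤ_[p]) := PadicInt.isUnit_iff.2 (PadicInt.norm_natCast_eq_one_iff.2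
    ((Nat.Prime.coprime_iff_not_dvd (Fact.out : p.Prime)).2 hm'))
  obtain ⟨w, hw⟩ := hu.exists_right_inv
  exact ⟨a, m', w, h, hw⟩

/-- a surjection onto `ℤ_p ^ n` with kernel of finite exponent splits -/
theorem split_of_bounded {n m : ℕ} (hm : m ≠ 0) (ρ : V →+ (Fin n → ℤ_[p]))
    (hρ : Function.Surjective ρ) (hk : ∀ x ∈ ρ.ker, m • x = 0) :
    Nonempty (V ≃+ (Fin n → ℤ_[p]) × ρ.ker) := by
  obtain ⟨a, m', w, h, hw⟩ := zqaagrp2_unit (p := p) hm
  have hmc : (m : ℤ_[p]) = (p : ℤ_[p]) ^ a * m' := by rw [h]; push_cast; rfl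
  obtain ⟨G, hG⟩ : ∃ G : (Fin n → ℤ_[p]) →+ V, ∀ x, G (ρ x) = m • x :=
    ⟨ρ.liftOfSurjective hρ ⟨nsmulAddMonoidHom m, hk⟩, fun x =>
      ρ.liftOfRightInverse_comp_apply _ (Function.rightInverse_surjInv hρ) _ x⟩
  have hG' : ∀ y, ρ (G y) = (m : ℤ_[p]) • y := fun y => by
    obtain ⟨x, rfl⟩ := hρ y
    rw [hG, map_nsmul, Nat.cast_smul_eq_nsmul]
  have hφ : ∀ y : Fin n → ℤ_[p], ∃ φ : ℤ_[p] →+ V, ∀ c, ρ (φ c) = c • y := fun y => by
    obtain ⟨x, hx⟩ := hρ (w • y)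
    obtain ⟨φ, hφ⟩ := gt2_hom (p := p) a (m' • x)
      (G.comp (LinearMap.toSpanSingleton ℤ_[p] _ (w • y)).toAddMonoidHom) (by
        show G ((1 : ℤ_[p]) • w • y) = _
        rw [one_smul, ← hx, hG, h, mul_smul])
    refine ⟨φ, fun c => ?_⟩
    obtain ⟨μ, hμ⟩ := gt2_appr a c
    rw [hμ, hφ, map_add, map_nsmul, map_nsmul]
    show _ + ρ (G (μ • w • y)) = _
    rw [hG', hx, ← Nat.cast_smul_eq_nsmul ℤ_[p], ← Nat.cast_smul_eq_nsmul ℤ_[p]]
    simp only [smul_smul, ← add_smul]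
    congr 1
    rw [hmc]
    linear_combination ((c.appr a : ℤ_[p]) + (p : ℤ_[p]) ^ a * μ) * hw
  choose φ hφ using hφ
  let σ : (Fin n → ℤ_[p]) →+ V :=
    ∑ i, (φ (Pi.single i 1)).comp (Pi.evalAddMonoidHom (fun _ => ℤ_[p]) i)
  have hσ : ∀ c, ρ (σ c) = c := fun c => by
    rw [AddMonoidHom.finsetSum_apply, map_sum]
    refine (Finset.sum_congr rfl fun i _ => hφ _ _).trans ?_
    exact (pi_eq_sum_univ' c).symm
  refine gt2_split ρ σ (fun c c' e => ?_) fun x => ⟨ρ x, hσ _⟩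
  simpa only [hσ] using e

/-- a subgroup of `ℤ_p ^ n` that contains a multiple of it -/
theorem iso_of_between {n d : ℕ} (hd : d ≠ 0) (H : AddSubgroup (Fin n → ℤ_[p]))
    (h : ∀ x, d • x ∈ H) : ∃ n', Nonempty (H ≃+ (Fin n' → ℤ_[p])) := by
  obtain ⟨a, m', w, hm, hw⟩ := zqaagrp2_unit (p := p) hd
  have hmc : (d : ℤ_[p]) = (p : ℤ_[p]) ^ a * m' := by rw [hm]; push_cast; rfl
  let H' : Submodule ℤ_[p] (Fin n → ℤ_[p]) :=
    { H with
      smul_mem' := by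
        intro c x hx
        obtain ⟨μ, hμ⟩ := gt2_appr a c
        have e : c • x = c.appr a • x + d • (w * μ) • x := by
          rw [← Nat.cast_smul_eq_nsmul ℤ_[p], ← Nat.cast_smul_eq_nsmul ℤ_[p], smul_smul, ← add_smul]
          congr 1
          rw [hmc]
          linear_combination hμ - (p : ℤ_[p]) ^ a * μ * hw
        rw [e]
        exact H.add_mem (H.nsmul_mem hx _) (h _) }
  exact ⟨_, ⟨(Module.finBasis ℤ_[p] H').equivFun.toAddEquiv⟩⟩

theorem iso_of_smul {n d : ℕ} (hd : d ≠ 0) {F : Type} [AddCommGroup F] [Finite F]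
    (g : (Fin n → ℤ_[p]) × F →+ V) (hg : Function.Injective g) (h : ∀ x, d • x ∈ g.range) :
    ∃ (n' : ℕ) (T : Type) (_ : AddCommGroup T), (Set.range fun t : T => d • t).Finite ∧
      Nonempty (V ≃+ (Fin n' → ℤ_[p]) × T) := by
  choose G0 hG0 using h
  let G : V →+ (Fin n → ℤ_[p]) × F :=
    AddMonoidHom.mk' G0 fun x y => hg (by rw [map_add, hG0, hG0, hG0, smul_add])
  have hG : ∀ x, g (G x) = d • x := hG0
  let φ : V →+ (Fin n → ℤ_[p]) := (AddMonoidHom.fst _ _).comp G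
  obtain ⟨n', ⟨e⟩⟩ := iso_of_between hd φ.range fun y => ⟨g (y, 0), by
    have h1 : G (g (y, 0)) = d • (y, 0) := hg (by rw [hG, map_nsmul])
    exact congrArg Prod.fst h1⟩
  let ρ : V →+ (Fin n' → ℤ_[p]) := e.toAddMonoidHom.comp φ.rangeRestrict
  have hk : ∀ x ∈ ρ.ker, ∃ f, g (0, f) = d • x := fun x hx => by
    have h1 : φ.rangeRestrict x = 0 := e.map_eq_zero_iff.1 hx
    have h2 : (G x).1 = 0 := congrArg Subtype.val h1
    exact ⟨(G x).2, by rw [← h2, hG]⟩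
  refine ⟨n', ρ.ker, inferInstance, ?_, split_of_bounded
    (mul_ne_zero (Nat.card_pos (α := F)).ne' hd) ρ
    (e.surjective.comp φ.rangeRestrict_surjective) fun x hx => ?_⟩
  · refine ((Set.finite_range fun f => g (0, f)).preimage Subtype.val_injective.injOn).subset ?_
    rintro _ ⟨t, rfl⟩
    exact hk t t.2
  · obtain ⟨f, hf⟩ := hk x hx
    rw [mul_smul, ← hf, ← map_nsmul, Prod.smul_mk, smul_zero, card_nsmul_eq_zero']
    exact map_zero g

theorem GTH.bounded {A B : AddSubgroup V} (h : GTH p B) (hBA : B ≤ A) {d : ℕ} (hd : d ≠ 0)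
    (hA : ∀ x ∈ A, d • x ∈ B) :
    ∃ (n : ℕ) (T : Type) (_ : AddCommGroup T), (Set.range fun t : T => d • t).Finite ∧
      Nonempty ((A ⧸ maxDiv A) ≃+ (Fin n → ℤ_[p]) × T) := by
  obtain ⟨n, F, i1, i2, ⟨e⟩⟩ := h.iso
  let g : (B ⧸ maxDiv B) →+ (A ⧸ maxDiv A) := QuotientAddGroup.map _ _
    (AddSubgroup.inclusion hBA) (AddSubgroup.map_le_iff_le_comap.1 (gt_map_maxDiv _))
  have h1 : (maxDiv A).comap (AddSubgroup.inclusion hBA) ≤ maxDiv B := by
    refine le_sSup fun m hm x hx => ?_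
    obtain ⟨y, hy, e1⟩ := maxDiv_div (mul_ne_zero hm hd) hx
    refine ⟨⟨d • y.1, hA _ y.2⟩, (maxDiv A).nsmul_mem hy d, AddSubgroup.inclusion_injective hBA ?_⟩
    rw [← e1, mul_smul]
    rfl
  have hg : Function.Injective g := by
    rw [injective_iff_map_eq_zero]
    intro x hx
    induction x using QuotientAddGroup.induction_on with
    | H x =>
      have hx' : ((AddSubgroup.inclusion hBA x : A) : A ⧸ maxDiv A) = 0 := hx
      rw [QuotientAddGroup.eq_zero_iff] at hx' ⊢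
      exact h1 hx'
  refine iso_of_smul hd (g.comp e.symm.toAddMonoidHom) (hg.comp e.symm.injective) fun x => ?_
  induction x using QuotientAddGroup.induction_on with
  | H x =>
    refine ⟨e ((⟨d • x.1, hA _ x.2⟩ : B) : B ⧸ maxDiv B), ?_⟩
    simp only [AddMonoidHom.comp_apply, AddEquiv.toAddMonoidHom_eq_coe, AddMonoidHom.coe_coe,
      AddEquiv.symm_apply_apply]
    rfl

end Pool.Agent.ZeroCyc
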