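import Pool.Agent.Lib.MP_796ce4_ag.ZQ.APush

/-! Push-forward of classes of zero-cycles. -/

namespace Pool.Agent.ZeroCyc

open Polynomial Module
open scoped Classical IntermediateField

set_option linter.unusedSectionVars false

variable {K L Λ : Type} [Field K] [CharZero K] [Field L] [Field Λ] [IsAlgClosed Λ] [Algebra K L]
  [Algebra K Λ] [Algebra L Λ] [IsScalarTower K L Λ] [FiniteDimensional K L] [IsGalois K Λ]
  {N M : ℕ} {J : Ideal (MvPolynomial (Fin (N + 1)) K)} {J' : Ideal (MvPolynomial (Fin (M + 1)) L)}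
  {𝓕 : Set (Fin (N + 1) → MvPolynomial (Fin (M + 1)) L)} {d : ℕ}

theorem zqapush2_mem {E : IntermediateField K Λ} (hE : imF K L Λ ≤ E) {w : Fin (M + 1) → Λ}
    (hw : ∀ i, w i ∈ E) (G : MvPolynomial (Fin (M + 1)) L) : MvPolynomial.aeval w G ∈ E := by
  induction G using MvPolynomial.induction_on with
  | C a =>
    rw [MvPolynomial.aeval_C]
    exact hE ⟨a, rfl⟩
  | add p q hp hq =>
    rw [map_add]
    exact add_mem hp hq
  | mul_X p i hp =>
    rw [map_mul, MvPolynomial.aeval_X]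
    exact mul_mem hp (hw i)

variable (J' Λ) in
/-- invariant cycles on the variety -/
noncomputable def zqapush2_G : AddSubgroup (PY Λ M →₀ ℤ) where
  carrier := {D | (∀ y, D y ≠ 0 → OnX J' y.rep) ∧ ∀ σ : Λ ≃ₐ[L] Λ, galC σ D = D}
  zero_mem' := ⟨fun _ h => absurd rfl h, fun _ => map_zero _⟩
  add_mem' := fun {a b} ha hb => ⟨fun y h => by
    by_cases h1 : a y = 0
    · exact hb.1 y fun h2 => h (by rw [Finsupp.add_apply, h1, h2, add_zero])
    · exact ha.1 y h1, fun σ => by rw [map_add, ha.2, hb.2]⟩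
  neg_mem' := fun {a} ha =>
    ⟨fun y h => ha.1 y fun h1 => h (by rw [Finsupp.neg_apply, h1, neg_zero]),
      fun σ => by rw [map_neg, ha.2]⟩

namespace Dom

theorem mem_Azero (h : Dom Λ J J' 𝓕 d) (hJ' : Homog J') {D : PY Λ M →₀ ℤ}
    (hD : D ∈ Cyc0 J' Λ) : clL J (imF K L Λ) (psh (fmap 𝓕) D) ∈ Azero Λ J := by
  have := charZero_of_injective_algebraMap (algebraMap K L).injective
  have := IsGalois.tower_top_of_isGalois K L Λ
  have := fin_imF (K := K) (L := L) (Λ := Λ)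
  refine ⟨?_, ?_⟩
  · have h1 := orb_mem (J := J) (fun y : PY Λ M => orb_nrm y.rep)
      (fun a b e => by rw [← orb_pj_nrm a, ← orb_pj_nrm b]; exact congrArg pj e)
      (galY (K := K)) (fun σ y => by
        obtain ⟨c, hc, e⟩ := orb_rep_pj (orb_gal_ne σ y.rep_nonzero)
        rw [galY, e, orb_nrm_smul hc, orb_nrm_gal])
      (imF K L Λ) D (fun σ hσ => by
        obtain ⟨τ, rfl⟩ := exists_of_fix hσ
        exact orb_inv_iff.1 hD.2.1 τ) (fun y => Finsupp.single (fmap 𝓕 y) 1)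
      (fun σ y hσ hy => by
        obtain ⟨τ, rfl⟩ := exists_of_fix hσ
        rw [galC_single, ← h.fmap_gal hJ' (hD.1 y hy) τ]
        rfl) (Atot Λ J)
      fun y hy L' h1 h2 h3 => by
        have hw : orb_nrm y.rep ≠ 0 :=
          smul_ne_zero (inv_ne_zero (orb_eps y.rep_nonzero)) y.rep_nonzero
        have hX : OnX J' (orb_nrm y.rep) := hJ'.smul _ _ (hD.1 y hy)
        obtain ⟨F, hF, h0⟩ := h.ne _ hw hX
        refine AddSubgroup.subset_closure ⟨L', _, h2, ⟨_, h0, h.on F hF _ hX,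
          fun i => zqapush2_mem h1 h3 _, ?_⟩, rfl⟩
        rw [← h.fmap_pj hJ' hw hX hF h0, orb_pj_nrm]
    simp only [Finsupp.smul_single, smul_eq_mul, mul_one] at h1
    exact h1
  · change (clL J (imF K L Λ) (psh (fmap 𝓕) D)).2 = 0
    rw [clL_snd, degree_psh, hD.2.2, Int.cast_zero, mul_zero]

/-- multiples of classes of closed points are push-forwards of invariant cycles -/
theorem exists_cyc (h : Dom Λ J J' 𝓕 d) (hJ' : Homog J') {x : VV Λ J} (hx : x ∈ Atot Λ J) :
    ∃ D : PY Λ M →₀ ℤ, (∀ y, D y ≠ 0 → OnX J' y.rep) ∧ (∀ σ : Λ ≃ₐ[L] Λ, galC σ D = D) ∧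
      clL J (imF K L Λ) (psh (fmap 𝓕) D) = d • x := by
  have := charZero_of_injective_algebraMap (algebraMap K L).injective
  have := IsGalois.tower_top_of_isGalois K L Λ
  have key : Atot Λ J ≤ ((zqapush2_G Λ J').map
      ((clL J (imF K L Λ)).comp (psh (fmap 𝓕)))).comap (nsmulAddMonoidHom d) := by
    refine (AddSubgroup.closure_le _).2 ?_
    rintro _ ⟨E, _, hE, ⟨v, hv, hX, hvE, rfl⟩, rfl⟩
    have h1 := (AddSubgroup.closure_le (((zqapush2_G Λ J').map
      ((clL J (imF K L Λ)).comp (psh (fmap 𝓕)))).comap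
        (zmultiplesHom _ (clL J ⊥ (Finsupp.single (pj v) 1))))).2 ?_ (h.deg E v hE hv hX hvE)
    · rw [AddSubgroup.mem_comap, zmultiplesHom_apply, mul_smul, natCast_zsmul, natCast_zsmul,
        ← clL_eq_nsmul (L' := E) (by rw [IntermediateField.finrank_bot, mul_one])] at h1
      exact h1
    rintro _ ⟨E', w, σ, c, hE', hL, hwE, hw, hXw, hc, ⟨F, hF, hFw⟩, rfl⟩
    obtain ⟨E'', hE'', hmem, hrk⟩ := exists_over_imF hL
    obtain ⟨n, s, hs⟩ := exists_fam_bot E''
    have e1 : (fun i => MvPolynomial.aeval w (F i)) = c • (σ ∘ v) := funext hFw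
    have e2 : fmap 𝓕 (pj w) = galY σ (pj v) := by
      rw [h.fmap_pj hJ' hw hXw hF (e1.trans_ne (smul_ne_zero hc (orb_gal_ne σ hv))), e1,
        pj_smul hc, galY_pj]
    have hy : OnX J' (pj w).rep := by
      obtain ⟨b, -, hb⟩ := orb_rep_pj hw
      rw [hb]
      exact hJ'.smul _ _ hXw
    refine ⟨∑ t, galC (s t) (Finsupp.single (pj w) 1), ⟨fun y hy' => ?_, fun τ => ?_⟩, ?_⟩
    · rw [Finsupp.finsetSum_apply] at hy'
      obtain ⟨t, -, ht⟩ := Finset.exists_ne_zero_of_sum_ne_zero hy'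
      rw [galC_single, galY_pj] at ht
      obtain ⟨b, -, hb⟩ := orb_rep_pj (orb_gal_ne (s t) hw)
      rw [(Finsupp.single_apply_ne_zero.1 ht).1, hb]
      refine hJ'.smul _ _ fun G hG => ?_
      have := MvPolynomial.comp_aeval_apply w (s t : Λ →ₐ[L] Λ) G
      rw [hXw G hG, map_zero] at this
      exact this.symm
    · obtain ⟨ρ, hρ⟩ := hs.perm τ (Fix.bot τ)
      rw [map_sum, ← Equiv.sum_comp ρ fun t => galC (s t) (Finsupp.single (pj w) 1)]
      refine Finset.sum_congr rfl fun t _ => ?_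
      rw [galC_single, galC_single, galC_single, galY_pj, galY_pj, galY_pj]
      congr 2
      exact funext fun i => hρ t _ ((hmem _).2 (hwE i))
    · have e3 : ∀ t, ((clL J (imF K L Λ)).comp (psh (fmap 𝓕)))
          (galC (s t) (Finsupp.single (pj w) 1)) =
          finrank K (imF K L Λ) • clL J ⊥ (Finsupp.single (pj v) 1) := fun t => by
        rw [AddMonoidHom.comp_apply, galC_single, psh_single, h.fmap_gal hJ' hy, e2,
          ← galC_single, ← galC_single, clL_gal, clL_gal]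
        exact clL_eq_nsmul (by rw [IntermediateField.finrank_bot, mul_one]) _
      have e4 := hs.card
      rw [IntermediateField.finrank_bot, mul_one] at e4
      rw [map_sum, Finset.sum_congr rfl fun t _ => e3 t, Finset.sum_const, Finset.card_univ, e4,
        smul_smul, hrk, zmultiplesHom_apply, natCast_zsmul]
  obtain ⟨D, hD, e⟩ := key hx
  exact ⟨D, hD.1, hD.2, e⟩

theorem exists_push (h : Dom Λ J J' 𝓕 d) (hJ' : Homog J') : ∃ Φ : A0 J' Λ →+ VV Λ J,
    Φ.range ≤ Azero Λ J ∧ ∀ x ∈ Azero Λ J, d • x ∈ Φ.range := by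
  have := charZero_of_injective_algebraMap (algebraMap K L).injective
  have := IsGalois.tower_top_of_isGalois K L Λ
  have := fin_imF (K := K) (L := L) (Λ := Λ)
  refine ⟨QuotientAddGroup.lift _ (((clL J (imF K L Λ)).comp (psh (fmap 𝓕))).comp
    (Cyc0 J' Λ).subtype) fun D hD => Prod.ext (h.ratEq hJ' hD) (h.mem_Azero hJ' D.2).2, ?_,
    fun x hx => ?_⟩
  · rintro _ ⟨q, rfl⟩
    obtain ⟨D, rfl⟩ := QuotientAddGroup.mk_surjective q
    exact h.mem_Azero hJ' D.2
  · obtain ⟨D, h1, h2, e⟩ := h.exists_cyc hJ' hx.1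
    have h3 : x.2 = 0 := hx.2
    have h4 := congrArg Prod.snd e
    rw [clL_snd, degree_psh, Prod.smul_snd, h3, smul_zero, mul_eq_zero, Nat.cast_eq_zero,
      Int.cast_eq_zero] at h4
    exact ⟨QuotientAddGroup.mk ⟨D, h1, orb_inv_iff.2 h2, h4.resolve_left finrank_pos.ne'⟩, e⟩

end Dom

end Pool.Agent.ZeroCyc
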