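import Pool.Agent.Lib.MP_796ce4_ag.ZQ.QMain
import Pool.Agent.Lib.MP_796ce4_ag.ZQ.APush2
import Pool.Agent.Lib.MP_796ce4_ag.ZQ.AGrp2

/-! The structure theorem for varieties that are covered by regular models. -/

namespace Pool.Agent.ZeroCyc

open Polynomial Module
open scoped Classical IntermediateField

set_option linter.unusedSectionVars false

variable (p : ℕ) [Fact p.Prime] (K : Type) [Field K] [Algebra ℚ_[p] K] [FiniteDimensional ℚ_[p] K]
  [Algebra ℤ_[p] K] [IsScalarTower ℤ_[p] ℚ_[p] K] {N : ℕ}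

variable {K} in
theorem Covered.gth {J : Ideal (MvPolynomial (Fin (N + 1)) K)} {d : ℕ} (h : Covered p J d) :
    ∃ B : AddSubgroup (VV (AlgebraicClosure K) J), GTH p B ∧ B ≤ Azero _ J ∧
      ∀ x ∈ Azero _ J, d • x ∈ B := by
  obtain ⟨L, _, _, _, _, _, _, _, M, I, 𝓕, hI, hD⟩ := h
  have : CharZero K := charZero_of_injective_algebraMap (algebraMap ℚ_[p] K).injective
  have : CharZero L := charZero_of_injective_algebraMap (algebraMap K L).injective
  have : Algebra.IsAlgebraic ℚ_[p] (AlgebraicClosure K) :=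
    Algebra.IsAlgebraic.trans ℚ_[p] K (AlgebraicClosure K)
  let : NormedField (AlgebraicClosure K) := spectralNorm.normedField ℚ_[p] (AlgebraicClosure K)
  let : NormedAlgebra ℚ_[p] (AlgebraicClosure K) := spectralNorm.normedAlgebra _ _
  have : IsUltrametricDist (AlgebraicClosure K) :=
    IsUltrametricDist.isUltrametricDist_of_forall_norm_add_le_max_norm
      (isNonarchimedean_spectralNorm (K := ℚ_[p]) (L := AlgebraicClosure K))
  let : Algebra ℚ_[p] L := ((algebraMap K L).comp (algebraMap ℚ_[p] K)).toAlgebra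
  have : IsScalarTower ℚ_[p] K L := IsScalarTower.of_algebraMap_eq fun _ => rfl
  have : IsScalarTower ℚ_[p] L (AlgebraicClosure K) := IsScalarTower.of_algebraMap_eq fun x => by
    rw [IsScalarTower.algebraMap_apply ℚ_[p] K L, ← IsScalarTower.algebraMap_apply K L,
      ← IsScalarTower.algebraMap_apply]
  have : IsScalarTower ℤ_[p] ℚ_[p] L := IsScalarTower.of_algebraMap_eq fun x => by
    rw [IsScalarTower.algebraMap_apply ℚ_[p] K L, ← IsScalarTower.algebraMap_apply ℤ_[p] ℚ_[p] K,
      ← IsScalarTower.algebraMap_apply]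
  have : FiniteDimensional ℚ_[p] L := Module.Finite.trans K L
  have : IsGalois L (AlgebraicClosure K) := IsGalois.tower_top_of_isGalois K L _
  have : Loc p L (AlgebraicClosure K) := loc_of_padic p L (AlgebraicClosure K)
  have : CharP (kk (AlgebraicClosure K)) p := tow_charP (p := p) (K := L)
  obtain ⟨π, hπ⟩ := exists_ints (p := p) (Λ := AlgebraicClosure K)
    (O := integralClosure ℤ_[p] L) (K := L)
    (fun c => norm_le_one_of_isIntegral p L (AlgebraicClosure K) c.2) Subtype.val_injective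
    fun x hx => ⟨⟨x, isIntegral_of_norm_le_one p L (AlgebraicClosure K) hx⟩, rfl⟩
  obtain ⟨n, F, _, _, ⟨e⟩⟩ := (hI.regX (p := p) rfl hπ).main (p := p)
  obtain ⟨Φ, h1, h2⟩ := hD.exists_push (Homog.map hI.hom _)
  exact ⟨Φ.range, by rw [AddMonoidHom.range_eq_map]; exact (gth_of_iso e).map Φ, h1, h2⟩

theorem final_cov (J : Ideal (MvPolynomial (Fin (N + 1)) K))
    (hJ : ∀ G ∈ J, ∀ n, MvPolynomial.homogeneousComponent n G ∈ J) (S : Finset ℕ)
    (hS : ∀ e ∈ S, Covered p J e) (hd : S.gcd id ≠ 0) :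
    ∃ (n : ℕ) (T : Type) (_ : AddCommGroup T), (Set.range fun t : T => S.gcd id • t).Finite ∧
      Nonempty ((A0 J (AlgebraicClosure K) ⧸ maxDiv (A0 J (AlgebraicClosure K))) ≃+
        (Fin n → ℤ_[p]) × T) := by
  have : CharZero K := charZero_of_injective_algebraMap (algebraMap ℚ_[p] K).injective
  have key : ∃ B : AddSubgroup (VV (AlgebraicClosure K) J), GTH p B ∧ B ≤ Azero _ J ∧
      ∀ x ∈ Azero _ J, S.gcd id • x ∈ B := by
    clear hd
    induction S using Finset.induction_on with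
    | empty => exact ⟨⊥, gth_bot, bot_le, fun x _ => by simp⟩
    | insert a S _ ih =>
      obtain ⟨B, h1, h2, h3⟩ := ih fun e he => hS e (Finset.mem_insert_of_mem he)
      obtain ⟨B', h1', h2', h3'⟩ := (hS a (Finset.mem_insert_self _ _)).gth p
      refine ⟨B' ⊔ B, h1'.sup h1, sup_le h2' h2, fun x hx => ?_⟩
      rw [Finset.gcd_insert, ← natCast_zsmul, id, gcd_eq_nat_gcd, Nat.gcd_eq_gcd_ab, add_zsmul,
        mul_comm, mul_zsmul, mul_comm, mul_zsmul, natCast_zsmul, natCast_zsmul]
      exact AddSubgroup.add_mem_sup (B'.zsmul_mem (h3' x hx) _) (B.zsmul_mem (h3 x hx) _)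
  obtain ⟨B, h1, h2, h3⟩ := key
  obtain ⟨n, T, _, hT, ⟨e⟩⟩ := h1.bounded h2 hd h3
  obtain ⟨e₁⟩ := A0_equiv (J := J) (Λ := AlgebraicClosure K) fun v c hv => Homog.smul hJ v c hv
  obtain ⟨e₂⟩ := maxDiv_congr e₁
  exact ⟨n, T, inferInstance, hT, ⟨e₂.trans e⟩⟩

/-- a variety with a regular model is covered by itself in degree one -/
theorem RegModel.covered {I : Ideal (MvPolynomial (Fin (N + 1)) (integralClosure ℤ_[p] K))}
    (hI : RegModel (integralClosure ℤ_[p] K) I) :
    Covered p (I.map (MvPolynomial.map (algebraMap _ K))) 1 := by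
  refine ⟨K, inferInstance, inferInstance, inferInstance, inferInstance, inferInstance,
    inferInstance, inferInstance, N, I, {MvPolynomial.X}, hI, ?_, ?_, ?_, ?_, ?_⟩
  · rintro _ rfl
    exact ⟨1, fun i => MvPolynomial.isHomogeneous_X _ i⟩
  · rintro _ rfl w hw
    simpa using hw
  · exact fun w hw _ => ⟨_, rfl, by simpa using hw⟩
  · rintro _ rfl _ rfl w _ i j
    rw [mul_comm]
  · intro E v hE hv hX hvE
    rw [Nat.cast_one, one_mul]
    exact AddSubgroup.subset_closure ⟨E, v, 1, 1, hE, E.algebraMap_mem, hvE, hv, hX, one_ne_zero,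
      ⟨_, rfl, fun i => by simp⟩, rfl⟩

end Pool.Agent.ZeroCyc
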