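import Pool.Agent.Lib.MP_796ce4_ag.ZQ.APl0

/-! Zeros and poles of a function on a curve. -/

namespace Pool.Agent.ZeroCyc

open Polynomial Module
open scoped Classical IntermediateField

set_option linter.unusedSectionVars false

variable {k F Λ : Type} [Field k] [CharZero k] [Field F] [Field Λ] [Algebra k F] [Algebra k Λ]
  [Algebra.IsAlgebraic k Λ]

theorem Place.Val.mv {σ : Type} {P : Place k F Λ} {g : σ → F} {w : σ → Λ}
    (h : ∀ i, P.Val (g i) (w i)) (G : MvPolynomial σ k) :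
    P.Val (MvPolynomial.aeval g G) (MvPolynomial.aeval w G) := by
  induction G using MvPolynomial.induction_on with
  | C a =>
    rw [MvPolynomial.aeval_C, MvPolynomial.aeval_C]
    exact P.val_alg a
  | add p q hp hq =>
    rw [map_add, map_add]
    exact hp.add hq
  | mul_X p i hp =>
    rw [map_mul, map_mul, MvPolynomial.aeval_X, MvPolynomial.aeval_X]
    exact hp.mul (h i)

theorem Place.exists_sp (P : Place k F Λ) {n : ℕ} {g : Fin n → F} (hg : g ≠ 0) :
    ∃ (c : F) (w : Fin n → Λ), c ≠ 0 ∧ w ≠ 0 ∧ ∀ i, P.Val (c * g i) (w i) := by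
  obtain ⟨j, hj⟩ := Function.ne_iff.1 hg
  obtain ⟨i, -, hi⟩ := Finset.exists_max_image Finset.univ (fun i => P.v (g i))
    ⟨j, Finset.mem_univ j⟩
  have h0 : 0 < P.v (g i) :=
    (zero_lt_iff.2 ((P.v.ne_zero_iff).2 hj)).trans_le (hi j (Finset.mem_univ j))
  have h1 : g i ≠ 0 := (P.v.ne_zero_iff).1 h0.ne'
  have h2 : ∀ l, (g i)⁻¹ * g l ∈ P.v.integer := fun l => by
    rw [Valuation.mem_integer_iff, map_mul, map_inv₀, inv_mul_le_iff₀ h0, mul_one]
    exact hi l (Finset.mem_univ l)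
  choose w hw using fun l => Place.exists_val (h2 l)
  refine ⟨_, w, inv_ne_zero h1, Function.ne_iff.2 ⟨i, Place.placea_ne_zero (hw i) ?_⟩, hw⟩
  rw [inv_mul_cancel₀ h1, map_one]

theorem sp_of_val' {N : ℕ} {P : Place k F Λ} {g : Fin (N + 1) → F} {c : F} {w : Fin (N + 1) → Λ}
    (h : ∀ i, P.Val (c * g i) (w i)) (hw : w ≠ 0) : Sp P g (pj w) := by
  have e : (fun i => P.ev ⟨c * g i, (h i).1⟩) = w := funext fun i => (h i).2
  refine ⟨c, fun i => (h i).1, by rwa [e], ?_⟩
  rw [pj_eq hw]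
  congr 1
  exact e.symm

theorem zqapl_alg {t : F} (hF : FiniteDimensional k⟮t⟯ F) {f : F} (hf : Transcendental k f) :
    IsAlgebraic k⟮f⟯ t := by
  by_cases ht : IsAlgebraic k t
  · exact ht.tower_top _
  · have h1 : IsAlgebraic k⟮t⟯ f := Algebra.IsAlgebraic.isAlgebraic f
    have h2 : IsAlgebraic (Algebra.adjoin k {f}) (algebraMap F F t) :=
      IsAlgebraic.adjoin_singleton ht hf (IntermediateField.isAlgebraic_adjoin_iff.1 h1)
    exact IntermediateField.isAlgebraic_adjoin_iff.2 h2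

theorem zqapl_fin {t : F} (hF : FiniteDimensional k⟮t⟯ F) {f : F} (hf : Transcendental k f) :
    FiniteDimensional k⟮f⟯ F := by
  have ha := (zqapl_alg hF hf).isIntegral
  set E : IntermediateField k⟮f⟯ F := k⟮f⟯⟮t⟯ with hE
  have : FiniteDimensional k⟮f⟯ E := IntermediateField.adjoin.finiteDimensional ha
  have h4 : k⟮t⟯ ≤ E.restrictScalars k :=
    IntermediateField.adjoin_simple_le_iff.2 (IntermediateField.mem_adjoin_simple_self k⟮f⟯ t)
  let : Algebra k⟮t⟯ E :=
    (Subfield.inclusion (S := k⟮t⟯.toSubfield) (T := E.toSubfield) fun _ hx => h4 hx).toAlgebra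
  have : IsScalarTower k⟮t⟯ E F := IsScalarTower.of_algebraMap_eq fun _ => rfl
  have : Module.Finite E F := Module.Finite.of_restrictScalars_finite k⟮t⟯ E F
  exact Module.Finite.trans E F

theorem place_finite {t : F} (hF : FiniteDimensional k⟮t⟯ F) {f : F} (hf : f ≠ 0) :
    {P : Place k F Λ | P.ord f ≠ 0}.Finite := by
  by_cases ha : IsAlgebraic k f
  · refine Set.finite_empty.subset fun P hP => hP ?_
    have h1 := (P.mem_iff hf).1 (Place.mem_of_isIntegral ha.isIntegral)
    have h2 := (P.mem_iff (inv_ne_zero hf)).1 (Place.mem_of_isIntegral ha.inv.isIntegral)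
    rw [P.ord_inv] at h2
    omega
  · have hi : Transcendental k f⁻¹ := fun h => ha (IsAlgebraic.inv_iff.1 h)
    refine ((zeros_finite (Λ := Λ) ha (zqapl_fin hF ha)).union
      (zeros_finite (Λ := Λ) hi (zqapl_fin hF hi))).subset fun P hP => ?_
    have h1 : P.ord f ≠ 0 := hP
    rcases lt_or_gt_of_ne h1 with h | h
    · exact Or.inr (by rw [Set.mem_ofPred_eq, P.ord_inv]; omega)
    · exact Or.inl h

end Pool.Agent.ZeroCyc
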