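import Pool.Agent.Lib.MP_796ce4_ag.ZY.R0

/-! Zeros of a function on a curve. -/

namespace Pool.Agent.ZeroCyc

open Polynomial Module
open scoped Classical IntermediateField

set_option linter.unusedSectionVars false

variable {k F Λ : Type} [Field k] [CharZero k] [Field F] [Field Λ] [Algebra k F] [Algebra k Λ]
  [Algebra.IsAlgebraic k Λ]

/-- two places with the same valuation ring have the same valuation -/
theorem zqapl0_v {P Q : Place k F Λ} (h : ∀ x, P.v x ≤ 1 ↔ Q.v x ≤ 1) : P.v = Q.v := by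
  have e := Valuation.isEquiv_of_val_le_one h
  have key : ∀ {P Q : Place k F Λ}, P.v.IsEquiv Q.v → ∀ π : F, P.v π = WithZero.exp (-1) →
      ∀ x : F, x ≠ 0 → WithZero.log (Q.v x) = -WithZero.log (P.v x) * WithZero.log (Q.v π) := by
    intro P Q e π hπ x hx
    have h1 : P.v x = P.v (π ^ (-WithZero.log (P.v x))) := by
      rw [map_zpow₀, hπ, ← WithZero.exp_zsmul, smul_eq_mul, mul_neg_one, neg_neg,
        WithZero.exp_log ((P.v.ne_zero_iff).2 hx)]
    rw [e.eq_iff.1 h1, map_zpow₀, WithZero.log_zpow, smul_eq_mul]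
  obtain ⟨π, hπ⟩ := P.surj (WithZero.exp (-1))
  obtain ⟨ρ, hρ⟩ := Q.surj (WithZero.exp (-1))
  have h0 : π ≠ 0 := P.v.ne_zero_iff.1 (hπ ▸ WithZero.exp_ne_zero)
  have h1 : ρ ≠ 0 := Q.v.ne_zero_iff.1 (hρ ▸ WithZero.exp_ne_zero)
  have h2 := key e π hπ ρ h1
  have h3 : WithZero.log (Q.v π) < 0 := by
    rw [WithZero.log_lt_iff_lt_exp ((Q.v.ne_zero_iff).2 h0), WithZero.exp_zero, ← e.lt_one_iff_lt_one,
      hπ, ← WithZero.exp_zero, WithZero.exp_lt_exp]
    norm_num
  rw [hρ, WithZero.log_exp] at h2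
  have h4 : WithZero.log (Q.v π) = -1 := by
    rcases Int.eq_one_or_neg_one_of_mul_eq_neg_one ((mul_comm _ _).trans h2.symm) with h | h
    · omega
    · exact h
  ext x
  by_cases hx : x = 0
  · rw [hx, map_zero, map_zero]
  · rw [← WithZero.exp_log ((Q.v.ne_zero_iff).2 hx), key e π hπ x hx, h4, mul_neg_one, neg_neg,
      WithZero.exp_log ((P.v.ne_zero_iff).2 hx)]

section

variable {C : Type} [CommRing C] [IsDedekindDomain C] [Algebra C F] [IsFractionRing C F]

theorem zqapl0_alt (φ : C →+* Λ) {a : C} (ha : a ≠ 0) (h0 : φ a = 0) (x : F) :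
    (∃ c, ∀ P : Place k F Λ, (∀ y, P.Val (algebraMap C F y) (φ y)) → P.Val x c) ∨
      ∀ P : Place k F Λ, (∀ y, P.Val (algebraMap C F y) (φ y)) → 1 < P.v x := by
  have key : ∀ n d : C, φ d ≠ 0 → x * algebraMap C F d = algebraMap C F n →
      ∃ c, ∀ P : Place k F Λ, (∀ y, P.Val (algebraMap C F y) (φ y)) → P.Val x c :=
    fun n d hd e => ⟨φ n * (φ d)⁻¹, fun P hP => by
      have h1 : algebraMap C F d ≠ 0 := fun h => hd (by
        rw [(IsFractionRing.to_map_eq_zero_iff (K := F)).1 h, map_zero])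
      rw [(eq_mul_inv_iff_mul_eq₀ h1).2 e]
      exact (hP n).mul ((hP d).inv hd)⟩
  obtain ⟨n, ⟨d, hd⟩, e | e⟩ :=
    IsDedekindDomain.HeightOneSpectrum.exists_primeCompl_mul_eq_or_mul_eq (K := F)
      ⟨RingHom.ker φ, RingHom.ker_isPrime φ, fun h => ha ((Submodule.eq_bot_iff _).1 h a h0)⟩ x
  · exact Or.inl (key n d hd e)
  · by_cases hn : φ n = 0
    · refine Or.inr fun P hP => not_le.1 fun h => hd ?_
      refine (hP d).eq_zero_iff.2 ?_
      rw [← show x * algebraMap C F n = algebraMap C F d from e, map_mul, mul_comm]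
      exact mul_lt_one_of_lt_of_le ((hP n).eq_zero_iff.1 hn) h
    · exact Or.inl (key d n hn e)

theorem zqapl0_uniq (φ : C →+* Λ) {a : C} (ha : a ≠ 0) (h0 : φ a = 0) {P Q : Place k F Λ}
    (hP : ∀ y, P.Val (algebraMap C F y) (φ y)) (hQ : ∀ y, Q.Val (algebraMap C F y) (φ y)) :
    P = Q := by
  refine Place.ext' (zqapl0_v fun x => ?_) fun x c hc => ?_ <;>
    rcases zqapl0_alt (k := k) φ ha h0 x with ⟨d, h⟩ | h
  · exact iff_of_true (h P hP).1 (h Q hQ).1
  · exact iff_of_false (not_le.2 (h P hP)) (not_le.2 (h Q hQ))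
  · rw [hc.unique (h P hP)]
    exact h Q hQ
  · exact absurd hc.1 (not_le.2 (h P hP))

end

open scoped IntermediateField.algebraAdjoinAdjoin in
theorem zeros_finite {f : F} (ht : Transcendental k f) (hF : FiniteDimensional k⟮f⟯ F) :
    {P : Place k F Λ | 0 < P.ord f}.Finite := by
  have hf : f ≠ 0 := fun h => ht (h ▸ isAlgebraic_zero)
  let e := Polynomial.algEquivOfTranscendental k f ht
  have : IsPrincipalIdealRing (Algebra.adjoin k {f}) :=
    IsPrincipalIdealRing.of_surjective e e.surjective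
  have : CharZero k⟮f⟯ := charZero_of_injective_algebraMap (algebraMap k _).injective
  have := IsIntegralClosure.isDedekindDomain (Algebra.adjoin k {f}) k⟮f⟯ F
    (integralClosure (Algebra.adjoin k {f}) F)
  have := IsIntegralClosure.finite (Algebra.adjoin k {f}) k⟮f⟯ F
    (integralClosure (Algebra.adjoin k {f}) F)
  have := integralClosure.isFractionRing_of_finite_extension (A := Algebra.adjoin k {f}) k⟮f⟯ F
  let : Algebra (Algebra.adjoin k {f}) Λ :=
    ((aeval (0 : Λ)).comp e.symm.toAlgHom).toRingHom.toAlgebra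
  have key : ∀ P : {P : Place k F Λ | 0 < P.ord f},
      ∃ φ : integralClosure (Algebra.adjoin k {f}) F →ₐ[Algebra.adjoin k {f}] Λ,
        P.1.Val f 0 ∧ ∀ y, P.1.Val (algebraMap _ F y) (φ y) := by
    rintro ⟨P, hP⟩
    have h1 : P.Val f 0 := by
      obtain ⟨c, hc⟩ := Place.exists_val ((P.mem_iff hf).2 hP.le)
      by_cases h : c = 0
      · exact h ▸ hc
      · exact absurd (hc.ord_eq_zero h) hP.ne'
    have h2 : ∀ a : Algebra.adjoin k {f}, P.Val a (algebraMap _ Λ a) := fun a => by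
      obtain ⟨g, rfl⟩ := e.surjective a
      have h3 : algebraMap _ Λ (e g) = aeval (0 : Λ) (e.symm (e g)) := rfl
      rw [h3, e.symm_apply_apply, show ((e g : Algebra.adjoin k {f}) : F) = aeval f g by simp [e]]
      exact h1.aeval g
    have h3 : ∀ y : integralClosure (Algebra.adjoin k {f}) F, (y : F) ∈ P.v.integer := fun y => by
      let ψ : Algebra.adjoin k {f} →+* P.v.integer :=
        (algebraMap _ F).codRestrict P.v.integer fun c => (h2 c).1
      refine (Valuation.integer.integers P.v).mem_of_integral ?_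
      obtain ⟨g, hg, hy⟩ := y.2
      refine ⟨g.map ψ, hg.map ψ, ?_⟩
      rw [Polynomial.eval₂_map]
      exact hy
    exact ⟨{ P.ev.comp ((integralClosure (Algebra.adjoin k {f}) F).val.toRingHom.codRestrict
      P.v.integer h3) with commutes' := fun c => (h2 c).2 }, h1, fun y => ⟨h3 y, rfl⟩⟩
  choose φ h1 h2 using key
  refine Set.finite_coe_iff.1 (Finite.of_injective φ fun P Q h => Subtype.ext ?_)
  have h3 : IsIntegral (Algebra.adjoin k {f}) f :=
    isIntegral_algebraMap (x := (⟨f, Algebra.self_mem_adjoin_singleton k f⟩ : Algebra.adjoin k {f}))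
  exact zqapl0_uniq (φ P).toRingHom (a := ⟨f, h3⟩) (fun h => hf (congrArg Subtype.val h))
    ((h2 P ⟨f, h3⟩).unique (h1 P)) (h2 P) (h ▸ h2 Q)

end Pool.Agent.ZeroCyc
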