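import Pool.Agent.Lib.MP_796ce4_ag.ZY.R0
import Pool.Agent.Lib.MP_796ce4_ag.ZY.Orb

/-! Norms from an abstract finite extension. -/

namespace Pool.Agent.ZeroCyc

open Polynomial Module
open scoped Classical IntermediateField

set_option linter.unusedSectionVars false

variable {K L Λ : Type} [Field K] [CharZero K] [Field L] [Field Λ] [IsAlgClosed Λ] [Algebra K L]
  [Algebra K Λ] [Algebra L Λ] [IsScalarTower K L Λ] [FiniteDimensional K L] [IsGalois K Λ]
  {N : ℕ} {J : Ideal (MvPolynomial (Fin (N + 1)) K)}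

variable (K L Λ) in
/-- the image of `L` -/
noncomputable def imF : IntermediateField K Λ := (IsScalarTower.toAlgHom K L Λ).fieldRange

theorem finrank_imF : finrank K (imF K L Λ) = finrank K L := by
  exact (AlgEquiv.ofInjectiveField (IsScalarTower.toAlgHom K L Λ)).toLinearEquiv.finrank_eq.symm

theorem fin_imF : FiniteDimensional K (imF K L Λ) := by
  exact (AlgEquiv.ofInjectiveField (IsScalarTower.toAlgHom K L Λ)).toLinearEquiv.finiteDimensional

theorem fix_imF (σ : Λ ≃ₐ[L] Λ) : Fix (imF K L Λ) (σ.restrictScalars K) := by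
  rintro _ ⟨x, rfl⟩
  exact σ.commutes x

theorem exists_of_fix {σ : Λ ≃ₐ[K] Λ} (h : Fix (imF K L Λ) σ) :
    ∃ τ : Λ ≃ₐ[L] Λ, τ.restrictScalars K = σ := by
  exact ⟨AlgEquiv.ofRingEquiv (f := (σ : Λ ≃+* Λ)) fun x => h _ ⟨x, rfl⟩, rfl⟩

/-- a field that contains the image of `L`, as an extension of `L` -/
theorem exists_over_imF {E : IntermediateField K Λ} [FiniteDimensional K E]
    (h : ∀ x : L, algebraMap L Λ x ∈ E) : ∃ E' : IntermediateField L Λ, FiniteDimensional L E' ∧
      (∀ x, x ∈ E' ↔ x ∈ E) ∧ finrank L E' * finrank K (imF K L Λ) = finrank K E := by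
  let E' : IntermediateField L Λ := E.toSubfield.toIntermediateField h
  have h1 : E'.restrictScalars K = E := rfl
  have h2 : FiniteDimensional K E' := inferInstanceAs (FiniteDimensional K E)
  refine ⟨E', Module.Finite.of_restrictScalars_finite K L E', fun _ => Iff.rfl, ?_⟩
  rw [finrank_imF, mul_comm, Module.finrank_mul_finrank]
  rfl

theorem R0' {F : Type} [Field F] [Algebra K F] [Algebra L F] [IsScalarTower K L F] {t : F}
    (ht : Transcendental L t) (hF : FiniteDimensional L⟮t⟯ F) {f : F} (hf : f ≠ 0)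
    {s : Finset (Place L F Λ)} (hs : ∀ P : Place L F Λ, P.ord f ≠ 0 → P ∈ s)
    {g : Fin (N + 1) → F} (hg : g ≠ 0) (hX : OnX J g) (y : Place L F Λ → PY Λ N)
    (hy : ∀ P ∈ s, Sp P g (y P)) :
    (clL J (imF K L Λ) (∑ P ∈ s, Finsupp.single (y P) (P.ord f))).1 = 0 := by
  have := fin_imF (K := K) (L := L) (Λ := Λ)
  let e : L ≃ₐ[K] imF K L Λ := AlgEquiv.ofInjectiveField (IsScalarTower.toAlgHom K L Λ)
  have he : ∀ x : L, (e x : Λ) = algebraMap L Λ x := fun _ => rfl
  let : Algebra (imF K L Λ) F := ((algebraMap L F).comp (e.symm : imF K L Λ →+* L)).toAlgebra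
  have ha : ∀ c : imF K L Λ, algebraMap (imF K L Λ) F c = algebraMap L F (e.symm c) := fun _ => rfl
  have : IsScalarTower K (imF K L Λ) F := IsScalarTower.of_algebraMap_eq fun c => by
    rw [ha, e.symm.commutes, ← IsScalarTower.algebraMap_apply]
  have ht' : Transcendental (imF K L Λ) t := (ht.of_tower_top K).extendScalars _
  have h1 : ∀ c : L, algebraMap L F c ∈ (imF K L Λ)⟮t⟯.toSubfield := fun c => by
    have h2 := (imF K L Λ)⟮t⟯.algebraMap_mem (e c)
    rwa [ha, e.symm_apply_apply] at h2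
  have h4 : L⟮t⟯ ≤ (imF K L Λ)⟮t⟯.toSubfield.toIntermediateField h1 :=
    IntermediateField.adjoin_simple_le_iff.2 (IntermediateField.mem_adjoin_simple_self _ t)
  have hF' : FiniteDimensional (imF K L Λ)⟮t⟯ F := by
    let : Algebra L⟮t⟯ (imF K L Λ)⟮t⟯ := (Subfield.inclusion (S := L⟮t⟯.toSubfield)
      (T := (imF K L Λ)⟮t⟯.toSubfield) h4).toAlgebra
    have : IsScalarTower L⟮t⟯ (imF K L Λ)⟮t⟯ F := IsScalarTower.of_algebraMap_eq fun _ => rfl
    exact Module.Finite.of_restrictScalars_finite L⟮t⟯ _ F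
  let Ψ : Place L F Λ ≃ Place (imF K L Λ) F Λ :=
    { toFun := fun P => ⟨P.v, P.surj, P.ev, fun c => by
        obtain ⟨h, h'⟩ := P.ev_alg (e.symm c)
        refine ⟨h, h'.trans ?_⟩
        rw [← he, e.apply_symm_apply]
        rfl⟩
      invFun := fun P => ⟨P.v, P.surj, P.ev, fun c => by
        obtain ⟨h, h'⟩ := P.ev_alg (e c)
        have h3 : algebraMap (imF K L Λ) F (e c) = algebraMap L F c := by
          rw [ha, e.symm_apply_apply]
        exact ⟨h3 ▸ h, (congrArg P.ev (Subtype.ext h3.symm)).trans h'⟩⟩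
      left_inv := fun _ => rfl
      right_inv := fun _ => rfl }
  have h0 := R0 (J := J) ht' hF' hf (s := s.map Ψ.toEmbedding)
    (fun P hP => Finset.mem_map.2 ⟨Ψ.symm P, hs _ hP, Ψ.apply_symm_apply P⟩) hg hX
    (fun P => y (Ψ.symm P)) (fun P hP => by
      obtain ⟨Q, hQ, rfl⟩ := Finset.mem_map.1 hP
      exact hy Q hQ)
  rw [Finset.sum_map] at h0
  exact h0

end Pool.Agent.ZeroCyc
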