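import Pool.Agent.Lib.MP_796ce4_ag.ZQ.ADefs
import Pool.Agent.Lib.MP_796ce4_ag.ZQ.APl
import Pool.Agent.Lib.MP_796ce4_ag.ZQ.AR0
import Pool.Agent.Lib.MP_796ce4_ag.ZY.ChA

/-! Push-forward of zero-cycles. -/

namespace Pool.Agent.ZeroCyc

open Polynomial Module
open scoped Classical IntermediateField

set_option linter.unusedSectionVars false

variable {K L Λ : Type} [Field K] [CharZero K] [Field L] [Field Λ] [IsAlgClosed Λ] [Algebra K L]
  [Algebra K Λ] [Algebra L Λ] [IsScalarTower K L Λ] [FiniteDimensional K L] [IsGalois K Λ]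
  {N M : ℕ} {J : Ideal (MvPolynomial (Fin (N + 1)) K)} {J' : Ideal (MvPolynomial (Fin (M + 1)) L)}
  {𝓕 : Set (Fin (N + 1) → MvPolynomial (Fin (M + 1)) L)} {d : ℕ}

/-- homogeneous ideals -/
def Homog {σ R : Type} [CommRing R] (I : Ideal (MvPolynomial σ R)) : Prop :=
  ∀ G ∈ I, ∀ n, MvPolynomial.homogeneousComponent n G ∈ I

theorem zqapush_hom {σ R T : Type} [CommRing R] [CommRing T] [Algebra R T] {G : MvPolynomial σ R}
    {k : ℕ} (hG : G.IsHomogeneous k) (c : T) (v : σ → T) :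
    MvPolynomial.aeval (c • v) G = c ^ k * MvPolynomial.aeval v G :=
  eval₂_smul_homog hG _ c v

theorem zqapush_smul {R F : Type} [Field R] {n : ℕ} {I : Ideal (MvPolynomial (Fin (n + 1)) R)}
    (h : Homog I) [Field F] [Algebra R F] {v : Fin (n + 1) → F} (c : F) (hv : OnX I v) :
    OnX I (c • v) := fun G hG => by
  rw [← MvPolynomial.sum_homogeneousComponent G, map_sum]
  refine Finset.sum_eq_zero fun k _ => ?_
  rw [zqapush_hom (MvPolynomial.homogeneousComponent_isHomogeneous k G), hv _ (h G hG k), mul_zero]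

theorem zqapush_prop {ι T : Type} [Field T] {a b : ι → T} (ha : a ≠ 0)
    (h : ∀ i j, a i * b j = a j * b i) : ∃ c : T, b = c • a := by
  obtain ⟨i, hi⟩ := Function.ne_iff.1 ha
  have hi' : a i ≠ 0 := hi
  refine ⟨b i / a i, funext fun j => ?_⟩
  rw [Pi.smul_apply, smul_eq_mul, div_mul_eq_mul_div, eq_div_iff hi', mul_comm, h, mul_comm]

theorem zqapush_comp {T : Type} [Field T] [Algebra K T] [Algebra L T] [IsScalarTower K L T]
    (F : Fin (N + 1) → MvPolynomial (Fin (M + 1)) L) (x : Fin (M + 1) → T)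
    (G : MvPolynomial (Fin (N + 1)) K) :
    MvPolynomial.aeval x (MvPolynomial.aeval F G) =
      MvPolynomial.aeval (fun i => MvPolynomial.aeval x (F i)) G :=
  MvPolynomial.comp_aeval_apply F ((MvPolynomial.aeval x).restrictScalars K) G

theorem Homog.map {σ R S : Type} [CommRing R] [CommRing S] {I : Ideal (MvPolynomial σ R)}
    (h : Homog I) (φ : R →+* S) : Homog (I.map (MvPolynomial.map φ)) := by
  intro G hG n
  let := MvPolynomial.gradedAlgebra (σ := σ) (R := S)
  have e : I.map (MvPolynomial.map φ) = Ideal.span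
      {x | ∃ G ∈ I, ∃ k, x = MvPolynomial.map φ (MvPolynomial.homogeneousComponent k G)} := by
    refine le_antisymm (Ideal.map_le_iff_le_comap.2 fun G hG => ?_) (Ideal.span_le.2 ?_)
    · rw [Ideal.mem_comap, ← MvPolynomial.sum_homogeneousComponent G, map_sum]
      exact Ideal.sum_mem _ fun k _ => Ideal.subset_span ⟨G, hG, k, rfl⟩
    · rintro _ ⟨G, hG, k, rfl⟩
      exact Ideal.mem_map_of_mem _ (h G hG k)
  rw [e] at hG ⊢
  refine MvPolynomial.homogeneousComponent_mem_of_mem (Ideal.homogeneous_span _ _ ?_) hG n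
  rintro _ ⟨G, -, k, rfl⟩
  exact ⟨k, (MvPolynomial.homogeneousComponent_isHomogeneous k G).map φ⟩

theorem Homog.smul (h : Homog J) {F : Type} [Field F] [Algebra K F] (v : Fin (N + 1) → F) (c : F)
    (hv : OnX J v) : OnX J (c • v) := by
  exact zqapush_smul h c hv

/-- a polynomial that vanishes at the points over `Λ` vanishes at all points -/
theorem vanish_of_pts {G : MvPolynomial (Fin (M + 1)) L}
    (h : ∀ w : Fin (M + 1) → Λ, OnX J' w → MvPolynomial.aeval w G = 0) {F : Type} [Field F]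
    [Algebra L F] {g : Fin (M + 1) → F} (hg : OnX J' g) : MvPolynomial.aeval g G = 0 := by
  have h1 : G ∈ J'.radical := by
    rw [← MvPolynomial.vanishingIdeal_zeroLocus_eq_radical (K := Λ)]
    exact h
  obtain ⟨n, hn⟩ := h1
  have h2 := hg _ hn
  rw [map_pow] at h2
  exact eq_zero_of_pow_eq_zero h2

variable (𝓕) in
/-- the map on points -/
noncomputable def fmap (y : PY Λ M) : PY Λ N :=
  if h : ∃ F ∈ 𝓕, (fun i => MvPolynomial.aeval y.rep (F i)) ≠ 0 then
    pj fun i => MvPolynomial.aeval y.rep (h.choose i) else pj 0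

namespace Dom

theorem fmap_pj (h : Dom Λ J J' 𝓕 d) (hJ' : Homog J') {w : Fin (M + 1) → Λ} (hw : w ≠ 0)
    (hX : OnX J' w) {F : Fin (N + 1) → MvPolynomial (Fin (M + 1)) L} (hF : F ∈ 𝓕)
    (h0 : (fun i => MvPolynomial.aeval w (F i)) ≠ 0) :
    fmap 𝓕 (pj w) = pj fun i => MvPolynomial.aeval w (F i) := by
  obtain ⟨c, hc, e⟩ := orb_rep_pj hw
  obtain ⟨k, hk⟩ := h.hom F hF
  have e1 : (fun i => MvPolynomial.aeval (pj w).rep (F i)) =
      c ^ k • fun i => MvPolynomial.aeval w (F i) := funext fun i => by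
    rw [e, zqapush_hom (hk i)]
    rfl
  have h1 : (fun i => MvPolynomial.aeval (pj w).rep (F i)) ≠ 0 := by
    rw [e1]
    exact smul_ne_zero (pow_ne_zero _ hc) h0
  have hex : ∃ F ∈ 𝓕, (fun i => MvPolynomial.aeval (pj w).rep (F i)) ≠ 0 := ⟨F, hF, h1⟩
  have hX' : OnX J' (pj w).rep := e ▸ zqapush_smul hJ' c hX
  obtain ⟨c', e2⟩ := zqapush_prop h1
    (b := fun i => MvPolynomial.aeval (pj w).rep (hex.choose i)) fun i j => by
      have := h.glue F hF _ hex.choose_spec.1 _ hX' i j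
      rwa [map_mul, map_mul] at this
  have h2 : c' ≠ 0 := fun h2 => hex.choose_spec.2 (by rw [e2, h2, zero_smul])
  rw [fmap, dif_pos hex, e2, pj_smul h2, e1, pj_smul (pow_ne_zero _ hc)]

theorem fmap_gal (h : Dom Λ J J' 𝓕 d) (hJ' : Homog J') {y : PY Λ M} (hy : OnX J' y.rep)
    (σ : Λ ≃ₐ[L] Λ) : fmap 𝓕 (galY σ y) = galY (σ.restrictScalars K) (fmap 𝓕 y) := by
  obtain ⟨F, hF, h0⟩ := h.ne y.rep y.rep_nonzero hy
  have e : ∀ G : MvPolynomial (Fin (M + 1)) L,
      MvPolynomial.aeval (σ ∘ y.rep) G = σ (MvPolynomial.aeval y.rep G) := fun G =>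
    (MvPolynomial.comp_aeval_apply y.rep (σ : Λ →ₐ[L] Λ) G).symm
  have hX : OnX J' (σ ∘ y.rep) := fun G hG => by rw [e, hy G hG, map_zero]
  have h1 := h.fmap_pj hJ' y.rep_nonzero hy hF h0
  have e1 : (fun i => MvPolynomial.aeval (σ ∘ y.rep) (F i)) =
      σ.restrictScalars K ∘ fun i => MvPolynomial.aeval y.rep (F i) := funext fun i => e _
  rw [pj_rep] at h1
  rw [h1, galY_pj, galY, ← e1]
  exact h.fmap_pj hJ' (r0_comp_ne (σ.restrictScalars K) y.rep_nonzero) hX hF
    (e1.trans_ne (r0_comp_ne _ h0))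

theorem ratEq (h : Dom Λ J J' 𝓕 d) (hJ' : Homog J') {D : PY Λ M →₀ ℤ} (hD : D ∈ RatEq J' Λ) :
    (clL J (imF K L Λ) (psh (fmap 𝓕) D)).1 = 0 := by
  refine (AddSubgroup.closure_le (((AddMonoidHom.fst _ _).comp
    ((clL J (imF K L Λ)).comp (psh (fmap 𝓕)))).ker)).2 ?_ hD
  rintro D ⟨F, _, _, t, ht, hF, g, f, hg, hX, hf, hD⟩
  change (clL J (imF K L Λ) (psh (fmap 𝓕) D)).1 = 0
  have : CharZero L := charZero_of_injective_algebraMap (algebraMap K L).injective
  have : Algebra.IsAlgebraic L Λ := Algebra.IsAlgebraic.tower_top (K := K) L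
  let : Algebra K F := ((algebraMap L F).comp (algebraMap K L)).toAlgebra
  have : IsScalarTower K L F := IsScalarTower.of_algebraMap_eq fun _ => rfl
  choose c w hc hw hv using fun P : Place L F Λ => P.exists_sp hg
  obtain ⟨s, hs⟩ : ∃ s : Finset (Place L F Λ), ∀ P : Place L F Λ, P.ord f ≠ 0 → P ∈ s :=
    ⟨(place_finite hF hf).toFinset, fun P hP => (Set.Finite.mem_toFinset _).2 hP⟩
  have eD : D = ∑ P ∈ s, Finsupp.single (pj (w P)) (P.ord f) := by
    ext z
    have h1 : ∀ P : Place L F Λ, (∑ᶠ (_ : Sp P g z), -WithZero.log (P.v f)) =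
        if Sp P g z then P.ord f else 0 := fun P => finsum_eq_if
    rw [hD]
    simp only [h1]
    rw [finsum_eq_sum_of_support_subset (s := s), Finsupp.finsetSum_apply]
    · refine Finset.sum_congr rfl fun P _ => ?_
      rw [Finsupp.single_apply]
      exact if_congr ⟨fun h => Sp.unique (sp_of_val' (hv P) (hw P)) h,
        fun e => e ▸ sp_of_val' (hv P) (hw P)⟩ rfl rfl
    · intro P hP
      refine hs P fun h0 => hP ?_
      simp only [h0, ite_self]
  have hv' : ∀ (P : Place L F Λ) (G : MvPolynomial (Fin (M + 1)) L),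
      P.Val (MvPolynomial.aeval (c P • g) G) (MvPolynomial.aeval (w P) G) := fun P G =>
    Place.Val.mv (g := c P • g) (hv P) G
  have hz : ∀ P : Place L F Λ, P.Val 0 0 := fun P => by simpa using P.val_alg 0
  have hw' : ∀ P, OnX J' (w P) := fun P G hG =>
    (hv' P G).unique (by rw [zqapush_smul hJ' (c P) hX G hG]; exact hz P)
  choose Φ hΦ hΦ' using fun P => h.ne (w P) (hw P) (hw' P)
  rcases s.eq_empty_or_nonempty with h0 | ⟨P₀, -⟩
  · rw [eD, h0, Finset.sum_empty, map_zero, map_zero]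
    rfl
  have hg' : (fun i => MvPolynomial.aeval g (Φ P₀ i)) ≠ 0 := fun h0 => by
    obtain ⟨k, hk⟩ := h.hom _ (hΦ P₀)
    refine hΦ' P₀ (funext fun i => (hv' P₀ _).unique ?_)
    rw [zqapush_hom (hk i), show MvPolynomial.aeval g (Φ P₀ i) = 0 from congrFun h0 i, mul_zero]
    exact hz P₀
  rw [eD, map_sum]
  simp only [psh_single]
  refine R0' ht hF hf hs hg' (fun G hG => ?_) _ fun P _ => ?_
  · rw [← zqapush_comp]
    refine vanish_of_pts (Λ := Λ) (fun x hx => ?_) hX
    rw [zqapush_comp]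
    exact h.on _ (hΦ P₀) x hx G hG
  · obtain ⟨k, hk⟩ := h.hom _ (hΦ P)
    obtain ⟨c', e⟩ := zqapush_prop hg' (b := fun i => MvPolynomial.aeval g (Φ P i)) fun i j => by
      have := vanish_of_pts (Λ := Λ) (G := Φ P₀ i * Φ P j - Φ P₀ j * Φ P i) (fun x hx => by
        rw [map_sub, h.glue _ (hΦ P₀) _ (hΦ P) x hx, sub_self]) hX
      rwa [map_sub, map_mul, map_mul, sub_eq_zero] at this
    rw [h.fmap_pj hJ' (hw P) (hw' P) (hΦ P) (hΦ' P)]
    refine sp_of_val' (c := c P ^ k * c') (fun i => ?_) (hΦ' P)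
    have := hv' P (Φ P i)
    rwa [zqapush_hom (hk i), show MvPolynomial.aeval g (Φ P i) = _ from congrFun e i,
      Pi.smul_apply, smul_eq_mul, ← mul_assoc] at this

end Dom

end Pool.Agent.ZeroCyc
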