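import Pool.Agent.Lib.MP_796ce4_ag.ZQ.CRG
import Pool.Agent.Lib.MP_796ce4_ag.ZY.ChG
import Pool.Agent.Lib.MP_796ce4_ag.ZY.ChK

/-! The data of a chart and their descent. -/

namespace Pool.Agent.ZeroCyc

open Polynomial Module
open scoped Classical IntermediateField PowerSeries

set_option linter.unusedSectionVars false

variable {K Λ : Type} [Field K] [CharZero K] [NormedField Λ] [IsUltrametricDist Λ] [IsAlgClosed Λ]
  [Algebra K Λ] {N : ℕ}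

/-- a hypersurface model with a lift of the reduced equation and a good locus -/
structure Dat (J : Ideal (MvPolynomial (Fin (N + 1)) K)) (E : IntermediateField K Λ) (d : ℕ)
    (π : Λ) (P : Fin (N + 1) → Λ) (V : Finset (Fin (N + 1) → Λ))
    (W : (Fin (N + 1) → Λ) → Prop) extends Hyp J E d where
  ϑ : MP d (OL E)
  D₀ : MvPolynomial (Fin d) (OL E)
  ϖ : OL E
  c : OL E
  ϖ_eq : (ϖ : Λ) = π
  atP : toHyp.At P
  atV : ∀ v ∈ V, toHyp.At v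
  der : ev2 (OL E).subtype (toHyp.cy P) (toHyp.ch P) (derivative χ) ≠ 0
  ϑ_monic : ϑ.Monic
  ϑ_td : TD ϑ.natDegree ϑ
  dvd₁ : mq (rL E) ϑ ∣ mq (rL E) χ
  dvd₂ : ∃ n, mq (rL E) χ ∣ mq (rL E) ϑ ^ n
  e₀ : ∃ α β, C D₀ = α * ϑ + β * derivative ϑ
  eπ : ∃ α β, C (MvPolynomial.C ϖ * D₀) = α * ϑ + β * χ
  c_ne : (c : Λ) ≠ 0
  ec : ∃ α β, C (MvPolynomial.C c * D₀) = α * χ + β * derivative χ
  ne : MvPolynomial.map (rL E) D₀ ≠ 0
  unit : ∀ y h, (∀ i, ‖y i‖ ≤ 1) → ev2 (OL E).subtype y h χ = 0 →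
    ‖MvPolynomial.eval₂ (OL E).subtype y D₀‖ = 1 →
      ‖ev2 (OL E).subtype y h D‖ = 1 ∧ W (toHyp.pv y h)
  ne0 : ∀ y h, ev2 (OL E).subtype y h χ = 0 → MvPolynomial.eval₂ (OL E).subtype y D₀ ≠ 0 →
    ev2 (OL E).subtype y h D ≠ 0

variable {J : Ideal (MvPolynomial (Fin (N + 1)) K)} {B E L : IntermediateField K Λ} {d : ℕ} {π : Λ}
  {P : Fin (N + 1) → Λ} {V : Finset (Fin (N + 1) → Λ)}

theorem cdat_dvd {ϖ : OL E} (h0 : (ϖ : Λ) ≠ 0) (hU : UnrF (ϖ : Λ) E) {F : MP d (OL E)}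
    (hF : mq (rL E) F = 0) : C (MvPolynomial.C ϖ) ∣ F := by
  refine (C_dvd_iff_dvd_coeff _ _).2 fun i => (MvPolynomial.C_dvd_iff_dvd_coeff _ _).2 fun m => ?_
  have h1 := congrArg (fun G : MP d (kk Λ) => (G.coeff i).coeff m) hF
  simp only [coe_mapRingHom, coeff_map, MvPolynomial.coeff_map, coeff_zero,
    MvPolynomial.coeff_zero] at h1
  generalize (F.coeff i).coeff m = x at h1
  rw [rL_apply, rs_eq_zero x.2.2] at h1
  exact ⟨⟨_, chr_div x.2.1 ϖ.2.1 (hU _ x.2.1 h1)⟩, Subtype.ext (mul_div_cancel₀ _ h0).symm⟩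

theorem cdat_const {R S : Type} [CommRing R] [CommRing S] (φ : R →+* S) (c : R) :
    mq (d := d) φ (C (MvPolynomial.C c)) = C (MvPolynomial.C (φ c)) := by
  simp

theorem cdat_C {R S : Type} [CommRing R] [CommRing S] (φ : R →+* S)
    (g : MvPolynomial (Fin d) R) : mq φ (C g) = C (MvPolynomial.map φ g) := by
  simp

theorem cdat_der {R S : Type} [CommRing R] [CommRing S] (φ : R →+* S) (f : MP d R) :
    mq φ (derivative f) = derivative (mq φ f) := (Polynomial.derivative_map f _).symm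

theorem cdat_small (hX : RegX J π) {ϖ : OL E} (hϖ : (ϖ : Λ) = π) : rL E ϖ = 0 := by
  rw [rL_apply, rs_eq_zero ϖ.2.2, hϖ]
  exact hX.lt

theorem cdat_fix {F : kk Λ →+* kk Λ} (hF : ∀ a, F a = a → a ∈ (rL E).range) {f : MP d (kk Λ)}
    (hf : mq F f = f) (i : ℕ) (m : Fin d →₀ ℕ) : (f.coeff i).coeff m ∈ (rL E).range := by
  refine hF _ ?_
  have h1 := congrArg (fun G : MP d (kk Λ) => (G.coeff i).coeff m) hf
  simpa only [coe_mapRingHom, coeff_map, MvPolynomial.coeff_map] using h1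

/-- the lift of the reduced equation -/
theorem Hyp.exists_theta (hX : RegX J π) (hL : Big π E L) (hE : Gr (rL E)) (𝒬 : Hyp J E d)
    (hF : ∃ F : kk Λ →+* kk Λ, Function.Bijective F ∧ mq F (mq (rL E) 𝒬.χ) = mq (rL E) 𝒬.χ ∧
      ∀ a, F a = a → a ∈ (rL E).range) (hs : Sep (mq (rL E) 𝒬.χ))
    (hD : ∀ g : MP d (kk Λ), g.Monic → Irreducible g → g ∣ mq (rL E) 𝒬.χ → ¬g ∣ mq (rL E) 𝒬.D)
    {ϖ : OL E} (hϖ : (ϖ : Λ) = π) : ∃ ϑ ζ γ : MP d (OL E), ϑ.Monic ∧ TD ϑ.natDegree ϑ ∧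
      0 < ϑ.natDegree ∧ 𝒬.χ = ϑ * ζ + C (MvPolynomial.C ϖ) * γ ∧
      (∃ n, mq (rL E) 𝒬.χ ∣ mq (rL E) ϑ ^ n) ∧
      ∀ g : MP d (kk Λ), g.Monic → Irreducible g → g ∣ mq (rL E) ϑ →
        ¬g ∣ mq (rL E) (derivative ϑ) ∧ ¬g ∣ mq (rL E) γ := by
  obtain ⟨F, hF1, hF2, hF3⟩ := hF
  have mχ : (mq (rL E) 𝒬.χ).Monic := 𝒬.monic.map _
  have dχ : (mq (rL E) 𝒬.χ).natDegree = 𝒬.χ.natDegree := 𝒬.monic.natDegree_map _
  obtain ⟨θ, mθ, ⟨ζ', eζ⟩, ⟨n, hn⟩, hfac, hinv⟩ := exists_radical mχ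
  have fθ := hinv F hF1 hF2
  have fζ : mq F ζ' = ζ' := by
    refine mul_left_cancel₀ mθ.ne_zero ?_
    rw [← eζ, ← hF2, eζ, map_mul, fθ]
  obtain ⟨ϑ₀, e1, m1, t1⟩ := exists_mq_lift (rL E) (cdat_fix hF3 fθ)
  obtain ⟨ζ, e2, -, -⟩ := exists_mq_lift (rL E) (cdat_fix hF3 fζ)
  obtain ⟨m1, d1⟩ := m1 mθ
  have tθ : TD θ.natDegree θ :=
    TD.of_dvd (by rw [dχ]; exact 𝒬.td.map _) mχ mθ ⟨ζ', eζ⟩
  have pos : 0 < θ.natDegree := Nat.pos_of_ne_zero fun h0 => by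
    rw [eq_one_of_monic_natDegree_zero mθ h0, one_pow] at hn
    have h1 := natDegree_eq_zero_of_isUnit (isUnit_of_dvd_one hn)
    have := 𝒬.pos
    omega
  obtain ⟨γ₀, e3⟩ := cdat_dvd (F := 𝒬.χ - ϑ₀ * ζ) (ϖ := ϖ) (hϖ ▸ hX.ne)
    (fun x hx h1 => hϖ ▸ hL.2.1 x (hL.1 hx) h1) (by rw [map_sub, map_mul, e1, e2, eζ, sub_self])
  have e4 : 𝒬.χ = ϑ₀ * ζ + C (MvPolynomial.C ϖ) * γ₀ := by rw [← e3]; ring
  have hθχ : ∀ g : MP d (kk Λ), g ∣ θ → g ∣ mq (rL E) 𝒬.χ := fun g hg => hg.trans ⟨ζ', eζ⟩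
  obtain ⟨Θ, hΘ, hav⟩ := exists_avoid_const (ζ := ζ') (γ := mq (rL E) γ₀) mθ
    fun g hg hi h1 h2 => Hyp.not_dvd_quot hX hL hϖ e4 hg hi (e1 ▸ h1) (e2 ▸ h2)
      (hD g hg hi (hθχ g h1))
  obtain ⟨c, hc⟩ := hE.avoid Θ hΘ
  rw [show (fun i => rL E (c i)) = fun _ => rL E (c ()) from funext fun _ => rfl] at hc
  have e5 : mq (rL E) (ϑ₀ + C (MvPolynomial.C (ϖ * c ()))) = θ := by
    rw [map_add, e1, cdat_const, map_mul, cdat_small hX hϖ, zero_mul, map_zero, map_zero, add_zero]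
  refine ⟨ϑ₀ + C (MvPolynomial.C (ϖ * c ())), ζ, γ₀ - C (MvPolynomial.C (c ())) * ζ,
    m1.add_of_left (degree_C_le.trans_lt (natDegree_pos_iff_degree_pos.1 (d1 ▸ pos))), ?_, ?_, ?_,
    ⟨n, e5 ▸ hn⟩, fun g hg hi hd => ⟨?_, ?_⟩⟩
  · rw [natDegree_add_C, d1]
    exact (t1 _ tθ).add_const _
  · rwa [natDegree_add_C, d1]
  · rw [e4, map_mul, map_mul]
    ring
  · rw [e5] at hd
    obtain ⟨g', e6, h6⟩ := hfac g hg hi (hθχ g hd)
    rw [cdat_der, e5, e6]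
    exact not_dvd_der hg hi (hs g hg hi (hθχ g hd)) h6
  · rw [e5] at hd
    rw [map_sub, map_mul, cdat_const, e2]
    exact hav (rL E (c ())) hc g hg hi hd

/-- the Bezout identity on the generic fibre -/
theorem Hyp.exists_bez (hX : RegX J π) (hE : Gr (rL E)) {𝒬 : Hyp J E d} (hP : 𝒬.At P) :
    ∃ (c : OL E) (D₁ : MvPolynomial (Fin d) (OL E)) (α β : MP d (OL E)), (c : Λ) ≠ 0 ∧
      MvPolynomial.map (rL E) D₁ ≠ 0 ∧
      C (MvPolynomial.C c * D₁) = α * 𝒬.χ + β * (derivative 𝒬.χ * 𝒬.D) := by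
  have := mv_integrallyClosed (R := Λ) d
  have : CharZero Λ := charZero_of_injective_algebraMap (algebraMap K Λ).injective
  have mχ : (mq (OL E).subtype 𝒬.χ).Monic := 𝒬.monic.map _
  have pos : 0 < (mq (OL E).subtype 𝒬.χ).natDegree :=
    𝒬.pos.trans_eq (𝒬.monic.natDegree_map _).symm
  obtain ⟨D, α, β, e, hD⟩ := exists_bezout (MvPolynomial.map (OL E).subtype)
    (g := derivative 𝒬.χ * 𝒬.D) 𝒬.monic 𝒬.irr fun hd => by
      change mq (OL E).subtype 𝒬.χ ∣ mq (OL E).subtype _ at hd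
      rw [map_mul, cdat_der] at hd
      rcases 𝒬.irr.prime.dvd_or_dvd hd with h1 | ⟨q, hq⟩
      · have h2 : derivative (mq (OL E).subtype 𝒬.χ) ≠ 0 := fun h0 =>
          pos.ne' (Polynomial.derivative_eq_zero.1 h0)
        exact absurd (natDegree_le_of_dvd h1 h2) (not_le.2 (natDegree_derivative_lt pos.ne'))
      · have h2 := congrArg (ev2 (RingHom.id Λ) (𝒬.cy P) (𝒬.ch P)) hq
        rw [map_mul, ev2_mq, ev2_mq, RingHom.id_comp, (Hyp.coord hX hP.prim hP.one).2.2.1,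
          zero_mul] at h2
        have h3 := hP.hD
        rw [h2, norm_zero] at h3
        exact zero_ne_one h3
  obtain ⟨c, D₁, hc, rfl, h1⟩ := hE.prim D fun h0 => hD (by rw [h0, map_zero])
  exact ⟨c, D₁, α, β, fun h0 => hc (Subtype.ext h0), h1, e⟩

theorem Hyp.exists_dat (hX : RegX J π) (hL : Big π E L) (hE : Gr (rL E)) (𝒬 : Hyp J E d)
    (hF : ∃ F : kk Λ →+* kk Λ, Function.Bijective F ∧ mq F (mq (rL E) 𝒬.χ) = mq (rL E) 𝒬.χ ∧
      ∀ a, F a = a → a ∈ (rL E).range) (hs : Sep (mq (rL E) 𝒬.χ)) (hP : 𝒬.At P)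
    (hd : ev2 (OL E).subtype (𝒬.cy P) (𝒬.ch P) (derivative 𝒬.χ) ≠ 0) (hV : Test J V)
    (hA : ∀ v ∈ V, 𝒬.At v) (hB : B ≤ E) {Ξ : MvPolynomial (Fin (N + 1)) (OL B)} {k : ℕ}
    (hk : Ξ.IsHomogeneous k) (hΞ : ∀ v ∈ V, ‖MvPolynomial.eval₂ (OL B).subtype v Ξ‖ = 1) :
    Nonempty (Dat J E d π P V fun v => ‖MvPolynomial.eval₂ (OL B).subtype v Ξ‖ = 1) := by
  let ϖ : OL E := ⟨π, (bot_le : ⊥ ≤ E) hX.mem, hX.lt.le⟩
  let ξ : MP d (OL E) :=
    MvPolynomial.eval₂ (C.comp MvPolynomial.C) 𝒬.pp (MvPolynomial.map (inc hB) Ξ)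
  have eξ : ∀ y h, ev2 (OL E).subtype y h ξ =
      MvPolynomial.eval₂ (OL B).subtype (𝒬.pv y h) Ξ := fun y h => by
    rw [chk_ev2, MvPolynomial.eval₂_map, subtype_inc]
    rfl
  have key : ∀ f : MP d (OL E), (∀ v ∈ V, ‖ev2 (OL E).subtype (𝒬.cy v) (𝒬.ch v) f‖ = 1) →
      ∀ g : MP d (kk Λ), g.Monic → Irreducible g → g ∣ mq (rL E) 𝒬.χ → ¬g ∣ mq (rL E) f := by
    intro f hf g hg hi hd
    refine Hyp.not_dvd hX hV hA (fun v hv => ?_) hg hi hd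
    obtain ⟨h1, h2, -⟩ := Hyp.coord hX (hA v hv).prim (hA v hv).one
    rw [ev2_mq, RingHom.id_comp, ← (rs_ev2' h1 h2 f).2]
    exact rs_ne_zero.2 (hf v hv)
  have kD := key 𝒬.D fun v hv => (hA v hv).hD
  have kξ := key ξ fun v hv => by
    rw [eξ, (Hyp.coord hX (hA v hv).prim (hA v hv).one).2.2.2, eval₂_smul_homog hk, norm_mul,
      norm_pow, norm_mul, norm_inv, (hA v hv).hD, (hA v hv).one, hΞ v hv]
    simp
  obtain ⟨ϑ, ζ, γ, mϑ, tϑ, pos, e, hn, hg⟩ := 𝒬.exists_theta hX hL hE hF hs kD (ϖ := ϖ) rfl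
  have hdv : mq (rL E) ϑ ∣ mq (rL E) 𝒬.χ := by
    refine ⟨mq (rL E) ζ, ?_⟩
    rw [e, map_add, map_mul, map_mul, cdat_const, cdat_small hX (ϖ := ϖ) rfl, map_zero, map_zero,
      zero_mul, add_zero]
  obtain ⟨Da, α, β, ea, ha⟩ := exists_bezout' (rL E) (f := derivative ϑ * γ * 𝒬.D * ξ) mϑ pos
    fun g h1 h2 h3 h4 => by
      rw [map_mul, map_mul, map_mul] at h4
      rcases h2.prime.dvd_or_dvd h4 with h4 | h4
      · rcases h2.prime.dvd_or_dvd h4 with h4 | h4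
        · rcases h2.prime.dvd_or_dvd h4 with h4 | h4
          · exact (hg g h1 h2 h3).1 h4
          · exact (hg g h1 h2 h3).2 h4
        · exact kD g h1 h2 (h3.trans hdv) h4
      · exact kξ g h1 h2 (h3.trans hdv) h4
  obtain ⟨c, D₁, α₁, β₁, hc, h₁, e₁⟩ := Hyp.exists_bez hX hE hP
  refine ⟨{ toHyp := 𝒬, ϑ := ϑ, D₀ := Da * D₁, ϖ := ϖ, c := c, ϖ_eq := rfl, atP := hP
            atV := hA, der := hd, ϑ_monic := mϑ, ϑ_td := tϑ, dvd₁ := hdv, dvd₂ := hn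
            e₀ := ⟨α * C D₁, β * (γ * 𝒬.D * ξ) * C D₁, ?_⟩
            eπ := ⟨(C (MvPolynomial.C ϖ) * α - β * (derivative ϑ * 𝒬.D * ξ) * ζ) * C D₁,
              β * (derivative ϑ * 𝒬.D * ξ) * C D₁, ?_⟩
            c_ne := hc
            ec := ⟨C Da * α₁, C Da * β₁ * 𝒬.D, ?_⟩
            ne := ?_
            unit := fun y h hy h0 h1 => ?_
            ne0 := fun y h h0 h1 h2 => ?_ }⟩
  · rw [map_mul, ea]
    ring
  · rw [map_mul, map_mul, ea, e]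
    ring
  · rw [mul_left_comm, map_mul, e₁]
    ring
  · rw [map_mul]
    exact mul_ne_zero ha h₁
  · have hh := norm_le_of_ev2 hy 𝒬.monic h0
    rw [MvPolynomial.eval₂_mul] at h1
    have h2 := rs_ne_zero.2 (chk_norm (chk_mv hy _).1 (chk_mv hy _).1 h1).1
    have h3 : ev2 (rL E) (fun i => rs (y i)) (rs h) ϑ = 0 := by
      obtain ⟨n, q, hq⟩ := hn
      have h4 := congrArg (ev2 (RingHom.id _) (fun i => rs (y i)) (rs h)) hq
      rw [map_pow, map_mul, ev2_mq, ev2_mq, RingHom.id_comp, ← (rs_ev2' hy hh 𝒬.χ).2, h0, rs_zero,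
        zero_mul] at h4
      exact eq_zero_of_pow_eq_zero h4
    rw [← ev2_C _ y h, (rs_ev2' hy hh _).2, ea, map_add, map_mul, h3, mul_zero, zero_add, map_mul,
      map_mul, map_mul] at h2
    have h5 := right_ne_zero_of_mul h2
    refine ⟨rs_ne_zero.1 ?_, ?_⟩
    · rw [(rs_ev2' hy hh _).2]
      exact right_ne_zero_of_mul (left_ne_zero_of_mul h5)
    · rw [← eξ]
      refine rs_ne_zero.1 ?_
      rw [(rs_ev2' hy hh _).2]
      exact right_ne_zero_of_mul h5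
  · rw [MvPolynomial.eval₂_mul] at h1
    have h3 := congrArg (ev2 (OL E).subtype y h) e₁
    rw [ev2_C, MvPolynomial.eval₂_mul, MvPolynomial.eval₂_C, map_add, map_mul, map_mul, map_mul,
      h0, h2, mul_zero, mul_zero, mul_zero, add_zero] at h3
    exact mul_ne_zero hc (right_ne_zero_of_mul h1) h3

theorem Dat.descend {W : (Fin (N + 1) → Λ) → Prop} (𝒟 : Dat J E d π P V W)
    {E' : ℕ → IntermediateField K Λ} (hE : ∀ i, E' i ≤ E)
    (hev : ∀ c : OL E, ∀ᶠ i in Filter.atTop, c ∈ (inc (hE i)).range) :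
    ∃ i, Nonempty (Dat J (E' i) d π P V W) := by
  obtain ⟨α₀, β₀, e₀⟩ := 𝒟.e₀
  obtain ⟨α₁, β₁, e₁⟩ := 𝒟.eπ
  obtain ⟨α₂, β₂, e₂⟩ := 𝒟.ec
  have h1 : ∀ᶠ i in Filter.atTop, ∀ a, 𝒟.s₀ a ∈ (inc (hE i)).range :=
    Filter.eventually_all.2 fun a => hev _
  have h2 : ∀ᶠ i in Filter.atTop, ∀ k a, 𝒟.s k a ∈ (inc (hE i)).range :=
    Filter.eventually_all.2 fun k => Filter.eventually_all.2 fun a => hev _
  have h3 : ∀ᶠ i in Filter.atTop, ∀ a, 𝒟.H a ∈ (inc (hE i)).range :=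
    Filter.eventually_all.2 fun a => hev _
  have h4 : ∀ᶠ i in Filter.atTop, ∀ a, 𝒟.pp a ∈ (mq (inc (hE i))).range :=
    Filter.eventually_all.2 fun a => eventually_mq hev _
  have h5 : ∀ᶠ i in Filter.atTop, ∀ f ∈ [𝒟.χ, 𝒟.D, 𝒟.ϑ, α₀, β₀, α₁, β₁, α₂, β₂],
      f ∈ (mq (inc (hE i))).range :=
    (Filter.eventually_all_finite (List.finite_toSet _)).2 fun f _ => eventually_mq hev f
  obtain ⟨i, k1, k2, k3, k4, k5, ⟨D₀, kD₀⟩, ⟨ϖ, kϖ⟩, ⟨c, kc⟩⟩ := (h1.and (h2.and (h3.and (h4.and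
    (h5.and ((chg_mv hev 𝒟.D₀).and ((hev 𝒟.ϖ).and (hev 𝒟.c)))))))).exists
  simp only [List.forall_mem_cons] at k5
  obtain ⟨⟨χ, kχ⟩, ⟨D, kD⟩, ⟨ϑ, kϑ⟩, ⟨a₀, ka₀⟩, ⟨b₀, kb₀⟩, ⟨a₁, ka₁⟩, ⟨b₁, kb₁⟩, ⟨a₂, ka₂⟩,
    ⟨b₂, kb₂⟩, -⟩ := k5
  choose s₀ k1 using k1
  choose s k2 using k2
  choose H k3 using k3
  choose pp k4 using k4
  have he : Function.Injective (inc (hE i)) := Subring.inclusion_injective _
  have inj : Function.Injective (MvPolynomial.map (σ := Fin d) (inc (hE i))) :=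
    MvPolynomial.map_injective _ he
  have inj' : Function.Injective (mq (d := d) (inc (hE i))) := Polynomial.map_injective _ inj
  have mon : ∀ {f : MP d (OL (E' i))}, (mq (inc (hE i)) f).Monic → f.Monic := fun hf =>
    monic_of_injective inj hf
  have td : ∀ {f : MP d (OL (E' i))}, TD (mq (inc (hE i)) f).natDegree (mq (inc (hE i)) f) →
      TD f.natDegree f := fun {f} hf => by
    refine TD.of_map he ?_
    rwa [coe_mapRingHom, natDegree_map_eq_of_injective inj] at hf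
  have ll : ∀ {l : Fin (N + 1) → OL (E' i)} {l' : Fin (N + 1) → OL E},
      (∀ a, inc (hE i) (l a) = l' a) → ∀ v, lv (OL (E' i)).subtype l v = lv (OL E).subtype l' v :=
    fun h v => by rw [← funext h, lv_comp, subtype_inc]
  have ee : ∀ {f : MP d (OL (E' i))} {f' : MP d (OL E)}, mq (inc (hE i)) f = f' → ∀ y h,
      ev2 (OL (E' i)).subtype y h f = ev2 (OL E).subtype y h f' :=
    fun h y t => by rw [← h, ev2_mq, subtype_inc]
  have rr : ∀ {f : MP d (OL (E' i))} {f' : MP d (OL E)}, mq (inc (hE i)) f = f' →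
      mq (rL (E' i)) f = mq (rL E) f' := fun h => by rw [← h, qmu_mq_mq, rL_inc]
  have dd : ∀ {f : MP d (OL (E' i))} {f' : MP d (OL E)}, mq (inc (hE i)) f = f' →
      mq (inc (hE i)) (derivative f) = derivative f' := fun h => by rw [cdat_der, h]
  have eD : ∀ y, MvPolynomial.eval₂ (OL (E' i)).subtype y D₀ =
      MvPolynomial.eval₂ (OL E).subtype y 𝒟.D₀ := fun y => by
    rw [← kD₀, MvPolynomial.eval₂_map, subtype_inc]
  let 𝒬 : Hyp J (E' i) d :=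
    { s₀ := s₀, s := s, H := H, χ := χ, D := D, pp := pp
      monic := mon (kχ ▸ 𝒟.monic)
      td := td (kχ ▸ 𝒟.td)
      on := fun v hv h0 => by
        simp only [ll k1, ll (k2 _), ll k3, ee kχ] at h0 ⊢
        exact 𝒟.on v hv h0
      pt := fun v hv h0 a => by
        simp only [ll k1, ll (k2 _), ll k3, ee kD, ee (k4 _)] at h0 ⊢
        exact 𝒟.pt v hv h0 a
      surj := fun y t ht => by
        simp only [ll k1, ll (k2 _), ll k3, ee kχ] at ht ⊢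
        exact 𝒟.surj y t ht
      int := fun v hv h0 h1 => by
        simp only [ll k1, ll (k2 _)] at h0 h1
        exact 𝒟.int v hv h0 h1
      irr := by
        have := 𝒟.irr
        rwa [← kχ, qmu_mq_mq, subtype_inc] at this
      dim := 𝒟.dim }
  have nv : ∀ v, 𝒬.nv v = 𝒟.toHyp.nv v := fun v => by
    unfold Hyp.nv
    rw [← ll k1]
  have cy : ∀ v, 𝒬.cy v = 𝒟.toHyp.cy v := fun v => by
    funext k
    unfold Hyp.cy
    rw [nv, ← ll (k2 k)]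
  have ch : ∀ v, 𝒬.ch v = 𝒟.toHyp.ch v := fun v => by
    unfold Hyp.ch
    rw [nv, ← ll k3]
  have pv : ∀ y h, 𝒬.pv y h = 𝒟.toHyp.pv y h := fun y h => funext fun a => ee (k4 a) y h
  have hat : ∀ v, 𝒟.toHyp.At v → 𝒬.At v := fun v hv =>
    ⟨hv.prim, (congrArg _ (ll k1 v)).trans hv.one, by
      rw [cy, ch]
      exact (congrArg _ (ee kD _ _)).trans hv.hD⟩
  refine ⟨i, ⟨{ toHyp := 𝒬, ϑ := ϑ, D₀ := D₀, ϖ := ϖ, c := c
                ϖ_eq := (congrArg Subtype.val kϖ).trans 𝒟.ϖ_eq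
                atP := hat _ 𝒟.atP
                atV := fun v hv => hat _ (𝒟.atV v hv)
                der := ?_
                ϑ_monic := mon (kϑ ▸ 𝒟.ϑ_monic)
                ϑ_td := td (kϑ ▸ 𝒟.ϑ_td)
                dvd₁ := ?_
                dvd₂ := ?_
                e₀ := ⟨a₀, b₀, inj' ?_⟩
                eπ := ⟨a₁, b₁, inj' ?_⟩
                c_ne := fun h0 => 𝒟.c_ne ((congrArg Subtype.val kc).symm.trans h0)
                ec := ⟨a₂, b₂, inj' ?_⟩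
                ne := ?_
                unit := fun y h hy h0 h1 => ?_
                ne0 := fun y h h0 h1 => ?_ }⟩⟩
  · rw [cy, ch]
    exact (ee (dd kχ) _ _).trans_ne 𝒟.der
  · exact (rr kϑ).symm ▸ (rr kχ).symm ▸ 𝒟.dvd₁
  · exact (rr kϑ).symm ▸ (rr kχ).symm ▸ 𝒟.dvd₂
  · rw [cdat_C, kD₀, map_add, map_mul, map_mul, ka₀, kb₀, kϑ, dd kϑ, e₀]
  · rw [cdat_C, map_mul, MvPolynomial.map_C, kϖ, kD₀, map_add, map_mul (mq _), map_mul (mq _), ka₁,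
      kb₁, kϑ, e₁]
    exact congrArg _ (congrArg _ kχ.symm)
  · rw [cdat_C, map_mul, MvPolynomial.map_C, kc, kD₀, map_add, map_mul (mq _), map_mul (mq _), ka₂,
      kb₂, e₂]
    exact congrArg₂ _ (congrArg _ kχ.symm) (congrArg _ (dd kχ).symm)
  · have := 𝒟.ne
    rwa [← kD₀, MvPolynomial.map_map, rL_inc] at this
  · rw [pv]
    have := 𝒟.unit y h hy ((ee kχ y h).symm.trans h0) (eD y ▸ h1)
    exact ⟨(congrArg _ (ee kD y h)).trans this.1, this.2⟩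
  · exact (ee kD y h).trans_ne (𝒟.ne0 y h ((ee kχ y h).symm.trans h0) (eD y ▸ h1))

end Pool.Agent.ZeroCyc
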