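import Pool.Agent.Lib.MP_796ce4_ag.ZQ.CTD
import Pool.Agent.Lib.MP_796ce4_ag.ZY.ChP

/-! A finite linear projection that is almost unramified at finitely many points. -/

namespace Pool.Agent.ZeroCyc

open Polynomial Module
open scoped Classical IntermediateField PowerSeries

set_option linter.unusedSectionVars false

variable {S κ Λ : Type} [CommRing S] [Field κ] [Field Λ] {M : ℕ} {ι : S →+* Λ} {r : S →+* κ}
  {Z : Set (Fin M → Λ)}

theorem DimGe.mono {k k' : ℕ} (h : DimGe ι Z k) (hk : k' ≤ k) : DimGe ι Z k' := by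
  obtain ⟨e, he⟩ := h
  refine ⟨e ∘ Fin.castLE hk, fun F hF => ?_⟩
  rw [← MvPolynomial.aeval_rename] at hF
  exact MvPolynomial.rename_injective _ (Fin.castLE_injective hk)
    ((he _ hF).trans (map_zero _).symm)

theorem cpj_tanS_le [Infinite Λ] (hZ : Cone ι Z) (x : Fin M → κ) (c : κ) :
    tanS r (vI ι Z) x ≤ tanS r (vI ι Z) (c • x) := by
  intro w hw G hG
  have h2 : dG r (c • x) w G = ∑ k ∈ Finset.range (G.totalDegree + 1),
      dG r (c • x) w (MvPolynomial.homogeneousComponent k G) := by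
    conv_lhs => rw [← MvPolynomial.sum_homogeneousComponent G]
    simp only [dG, map_sum, MvPolynomial.eval₂_sum, Finset.sum_mul]
    exact Finset.sum_comm
  rw [h2]
  refine Finset.sum_eq_zero fun k _ => ?_
  have h3 : dG r (c • x) w (MvPolynomial.homogeneousComponent k G) =
      c ^ (k - 1) * dG r x w (MvPolynomial.homogeneousComponent k G) := by
    simp only [dG, Finset.mul_sum]
    refine Finset.sum_congr rfl fun a _ => ?_
    rw [eval₂_smul_homog (MvPolynomial.homogeneousComponent_isHomogeneous k G).pderiv, mul_assoc]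
  rw [h3, hw _ (hZ.component hG k), mul_zero]

theorem Cone.tanS_smul [Infinite Λ] (hZ : Cone ι Z) (x : Fin M → κ) {c : κ} (hc : c ≠ 0) :
    tanS r (vI ι Z) (c • x) = tanS r (vI ι Z) x := by
  refine le_antisymm ?_ (cpj_tanS_le hZ x c)
  have h := cpj_tanS_le (r := r) hZ (c • x) c⁻¹
  rwa [inv_smul_smul₀ hc] at h
theorem Cone.red_smul [Infinite Λ] (hZ : Cone ι Z) {x : Fin M → κ}
    (hx : ∀ G ∈ vI ι Z, MvPolynomial.eval₂ r x G = 0) (c : κ) :
    ∀ G ∈ vI ι Z, MvPolynomial.eval₂ r (c • x) G = 0 := by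
  intro G hG
  rw [cha_eval₂_sum_comp]
  refine Finset.sum_eq_zero fun k _ => ?_
  rw [eval₂_smul_homog (MvPolynomial.homogeneousComponent_isHomogeneous k G),
    hx _ (hZ.component hG k), mul_zero]
/-- a hyperplane through a given vector -/
theorem exists_hyperplane {V : Type} [AddCommGroup V] [Module κ V] [FiniteDimensional κ V]
    (T : Submodule κ V) {x : V} (hx : x ∈ T) {k : ℕ} (hk : 0 < k) (hT : finrank κ T ≤ k + 1) :
    ∃ T' : Submodule κ V, x ∈ T' ∧ finrank κ T' ≤ k ∧ ∀ W : Submodule κ V, W ≤ T → W ⊓ T' = ⊥ →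
      ∃ w₀, ∀ w ∈ W, ∃ c : κ, w = c • w₀ := by
  by_cases h : T ≤ Submodule.span κ {x}
  · refine ⟨Submodule.span κ {x}, Submodule.mem_span_singleton_self x, ?_, fun W hW _ =>
      ⟨x, fun w hw => ?_⟩⟩
    · refine le_trans ?_ hk
      simpa using finrank_span_le_card (R := κ) ({x} : Set V)
    · obtain ⟨c, hc⟩ := Submodule.mem_span_singleton.1 (h (hW hw))
      exact ⟨c, hc.symm⟩
  obtain ⟨y, hy, hy'⟩ := SetLike.not_le_iff_exists.1 h
  obtain ⟨f, h1, h2⟩ := Submodule.exists_dual_map_eq_bot_of_notMem hy' inferInstance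
  have h3 : f x = 0 := by
    rw [← Submodule.mem_bot κ, ← h2]
    exact Submodule.mem_map_of_mem (Submodule.mem_span_singleton_self x)
  refine ⟨T ⊓ LinearMap.ker f, ⟨hx, h3⟩, ?_, fun W hW h0 => ?_⟩
  · have h4 : T ⊓ LinearMap.ker f < T :=
      lt_of_le_of_ne inf_le_left fun e => h1 (e.ge hy).2
    have h5 := Submodule.finrank_lt_finrank_of_lt h4
    omega
  · have key : ∀ w ∈ W, f w = 0 → w = 0 := fun w hw h4 => by
      rw [← Submodule.mem_bot κ, ← h0]
      exact ⟨hw, hW hw, h4⟩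
    by_cases h4 : ∃ w₀ ∈ W, f w₀ ≠ 0
    · obtain ⟨w₀, h5, h6⟩ := h4
      refine ⟨w₀, fun w hw => ⟨f w / f w₀, sub_eq_zero.1 (key _ (W.sub_mem hw (W.smul_mem _ h5)) ?_)⟩⟩
      rw [map_sub, map_smul, smul_eq_mul, div_mul_cancel₀ _ h6, sub_self]
    · push Not at h4
      exact ⟨0, fun w hw => ⟨0, by rw [key w hw (h4 w hw), smul_zero]⟩⟩

theorem cpj_root {v : Fin M → Λ} (hv : v ∈ Z) {m : ℕ} (L : Fin m → Fin M → S) (q : MP m S)
    (y : MvPolynomial (Fin M) S ⧸ vI ι Z) :
    chp_ev ι hv (q.eval₂ (MvPolynomial.aeval (fun j => lv (algebraMap S _) (L j)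
      fun a => Ideal.Quotient.mk (vI ι Z) (MvPolynomial.X a)) :
        MvPolynomial (Fin m) S →ₐ[S] MvPolynomial (Fin M) S ⧸ vI ι Z).toRingHom y) =
      ev2 ι (fun j => lv ι (L j) v) (chp_ev ι hv y) q := by
  rw [Polynomial.hom_eval₂, ev2, coe_eval₂RingHom]
  congr 1
  exact RingHom.ext fun F => chp_ev_aeval hv L F

/-- consequences of finiteness over linear forms -/
theorem Cone.of_forms [IsDomain S] [Infinite Λ] (hZ : Cone ι Z) {x : Fin M → κ}
    (hx : ∀ G ∈ vI ι Z, MvPolynomial.eval₂ r x G = 0) {m : ℕ} {L : Fin m → Fin M → S}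
    {mi : Fin M → MP m S} (hm : ∀ a, (mi a).Monic)
    (h0 : ∀ v ∈ Z, ∀ a, ev2 ι (fun j => lv ι (L j) v) (v a) (mi a) = 0) :
    (∀ k, DimGe ι Z k → k ≤ m) ∧ ∀ H : Fin M → S, ∃ q : MP m S, q.Monic ∧ TD q.natDegree q ∧
      ∀ v ∈ Z, ev2 ι (fun j => lv ι (L j) v) (lv ι H v) q = 0 := by
  have hp := hZ.isPrime hx
  have hinj : Function.Injective (algebraMap S (MvPolynomial (Fin M) S ⧸ vI ι Z)) := by
    rw [injective_iff_map_eq_zero]
    intro c hc
    obtain ⟨v, hv⟩ : Z.Nonempty := by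
      by_contra hne
      exact hp.ne_top ((Ideal.eq_top_iff_one _).2 fun v hv => absurd ⟨v, hv⟩ hne)
    have h1 := RingHom.congr_fun (chp_ev_alg (ι := ι) hv) c
    rw [RingHom.comp_apply, hc, map_zero] at h1
    exact hZ.inj (h1.symm.trans (map_zero ι).symm)
  obtain ⟨f, hf⟩ : ∃ f : Fin m → MvPolynomial (Fin M) S ⧸ vI ι Z, f = fun j =>
    lv (algebraMap S _) (L j) fun a => Ideal.Quotient.mk (vI ι Z) (MvPolynomial.X a) := ⟨_, rfl⟩
  have hint : (MvPolynomial.aeval f :
      MvPolynomial (Fin m) S →ₐ[S] MvPolynomial (Fin M) S ⧸ vI ι Z).toRingHom.IsIntegral := by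
    intro y
    obtain ⟨G, rfl⟩ := Ideal.Quotient.mk_surjective y
    induction G using MvPolynomial.induction_on with
    | C s =>
      have e : Ideal.Quotient.mk (vI ι Z) (MvPolynomial.C s) = (MvPolynomial.aeval f :
          MvPolynomial (Fin m) S →ₐ[S] MvPolynomial (Fin M) S ⧸ vI ι Z).toRingHom
            (MvPolynomial.C s) := (MvPolynomial.aeval_C f s).symm
      rw [e]
      exact RingHom.isIntegralElem_map _
    | add p q hp hq => rw [map_add]; exact hp.add _ hq
    | mul_X p a hp =>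
      rw [map_mul]
      refine hp.mul _ ⟨mi a, hm a, chp_eq_zero fun v hv => ?_⟩
      rw [hf, cpj_root hv, chp_ev_mk, MvPolynomial.eval₂_X]
      exact h0 v hv a
  refine ⟨fun k ⟨e, he⟩ => ?_, fun H => ?_⟩
  · refine Nat.lt_succ_iff.1 (lt_of_not_indep hinj (f := Fin.cons 0 f)
      (e := fun i => Ideal.Quotient.mkₐ S (vI ι Z) (e i)) (isIntegral_of_elem hint fun b => ?_)
      (fun h => h.ne_zero 0 rfl) (algebraicIndependent_iff.2 fun F hF => he F ?_))
    · have e : (MvPolynomial.aeval f :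
          MvPolynomial (Fin m) S →ₐ[S] MvPolynomial (Fin M) S ⧸ vI ι Z).toRingHom b =
          (MvPolynomial.aeval (Fin.cons 0 f) : MvPolynomial (Fin (m + 1)) S →ₐ[S]
            MvPolynomial (Fin M) S ⧸ vI ι Z).toRingHom (MvPolynomial.rename Fin.succ b) :=
        (MvPolynomial.aeval_rename Fin.succ (Fin.cons 0 f : Fin (m + 1) → _) b).symm
      rw [e]
      exact RingHom.isIntegralElem_map _
    · rw [← MvPolynomial.comp_aeval_apply] at hF
      exact Ideal.Quotient.eq_zero_iff_mem.1 hF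
  · obtain ⟨q, hq, h1⟩ := hint (lv (algebraMap S _) H
      fun a => Ideal.Quotient.mk (vI ι Z) (MvPolynomial.X a))
    obtain ⟨q', h2, h3, h4, h5⟩ := exists_homog_eq hq
    refine ⟨q', h2, h3 ▸ h4, fun v hv => h5 Λ ι _ _ fun c => ?_⟩
    have h6 := congrArg (chp_ev ι (hZ.smul c v hv)) h1
    rw [hf, cpj_root, map_zero, map_lv, chp_ev_alg] at h6
    simp only [chp_ev_mk, MvPolynomial.eval₂_X, lv_smul] at h6
    exact h6

theorem cpj_lv_sum {T : Type} [CommRing T] (φ : S →+* T) {m : ℕ} (c : Fin m → S)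
    (L : Fin m → Fin M → S) (v : Fin M → T) :
    lv φ (∑ j, c j • L j) v = ∑ j, φ (c j) * lv φ (L j) v := by
  simp only [lv, Finset.sum_apply, Pi.smul_apply, smul_eq_mul, map_sum, map_mul, Finset.sum_mul,
    Finset.mul_sum, mul_assoc]
  exact Finset.sum_comm

theorem cpj_deg {σ τ : Type} {g : σ → MvPolynomial τ S} (hg : ∀ i, (g i).totalDegree ≤ 1)
    (F : MvPolynomial σ S) : (MvPolynomial.aeval g F).totalDegree ≤ F.totalDegree := by
  rw [MvPolynomial.aeval_def, MvPolynomial.eval₂_eq]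
  refine MvPolynomial.totalDegree_finsetSum_le fun m hm => ?_
  refine (MvPolynomial.totalDegree_mul _ _).trans ?_
  rw [MvPolynomial.algebraMap_eq, MvPolynomial.totalDegree_C, zero_add]
  refine (MvPolynomial.totalDegree_finsetProd _ _).trans
    (le_trans (Finset.sum_le_sum fun i _ => ?_) (MvPolynomial.le_totalDegree hm))
  exact (MvPolynomial.totalDegree_pow _ _).trans (mul_le_of_le_one_right' (hg i))

theorem cpj_ev2_map {T : Type} [CommRing T] (φ : S →+* T) {m n : ℕ}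
    (g : Fin m → MvPolynomial (Fin n) S) (y : Fin n → T) (h : T) (q : MP m S) :
    ev2 φ y h (q.map (MvPolynomial.aeval g :
      MvPolynomial (Fin m) S →ₐ[S] MvPolynomial (Fin n) S).toRingHom) =
      ev2 φ (fun j => MvPolynomial.eval₂ φ y (g j)) h q := by
  rw [ev2, ev2, coe_eval₂RingHom, coe_eval₂RingHom, eval₂_map]
  congr 1
  exact MvPolynomial.ringHom_ext (fun c => by simp) fun j => by simp

theorem Cone.exists_proj' [IsDomain S] [Infinite Λ] (hZ : Cone ι Z) (hr : Gr r) {τ : Type}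
    [Finite τ] [Nonempty τ] {x : τ → Fin M → κ} (hx₀ : ∀ t, x t ≠ 0)
    (hx : ∀ t, ∀ G ∈ vI ι Z, MvPolynomial.eval₂ r (x t) G = 0)
    (hT : ∀ t, ∃ k, 0 < k ∧ DimGe ι Z k ∧ finrank κ (tanS r (vI ι Z) (x t)) ≤ k + 1) :
    ∃ 𝒬 : Proj ι Z, (∀ t, lv r 𝒬.s₀ (x t) ≠ 0) ∧
      (∀ t, ∃ w₀, ∀ w ∈ tanS r (vI ι Z) (x t), lv r 𝒬.s₀ w = 0 → (∀ k, lv r (𝒬.s k) w = 0) →
        ∃ c : κ, w = c • w₀) ∧
      (∀ H : Fin M → S, ∃ q : MP 𝒬.d S, q.Monic ∧ TD q.natDegree q ∧ ∀ v ∈ Z, lv ι 𝒬.s₀ v = 1 →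
        ev2 ι (fun k => lv ι (𝒬.s k) v) (lv ι H v) q = 0) ∧
      ∀ k, DimGe ι Z k → k ≤ 𝒬.d + 1 := by
  choose k hk hD hF using hT
  choose T' h1 h2 h3 using fun t => exists_hyperplane _ (hZ.self_mem_tanS (hx t)) (hk t) (hF t)
  obtain ⟨t₀⟩ := ‹Nonempty τ›
  obtain ⟨m, L, mi, hm, h0, hi, hinj⟩ := hZ.exists_forms hr (hx t₀) T' fun t => (hD t).mono (h2 t)
  have hu : ∀ t, (fun j => lv r (L j) (x t)) ≠ 0 := fun t h =>
    hx₀ t (hinj t _ (h1 t) fun j => congrFun h j)
  obtain ⟨d, rfl⟩ : ∃ d, m = d + 1 := by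
    obtain ⟨j, -⟩ := Function.ne_iff.1 (hu t₀)
    exact ⟨m - 1, by have := j.2; omega⟩
  have := Fintype.ofFinite τ
  obtain ⟨c, hc, hc', -⟩ := hr.exists_out (ι := Empty) (fun e => e.elim) (fun e => e.elim)
    (Θ := ∏ t, lp fun j => lv r (L j) (x t))
    (Finset.prod_ne_zero_iff.2 fun t _ => chb_lp_ne (hu t))
  obtain ⟨c', hcc⟩ := (hr.loc _ (hc' 0)).exists_left_inv
  have hι : ι c' * ι (c 0) = 1 := by rw [← map_mul, hcc, map_one]
  obtain ⟨h4, h5⟩ := hZ.of_forms (hx t₀)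
    (L := (Fin.cons (∑ j, c j • L j) fun k => L k.succ : Fin (d + 1) → Fin M → S))
    (mi := fun a => (mi a).map (MvPolynomial.aeval (Fin.cons (MvPolynomial.C c' *
      (MvPolynomial.X 0 - ∑ k : Fin d, MvPolynomial.C (c k.succ) * MvPolynomial.X k.succ))
        fun k => MvPolynomial.X k.succ : Fin (d + 1) → MvPolynomial (Fin (d + 1)) S) :
      MvPolynomial (Fin (d + 1)) S →ₐ[S] MvPolynomial (Fin (d + 1)) S).toRingHom)
    (fun a => (hm a).map _) fun v hv a => by
      rw [cpj_ev2_map, ← h0 v hv a]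
      congr 2
      funext j
      refine Fin.cases ?_ (fun k => by simp) j
      have e := cpj_lv_sum ι c L v
      generalize ∑ j, c j • L j = s₀ at e
      simp [e, MvPolynomial.eval₂_sum, Fin.sum_univ_succ, ← mul_assoc, hι]
  have h6 : ∀ H : Fin M → S, ∃ q : MP d S, q.Monic ∧ TD q.natDegree q ∧
      ∀ v ∈ Z, lv ι (∑ j, c j • L j) v = 1 →
        ev2 ι (fun k : Fin d => lv ι (L k.succ) v) (lv ι H v) q = 0 := fun H => by
    obtain ⟨q, hq, h7, h8⟩ := h5 H
    refine ⟨q.map (MvPolynomial.aeval (Fin.cons 1 MvPolynomial.X :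
      Fin (d + 1) → MvPolynomial (Fin d) S) :
        MvPolynomial (Fin (d + 1)) S →ₐ[S] MvPolynomial (Fin d) S).toRingHom, hq.map _,
      fun i hi => ?_, fun v hv h9 => ?_⟩
    · rw [coeff_map] at hi ⊢
      rw [hq.natDegree_map]
      refine le_trans (Nat.add_le_add_right (cpj_deg (fun j => ?_) _) i)
        (h7 i fun e => hi (by rw [e, map_zero]))
      refine Fin.cases (by simp) (fun k => ?_) j
      exact (MvPolynomial.totalDegree_X k).le
    · rw [cpj_ev2_map, ← h8 v hv]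
      congr 2
      funext j
      exact Fin.cases (by simp [h9]) (fun k => by simp) j
  choose q hq hq' hq'' using h6
  refine ⟨⟨d, ∑ j, c j • L j, fun k => L k.succ, fun a => q (Pi.single a 1), fun a => hq _,
    fun v hv h9 a => ?_, hZ.slice_indep fun F hF => ?_⟩, fun t => ?_, fun t => ?_,
    fun H => ⟨q H, hq H, hq' H, hq'' H⟩, h4⟩
  · have h7 := hq'' (Pi.single a 1) v hv h9
    rwa [lv_single] at h7
  · have h7 := hi (MvPolynomial.aeval (fun o : Option (Fin d) => o.elim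
      (∑ j, MvPolynomial.C (c j) * MvPolynomial.X j) fun k => MvPolynomial.X k.succ) F)
      fun v hv => by
        rw [← hF v hv, ← MvPolynomial.coe_eval₂Hom, MvPolynomial.map_aeval,
          MvPolynomial.coe_eval₂Hom]
        congr 1
        · exact RingHom.ext fun c => by simp
        · funext o
          cases o with
          | none => simp [cpj_lv_sum]
          | some k => simp
    have h8 : (MvPolynomial.aeval (Fin.cons (MvPolynomial.C c' * (MvPolynomial.X none -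
        ∑ k : Fin d, MvPolynomial.C (c k.succ) * MvPolynomial.X (some k)))
        fun k => MvPolynomial.X (some k) : Fin (d + 1) → MvPolynomial (Option (Fin d)) S)).comp
        (MvPolynomial.aeval fun o : Option (Fin d) => o.elim
          (∑ j, MvPolynomial.C (c j) * MvPolynomial.X j) fun k => MvPolynomial.X k.succ) =
        AlgHom.id S _ := MvPolynomial.algHom_ext fun o => by
      cases o with
      | none =>
        have h8 : (MvPolynomial.C (c 0) * MvPolynomial.C c' :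
            MvPolynomial (Option (Fin d)) S) = 1 := by
          rw [← map_mul, mul_comm, hcc, map_one]
        simp [Fin.sum_univ_succ, ← mul_assoc, h8]
      | some k => simp
    have h9 := AlgHom.congr_fun h8 F
    rw [AlgHom.comp_apply, h7, map_zero] at h9
    exact h9.symm
  · rw [map_prod] at hc
    have h7 := Finset.prod_ne_zero_iff.1 hc t (Finset.mem_univ t)
    rwa [chb_eval_lp, ← cpj_lv_sum] at h7
  · let A : (Fin M → κ) →ₗ[κ] Fin (d + 1) → κ :=
      { toFun := fun w j => lv r (L j) w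
        map_add' := fun w w' => funext fun j => lv_add _ _ _ _
        map_smul' := fun c w => funext fun j => lv_smul _ _ _ _ }
    obtain ⟨w₀, hw₀⟩ := h3 t (tanS r (vI ι Z) (x t) ⊓ LinearMap.ker A) inf_le_left
      (eq_bot_iff.2 fun w hw => hinj t w hw.2 fun j => congrFun hw.1.2 j)
    refine ⟨w₀, fun w hw h7 h8 => hw₀ w ⟨hw, funext fun j => Fin.cases ?_ h8 j⟩⟩
    change lv r (∑ j, c j • L j) w = 0 at h7
    change ∀ k : Fin d, lv r (L k.succ) w = 0 at h8
    rw [cpj_lv_sum, Fin.sum_univ_succ] at h7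
    simp only [h8, mul_zero, Finset.sum_const_zero, add_zero] at h7
    exact (mul_eq_zero.1 h7).resolve_left (hc' 0)

end Pool.Agent.ZeroCyc
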