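import Pool.Agent.Lib.MP_796ce4_ag.ZQ.CModA
import Pool.Agent.Lib.MP_796ce4_ag.ZY.ChQ

/-! A hypersurface model that is exact at finitely many points. -/

namespace Pool.Agent.ZeroCyc

open Polynomial Module
open scoped Classical IntermediateField PowerSeries

set_option linter.unusedSectionVars false

section

variable {S A κ : Type} [CommRing S] [CommRing A] [Field κ] {M d : ℕ} [Algebra S A]
  [Algebra (MvPolynomial (Fin d) S) A] [IsScalarTower S (MvPolynomial (Fin d) S) A]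

theorem cpr_der {r : S →+* κ} (g : Fin M → A) (ψ : A →+* κ) (hψ : ψ.comp (algebraMap S A) = r)
    (D : A →+ κ) (hD : ∀ a b, D (a * b) = ψ a * D b + ψ b * D a)
    (h0 : ∀ c, D (algebraMap S A c) = 0) (G : MvPolynomial (Fin M) S) :
    D (MvPolynomial.aeval g G) = dG r (fun a => ψ (g a)) (fun a => D (g a)) G := by
  induction G using MvPolynomial.induction_on with
  | C c =>
    rw [MvPolynomial.aeval_C, h0]
    simp [dG]
  | add p q hp hq =>
    rw [map_add, map_add, hp, hq]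
    simp only [dG, map_add, MvPolynomial.eval₂_add, add_mul, Finset.sum_add_distrib]
  | mul_X p a hp =>
    rw [map_mul, MvPolynomial.aeval_X, hD, hp, che_map_aeval, hψ]
    have e : ∀ b, MvPolynomial.eval₂ r (fun a => ψ (g a))
        (MvPolynomial.pderiv b (p * MvPolynomial.X a)) * D (g b) =
          (if a = b then MvPolynomial.eval₂ r (fun a => ψ (g a)) p * D (g b) else 0) +
            ψ (g a) * (MvPolynomial.eval₂ r (fun a => ψ (g a)) (MvPolynomial.pderiv b p) *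
              D (g b)) := by
      intro b
      rw [MvPolynomial.pderiv_mul, MvPolynomial.eval₂_add, MvPolynomial.eval₂_mul,
        MvPolynomial.eval₂_mul, MvPolynomial.eval₂_X]
      by_cases hab : a = b
      · subst hab
        rw [MvPolynomial.pderiv_X_self, MvPolynomial.eval₂_one, if_pos rfl]
        ring
      · rw [MvPolynomial.pderiv_X_of_ne hab, MvPolynomial.eval₂_zero, if_neg hab]
        ring
    simp only [dG, e, Finset.sum_add_distrib, Finset.sum_ite_eq, Finset.mem_univ, if_true,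
      Finset.mul_sum]

theorem cpr_lv_sub (r : S →+* κ) (H : Fin M → S) (v w : Fin M → κ) :
    lv r H (v - w) = lv r H v - lv r H w := by
  simp only [lv, Pi.sub_apply, mul_sub, Finset.sum_sub_distrib]

theorem cpr_sep {r : S →+* κ} (hr : Gr r) {τ : Type} [Finite τ] (F : τ → Set (Fin M → κ))
    (hF : ∀ t, (F t).Finite) (x w : τ → Fin M → κ) :
    ∃ H : Fin M → S, ∀ t, (∀ x' ∈ F t, lv r H x' = lv r H (x t) → x' = x t) ∧
      (lv r H (w t) = 0 → w t = 0) := by
  have hfin : (⋃ t, insert (w t) ((fun y => y - x t) '' F t)).Finite :=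
    Set.finite_iUnion fun t => ((hF t).image _).insert _
  obtain ⟨H, hH⟩ := hr.exists_sep hfin 0
  have h0 : lv r H (0 : Fin M → κ) = 0 := by simp [lv]
  refine ⟨H, fun t => ⟨fun x' hx' e => ?_, fun e => ?_⟩⟩
  · refine sub_eq_zero.1 (hH _ (Set.mem_iUnion.2 ⟨t, Or.inr ⟨x', hx', rfl⟩⟩) ?_)
    rw [cpr_lv_sub, e, sub_self, h0]
  · exact hH _ (Set.mem_iUnion.2 ⟨t, Or.inl rfl⟩) (by rw [e, h0])

theorem exists_prim_elt' [IsDomain S] [IsIntegrallyClosed S] [IsDomain A] [IsAlgClosed κ]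
    {r : S →+* κ} (hr : Gr r) {g : Fin M → A}
    (hg : Function.Surjective (MvPolynomial.aeval g : MvPolynomial (Fin M) S →ₐ[S] A))
    {s : Fin d → Fin M → S} (hy : ∀ k, algebraMap (MvPolynomial (Fin d) S) A (MvPolynomial.X k) =
      lv (algebraMap S A) (s k) g)
    (hinj : Function.Injective (algebraMap (MvPolynomial (Fin d) S) A))
    {mi : Fin M → MP d S} (hm : ∀ a, (mi a).Monic) (hmi : ∀ a, aeval (g a) (mi a) = 0)
    {τ : Type} [Finite τ] [Nonempty τ] (ψ : τ → A →+* κ)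
    (hψ : ∀ t, (ψ t).comp (algebraMap S A) = r)
    (htan : ∀ t, ∃ w₀ : Fin M → κ, ∀ w : Fin M → κ,
      (∀ G : MvPolynomial (Fin M) S, MvPolynomial.aeval g G = 0 →
        dG r (fun a => ψ t (g a)) w G = 0) → (∀ k, lv r (s k) w = 0) → ∃ c : κ, w = c • w₀) :
    ∃ (H : Fin M → S) (χ D : MP d S) (pp : Fin M → MP d S), χ.Monic ∧
      aeval (lv (algebraMap S A) H g) χ = 0 ∧
      (∀ q : MP d S, aeval (lv (algebraMap S A) H g) q = 0 → χ ∣ q) ∧
      (∀ a, aeval (lv (algebraMap S A) H g) (pp a) = aeval (lv (algebraMap S A) H g) D * g a) ∧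
      ∀ t, ψ t (aeval (lv (algebraMap S A) H g) D) ≠ 0 := by
  choose w₀ hw₀ using htan
  obtain ⟨H, hH⟩ := cpr_sep hr (fun t => {x' : Fin M → κ | ∀ a, ev2 r
      (fun k => ψ t (algebraMap (MvPolynomial (Fin d) S) A (MvPolynomial.X k))) (x' a) (mi a) = 0})
    (fun t => che_fibre r _ hm) (fun t a => ψ t (g a)) w₀
  set h : A := lv (algebraMap S A) H g with hh
  have hfin := che_finite hg hm hmi
  have hic := mv_integrallyClosed (R := S) d
  have hfs : FaithfulSMul (MvPolynomial (Fin d) S) A :=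
    (faithfulSMul_iff_algebraMap_injective _ _).2 hinj
  have hint : IsIntegral (MvPolynomial (Fin d) S) h := Algebra.IsIntegral.isIntegral h
  have hdvd : ∀ q : MP d S, aeval h q = 0 → minpoly (MvPolynomial (Fin d) S) h ∣ q :=
    fun q hq => minpoly.isIntegrallyClosed_dvd hint hq
  let _ : Algebra (MP d S) A := (aeval h : MP d S →ₐ[MvPolynomial (Fin d) S] A).toRingHom.toAlgebra
  have hal : ∀ q : MP d S, algebraMap (MP d S) A q = aeval h q := fun _ => rfl
  have hC : ∀ c : MvPolynomial (Fin d) S,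
      algebraMap (MP d S) A (C c) = algebraMap (MvPolynomial (Fin d) S) A c := fun c => by
    rw [hal, aeval_C]
  have : IsScalarTower (MvPolynomial (Fin d) S) (MP d S) A :=
    IsScalarTower.of_algebraMap_eq fun c => (hC c).symm
  have : Module.Finite (MP d S) A :=
    Module.Finite.of_restrictScalars_finite (MvPolynomial (Fin d) S) _ A
  have huniq : ∀ t, ∀ ψ' : A →+* κ,
      ψ'.comp (algebraMap (MP d S) A) = (ψ t).comp (algebraMap (MP d S) A) → ψ' = ψ t := by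
    intro t ψ' hψ'
    have h1 : ∀ c, ψ' (algebraMap (MvPolynomial (Fin d) S) A c) =
        ψ t (algebraMap (MvPolynomial (Fin d) S) A c) := fun c => by
      rw [← hC]
      exact RingHom.congr_fun hψ' (C c)
    have h2 : ψ'.comp (algebraMap S A) = r := by
      rw [← hψ t]
      ext c
      rw [RingHom.comp_apply, RingHom.comp_apply, ← che_alg (d := d), h1]
    have h3 : ψ' h = ψ t h := by
      have := RingHom.congr_fun hψ' X
      rwa [RingHom.comp_apply, RingHom.comp_apply, hal, aeval_X] at this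
    have h4 : (fun a => ψ' (g a)) = fun a => ψ t (g a) := by
      refine (hH t).1 _ (fun a => ?_) ?_
      · have := map_aeval_eq_ev2 ψ' (g a) (mi a)
        rw [hmi, map_zero, h2, funext fun k => h1 (MvPolynomial.X k)] at this
        exact this.symm
      · rw [hh, map_lv, map_lv, h2, hψ] at h3
        exact h3
    ext a
    obtain ⟨G, rfl⟩ := hg a
    rw [che_map_aeval, che_map_aeval, h2, hψ, h4]
  have hder : ∀ t, ∀ D : A →+ κ, (∀ a b, D (a * b) = ψ t a * D b + ψ t b * D a) →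
      (∀ c, D (algebraMap (MP d S) A c) = 0) → D = 0 := by
    intro t D hD h0
    have hS : ∀ c, D (algebraMap S A c) = 0 := fun c => by
      rw [← che_alg (d := d), ← hC]
      exact h0 _
    have key := cpr_der g (ψ t) (hψ t) D hD hS
    have hl : ∀ l : Fin M → S, D (lv (algebraMap S A) l g) = lv r l fun a => D (g a) := by
      intro l
      rw [← dG_lp r fun a => ψ t (g a), ← key, MvPolynomial.aeval_def, eval₂_lp]
    obtain ⟨c, hc⟩ := hw₀ t (fun a => D (g a)) (fun G hG => by rw [← key, hG, map_zero])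
      fun k => by
        rw [← hl, ← hy, ← hC]
        exact h0 _
    have hz : lv r H (fun a => D (g a)) = 0 := by
      have := h0 X
      rwa [hal, aeval_X, hh, hl] at this
    have hw : (fun a => D (g a)) = 0 := by
      rw [hc, lv_smul] at hz
      rcases mul_eq_zero.1 hz with e | e
      · rw [hc, e, zero_smul]
      · rw [hc, (hH t).2 e, smul_zero]
    ext a
    obtain ⟨G, rfl⟩ := hg a
    rw [key, hw]
    simp [dG]
  obtain ⟨D, hD, hD'⟩ := exists_conductor_fin (O := MP d S) ψ fun t =>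
    exists_conductor' (O := MP d S) (ψ t) (huniq t) (hder t)
  choose pp hpp using fun a => hD' (g a)
  exact ⟨H, minpoly _ h, D, pp, minpoly.monic hint, minpoly.aeval _ _, hdvd, hpp, hD⟩

end

variable {S κ Λ : Type} [CommRing S] [Field κ] [Field Λ] {M : ℕ} {ι : S →+* Λ} {r : S →+* κ}
  {Z : Set (Fin M → Λ)}

theorem cpr_aux [IsDomain S] [IsIntegrallyClosed S] [IsAlgClosed κ] [IsAlgClosed Λ]
    (hZ : Cone ι Z) (hr : Gr r) {τ : Type} [Finite τ] [Nonempty τ] {x : τ → Fin M → κ}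
    (hx : ∀ t, ∀ G ∈ vI ι Z, MvPolynomial.eval₂ r (x t) G = 0) (𝒬 : Proj ι Z)
    (h1 : ∀ t, lv r 𝒬.s₀ (x t) = 1)
    (ht : ∀ t, ∃ w₀, ∀ w ∈ tanS r (vI ι Z) (x t), lv r 𝒬.s₀ w = 0 → (∀ k, lv r (𝒬.s k) w = 0) →
      ∃ c : κ, w = c • w₀)
    {A : Type} [CommRing A] [IsDomain A] [Algebra S A]
    [Algebra (MvPolynomial (Fin 𝒬.d) S) A] [IsScalarTower S (MvPolynomial (Fin 𝒬.d) S) A]
    {g : Fin M → A}
    (hg : Function.Surjective (MvPolynomial.aeval g : MvPolynomial (Fin M) S →ₐ[S] A))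
    (hk : ∀ G : MvPolynomial (Fin M) S,
      MvPolynomial.aeval g G = 0 ↔ G ∈ vI ι (slice ι Z 𝒬.s₀))
    (hy : ∀ k, algebraMap (MvPolynomial (Fin 𝒬.d) S) A (MvPolynomial.X k) =
      lv (algebraMap S A) (𝒬.s k) g) :
    ∃ 𝒬' : Pre ι Z, 𝒬'.toProj = 𝒬 ∧
      ∀ t, ev2 r (fun k => lv r (𝒬'.s k) (x t)) (lv r 𝒬'.H (x t)) 𝒬'.D ≠ 0 := by
  have key : ∀ {T : Type} [CommRing T] (ψ : A →+* T) (φ : S →+* T) (v : Fin M → T),
      ψ.comp (algebraMap S A) = φ → (fun a => ψ (g a)) = v → ∀ (h : A) (q : MP 𝒬.d S),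
      ψ (aeval h q) = ev2 φ (fun k => lv φ (𝒬.s k) v) (ψ h) q := by
    intro T _ ψ φ v e1 e2 h q
    rw [map_aeval_eq_ev2]
    simp only [hy, map_lv, e1, e2]
  have keyl : ∀ {T : Type} [CommRing T] (ψ : A →+* T) (φ : S →+* T) (v : Fin M → T),
      ψ.comp (algebraMap S A) = φ → (fun a => ψ (g a)) = v → ∀ (H : Fin M → S),
      ψ (lv (algebraMap S A) H g) = lv φ H v := by
    intro T _ ψ φ v e1 e2 H
    rw [map_lv, e1, e2]
  have hev : ∀ v ∈ Z, lv ι 𝒬.s₀ v = 1 →
      ∃ ψ : A →+* Λ, ψ.comp (algebraMap S A) = ι ∧ (fun a => ψ (g a)) = v :=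
    fun v hv hv1 => chq_lift hg ι v fun G hG => (hk G).1 hG v ⟨hv, hv1⟩
  have hzero : ∀ b : A, (∀ (ψ : A →+* Λ) (v : Fin M → Λ), v ∈ Z → lv ι 𝒬.s₀ v = 1 →
      ψ.comp (algebraMap S A) = ι → (fun a => ψ (g a)) = v → ψ b = 0) → b = 0 := by
    intro b hb
    obtain ⟨G, rfl⟩ := hg b
    refine (hk G).2 fun v hv => ?_
    obtain ⟨ψ, e1, e2⟩ := hev v hv.1 hv.2
    have e := hb ψ v hv.1 hv.2 e1 e2
    rwa [chq_map_aeval, e1, e2] at e
  have hinj : Function.Injective (algebraMap (MvPolynomial (Fin 𝒬.d) S) A) := by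
    rw [injective_iff_map_eq_zero]
    intro F hF
    refine 𝒬.indep F fun v hv hv1 => ?_
    obtain ⟨ψ, e1, e2⟩ := hev v hv hv1
    have e := key ψ ι v e1 e2 0 (C F)
    rw [aeval_C, hF, map_zero, ev2_C] at e
    exact e.symm
  have hmi : ∀ a, aeval (g a) (𝒬.mi a) = 0 := by
    intro a
    refine hzero _ fun ψ v hv hv1 e1 e2 => ?_
    rw [key ψ ι v e1 e2, congrFun e2 a]
    exact 𝒬.root v hv hv1 a
  choose ψ₀ f1 f2 using fun t => chq_lift hg r (x t) fun G hG =>
    hZ.slice_red (hx t) (h1 t) G ((hk G).1 hG)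
  have htan : ∀ t, ∃ w₀ : Fin M → κ, ∀ w : Fin M → κ,
      (∀ G : MvPolynomial (Fin M) S, MvPolynomial.aeval g G = 0 →
        dG r (fun a => ψ₀ t (g a)) w G = 0) → (∀ k, lv r (𝒬.s k) w = 0) →
          ∃ c : κ, w = c • w₀ := by
    intro t
    obtain ⟨w₀, hw₀⟩ := ht t
    refine ⟨w₀, fun w hw hs => ?_⟩
    rw [f2 t] at hw
    refine hw₀ w (fun G hG => hw G ((hk G).2 (vI_le_slice hG))) ?_ hs
    have e := hw _ ((hk _).2 lp_sub_mem)
    rwa [dG_sub_C, dG_lp] at e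
  obtain ⟨H, χ, D, pp, hχ, hon, hdvd, hpp, hD⟩ :=
    exists_prim_elt' hr hg hy hinj 𝒬.monic hmi ψ₀ f1 htan
  have hint : ∀ b : A, IsIntegral (MvPolynomial (Fin 𝒬.d) S) b := by
    intro b
    obtain ⟨G, rfl⟩ := hg b
    induction G using MvPolynomial.induction_on with
    | C c =>
      rw [MvPolynomial.aeval_C,
        IsScalarTower.algebraMap_apply S (MvPolynomial (Fin 𝒬.d) S) A]
      exact isIntegral_algebraMap
    | add p q hp hq =>
      rw [map_add]
      exact hp.add hq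
    | mul_X p a hp =>
      rw [map_mul, MvPolynomial.aeval_X]
      exact hp.mul ⟨𝒬.mi a, 𝒬.monic a, hmi a⟩
  refine ⟨{ toProj := 𝒬, H := H, χ := χ, D := D, pp := pp, monicχ := hχ, on := ?_, pt := ?_,
            dvd := ?_, surj := ?_ }, rfl, fun t => ?_⟩
  · intro v hv hv1
    obtain ⟨ψ, e1, e2⟩ := hev v hv hv1
    rw [← keyl ψ ι v e1 e2 H, ← key ψ ι v e1 e2, hon, map_zero]
  · intro v hv hv1 a
    obtain ⟨ψ, e1, e2⟩ := hev v hv hv1
    rw [← keyl ψ ι v e1 e2 H, ← key ψ ι v e1 e2, ← key ψ ι v e1 e2, hpp, map_mul,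
      congrFun e2 a]
  · intro q hq
    refine hdvd q (hzero _ fun ψ v hv hv1 e1 e2 => ?_)
    rw [key ψ ι v e1 e2, keyl ψ ι v e1 e2]
    exact hq v hv hv1
  · intro y h hyh
    let φ : MP 𝒬.d S →+* A :=
      (aeval (lv (algebraMap S A) H g) :
        MP 𝒬.d S →ₐ[MvPolynomial (Fin 𝒬.d) S] A).toRingHom
    have hφ : ∀ q, φ q = aeval (lv (algebraMap S A) H g) q := fun _ => rfl
    have hφi : φ.IsIntegral := by
      refine RingHom.IsIntegral.tower_top (C : MvPolynomial (Fin 𝒬.d) S →+* MP 𝒬.d S) φ ?_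
      have e : φ.comp C = algebraMap (MvPolynomial (Fin 𝒬.d) S) A :=
        RingHom.ext fun F => by rw [RingHom.comp_apply, hφ, aeval_C]
      rw [e]
      exact hint
    have hker : RingHom.ker φ ≤ RingHom.ker (ev2 ι y h) := by
      intro q hq
      obtain ⟨q', rfl⟩ := hdvd q hq
      rw [RingHom.mem_ker, map_mul, hyh, zero_mul]
    obtain ⟨ψ, hψ⟩ := exists_ext_of_isIntegral hφi (ev2 ι y h) hker
    have hψ' : ∀ q, ψ (aeval (lv (algebraMap S A) H g) q) = ev2 ι y h q := fun q =>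
      DFunLike.congr_fun hψ q
    have e1 : ψ.comp (algebraMap S A) = ι := by
      ext c
      have e := hψ' (C (MvPolynomial.C c))
      rw [aeval_C, ev2_C, MvPolynomial.eval₂_C] at e
      rw [RingHom.comp_apply, IsScalarTower.algebraMap_apply S (MvPolynomial (Fin 𝒬.d) S) A]
      exact e
    have hv : (fun a => ψ (g a)) ∈ slice ι Z 𝒬.s₀ := by
      refine hZ.slice_closed fun G hG => ?_
      rw [← e1, ← chq_map_aeval, (hk G).2 hG, map_zero]
    refine ⟨fun a => ψ (g a), hv.1, hv.2, ?_, ?_⟩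
    · funext k
      have e := hψ' (C (MvPolynomial.X k))
      rwa [aeval_C, ev2_C, MvPolynomial.eval₂_X, hy, keyl ψ ι _ e1 rfl] at e
    · have e := hψ' X
      rwa [aeval_X, keyl ψ ι _ e1 rfl, ev2_eq_eval, map_X, eval_X] at e
  · have e := hD t
    rwa [key (ψ₀ t) r _ (f1 t) (f2 t), keyl (ψ₀ t) r _ (f1 t) (f2 t)] at e

theorem Proj.exists_pre' [IsDomain S] [IsIntegrallyClosed S] [IsAlgClosed κ] [IsAlgClosed Λ]
    (hZ : Cone ι Z) (hr : Gr r) {τ : Type} [Finite τ] [Nonempty τ] {x : τ → Fin M → κ}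
    (hx : ∀ t, ∀ G ∈ vI ι Z, MvPolynomial.eval₂ r (x t) G = 0) (𝒬 : Proj ι Z)
    (h1 : ∀ t, lv r 𝒬.s₀ (x t) = 1)
    (ht : ∀ t, ∃ w₀, ∀ w ∈ tanS r (vI ι Z) (x t), lv r 𝒬.s₀ w = 0 → (∀ k, lv r (𝒬.s k) w = 0) →
      ∃ c : κ, w = c • w₀) :
    ∃ 𝒬' : Pre ι Z, 𝒬'.toProj = 𝒬 ∧
      ∀ t, ev2 r (fun k => lv r (𝒬'.s k) (x t)) (lv r 𝒬'.H (x t)) 𝒬'.D ≠ 0 := by
  obtain ⟨t₀⟩ : Nonempty τ := inferInstance
  haveI := hZ.slice_isPrime (hx t₀) (h1 t₀)
  let I := vI ι (slice ι Z 𝒬.s₀)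
  let g : Fin M → MvPolynomial (Fin M) S ⧸ I := fun a => Ideal.Quotient.mk I (MvPolynomial.X a)
  have hmk : ∀ G : MvPolynomial (Fin M) S, MvPolynomial.aeval g G = Ideal.Quotient.mk I G := by
    have e : (MvPolynomial.aeval g : MvPolynomial (Fin M) S →ₐ[S] _) = Ideal.Quotient.mkₐ S I :=
      MvPolynomial.algHom_ext fun a => by rw [MvPolynomial.aeval_X]; rfl
    intro G
    rw [e]
    rfl
  let f : MvPolynomial (Fin 𝒬.d) S →ₐ[S] MvPolynomial (Fin M) S ⧸ I :=
    MvPolynomial.aeval fun k => lv (algebraMap S _) (𝒬.s k) g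
  letI : Algebra (MvPolynomial (Fin 𝒬.d) S) (MvPolynomial (Fin M) S ⧸ I) :=
    f.toRingHom.toAlgebra
  haveI : IsScalarTower S (MvPolynomial (Fin 𝒬.d) S) (MvPolynomial (Fin M) S ⧸ I) :=
    IsScalarTower.of_algebraMap_eq fun c => (f.commutes c).symm
  refine cpr_aux hZ hr hx 𝒬 h1 ht (g := g) (fun b => ?_) (fun G => ?_) fun k => ?_
  · obtain ⟨G, rfl⟩ := Ideal.Quotient.mk_surjective b
    exact ⟨G, hmk G⟩
  · rw [hmk, Ideal.Quotient.eq_zero_iff_mem]
  · exact MvPolynomial.aeval_X _ k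

end Pool.Agent.ZeroCyc
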