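import Pool.Agent.Lib.MP_796ce4_ag.ZQ.CReg
import Pool.Agent.Lib.MP_796ce4_ag.ZQ.CPj
import Pool.Agent.Lib.MP_796ce4_ag.ZQ.CPr
import Pool.Agent.Lib.MP_796ce4_ag.ZY.ChH

/-! Hypersurface models over the integers of a subfield. -/

namespace Pool.Agent.ZeroCyc

open Polynomial Module
open scoped Classical IntermediateField PowerSeries

set_option linter.unusedSectionVars false

variable {K Λ : Type} [Field K] [CharZero K] [NormedField Λ] [IsUltrametricDist Λ] [IsAlgClosed Λ]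
  [Algebra K Λ] {N : ℕ}

/-- a finite birational linear projection onto a hypersurface -/
structure Hyp (J : Ideal (MvPolynomial (Fin (N + 1)) K)) (E : IntermediateField K Λ) (d : ℕ) where
  s₀ : Fin (N + 1) → OL E
  s : Fin d → Fin (N + 1) → OL E
  H : Fin (N + 1) → OL E
  χ : MP d (OL E)
  D : MP d (OL E)
  pp : Fin (N + 1) → MP d (OL E)
  monic : χ.Monic
  td : TD χ.natDegree χ
  on : ∀ v, OnX J v → lv (OL E).subtype s₀ v = 1 →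
    ev2 (OL E).subtype (fun k => lv (OL E).subtype (s k) v) (lv (OL E).subtype H v) χ = 0
  pt : ∀ v, OnX J v → lv (OL E).subtype s₀ v = 1 → ∀ a,
    ev2 (OL E).subtype (fun k => lv (OL E).subtype (s k) v) (lv (OL E).subtype H v) (pp a) =
      ev2 (OL E).subtype (fun k => lv (OL E).subtype (s k) v) (lv (OL E).subtype H v) D * v a
  surj : ∀ y h, ev2 (OL E).subtype y h χ = 0 → ∃ v, OnX J v ∧ lv (OL E).subtype s₀ v = 1 ∧
    (fun k => lv (OL E).subtype (s k) v) = y ∧ lv (OL E).subtype H v = h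
  int : ∀ v, OnX J v → lv (OL E).subtype s₀ v = 1 → (∀ k, ‖lv (OL E).subtype (s k) v‖ ≤ 1) →
    ∀ a, ‖v a‖ ≤ 1
  irr : Irreducible (mq (OL E).subtype χ)
  dim : ∀ k, DimA Λ J k → k ≤ d + 1

variable {J : Ideal (MvPolynomial (Fin (N + 1)) K)} {E L : IntermediateField K Λ} {d : ℕ} {π : Λ}

theorem chyp_ev2 {R S T σ : Type} [CommRing R] [CommRing S] [CommRing T] {d : ℕ} (φ : S →+* T)
    (ψ : R →+* S) (y : Fin d → T) (h : T) (pp : σ → MP d S) (Ξ : MvPolynomial σ R) :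
    ev2 φ y h (MvPolynomial.eval₂ ((C.comp MvPolynomial.C).comp ψ) pp Ξ) =
      MvPolynomial.eval₂ (φ.comp ψ) (fun a => ev2 φ y h (pp a)) Ξ := by
  rw [MvPolynomial.eval₂_comp_left]
  congr 1
  exact RingHom.ext fun a => (ev2_C _ _ _ _).trans (MvPolynomial.eval₂_C _ _ _)

theorem chyp_mv {σ : Type} {v : σ → Λ} (hv : ∀ i, ‖v i‖ ≤ 1) (g : MvPolynomial σ (OL E)) :
    rs (MvPolynomial.eval₂ (OL E).subtype v g) =
      MvPolynomial.eval₂ (rL E) (fun i => rs (v i)) g :=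
  (rs_mv (φ := (OL E).subtype) (fun c => (mem_OL.1 c.2).2) rL_apply hv g).2

theorem chyp_mq {d : ℕ} {R S : Type} [CommRing R] [CommRing S] (φ : R →+* S) (y : Fin d → S)
    (h : S) (q : MP d R) : ev2 (RingHom.id S) y h (mq φ q) = ev2 φ y h q := by
  rw [ev2_mq, RingHom.id_comp]

theorem chyp_red {v : Fin (N + 1) → Λ} (hv : PrimX J v) :
    ∀ G ∈ vI (OL E).subtype {v | OnX J v},
      MvPolynomial.eval₂ (rL E) (fun a => rs (v a)) G = 0 := fun G hG => by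
  rw [← chyp_mv (norm_apply_le hv.2) G, hG v hv.1, rs_zero]

theorem chyp_ne {c : Λ} (h : ‖c‖ = 1) : c ≠ 0 := norm_ne_zero_iff.1 (h ▸ one_ne_zero)

theorem chyp_le {M : ℕ} {v : Fin M → Λ} (hv : ∀ a, ‖v a‖ ≤ 1) {c : Λ} (h : ‖c‖ = 1) (a : Fin M) :
    ‖(c⁻¹ • v) a‖ ≤ 1 := by
  rw [Pi.smul_apply, norm_smul, norm_inv, h, inv_one, one_mul]
  exact hv a

/-- the reduction of the normalised vector -/
theorem chyp_rs {M : ℕ} {v : Fin M → Λ} (hv : ∀ a, ‖v a‖ ≤ 1) {s₀ : Fin M → OL E}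
    (h : ‖lv (OL E).subtype s₀ v‖ = 1) (l : Fin M → OL E) :
    ‖lv (OL E).subtype l ((lv (OL E).subtype s₀ v)⁻¹ • v)‖ ≤ 1 ∧
      rs (lv (OL E).subtype l ((lv (OL E).subtype s₀ v)⁻¹ • v)) =
        lv (rL E) l ((lv (rL E) s₀ fun a => rs (v a))⁻¹ • fun a => rs (v a)) := by
  refine ⟨(rs_lv (chyp_le hv h) l).1, (rs_lv (chyp_le hv h) l).2.trans ?_⟩
  rw [Pre.chh_rs hv h, (rs_lv hv s₀).2]
  congr 1
  funext a
  rw [Pi.smul_apply, smul_eq_mul, div_eq_inv_mul]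

namespace Hyp

variable (𝒬 : Hyp J E d)

/-- the normalised vector -/
noncomputable def nv (v : Fin (N + 1) → Λ) : Fin (N + 1) → Λ := (lv (OL E).subtype 𝒬.s₀ v)⁻¹ • v
/-- the affine coordinates of a point -/
noncomputable def cy (v : Fin (N + 1) → Λ) : Fin d → Λ :=
  fun k => lv (OL E).subtype (𝒬.s k) (𝒬.nv v)
/-- the last coordinate of a point -/
noncomputable def ch (v : Fin (N + 1) → Λ) : Λ := lv (OL E).subtype 𝒬.H (𝒬.nv v)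
/-- the map to the cone -/
noncomputable def pv (y : Fin d → Λ) (h : Λ) : Fin (N + 1) → Λ :=
  fun a => ev2 (OL E).subtype y h (𝒬.pp a)

/-- the model is exact at the primitive point `v` -/
structure At (v : Fin (N + 1) → Λ) : Prop where
  prim : PrimX J v
  one : ‖lv (OL E).subtype 𝒬.s₀ v‖ = 1
  hD : ‖ev2 (OL E).subtype (𝒬.cy v) (𝒬.ch v) 𝒬.D‖ = 1

variable {𝒬} {v v' : Fin (N + 1) → Λ} {y : Fin d → Λ} {h : Λ}

theorem dvd {q : MP d (OL E)} (hq : ∀ y h, ev2 (OL E).subtype y h 𝒬.χ = 0 →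
    ev2 (OL E).subtype y h q = 0) : 𝒬.χ ∣ q := by
  refine (map_dvd_map _ (MvPolynomial.map_injective _ (OL E).subtype_injective) 𝒬.monic).1 ?_
  refine dvd_of_vanish (𝒬.monic.map _) 𝒬.irr fun y h h0 => ?_
  exact (ev2_mq _ _ y h q).trans (hq y h ((ev2_mq _ _ y h 𝒬.χ).symm.trans h0))
theorem pos : 0 < 𝒬.χ.natDegree := by
  refine Nat.pos_of_ne_zero fun h0 => 𝒬.irr.not_isUnit ?_
  rw [eq_one_of_monic_natDegree_zero 𝒬.monic h0, map_one]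
  exact isUnit_one
theorem chyp_nv (h1 : lv (OL E).subtype 𝒬.s₀ v = 1) : 𝒬.nv v = v := by
  rw [nv, h1, inv_one, one_smul]
theorem chyp_cy (hv : ∀ a, ‖v a‖ ≤ 1) (h1 : ‖lv (OL E).subtype 𝒬.s₀ v‖ = 1) :
    (fun k => rs (𝒬.cy v k)) = fun k => lv (rL E) (𝒬.s k)
      ((lv (rL E) 𝒬.s₀ fun a => rs (v a))⁻¹ • fun a => rs (v a)) :=
  funext fun k => (chyp_rs hv h1 (𝒬.s k)).2
theorem chyp_ch (hv : ∀ a, ‖v a‖ ≤ 1) (h1 : ‖lv (OL E).subtype 𝒬.s₀ v‖ = 1) :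
    rs (𝒬.ch v) = lv (rL E) 𝒬.H ((lv (rL E) 𝒬.s₀ fun a => rs (v a))⁻¹ • fun a => rs (v a)) :=
  (chyp_rs hv h1 𝒬.H).2
/-- a primitive point with `s₀` a unit -/
theorem coord (hX : RegX J π) (hv : PrimX J v) (h1 : ‖lv (OL E).subtype 𝒬.s₀ v‖ = 1) :
    (∀ k, ‖𝒬.cy v k‖ ≤ 1) ∧ ‖𝒬.ch v‖ ≤ 1 ∧ ev2 (OL E).subtype (𝒬.cy v) (𝒬.ch v) 𝒬.χ = 0 ∧
      𝒬.pv (𝒬.cy v) (𝒬.ch v) = (ev2 (OL E).subtype (𝒬.cy v) (𝒬.ch v) 𝒬.D *
        (lv (OL E).subtype 𝒬.s₀ v)⁻¹) • v := by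
  have h2 : OnX J (𝒬.nv v) := hX.smul _ _ hv.1
  have h3 : lv (OL E).subtype 𝒬.s₀ (𝒬.nv v) = 1 := by
    rw [nv, lv_smul, inv_mul_cancel₀ (chyp_ne h1)]
  refine ⟨fun k => (chyp_rs (norm_apply_le hv.2) h1 _).1, (chyp_rs (norm_apply_le hv.2) h1 _).1,
    𝒬.on _ h2 h3, funext fun a => (𝒬.pt _ h2 h3 a).trans ?_⟩
  rw [Pi.smul_apply, smul_eq_mul, mul_assoc]
  rfl
theorem coord_mem (hL : E ≤ L) (hv : ∀ a, v a ∈ L) : (∀ k, 𝒬.cy v k ∈ L) ∧ 𝒬.ch v ∈ L := by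
  have h : ∀ a, 𝒬.nv v a ∈ L := fun a => L.mul_mem (L.inv_mem (lv_mem hL hv _)) (hv a)
  exact ⟨fun k => lv_mem hL h _, lv_mem hL h _⟩
theorem coord_congr (hv : ∀ a, ‖v a‖ ≤ 1) (h1 : ‖lv (OL E).subtype 𝒬.s₀ v‖ = 1)
    (h' : ∀ a, ‖v' a - v a‖ < 1) : (∀ k, ‖𝒬.cy v' k - 𝒬.cy v k‖ < 1) ∧ ‖𝒬.ch v' - 𝒬.ch v‖ < 1 := by
  have hv' : ∀ a, ‖v' a‖ ≤ 1 := fun a => (cht_near (hv a) (h' a)).1
  have e : (fun a => rs (v' a)) = fun a => rs (v a) := funext fun a => (cht_near (hv a) (h' a)).2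
  have h2 : ‖lv (OL E).subtype 𝒬.s₀ v'‖ = 1 := by
    rw [← rs_ne_zero, (rs_lv hv' _).2, e, ← (rs_lv hv _).2, rs_ne_zero]
    exact h1
  have key : ∀ l : Fin (N + 1) → OL E,
      ‖lv (OL E).subtype l (𝒬.nv v') - lv (OL E).subtype l (𝒬.nv v)‖ < 1 := fun l => by
    refine (rs_eq_iff (chyp_rs hv' h2 l).1 (chyp_rs hv h1 l).1).1 ?_
    rw [(chyp_rs hv' h2 l).2, (chyp_rs hv h1 l).2, e]
  exact ⟨fun k => key _, key _⟩
/-- integral points of the hypersurface come from primitive points -/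
theorem exists_prim (hy : ∀ k, ‖y k‖ ≤ 1) (h0 : ev2 (OL E).subtype y h 𝒬.χ = 0) :
    ∃ v, PrimX J v ∧ lv (OL E).subtype 𝒬.s₀ v = 1 ∧ 𝒬.cy v = y ∧ 𝒬.ch v = h := by
  obtain ⟨v, hv, h1, rfl, rfl⟩ := 𝒬.surj y h h0
  refine ⟨v, ⟨hv, norm_eq_one_of_lv (𝒬.int v hv h1 hy) h1⟩, h1, funext fun k => ?_, ?_⟩
  · rw [cy, chyp_nv h1]
  · rw [ch, chyp_nv h1]
theorem exists_pt {a : Fin d → kk Λ} {c : kk Λ} (h0 : ev2 (rL E) a c 𝒬.χ = 0) :
    ∃ v, PrimX J v ∧ lv (OL E).subtype 𝒬.s₀ v = 1 ∧ (fun k => rs (𝒬.cy v k)) = a ∧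
      rs (𝒬.ch v) = c := by
  obtain ⟨y, h, hy, -, rfl, rfl, h1⟩ := exists_ev2_lift 𝒬.monic h0
  obtain ⟨v, hv, h2, rfl, rfl⟩ := exists_prim hy h1
  exact ⟨v, hv, h2, rfl, rfl⟩
theorem chyp_pv (h0 : ev2 (OL E).subtype y h 𝒬.χ = 0) : ∃ v, OnX J v ∧
    lv (OL E).subtype 𝒬.s₀ v = 1 ∧ 𝒬.pv y h = ev2 (OL E).subtype y h 𝒬.D • v := by
  obtain ⟨v, hv, h1, rfl, rfl⟩ := 𝒬.surj y h h0
  exact ⟨v, hv, h1, funext fun a => 𝒬.pt v hv h1 a⟩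
theorem onX_pv (hX : RegX J π) (h0 : ev2 (OL E).subtype y h 𝒬.χ = 0) : OnX J (𝒬.pv y h) := by
  obtain ⟨v, hv, -, e⟩ := chyp_pv h0
  rw [e]
  exact hX.smul _ _ hv
theorem pv_ne (h0 : ev2 (OL E).subtype y h 𝒬.χ = 0) (hD : ev2 (OL E).subtype y h 𝒬.D ≠ 0) :
    𝒬.pv y h ≠ 0 := by
  obtain ⟨v, -, h1, e⟩ := chyp_pv h0
  rw [e]
  refine smul_ne_zero hD ?_
  rintro rfl
  simp [lv] at h1
theorem norm_pv (hy : ∀ k, ‖y k‖ ≤ 1) (h0 : ev2 (OL E).subtype y h 𝒬.χ = 0)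
    (hD : ‖ev2 (OL E).subtype y h 𝒬.D‖ = 1) : ‖𝒬.pv y h‖ = 1 := by
  obtain ⟨v, hv, h1, rfl, rfl⟩ := 𝒬.surj y h h0
  rw [show 𝒬.pv _ _ = ev2 (OL E).subtype _ _ 𝒬.D • v from funext fun a => 𝒬.pt v hv h1 a,
    norm_smul, hD, one_mul]
  exact norm_eq_one_of_lv (𝒬.int v hv h1 hy) h1
theorem dvd_aeval (hX : RegX J π) : ∀ G ∈ J, mq (OL E).subtype 𝒬.χ ∣
    MvPolynomial.aeval (fun i => mq (OL E).subtype (𝒬.pp i)) G := by
  intro G hG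
  refine dvd_of_vanish (𝒬.monic.map _) 𝒬.irr fun y h h0 => ?_
  have h1 := onX_pv hX ((ev2_mq _ _ y h 𝒬.χ).symm.trans h0) G hG
  refine (chyp_ev2 (RingHom.id Λ) (algebraMap K Λ) y h _ G).trans ?_
  simp only [ev2_mq]
  exact h1
/-- the reduction of a point lies on the special fibre -/
theorem chyp_on (hX : RegX J π) (hv : PrimX J v) (h1 : ‖lv (OL E).subtype 𝒬.s₀ v‖ = 1) :
    ev2 (RingHom.id _) (fun k => rs (𝒬.cy v k)) (rs (𝒬.ch v)) (mq (rL E) 𝒬.χ) = 0 := by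
  obtain ⟨a1, a2, a3, -⟩ := coord hX hv h1
  rw [ev2_mq, RingHom.id_comp, ← (rs_ev2' a1 a2 _).2, a3, rs_zero]
variable (𝒬) in
/-- a form that represents a function on the special fibre -/
theorem chyp_hom (f : MP d (kk Λ)) : ∃ F : MvPolynomial (Fin (N + 1)) (kk Λ),
    ∀ v : Fin (N + 1) → Λ, (∀ a, ‖v a‖ ≤ 1) →
      (MvPolynomial.eval (fun a => rs (v a)) F = 0 ↔ (‖lv (OL E).subtype 𝒬.s₀ v‖ = 1 →
        ev2 (RingHom.id _) (fun k => rs (𝒬.cy v k)) (rs (𝒬.ch v)) f = 0)) := by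
  obtain ⟨k, F, -, hF⟩ := exists_hom_mp (fun a => rL E (𝒬.s₀ a)) (fun a => rL E (𝒬.H a))
    (fun j a => rL E (𝒬.s j a)) f
  refine ⟨(lp fun a => rL E (𝒬.s₀ a)) * F, fun v hv => ?_⟩
  rw [map_mul, Pre.chh_lp, ← rs_ne_zero, (rs_lv hv _).2]
  by_cases h0 : lv (rL E) 𝒬.s₀ (fun a => rs (v a)) = 0
  · exact ⟨fun _ h => absurd h0 h, fun _ => by rw [h0, zero_mul]⟩
  have h1 : ‖lv (OL E).subtype 𝒬.s₀ v‖ = 1 := rs_ne_zero.1 (by rwa [(rs_lv hv _).2])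
  have e : MvPolynomial.eval (fun a => rs (v a)) F = lv (rL E) 𝒬.s₀ (fun a => rs (v a)) ^ k *
      ev2 (RingHom.id _) (fun k => rs (𝒬.cy v k)) (rs (𝒬.ch v)) f := by
    rw [chyp_cy hv h1, chyp_ch hv h1]
    exact hF (kk Λ) (RingHom.id _) _ h0
  rw [e]
  exact ⟨fun h _ => (mul_eq_zero.1 ((mul_eq_zero.1 h).resolve_left h0)).resolve_left
    (pow_ne_zero _ h0), fun h => by rw [h h0, mul_zero, mul_zero]⟩
/-- a function that does not vanish at the test points does not vanish on a component -/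
theorem not_dvd (hX : RegX J π) {V : Finset (Fin (N + 1) → Λ)} (hV : Test J V)
    (hA : ∀ v ∈ V, 𝒬.At v) {f g : MP d (kk Λ)}
    (hf : ∀ v ∈ V, ev2 (RingHom.id _) (fun k => rs (𝒬.cy v k)) (rs (𝒬.ch v)) f ≠ 0)
    (hg : g.Monic) (hi : Irreducible g) (hd : g ∣ mq (rL E) 𝒬.χ) : ¬g ∣ f := by
  rintro ⟨f', rfl⟩
  obtain ⟨n, r, hr, e⟩ := WfDvdMonoid.max_power_factor
    (show mq (rL E) 𝒬.χ ≠ 0 from (𝒬.monic.map _).ne_zero) hi
  obtain ⟨F, hF⟩ := 𝒬.chyp_hom r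
  obtain ⟨G, hG⟩ := 𝒬.chyp_hom (g * f')
  have key := hV F G (fun v hv => ?_) fun v hv h0 =>
    hf v hv ((hG v (norm_apply_le (hA v hv).prim.2)).1 h0 (hA v hv).one)
  · refine hr (dvd_of_vanish hg hi fun a c h0 => ?_)
    obtain ⟨q, hq⟩ := hd
    obtain ⟨v, hv, h1, rfl, rfl⟩ := exists_pt (𝒬 := 𝒬) (a := a) (c := c)
      ((chyp_mq _ a c 𝒬.χ).symm.trans (by rw [hq, map_mul, h0, zero_mul]))
    exact (hF v (norm_apply_le hv.2)).1 (key v hv) (by rw [h1, norm_one])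
  · rw [map_mul, mul_eq_zero, hF v (norm_apply_le hv.2), hG v (norm_apply_le hv.2)]
    by_cases h1 : ‖lv (OL E).subtype 𝒬.s₀ v‖ = 1
    · have h2 := chyp_on hX hv h1
      rw [e, map_mul, map_pow] at h2
      rcases mul_eq_zero.1 h2 with h2 | h2
      · exact Or.inr fun _ => by rw [map_mul, eq_zero_of_pow_eq_zero h2, zero_mul]
      · exact Or.inl fun _ => h2
    · exact Or.inl fun h => absurd h h1
/-- the complement of a hypersurface in the base is dense -/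
theorem dense (hX : RegX J π) {V : Finset (Fin (N + 1) → Λ)} (hV : Test J V)
    (hA : ∀ v ∈ V, 𝒬.At v) {D₀ : MvPolynomial (Fin d) (OL E)}
    (h0 : MvPolynomial.map (rL E) D₀ ≠ 0) {F : MvPolynomial (Fin (N + 1)) (kk Λ)} {k : ℕ}
    (hF : F.IsHomogeneous k) (h1 : ∀ v, PrimX J v → ‖lv (OL E).subtype 𝒬.s₀ v‖ = 1 →
      ‖MvPolynomial.eval₂ (OL E).subtype (𝒬.cy v) D₀‖ = 1 →
        MvPolynomial.eval (fun a => rs (v a)) F = 0) (hv : PrimX J v) :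
    MvPolynomial.eval (fun a => rs (v a)) F = 0 := by
  obtain ⟨f, hf⟩ : ∃ f : MP d (kk Λ), ∀ v, PrimX J v → ‖lv (OL E).subtype 𝒬.s₀ v‖ = 1 →
      ev2 (RingHom.id _) (fun k => rs (𝒬.cy v k)) (rs (𝒬.ch v)) f =
        (rs (ev2 (OL E).subtype (𝒬.cy v) (𝒬.ch v) 𝒬.D) * rs (lv (OL E).subtype 𝒬.s₀ v)⁻¹) ^ k *
          MvPolynomial.eval (fun a => rs (v a)) F := by
    refine ⟨MvPolynomial.eval₂ ((C.comp MvPolynomial.C).comp (RingHom.id _))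
      (fun a => mq (rL E) (𝒬.pp a)) F, fun v hv h2 => ?_⟩
    obtain ⟨a1, a2, -, a4⟩ := coord hX hv h2
    have a5 : ‖(lv (OL E).subtype 𝒬.s₀ v)⁻¹‖ ≤ 1 := by rw [norm_inv, h2, inv_one]
    have a6 := (rs_ev2' a1 a2 𝒬.D).1
    rw [chyp_ev2]
    refine Eq.trans ?_ (eval₂_smul_homog hF (RingHom.id _) _ _)
    congr 1
    funext a
    rw [ev2_mq, RingHom.id_comp, ← (rs_ev2' a1 a2 _).2, Pi.smul_apply, smul_eq_mul,
      ← rs_mul a6 a5, ← rs_mul ((norm_mul _ _).trans_le (mul_le_one₀ a6 (norm_nonneg _) a5))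
        (norm_apply_le hv.2 a)]
    exact congrArg rs (congrFun a4 a)
  have h2 : ∀ a c, ev2 (RingHom.id _) a c (mq (rL E) 𝒬.χ) = 0 →
      ev2 (RingHom.id _) a c (C (MvPolynomial.map (rL E) D₀) * f) = 0 := fun a c h => by
    obtain ⟨v, hv, h3, rfl, rfl⟩ := exists_pt (𝒬 := 𝒬) (a := a) (c := c)
      ((chyp_mq _ a c 𝒬.χ).symm.trans h)
    have h4 : ‖lv (OL E).subtype 𝒬.s₀ v‖ = 1 := by rw [h3, norm_one]
    rw [map_mul, ev2_C, MvPolynomial.eval₂_map, RingHom.id_comp,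
      ← chyp_mv (coord hX hv h4).1 D₀, hf v hv h4]
    by_cases h5 : rs (MvPolynomial.eval₂ (OL E).subtype (𝒬.cy v) D₀) = 0
    · rw [h5, zero_mul]
    · rw [h1 v hv h4 (rs_ne_zero.1 h5), mul_zero, mul_zero]
  have h3 : ∀ a c, ev2 (RingHom.id _) a c (mq (rL E) 𝒬.χ) = 0 →
      ev2 (RingHom.id _) a c f = 0 := fun a c h => by
    obtain ⟨g, hg, hi, ⟨q, hq⟩, h4⟩ := exists_irr_factor (𝒬.monic.map _) h
    have h5 : g ∣ C (MvPolynomial.map (rL E) D₀) * f := dvd_of_vanish hg hi fun a c h =>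
      h2 a c (by rw [show mq (rL E) 𝒬.χ = g * q from hq, map_mul, h, zero_mul])
    obtain ⟨q', hq'⟩ := (hi.prime.dvd_or_dvd h5).resolve_left (hg.not_dvd_of_natDegree_lt
      (C_ne_zero.2 h0) (by
        rw [natDegree_C]
        exact Nat.pos_of_ne_zero fun h6 =>
          hi.not_isUnit (eq_one_of_monic_natDegree_zero hg h6 ▸ isUnit_one)))
    rw [hq', map_mul, h4, zero_mul]
  obtain ⟨G, hG⟩ := 𝒬.chyp_hom (mq (rL E) 𝒬.D)
  have hD : ∀ v, PrimX J v → ‖lv (OL E).subtype 𝒬.s₀ v‖ = 1 →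
      ev2 (RingHom.id _) (fun k => rs (𝒬.cy v k)) (rs (𝒬.ch v)) (mq (rL E) 𝒬.D) =
        rs (ev2 (OL E).subtype (𝒬.cy v) (𝒬.ch v) 𝒬.D) := fun v hv h4 => by
    rw [ev2_mq, RingHom.id_comp, (rs_ev2' (coord hX hv h4).1 (coord hX hv h4).2.1 _).2]
  refine hV F G (fun v hv => ?_) (fun v hv h4 => ?_) v hv
  · rw [map_mul, mul_eq_zero, hG v (norm_apply_le hv.2), or_iff_not_imp_left]
    intro h4 h5
    have h6 := h3 _ _ (chyp_on hX hv h5)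
    rw [hf v hv h5] at h6
    rw [hD v hv h5]
    refine (mul_eq_zero.1 (eq_zero_of_pow_eq_zero ((mul_eq_zero.1 h6).resolve_right h4))).resolve_right
      (rs_ne_zero.2 ?_)
    rw [norm_inv, h5, inv_one]
  · have h5 := (hG v (norm_apply_le (hA v hv).prim.2)).1 h4 (hA v hv).one
    rw [hD v (hA v hv).prim (hA v hv).one] at h5
    exact rs_ne_zero.2 (hA v hv).hD h5

end Hyp

theorem Pre.irr_generic (hX : RegX J π) (𝒬 : Pre (OL E).subtype {v : Fin (N + 1) → Λ | OnX J v})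
    {v : Fin (N + 1) → Λ} (hv : 𝒬.Pt v) : Irreducible (mq (OL E).subtype 𝒬.χ) := by
  have hz : ∀ (y : Fin 𝒬.d → Λ) (η : Λ) (q : MP 𝒬.d (OL E)),
      ev2 (RingHom.id Λ) y η (mq (OL E).subtype q) = ev2 (OL E).subtype y η q :=
    fun y η q => ev2_mq _ _ y η q
  obtain ⟨w, hw, hw1, hw2⟩ : ∃ w, OnX J w ∧ lv (OL E).subtype 𝒬.s₀ w = 1 ∧
      𝒬.vl w (derivative 𝒬.χ) ≠ 0 := by
    by_contra hn
    have h1 := 𝒬.dvd (derivative 𝒬.χ) fun w hw hw1 => by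
      by_contra h
      exact hn ⟨w, hw, hw1, h⟩
    obtain ⟨n, hn'⟩ : ∃ n, 𝒬.χ.natDegree = n + 1 := Nat.exists_eq_succ_of_ne_zero fun h0 => by
      have h2 := 𝒬.on v hv.1.1 hv.2
      rw [eq_one_of_monic_natDegree_zero 𝒬.monicχ h0, map_one] at h2
      exact one_ne_zero h2
    refine 𝒬.monicχ.not_dvd_of_natDegree_lt (fun h0 => ?_)
      (natDegree_derivative_lt (hn' ▸ n.succ_ne_zero)) h1
    have h2 := coeff_derivative 𝒬.χ n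
    rw [h0, coeff_zero, ← hn', 𝒬.monicχ.coeff_natDegree, one_mul] at h2
    have h3 := congrArg (MvPolynomial.eval₂Hom (OL E).subtype (0 : Fin 𝒬.d → Λ)) h2
    rw [map_zero, map_add, map_natCast, map_one] at h3
    have : CharZero Λ := charZero_of_injective_algebraMap (algebraMap K Λ).injective
    exact Nat.cast_add_one_ne_zero n h3.symm
  have key : ∀ f : MP 𝒬.d Λ, ∃ F : MvPolynomial (Fin (N + 1)) Λ, ∀ v,
      (MvPolynomial.eval v F = 0 ↔ (lv (OL E).subtype 𝒬.s₀ v ≠ 0 → ev2 (RingHom.id Λ)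
        (fun k => lv (OL E).subtype (𝒬.s k) ((lv (OL E).subtype 𝒬.s₀ v)⁻¹ • v))
        (lv (OL E).subtype 𝒬.H ((lv (OL E).subtype 𝒬.s₀ v)⁻¹ • v)) f = 0)) := fun f => by
    obtain ⟨k, F, -, hF⟩ := exists_hom_mp (fun a => (OL E).subtype (𝒬.s₀ a))
      (fun a => (OL E).subtype (𝒬.H a)) (fun j a => (OL E).subtype (𝒬.s j a)) f
    refine ⟨(lp fun a => (OL E).subtype (𝒬.s₀ a)) * F, fun v => ?_⟩
    rw [map_mul, show MvPolynomial.eval v (lp fun a => (OL E).subtype (𝒬.s₀ a)) =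
      lv (OL E).subtype 𝒬.s₀ v from eval₂_lp (RingHom.id _) _ v]
    by_cases h0 : lv (OL E).subtype 𝒬.s₀ v = 0
    · exact ⟨fun _ h => absurd h0 h, fun _ => by rw [h0, zero_mul]⟩
    rw [show MvPolynomial.eval v F = _ from hF Λ (RingHom.id _) v h0]
    exact ⟨fun h _ => (mul_eq_zero.1 ((mul_eq_zero.1 h).resolve_left h0)).resolve_left
      (pow_ne_zero _ h0), fun h => mul_eq_zero_of_right _ (mul_eq_zero_of_right _ (h h0))⟩
  refine irreducible_of_zero_prime (𝒬.monicχ.map _) (fun f g H => ?_)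
    ((hz _ _ _).trans (𝒬.on w hw hw1)) ?_
  · obtain ⟨F, hF⟩ := key f
    obtain ⟨G, hG⟩ := key g
    have fin : ∀ {f : MP 𝒬.d Λ} {F : MvPolynomial (Fin (N + 1)) Λ}, (∀ v,
        (MvPolynomial.eval v F = 0 ↔ (lv (OL E).subtype 𝒬.s₀ v ≠ 0 → ev2 (RingHom.id Λ)
          (fun k => lv (OL E).subtype (𝒬.s k) ((lv (OL E).subtype 𝒬.s₀ v)⁻¹ • v))
          (lv (OL E).subtype 𝒬.H ((lv (OL E).subtype 𝒬.s₀ v)⁻¹ • v)) f = 0))) →
        (∀ v, OnX J v → MvPolynomial.eval v F = 0) → ∀ y η,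
          ev2 (RingHom.id Λ) y η (mq (OL E).subtype 𝒬.χ) = 0 → ev2 (RingHom.id Λ) y η f = 0 := by
      intro f F hF h y η h0
      obtain ⟨v, hv, h1, rfl, rfl⟩ := 𝒬.surj y η ((hz _ _ _).symm.trans h0)
      have := (hF v).1 (h v hv) (h1 ▸ one_ne_zero)
      rwa [h1, inv_one, one_smul] at this
    refine (hX.prime F G fun v hv => ?_).imp (fin hF) (fin hG)
    rw [map_mul, mul_eq_zero, hF, hG]
    by_cases h0 : lv (OL E).subtype 𝒬.s₀ v = 0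
    · exact Or.inl fun h => absurd h0 h
    have h1 := H _ _ ((hz _ _ _).trans (𝒬.on _ (hX.smul v _ hv)
      (by rw [lv_smul, inv_mul_cancel₀ h0])))
    rw [map_mul] at h1
    exact (mul_eq_zero.1 h1).imp (fun h _ => h) fun h _ => h
  · rw [show derivative (mq (OL E).subtype 𝒬.χ) = mq (OL E).subtype (derivative 𝒬.χ) from
      derivative_map _ _, hz]
    exact hw2

theorem exists_hyp (hX : RegX J π) (hL : Big π E L) (hE : Gr (rL E))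
    {V : Finset (Fin (N + 1) → Λ)} (hne : V.Nonempty) (hV : ∀ v ∈ V, PrimX J v) :
    ∃ (d : ℕ) (𝒬 : Hyp J E d), ∀ v ∈ V, 𝒬.At v := by
  have := OL_integrallyClosed E
  have : Nonempty V := hne.to_subtype
  have hZ := hX.cone E
  obtain ⟨P₀, h0, hT, hq, hd⟩ := hZ.exists_proj' hE (τ := V) (x := fun t a => rs (t.1 a))
    (fun t h => by
      obtain ⟨i, hi⟩ := exists_norm_eq_one (hV t.1 t.2).2
      exact rs_ne_zero.2 hi (congrFun h i))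
    (fun t => chyp_red (hV t.1 t.2)) fun t => hX.tan hL (hV t.1 t.2)
  obtain ⟨𝒬, rfl, hD⟩ := Proj.exists_pre' hZ hE (τ := V)
    (x := fun t => (lv (rL E) P₀.s₀ fun a => rs (t.1 a))⁻¹ • fun a => rs (t.1 a))
    (fun t => hZ.red_smul (chyp_red (hV t.1 t.2)) _) P₀
    (fun t => by rw [lv_smul, inv_mul_cancel₀ (h0 t)]) fun t => by
      rw [hZ.tanS_smul _ (inv_ne_zero (h0 t))]
      exact hT t
  have h1 : ∀ v ∈ V, ‖lv (OL E).subtype 𝒬.s₀ v‖ = 1 := fun v hv => rs_ne_zero.1 (by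
    rw [(rs_lv (norm_apply_le (hV v hv).2) _).2]
    exact h0 ⟨v, hv⟩)
  obtain ⟨q, hq1, hq2, hq3⟩ := hq 𝒬.H
  obtain ⟨v₀, hv₀⟩ := hne
  refine ⟨𝒬.d, ⟨𝒬.s₀, 𝒬.s, 𝒬.H, 𝒬.χ, 𝒬.D, 𝒬.pp, 𝒬.monicχ,
    hq2.of_dvd hq1 𝒬.monicχ (𝒬.dvd q hq3), 𝒬.on, 𝒬.pt, 𝒬.surj,
    fun v hv h hy a => norm_le_of_ev2 hy (𝒬.monic a) (𝒬.root v hv h a),
    𝒬.irr_generic hX (Pre.pt_smul hX.smul (hV v₀ hv₀) (h1 v₀ hv₀)), fun k hk => hd k (hk E)⟩,
    fun v hv => ⟨hV v hv, h1 v hv, ?_⟩⟩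
  have h2 := chyp_rs (norm_apply_le (hV v hv).2) (h1 v hv)
  have h3 := (rs_ev2' (fun k => (h2 (𝒬.s k)).1) (h2 𝒬.H).1 𝒬.D).2
  rw [funext fun k => (h2 (𝒬.s k)).2, (h2 𝒬.H).2] at h3
  exact rs_ne_zero.1 (h3.trans_ne (hD ⟨v, hv⟩))

end Pool.Agent.ZeroCyc
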