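import Pool.Agent.Lib.MP_796ce4_ag.ZQ.CDat
import Pool.Agent.Lib.MP_796ce4_ag.ZY.ChK

/-! Existence of charts. -/

namespace Pool.Agent.ZeroCyc

open Polynomial Module
open scoped Classical IntermediateField PowerSeries

set_option linter.unusedSectionVars false

section

variable {K Λ : Type} [Field K] [CharZero K] [NormedField Λ] [IsUltrametricDist Λ] [IsAlgClosed Λ]
  [Algebra K Λ] {N : ℕ} {J : Ideal (MvPolynomial (Fin (N + 1)) K)} {E : IntermediateField K Λ}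
  {d : ℕ} {π : Λ} {P : Fin (N + 1) → Λ} {V : Finset (Fin (N + 1) → Λ)}
  {W : (Fin (N + 1) → Λ) → Prop}

theorem cmain_le {a b : Λ} (ha : ‖a‖ ≤ 1) (h : ‖b - a‖ < 1) : ‖b‖ ≤ 1 := by
  have h1 := IsUltrametricDist.norm_add_le_max (b - a) a
  rw [sub_add_cancel] at h1
  exact h1.trans (max_le h.le ha)

theorem cmain_rs {y y' : Fin d → Λ} {h h' : Λ} (hy : ∀ i, ‖y i‖ ≤ 1) (hh : ‖h‖ ≤ 1)
    (h1 : ∀ i, ‖y' i - y i‖ < 1) (h2 : ‖h' - h‖ < 1) (q : MP d (OL E)) :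
    rs (ev2 (OL E).subtype y' h' q) = rs (ev2 (OL E).subtype y h q) := by
  have hy' := fun i => cmain_le (hy i) (h1 i)
  have hh' := cmain_le hh h2
  rw [(rs_ev2' hy' hh' q).2, (rs_ev2' hy hh q).2, (rs_eq_iff hh' hh).2 h2,
    funext fun i => (rs_eq_iff (hy' i) (hy i)).2 (h1 i)]

theorem cmain_pos (𝒟 : Dat J E d π P V W) : 0 < 𝒟.ϑ.natDegree := by
  refine Nat.pos_of_ne_zero fun h0 => ?_
  obtain ⟨n, hn⟩ := 𝒟.dvd₂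
  rw [𝒟.ϑ_monic.natDegree_eq_zero.1 h0, map_one, one_pow] at hn
  have h1 := natDegree_eq_zero_of_isUnit (isUnit_of_dvd_one hn)
  have h2 : (mq (rL E) 𝒟.χ).natDegree = 𝒟.χ.natDegree := 𝒟.monic.natDegree_map _
  have h3 := Hyp.pos (𝒬 := 𝒟.toHyp)
  omega

theorem cmain_pj {𝒬 : Hyp J E d} (hX : RegX J π) {v : Fin (N + 1) → Λ} (hv : 𝒬.At v) :
    pj v = pj (𝒬.pv (𝒬.cy v) (𝒬.ch v)) := by
  rw [(Hyp.coord hX hv.prim hv.one).2.2.2]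
  refine (pj_smul (mul_ne_zero (fun h => ?_) (inv_ne_zero fun h => ?_)) v).symm
  · have h1 := hv.hD
    rw [h, norm_zero] at h1
    exact zero_ne_one h1
  · have h1 := hv.one
    rw [h, norm_zero] at h1
    exact zero_ne_one h1

theorem cmain_form (𝒬 : Hyp J E d) (D₀ : MvPolynomial (Fin d) (OL E)) :
    ∃ (Ξ : MvPolynomial (Fin (N + 1)) (OL E)) (k : ℕ), Ξ.IsHomogeneous k ∧
      ∀ v : Fin (N + 1) → Λ, (∀ a, ‖v a‖ ≤ 1) →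
        (‖MvPolynomial.eval₂ (OL E).subtype v Ξ‖ = 1 ↔ ‖lv (OL E).subtype 𝒬.s₀ v‖ = 1 ∧
          ‖MvPolynomial.eval₂ (OL E).subtype (𝒬.cy v) D₀‖ = 1) := by
  obtain ⟨k, F, hF, hF'⟩ := exists_hom_mp 𝒬.s₀ 𝒬.H 𝒬.s (C D₀)
  have key : ∀ v : Fin (N + 1) → Λ, ‖lv (OL E).subtype 𝒬.s₀ v‖ = 1 →
      ‖MvPolynomial.eval₂ (OL E).subtype v F‖ =
        ‖MvPolynomial.eval₂ (OL E).subtype (𝒬.cy v) D₀‖ := by
    intro v h1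
    rw [hF' Λ _ v (fun h0 => by rw [h0, norm_zero] at h1; exact zero_ne_one h1), ev2_C, norm_mul,
      norm_pow, h1, one_pow, one_mul]
    rfl
  refine ⟨lp 𝒬.s₀ * F, _, (lp_isHomogeneous _).mul hF, fun v hv => ?_⟩
  rw [MvPolynomial.eval₂_mul, eval₂_lp]
  constructor
  · intro h
    obtain ⟨h1, h2⟩ := chk_norm (rs_lv hv _).1 (chk_mv hv F).1 h
    exact ⟨h1, (key v h1).symm.trans h2⟩
  · rintro ⟨h1, h2⟩
    rw [norm_mul, h1, key v h1, h2, mul_one]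

theorem Dat.exists_qchart (hX : RegX J π) (hU : UnrF π E) (hV : Test J V)
    (𝒟 : Dat J E d π P V W) : ∃ 𝒞 : QChart J E, (𝒞.π : Λ) = π ∧ 𝒞.Adapted P ∧
      (∀ y h, 𝒞.Gd y h → W (𝒞.pv y h)) ∧ ∃ Ξ', NZ J Ξ' ∧ 𝒞.Covers Ξ' := by
  obtain ⟨α₀, β₀, e₀⟩ := 𝒟.e₀
  let R : Chart (⊥ : Ideal (MvPolynomial (Fin (0 + 1)) K)) E :=
    { d := d
      δ := 𝒟.ϑ.natDegree
      b := 1
      χ := 𝒟.ϑ
      α₀ := α₀
      β₀ := β₀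
      α₁ := 0
      β₁ := C 𝒟.D₀
      pp := fun _ => 1
      D₀ := 𝒟.D₀
      i₀ := 0
      monic := 𝒟.ϑ_monic
      deg := rfl
      pos := cmain_pos 𝒟
      wt := 𝒟.ϑ_td.wt
      e₀ := e₀
      e₁ := by rw [zero_mul, zero_add, mul_one]
      on := fun G hG => by
        rw [Ideal.mem_bot.1 hG, map_zero]
        exact dvd_zero _
      ne := 𝒟.ne }
  let 𝒞 : QChart J E :=
    { red := R
      δ := 𝒟.χ.natDegree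
      χ := 𝒟.χ
      pp := 𝒟.pp
      π := 𝒟.ϖ
      c := 𝒟.c
      monic := 𝒟.monic
      deg := rfl
      wt := 𝒟.td.wt
      on := Hyp.dvd_aeval hX
      cone := hX.smul
      π_ne := 𝒟.ϖ_eq.trans_ne hX.ne
      π_lt := by rw [𝒟.ϖ_eq]; exact hX.lt
      π_max := by rw [𝒟.ϖ_eq]; exact hU
      dvd₁ := 𝒟.dvd₁
      dvd₂ := 𝒟.dvd₂
      eπ := 𝒟.eπ
      c_ne := 𝒟.c_ne
      ec := 𝒟.ec
      prim := fun y h hy h0 h1 => Hyp.norm_pv hy h0 (𝒟.unit y h hy h0 h1).1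
      ne0 := fun y h h0 h1 => Hyp.pv_ne h0 (𝒟.ne0 y h h0 h1)
      irr := 𝒟.irr }
  obtain ⟨Ξ, k, hk, hΞ⟩ := cmain_form 𝒟.toHyp 𝒟.D₀
  refine ⟨𝒞, 𝒟.ϖ_eq, ?_, fun y h hg => (𝒟.unit y h hg.y_le hg.on hg.unit).2, Ξ,
    ⟨⟨k, hk⟩, fun F m hF h1 v hv => ?_⟩, 𝒟.toHyp.cy, 𝒟.toHyp.ch, fun v hv h1 => ?_⟩
  · obtain ⟨h1, h2, h3, -⟩ := Hyp.coord hX 𝒟.atP.prim 𝒟.atP.one
    refine ⟨𝒟.toHyp.cy P, 𝒟.toHyp.ch P, ⟨h1, h2, h3, 𝒟.der, Hyp.norm_pv h1 h3 𝒟.atP.hD,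
      fun L y₀ h₀ hL hU' hy₀ hh₀ h4 h5 h6 => ?_⟩, cmain_pj hX 𝒟.atP,
      fun L hL hv => Hyp.coord_mem hL hv⟩
    have hy' := fun i => cmain_le (h1 i) (h4 i)
    have hh' := cmain_le h2 h5
    have e : ((𝒞.π : OL E) : Λ) = π := 𝒟.ϖ_eq
    rw [e] at hU' ⊢
    refine Hyp.REG (𝒬 := 𝒟.toHyp) hX hL hU' (fun i => ⟨hy₀ i, hy' i⟩) ⟨hh₀, hh'⟩ ?_ ?_ h6
    · rw [← rs_eq_zero (rs_ev2' hy' hh' _).1, cmain_rs h1 h2 h4 h5, h3, rs_zero]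
    · rw [← rs_ne_zero, cmain_rs h1 h2 h4 h5, rs_ne_zero]
      exact 𝒟.atP.hD
  · exact Hyp.dense hX hV 𝒟.atV 𝒟.ne hF
      (fun w hw h2 h3 => h1 w hw ((hΞ w (norm_apply_le hw.2)).2 ⟨h2, h3⟩)) hv
  · have hle := norm_apply_le hv.2
    obtain ⟨h2, h3⟩ := (hΞ v hle).1 h1
    obtain ⟨h4, h5, h6, -⟩ := Hyp.coord hX hv h2
    exact ⟨⟨h4, h5, h6, h3⟩, cmain_pj hX ⟨hv, h2, (𝒟.unit _ _ h4 h6 h3).1⟩,
      fun L hL hm => Hyp.coord_mem hL hm, fun v' _ h' => Hyp.coord_congr hle h2 h'⟩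

end

variable {p : ℕ} {K Λ : Type} [Field K] [CharZero K] [NormedField Λ] [IsUltrametricDist Λ]
  [IsAlgClosed Λ] [Algebra K Λ] [IsGalois K Λ] [Loc p K Λ] [Fact p.Prime] [CharP (kk Λ) p]
variable {N : ℕ} {J : Ideal (MvPolynomial (Fin (N + 1)) K)} {B : IntermediateField K Λ} {π : Λ}

theorem exists_qchart (hX : RegX J π) (T : Tower p B) (hU : UnrF π B)
    {Ξ : MvPolynomial (Fin (N + 1)) (OL B)} (hΞ : NZ J Ξ) {P : Fin (N + 1) → Λ} (hP : PrimX J P)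
    {n l : ℕ} (hn : 0 < n) (hl : 2 ≤ l) : ∃ i, ∃ 𝒞 : QChart J (T.U (n * l ^ i)),
      (𝒞.π : Λ) = π ∧ 𝒞.Adapted P ∧
      (∀ y h, 𝒞.Gd y h → ‖MvPolynomial.eval₂ (OL B).subtype (𝒞.pv y h) Ξ‖ = 1) ∧
      ∃ Ξ', NZ J Ξ' ∧ 𝒞.Covers Ξ' := by
  obtain ⟨V, hV, hV'⟩ := exists_test hX.smul hΞ
  have hE := T.Ui_le hn hl
  have hL := T.big hE hU
  have hG := T.gr_Ui hn hl
  obtain ⟨d, 𝒬, h𝒬⟩ := exists_hyp hX hL hG (V := insert P V) (Finset.insert_nonempty _ _)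
    fun v hv => by
      rcases Finset.mem_insert.1 hv with rfl | hv
      · exact hP
      · exact (hV' v hv).1
  have h1 := h𝒬 P (Finset.mem_insert_self _ _)
  obtain ⟨𝒬', h2, h3, h4⟩ := 𝒬.exists_good hX hG (h1.grad hX T hE hU)
  obtain ⟨k, hk⟩ := hΞ.1
  obtain ⟨𝒟⟩ := 𝒬'.exists_dat hX hL hG (T.exists_frob hn hl _) h3 (h2 P h1) h4 hV
    (fun v hv => h2 v (h𝒬 v (Finset.mem_insert_of_mem hv)))
    ((T.le _).trans (T.le_Ui n l 0)) hk fun v hv => (hV' v hv).2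
  obtain ⟨i, ⟨𝒟'⟩⟩ := 𝒟.descend (T.le_Ui n l) (T.eventually_mem hn hl)
  exact ⟨i, 𝒟'.exists_qchart hX (T.unrF hU (Nat.mul_pos hn (pow_pos (by omega) _))) hV⟩

end Pool.Agent.ZeroCyc
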