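import Pool.Agent.Lib.MP_796ce4_ag.ZY.Base

/-! Chains of prime ideals and regular local rings. -/

namespace Pool.Agent.ZeroCyc

open scoped Classical TensorProduct

set_option linter.unusedSectionVars false

variable {O A : Type} [CommRing O] [CommRing A]

/-- a polynomial with coefficients outside the largest prime is not a relation -/
theorem eval_notMem_of_chain {k : ℕ} (P : Fin (k + 1) → Ideal A) (hp : ∀ j, (P j).IsPrime)
    (hm : Monotone P) {a : Fin k → A} (h1 : ∀ j, a j ∈ P j.succ) (h2 : ∀ j, a j ∉ P j.castSucc)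
    {F : MvPolynomial (Fin k) A} (hF : F ≠ 0)
    (hc : ∀ m ∈ F.support, F.coeff m ∉ P (Fin.last k)) : MvPolynomial.eval a F ∉ P 0 := by
  induction k with
  | zero =>
    rw [MvPolynomial.eq_C_of_isEmpty F, MvPolynomial.eval_C]
    refine hc 0 (MvPolynomial.mem_support_iff.2 fun e => hF ?_)
    rw [MvPolynomial.eq_C_of_isEmpty F, e, map_zero]
  | succ k ih =>
    obtain ⟨Q, h3, h4⟩ := Polynomial.exists_eq_pow_rootMultiplicity_mul_and_not_dvd
      (MvPolynomial.finSuccEquiv A k F) ((map_ne_zero_iff _ (AlgEquiv.injective _)).2 hF) 0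
    generalize Polynomial.rootMultiplicity 0 (MvPolynomial.finSuccEquiv A k F) = e at h3
    rw [map_zero, sub_zero] at h3 h4
    have h5 := ih (fun j => P j.succ) (fun j => hp _)
      (fun i j h => hm (Fin.succ_le_succ_iff.2 h)) (a := Fin.tail a) (fun j => h1 j.succ)
      (fun j => h2 j.succ) (F := Q.coeff 0) (fun e => h4 (Polynomial.X_dvd_iff.2 e))
      fun m hm => by
        have h6 : (Q.coeff 0).coeff m = F.coeff (m.cons e) := by
          rw [← MvPolynomial.finSuccEquiv_coeff_coeff, h3, ← Polynomial.coeff_X_pow_mul Q e 0,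
            zero_add]
        rw [h6]
        exact hc _ (MvPolynomial.mem_support_iff.2 (h6 ▸ MvPolynomial.mem_support_iff.1 hm))
    intro h
    rw [← Fin.cons_self_tail a, MvPolynomial.eval_eq_eval_mv_eval', h3, Polynomial.map_mul,
      Polynomial.eval_mul, Polynomial.map_pow, Polynomial.map_X, Polynomial.eval_pow,
      Polynomial.eval_X] at h
    have h6 := hm (Fin.zero_le (Fin.succ 0))
      (((hp 0).mem_or_mem h).resolve_left fun h7 => h2 0 ((hp 0).mem_of_pow_mem _ h7))
    rw [← Q.divX_mul_X_add, Polynomial.map_add, Polynomial.map_mul, Polynomial.map_X,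
      Polynomial.map_C, Polynomial.eval_add, Polynomial.eval_mul, Polynomial.eval_X,
      Polynomial.eval_C] at h6
    exact h5 (((P _).add_mem_iff_right (Ideal.mul_mem_left _ _ (h1 0))).1 h6)

/-- a chain of primes gives algebraically independent elements over a discrete valuation ring -/
theorem exists_indep_of_chain [Algebra O A] {π : O}
    (hO : ∀ c : O, c ≠ 0 → ∃ (u : O) (e : ℕ), IsUnit u ∧ c = u * π ^ e) {k : ℕ}
    (P : Fin (k + 1) → Ideal A) (hp : ∀ j, (P j).IsPrime) (hs : StrictMono P)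
    (h0 : algebraMap O A π ∉ P 0) (h1 : algebraMap O A π ∈ P (Fin.last k)) :
    ∃ k', k = k' + 1 ∧ ∃ e : Fin k' → A, ∀ F : MvPolynomial (Fin k') O,
      MvPolynomial.aeval e F ∈ P 0 → F = 0 := by
  obtain ⟨j₀, j1, j2⟩ : ∃ j : Fin k, algebraMap O A π ∈ P j.succ ∧
      algebraMap O A π ∉ P j.castSucc := by
    by_contra h
    push Not at h
    exact h0 (Fin.reverseInduction (motive := fun j => algebraMap O A π ∈ P j) h1 h 0)
  obtain ⟨k', rfl⟩ := Nat.exists_eq_succ_of_ne_zero j₀.pos.ne'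
  choose a a1 a2 using fun j : Fin (k' + 1) => SetLike.exists_of_lt (hs j.castSucc_lt_succ)
  refine ⟨k', rfl, fun l => a (j₀.succAbove l), fun F hF => ?_⟩
  by_contra hF0
  choose! u e hu he using fun m (hm : m ∈ F.support) => hO _ (MvPolynomial.mem_support_iff.1 hm)
  let μ : (Fin k' →₀ ℕ) → Fin (k' + 1) →₀ ℕ := fun m =>
    Finsupp.single j₀ (e m) + m.mapDomain j₀.succAbove
  have hμ : Function.Injective μ := fun m m' h => Finsupp.ext fun l => by
    simpa [μ, Finsupp.mapDomain_apply Fin.succAbove_right_injective] using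
      DFunLike.congr_fun h (j₀.succAbove l)
  have hc : ∀ m ∈ F.support, (∑ m ∈ F.support, MvPolynomial.monomial (μ m)
      (algebraMap O A (u m))).coeff (μ m) = algebraMap O A (u m) := fun m hm => by
    rw [MvPolynomial.coeff_sum, Finset.sum_eq_single_of_mem m hm fun m' _ h => by
      rw [MvPolynomial.coeff_monomial, if_neg fun e => h (hμ e)], MvPolynomial.coeff_monomial,
      if_pos rfl]
  have hn : ∀ m ∈ F.support, algebraMap O A (u m) ∉ P (Fin.last _) := fun m hm h =>
    (hp _).ne_top (Ideal.eq_top_of_isUnit_mem _ h ((hu m hm).map _))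
  refine eval_notMem_of_chain P hp hs.monotone (a := Function.update a j₀ (algebraMap O A π))
    (fun j => ?_) (fun j => ?_)
    (F := ∑ m ∈ F.support, MvPolynomial.monomial (μ m) (algebraMap O A (u m))) (fun h => ?_)
    (fun ν hν => ?_) ?_
  · by_cases h : j = j₀
    · rwa [h, Function.update_self]
    · rw [Function.update_of_ne h]
      exact a1 j
  · by_cases h : j = j₀
    · rwa [h, Function.update_self]
    · rw [Function.update_of_ne h]
      exact a2 j
  · obtain ⟨m, hm⟩ := MvPolynomial.support_nonempty.2 hF0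
    refine hn m hm ?_
    rw [← hc m hm, h]
    exact zero_mem _
  · obtain ⟨m, hm, h⟩ := Finset.mem_biUnion.1 (MvPolynomial.support_sum hν)
    rw [Finset.mem_singleton.1 (MvPolynomial.support_monomial_subset h), hc m hm]
    exact hn m hm
  · convert hF using 1
    rw [map_sum, MvPolynomial.aeval_def, MvPolynomial.eval₂_eq']
    refine Finset.sum_congr rfl fun m hm => ?_
    rw [MvPolynomial.eval_monomial, Finsupp.prod_fintype _ _ fun _ => pow_zero _,
      Fin.prod_univ_succAbove _ j₀, he m hm, map_mul, map_pow, mul_assoc]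
    simp [μ, Finsupp.mapDomain_apply Fin.succAbove_right_injective,
      Finsupp.mapDomain_of_notMem_range]

/-- generators and a chain of the same length -/
theorem exists_gen_chain (𝔪 : Ideal A) [𝔪.IsPrime]
    [IsRegularLocalRing (Localization.AtPrime 𝔪)] : ∃ (k : ℕ) (g : Fin k → A)
      (P : Fin (k + 1) → Ideal A), (∀ j, g j ∈ 𝔪) ∧
      (∀ a ∈ 𝔪, ∃ s, s ∉ 𝔪 ∧ s * a ∈ Ideal.span (Set.range g)) ∧ (∀ j, (P j).IsPrime) ∧
      StrictMono P ∧ P (Fin.last k) = 𝔪 ∧ ∀ a ∈ P 0, a ∉ nonZeroDivisors A := by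
  have h1 := IsRegularLocalRing.spanFinrank_maximalIdeal (R := Localization.AtPrime 𝔪)
  rw [IsLocalization.AtPrime.ringKrullDim_eq_height 𝔪] at h1
  have h2 : Order.height (⟨𝔪, inferInstance⟩ : PrimeSpectrum A) =
      (IsLocalRing.maximalIdeal (Localization.AtPrime 𝔪)).spanFinrank := by
    rw [← PrimeSpectrum.height_eq_orderHeight]
    exact_mod_cast h1.symm
  obtain ⟨l, l1, l2⟩ := Order.exists_series_of_height_eq_coe _ h2
  obtain ⟨s, s1, s2⟩ := Submodule.FG.exists_span_finset_card_eq_spanFinrank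
    (IsNoetherian.noetherian (IsLocalRing.maximalIdeal (Localization.AtPrime 𝔪)))
  let ε : Fin l.length ≃ s := (s.equivFinOfCardEq (s1.trans l2.symm)).symm
  choose g t hg using fun j => IsLocalization.exists_mk'_eq 𝔪.primeCompl (ε j).1
  refine ⟨l.length, g, fun j => (l j).asIdeal, fun j => ?_, fun a ha => ?_, fun j => (l j).2,
    fun i j h => l.strictMono h, congrArg PrimeSpectrum.asIdeal l1, fun a ha => ?_⟩
  · rw [← IsLocalization.AtPrime.mk'_mem_maximal_iff (Localization.AtPrime 𝔪) 𝔪 (g j) (t j), hg,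
      ← s2]
    exact Submodule.subset_span (ε j).2
  · refine (IsLocalization.algebraMap_mem_map_algebraMap_iff 𝔪.primeCompl
      (Localization.AtPrime 𝔪) _ a).1 ?_
    have h3 := (IsLocalization.AtPrime.to_map_mem_maximal_iff (Localization.AtPrime 𝔪) 𝔪 a).2 ha
    rw [← s2] at h3
    refine Submodule.span_le.2 (fun z hz => ?_) h3
    obtain ⟨j, hj⟩ := ε.surjective ⟨z, hz⟩
    rw [show z = (ε j).1 from (congrArg Subtype.val hj).symm, ← hg,
      IsLocalization.mk'_eq_mul_mk'_one]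
    exact Ideal.mul_mem_right _ _ (Ideal.mem_map_of_mem _ (Ideal.subset_span ⟨j, rfl⟩))
  · refine notMem_nonZeroDivisors_of_mem_mem_minimalPrimes ha (Ideal.height_eq_zero_iff.1 ?_)
    rw [PrimeSpectrum.height_eq_orderHeight,
      Order.height_eq_index_of_length_eq_height_last (by rw [l1, h2, l2])]
    rfl

theorem cmoda_kill {κ : Type} [Field κ] [IsAlgClosed κ] [Algebra O A] [Module.Finite O A]
    [Algebra O κ] (ψ₀ : A →ₐ[O] κ) (huniq : ∀ ψ : A →ₐ[O] κ, ψ = ψ₀)
    (hder : ∀ D : A →+ κ, (∀ a b, D (a * b) = ψ₀ a * D b + ψ₀ b * D a) →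
      (∀ c, D (algebraMap O A c) = 0) → D = 0) (f : A →ₗ[O] κ) (h1 : f 1 = 0) : f = 0 := by
  let Ψ : κ ⊗[O] A →ₐ[κ] κ := Algebra.TensorProduct.lift (AlgHom.id κ κ) ψ₀ fun _ _ => .all _ _
  have hΨ : ∀ a, Ψ (1 ⊗ₜ a) = ψ₀ a := fun a => by simp [Ψ]
  have hm : ∀ z, z - algebraMap κ _ (Ψ z) ∈ RingHom.ker Ψ := fun z => by
    rw [RingHom.mem_ker, map_sub, AlgHom.commutes, Algebra.algebraMap_self_apply, sub_self]
  have key : ∀ φ : κ ⊗[O] A →ₗ[κ] κ, φ 1 = 0 → (∀ z ∈ RingHom.ker Ψ * RingHom.ker Ψ, φ z = 0) →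
      φ = 0 := fun φ h1 h2 => by
    have h3 := hder ((φ : κ ⊗[O] A →+ κ).comp
      (TensorProduct.mk O κ A 1).toAddMonoidHom) (fun a b => by
        have h3 := h2 _ (Ideal.mul_mem_mul (hm (1 ⊗ₜ a)) (hm (1 ⊗ₜ b)))
        rw [sub_mul, mul_sub, mul_sub, mul_comm (1 ⊗ₜ a) (algebraMap _ _ _), ← map_mul,
          ← Algebra.smul_def, ← Algebra.smul_def, Algebra.algebraMap_eq_smul_one, map_sub, map_sub,
          map_sub, map_smul, map_smul, map_smul, h1, hΨ, hΨ,
          Algebra.TensorProduct.tmul_mul_tmul, one_mul, smul_zero, smul_eq_mul, smul_eq_mul] at h3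
        change φ (1 ⊗ₜ (a * b)) = ψ₀ a * φ (1 ⊗ₜ b) + ψ₀ b * φ (1 ⊗ₜ a)
        linear_combination h3) fun c => by
        change φ (1 ⊗ₜ algebraMap O A c) = 0
        rw [Algebra.algebraMap_eq_smul_one, TensorProduct.tmul_smul, LinearMap.map_smul_of_tower,
          ← Algebra.TensorProduct.one_def, h1, smul_zero]
    ext a
    exact DFunLike.congr_fun h3 a
  have h2 : RingHom.ker Ψ ≤ RingHom.ker Ψ * RingHom.ker Ψ := fun z hz => by
    by_contra hn
    obtain ⟨φ, h3, h4⟩ := ((RingHom.ker Ψ * RingHom.ker Ψ).restrictScalars κ).exists_le_ker_of_notMem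
      (v := z) hn
    have h5 := key (φ - φ 1 • Ψ.toLinearMap) (by simp) fun w hw => by
      rw [LinearMap.sub_apply, h4 hw, LinearMap.smul_apply, AlgHom.toLinearMap_apply,
        RingHom.mem_ker.1 (Ideal.mul_le_left hw), smul_zero, sub_zero]
    have h6 := LinearMap.congr_fun h5 z
    rw [LinearMap.sub_apply, LinearMap.smul_apply, AlgHom.toLinearMap_apply, RingHom.mem_ker.1 hz,
      smul_zero, sub_zero] at h6
    exact h3 h6
  have : IsNoetherianRing (κ ⊗[O] A) := Algebra.FiniteType.isNoetherianRing κ _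
  obtain ⟨r, h3, h4⟩ := Submodule.exists_sub_one_mem_and_smul_eq_zero_of_fg_of_le_smul
    (RingHom.ker Ψ) (RingHom.ker Ψ) (IsNoetherian.noetherian _) h2
  have h5 : IsUnit r := by
    by_contra hn
    obtain ⟨𝔪, h𝔪, h5⟩ := exists_max_ideal_of_mem_nonunits hn
    let _ := Ideal.Quotient.field 𝔪
    let ε := (AlgEquiv.ofBijective (Algebra.ofId κ (κ ⊗[O] A ⧸ 𝔪))
      IsAlgClosed.algebraMap_bijective_of_isIntegral).symm
    let Ψ' := ε.toAlgHom.comp (Ideal.Quotient.mkₐ κ 𝔪)
    have h6 : Ψ' = Ψ := Algebra.TensorProduct.ext (Subsingleton.elim _ _)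
      ((huniq _).trans (huniq _).symm)
    have h7 : Ψ' r = 0 := by simp [Ψ', Ideal.Quotient.eq_zero_iff_mem.2 h5]
    rw [RingHom.mem_ker, map_sub, ← h6, h7, map_one, zero_sub, neg_eq_zero] at h3
    exact one_ne_zero h3
  have h6 := key (f.liftBaseChange κ) (by simp [Algebra.TensorProduct.one_def, h1]) fun z hz => by
    rw [h5.mul_right_eq_zero.1 (h4 z (Ideal.mul_le_left hz)), map_zero]
  ext a
  simpa using LinearMap.congr_fun h6 (1 ⊗ₜ a)

/-- the conductor at a point that is alone and unramified in its fibre -/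
theorem exists_conductor' {κ : Type} [Field κ] [IsAlgClosed κ] [Algebra O A] [Module.Finite O A]
    (ψ₀ : A →+* κ)
    (huniq : ∀ ψ : A →+* κ, ψ.comp (algebraMap O A) = ψ₀.comp (algebraMap O A) → ψ = ψ₀)
    (hder : ∀ D : A →+ κ, (∀ a b, D (a * b) = ψ₀ a * D b + ψ₀ b * D a) →
      (∀ c, D (algebraMap O A c) = 0) → D = 0) :
    ∃ D : O, ψ₀ (algebraMap O A D) ≠ 0 ∧
      ∀ a : A, ∃ q : O, algebraMap O A q = algebraMap O A D * a := by
  let _ : Algebra O κ := (ψ₀.comp (algebraMap O A)).toAlgebra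
  have key := cmoda_kill (⟨ψ₀, fun _ => rfl⟩ : A →ₐ[O] κ)
    (fun ψ => AlgHom.coe_ringHom_injective (huniq _ ψ.comp_algebraMap)) hder
  let 𝔭 : PrimeSpectrum O := ⟨RingHom.ker (algebraMap O κ), RingHom.ker_isPrime _⟩
  have := 𝔭.2
  have h1 : 𝔭 ∉ Module.support O (A ⧸ LinearMap.range (Algebra.linearMap O A)) := by
    rw [Module.mem_support_iff_nontrivial_residueField_tensorProduct,
      not_nontrivial_iff_subsingleton]
    refine subsingleton_of_forall_eq 0 fun z => ?_
    refine (Module.forall_dual_apply_eq_zero_iff 𝔭.asIdeal.ResidueField z).1 fun φ => ?_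
    let i := Ideal.ResidueField.liftₐ 𝔭.asIdeal (Algebra.ofId O κ) le_rfl
      fun c hc => (isUnit_iff_ne_zero.2 hc :)
    have h1 := key (i.toLinearMap ∘ₗ φ.restrictScalars O ∘ₗ TensorProduct.mk O _ _ 1 ∘ₗ
      Submodule.mkQ _) (by
        have : (LinearMap.range (Algebra.linearMap O A)).mkQ 1 = 0 :=
          (Submodule.Quotient.mk_eq_zero _).2 ⟨1, map_one (algebraMap O A)⟩
        simp only [LinearMap.comp_apply, this, map_zero])
    have h2 : φ = 0 := by
      ext a
      exact (map_eq_zero i).1 (LinearMap.congr_fun h1 a)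
    rw [h2, LinearMap.zero_apply]
  rw [Module.mem_support_iff_of_finite] at h1
  obtain ⟨D, h2, h3⟩ := SetLike.not_le_iff_exists.1 h1
  refine ⟨D, h3, fun a => ?_⟩
  have h4 := Module.mem_annihilator.1 h2 (Submodule.Quotient.mk a)
  rw [← Submodule.Quotient.mk_smul, Submodule.Quotient.mk_eq_zero, Algebra.smul_def] at h4
  exact h4

theorem exists_conductor_fin {κ τ : Type} [Field κ] [Finite τ] [Algebra O A] (ψ : τ → A →+* κ)
    (h : ∀ t, ∃ D : O, ψ t (algebraMap O A D) ≠ 0 ∧
      ∀ a : A, ∃ q : O, algebraMap O A q = algebraMap O A D * a) [Nonempty τ] :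
    ∃ D : O, (∀ t, ψ t (algebraMap O A D) ≠ 0) ∧
      ∀ a : A, ∃ q : O, algebraMap O A q = algebraMap O A D * a := by
  let I : Ideal O := (LinearMap.range (Algebra.linearMap O A)).colon Set.univ
  have hI : ∀ D, D ∈ I ↔ ∀ a : A, ∃ q : O, algebraMap O A q = algebraMap O A D * a := fun D => by
    simp [I, Submodule.mem_colon, Algebra.smul_def]
  obtain ⟨t₀⟩ := ‹Nonempty τ›
  by_contra hn
  push Not at hn
  obtain ⟨t, -, ht⟩ := (Ideal.subset_union_prime_finite Set.finite_univ
    (f := fun t => RingHom.ker ((ψ t).comp (algebraMap O A))) t₀ t₀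
    (fun t _ _ _ => RingHom.ker_isPrime _) (I := I)).1 fun D hD => by
      by_contra h1
      obtain ⟨a, ha⟩ := hn D fun t e => h1 (Set.mem_biUnion (Set.mem_univ t) e)
      obtain ⟨q, hq⟩ := (hI D).1 hD a
      exact ha q hq
  obtain ⟨D, h1, h2⟩ := h t
  exact h1 (ht ((hI D).2 h2))

end Pool.Agent.ZeroCyc
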