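import Pool.Agent.Lib.MP_796ce4_ag.ZY.Defs

/-! Regular models. -/

namespace Pool.Agent.ZeroCyc

/-- `I` is a homogeneous ideal that defines a regular, flat, projective scheme over `O` with
geometrically irreducible generic fibre. -/
structure RegModel {N : ℕ} (O : Type) [CommRing O] (I : Ideal (MvPolynomial (Fin (N + 1)) O)) :
    Prop where
  hom : ∀ G ∈ I, ∀ n, MvPolynomial.homogeneousComponent n G ∈ I
  reg : ∀ i, IsRegularRing
    (MvPolynomial (Fin (N + 1)) O ⧸ (I ⊔ Ideal.span {MvPolynomial.X i - 1}))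
  flat : ∀ i, Module.Flat O
    (MvPolynomial (Fin (N + 1)) O ⧸ (I ⊔ Ideal.span {MvPolynomial.X i - 1}))
  irred : ∀ (κ : Type) [Field κ] [IsAlgClosed κ] [Algebra O κ],
    Function.Injective (algebraMap O κ) →
      (I.map (MvPolynomial.map (algebraMap O κ))).radical.IsPrime

end Pool.Agent.ZeroCyc
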