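import Pool.Agent.Lib.MP_796ce4_ag.ZQ.CReg
import Pool.Agent.Lib.MP_796ce4_ag.ZQ.QDefs

/-! Models over the ring of integers: the dimension. -/

namespace Pool.Agent.ZeroCyc

open Polynomial Module
open scoped Classical IntermediateField PowerSeries

set_option linter.unusedSectionVars false

variable {p : ℕ} {K Λ : Type} [Field K] [CharZero K] [NormedField Λ] [IsUltrametricDist Λ]
  [IsAlgClosed Λ] [Algebra K Λ] [IsGalois K Λ] [Loc p K Λ] [Fact p.Prime] [CharP (kk Λ) p]
variable {N : ℕ} {O : Type} [CommRing O] [Algebra O K] {I : Ideal (MvPolynomial (Fin (N + 1)) O)}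
  {J : Ideal (MvPolynomial (Fin (N + 1)) K)} {π : O}

variable (Λ) in
/-- `O` is the ring of integers of `K` with uniformiser `π` -/
structure Ints (K : Type) [Field K] [Algebra K Λ] [Algebra O K] (π : O) : Prop where
  le : ∀ c : O, ‖algebraMap K Λ (algebraMap O K c)‖ ≤ 1
  inj : Function.Injective (algebraMap O K)
  surj : ∀ x : K, ‖algebraMap K Λ x‖ ≤ 1 → x ∈ (algebraMap O K).range
  ne : π ≠ 0
  lt : ‖algebraMap K Λ (algebraMap O K π)‖ < 1
  unr : UnrF (algebraMap K Λ (algebraMap O K π)) (⊥ : IntermediateField K Λ)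

theorem Ints.cmodb_ne (h : Ints Λ K π) {c : O} (hc : c ≠ 0) : algebraMap O K c ≠ 0 :=
  fun e => hc (h.inj (e.trans (map_zero _).symm))

theorem Ints.exists_pow (h : Ints Λ K π) {c : O} (hc : c ≠ 0) :
    ∃ (u : O) (e : ℕ), IsUnit u ∧ c = u * π ^ e := by
  have hπ := h.cmodb_ne h.ne
  have hc' := h.cmodb_ne hc
  have hp : 0 < ‖algebraMap K Λ (algebraMap O K π)‖ :=
    norm_pos_iff.2 ((_root_.map_ne_zero _).2 hπ)
  obtain ⟨e, h1, h2⟩ := exists_nat_pow_near_of_lt_one
    (norm_pos_iff.2 ((_root_.map_ne_zero (algebraMap K Λ)).2 hc')) (h.le c) hp h.lt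
  have hx : ‖algebraMap K Λ (algebraMap O K c / algebraMap O K π ^ e)‖ =
      ‖algebraMap K Λ (algebraMap O K c)‖ / ‖algebraMap K Λ (algebraMap O K π)‖ ^ e := by
    rw [map_div₀, map_pow, norm_div, norm_pow]
  have h3 : ‖algebraMap K Λ (algebraMap O K c / algebraMap O K π ^ e)‖ = 1 := by
    refine le_antisymm (hx.trans_le ((div_le_one (pow_pos hp e)).2 h2)) (not_lt.1 fun hlt => ?_)
    have h4 := h.unr _ (IntermediateField.algebraMap_mem ⊥ _) hlt
    rw [hx, div_le_iff₀ (pow_pos hp e), ← pow_succ'] at h4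
    exact absurd h4 (not_le.2 h1)
  obtain ⟨u, hu⟩ := h.surj _ h3.le
  obtain ⟨u', hu'⟩ := h.surj (algebraMap O K c / algebraMap O K π ^ e)⁻¹
    (by rw [map_inv₀, norm_inv, h3, inv_one])
  refine ⟨u, e, IsUnit.of_mul_eq_one u' (h.inj ?_), h.inj ?_⟩
  · rw [map_mul, hu, hu', map_one, mul_inv_cancel₀ (div_ne_zero hc' (pow_ne_zero _ hπ))]
  · rw [map_mul, hu, map_pow, div_mul_cancel₀ _ (pow_ne_zero _ hπ)]
theorem Ints.exists_den (h : Ints Λ K π) (x : K) :
    ∃ (e : ℕ) (c : O), algebraMap O K c = algebraMap O K π ^ e * x := by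
  by_cases hx : x = 0
  · exact ⟨0, 0, by rw [hx, map_zero, mul_zero]⟩
  have hp : 0 < ‖algebraMap K Λ x‖ := norm_pos_iff.2 ((_root_.map_ne_zero _).2 hx)
  obtain ⟨e, he⟩ := exists_pow_lt_of_lt_one (inv_pos.2 hp) h.lt
  obtain ⟨c, hc⟩ := h.surj (algebraMap O K π ^ e * x) (by
    rw [map_mul, map_pow, norm_mul, norm_pow, ← le_div_iff₀ hp, one_div]
    exact he.le)
  exact ⟨e, c, hc⟩
include p in
theorem exists_ints (le : ∀ c : O, ‖algebraMap K Λ (algebraMap O K c)‖ ≤ 1)
    (inj : Function.Injective (algebraMap O K))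
    (surj : ∀ x : K, ‖algebraMap K Λ x‖ ≤ 1 → x ∈ (algebraMap O K).range) :
    ∃ π : O, Ints Λ K π := by
  obtain ⟨ϖ, h1, h2, h3, h4⟩ := Loc.unif (p := p) (⊥ : IntermediateField K Λ) inferInstance
  obtain ⟨x, rfl⟩ := IntermediateField.mem_bot.1 h1
  obtain ⟨π, rfl⟩ := surj x h3.le
  exact ⟨π, le, inj, surj, fun e => h2 (by rw [e, map_zero, map_zero]), h3, h4⟩

/-- independence over `K` on a Galois-stable set implies independence over `Λ` -/
theorem indep_ext {k : ℕ} {W : Set (Fin k → Λ)} (hW : ∀ (σ : Λ ≃ₐ[K] Λ), ∀ w ∈ W, σ ∘ w ∈ W)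
    (h : ∀ F : MvPolynomial (Fin k) K, (∀ w ∈ W, MvPolynomial.aeval w F = 0) → F = 0)
    (F : MvPolynomial (Fin k) Λ) (hF : ∀ w ∈ W, MvPolynomial.eval w F = 0) : F = 0 := by
  induction hn : F.support.card using Nat.strong_induction_on generalizing F with
  | _ n ih =>
  by_contra h0
  obtain ⟨m, hm⟩ := MvPolynomial.ne_zero_iff.1 h0
  set G := MvPolynomial.C (F.coeff m)⁻¹ * F with hG
  have hGc : ∀ m', G.coeff m' = (F.coeff m)⁻¹ * F.coeff m' := fun m' => MvPolynomial.coeff_C_mul _ _ _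
  have hG1 : G.coeff m = 1 := by rw [hGc, inv_mul_cancel₀ hm]
  have hGW : ∀ w ∈ W, MvPolynomial.eval w G = 0 := fun w hw => by
    rw [hG, map_mul, hF w hw, mul_zero]
  have hfix : ∀ σ : Λ ≃ₐ[K] Λ, MvPolynomial.map (σ : Λ →+* Λ) G - G = 0 := fun σ => by
    refine ih _ ?_ _ (fun w hw => ?_) rfl
    · rw [← hn]
      refine Finset.card_lt_card ⟨fun m' hm' => ?_, fun hs => ?_⟩
      · rw [MvPolynomial.mem_support_iff] at hm' ⊢
        intro e
        apply hm'
        rw [MvPolynomial.coeff_sub, MvPolynomial.coeff_map, hGc, e, mul_zero, map_zero, sub_zero]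
      · refine MvPolynomial.mem_support_iff.1 (hs (MvPolynomial.mem_support_iff.2 hm)) ?_
        rw [MvPolynomial.coeff_sub, MvPolynomial.coeff_map, hG1, map_one, sub_self]
    · have e := MvPolynomial.map_eval (σ : Λ →+* Λ) (σ.symm ∘ w) G
      rw [hGW _ (hW _ w hw), map_zero] at e
      have e' : (σ : Λ →+* Λ) ∘ σ.symm ∘ w = w := funext fun a => σ.apply_symm_apply _
      rw [map_sub, hGW w hw, sub_zero, ← e', ← e]
  obtain ⟨G', hG'⟩ : G ∈ Set.range (MvPolynomial.map (algebraMap K Λ)) := by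
    refine MvPolynomial.mem_range_map_iff_coeffs_subset.2 fun c hc => ?_
    obtain ⟨m', -, rfl⟩ := MvPolynomial.mem_coeffs_iff.1 hc
    refine IntermediateField.mem_bot.1 (mem_of_fixed fun σ _ => ?_)
    have e := congrArg (MvPolynomial.coeff m') (sub_eq_zero.1 (hfix σ))
    rwa [MvPolynomial.coeff_map] at e
  have h1 := h G' fun w hw => by
    rw [MvPolynomial.aeval_def, ← MvPolynomial.eval_map, hG', hGW w hw]
  rw [← hG', h1, map_zero, MvPolynomial.coeff_zero] at hG1
  exact zero_ne_one hG1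

theorem Ints.cmodb_den (h : Ints Λ K π) {σ : Type} (A : MvPolynomial σ K) :
    ∃ (e : ℕ) (A₀ : MvPolynomial σ O), MvPolynomial.map (algebraMap O K) A₀ =
      MvPolynomial.C (algebraMap O K π) ^ e * A := by
  induction A using MvPolynomial.induction_on with
  | C a =>
    obtain ⟨e, c, hc⟩ := h.exists_den a
    exact ⟨e, MvPolynomial.C c, by rw [MvPolynomial.map_C, hc, map_mul, map_pow]⟩
  | add A B hA hB =>
    obtain ⟨e, A₀, hA⟩ := hA
    obtain ⟨e', B₀, hB⟩ := hB
    refine ⟨e + e', MvPolynomial.C π ^ e' * A₀ + MvPolynomial.C π ^ e * B₀, ?_⟩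
    simp only [map_add, map_mul, map_pow, MvPolynomial.map_C, hA, hB]
    ring
  | mul_X A a hA =>
    obtain ⟨e, A₀, hA⟩ := hA
    exact ⟨e, A₀ * MvPolynomial.X a, by rw [map_mul, hA, MvPolynomial.map_X, mul_assoc]⟩

theorem Ints.cmodb_map (h : Ints Λ K π) {σ : Type} {I' : Ideal (MvPolynomial σ O)}
    {H : MvPolynomial σ K} (hH : H ∈ I'.map (MvPolynomial.map (algebraMap O K))) :
    ∃ (e : ℕ), ∃ H₀ ∈ I', MvPolynomial.map (algebraMap O K) H₀ =
      MvPolynomial.C (algebraMap O K π) ^ e * H := by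
  induction hH using Submodule.span_induction with
  | mem x hx =>
    obtain ⟨y, hy, rfl⟩ := hx
    exact ⟨0, y, hy, by rw [pow_zero, one_mul]⟩
  | zero => exact ⟨0, 0, I'.zero_mem, by rw [map_zero, mul_zero]⟩
  | add A B _ _ hA hB =>
    obtain ⟨e, A₀, h1, hA⟩ := hA
    obtain ⟨e', B₀, h2, hB⟩ := hB
    refine ⟨e + e', MvPolynomial.C π ^ e' * A₀ + MvPolynomial.C π ^ e * B₀,
      I'.add_mem (I'.mul_mem_left _ h1) (I'.mul_mem_left _ h2), ?_⟩
    simp only [map_add, map_mul, map_pow, MvPolynomial.map_C, hA, hB]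
    ring
  | smul A B _ hB =>
    obtain ⟨e, A₀, hA⟩ := h.cmodb_den A
    obtain ⟨e', B₀, h2, hB⟩ := hB
    refine ⟨e + e', A₀ * B₀, I'.mul_mem_left _ h2, ?_⟩
    rw [map_mul, hA, hB, smul_eq_mul]
    ring

theorem cmodb_aeval {R T σ τ : Type} [CommRing R] [CommRing T] (φ : R →+* T) (v : τ → T)
    (e : σ → MvPolynomial τ R) (F : MvPolynomial σ R) :
    MvPolynomial.eval₂ φ v (MvPolynomial.aeval e F) =
      MvPolynomial.eval₂ φ (fun j => MvPolynomial.eval₂ φ v (e j)) F := by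
  have := MvPolynomial.map_aeval e (MvPolynomial.eval₂Hom φ v) F
  simpa using this

/-- independence modulo a prime of the generic fibre in terms of points -/
theorem Ints.indep_pts (h : Ints Λ K π) (hJ : J = I.map (MvPolynomial.map (algebraMap O K)))
    {i : Fin (N + 1)} {𝔭 : Ideal (MvPolynomial (Fin (N + 1)) O)} (hp : 𝔭.IsPrime)
    (hI : I ⊔ Ideal.span {MvPolynomial.X i - 1} ≤ 𝔭) (hπ : MvPolynomial.C π ∉ 𝔭) {k : ℕ}
    {e : Fin k → MvPolynomial (Fin (N + 1)) O}
    (he : ∀ F : MvPolynomial (Fin k) O, MvPolynomial.aeval e F ∈ 𝔭 → F = 0)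
    (F : MvPolynomial (Fin k) Λ) (hF : ∀ v : Fin (N + 1) → Λ, OnX J v → v i = 1 →
      MvPolynomial.eval (fun j => MvPolynomial.eval₂ ((algebraMap K Λ).comp (algebraMap O K)) v
        (e j)) F = 0) : F = 0 := by
  refine indep_ext (K := K) (W := {w | ∃ v : Fin (N + 1) → Λ, OnX J v ∧ v i = 1 ∧
    w = fun j => MvPolynomial.eval₂ ((algebraMap K Λ).comp (algebraMap O K)) v (e j)}) ?_ ?_ F ?_
  · rintro σ _ ⟨v, h1, h2, rfl⟩
    have hσ : ∀ G : MvPolynomial (Fin (N + 1)) O,
        MvPolynomial.eval₂ ((algebraMap K Λ).comp (algebraMap O K)) (σ ∘ v) G =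
          σ (MvPolynomial.eval₂ ((algebraMap K Λ).comp (algebraMap O K)) v G) := fun G => by
      have e1 := MvPolynomial.eval₂_comp_left (σ : Λ →+* Λ)
        ((algebraMap K Λ).comp (algebraMap O K)) v G
      have e2 : (σ : Λ →+* Λ).comp ((algebraMap K Λ).comp (algebraMap O K)) =
          (algebraMap K Λ).comp (algebraMap O K) := RingHom.ext fun c => σ.commutes _
      rw [e2] at e1
      exact e1.symm
    refine ⟨σ ∘ v, (onX_iff hJ).2 fun G hG => ?_, ?_, funext fun j => (hσ _).symm⟩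
    · rw [hσ, (onX_iff hJ).1 h1 G hG, map_zero]
    · rw [Function.comp_apply, h2, map_one]
  · intro A hA
    obtain ⟨n, A₀, hA₀⟩ := h.cmodb_den A
    have h1 : MvPolynomial.map (algebraMap O K) (MvPolynomial.aeval e A₀) ∈
        ((I ⊔ Ideal.span {MvPolynomial.X i - 1}).map
          (MvPolynomial.map (algebraMap O K))).radical := by
      rw [← MvPolynomial.vanishingIdeal_zeroLocus_eq_radical (K := Λ),
        MvPolynomial.mem_vanishingIdeal_iff]
      intro v hv
      have hv' : ∀ G ∈ I ⊔ Ideal.span {MvPolynomial.X i - 1},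
          MvPolynomial.eval₂ ((algebraMap K Λ).comp (algebraMap O K)) v G = 0 := fun G hG => by
        rw [← MvPolynomial.eval₂_map]
        exact hv _ (Ideal.mem_map_of_mem _ hG)
      have h2 := hv' _ (Ideal.mem_sup_right (Ideal.mem_span_singleton_self _))
      rw [MvPolynomial.eval₂_sub, MvPolynomial.eval₂_X, MvPolynomial.eval₂_one, sub_eq_zero] at h2
      have h3 := hA _ ⟨v, (onX_iff hJ).2 fun G hG => hv' G (Ideal.mem_sup_left hG), h2, rfl⟩
      rw [MvPolynomial.aeval_def, MvPolynomial.eval₂_map, cmodb_aeval, ← MvPolynomial.eval₂_map,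
        hA₀, MvPolynomial.eval₂_mul, ← MvPolynomial.aeval_def _ A, h3, mul_zero]
    obtain ⟨m, hm⟩ := h1
    obtain ⟨n', H₀, h2, h3⟩ := h.cmodb_map hm
    have h4 : H₀ = MvPolynomial.C π ^ n' * MvPolynomial.aeval e A₀ ^ m := by
      apply MvPolynomial.map_injective _ h.inj
      rw [h3, map_mul, map_pow, map_pow, MvPolynomial.map_C]
    have h5 := hI h2
    rw [h4] at h5
    have h6 := he A₀ (hp.mem_of_pow_mem m
      ((hp.mem_or_mem h5).resolve_left fun h7 => hπ (hp.mem_of_pow_mem n' h7)))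
    rw [h6, map_zero] at hA₀
    exact (mul_eq_zero.1 hA₀.symm).resolve_left
      (pow_ne_zero _ (MvPolynomial.C_ne_zero.2 (h.cmodb_ne h.ne)))
  · rintro _ ⟨v, h1, h2, rfl⟩
    exact hF v h1 h2

/-- passage to the cone -/
theorem dimA_of_indep (hO : ∀ c : O, ‖algebraMap K Λ (algebraMap O K c)‖ ≤ 1)
    (hc : ∀ (v : Fin (N + 1) → Λ) (c : Λ), OnX J v → OnX J (c • v)) {i : Fin (N + 1)} {k : ℕ}
    {e : Fin k → MvPolynomial (Fin (N + 1)) O}
    (he : ∀ F : MvPolynomial (Fin k) Λ, (∀ v : Fin (N + 1) → Λ, OnX J v → v i = 1 →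
      MvPolynomial.eval (fun j => MvPolynomial.eval₂ ((algebraMap K Λ).comp (algebraMap O K)) v
        (e j)) F = 0) → F = 0) : DimA Λ J (k + 1) := by
  intro E
  choose D G _ hG using fun j => exists_homog (e j) (MvPolynomial.isHomogeneous_X O i)
    (MvPolynomial.isHomogeneous_X O)
  refine ⟨Fin.cons (MvPolynomial.X i) fun j => MvPolynomial.map (oE hO E) (G j), fun F hF => ?_⟩
  have key : ∀ c : Λ, c ≠ 0 → ∀ y : Fin k → Λ, MvPolynomial.eval₂ (OL E).subtype
      (Fin.cons c (fun j => c ^ D j * y j) : Fin (k + 1) → Λ) F = 0 := by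
    intro c h0
    have h1 : ∀ y : Fin k → Λ, MvPolynomial.eval y (MvPolynomial.eval₂
        (MvPolynomial.C.comp (OL E).subtype) (Fin.cons (MvPolynomial.C c) (fun j =>
          MvPolynomial.C (c ^ D j) * MvPolynomial.X j) : Fin (k + 1) → MvPolynomial (Fin k) Λ) F) =
        MvPolynomial.eval₂ (OL E).subtype
          (Fin.cons c (fun j => c ^ D j * y j) : Fin (k + 1) → Λ) F := fun y => by
      rw [MvPolynomial.eval₂_comp_left]
      congr 1
      · exact RingHom.ext fun x => MvPolynomial.eval_C _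
      · funext j
        refine Fin.cases ?_ (fun j => ?_) j <;> simp
    intro y
    rw [← h1]
    refine (congrArg (MvPolynomial.eval y) (he _ fun v hv hi => ?_)).trans (map_zero _)
    rw [h1, ← hF (c • v) (hc v c hv), cmodb_aeval]
    congr 1
    funext j
    refine Fin.cases ?_ (fun j => ?_) j
    · simp [hi]
    · have h2 := hG j Λ ((algebraMap K Λ).comp (algebraMap O K)) (c • v) (by simp [hi, h0])
      simp only [MvPolynomial.eval₂_X, Pi.smul_apply, smul_eq_mul, hi, mul_one,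
        mul_div_cancel_left₀ _ h0] at h2
      simp only [Fin.cons_succ, MvPolynomial.eval₂_map, subtype_oE]
      exact h2.symm
  have h2 : MvPolynomial.X 0 * F = 0 := by
    refine eq_zero_of_eval₂ (Subring.subtype_injective (OL E)) fun u => ?_
    rw [MvPolynomial.eval₂_mul, MvPolynomial.eval₂_X]
    by_cases h0 : u 0 = 0
    · rw [h0, zero_mul]
    have h3 := key _ h0 fun j => (u 0 ^ D j)⁻¹ * u j.succ
    simp only [mul_inv_cancel_left₀ (pow_ne_zero _ h0)] at h3
    rw [show (Fin.cons (u 0) (fun j => u j.succ) : Fin (k + 1) → Λ) = u from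
      Fin.cons_self_tail u] at h3
    rw [h3, mul_zero]
  exact (mul_eq_zero.1 h2).resolve_left (MvPolynomial.X_ne_zero _)

end Pool.Agent.ZeroCyc
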