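import Pool.Agent.Lib.MP_796ce4_ag.ZQ.CModA
import Pool.Agent.Lib.MP_796ce4_ag.ZQ.CModB

/-! Models over the ring of integers: the tangent space. -/

namespace Pool.Agent.ZeroCyc

open Polynomial Module
open scoped Classical IntermediateField PowerSeries

set_option linter.unusedSectionVars false

section ring

variable {R A : Type} [CommRing R] [CommRing A] {M : ℕ}

theorem cmodc_dG_mul (φ : R →+* A) (x w : Fin M → A) (F G : MvPolynomial (Fin M) R) :
    dG φ x w (F * G) =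
      MvPolynomial.eval₂ φ x F * dG φ x w G + MvPolynomial.eval₂ φ x G * dG φ x w F := by
  simp only [dG, Finset.mul_sum, ← Finset.sum_add_distrib]
  refine Finset.sum_congr rfl fun a _ => ?_
  rw [MvPolynomial.pderiv_mul, MvPolynomial.eval₂_add, MvPolynomial.eval₂_mul,
    MvPolynomial.eval₂_mul]
  ring

theorem cmodc_dG_sub (φ : R →+* A) (x w : Fin M → A) (F G : MvPolynomial (Fin M) R) :
    dG φ x w (F - G) = dG φ x w F - dG φ x w G := by
  simp only [dG, map_sub, MvPolynomial.eval₂_sub, sub_mul, Finset.sum_sub_distrib]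

theorem cmodc_dG_one (φ : R →+* A) (x w : Fin M → A) :
    dG φ x w (1 : MvPolynomial (Fin M) R) = 0 := by
  rw [← MvPolynomial.C_1, cha_dG_C]

theorem cmodc_dG_X (φ : R →+* A) (x w : Fin M → A) (a : Fin M) :
    dG φ x w (MvPolynomial.X a : MvPolynomial (Fin M) R) = w a := by
  have h := cha_dG_mul_X φ x w 1 a
  rwa [one_mul, cmodc_dG_one, zero_mul, zero_add, MvPolynomial.eval₂_one, one_mul] at h

theorem cmodc_dG_pow (φ : R →+* A) (x w : Fin M → A) (a : Fin M) (n : ℕ) :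
    dG φ x w ((MvPolynomial.X a : MvPolynomial (Fin M) R) ^ (n + 1)) =
      ((n + 1 : ℕ) : A) * x a ^ n * w a := by
  induction n with
  | zero => rw [zero_add, pow_one, cmodc_dG_X]; simp
  | succ n ih =>
    rw [pow_succ, cha_dG_mul_X, ih, MvPolynomial.eval₂_pow, MvPolynomial.eval₂_X]
    push_cast
    ring

theorem cmodc_dG_add_w (φ : R →+* A) (x w w' : Fin M → A) (G : MvPolynomial (Fin M) R) :
    dG φ x (w + w') G = dG φ x w G + dG φ x w' G := by
  simp only [dG, Pi.add_apply, mul_add, Finset.sum_add_distrib]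

theorem cmodc_dG_smul_w (φ : R →+* A) (x w : Fin M → A) (c : A) (G : MvPolynomial (Fin M) R) :
    dG φ x (c • w) G = c * dG φ x w G := by
  simp only [dG, Finset.mul_sum, Pi.smul_apply, smul_eq_mul]
  exact Finset.sum_congr rfl fun a _ => by ring

theorem cmodc_dG_sum (φ : R →+* A) (x w : Fin M → A) (G : MvPolynomial (Fin M) R) :
    dG φ x w G = ∑ k ∈ Finset.range (G.totalDegree + 1),
      dG φ x w (MvPolynomial.homogeneousComponent k G) := by
  conv_lhs => rw [← MvPolynomial.sum_homogeneousComponent G]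
  simp only [dG, map_sum, MvPolynomial.eval₂_sum, Finset.sum_mul]
  exact Finset.sum_comm

theorem cmodc_dG_homog (φ : R →+* A) (x w : Fin M → A) (c : A) (G : MvPolynomial (Fin M) R)
    (k : ℕ) : dG φ (c • x) (c • w) (MvPolynomial.homogeneousComponent k G) =
      c ^ k * dG φ x w (MvPolynomial.homogeneousComponent k G) := by
  cases k with
  | zero => rw [MvPolynomial.homogeneousComponent_zero, cha_dG_C, cha_dG_C, mul_zero]
  | succ k =>
    simp only [dG, Finset.mul_sum]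
    refine Finset.sum_congr rfl fun a _ => ?_
    rw [eval₂_smul_homog (MvPolynomial.homogeneousComponent_isHomogeneous (k + 1) G).pderiv,
      Nat.add_sub_cancel, Pi.smul_apply, smul_eq_mul]
    ring

theorem cmodc_nzd [Algebra R A] (hf : Module.Flat R A) {c : R} (hc : c ∈ nonZeroDivisors R) :
    algebraMap R A c ∈ nonZeroDivisors A := by
  have hr := Module.Flat.isSMulRegular_of_nonZeroDivisors (M := A) hc
  rw [mem_nonZeroDivisors_iff_left]
  intro a ha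
  apply hr
  show c • a = c • (0 : A)
  rw [smul_zero, Algebra.smul_def]
  exact ha

theorem cmodc_rank {κ : Type} [Field κ] {T T' : Submodule κ (κ × (Fin M → κ))} {c : κ}
    (hc : c ≠ 0) (h : ∀ z ∈ T, ((z.1, c • z.2) : κ × (Fin M → κ)) ∈ T') :
    finrank κ T ≤ finrank κ T' := by
  let f : T →ₗ[κ] T' :=
    { toFun := fun z => ⟨(z.1.1, c • z.1.2), h z z.2⟩
      map_add' := fun z z' => Subtype.ext (Prod.ext rfl (smul_add c z.1.2 z'.1.2))
      map_smul' := fun a z => Subtype.ext (Prod.ext rfl (smul_comm c a z.1.2)) }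
  refine LinearMap.finrank_le_finrank_of_injective (f := f) fun z z' h5 => ?_
  have h6 : ((z.1.1, c • z.1.2) : κ × (Fin M → κ)) = (z'.1.1, c • z'.1.2) :=
    congrArg Subtype.val h5
  obtain ⟨h7, h8⟩ := Prod.mk.inj h6
  exact Subtype.ext (Prod.ext h7 (smul_right_injective _ hc h8))

end ring

variable {p : ℕ} {K Λ : Type} [Field K] [CharZero K] [NormedField Λ] [IsUltrametricDist Λ]
  [IsAlgClosed Λ] [Algebra K Λ] [IsGalois K Λ] [Loc p K Λ] [Fact p.Prime] [CharP (kk Λ) p]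
variable {N : ℕ} {O : Type} [CommRing O] [Algebra O K] {I : Ideal (MvPolynomial (Fin (N + 1)) O)}
  {J : Ideal (MvPolynomial (Fin (N + 1)) K)} {π : O} {L : IntermediateField K Λ}
  {x : Fin (N + 1) → Λ}

theorem RegModel.onX_smul (hI : RegModel O I) (hJ : J = I.map (MvPolynomial.map (algebraMap O K)))
    (v : Fin (N + 1) → Λ) (c : Λ) (h : OnX J v) : OnX J (c • v) := by
  rw [onX_iff hJ] at h ⊢
  intro G hG
  rw [← MvPolynomial.sum_homogeneousComponent G, MvPolynomial.eval₂_sum]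
  refine Finset.sum_eq_zero fun k _ => ?_
  rw [eval₂_smul_homog (MvPolynomial.homogeneousComponent_isHomogeneous k G),
    h _ (hI.hom G hG k), mul_zero]

theorem cmodc_div_le {ϖ y : Λ} (hU : UnrF ϖ L) (hy : y ∈ L) (h : ‖y‖ < 1) : ‖y / ϖ‖ ≤ 1 := by
  rw [norm_div]
  exact div_le_one_of_le₀ (hU y hy h) (norm_nonneg _)

theorem cmodc_comp_mem (hc : ∀ (v : Fin (N + 1) → Λ) (c : Λ), OnX J v → OnX J (c • v))
    {E : IntermediateField K Λ} {G : MvPolynomial (Fin (N + 1)) (OL E)} (hG : G ∈ vJ J E) (k : ℕ) :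
    MvPolynomial.homogeneousComponent k G ∈ vJ J E := fun v hv =>
  eval₂_component_eq_zero _ G v (fun c => hG _ (hc v c hv)) k

/-- scaling the point -/
theorem text_smul (hc : ∀ (v : Fin (N + 1) → Λ) (c : Λ), OnX J v → OnX J (c • v)) {ϖ : Λ}
    (hU : UnrF ϖ L) (hx : ∀ a, x a ∈ L) (h1 : ∀ a, ‖x a‖ ≤ 1)
    (h0 : ∀ G ∈ vJ J (⊥ : IntermediateField K Λ), ‖MvPolynomial.eval₂ (OL ⊥).subtype x G‖ < 1)
    {u : Λ} (hu : ‖u‖ = 1) :
    (∀ G ∈ vJ J (⊥ : IntermediateField K Λ), ‖MvPolynomial.eval₂ (OL ⊥).subtype (u • x) G‖ < 1) ∧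
      finrank (kk Λ) (Text J ϖ x) ≤ finrank (kk Λ) (Text J ϖ (u • x)) := by
  have e1 : ∀ G : MvPolynomial (Fin (N + 1)) (OL (⊥ : IntermediateField K Λ)),
      MvPolynomial.eval₂ (OL ⊥).subtype (u • x) G = ∑ k ∈ Finset.range (G.totalDegree + 1),
        u ^ k * MvPolynomial.eval₂ (OL ⊥).subtype x (MvPolynomial.homogeneousComponent k G) := by
    intro G
    rw [cha_eval₂_sum_comp]
    exact Finset.sum_congr rfl fun k _ =>
      eval₂_smul_homog (MvPolynomial.homogeneousComponent_isHomogeneous k G) _ _ _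
  constructor
  · intro G hG
    rw [e1]
    refine gal1_sum_lt fun k _ => ?_
    rw [norm_mul, norm_pow, hu, one_pow, one_mul]
    exact h0 _ (cmodc_comp_mem hc hG k)
  have e2 : (fun a => rs ((u • x) a)) = rs u • fun a => rs (x a) :=
    funext fun a => rs_mul hu.le (h1 a)
  have hu0 : rs u ≠ 0 := rs_ne_zero.2 hu
  have key : ∀ z ∈ Text J ϖ x, ((z.1, rs u • z.2) : kk Λ × (Fin (N + 1) → kk Λ)) ∈
      Text J ϖ (u • x) := by
    intro z hz G hG
    have h2 : ∀ k, ‖MvPolynomial.eval₂ (OL ⊥).subtype x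
        (MvPolynomial.homogeneousComponent k G) / ϖ‖ ≤ 1 := fun k =>
      cmodc_div_le hU (mv_mem (fun c => (bot_le : ⊥ ≤ L) c.2.1) hx _)
        (h0 _ (cmodc_comp_mem hc hG k))
    have h3 := (chr_rs_sum (Finset.range (G.totalDegree + 1))
      (f := fun k => u ^ k * (MvPolynomial.eval₂ (OL ⊥).subtype x
        (MvPolynomial.homogeneousComponent k G) / ϖ)) fun k => by
          rw [norm_mul, norm_pow, hu, one_pow, one_mul]
          exact h2 k).2
    have h4 : MvPolynomial.eval₂ (OL ⊥).subtype (u • x) G / ϖ =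
        ∑ k ∈ Finset.range (G.totalDegree + 1), u ^ k * (MvPolynomial.eval₂ (OL ⊥).subtype x
          (MvPolynomial.homogeneousComponent k G) / ϖ) := by
      rw [e1, Finset.sum_div]
      exact Finset.sum_congr rfl fun k _ => mul_div_assoc _ _ _
    show z.1 * rs (MvPolynomial.eval₂ (OL ⊥).subtype (u • x) G / ϖ) +
      dG (rL ⊥) (fun a => rs ((u • x) a)) (rs u • z.2) G = 0
    rw [h4, h3, e2, cmodc_dG_sum, Finset.mul_sum, ← Finset.sum_add_distrib]
    refine Finset.sum_eq_zero fun k _ => ?_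
    rw [cmodc_dG_homog, rs_mul (tow_pow_le hu.le k) (h2 k), res_pow hu.le]
    have h5 := mem_Text.1 hz _ (cmodc_comp_mem hc hG k)
    linear_combination rs u ^ k * h5
  exact cmodc_rank hu0 key

/-- the class of a function in the cotangent space, paired with a tangent vector -/
noncomputable def cmodc_del (φ : O →+* Λ) (ψ : O →+* kk Λ) (ϖ : Λ) (x : Fin (N + 1) → Λ)
    (F : MvPolynomial (Fin (N + 1)) O) : (kk Λ × (Fin (N + 1) → kk Λ)) →ₗ[kk Λ] kk Λ where
  toFun z := z.1 * rs (MvPolynomial.eval₂ φ x F / ϖ) + dG ψ (fun a => rs (x a)) z.2 F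
  map_add' z z' := by
    rw [Prod.fst_add, Prod.snd_add, cmodc_dG_add_w]
    ring
  map_smul' c z := by
    rw [Prod.smul_fst, Prod.smul_snd, cmodc_dG_smul_w, RingHom.id_apply, smul_eq_mul, smul_eq_mul]
    ring

theorem cmodc_del_apply (φ : O →+* Λ) (ψ : O →+* kk Λ) (ϖ : Λ) (x : Fin (N + 1) → Λ)
    (F : MvPolynomial (Fin (N + 1)) O) (z : kk Λ × (Fin (N + 1) → kk Λ)) :
    cmodc_del φ ψ ϖ x F z =
      z.1 * rs (MvPolynomial.eval₂ φ x F / ϖ) + dG ψ (fun a => rs (x a)) z.2 F := rfl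

section del

variable {φ : O →+* Λ} {ψ : O →+* kk Λ} {ϖ : Λ}

theorem cmodc_del_add (hL : ∀ c, φ c ∈ L) (hU : UnrF ϖ L) (hx : ∀ a, x a ∈ L)
    {F G : MvPolynomial (Fin (N + 1)) O} (hF : ‖MvPolynomial.eval₂ φ x F‖ < 1)
    (hG : ‖MvPolynomial.eval₂ φ x G‖ < 1) (z : kk Λ × (Fin (N + 1) → kk Λ)) :
    cmodc_del φ ψ ϖ x (F + G) z = cmodc_del φ ψ ϖ x F z + cmodc_del φ ψ ϖ x G z := by
  rw [cmodc_del_apply, cmodc_del_apply, cmodc_del_apply, MvPolynomial.eval₂_add, add_div,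
    rs_add (cmodc_div_le hU (mv_mem hL hx F) hF) (cmodc_div_le hU (mv_mem hL hx G) hG),
    cha_dG_add]
  ring

theorem cmodc_del_mul (hφ : ∀ c, ‖φ c‖ ≤ 1) (hψ : ∀ c, ψ c = rs (φ c)) (hL : ∀ c, φ c ∈ L)
    (hU : UnrF ϖ L) (hx : ∀ a, x a ∈ L) (h1 : ∀ a, ‖x a‖ ≤ 1)
    (s : MvPolynomial (Fin (N + 1)) O) {F : MvPolynomial (Fin (N + 1)) O}
    (hF : ‖MvPolynomial.eval₂ φ x F‖ < 1) (z : kk Λ × (Fin (N + 1) → kk Λ)) :
    cmodc_del φ ψ ϖ x (s * F) z = rs (MvPolynomial.eval₂ φ x s) * cmodc_del φ ψ ϖ x F z := by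
  obtain ⟨s1, s2⟩ := rs_mv hφ hψ h1 s
  obtain ⟨f1, f2⟩ := rs_mv hφ hψ h1 F
  rw [(rs_eq_zero f1).2 hF] at f2
  rw [cmodc_del_apply, cmodc_del_apply, MvPolynomial.eval₂_mul, mul_div_assoc,
    rs_mul s1 (cmodc_div_le hU (mv_mem hL hx F) hF), cmodc_dG_mul, ← s2, ← f2]
  ring

/-- the functions that vanish at the point and are killed by the tangent vector -/
def cmodc_ker (hφ : ∀ c, ‖φ c‖ ≤ 1) (hψ : ∀ c, ψ c = rs (φ c)) (hL : ∀ c, φ c ∈ L)
    (hU : UnrF ϖ L) (hx : ∀ a, x a ∈ L) (h1 : ∀ a, ‖x a‖ ≤ 1)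
    (z : kk Λ × (Fin (N + 1) → kk Λ)) : Ideal (MvPolynomial (Fin (N + 1)) O) where
  carrier := {F | ‖MvPolynomial.eval₂ φ x F‖ < 1 ∧ cmodc_del φ ψ ϖ x F z = 0}
  zero_mem' := by
    refine ⟨by rw [MvPolynomial.eval₂_zero, norm_zero]; exact one_pos, ?_⟩
    rw [cmodc_del_apply, MvPolynomial.eval₂_zero, zero_div, rs_zero, ← MvPolynomial.C_0, cha_dG_C,
      mul_zero, add_zero]
  add_mem' := fun {F G} hF hG => by
    refine ⟨by rw [MvPolynomial.eval₂_add]; exact gal1_add_lt hF.1 hG.1, ?_⟩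
    rw [cmodc_del_add hL hU hx hF.1 hG.1, hF.2, hG.2, add_zero]
  smul_mem' := fun s F hF => by
    refine ⟨?_, ?_⟩
    · rw [smul_eq_mul, MvPolynomial.eval₂_mul, norm_mul]
      exact (mul_le_of_le_one_left (norm_nonneg _) (rs_mv hφ hψ h1 s).1).trans_lt hF.1
    · rw [smul_eq_mul, cmodc_del_mul hφ hψ hL hU hx h1 s hF.1, hF.2, mul_zero]

end del

include p

/-- the tangent space is bounded by the number of local generators of the maximal ideal -/
theorem Ints.text_le (h : Ints Λ K π) (hJ : J = I.map (MvPolynomial.map (algebraMap O K)))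
    (hU : UnrF (algebraMap K Λ (algebraMap O K π)) L) (hx : ∀ a, x a ∈ L) (h1 : ∀ a, ‖x a‖ ≤ 1)
    {i : Fin (N + 1)} (hi : x i = 1) (h0 : ∀ G ∈ I,
      ‖MvPolynomial.eval₂ ((algebraMap K Λ).comp (algebraMap O K)) x G‖ < 1) {k : ℕ}
    {g : Fin k → MvPolynomial (Fin (N + 1)) O}
    (hg : ∀ j, ‖MvPolynomial.eval₂ ((algebraMap K Λ).comp (algebraMap O K)) x (g j)‖ < 1)
    (hs : ∀ F, ‖MvPolynomial.eval₂ ((algebraMap K Λ).comp (algebraMap O K)) x F‖ < 1 →
      ∃ s, ‖MvPolynomial.eval₂ ((algebraMap K Λ).comp (algebraMap O K)) x s‖ = 1 ∧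
        s * F ∈ Ideal.span (Set.range g) ⊔ (I ⊔ Ideal.span {MvPolynomial.X i - 1})) :
    finrank (kk Λ) (Text J (algebraMap K Λ (algebraMap O K π)) x) ≤ k + 1 := by
  obtain ⟨φ, hφe⟩ : ∃ φ : O →+* Λ, φ = (algebraMap K Λ).comp (algebraMap O K) := ⟨_, rfl⟩
  obtain ⟨ψ, hψe⟩ : ∃ ψ : O →+* kk Λ, ψ = (rL ⊥).comp (oE h.le ⊥) := ⟨_, rfl⟩
  obtain ⟨ϖ, hϖe⟩ : ∃ ϖ : Λ, ϖ = algebraMap K Λ (algebraMap O K π) := ⟨_, rfl⟩
  have hφ : ∀ c, ‖φ c‖ ≤ 1 := by rw [hφe]; exact h.le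
  have hψ : ∀ c, ψ c = rs (φ c) := by rw [hφe, hψe]; exact cht_rs h.le ⊥
  have hL : ∀ c, φ c ∈ L := by rw [hφe]; exact fun c => L.algebraMap_mem _
  have hπ : φ π = ϖ := by rw [hφe, hϖe]; rfl
  have hϖ0 : ϖ ≠ 0 := by
    rw [hϖe]
    exact (map_ne_zero_iff _ (algebraMap K Λ).injective).2 ((map_ne_zero_iff _ h.inj).2 h.ne)
  have hϖ1 : ‖ϖ‖ < 1 := by rw [hϖe]; exact h.lt
  have hT : ∀ z ∈ Text J ϖ x, ∀ G ∈ I, cmodc_del φ ψ ϖ x G z = 0 := by
    intro z hz G hG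
    have h2 := mem_Text.1 hz _ (cht_map hJ h.le ⊥ hG)
    rw [MvPolynomial.eval₂_map, subtype_oE, dG_map, ← hφe, ← hψe] at h2
    exact h2
  rw [← hφe] at h0 hg hs
  rw [← hϖe] at hU ⊢
  let f : Text J ϖ x →ₗ[kk Λ] (Fin k → kk Λ) × kk Λ :=
    (LinearMap.prod (LinearMap.pi fun j => cmodc_del φ ψ ϖ x (g j))
      ((LinearMap.proj i).comp (LinearMap.snd _ _ _))).comp (Text J ϖ x).subtype
  have hf : Function.Injective f := by
    rw [injective_iff_map_eq_zero]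
    rintro ⟨z, hz⟩ hfz
    have h2 : ∀ j, cmodc_del φ ψ ϖ x (g j) z = 0 := fun j => congrFun (congrArg Prod.fst hfz) j
    have h3 : z.2 i = 0 := congrArg Prod.snd hfz
    have hle : Ideal.span (Set.range g) ⊔ (I ⊔ Ideal.span {MvPolynomial.X i - 1}) ≤
        cmodc_ker hφ hψ hL hU hx h1 z := by
      refine sup_le ?_ (sup_le (fun G hG => ⟨h0 G hG, hT z hz G hG⟩) ?_)
      · rw [Ideal.span_le]
        rintro _ ⟨j, rfl⟩
        exact ⟨hg j, h2 j⟩
      · rw [Ideal.span_le, Set.singleton_subset_iff]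
        have h4 : MvPolynomial.eval₂ φ x (MvPolynomial.X i - 1) = 0 := by
          rw [MvPolynomial.eval₂_sub, MvPolynomial.eval₂_X, MvPolynomial.eval₂_one, hi, sub_self]
        refine ⟨by rw [h4, norm_zero]; exact one_pos, ?_⟩
        rw [cmodc_del_apply, h4, zero_div, rs_zero, cmodc_dG_sub, cmodc_dG_X, cmodc_dG_one, h3]
        ring
    have h5 : ∀ F, ‖MvPolynomial.eval₂ φ x F‖ < 1 → cmodc_del φ ψ ϖ x F z = 0 := by
      intro F hF
      obtain ⟨s, hs1, hs2⟩ := hs F hF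
      have h6 := (hle hs2).2
      rw [cmodc_del_mul hφ hψ hL hU hx h1 s hF] at h6
      exact (mul_eq_zero.1 h6).resolve_left (rs_ne_zero.2 hs1)
    have h7 : z.1 = 0 := by
      have h6 := h5 (MvPolynomial.C π) (by rwa [MvPolynomial.eval₂_C, hπ])
      rwa [cmodc_del_apply, MvPolynomial.eval₂_C, hπ, div_self hϖ0, rs_one, cha_dG_C, mul_one,
        add_zero] at h6
    have h8 : ∀ a, z.2 a = 0 := by
      intro a
      obtain ⟨n, hn, h9⟩ := algP_kk (p := p) K (rs (x a))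
      obtain ⟨q, hq⟩ : ∃ q, p ^ n = q + 1 :=
        Nat.exists_eq_succ_of_ne_zero (pow_ne_zero n (Fact.out : p.Prime).ne_zero)
      have h10 : ((q + 1 : ℕ) : kk Λ) = 0 := by
        rw [← hq, Nat.cast_pow, CharP.cast_eq_zero, zero_pow hn.ne']
      have h6 := h5 (MvPolynomial.X a ^ (q + 1) - MvPolynomial.X a) (by
        rw [MvPolynomial.eval₂_sub, MvPolynomial.eval₂_pow, MvPolynomial.eval₂_X,
          ← rs_eq_iff (tow_pow_le (h1 a) _) (h1 a), res_pow (h1 a), ← hq, h9])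
      rw [cmodc_del_apply, h7, cmodc_dG_sub, cmodc_dG_pow, cmodc_dG_X, h10] at h6
      linear_combination -h6
    exact Subtype.ext (Prod.ext h7 (funext h8))
  refine (LinearMap.finrank_le_finrank_of_injective hf).trans (le_of_eq ?_)
  rw [Module.finrank_prod, Module.finrank_fin_fun, Module.finrank_self]

theorem cmodc_prime (hI : RegModel O I) (hJ : J = I.map (MvPolynomial.map (algebraMap O K)))
    (hinj : Function.Injective (algebraMap O K)) (F G : MvPolynomial (Fin (N + 1)) Λ)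
    (h : ∀ v, OnX J v → MvPolynomial.eval v (F * G) = 0) :
    (∀ v, OnX J v → MvPolynomial.eval v F = 0) ∨ ∀ v, OnX J v → MvPolynomial.eval v G = 0 := by
  obtain ⟨φ, hφe⟩ : ∃ φ : O →+* Λ, φ = (algebraMap K Λ).comp (algebraMap O K) := ⟨_, rfl⟩
  have hφ : Function.Injective φ := by
    rw [hφe]
    exact (algebraMap K Λ).injective.comp hinj
  let _ : Algebra O Λ := φ.toAlgebra
  have hp : (I.map (MvPolynomial.map φ)).radical.IsPrime := hI.irred Λ hφ
  have key : ∀ H : MvPolynomial (Fin (N + 1)) Λ, H ∈ (I.map (MvPolynomial.map φ)).radical ↔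
      ∀ v, OnX J v → MvPolynomial.eval v H = 0 := by
    intro H
    rw [← MvPolynomial.vanishingIdeal_zeroLocus_eq_radical (K := Λ),
      MvPolynomial.mem_vanishingIdeal_iff]
    refine forall_congr' fun v => ?_
    rw [MvPolynomial.mem_zeroLocus_iff, onX_iff hJ, ← hφe]
    exact imp_congr (chl_map_iff φ (RingHom.id Λ) v) Iff.rfl
  rw [← key, ← key]
  exact hp.mem_or_mem ((key _).2 h)

theorem cmodc_reg (hI : RegModel O I) (hJ : J = I.map (MvPolynomial.map (algebraMap O K)))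
    (h : Ints Λ K π) (hU : UnrF (algebraMap K Λ (algebraMap O K π)) L) (hx : ∀ a, x a ∈ L)
    (h1 : ∀ a, ‖x a‖ ≤ 1) {i : Fin (N + 1)} (hi : x i = 1) (h0 : ∀ G ∈ I,
      ‖MvPolynomial.eval₂ ((algebraMap K Λ).comp (algebraMap O K)) x G‖ < 1) :
    ∃ k, 0 < k ∧ DimA Λ J k ∧
      finrank (kk Λ) (Text J (algebraMap K Λ (algebraMap O K π)) x) ≤ k + 1 := by
  obtain ⟨Q, hQ⟩ : ∃ Q : Ideal (MvPolynomial (Fin (N + 1)) O),
    Q = I ⊔ Ideal.span {MvPolynomial.X i - 1} := ⟨_, rfl⟩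
  have hreg : IsRegularRing (MvPolynomial (Fin (N + 1)) O ⧸ Q) := hQ ▸ hI.reg i
  have hflat : Module.Flat O (MvPolynomial (Fin (N + 1)) O ⧸ Q) := hQ ▸ hI.flat i
  let ev : MvPolynomial (Fin (N + 1)) O →+* kk Λ :=
    MvPolynomial.eval₂Hom ((rL ⊥).comp (oE h.le ⊥)) fun a => rs (x a)
  have hev : ∀ F, ‖MvPolynomial.eval₂ ((algebraMap K Λ).comp (algebraMap O K)) x F‖ ≤ 1 ∧
      rs (MvPolynomial.eval₂ ((algebraMap K Λ).comp (algebraMap O K)) x F) = ev F := fun F =>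
    rs_mv (φ := (algebraMap K Λ).comp (algebraMap O K)) h.le (cht_rs h.le ⊥) h1 F
  have hev0 : ∀ F, ev F = 0 ↔
      ‖MvPolynomial.eval₂ ((algebraMap K Λ).comp (algebraMap O K)) x F‖ < 1 := fun F => by
    rw [← (hev F).2, rs_eq_zero (hev F).1]
  have hQ0 : ∀ F ∈ Q, ev F = 0 := by
    have hle : Q ≤ RingHom.ker ev := by
      rw [hQ]
      refine sup_le (fun G hG => (hev0 G).2 (h0 G hG)) ?_
      rw [Ideal.span_le, Set.singleton_subset_iff, SetLike.mem_coe, RingHom.mem_ker, hev0,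
        MvPolynomial.eval₂_sub, MvPolynomial.eval₂_X, MvPolynomial.eval₂_one, hi, sub_self,
        norm_zero]
      exact one_pos
    exact fun F hF => hle hF
  obtain ⟨𝔪, h𝔪⟩ : ∃ 𝔪 : Ideal (MvPolynomial (Fin (N + 1)) O ⧸ Q),
    𝔪 = RingHom.ker (Ideal.Quotient.lift Q ev hQ0) := ⟨_, rfl⟩
  have hm : ∀ F, Ideal.Quotient.mk Q F ∈ 𝔪 ↔ ev F = 0 := fun F => by
    rw [h𝔪, RingHom.mem_ker, Ideal.Quotient.lift_mk]
  have hprime : 𝔪.IsPrime := h𝔪 ▸ RingHom.ker_isPrime _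
  obtain ⟨k, g, P, hg1, hg2, hP1, hP2, hP3, hP4⟩ := exists_gen_chain 𝔪
  have eπ : algebraMap O (MvPolynomial (Fin (N + 1)) O ⧸ Q) π =
      Ideal.Quotient.mk Q (MvPolynomial.C π) := rfl
  have hπ0 : algebraMap O (MvPolynomial (Fin (N + 1)) O ⧸ Q) π ∉ P 0 := by
    intro hc
    apply hP4 _ hc
    have := h.inj.isDomain (algebraMap O K)
    exact cmodc_nzd hflat (mem_nonZeroDivisors_of_ne_zero h.ne)
  have hπ1 : algebraMap O (MvPolynomial (Fin (N + 1)) O ⧸ Q) π ∈ P (Fin.last k) := by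
    rw [hP3, eπ, hm, hev0, MvPolynomial.eval₂_C]
    exact h.lt
  obtain ⟨k', rfl, e, he⟩ := exists_indep_of_chain (fun c hc => h.exists_pow hc) P hP1 hP2 hπ0 hπ1
  choose e' he' using fun j => Ideal.Quotient.mk_surjective (e j)
  choose g' hg' using fun j => Ideal.Quotient.mk_surjective (g j)
  have hp0 := hP1 0
  refine ⟨k' + 1, Nat.succ_pos _, dimA_of_indep h.le (hI.onX_smul hJ) (i := i) (e := e')
    (h.indep_pts hJ (𝔭 := (P 0).comap (Ideal.Quotient.mk Q)) (Ideal.comap_isPrime _ _) ?_ ?_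
      fun F hF => he F ?_), h.text_le (p := p) hJ hU hx h1 hi h0 (g := g') (fun j => ?_)
        fun F hF => ?_⟩
  · intro F hF
    rw [Ideal.mem_comap, Ideal.Quotient.eq_zero_iff_mem.2 (hQ ▸ hF)]
    exact zero_mem _
  · exact fun hc => hπ0 (eπ ▸ Ideal.mem_comap.1 hc)
  · have e1 : (Ideal.Quotient.mkₐ O Q).comp (MvPolynomial.aeval e') = MvPolynomial.aeval e :=
      MvPolynomial.algHom_ext fun j => by
        rw [AlgHom.comp_apply, MvPolynomial.aeval_X, MvPolynomial.aeval_X]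
        exact he' j
    rw [← e1]
    exact Ideal.mem_comap.1 hF
  · rw [← hev0, ← hm, hg']
    exact hg1 j
  · obtain ⟨s, hs1, hs2⟩ := hg2 _ ((hm F).2 ((hev0 F).2 hF))
    obtain ⟨s', rfl⟩ := Ideal.Quotient.mk_surjective s
    refine ⟨s', ?_, ?_⟩
    · rw [← rs_ne_zero, (hev s').2]
      exact fun hc => hs1 ((hm s').2 hc)
    · have e2 : Ideal.span (Set.range g) =
          (Ideal.span (Set.range g')).map (Ideal.Quotient.mk Q) := by
        rw [Ideal.map_span, ← Set.range_comp]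
        congr 2
        exact (funext hg').symm
      rw [← hQ, sup_comm, ← Ideal.comap_map_quotientMk, Ideal.mem_comap, map_mul, ← e2]
      exact hs2

theorem RegModel.regX (hI : RegModel O I) (hJ : J = I.map (MvPolynomial.map (algebraMap O K)))
    (h : Ints Λ K π) : RegX J (algebraMap K Λ (algebraMap O K π)) := by
  refine ⟨hI.onX_smul hJ, cmodc_prime (p := p) hI hJ h.inj, IntermediateField.algebraMap_mem _ _,
    (map_ne_zero_iff _ (algebraMap K Λ).injective).2 ((map_ne_zero_iff _ h.inj).2 h.ne), h.lt,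
    h.unr, fun L x hU hx hn h0 => ?_⟩
  obtain ⟨i, hi⟩ := exists_norm_eq_one hn
  have hu : ‖(x i)⁻¹‖ = 1 := by rw [norm_inv, hi, inv_one]
  have hi0 : x i ≠ 0 := norm_pos_iff.1 (by rw [hi]; exact one_pos)
  obtain ⟨h2, h3⟩ := text_smul (hI.onX_smul hJ) hU hx (norm_apply_le hn) h0 hu
  obtain ⟨k, hk, h4, h5⟩ := cmodc_reg (p := p) (x := (x i)⁻¹ • x) hI hJ h hU
    (fun a => L.mul_mem (L.inv_mem (hx i)) (hx a))
    (fun a => by
      rw [Pi.smul_apply, smul_eq_mul, norm_mul, hu, one_mul]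
      exact norm_apply_le hn a) (i := i) (inv_mul_cancel₀ hi0) fun G hG => by
      have h6 := h2 _ (cht_map hJ h.le ⊥ hG)
      rwa [MvPolynomial.eval₂_map, subtype_oE] at h6
  exact ⟨k, hk, h4, h3.trans h5⟩

end Pool.Agent.ZeroCyc
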