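import Pool.Agent.Lib.MP_796ce4_ag.ZQ.CHyp
import Pool.Agent.Lib.MP_796ce4_ag.ZY.TotRam

/-! Auxiliary lemmas on the tangent space of a hypersurface model. -/

namespace Pool.Agent.ZeroCyc

open Polynomial Module
open scoped Classical IntermediateField PowerSeries

set_option linter.unusedSectionVars false

section aux

variable {d : ℕ} {R S : Type} [CommRing R] [CommRing S]

theorem crg_ev {M : ℕ} (φ : R →+* S) (y : Fin d → S) (h : S) (pp : Fin M → MP d R)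
    (G : MvPolynomial (Fin M) R) :
    ev2 φ y h (MvPolynomial.eval₂ (C.comp MvPolynomial.C) pp G) =
      MvPolynomial.eval₂ φ (fun a => ev2 φ y h (pp a)) G := by
  have h2 : (ev2 φ y h).comp (C.comp MvPolynomial.C) = φ :=
    RingHom.ext fun c => dir_ev_const φ y h c
  rw [MvPolynomial.eval₂_comp_left, h2]
  rfl

theorem crg_eval (φ : R →+* S) (lam : Fin d → S[X]) (H : S[X]) (t : S) (f : MP d R) :
    (ev2 (C.comp φ) lam H f).eval t = ev2 φ (fun i => (lam i).eval t) (H.eval t) f := by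
  have h1 := map_ev2 (C.comp φ) (evalRingHom t) lam H f
  have h2 : (evalRingHom t).comp (C.comp φ) = φ := RingHom.ext fun c => by simp
  rw [h2] at h1
  exact h1

theorem crg_mult (φ : R →+* S) {y : Fin d → S} {h : S} {χ q : MP d R} (hq : χ ∣ q)
    (h0 : ev2 φ y h χ = 0) (ν : Fin d → S) (θ : S) (h1 : dir φ y h ν θ χ = 0) :
    ev2 φ y h q = 0 ∧ dir φ y h ν θ q = 0 := by
  obtain ⟨r, rfl⟩ := hq
  rw [map_mul, dir_mul, h0, h1]
  simp

theorem crg_dir_zero (φ : R →+* S) (y : Fin d → S) (h : S) (f : MP d R) :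
    dir φ y h 0 0 f = 0 := by
  obtain ⟨A, hA⟩ := dir_lin φ y h f
  simp [hA]

theorem crg_sq {F : Type} [Field F] {Φ : F[X]} {r : F} (h0 : Φ.eval r = 0)
    (h1 : (derivative Φ).eval r = 0) : (X - C r) ^ 2 ∣ Φ := by
  obtain ⟨Q, rfl⟩ := dvd_iff_isRoot.2 h0
  have h2 : Q.eval r = 0 := by simpa using h1
  rw [pow_two]
  exact mul_dvd_mul_left _ (dvd_iff_isRoot.2 h2)

end aux

section

variable {K Λ : Type} [Field K] [CharZero K] [NormedField Λ] [IsUltrametricDist Λ] [IsAlgClosed Λ]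
  [Algebra K Λ] {N : ℕ} {J : Ideal (MvPolynomial (Fin (N + 1)) K)} {E L : IntermediateField K Λ}
  {d : ℕ} {π : Λ}

namespace Hyp

variable {𝒬 : Hyp J E d} {y : Fin d → Λ} {h : Λ}

theorem crg_mem (hL : E ≤ L) (hy : ∀ k, y k ∈ L) (hh : h ∈ L) (q : MP d (OL E)) :
    ev2 (OL E).subtype y h q ∈ L :=
  eval₂_mem (φ := MvPolynomial.eval₂Hom (OL E).subtype y)
    (fun g => mv_mem (φ := (OL E).subtype) (fun c => hL c.2.1) hy g) hh q

theorem crg_dvd_lp (l : Fin (N + 1) → OL E) (q : MP d (OL E))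
    (hq : ∀ v, lv (OL E).subtype 𝒬.s₀ v = 1 → ev2 (OL E).subtype
      (fun k => lv (OL E).subtype (𝒬.s k) v) (lv (OL E).subtype 𝒬.H v) q =
        lv (OL E).subtype l v) :
    𝒬.χ ∣ MvPolynomial.eval₂ (C.comp MvPolynomial.C) 𝒬.pp (lp l) - 𝒬.D * q := by
  refine dvd fun y h h0 => ?_
  obtain ⟨v, hv, h1, rfl, rfl⟩ := 𝒬.surj y h h0
  have e : (fun a => ev2 (OL E).subtype (fun k => lv (OL E).subtype (𝒬.s k) v)
      (lv (OL E).subtype 𝒬.H v) (𝒬.pp a)) = ev2 (OL E).subtype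
        (fun k => lv (OL E).subtype (𝒬.s k) v) (lv (OL E).subtype 𝒬.H v) 𝒬.D • v :=
    funext fun a => 𝒬.pt v hv h1 a
  rw [map_sub, map_mul, crg_ev, eval₂_lp, e, lv_smul, hq v h1, sub_self]

theorem crg_dvd_vJ (hX : RegX J π) {G : MvPolynomial (Fin (N + 1)) (OL (⊥ : IntermediateField K Λ))}
    (hG : G ∈ vJ J (⊥ : IntermediateField K Λ)) :
    𝒬.χ ∣ MvPolynomial.eval₂ (C.comp MvPolynomial.C) 𝒬.pp
      (MvPolynomial.map (inc (bot_le : ⊥ ≤ E)) G) := by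
  refine dvd fun y h h0 => ?_
  rw [crg_ev, MvPolynomial.eval₂_map, subtype_inc]
  exact hG _ (onX_pv hX h0)

theorem crg_lin {a : Fin d → kk Λ} {c : kk Λ} (h0 : ev2 (rL E) a c 𝒬.χ = 0) (ν : Fin d → kk Λ)
    (θ : kk Λ) (h1 : dir (rL E) a c ν θ 𝒬.χ = 0) (l : Fin (N + 1) → OL E) (q : MP d (OL E))
    (hq : ∀ v, lv (OL E).subtype 𝒬.s₀ v = 1 → ev2 (OL E).subtype
      (fun k => lv (OL E).subtype (𝒬.s k) v) (lv (OL E).subtype 𝒬.H v) q =
        lv (OL E).subtype l v) (b : kk Λ) :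
    lv (rL E) l (b • (fun i => ev2 (rL E) a c (𝒬.pp i)) + fun i => dir (rL E) a c ν θ (𝒬.pp i)) =
      (b * ev2 (rL E) a c 𝒬.D + dir (rL E) a c ν θ 𝒬.D) * ev2 (rL E) a c q +
        ev2 (rL E) a c 𝒬.D * dir (rL E) a c ν θ q := by
  obtain ⟨h2, h3⟩ := crg_mult (rL E) (crg_dvd_lp l q hq) h0 ν θ h1
  rw [map_sub, map_mul, crg_ev, eval₂_lp, sub_eq_zero] at h2
  rw [dir_sub, dir_mul, dir_comp, dG_lp, sub_eq_zero] at h3
  rw [lv_add, lv_smul, h2, h3]
  ring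

theorem crg_inj {a : Fin d → kk Λ} {c : kk Λ} (h0 : ev2 (rL E) a c 𝒬.χ = 0)
    (hD : ev2 (rL E) a c 𝒬.D ≠ 0) {ν : Fin d → kk Λ} {θ : kk Λ}
    (h1 : dir (rL E) a c ν θ 𝒬.χ = 0) {b : kk Λ}
    (hw : (b • (fun i => ev2 (rL E) a c (𝒬.pp i)) + fun i => dir (rL E) a c ν θ (𝒬.pp i)) = 0) :
    b = 0 ∧ ν = 0 ∧ θ = 0 := by
  have z : ∀ l : Fin (N + 1) → OL E, lv (rL E) l (0 : Fin (N + 1) → kk Λ) = 0 := fun l => by
    simp [lv]
  have e0 := crg_lin h0 ν θ h1 𝒬.s₀ (C (MvPolynomial.C 1))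
    (fun v hv => by rw [dir_ev_const, hv, map_one]) b
  rw [hw, z, dir_const, dir_ev_const, map_one, mul_one, mul_zero, add_zero] at e0
  have e1 : ν = 0 := funext fun k => by
    have e := crg_lin h0 ν θ h1 (𝒬.s k) (C (MvPolynomial.X k))
      (fun v _ => dir_ev_var _ _ _ k) b
    rw [hw, z, ← e0, zero_mul, zero_add, dir_var] at e
    exact (mul_eq_zero.1 e.symm).resolve_left hD
  have e2 : θ = 0 := by
    have e := crg_lin h0 ν θ h1 𝒬.H X (fun v _ => dir_ev_X _ _ _) b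
    rw [hw, z, ← e0, zero_mul, zero_add, dir_X] at e
    exact (mul_eq_zero.1 e.symm).resolve_left hD
  rw [e1, e2, crg_dir_zero, add_zero] at e0
  exact ⟨(mul_eq_zero.1 e0.symm).resolve_right hD, e1, e2⟩

theorem crg_rank {a : Fin d → kk Λ} {c : kk Λ} (h0 : ev2 (rL E) a c 𝒬.χ = 0)
    (hD : ev2 (rL E) a c 𝒬.D ≠ 0) (h1 : ∀ ν θ, dir (rL E) a c ν θ 𝒬.χ = 0)
    (W : Submodule (kk Λ) (kk Λ × (Fin (N + 1) → kk Λ)))
    (hW : ∀ (t b : kk Λ) ν θ, (t, b • (fun i => ev2 (rL E) a c (𝒬.pp i)) +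
      fun i => dir (rL E) a c ν θ (𝒬.pp i)) ∈ W) : d + 3 ≤ finrank (kk Λ) W := by
  choose A hA using fun i => dir_lin (rL E) a c (𝒬.pp i)
  let Φ : (kk Λ × kk Λ × (Fin d → kk Λ) × kk Λ) →ₗ[kk Λ] kk Λ × (Fin (N + 1) → kk Λ) :=
    { toFun := fun z => (z.1, z.2.1 • (fun i => ev2 (rL E) a c (𝒬.pp i)) +
        fun i => dir (rL E) a c z.2.2.1 z.2.2.2 (𝒬.pp i))
      map_add' := fun z z' => by
        refine Prod.ext rfl (funext fun i => ?_)
        simp only [hA, Prod.fst_add, Prod.snd_add, Pi.add_apply, Pi.smul_apply, smul_eq_mul,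
          mul_add, Finset.sum_add_distrib]
        ring
      map_smul' := fun r z => by
        refine Prod.ext rfl (funext fun i => ?_)
        have e : ∑ k, A i k * (r * z.2.2.1 k) = r * ∑ k, A i k * z.2.2.1 k := by
          rw [Finset.mul_sum]
          exact Finset.sum_congr rfl fun k _ => by ring
        simp only [hA, Prod.smul_fst, Prod.smul_snd, Pi.add_apply, Pi.smul_apply, smul_eq_mul,
          RingHom.id_apply, e]
        ring }
  have hi : Function.Injective (Φ.codRestrict W fun z => hW _ _ _ _) := by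
    rw [injective_iff_map_eq_zero]
    rintro ⟨t, b, ν, θ⟩ hz
    have h2 : Φ (t, b, ν, θ) = 0 := congrArg Subtype.val hz
    obtain ⟨rfl, rfl, rfl⟩ := crg_inj h0 hD (h1 ν θ) (congrArg Prod.snd h2)
    have h3 : t = 0 := congrArg Prod.fst h2
    rw [h3]
    rfl
  have h4 := LinearMap.finrank_le_finrank_of_injective hi
  simp only [finrank_prod, finrank_self, finrank_fin_fun] at h4
  omega

end Hyp

end

variable {p : ℕ} {K Λ : Type} [Field K] [CharZero K] [NormedField Λ] [IsUltrametricDist Λ]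
  [IsAlgClosed Λ] [Algebra K Λ] [IsGalois K Λ] [Loc p K Λ] [Fact p.Prime] [CharP (kk Λ) p]
variable {B E : IntermediateField K Λ} {d : ℕ}

theorem crg_intg {R : Fin d → Λ[X]} {H : Λ[X]} (hR : ∀ k, Intg (R k)) (hH : Intg H)
    (f : MP d (OL E)) : Intg (ev2 (C.comp (OL E).subtype) R H f) := by
  induction f using dir_ind with
  | hc c => rw [dir_ev_const]; exact intg_C c.2.2
  | hv k => rw [dir_ev_var]; exact hR k
  | hX => rw [dir_ev_X]; exact hH
  | ha f g h1 h2 => rw [map_add]; exact h1.add h2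
  | hm f g h1 h2 => rw [map_mul]; exact h1.mul h2

theorem crg_over (T : Tower p B) (hE : E ≤ T.Ua) (f : MP d (OL E)) : ∃ n, 0 < n ∧
    ∀ (L : IntermediateField K Λ) (R : Fin d → Λ[X]) (H : Λ[X]), T.U n ≤ L →
      (∀ k, Over L (R k)) → Over L H → Over L (ev2 (C.comp (OL E).subtype) R H f) := by
  induction f using dir_ind with
  | hc c =>
    obtain ⟨n, hn, h⟩ := T.mem_Ua.1 (hE c.2.1)
    exact ⟨n, hn, fun L R H hL _ _ => by rw [dir_ev_const]; exact over_C (hL h)⟩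
  | hv k => exact ⟨1, one_pos, fun L R H _ hR _ => by rw [dir_ev_var]; exact hR k⟩
  | hX => exact ⟨1, one_pos, fun L R H _ _ hH => by rw [dir_ev_X]; exact hH⟩
  | ha f g h1 h2 =>
    obtain ⟨n, hn, h1⟩ := h1
    obtain ⟨m, hm, h2⟩ := h2
    refine ⟨n * m, Nat.mul_pos hn hm, fun L R H hL hR hH => ?_⟩
    rw [map_add]
    exact (h1 L R H ((T.mono hn (Nat.mul_pos hn hm) (dvd_mul_right _ _)).trans hL) hR hH).add
      (h2 L R H ((T.mono hm (Nat.mul_pos hn hm) (dvd_mul_left _ _)).trans hL) hR hH)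
  | hm f g h1 h2 =>
    obtain ⟨n, hn, h1⟩ := h1
    obtain ⟨m, hm, h2⟩ := h2
    refine ⟨n * m, Nat.mul_pos hn hm, fun L R H hL hR hH => ?_⟩
    rw [map_mul]
    exact (h1 L R H ((T.mono hn (Nat.mul_pos hn hm) (dvd_mul_right _ _)).trans hL) hR hH).mul
      (h2 L R H ((T.mono hm (Nat.mul_pos hn hm) (dvd_mul_left _ _)).trans hL) hR hH)

end Pool.Agent.ZeroCyc
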