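import Pool.Agent.Lib.MP_796ce4_ag.ZQ.CHyp
import Pool.Agent.Lib.MP_796ce4_ag.ZQ.CRG1
import Pool.Agent.Lib.MP_796ce4_ag.ZY.TotRam

/-! Regularity of the hypersurface model and the change of direction. -/

namespace Pool.Agent.ZeroCyc

open Polynomial Module
open scoped Classical IntermediateField PowerSeries

set_option linter.unusedSectionVars false

section

variable {K Λ : Type} [Field K] [CharZero K] [NormedField Λ] [IsUltrametricDist Λ] [IsAlgClosed Λ]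
  [Algebra K Λ] {N : ℕ} {J : Ideal (MvPolynomial (Fin (N + 1)) K)} {E L : IntermediateField K Λ}
  {d : ℕ} {π : Λ}

namespace Hyp

variable {𝒬 : Hyp J E d} {y : Fin d → Λ} {h : Λ}

/-- the hypersurface is regular where the model is exact -/
theorem REG (hX : RegX J π) (hL : E ≤ L) (hU : UnrF π L) (hy : ∀ k, y k ∈ OL L) (hh : h ∈ OL L)
    (h0 : ‖ev2 (OL E).subtype y h 𝒬.χ‖ < 1) (hD : ‖ev2 (OL E).subtype y h 𝒬.D‖ = 1)
    (hd : ∀ ν θ, (∀ i, ‖ν i‖ ≤ 1) → ‖θ‖ ≤ 1 → ‖dir (OL E).subtype y h ν θ 𝒬.χ‖ < 1) :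
    ‖π‖ ≤ ‖ev2 (OL E).subtype y h 𝒬.χ‖ := by
  by_contra hn
  rw [not_le] at hn
  have hy1 : ∀ k, ‖y k‖ ≤ 1 := fun k => (hy k).2
  have hr := fun q : MP d (OL E) => rs_ev2' hy1 hh.2 q
  have k0 : ev2 (rL E) (fun i => rs (y i)) (rs h) 𝒬.χ = 0 := by
    rw [← (hr _).2]
    exact (rs_eq_zero h0.le).2 h0
  have kD : ev2 (rL E) (fun i => rs (y i)) (rs h) 𝒬.D ≠ 0 := by
    rw [← (hr _).2]
    exact rs_ne_zero.2 hD
  have k1 : ∀ ν θ, dir (rL E) (fun i => rs (y i)) (rs h) ν θ 𝒬.χ = 0 := fun ν θ => by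
    choose ν' h1 h2 using fun i => rs_surj (ν i)
    obtain ⟨θ', h3, rfl⟩ := rs_surj θ
    rw [← funext h2, ← (rs_dir hy1 hh.2 h1 h3 _).2]
    exact (rs_eq_zero (hd _ _ h1 h3).le).2 (hd _ _ h1 h3)
  have ex : (fun a => rs (𝒬.pv y h a)) =
      fun a => ev2 (rL E) (fun i => rs (y i)) (rs h) (𝒬.pp a) := funext fun a => (hr _).2
  have hx1 : ∀ a, ‖𝒬.pv y h a‖ ≤ 1 := fun a => (hr _).1
  have hx : ‖𝒬.pv y h‖ = 1 := by
    by_contra hne
    have hz : (fun a => ev2 (rL E) (fun i => rs (y i)) (rs h) (𝒬.pp a)) = 0 := by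
      rw [← ex]
      funext a
      by_contra h2
      exact hne (cht_norm hx1 h2)
    have h3 := (crg_inj (b := 1) k0 kD (k1 0 0) (by
      rw [hz]
      funext a
      simp [crg_dir_zero])).1
    exact one_ne_zero h3
  have hG : ∀ G ∈ vJ J (⊥ : IntermediateField K Λ),
      ‖MvPolynomial.eval₂ (OL ⊥).subtype (𝒬.pv y h) G‖ < ‖π‖ := fun G hG => by
    obtain ⟨r, e⟩ := crg_dvd_vJ (𝒬 := 𝒬) hX hG
    have e2 := congrArg (ev2 (OL E).subtype y h) e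
    rw [crg_ev, MvPolynomial.eval₂_map, subtype_inc, map_mul] at e2
    have e3 : MvPolynomial.eval₂ (OL ⊥).subtype (𝒬.pv y h) G = _ := e2
    rw [e3, norm_mul]
    exact (mul_le_of_le_one_right (norm_nonneg _) (hr r).1).trans_lt hn
  obtain ⟨k, -, hk, hf⟩ := hX.reg L (𝒬.pv y h) hU
    (fun a => crg_mem hL (fun k => (hy k).1) hh.1 _) hx fun G h1 => (hG G h1).trans hX.lt
  have hs : (fun a => rs (𝒬.pv y h a)) ∈ tanS (rL ⊥) (vJ J (⊥ : IntermediateField K Λ))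
      fun a => rs (𝒬.pv y h a) := by
    refine (hX.cone ⊥).self_mem_tanS fun G h1 => ?_
    have h2 := (hG G h1).trans hX.lt
    rw [← (rs_mv (φ := (OL ⊥).subtype) (ψ := rL ⊥) (fun c => c.2.2) rL_apply hx1 G).2]
    exact (rs_eq_zero h2.le).2 h2
  have h5 := crg_rank k0 kD k1 (Text J π (𝒬.pv y h)) fun t b ν θ => mem_Text.2 fun G h1 => by
    have h2 : ‖MvPolynomial.eval₂ (OL ⊥).subtype (𝒬.pv y h) G / π‖ < 1 := by
      rw [norm_div, div_lt_one (norm_pos_iff.2 hX.ne)]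
      exact hG G h1
    have h3 : (fun i => dir (rL E) (fun i => rs (y i)) (rs h) ν θ (𝒬.pp i)) ∈
        tanS (rL ⊥) (vJ J (⊥ : IntermediateField K Λ)) fun a => rs (𝒬.pv y h a) := by
      intro G' h4
      have h6 := (crg_mult (rL E) (crg_dvd_vJ (𝒬 := 𝒬) hX h4) k0 ν θ (k1 ν θ)).2
      rwa [dir_comp, dG_map, rL_inc, ← ex] at h6
    rw [(rs_eq_zero h2.le).2 h2, mul_zero, zero_add, ← ex]
    exact Submodule.add_mem _ (Submodule.smul_mem _ b hs) h3 G h1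
  have h6 := 𝒬.dim k hk
  omega

/-- a multiple component is cut out to first order -/
theorem not_dvd_quot (hX : RegX J π) (hL : Big π E L) {ϖ : OL E} (hϖ : (ϖ : Λ) = π)
    {θ ζ γ : MP d (OL E)} (he : 𝒬.χ = θ * ζ + C (MvPolynomial.C ϖ) * γ) {g : MP d (kk Λ)}
    (hg : g.Monic) (hi : Irreducible g) (h1 : g ∣ mq (rL E) θ) (h2 : g ∣ mq (rL E) ζ)
    (hD : ¬g ∣ mq (rL E) 𝒬.D) : ¬g ∣ mq (rL E) γ := by
  intro h3
  have h4 : ∃ a c, ev2 (RingHom.id _) a c g = 0 ∧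
      ev2 (RingHom.id _) a c (mq (rL E) 𝒬.D) ≠ 0 := by
    by_contra hn
    refine hD (dvd_of_vanish hg hi fun a c h5 => ?_)
    by_contra h6
    exact hn ⟨a, c, h5, h6⟩
  obtain ⟨a, c, h5, h6⟩ := h4
  choose y hy hy1 hy2 using fun k => hL.2.2 (a k)
  obtain ⟨h, hh, hh1, rfl⟩ := hL.2.2 c
  obtain rfl : (fun k => rs (y k)) = a := funext hy2
  have hr := fun q : MP d (OL E) => rs_ev2' hy1 hh1 q
  have key : ∀ q : MP d (OL E), g ∣ mq (rL E) q →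
      ev2 (rL E) (fun k => rs (y k)) (rs h) q = 0 ∧ ‖ev2 (OL E).subtype y h q‖ ≤ ‖π‖ := by
    rintro q ⟨r, e⟩
    have e2 := congrArg (ev2 (RingHom.id _) (fun k => rs (y k)) (rs h)) e
    rw [ev2_mq, RingHom.id_comp, map_mul, h5, zero_mul] at e2
    exact ⟨e2, hL.2.1 _ (crg_mem hL.1 hy hh q)
      ((rs_eq_zero (hr q).1).1 ((hr q).2.trans e2))⟩
  have hp : 0 < ‖π‖ := norm_pos_iff.2 hX.ne
  have h7 : ‖ev2 (OL E).subtype y h 𝒬.χ‖ ≤ ‖π‖ * ‖π‖ := by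
    rw [he, map_add, map_mul, map_mul, dir_ev_const]
    refine (IsUltrametricDist.norm_add_le_max _ _).trans (max_le ?_ ?_)
    · rw [norm_mul]
      exact mul_le_mul (key _ h1).2 (key _ h2).2 (norm_nonneg _) hp.le
    · rw [norm_mul, Subring.subtype_apply, hϖ]
      exact mul_le_mul_of_nonneg_left (key _ h3).2 hp.le
  have h8 : ‖π‖ * ‖π‖ < ‖π‖ := mul_lt_of_lt_one_right hp hX.lt
  have h9 : rL E ϖ = 0 := by
    rw [rL_apply, hϖ]
    exact (rs_eq_zero hX.lt.le).2 hX.lt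
  rw [ev2_mq, RingHom.id_comp, ← (hr _).2, rs_ne_zero] at h6
  have h10 := REG (𝒬 := 𝒬) hX hL.1 hL.2.1 (fun k => ⟨hy k, hy1 k⟩) ⟨hh, hh1⟩
    (h7.trans_lt (h8.trans hX.lt)) h6 fun ν θ' hν hθ => by
      have h11 := rs_dir hy1 hh1 hν hθ 𝒬.χ
      refine (rs_eq_zero h11.1).1 (h11.2.trans ?_)
      rw [he, dir_add, dir_mul, dir_mul, dir_const, dir_ev_const, (key _ h1).1, (key _ h2).1, h9]
      simp
  exact absurd (h10.trans h7) (not_le.2 h8)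

/-- the model after a change of the direction of projection -/
theorem exists_chg (𝒬 : Hyp J E d) (v : Fin d → OL E) {u : OL E} (hu : IsUnit u)
    (h1 : (C (MvPolynomial.C u) * chg v 𝒬.χ).coeff 𝒬.χ.natDegree = 1) : ∃ 𝒬' : Hyp J E d,
      𝒬'.χ = C (MvPolynomial.C u) * chg v 𝒬.χ ∧ (∀ x, 𝒬.At x → 𝒬'.At x) ∧
      ∀ x, (fun k => 𝒬'.cy x k + v k * 𝒬'.ch x) = 𝒬.cy x ∧ 𝒬'.ch x = 𝒬.ch x := by
  have hs : ∀ (w : Fin (N + 1) → Λ) k, lv (OL E).subtype (𝒬.s k - v k • 𝒬.H) w +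
      (OL E).subtype (v k) * lv (OL E).subtype 𝒬.H w = lv (OL E).subtype (𝒬.s k) w := fun w k => by
    rw [lv_sub_left, lv_smul_left, sub_add_cancel]
  have hc : ∀ (w : Fin (N + 1) → Λ) (f : MP d (OL E)), ev2 (OL E).subtype
      (fun k => lv (OL E).subtype (𝒬.s k - v k • 𝒬.H) w) (lv (OL E).subtype 𝒬.H w) (chg v f) =
        ev2 (OL E).subtype (fun k => lv (OL E).subtype (𝒬.s k) w) (lv (OL E).subtype 𝒬.H w) f :=
    fun w f => by simp only [ev2_chg, hs]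
  have ht := (𝒬.td.chg v).const_mul u
  have hle : (C (MvPolynomial.C u) * chg v 𝒬.χ).natDegree ≤ 𝒬.χ.natDegree :=
    natDegree_le_iff_coeff_eq_zero.2 fun i hi => by
      by_contra h2
      have := ht i h2
      omega
  have hm := monic_of_natDegree_le_of_coeff_eq_one _ hle h1
  have hn : (C (MvPolynomial.C u) * chg v 𝒬.χ).natDegree = 𝒬.χ.natDegree :=
    natDegree_eq_of_le_of_coeff_ne_zero hle (by rw [h1]; exact one_ne_zero)
  have hu' : IsUnit ((OL E).subtype u) := hu.map _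
  have hon : ∀ w, OnX J w → lv (OL E).subtype 𝒬.s₀ w = 1 → ev2 (OL E).subtype
      (fun k => lv (OL E).subtype (𝒬.s k - v k • 𝒬.H) w) (lv (OL E).subtype 𝒬.H w)
        (C (MvPolynomial.C u) * chg v 𝒬.χ) = 0 := fun w hw h2 => by
    rw [map_mul, hc, 𝒬.on w hw h2, mul_zero]
  refine ⟨⟨𝒬.s₀, fun k => 𝒬.s k - v k • 𝒬.H, 𝒬.H, C (MvPolynomial.C u) * chg v 𝒬.χ, chg v 𝒬.D,
    fun a => chg v (𝒬.pp a), hm, hn.symm ▸ ht, hon, fun w hw h2 a => ?_, fun y h h2 => ?_,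
    fun w hw h2 h3 => 𝒬.int w hw h2 fun k => ?_, ?_, 𝒬.dim⟩, rfl, fun x hx => ⟨hx.prim, hx.one, ?_⟩,
    fun x => ⟨funext fun k => hs _ k, rfl⟩⟩
  · rw [hc, hc]
    exact 𝒬.pt w hw h2 a
  · rw [map_mul, dir_ev_const, ev2_chg] at h2
    obtain ⟨w, hw, h3, h4, h5⟩ := 𝒬.surj _ _ ((mul_eq_zero.1 h2).resolve_left hu'.ne_zero)
    refine ⟨w, hw, h3, funext fun k => ?_, h5⟩
    have h6 := hs w k
    rw [h5, congrFun h4 k] at h6
    exact add_right_cancel h6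
  · have h4 := norm_le_of_ev2 h3 hm (hon w hw h2)
    rw [← hs]
    refine (IsUltrametricDist.norm_add_le_max _ _).trans (max_le (h3 k) ?_)
    rw [norm_mul]
    exact mul_le_one₀ (v k).2.2 (norm_nonneg _) h4
  · have e : mq (OL E).subtype (C (MvPolynomial.C u)) =
        (C (MvPolynomial.C ((OL E).subtype u)) : MP d Λ) := by simp
    rw [map_mul, mq_chg, e, irreducible_isUnit_mul ((hu'.map MvPolynomial.C).map C),
      irreducible_chg]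
    exact 𝒬.irr
  · exact (congrArg norm (hc (𝒬.nv x) 𝒬.D)).trans hx.hD

/-- a good direction -/
theorem exists_good (hX : RegX J π) (hE : Gr (rL E)) (𝒬 : Hyp J E d) {P : Fin (N + 1) → Λ}
    (hP : ∃ ν θ, dir (OL E).subtype (𝒬.cy P) (𝒬.ch P) ν θ 𝒬.χ ≠ 0) : ∃ 𝒬' : Hyp J E d,
      (∀ x, 𝒬.At x → 𝒬'.At x) ∧ Sep (mq (rL E) 𝒬'.χ) ∧
      ev2 (OL E).subtype (𝒬'.cy P) (𝒬'.ch P) (derivative 𝒬'.χ) ≠ 0 := by
  obtain ⟨A, hA⟩ := dir_lin (OL E).subtype (𝒬.cy P) (𝒬.ch P) 𝒬.χ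
  set b := ev2 (OL E).subtype (𝒬.cy P) (𝒬.ch P) (derivative 𝒬.χ) with hb
  have hF : ∀ ν : Fin d → Λ, MvPolynomial.eval ν (lp A + MvPolynomial.C b) =
      dir (OL E).subtype (𝒬.cy P) (𝒬.ch P) ν 1 𝒬.χ := fun ν => by
    rw [hA, map_add, chb_eval_lp, MvPolynomial.eval_C, mul_one]
    exact congrArg (· + b) (Finset.sum_congr rfl fun k _ => mul_comm _ _)
  have hF0 : lp A + MvPolynomial.C b ≠ 0 := fun h0 => by
    obtain ⟨ν, θ, h1⟩ := hP
    have h2 := hF 0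
    have h3 := hF ν
    rw [h0, map_zero, hA] at h2 h3
    have h4 : b = 0 := by simpa using h2.symm
    rw [h4, zero_mul] at h3
    rw [hA, h4, zero_mul] at h1
    exact h1 h3.symm
  obtain ⟨m, F₀, hm, e3, h3⟩ := ZeroCyc.exists_prim (E := (⊤ : IntermediateField K Λ)) hF0
    fun _ => IntermediateField.mem_top
  obtain ⟨Θ₁, e1, h1⟩ := 𝒬.td.exists_top
  obtain ⟨Θ₂, h2, hs⟩ := exists_sep_dir (f := mq (rL E) 𝒬.χ) (𝒬.monic.map _)
  have h4 : MvPolynomial.map (rL E) Θ₁ ≠ 0 := fun h0 => by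
    have h5 : Θ₁.coeff 0 = 1 := MvPolynomial.C_injective (Fin d) _ (by
      rw [e1, map_one]
      exact 𝒬.monic.coeff_natDegree)
    have h6 := congrArg (MvPolynomial.coeff 0) h0
    rw [MvPolynomial.coeff_map, h5, map_one, MvPolynomial.coeff_zero] at h6
    exact one_ne_zero h6
  obtain ⟨v, hv⟩ := hE.avoid _ (mul_ne_zero (mul_ne_zero h4 h2) h3)
  rw [map_mul, map_mul] at hv
  have v1 := left_ne_zero_of_mul (left_ne_zero_of_mul hv)
  have v2 := right_ne_zero_of_mul (left_ne_zero_of_mul hv)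
  have v3 := right_ne_zero_of_mul hv
  have w1 : IsUnit (MvPolynomial.eval v Θ₁) := hE.loc _ (by
    rw [MvPolynomial.eval_map] at v1
    rw [MvPolynomial.eval₂_comp]
    exact v1)
  obtain ⟨u, hu⟩ := w1.exists_left_inv
  have hu' : IsUnit u := IsUnit.of_mul_eq_one _ hu
  obtain ⟨𝒬', e, hAt, hc⟩ := 𝒬.exists_chg v hu' (by
    rw [coeff_C_mul, h1, ← map_mul, hu, map_one])
  refine ⟨𝒬', hAt, hs _ (rL E u) _ v2 (hu'.map _).ne_zero ?_, ?_⟩
  · rw [e, map_mul, mq_chg]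
    simp
  · rw [e, derivative_C_mul, map_mul, dir_ev_const, ev2_der_chg]
    refine mul_ne_zero (hu'.map (OL E).subtype).ne_zero ?_
    have e4 : (fun k => 𝒬'.cy P k + (OL E).subtype (v k) * 𝒬'.ch P) = 𝒬.cy P := (hc P).1
    rw [e4, (hc P).2, ← hF, e3, map_mul, MvPolynomial.eval_C, MvPolynomial.eval_map]
    refine mul_ne_zero hm fun h0 => v3 ?_
    have e5 : (fun i => rL E (v i)) = fun i => rs ((OL E).subtype (v i)) :=
      funext fun i => rL_apply _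
    rw [e5, Pre.chh_mv (v := fun i => (OL E).subtype (v i)) (fun i => (v i).2.2), h0, rs_zero]

end Hyp

end

variable {p : ℕ} {K Λ : Type} [Field K] [CharZero K] [NormedField Λ] [IsUltrametricDist Λ]
  [IsAlgClosed Λ] [Algebra K Λ] [IsGalois K Λ] [Loc p K Λ] [Fact p.Prime] [CharP (kk Λ) p]
variable {N : ℕ} {J : Ideal (MvPolynomial (Fin (N + 1)) K)} {B E : IntermediateField K Λ}
  {d : ℕ} {π : Λ}

/-- a regular hypersurface has a smooth generic fibre -/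
theorem GRAD (T : Tower p B) (hE : E ≤ T.Ua) (hU : UnrF π B) (hπ₀ : π ≠ 0) (hπ : ‖π‖ < 1)
    {χ : MP d (OL E)} {y : Fin d → Λ} {h : Λ} (hy : ∀ k, ‖y k‖ ≤ 1) (hh : ‖h‖ ≤ 1)
    (h0 : ev2 (OL E).subtype y h χ = 0)
    (hr : ∀ (y₀ : Fin d → Λ) (h₀ : Λ), (∀ k, y₀ k ∈ T.Ua) → h₀ ∈ T.Ua → (∀ k, ‖y₀ k - y k‖ < 1) →
      ‖h₀ - h‖ < 1 → (∀ ν θ, (∀ i, ‖ν i‖ ≤ 1) → ‖θ‖ ≤ 1 →
        ‖dir (OL E).subtype y₀ h₀ ν θ χ‖ < 1) → ‖π‖ ≤ ‖ev2 (OL E).subtype y₀ h₀ χ‖) :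
    ∃ ν θ, dir (OL E).subtype y h ν θ χ ≠ 0 := by
  by_contra hn
  have hz : ∀ ν θ, dir (OL E).subtype y h ν θ χ = 0 := fun ν θ => by
    by_contra h1
    exact hn ⟨ν, θ, h1⟩
  obtain ⟨n, hn0, hO⟩ := crg_over T hE χ
  have := T.fin n hn0
  have : Finite ↥(insert h (Set.range y)) := ((Set.finite_range y).insert h).to_subtype
  have : FiniteDimensional K (IntermediateField.adjoin K (insert h (Set.range y))) :=
    IntermediateField.finiteDimensional_adjoin fun x _ => Algebra.IsIntegral.isIntegral x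
  let L := T.U n ⊔ IntermediateField.adjoin K (insert h (Set.range y))
  have hL : ∀ x ∈ insert h (Set.range y), x ∈ L := fun x hx =>
    (le_sup_right : _ ≤ L) (IntermediateField.subset_adjoin _ _ hx)
  obtain ⟨m, hm, hnm, hle, hres⟩ := T.exists_res hn0 (L := L) le_sup_left
  obtain ⟨e, ϖ, s, he, -, hϖ, hs, -, hμ, hinj, hlt, hpoly⟩ := exists_totram (p := p) hle hres
  choose R hR1 hR2 hR3 using fun k =>
    hpoly (y k) (hL _ (Set.mem_insert_of_mem _ (Set.mem_range_self k))) (hy k)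
  obtain ⟨H, hH1, hH2, hH3⟩ := hpoly h (hL _ (Set.mem_insert _ _)) hh
  have hΦ1 := hO _ R H (T.mono hn0 hm hnm) hR1 hH1
  have hΦ2 := crg_intg hR2 hH2 χ
  have e0 := crg_eval (OL E).subtype R H 0 χ
  have e1 := crg_eval (OL E).subtype R H ϖ χ
  have e2 := dir_curve (OL E).subtype χ R H ϖ
  rw [funext hR3, hH3] at e1 e2
  rw [h0] at e1
  rw [hz] at e2
  set Φ := ev2 (C.comp (OL E).subtype) R H χ with hΦ
  have hd : (∏ t, (X - C (s t ϖ))) ^ 2 ∣ Φ := by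
    rw [← Finset.prod_pow]
    refine Finset.prod_dvd_of_coprime (fun t _ t' _ htt => ?_) fun t _ => crg_sq ?_ ?_
    · exact (pairwise_coprime_X_sub_C hinj htt).pow
    · rw [← hΦ1.apply_eval (hs t), e1, map_zero]
    · rw [← hΦ1.derivative.apply_eval (hs t), e2, map_zero]
  have hmon : ((∏ t, (X - C (s t ϖ))) ^ 2 : Λ[X]).Monic :=
    (monic_prod_of_monic _ _ fun t _ => monic_X_sub_C _).pow 2
  have hI : Intg (Φ /ₘ (∏ t, (X - C (s t ϖ))) ^ 2) := hΦ2.divByMonic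
    ((Intg.prod fun t _ => intg_X.sub (intg_C (by rw [Loc.norm_gal (p := p)]; exact hϖ.le))).pow 2)
    hmon
  have e3 := modByMonic_add_div Φ ((∏ t, (X - C (s t ϖ))) ^ 2)
  rw [(modByMonic_eq_zero_iff_dvd hmon).2 hd, zero_add] at e3
  have hp : 0 < ‖π‖ := norm_pos_iff.2 hπ₀
  have h1 : ‖(∏ t, (X - C (s t ϖ))).eval 0‖ ≤ ‖π‖ := by
    rw [← coeff_zero_eq_eval_zero]
    exact T.unrF hU hm _ (hμ 0) (hlt 0 he)
  have h2 : ‖Φ.eval 0‖ ≤ ‖π‖ ^ 2 := by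
    rw [← e3, eval_mul, eval_pow, norm_mul, norm_pow]
    exact (mul_le_of_le_one_right (by positivity) (hI.eval_le (by simp))).trans
      (pow_le_pow_left₀ (norm_nonneg _) h1 2)
  have near : ∀ Q : Λ[X], Intg Q → ‖Q.eval 0 - Q.eval ϖ‖ < 1 := fun Q hQ =>
    (hQ.eval_sub_le (by simp) hϖ.le).trans_lt (by rwa [zero_sub, norm_neg])
  have mem : ∀ Q : Λ[X], Over (T.U m) Q → Q.eval 0 ∈ T.Ua := fun Q hQ =>
    T.mem_Ua.2 ⟨m, hm, hQ.eval (zero_mem _)⟩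
  have n1 : ∀ k, ‖(R k).eval 0 - y k‖ < 1 := fun k => hR3 k ▸ near _ (hR2 k)
  have n2 : ‖H.eval 0 - h‖ < 1 := hH3 ▸ near _ hH2
  have h3 := hr (fun k => (R k).eval 0) (H.eval 0) (fun k => mem _ (hR1 k)) (mem _ hH1) n1 n2
    fun ν θ hν hθ => by
      have h4 := rs_dir (fun k => (cht_near (hy k) (n1 k)).1) (cht_near hh n2).1 hν hθ χ
      refine (rs_eq_zero h4.1).1 (h4.2.trans ?_)
      rw [funext fun k => (cht_near (hy k) (n1 k)).2, (cht_near hh n2).2,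
        ← (rs_dir hy hh hν hθ χ).2, hz, rs_zero]
  rw [← e0] at h3
  have h5 : ‖π‖ ^ 2 < ‖π‖ := by
    rw [pow_two]
    exact mul_lt_of_lt_one_right hp hπ
  exact absurd (h3.trans h2) (not_le.2 h5)

theorem Hyp.At.grad (hX : RegX J π) (T : Tower p B) (hE : E ≤ T.Ua) (hU : UnrF π B)
    {𝒬 : Hyp J E d} {P : Fin (N + 1) → Λ} (hP : 𝒬.At P) :
    ∃ ν θ, dir (OL E).subtype (𝒬.cy P) (𝒬.ch P) ν θ 𝒬.χ ≠ 0 := by
  obtain ⟨h1, h2, h3, -⟩ := Hyp.coord hX hP.prim hP.one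
  refine GRAD T hE hU hX.ne hX.lt h1 h2 h3 fun y₀ h₀ m1 m2 n1 n2 hd => ?_
  have a1 := fun k => cht_near (h1 k) (n1 k)
  have a2 := cht_near h2 n2
  have key : ∀ q : MP d (OL E), rs (ev2 (OL E).subtype y₀ h₀ q) =
      rs (ev2 (OL E).subtype (𝒬.cy P) (𝒬.ch P) q) := fun q => by
    rw [(rs_ev2' (fun k => (a1 k).1) a2.1 q).2, (rs_ev2' h1 h2 q).2, a2.2,
      funext fun k => (a1 k).2]
  refine Hyp.REG hX hE (T.big hE hU).2.1 (fun k => ⟨m1 k, (a1 k).1⟩) ⟨m2, a2.1⟩ ?_ ?_ hd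
  · rw [← rs_eq_zero (rs_ev2' (fun k => (a1 k).1) a2.1 _).1, key, h3, rs_zero]
  · rw [← rs_ne_zero, key, rs_ne_zero]
    exact hP.hD

end Pool.Agent.ZeroCyc
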