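import Pool.Agent.Lib.MP_796ce4_ag.ZQ.QChart
import Pool.Agent.Lib.MP_796ce4_ag.ZY.ChT
import Pool.Agent.Lib.MP_796ce4_ag.ZY.ChR
import Pool.Agent.Lib.MP_796ce4_ag.ZY.ChS
import Pool.Agent.Lib.MP_796ce4_ag.ZY.ChG

/-! What is used of a regular model, and test points. -/

namespace Pool.Agent.ZeroCyc

open Polynomial Module
open scoped Classical IntermediateField PowerSeries

set_option linter.unusedSectionVars false

section

variable {K Λ : Type} [Field K] [NormedField Λ] [IsUltrametricDist Λ] [Algebra K Λ] {N : ℕ}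
  (J : Ideal (MvPolynomial (Fin (N + 1)) K))

/-- the integral polynomials over `E` that vanish on the cone -/
abbrev vJ (E : IntermediateField K Λ) : Ideal (MvPolynomial (Fin (N + 1)) (OL E)) :=
  vI (OL E).subtype {v | OnX J v}

/-- the tangent space of the total space of the cone -/
noncomputable def Text (π : Λ) (x : Fin (N + 1) → Λ) :
    Submodule (kk Λ) (kk Λ × (Fin (N + 1) → kk Λ)) where
  carrier := {z | ∀ G ∈ vJ J (⊥ : IntermediateField K Λ),
    z.1 * rs (MvPolynomial.eval₂ (OL ⊥).subtype x G / π) +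
      dG (rL ⊥) (fun a => rs (x a)) z.2 G = 0}
  zero_mem' := fun G _ => by simp [dG]
  add_mem' := fun {z z'} h h' G hG => by
    have e : dG (rL ⊥) (fun a => rs (x a)) (z.2 + z'.2) G =
        dG (rL ⊥) (fun a => rs (x a)) z.2 G + dG (rL ⊥) (fun a => rs (x a)) z'.2 G := by
      simp only [dG, Pi.add_apply, mul_add, Finset.sum_add_distrib]
    rw [Prod.fst_add, Prod.snd_add, e]
    linear_combination h G hG + h' G hG
  smul_mem' := fun c z h G hG => by
    have e : dG (rL ⊥) (fun a => rs (x a)) (c • z.2) G =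
        c * dG (rL ⊥) (fun a => rs (x a)) z.2 G := by
      simp only [dG, Finset.mul_sum, Pi.smul_apply, smul_eq_mul]
      exact Finset.sum_congr rfl fun a _ => by ring
    rw [Prod.smul_fst, Prod.smul_snd, e, smul_eq_mul]
    linear_combination c * h G hG

variable (Λ) in
/-- the dimension of the cone is at least `k` -/
def DimA (k : ℕ) : Prop :=
  ∀ E : IntermediateField K Λ, DimGe (OL E).subtype {v : Fin (N + 1) → Λ | OnX J v} k

/-- the cone over a regular model with geometrically irreducible generic fibre -/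
structure RegX (π : Λ) : Prop where
  smul : ∀ (v : Fin (N + 1) → Λ) (c : Λ), OnX J v → OnX J (c • v)
  prime : ∀ F G : MvPolynomial (Fin (N + 1)) Λ,
    (∀ v, OnX J v → MvPolynomial.eval v (F * G) = 0) →
      (∀ v, OnX J v → MvPolynomial.eval v F = 0) ∨ ∀ v, OnX J v → MvPolynomial.eval v G = 0
  mem : π ∈ (⊥ : IntermediateField K Λ)
  ne : π ≠ 0
  lt : ‖π‖ < 1
  unr : UnrF π (⊥ : IntermediateField K Λ)
  reg : ∀ (L : IntermediateField K Λ) (x : Fin (N + 1) → Λ), UnrF π L → (∀ a, x a ∈ L) →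
    ‖x‖ = 1 → (∀ G ∈ vJ J (⊥ : IntermediateField K Λ),
      ‖MvPolynomial.eval₂ (OL ⊥).subtype x G‖ < 1) →
        ∃ k, 0 < k ∧ DimA Λ J k ∧ finrank (kk Λ) (Text J π x) ≤ k + 1

/-- a function that does not vanish on `V` is not a zero divisor on the reduced special fibre -/
def Test (V : Finset (Fin (N + 1) → Λ)) : Prop :=
  ∀ F G : MvPolynomial (Fin (N + 1)) (kk Λ),
    (∀ v : Fin (N + 1) → Λ, PrimX J v → MvPolynomial.eval (fun a => rs (v a)) (F * G) = 0) →
    (∀ v ∈ V, MvPolynomial.eval (fun a => rs (v a)) G ≠ 0) →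
      ∀ v : Fin (N + 1) → Λ, PrimX J v → MvPolynomial.eval (fun a => rs (v a)) F = 0

/-- an unramified extension of `E` that contains lifts of all residues -/
def Big (π : Λ) (E L : IntermediateField K Λ) : Prop :=
  E ≤ L ∧ UnrF π L ∧ ∀ a : kk Λ, ∃ x ∈ L, ‖x‖ ≤ 1 ∧ rs x = a

variable {J} {π : Λ}

theorem mem_Text {x : Fin (N + 1) → Λ} {z : kk Λ × (Fin (N + 1) → kk Λ)} : z ∈ Text J π x ↔
    ∀ G ∈ vJ J (⊥ : IntermediateField K Λ),
      z.1 * rs (MvPolynomial.eval₂ (OL ⊥).subtype x G / π) +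
        dG (rL ⊥) (fun a => rs (x a)) z.2 G = 0 := Iff.rfl

theorem Test.mono {V V' : Finset (Fin (N + 1) → Λ)} (h : Test J V) (hV : V ⊆ V') : Test J V' :=
  fun F G h1 h2 => h F G h1 fun v hv => h2 v (hV hv)

theorem RegX.cone (h : RegX J π) (E : IntermediateField K Λ) :
    Cone (OL E).subtype {v : Fin (N + 1) → Λ | OnX J v} := by
  refine ⟨Subring.subtype_injective _, fun c v hv => h.smul v c hv, fun F G hFG => ?_,
    fun v hv G hG => ?_⟩
  · have h1 := h.prime (MvPolynomial.map (OL E).subtype F) (MvPolynomial.map (OL E).subtype G)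
      fun v hv => by
        rw [← map_mul, MvPolynomial.eval_map]
        exact hFG v hv
    refine h1.imp (fun h2 v hv => ?_) fun h2 v hv => ?_
    · rw [← MvPolynomial.eval_map]
      exact h2 v hv
    · rw [← MvPolynomial.eval_map]
      exact h2 v hv
  · have e : ∀ w : Fin (N + 1) → Λ, MvPolynomial.aeval w G =
        MvPolynomial.eval w (MvPolynomial.map (algebraMap K Λ) G) := fun w =>
      (MvPolynomial.eval_map _ _ _).symm
    by_cases h0 : MvPolynomial.map (algebraMap K Λ) G = 0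
    · rw [e, h0, map_zero]
    obtain ⟨m, F₀, h1, h2, -⟩ := exists_prim (E := E) h0 fun m => by
      rw [MvPolynomial.coeff_map]
      exact E.algebraMap_mem _
    have e' : ∀ w : Fin (N + 1) → Λ, MvPolynomial.aeval w G =
        (MvPolynomial.map (algebraMap K Λ) G).coeff m *
          MvPolynomial.eval₂ (OL E).subtype w F₀ := fun w => by
      rw [e, ← MvPolynomial.eval_map, ← MvPolynomial.eval_C (f := w) (MvPolynomial.coeff m _),
        ← map_mul, ← h2]
    rw [e', hv F₀ fun w hw => (mul_eq_zero.1 ((e' w).symm.trans (hw G hG))).resolve_left h1,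
      mul_zero]
theorem creg_rs {M : ℕ} {E : IntermediateField K Λ} {v : Fin M → Λ} (hv : ∀ a, ‖v a‖ ≤ 1)
    (G : MvPolynomial (Fin M) (OL E)) : ‖MvPolynomial.eval₂ (OL E).subtype v G‖ ≤ 1 ∧
      rs (MvPolynomial.eval₂ (OL E).subtype v G) =
        MvPolynomial.eval₂ (rL E) (fun a => rs (v a)) G :=
  rs_mv (φ := (OL E).subtype) (ψ := rL E) (fun c => c.2.2) rL_apply hv G
theorem RegX.tan (h : RegX J π) {E L : IntermediateField K Λ} (hL : Big π E L)
    {v : Fin (N + 1) → Λ} (hv : PrimX J v) : ∃ k, 0 < k ∧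
      DimGe (OL E).subtype {v : Fin (N + 1) → Λ | OnX J v} k ∧
      finrank (kk Λ) (tanS (rL E) (vJ J E) fun a => rs (v a)) ≤ k + 1 := by
  choose x hx h1 h2 using fun a => hL.2.2 (rs (v a))
  have e : (fun a => rs (x a)) = fun a => rs (v a) := funext h2
  obtain ⟨i, hi⟩ := exists_norm_eq_one hv.2
  have hn : ‖x‖ = 1 := le_antisymm ((pi_norm_le_iff_of_nonneg zero_le_one).2 h1)
    ((rs_ne_zero.1 (h2 i ▸ rs_ne_zero.2 hi)).ge.trans (norm_le_pi_norm x i))
  obtain ⟨k, k0, k1, k2⟩ := h.reg L x hL.2.1 hx hn fun G hG => by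
    rw [← rs_eq_zero (creg_rs h1 G).1, (creg_rs h1 G).2, e,
      ← (creg_rs (norm_apply_le hv.2) G).2, hG v hv.1, rs_zero]
  refine ⟨k, k0, k1 E, le_trans ?_ k2⟩
  refine LinearMap.finrank_le_finrank_of_injective
    (f := ((LinearMap.inr (kk Λ) (kk Λ) _).comp (Submodule.subtype _)).codRestrict (Text J π x)
      fun w => mem_Text.2 fun G hG => ?_) fun w w' e' =>
    Subtype.ext (congrArg Prod.snd (congrArg Subtype.val e'))
  have h3 := w.2 (MvPolynomial.map (inc bot_le) G) fun u hu => by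
    rw [MvPolynomial.eval₂_map, subtype_inc]
    exact hG u hu
  rw [dG_map, rL_inc] at h3
  rw [e]
  exact (congrArg₂ (· + ·) (zero_mul _) h3).trans (add_zero 0)
theorem nz_one (B : IntermediateField K Λ) : NZ J (1 : MvPolynomial (Fin (N + 1)) (OL B)) :=
  ⟨⟨0, MvPolynomial.isHomogeneous_one _ _⟩, fun _ _ _ h v hv =>
    h v hv (by rw [MvPolynomial.eval₂_one, norm_one])⟩
theorem creg_nz [IsAlgClosed Λ] (hc : ∀ (v : Fin (N + 1) → Λ) (c : Λ), OnX J v → OnX J (c • v))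
    {B : IntermediateField K Λ} {Ξ : MvPolynomial (Fin (N + 1)) (OL B)} (hΞ : NZ J Ξ)
    (F : MvPolynomial (Fin (N + 1)) (kk Λ))
    (h : ∀ v : Fin (N + 1) → Λ, PrimX J v → ‖MvPolynomial.eval₂ (OL B).subtype v Ξ‖ = 1 →
      MvPolynomial.eval (fun a => rs (v a)) F = 0) {v : Fin (N + 1) → Λ} (hv : PrimX J v) :
    MvPolynomial.eval (fun a => rs (v a)) F = 0 := by
  obtain ⟨i, hi⟩ := exists_norm_eq_one hv.2
  obtain ⟨⟨k, hk⟩, hΞ⟩ := hΞ
  have h1 : MvPolynomial.eval₂ (RingHom.id _) (fun a => rs (v a)) (F * MvPolynomial.X i) = 0 := by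
    rw [cha_eval₂_sum_comp]
    refine Finset.sum_eq_zero fun j _ => hΞ _ j
      (MvPolynomial.homogeneousComponent_isHomogeneous j _) (fun u hu hu' =>
        eval₂_component_eq_zero (RingHom.id _) _ _ (fun c => ?_) j) v hv
    rw [MvPolynomial.eval₂_mul, MvPolynomial.eval₂_X]
    by_cases h0 : c = 0
    · rw [Pi.smul_apply, h0, smul_eq_mul, zero_mul, mul_zero]
    obtain ⟨t, ht, rfl⟩ := rs_surj c
    have h2 := rs_ne_zero.1 h0
    have h3 := h (t • u) ⟨hc u t hu.1, by rw [norm_smul, h2, hu.2, one_mul]⟩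
      (by rw [eval₂_smul_homog hk, norm_mul, norm_pow, h2, hu', one_pow, one_mul])
    have e : (fun a => rs ((t • u) a)) = rs t • fun a => rs (u a) :=
      funext fun a => rs_mul ht (norm_apply_le hu.2 a)
    rw [e] at h3
    exact mul_eq_zero_of_left h3 _
  rw [MvPolynomial.eval₂_mul, MvPolynomial.eval₂_X] at h1
  exact (mul_eq_zero.1 h1).resolve_right (rs_ne_zero.2 hi)
theorem exists_test [IsAlgClosed Λ] (hc : ∀ (v : Fin (N + 1) → Λ) (c : Λ), OnX J v → OnX J (c • v))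
    {B : IntermediateField K Λ} {Ξ : MvPolynomial (Fin (N + 1)) (OL B)} (hΞ : NZ J Ξ) :
    ∃ V : Finset (Fin (N + 1) → Λ), Test J V ∧
      ∀ v ∈ V, PrimX J v ∧ ‖MvPolynomial.eval₂ (OL B).subtype v Ξ‖ = 1 := by
  obtain ⟨I, hI⟩ : ∃ I : Ideal (MvPolynomial (Fin (N + 1)) (kk Λ)), ∀ F, F ∈ I ↔
      ∀ v : Fin (N + 1) → Λ, PrimX J v → MvPolynomial.eval (fun a => rs (v a)) F = 0 :=
    ⟨vI (RingHom.id _) {x | ∃ v : Fin (N + 1) → Λ, PrimX J v ∧ x = fun a => rs (v a)}, fun F =>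
      ⟨fun h v hv => h _ ⟨v, hv, rfl⟩, fun h x ⟨v, hv, e⟩ => e ▸ h v hv⟩⟩
  have hr : ∀ F, (∀ P ∈ I.minimalPrimes, F ∈ P) → F ∈ I := fun F h => by
    obtain ⟨n, hn⟩ : F ∈ I.radical := I.sInf_minimalPrimes ▸ Ideal.mem_sInf.2 fun {P} => h P
    exact (hI F).2 fun v hv =>
      eq_zero_of_pow_eq_zero (map_pow (MvPolynomial.eval _) F n ▸ (hI _).1 hn v hv)
  have hf := Ideal.finite_minimalPrimes_of_isNoetherianRing _ I
  have key : ∀ P ∈ I.minimalPrimes, ∃ v : Fin (N + 1) → Λ,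
      (PrimX J v ∧ ‖MvPolynomial.eval₂ (OL B).subtype v Ξ‖ = 1) ∧
        ∀ G ∈ P, MvPolynomial.eval (fun a => rs (v a)) G = 0 := fun P hP => by
    have h1 : ¬(hf.toFinset.erase P).inf id ≤ P := fun h => by
      obtain ⟨Q, hQ, h2⟩ := hP.1.1.inf_le'.1 h
      obtain ⟨h3, h4⟩ := Finset.mem_erase.1 hQ
      exact h3 (le_antisymm h2 (hP.2 (hf.mem_toFinset.1 h4).1 h2))
    obtain ⟨F, h2, h3⟩ := SetLike.not_le_iff_exists.1 h1
    by_contra h4
    refine h3 (hP.1.2 ((hI F).2 fun v hv => creg_nz hc hΞ F (fun u hu hu' => ?_) hv))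
    by_contra h5
    refine h4 ⟨u, ⟨hu, hu'⟩, fun G hG => ?_⟩
    have h6 := (hI _).1 (hr (G * F) fun Q hQ => by
      by_cases e : Q = P
      · exact Q.mul_mem_right _ (e ▸ hG)
      · exact Q.mul_mem_left _ (Finset.inf_le (f := id)
          (Finset.mem_erase.2 ⟨e, hf.mem_toFinset.2 hQ⟩) h2)) u hu
    rw [map_mul] at h6
    exact (mul_eq_zero.1 h6).resolve_right h5
  choose! v hv hv' using key
  refine ⟨hf.toFinset.image v, fun F G h1 h2 => (hI F).1 (hr F fun P hP => ?_), fun u hu => ?_⟩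
  · exact (hP.1.1.mem_or_mem (hP.1.2 ((hI _).2 h1))).resolve_right fun h3 =>
      h2 _ (Finset.mem_image_of_mem v (hf.mem_toFinset.2 hP)) (hv' P hP G h3)
  · obtain ⟨P, hP, rfl⟩ := Finset.mem_image.1 hu
    exact hv P (hf.mem_toFinset.1 hP)

end

variable {p : ℕ} {K Λ : Type} [Field K] [CharZero K] [NormedField Λ] [IsUltrametricDist Λ]
  [IsAlgClosed Λ] [Algebra K Λ] [IsGalois K Λ] [Loc p K Λ] [Fact p.Prime] [CharP (kk Λ) p]
variable {B : IntermediateField K Λ} (T : Tower p B) {π : Λ}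

/-- the maximal unramified extension -/
noncomputable def Tower.Ua : IntermediateField K Λ := ⨆ n : ℕ, T.U (n + 1)

theorem Tower.mem_Ua {x : Λ} : x ∈ T.Ua ↔ ∃ n, 0 < n ∧ x ∈ T.U n := by
  refine ⟨fun h => ?_, fun ⟨n, hn, h⟩ => ?_⟩
  · have hd : Directed (· ≤ ·) fun n : ℕ => T.U (n + 1) := fun m n =>
      ⟨m * n + m + n, T.mono m.succ_pos (Nat.succ_pos _) ⟨n + 1, by ring⟩,
        T.mono n.succ_pos (Nat.succ_pos _) ⟨m + 1, by ring⟩⟩
    have h1 : x ∈ ((⨆ n : ℕ, T.U (n + 1) : IntermediateField K Λ) : Set Λ) := h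
    rw [IntermediateField.coe_iSup_of_directed hd] at h1
    obtain ⟨n, hn⟩ := Set.mem_iUnion.1 h1
    exact ⟨n + 1, n.succ_pos, hn⟩
  · obtain ⟨n, rfl⟩ := Nat.exists_eq_add_one_of_ne_zero hn.ne'
    exact le_iSup (fun n : ℕ => T.U (n + 1)) n h
theorem Tower.exists_level (s : Finset Λ) (h : ∀ x ∈ s, x ∈ T.Ua) :
    ∃ n, 0 < n ∧ ∀ x ∈ s, x ∈ T.U n := by
  choose! n h0 h1 using fun x hx => T.mem_Ua.1 (h x hx)
  exact ⟨∏ x ∈ s, n x, Finset.prod_pos h0, fun x hx =>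
    T.mono (h0 x hx) (Finset.prod_pos h0) (Finset.dvd_prod_of_mem n hx) (h1 x hx)⟩
theorem Tower.Ui_le {n l : ℕ} (hn : 0 < n) (hl : 2 ≤ l) : T.Ui n l ≤ T.Ua :=
  iSup_le fun i _ hx => T.mem_Ua.2 ⟨n * l ^ i, by positivity, hx⟩
theorem Tower.big {E : IntermediateField K Λ} (hE : E ≤ T.Ua) (hU : UnrF π B) : Big π E T.Ua := by
  refine ⟨hE, fun x hx => ?_, fun a => ?_⟩
  · obtain ⟨n, hn, h⟩ := T.mem_Ua.1 hx
    exact T.unrF hU hn x h
  · obtain ⟨n, hn, h⟩ := T.exists_fixed_finset {a}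
    obtain ⟨x, hx⟩ := T.exists_lift hn (h a (Finset.mem_singleton_self a))
    exact ⟨x, T.mem_Ua.2 ⟨n, hn, x.2.1⟩, x.2.2, (rL_apply x).symm.trans hx⟩
theorem UnrF.mono {L L' : IntermediateField K Λ} (h : UnrF π L') (hL : L ≤ L') : UnrF π L :=
  fun x hx => h x (hL hx)
/-- a polynomial over the residue field of `Ui` and its invariants -/
theorem Tower.exists_frob {n l : ℕ} (hn : 0 < n) (hl : 2 ≤ l) {d : ℕ} (f : MP d (OL (T.Ui n l))) :
    ∃ F : kk Λ →+* kk Λ, Function.Bijective F ∧ mq F (mq (rL _) f) = mq (rL _) f ∧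
      ∀ a, F a = a → a ∈ (rL (T.Ui n l)).range := by
  obtain ⟨i, g, rfl⟩ := (eventually_mq (T.eventually_mem hn hl) f).exists
  have h0 : 0 < n * l ^ i := by positivity
  have e : ∀ {R S U : Type} [CommRing R] [CommRing S] [CommRing U] (φ : R →+* S) (ψ : S →+* U)
      (g : MP d R), mq ψ (mq φ g) = mq (ψ.comp φ) g := fun φ ψ g => by
    ext j : 1
    simp only [coe_mapRingHom, coeff_map, MvPolynomial.map_map]
  refine ⟨fr (kk Λ) p (T.r * (n * l ^ i)), fr_bijective _, ?_, fun a ha => ?_⟩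
  · rw [e, e, e, RingHom.comp_assoc, rL_inc, T.fr_rL h0]
  · obtain ⟨x, hx⟩ := T.exists_lift h0 ha
    exact ⟨inc (T.le_Ui n l i) x, hx⟩

end Pool.Agent.ZeroCyc
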