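import Pool.Agent.Lib.MP_796ce4_ag.ZQ.CTD1

/-! Total degree, change of the direction of projection, radicals and Bezout identities. -/

namespace Pool.Agent.ZeroCyc

open Polynomial Module
open scoped Classical

set_option linter.unusedSectionVars false

variable {d : ℕ} {R S : Type} [CommRing R] [CommRing S]

/-- total degree at most `n` -/
def TD (n : ℕ) (f : MP d R) : Prop := ∀ i, f.coeff i ≠ 0 → (f.coeff i).totalDegree + i ≤ n

variable {n : ℕ} {f g : MP d R}

theorem ctd_iff (G : MvPolynomial (Fin (d + 1)) R) :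
    TD n (MvPolynomial.finSuccEquiv R d G) ↔ G.totalDegree ≤ n := by
  refine ⟨fun h => Finset.sup_le fun m hm => ?_, fun h i hi =>
    (MvPolynomial.totalDegree_coeff_finSuccEquiv_add_le G i hi).trans h⟩
  rw [← Finsupp.cons_tail m] at hm
  have h1 := MvPolynomial.mem_support_coeff_finSuccEquiv.2 hm
  have h2 := h (m 0) (MvPolynomial.ne_zero_iff.2 ⟨_, MvPolynomial.mem_support_iff.1 h1⟩)
  have h3 := MvPolynomial.le_totalDegree h1
  have h4 := Finsupp.sum_cons d m.tail (m 0)
  rw [Finsupp.cons_tail] at h4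
  omega
theorem ctd_deg_le (h : TD n f) : f.natDegree ≤ n :=
  natDegree_le_iff_coeff_eq_zero.2 fun i hi => by
    by_contra h0
    have := h i h0
    omega
theorem TD.wt (h : TD f.natDegree f) (i : ℕ) :
    (f.coeff i).totalDegree ≤ 1 * (f.natDegree - i) := by
  by_cases h0 : f.coeff i = 0
  · rw [h0, MvPolynomial.totalDegree_zero]
    exact Nat.zero_le _
  · have := h i h0
    omega
theorem TD.map (h : TD n f) (φ : R →+* S) : TD n (mq φ f) := by
  intro i hi
  rw [coe_mapRingHom, coeff_map] at hi ⊢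
  have h1 : f.coeff i ≠ 0 := fun h0 => hi (by rw [h0, map_zero])
  exact (Nat.add_le_add_right (Finset.sup_mono (MvPolynomial.support_map_subset φ _)) i).trans
    (h i h1)
theorem TD.of_map {φ : R →+* S} (hφ : Function.Injective φ) (h : TD n (mq φ f)) : TD n f := by
  intro i hi
  have h1 := h i (by
    rw [coe_mapRingHom, coeff_map]
    exact fun h0 => hi (MvPolynomial.map_injective φ hφ (h0.trans (map_zero _).symm)))
  rwa [coe_mapRingHom, coeff_map, MvPolynomial.totalDegree,
    MvPolynomial.support_map_of_injective _ hφ] at h1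
theorem TD.const_mul (h : TD n f) (c : R) : TD n (C (MvPolynomial.C c) * f) := by
  intro i hi
  rw [coeff_C_mul] at hi ⊢
  have h1 := h i (right_ne_zero_of_mul hi)
  have h2 := MvPolynomial.totalDegree_mul (MvPolynomial.C c) (f.coeff i)
  rw [MvPolynomial.totalDegree_C] at h2
  omega
theorem TD.add_const (h : TD n f) (c : R) : TD n (f + C (MvPolynomial.C c)) := by
  intro i hi
  rw [coeff_add, coeff_C] at hi ⊢
  split_ifs at hi ⊢ with h0
  · have h2 := MvPolynomial.totalDegree_add (f.coeff i) (MvPolynomial.C c)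
    rw [MvPolynomial.totalDegree_C] at h2
    by_cases h1 : f.coeff i = 0
    · rw [h1, MvPolynomial.totalDegree_zero] at h2
      rw [h1]
      omega
    · have := h i h1
      omega
  · rw [add_zero] at hi ⊢
    exact h i hi
theorem TD.of_dvd [IsDomain R] (h : TD f.natDegree f) (hf : f.Monic) (hg : g.Monic) (hd : g ∣ f) :
    TD g.natDegree g := by
  obtain ⟨r, rfl⟩ := hd
  have hr : r.Monic := hg.of_mul_monic_left hf
  have h1 := hg.natDegree_mul hr
  obtain ⟨G, rfl⟩ := (MvPolynomial.finSuccEquiv R d).surjective g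
  obtain ⟨H, rfl⟩ := (MvPolynomial.finSuccEquiv R d).surjective r
  have h2 := ctd_deg_le ((ctd_iff H).2 le_rfl)
  have h3 := MvPolynomial.totalDegree_mul_of_isDomain (f := G) (g := H)
    (fun h0 => hg.ne_zero (by rw [h0, map_zero])) fun h0 => hr.ne_zero (by rw [h0, map_zero])
  rw [h1, ← map_mul, ctd_iff] at h
  rw [ctd_iff]
  omega
/-- lifting along a ring homomorphism -/
theorem exists_mq_lift (φ : R →+* S) [Nontrivial S] {f : MP d S}
    (h : ∀ i m, (f.coeff i).coeff m ∈ φ.range) : ∃ g : MP d R, mq φ g = f ∧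
      (f.Monic → g.Monic ∧ g.natDegree = f.natDegree) ∧ ∀ n, TD n f → TD n g := by
  have h1 : ∀ x : S, ∃ z : R, (x ∈ φ.range → φ z = x) ∧ (x = 0 → z = 0) ∧ (x = 1 → z = 1) := by
    intro x
    by_cases h0 : x = 0
    · exact ⟨0, fun _ => by rw [h0, map_zero], fun _ => rfl,
        fun h1 => absurd (h0.symm.trans h1) zero_ne_one⟩
    by_cases h1 : x = 1
    · exact ⟨1, fun _ => by rw [h1, map_one], fun h2 => absurd h2 h0, fun _ => rfl⟩
    by_cases h2 : x ∈ φ.range
    · obtain ⟨z, hz⟩ := h2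
      exact ⟨z, fun _ => hz, fun h3 => absurd h3 h0, fun h3 => absurd h3 h1⟩
    · exact ⟨0, fun h3 => absurd h3 h2, fun _ => rfl, fun h3 => absurd h3 h1⟩
  choose τ t1 t2 t3 using h1
  obtain ⟨G, rfl⟩ := (MvPolynomial.finSuccEquiv S d).surjective f
  obtain ⟨g, hg⟩ : ∃ g : MP d R, ∀ i m, (g.coeff i).coeff m =
      τ (((MvPolynomial.finSuccEquiv S d G).coeff i).coeff m) := by
    refine ⟨MvPolynomial.finSuccEquiv R d
      (∑ m ∈ G.support, MvPolynomial.monomial m (τ (G.coeff m))), fun i m => ?_⟩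
    rw [MvPolynomial.finSuccEquiv_coeff_coeff, MvPolynomial.finSuccEquiv_coeff_coeff,
      MvPolynomial.coeff_sum]
    simp only [MvPolynomial.coeff_monomial, Finset.sum_ite_eq']
    split_ifs with h0
    · rfl
    · exact (t2 _ (MvPolynomial.notMem_support_iff.1 h0)).symm
  generalize MvPolynomial.finSuccEquiv S d G = f at h hg
  have e : mq φ g = f := Polynomial.ext fun i => MvPolynomial.ext _ _ fun m => by
    rw [coe_mapRingHom, coeff_map, MvPolynomial.coeff_map, hg, t1 _ (h i m)]
  have hs : ∀ i, (g.coeff i).support ⊆ (f.coeff i).support := fun i m hm => by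
    rw [MvPolynomial.mem_support_iff] at hm ⊢
    exact fun h0 => hm ((hg i m).trans (t2 _ h0))
  have hz : ∀ i, f.coeff i = 0 → g.coeff i = 0 := fun i h0 => by
    have h2 := hs i
    rwa [h0, MvPolynomial.support_zero, Finset.subset_empty, MvPolynomial.support_eq_empty] at h2
  refine ⟨g, e, fun hf => ?_, fun n hn i hi => ?_⟩
  · have h2 : g.natDegree ≤ f.natDegree :=
      natDegree_le_iff_coeff_eq_zero.2 fun i hi => hz i (coeff_eq_zero_of_natDegree_lt hi)
    refine ⟨monic_of_natDegree_le_of_coeff_eq_one _ h2 (MvPolynomial.ext _ _ fun m => ?_),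
      le_antisymm h2 (e ▸ natDegree_map_le)⟩
    rw [hg, hf.coeff_natDegree, MvPolynomial.coeff_one, MvPolynomial.coeff_one]
    split_ifs
    · exact t3 _ rfl
    · exact t2 _ rfl
  · exact (Nat.add_le_add_right (Finset.sup_mono (hs i)) i).trans
      (hn i fun h0 => hi (hz i h0))
/-- the homogeneous part of a monic equation -/
theorem exists_homog_eq {m : ℕ} {q : MP m R} (hq : q.Monic) : ∃ q' : MP m R, q'.Monic ∧
    q'.natDegree = q.natDegree ∧ TD q.natDegree q' ∧ ∀ (T : Type) [Field T] [Infinite T]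
      (φ : R →+* T) (y : Fin m → T) (h : T), (∀ c : T, ev2 φ (c • y) (c * h) q = 0) →
        ev2 φ y h q' = 0 := by
  obtain ⟨G, rfl⟩ := (MvPolynomial.finSuccEquiv R m).surjective q
  generalize hN : (MvPolynomial.finSuccEquiv R m G).natDegree = N
  have h1 : TD N (MvPolynomial.finSuccEquiv R m (MvPolynomial.homogeneousComponent N G)) :=
    (ctd_iff _).2 (MvPolynomial.homogeneousComponent_isHomogeneous N G).totalDegree_le
  have h2 : (MvPolynomial.finSuccEquiv R m (MvPolynomial.homogeneousComponent N G)).coeff N = 1 :=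
    MvPolynomial.ext _ _ fun u => by
      have h3 := MvPolynomial.finSuccEquiv_coeff_coeff u G N
      rw [← hN, hq.coeff_natDegree, hN] at h3
      rw [MvPolynomial.finSuccEquiv_coeff_coeff, MvPolynomial.coeff_homogeneousComponent, ← h3]
      split_ifs with h4
      · rfl
      · rw [MvPolynomial.coeff_one, if_neg]
        rintro rfl
        exact h4 (by simp [Finsupp.degree_eq_sum, Fin.sum_univ_succ])
  refine ⟨_, monic_of_natDegree_le_of_coeff_eq_one N (ctd_deg_le h1) h2, ?_, h1,
    fun T _ _ φ y h h0 => ?_⟩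
  · rcases subsingleton_or_nontrivial R with h3 | h3
    · rw [← hN, Subsingleton.elim (MvPolynomial.homogeneousComponent _ G) G]
    · exact le_antisymm (ctd_deg_le h1) (le_natDegree_of_ne_zero (h2 ▸ one_ne_zero))
  · rw [ctd_ev]
    refine eval₂_component_eq_zero φ G _ (fun c => ?_) N
    rw [← h0 c, ctd_ev]
    congr 1
    funext i
    refine Fin.cases ?_ (fun k => ?_) i <;> simp
/-- homogenisation of `f(s / s₀, H / s₀)` -/
theorem exists_hom_mp {M : ℕ} (s₀ H : Fin M → R) (s : Fin d → Fin M → R) (f : MP d R) :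
    ∃ (k : ℕ) (F : MvPolynomial (Fin M) R), F.IsHomogeneous k ∧
      ∀ (T : Type) [Field T] (φ : R →+* T) (v : Fin M → T), lv φ s₀ v ≠ 0 →
        MvPolynomial.eval₂ φ v F = lv φ s₀ v ^ k *
          ev2 φ (fun j => lv φ (s j) ((lv φ s₀ v)⁻¹ • v)) (lv φ H ((lv φ s₀ v)⁻¹ • v)) f := by
  obtain ⟨G, rfl⟩ := (MvPolynomial.finSuccEquiv R d).surjective f
  obtain ⟨k, F, hF, h⟩ := exists_homog G (l := Fin.cons (lp H) fun j => lp (s j))
    (lp_isHomogeneous s₀) fun j => Fin.cases (lp_isHomogeneous H) (fun j => lp_isHomogeneous _) j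
  refine ⟨k, F, hF, fun T _ φ v hv => ?_⟩
  rw [h T φ v (by rwa [eval₂_lp]), ctd_ev, eval₂_lp]
  congr 2
  funext i
  refine Fin.cases ?_ (fun j => ?_) i
  · rw [Fin.cons_zero, Fin.cons_zero, eval₂_lp, lv_smul, div_eq_inv_mul]
  · rw [Fin.cons_succ, Fin.cons_succ, eval₂_lp, lv_smul, div_eq_inv_mul]

/-- the substitution `y ↦ y + v T` -/
noncomputable def chg (v : Fin d → R) : MP d R →+* MP d R :=
  ev2 (C.comp MvPolynomial.C) (fun k => C (MvPolynomial.X k) + C (MvPolynomial.C (v k)) * X) X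

theorem ev2_chg (φ : R →+* S) (v : Fin d → R) (y : Fin d → S) (h : S) (f : MP d R) :
    ev2 φ y h (chg v f) = ev2 φ (fun k => y k + φ (v k) * h) h f := by
  have h1 : (ev2 φ y h).comp (C.comp MvPolynomial.C) = φ :=
    RingHom.ext fun c => dir_ev_const φ y h c
  rw [chg, map_ev2, h1, dir_ev_X]
  simp only [map_add, map_mul, dir_ev_var, dir_ev_const, dir_ev_X]
theorem chg_chg (v : Fin d → R) (f : MP d R) : chg v (chg (-v) f) = f ∧ chg (-v) (chg v f) = f := by
  have h1 : ∀ v w : Fin d → R, v + w = 0 → chg v (chg w f) = f := fun v w h => by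
    have h2 : (fun k => C (MvPolynomial.X k) + C (MvPolynomial.C (v k)) * X +
        (C.comp MvPolynomial.C) (w k) * X : Fin d → MP d R) = fun k => C (MvPolynomial.X k) := by
      funext k
      have h3 : v k + w k = 0 := congrFun h k
      rw [RingHom.comp_apply, add_assoc, ← add_mul, ← map_add, ← map_add, h3, map_zero, map_zero,
        zero_mul, add_zero]
    rw [chg, ev2_chg, h2, ctd_id]
  exact ⟨h1 _ _ (add_neg_cancel v), h1 _ _ (neg_add_cancel v)⟩
theorem mq_chg (φ : R →+* S) (v : Fin d → R) (f : MP d R) :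
    mq φ (chg v f) = chg (fun k => φ (v k)) (mq φ f) := by
  have : (mq φ).comp (chg v) = (chg fun k => φ (v k)).comp (mq φ) := by
    refine Polynomial.ringHom_ext' (MvPolynomial.ringHom_ext (fun r => ?_) fun i => ?_) ?_ <;>
      simp [chg, ev2]
  exact DFunLike.congr_fun this f
theorem ev2_der_chg (φ : R →+* S) (v : Fin d → R) (y : Fin d → S) (h : S) (f : MP d R) :
    ev2 φ y h (derivative (chg v f)) =
      dir φ (fun k => y k + φ (v k) * h) h (fun k => φ (v k)) 1 f := by
  induction f using dir_ind with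
  | hc c => rw [dir_const, chg, dir_ev_const, RingHom.comp_apply, derivative_C, map_zero]
  | hv k =>
    rw [dir_var, chg, dir_ev_var, derivative_add, derivative_C, zero_add, derivative_C_mul_X,
      dir_ev_const]
  | hX => rw [dir_X, chg, dir_ev_X, derivative_X, map_one]
  | ha f g h1 h2 => rw [dir_add, map_add, map_add, map_add, h1, h2]
  | hm f g h1 h2 =>
    rw [dir_mul, map_mul, derivative_mul, map_add, map_mul, map_mul, h1, h2, ev2_chg, ev2_chg]
theorem irreducible_chg (v : Fin d → R) : Irreducible (chg v f) ↔ Irreducible f := by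
  exact MulEquiv.irreducible_iff (RingEquiv.ofRingHom (chg v) (chg (-v))
    (RingHom.ext fun f => (chg_chg v f).1) (RingHom.ext fun f => (chg_chg v f).2))
theorem TD.chg (h : TD n f) (v : Fin d → R) : TD n (chg v f) := by
  obtain ⟨G, rfl⟩ := (MvPolynomial.finSuccEquiv R d).surjective f
  let l : Fin (d + 1) → MvPolynomial (Fin (d + 1)) R := Fin.cons (MvPolynomial.X 0) fun k =>
    MvPolynomial.X k.succ + MvPolynomial.C (v k) * MvPolynomial.X 0
  have hl : ∀ j, (l j).IsHomogeneous 1 := fun j => Fin.cases (MvPolynomial.isHomogeneous_X R 0)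
    (fun k => (MvPolynomial.isHomogeneous_X R k.succ).add
      ((MvPolynomial.isHomogeneous_X R 0).C_mul _)) j
  have h0 : ∀ c, MvPolynomial.finSuccEquiv R d (MvPolynomial.C c) = C (MvPolynomial.C c) :=
    fun c => by rw [MvPolynomial.finSuccEquiv_apply, MvPolynomial.eval₂Hom_C, RingHom.comp_apply]
  have h1 : ∀ G, ZeroCyc.chg v (MvPolynomial.finSuccEquiv R d G) =
      MvPolynomial.finSuccEquiv R d (MvPolynomial.aeval l G) := fun G => by
    induction G using MvPolynomial.induction_on with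
    | C c =>
      rw [MvPolynomial.aeval_C, MvPolynomial.algebraMap_eq, h0]
      exact dir_ev_const _ _ _ c
    | add G H h1 h2 => simp only [map_add, h1, h2]
    | mul_X G i h1 =>
      rw [map_mul, map_mul, map_mul, map_mul, h1, MvPolynomial.aeval_X]
      congr 1
      refine Fin.cases ?_ (fun k => ?_) i
      · rw [show l 0 = MvPolynomial.X 0 from rfl, MvPolynomial.finSuccEquiv_X_zero]
        exact dir_ev_X _ _ _
      · rw [show l k.succ = MvPolynomial.X k.succ + MvPolynomial.C (v k) * MvPolynomial.X 0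
          from rfl, map_add, map_mul, h0, MvPolynomial.finSuccEquiv_X_zero,
          MvPolynomial.finSuccEquiv_X_succ]
        exact dir_ev_var _ _ _ k
  rw [h1, ctd_iff, ← MvPolynomial.sum_homogeneousComponent G, map_sum]
  refine MvPolynomial.totalDegree_finsetSum_le fun k hk => ?_
  have h2 := ((MvPolynomial.homogeneousComponent_isHomogeneous k G).aeval l hl).totalDegree_le
  have h3 := Finset.mem_range.1 hk
  have h4 := (ctd_iff G).1 h
  omega
/-- the leading coefficient after the substitution -/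
theorem TD.exists_top (h : TD n f) : ∃ Θ : MvPolynomial (Fin d) R,
    MvPolynomial.C (Θ.coeff 0) = f.coeff n ∧
      ∀ v, (ZeroCyc.chg v f).coeff n = MvPolynomial.C (MvPolynomial.eval v Θ) := by
  obtain ⟨G, rfl⟩ := (MvPolynomial.finSuccEquiv R d).surjective f
  have h1 : ∀ v, (ZeroCyc.chg v (MvPolynomial.finSuccEquiv R d G)).coeff n =
      MvPolynomial.C (MvPolynomial.eval v ((MvPolynomial.finSuccEquiv R d
        (MvPolynomial.homogeneousComponent n G)).eval 1)) := fun v => by
    have h2 := ctd_top ((ctd_iff G).1 h) (MvPolynomial.C : R →+* MvPolynomial (Fin d) R)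
      (Fin.cons 0 MvPolynomial.X) (Fin.cons 1 fun k => MvPolynomial.C (v k))
    have h3 : (fun j => C ((Fin.cons 0 MvPolynomial.X : Fin (d + 1) → MvPolynomial (Fin d) R) j) +
        C ((Fin.cons 1 fun k => MvPolynomial.C (v k) : Fin (d + 1) → MvPolynomial (Fin d) R) j) *
          X) = (Fin.cons X fun k => C (MvPolynomial.X k) + C (MvPolynomial.C (v k)) * X :
            Fin (d + 1) → MP d R) := by
      funext j
      refine Fin.cases ?_ (fun k => ?_) j <;> simp
    rw [ZeroCyc.chg, ctd_ev, ← h3, h2, ← ctd_ev]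
    generalize MvPolynomial.finSuccEquiv R d (MvPolynomial.homogeneousComponent n G) = g
    induction g using dir_ind with
    | hc c => simp [dir_ev_const]
    | hv k => simp [dir_ev_var]
    | hX => simp [dir_ev_X]
    | ha f g h1 h2 => rw [map_add, h1, h2, eval_add, map_add, map_add]
    | hm f g h1 h2 => rw [map_mul, h1, h2, eval_mul, map_mul, map_mul]
  refine ⟨_, ?_, h1⟩
  have h2 := h1 0
  have h3 : (fun k => C (MvPolynomial.X k) + C (MvPolynomial.C ((0 : Fin d → R) k)) * X :
      Fin d → MP d R) = fun k => C (MvPolynomial.X k) := funext fun k => by simp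
  rw [ZeroCyc.chg, h3, ctd_id, MvPolynomial.eval_zero] at h2
  exact h2.symm

variable {κ : Type} [Field κ]

/-- all irreducible factors are separable -/
def Sep (f : MP d κ) : Prop := ∀ g : MP d κ, g.Monic → Irreducible g → g ∣ f → derivative g ≠ 0

/-- a generic direction makes all factors separable -/
theorem exists_sep_dir [IsAlgClosed κ] {f : MP d κ} (hf : f.Monic) : ∃ Θ : MvPolynomial (Fin d) κ,
    Θ ≠ 0 ∧ ∀ (v : Fin d → κ) (c : κ) (f' : MP d κ), MvPolynomial.eval v Θ ≠ 0 → c ≠ 0 →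
      f' = C (MvPolynomial.C c) * chg v f → Sep f' := by
  obtain ⟨s, -, hs⟩ := finite_irr_factors hf
  have h1 : ∀ g : MP d κ, ∃ (a : Fin d → κ) (b : κ) (Θ : MvPolynomial (Fin d) κ),
      (Irreducible g → Θ ≠ 0) ∧ ∀ v, MvPolynomial.eval v Θ = dir (RingHom.id κ) a b v 1 g := by
    intro g
    obtain ⟨a, b, ν, θ, h⟩ : ∃ a b ν θ, Irreducible g → dir (RingHom.id κ) a b ν θ g ≠ 0 := by
      by_cases hi : Irreducible g
      · obtain ⟨a, b, ν, θ, h⟩ := exists_dir_ne hi
        exact ⟨a, b, ν, θ, fun _ => h⟩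
      · exact ⟨0, 0, 0, 0, fun h => absurd h hi⟩
    obtain ⟨A, hA⟩ := dir_lin (RingHom.id κ) a b g
    have h2 : ∀ v, MvPolynomial.eval v (lp A + MvPolynomial.C
        (ev2 (RingHom.id κ) a b (derivative g))) =
          ∑ k, A k * v k + ev2 (RingHom.id κ) a b (derivative g) := fun v => by
      rw [map_add, chb_eval_lp, MvPolynomial.eval_C]
      simp only [mul_comm]
    refine ⟨a, b, _, fun hi h0 => h hi ?_, fun v => by rw [h2, hA, mul_one]⟩
    have h3 := h2 0
    have h4 := h2 ν
    rw [h0, map_zero] at h3 h4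
    simp only [Pi.zero_apply, mul_zero, Finset.sum_const_zero, zero_add] at h3
    rw [← h3, add_zero] at h4
    rw [hA, ← h3, ← h4, zero_mul, add_zero]
  choose a b Θ t1 t2 using h1
  refine ⟨∏ g ∈ s, Θ g, Finset.prod_ne_zero_iff.2 fun g hg => t1 g ((hs g).1 hg).2.1, ?_⟩
  rintro v c f' hv hc rfl g - hi hd h0
  have hC : IsUnit (C (MvPolynomial.C c) : MP d κ) := (hc.isUnit.map _).map _
  have h2 := map_dvd (chg (-v)) (hC.dvd_mul_left.1 hd)
  rw [(chg_chg v f).2] at h2
  obtain ⟨r, r1, r2, r3⟩ := ctd_norm hf ((irreducible_chg (-v)).2 hi) h2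
  rw [map_prod] at hv
  refine Finset.prod_ne_zero_iff.1 hv _ ((hs _).2 ⟨r1, r2, r3⟩) ?_
  rw [t2, dir_mul, dir_const, zero_mul, zero_add]
  generalize a (C (MvPolynomial.C r) * chg (-v) g) = a₀
  generalize b (C (MvPolynomial.C r) * chg (-v) g) = b₀
  have h3 := ev2_der_chg (RingHom.id κ) v (fun k => a₀ k - v k * b₀) b₀ (chg (-v) g)
  simp only [(chg_chg v g).1, h0, map_zero, RingHom.id_apply, sub_add_cancel] at h3
  rw [← h3, mul_zero]
/-- the product of the irreducible factors -/
theorem exists_radical {f : MP d κ} (hf : f.Monic) : ∃ θ : MP d κ, θ.Monic ∧ θ ∣ f ∧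
    (∃ n, f ∣ θ ^ n) ∧
    (∀ g : MP d κ, g.Monic → Irreducible g → g ∣ f → ∃ g', θ = g * g' ∧ ¬g ∣ g') ∧
    ∀ F : κ →+* κ, Function.Bijective F → mq F f = f → mq F θ = θ := by
  obtain ⟨s, -, hs⟩ := finite_irr_factors hf
  have h1 : ∀ g ∈ s, ∀ g' ∈ s, g ∣ g' → g = g' := fun g hg g' hg' h =>
    eq_of_monic_of_associated ((hs g).1 hg).1 ((hs g').1 hg').1
      (((hs g).1 hg).2.1.associated_of_dvd ((hs g').1 hg').2.1 h)
  refine ⟨∏ g ∈ s, g, monic_prod_of_monic _ _ fun g hg => ((hs g).1 hg).1,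
    Finset.prod_dvd_of_isRelPrime (fun g hg g' hg' hne => ?_) fun g hg => ((hs g).1 hg).2.2,
    ?_, fun g g1 g2 g3 => ?_, fun F hF e => ?_⟩
  · exact ((hs g).1 hg).2.1.isRelPrime_iff_not_dvd.2 fun h => hne (h1 g hg g' hg' h)
  · refine ctd_ind (P := fun r => ∃ n, r ∣ (∏ g ∈ s, g) ^ n) ⟨0, one_dvd _⟩ hf ?_
    rintro g r g1 g2 g3 ⟨n, hn⟩
    refine ⟨n + 1, ?_⟩
    rw [pow_succ']
    exact mul_dvd_mul (Finset.dvd_prod_of_mem (fun g => g) ((hs g).2 ⟨g1, g2, g3⟩)) hn
  · have hg := (hs g).2 ⟨g1, g2, g3⟩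
    refine ⟨∏ g' ∈ s.erase g, g', (Finset.mul_prod_erase s (fun g => g) hg).symm, fun h => ?_⟩
    obtain ⟨g', h2, h3⟩ := (g2.prime.dvd_finsetProd_iff _).1 h
    exact Finset.ne_of_mem_erase h2 (h1 g hg g' (Finset.mem_of_mem_erase h2) h3).symm
  · have hb : Function.Bijective (mq F : MP d κ →+* MP d κ) :=
      ⟨Polynomial.map_injective _ (MvPolynomial.map_injective F hF.1),
        Polynomial.map_surjective _ (MvPolynomial.map_surjective F hF.2)⟩
    have h2 : s.image (mq F) = s := by
      refine Finset.eq_of_subset_of_card_le (Finset.image_subset_iff.2 fun g hg => ?_)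
        (Finset.card_image_of_injective s hb.1).ge
      obtain ⟨g1, g2, g3⟩ := (hs g).1 hg
      exact (hs _).2 ⟨g1.map _,
        (MulEquiv.irreducible_iff (RingEquiv.ofBijective (mq F) hb)).2 g2, e ▸ map_dvd (mq F) g3⟩
    rw [map_prod]
    conv_rhs => rw [← h2]
    rw [Finset.prod_image fun _ _ _ _ h => hb.1 h]
theorem not_dvd_der {g g' : MP d κ} (hg : g.Monic) (hi : Irreducible g) (hd : derivative g ≠ 0)
    (h : ¬g ∣ g') : ¬g ∣ derivative (g * g') := by
  intro h1
  rw [derivative_mul] at h1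
  rcases hi.prime.dvd_or_dvd ((dvd_add_left (dvd_mul_right g _)).1 h1) with h2 | h2
  · have h3 : g.natDegree ≠ 0 := fun h0 =>
      hi.not_isUnit (eq_one_of_monic_natDegree_zero hg h0 ▸ isUnit_one)
    exact (natDegree_derivative_lt h3).not_ge (natDegree_le_of_dvd h2 hd)
  · exact h h2
theorem exists_bezout' (φ : R →+* κ) {χ f : MP d R} (hm : χ.Monic) (h0 : 0 < χ.natDegree)
    (h : ∀ g : MP d κ, g.Monic → Irreducible g → g ∣ mq φ χ → ¬g ∣ mq φ f) :
    ∃ (D : MvPolynomial (Fin d) R) (α β : MP d R), C D = α * χ + β * f ∧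
      MvPolynomial.map φ D ≠ 0 := by
  obtain ⟨a, b, -, -, hab⟩ := exists_mul_add_mul_eq_C_resultant χ f (le_refl χ.natDegree)
    (le_refl f.natDegree) (Or.inl h0.ne')
  refine ⟨resultant χ f χ.natDegree f.natDegree, a, b, by rw [← hab]; ring, fun h1 => ?_⟩
  have := mv_integrallyClosed (R := κ) d
  let ι : MvPolynomial (Fin d) κ →+* FractionRing (MvPolynomial (Fin d) κ) := algebraMap _ _
  have hι : Function.Injective ι := IsFractionRing.injective _ _
  have hm' : (χ.map (MvPolynomial.map φ)).Monic := hm.map _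
  have hc : IsCoprime ((χ.map (MvPolynomial.map φ)).map ι)
      ((f.map (MvPolynomial.map φ)).map ι) := by
    refine ctd_ind (P := fun r => IsCoprime (r.map ι) ((f.map (MvPolynomial.map φ)).map ι))
      (by rw [Polynomial.map_one]; exact isCoprime_one_left) hm' fun g r g1 g2 g3 hr => ?_
    rw [Polynomial.map_mul]
    refine IsCoprime.mul_left (Irreducible.coprime_iff_not_dvd ?_ |>.2 fun h2 => ?_) hr
    · exact (g1.irreducible_iff_irreducible_map_fraction_map
        (K := FractionRing (MvPolynomial (Fin d) κ))).1 g2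
    · exact h g g1 g2 g3 ((map_dvd_map ι hι g1).1 h2)
  have hne := resultant_ne_zero _ _ hc
  have hd : ((χ.map (MvPolynomial.map φ)).map ι).natDegree = χ.natDegree := by
    rw [hm'.natDegree_map, hm.natDegree_map]
  have hle : ((f.map (MvPolynomial.map φ)).map ι).natDegree ≤ f.natDegree :=
    natDegree_map_le.trans natDegree_map_le
  obtain ⟨k, hk⟩ := Nat.exists_eq_add_of_le hle
  have h2 : resultant ((χ.map (MvPolynomial.map φ)).map ι) ((f.map (MvPolynomial.map φ)).map ι)
      χ.natDegree f.natDegree = 0 := by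
    rw [resultant_map_map, resultant_map_map, h1, map_zero]
  rw [hk, resultant_add_right_deg _ _ _ _ k le_rfl, ← hd, (hm'.map ι).coeff_natDegree, one_pow,
    one_mul] at h2
  exact hne h2
/-- a constant that avoids one bad value for each factor -/
theorem exists_avoid_const {θ ζ γ : MP d κ} (hθ : θ.Monic)
    (h : ∀ g : MP d κ, g.Monic → Irreducible g → g ∣ θ → g ∣ ζ → ¬g ∣ γ) :
    ∃ Θ : MvPolynomial Unit κ, Θ ≠ 0 ∧ ∀ c : κ, MvPolynomial.eval (fun _ => c) Θ ≠ 0 →
      ∀ g : MP d κ, g.Monic → Irreducible g → g ∣ θ → ¬g ∣ γ - C (MvPolynomial.C c) * ζ := by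
  obtain ⟨s, -, hs⟩ := finite_irr_factors hθ
  have h1 : ∀ g : MP d κ, ∃ b : κ, g ∈ s → ∀ c, g ∣ γ - C (MvPolynomial.C c) * ζ → c = b := by
    intro g
    by_cases h0 : ∃ b, g ∣ γ - C (MvPolynomial.C b) * ζ
    · obtain ⟨b, hb⟩ := h0
      refine ⟨b, fun hg c hc => ?_⟩
      by_contra hne
      obtain ⟨g1, g2, g3⟩ := (hs g).1 hg
      have hC : IsUnit (C (MvPolynomial.C (c - b)) : MP d κ) :=
        ((sub_ne_zero.2 hne).isUnit.map _).map _
      have h2 : g ∣ ζ := by
        refine hC.dvd_mul_left.1 ?_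
        have h3 := dvd_sub hb hc
        rwa [sub_sub_sub_cancel_left, ← sub_mul, ← map_sub, ← map_sub] at h3
      refine h g g1 g2 g3 h2 ?_
      have h4 := dvd_add hb (h2.mul_left (C (MvPolynomial.C b)))
      rwa [sub_add_cancel] at h4
    · exact ⟨0, fun _ c hc => absurd ⟨c, hc⟩ h0⟩
  choose b hb using h1
  refine ⟨∏ g ∈ s, (MvPolynomial.X () - MvPolynomial.C (b g)),
    Finset.prod_ne_zero_iff.2 fun g _ h0 => ?_, fun c hc g g1 g2 g3 h2 => ?_⟩
  · have h2 := congrArg (MvPolynomial.eval fun _ => b g + 1) h0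
    simp at h2
  · have hg := (hs g).2 ⟨g1, g2, g3⟩
    rw [map_prod] at hc
    refine Finset.prod_ne_zero_iff.1 hc g hg ?_
    rw [map_sub, MvPolynomial.eval_X, MvPolynomial.eval_C, hb g hg c h2, sub_self]

end Pool.Agent.ZeroCyc
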