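import Pool.Agent.Lib.MP_796ce4_ag.ZQ.QB

/-! The multiplicity of the special fibre. -/

namespace Pool.Agent.ZeroCyc

open Polynomial Module
open scoped Classical IntermediateField PowerSeries

set_option linter.unusedSectionVars false

theorem qmu_factor {κ : Type} [Field κ] {d : ℕ} {g : MP d κ} (hm : g.Monic) (h : g ≠ 1) :
    ∃ q r : MP d κ, q.Monic ∧ Irreducible q ∧ r.Monic ∧ g = q * r ∧
      r.natDegree < g.natDegree := by
  have hu : ¬IsUnit g := fun hu => h (hm.eq_one_of_isUnit hu)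
  obtain ⟨q, hq, hqg⟩ := WfDvdMonoid.exists_irreducible_factor hu hm.ne_zero
  obtain ⟨u, hu⟩ := hm.isUnit_leadingCoeff_of_dvd hqg
  have hC : IsUnit (C (↑u⁻¹ : MvPolynomial (Fin d) κ)) := isUnit_C.2 (Units.isUnit _)
  have h1 : (C (↑u⁻¹ : MvPolynomial (Fin d) κ) * q).Monic := by
    rw [Monic, leadingCoeff_mul, leadingCoeff_C, ← hu, Units.inv_mul]
  have h2 := (irreducible_isUnit_mul hC).2 hq
  obtain ⟨r, hr⟩ := (hC.mul_left_dvd).2 hqg
  have h3 : r.Monic := h1.of_mul_monic_left (hr ▸ hm)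
  refine ⟨_, r, h1, h2, h3, hr, ?_⟩
  have h4 : (C (↑u⁻¹ : MvPolynomial (Fin d) κ) * q).natDegree ≠ 0 := fun h0 =>
    h2.not_isUnit (eq_one_of_monic_natDegree_zero h1 h0 ▸ isUnit_one)
  have h5 := h1.natDegree_mul h3
  rw [← hr] at h5
  omega

/-- a zero of a monic polynomial is a zero of an irreducible monic factor -/
theorem exists_irr_factor {κ : Type} [Field κ] [IsAlgClosed κ] {d : ℕ} {f : MP d κ} (hf : f.Monic)
    {a : Fin d → κ} {c : κ} (h : ev2 (RingHom.id κ) a c f = 0) :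
    ∃ g : MP d κ, g.Monic ∧ Irreducible g ∧ g ∣ f ∧ ev2 (RingHom.id κ) a c g = 0 := by
  induction hn : f.natDegree using Nat.strong_induction_on generalizing f with
  | _ n ih =>
    have h1 : f ≠ 1 := fun h1 => by
      rw [h1, map_one] at h
      exact one_ne_zero h
    obtain ⟨q, r, hq, hi, hr, e, hlt⟩ := qmu_factor hf h1
    rw [e, map_mul, mul_eq_zero] at h
    rcases h with h | h
    · exact ⟨q, hq, hi, ⟨r, e⟩, h⟩
    · obtain ⟨g, g1, g2, g3, g4⟩ := ih _ (hn ▸ hlt) hr h rfl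
      exact ⟨g, g1, g2, e ▸ g3.mul_left q, g4⟩
theorem finite_irr_factors {κ : Type} [Field κ] {d : ℕ} {f : MP d κ} (hf : f.Monic) :
    ∃ s : Finset (MP d κ), s.card ≤ f.natDegree ∧
      ∀ g, g ∈ s ↔ g.Monic ∧ Irreducible g ∧ g ∣ f := by
  induction hn : f.natDegree using Nat.strong_induction_on generalizing f with
  | _ n ih =>
    by_cases h1 : f = 1
    · refine ⟨∅, by simp, fun g => ⟨fun h => absurd h (Finset.notMem_empty g), fun h => ?_⟩⟩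
      exact absurd (isUnit_of_dvd_one (h1 ▸ h.2.2)) h.2.1.not_isUnit
    obtain ⟨q, r, hq, hi, hr, e, hlt⟩ := qmu_factor hf h1
    obtain ⟨s, hs, hs'⟩ := ih _ (hn ▸ hlt) hr rfl
    refine ⟨insert q s, (Finset.card_insert_le _ _).trans (by omega), fun g => ?_⟩
    rw [Finset.mem_insert, hs']
    refine ⟨?_, fun h => ?_⟩
    · rintro (rfl | h)
      · exact ⟨hq, hi, r, e⟩
      · exact ⟨h.1, h.2.1, e ▸ h.2.2.mul_left q⟩
    · rcases h.2.1.prime.dvd_or_dvd (e ▸ h.2.2) with h2 | h2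
      · exact Or.inl (eq_of_monic_of_associated h.1 hq (h.2.1.associated_of_dvd hi h2))
      · exact Or.inr ⟨h.1, h.2.1, h2⟩

theorem qmu_mult {κ : Type} [Field κ] {f g r : κ[X]} {c : κ} {k : ℕ} (e : f = g ^ k * r)
    (h0 : g.eval c = 0) (h1 : g.derivative.eval c ≠ 0) (hr : r.eval c ≠ 0) :
    f.rootMultiplicity c = k := by
  obtain ⟨w, rfl⟩ := dvd_iff_isRoot.2 h0
  have h2 : w.eval c ≠ 0 := by simpa using h1
  have h3 : (w ^ k * r).eval c ≠ 0 := by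
    rw [eval_mul, eval_pow]
    exact mul_ne_zero (pow_ne_zero _ h2) hr
  have h4 : w ^ k * r ≠ 0 := fun h => h3 (by rw [h, eval_zero])
  rw [e, mul_pow, mul_assoc, mul_comm, rootMultiplicity_mul_X_sub_C_pow h4,
    rootMultiplicity_eq_zero h3, zero_add]

theorem qmu_map {d : ℕ} {R S T : Type} [CommRing R] [CommRing S] [CommRing T] (φ : R →+* S)
    (ψ : S →+* T) (y : Fin d → S) (f : MP d R) :
    (f.map (MvPolynomial.eval₂Hom φ y)).map ψ =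
      f.map (MvPolynomial.eval₂Hom (ψ.comp φ) fun i => ψ (y i)) := by
  rw [Polynomial.map_map, MvPolynomial.comp_eval₂Hom]

theorem qmu_map_mq {d : ℕ} {R S T : Type} [CommRing R] [CommRing S] [CommRing T] (φ : R →+* S)
    (ψ : S →+* T) (y : Fin d → T) (f : MP d R) :
    (mq φ f).map (MvPolynomial.eval₂Hom ψ y) = f.map (MvPolynomial.eval₂Hom (ψ.comp φ) y) := by
  have : (MvPolynomial.eval₂Hom ψ y).comp (MvPolynomial.map φ) =
      MvPolynomial.eval₂Hom (ψ.comp φ) y :=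
    MvPolynomial.ringHom_ext (fun r => by simp) fun i => by simp
  rw [coe_mapRingHom, Polynomial.map_map, this]

theorem qmu_mq_mq {d : ℕ} {R S T : Type} [CommRing R] [CommRing S] [CommRing T] (φ : R →+* S)
    (ψ : S →+* T) (f : MP d R) : mq ψ (mq φ f) = mq (ψ.comp φ) f := by
  have : (MvPolynomial.map ψ).comp (MvPolynomial.map φ) =
      (MvPolynomial.map (ψ.comp φ) : MvPolynomial (Fin d) R →+* _) :=
    RingHom.ext fun g => MvPolynomial.map_map φ ψ g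
  rw [coe_mapRingHom, coe_mapRingHom, coe_mapRingHom, Polynomial.map_map, this]

variable {p : ℕ} {K Λ : Type} [Field K] [CharZero K] [NormedField Λ] [IsUltrametricDist Λ]
  [IsAlgClosed Λ] [Algebra K Λ] [IsGalois K Λ] [Loc p K Λ] [Fact p.Prime] [CharP (kk Λ) p]
variable {N : ℕ} {J : Ideal (MvPolynomial (Fin (N + 1)) K)} {B L : IntermediateField K Λ}

theorem qmu_lift (T : Tower p L) {d : ℕ} (F G : MP d (kk Λ)) :
    ∃ n, 0 < n ∧ (∃ u, mq (rL (T.U n)) u = F) ∧ ∃ u, mq (rL (T.U n)) u = G := by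
  obtain ⟨n, hn, h⟩ := T.exists_fixed_finset
    (F.coeffs.biUnion MvPolynomial.coeffs ∪ G.coeffs.biUnion MvPolynomial.coeffs)
  have key : ∀ H : MP d (kk Λ), (∀ x ∈ H.coeffs.biUnion MvPolynomial.coeffs,
      fr (kk Λ) p (T.r * n) x = x) → ∃ u, mq (rL (T.U n)) u = H := fun H hH => by
    refine (mem_lifts H).1 ((lifts_iff_coeff_lifts H).2 fun i => ?_)
    by_cases h0 : H.coeff i = 0
    · exact ⟨0, by rw [h0, map_zero]⟩
    · exact MvPolynomial.mem_range_map_iff_coeffs_subset.2 fun x hx => T.exists_lift hn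
        (hH x (Finset.mem_biUnion.2 ⟨_, coeff_mem_coeffs h0, hx⟩))
  exact ⟨n, hn, key F fun x hx => h x (Finset.mem_union_left _ hx),
    key G fun x hx => h x (Finset.mem_union_right _ hx)⟩

theorem qmu_dvd {d : ℕ} {π : OL L} (h0 : (π : Λ) ≠ 0) (hU : UnrF (π : Λ) L) {F : MP d (OL L)}
    (hF : mq (rL L) F = 0) : C (MvPolynomial.C π) ∣ F := by
  refine (C_dvd_iff_dvd_coeff _ _).2 fun i => (MvPolynomial.C_dvd_iff_dvd_coeff _ _).2 fun m => ?_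
  have h1 := congrArg (fun G : MP d (kk Λ) => (G.coeff i).coeff m) hF
  simp only [coe_mapRingHom, coeff_map, MvPolynomial.coeff_map, coeff_zero,
    MvPolynomial.coeff_zero] at h1
  generalize (F.coeff i).coeff m = x at h1
  rw [rL_apply, rs_eq_zero x.2.2] at h1
  exact ⟨⟨_, chr_div x.2.1 π.2.1 (hU _ x.2.1 h1)⟩, Subtype.ext (mul_div_cancel₀ _ h0).symm⟩

theorem qmu_rs_prod {T : Type} (s : Finset T) {f : T → Λ} (hf : ∀ t ∈ s, ‖f t‖ ≤ 1) :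
    ‖∏ t ∈ s, f t‖ ≤ 1 ∧ rs (∏ t ∈ s, f t) = ∏ t ∈ s, rs (f t) := by
  induction s using Finset.induction_on with
  | empty => simp [rs_one]
  | insert a s ha ih =>
    have h1 := ih fun t ht => hf t (Finset.mem_insert_of_mem ht)
    have h2 := hf a (Finset.mem_insert_self _ _)
    rw [Finset.prod_insert ha, Finset.prod_insert ha, rs_mul h2 h1.1, h1.2, norm_mul]
    exact ⟨mul_le_one₀ h2 (norm_nonneg _) h1.1, rfl⟩

namespace QChart

variable {𝒞 : QChart J B} {y : Fin 𝒞.d → Λ} {h : Λ} {a : Fin 𝒞.d → kk Λ} {c : kk Λ}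

theorem mu_pos (hk : 𝒞.red.Gk a c) : 0 < 𝒞.mu a c :=
  (rootMultiplicity_pos (𝒞.monic.map _).ne_zero).2
    ((ev2_eq_eval _ _ _ _).symm.trans (on_iff.2 hk.on))
theorem mu_le (a : Fin 𝒞.d → kk Λ) (c : kk Λ) : 𝒞.mu a c ≤ 𝒞.δ := by
  rw [mu, ← count_roots, ← 𝒞.deg, ← 𝒞.monic.natDegree_map (MvPolynomial.eval₂Hom (rL B) a)]
  exact (Multiset.count_le_card _ _).trans (card_roots' _)
theorem sum_mu {s : Finset (kk Λ)} (hs : ∀ c, c ∈ s ↔ ev2 (rL B) a c 𝒞.ϑ = 0) :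
    ∑ c ∈ s, 𝒞.mu a c = 𝒞.δ := by
  have hm := 𝒞.monic.map (MvPolynomial.eval₂Hom (rL B) a)
  rw [← 𝒞.deg, ← 𝒞.monic.natDegree_map (MvPolynomial.eval₂Hom (rL B) a),
    ← IsAlgClosed.card_roots_eq_natDegree]
  simp only [mu, ← count_roots]
  refine Multiset.sum_count_eq_card fun c hc => (hs c).2 (on_iff.1 ?_)
  rw [ev2_eq_eval]
  exact (mem_roots hm.ne_zero).1 hc
theorem exists_roots (a : Fin 𝒞.d → kk Λ) : ∃ s : Finset (kk Λ), s.card ≤ 𝒞.red.δ ∧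
    ∀ c, c ∈ s ↔ ev2 (rL B) a c 𝒞.ϑ = 0 := by
  have hm := 𝒞.red.monic.map (MvPolynomial.eval₂Hom (rL B) a)
  refine ⟨(𝒞.ϑ.map (MvPolynomial.eval₂Hom (rL B) a)).roots.toFinset, ?_, fun c => ?_⟩
  · rw [← 𝒞.red.deg, ← 𝒞.red.monic.natDegree_map (MvPolynomial.eval₂Hom (rL B) a)]
    exact (Multiset.toFinset_card_le _).trans (card_roots' _)
  · rw [Multiset.mem_toFinset, mem_roots hm.ne_zero, ev2_eq_eval, IsRoot.def]
theorem mu_fr (T : Tower p B) (n : ℕ) (a : Fin 𝒞.d → kk Λ) (c : kk Λ) :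
    𝒞.mu (fun i => fr (kk Λ) p (T.r * n) (a i)) (fr (kk Λ) p (T.r * n) c) = 𝒞.mu a c := by
  rw [mu, mu, eq_rootMultiplicity_map (fr (kk Λ) p (T.r * n)).injective c, qmu_map, T.fr_base]
/-- the component through a good point -/
theorem exists_loc (hk : 𝒞.red.Gk a c) : ∃ g g' r : MP 𝒞.d (kk Λ), g.Monic ∧ Irreducible g ∧
    mq (rL B) 𝒞.ϑ = g * g' ∧ mq (rL B) 𝒞.χ = g ^ 𝒞.mu a c * r ∧
    ev2 (RingHom.id _) a c g = 0 ∧ ev2 (RingHom.id _) a c g' ≠ 0 ∧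
    ev2 (RingHom.id _) a c r ≠ 0 := by
  have mϑ : (mq (rL B) 𝒞.ϑ).Monic := 𝒞.red.monic.map _
  have mχ : (mq (rL B) 𝒞.χ).Monic := 𝒞.monic.map _
  obtain ⟨g, hg, hi, ⟨g', e⟩, h0⟩ := exists_irr_factor mϑ (a := a) (c := c)
    (by rw [ev2_mq, RingHom.id_comp]; exact hk.on)
  have hd : ev2 (RingHom.id _) a c (derivative (mq (rL B) 𝒞.ϑ)) ≠ 0 := by
    rw [coe_mapRingHom, derivative_map, ← coe_mapRingHom, ev2_mq, RingHom.id_comp]
    exact hk.der hk.on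
  rw [e, derivative_mul, map_add, map_mul, map_mul, h0, zero_mul, add_zero] at hd
  obtain ⟨k, r, hr, e'⟩ := WfDvdMonoid.max_power_factor mχ.ne_zero hi
  have mr : r.Monic := (hg.pow k).of_mul_monic_left (e' ▸ mχ)
  have h1 : ev2 (RingHom.id _) a c r ≠ 0 := fun h1 => by
    obtain ⟨q, -, qi, qr, q0⟩ := exists_irr_factor mr h1
    obtain ⟨n, hn⟩ := 𝒞.dvd₂
    have h2 : q ∣ g * g' := e ▸ qi.prime.dvd_of_dvd_pow ((e' ▸ qr.mul_left _).trans hn)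
    rcases qi.prime.dvd_or_dvd h2 with h3 | ⟨w, h3⟩
    · exact hr ((qi.associated_of_dvd hi h3).symm.dvd.trans qr)
    · exact right_ne_zero_of_mul hd (by rw [h3, map_mul, q0, zero_mul])
  have h2 : 𝒞.mu a c = k := by
    refine qmu_mult (g := g.map (MvPolynomial.eval₂Hom (RingHom.id _) a))
      (r := r.map (MvPolynomial.eval₂Hom (RingHom.id _) a)) ?_ ?_ ?_ ?_
    · rw [← Polynomial.map_pow, ← Polynomial.map_mul, ← e', qmu_map_mq, RingHom.id_comp]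
    · rw [← ev2_eq_eval, h0]
    · rw [derivative_map, ← ev2_eq_eval]
      exact left_ne_zero_of_mul hd
    · rwa [← ev2_eq_eval]
  exact ⟨g, g', r, hg, hi, e, h2 ▸ e', h0, right_ne_zero_of_mul hd, h1⟩
/-- the local equation `ϑ ^ m ∼ π` -/
theorem exists_LOC (hk : 𝒞.red.Gk a c) (hB : B ≤ L) (hU : UnrF (𝒞.π : Λ) L) (T : Tower p L) :
    ∃ (n : ℕ) (u₁ u₂ u₃ : MP 𝒞.d (OL (T.U n))), 0 < n ∧
      mq (inc (hB.trans (T.le n))) 𝒞.ϑ ^ 𝒞.mu a c * u₁ =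
        C (MvPolynomial.C (inc (hB.trans (T.le n)) 𝒞.π)) * u₂ +
          mq (inc (hB.trans (T.le n))) 𝒞.χ * u₃ ∧
      ev2 (rL _) a c u₁ ≠ 0 ∧ ev2 (rL _) a c u₂ ≠ 0 ∧ ev2 (rL _) a c u₃ ≠ 0 := by
  obtain ⟨g, g', r, -, -, e, e', -, h1, h2⟩ := exists_loc hk
  obtain ⟨n, hn, ⟨u₁, e₁⟩, u₃, e₃⟩ := qmu_lift T r (g' ^ 𝒞.mu a c)
  have k₁ : ev2 (rL _) a c u₁ ≠ 0 := by rwa [← e₁, ev2_mq, RingHom.id_comp] at h2
  have k₃ : ev2 (rL _) a c u₃ ≠ 0 := by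
    have h3 := pow_ne_zero (𝒞.mu a c) h1
    rwa [← map_pow, ← e₃, ev2_mq, RingHom.id_comp] at h3
  obtain ⟨u₂, e₂⟩ := qmu_dvd (π := inc (hB.trans (T.le n)) 𝒞.π) 𝒞.π_ne (T.unrF hU hn)
    (F := mq (inc (hB.trans (T.le n))) 𝒞.ϑ ^ 𝒞.mu a c * u₁ -
      mq (inc (hB.trans (T.le n))) 𝒞.χ * u₃) (by
    rw [map_sub, map_mul, map_mul, map_pow, qmu_mq_mq, qmu_mq_mq, rL_inc, e, e', e₁, e₃]
    ring)
  refine ⟨n, u₁, u₂, u₃, hn, eq_add_of_sub_eq e₂, k₁, ?_, k₃⟩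
  obtain ⟨y, η, hy, hη, rfl, rfl, h0⟩ := exists_ev2_lift 𝒞.red.monic hk.on
  have h3 := le_χ hy hη (rs_ne_zero.1 ((Chart.chartb_mv hy _).2.trans_ne hk.unit)) h0
  have h4 := congrArg (fun F => ‖ev2 (OL (T.U n)).subtype y η F‖) e₂
  have h5 := rs_ne_zero.1 ((rs_ev2' hy hη u₃).2.trans_ne k₃)
  simp only [map_sub, map_mul, map_pow, ev2_mq, subtype_inc, h0, zero_pow (mu_pos hk).ne',
    zero_mul, zero_sub, norm_neg, norm_mul, h5, mul_one, ev2_C, MvPolynomial.eval₂_C] at h4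
  rw [← (rs_ev2' hy hη u₂).2, rs_ne_zero]
  refine le_antisymm (rs_ev2' hy hη u₂).1 ?_
  rw [h4] at h3
  exact le_of_mul_le_mul_left ((mul_one _).trans_le h3) (norm_pos_iff.2 𝒞.π_ne)
theorem Gd.norm_ϑ (T : Tower p B) (hg : 𝒞.Gd y h) :
    ‖ev2 (OL B).subtype y h 𝒞.ϑ‖ ^ 𝒞.mu (fun i => rs (y i)) (rs h) = ‖(𝒞.π : Λ)‖ := by
  obtain ⟨n, u₁, u₂, u₃, -, e, k₁, k₂, -⟩ := exists_LOC hg.gk le_rfl 𝒞.π_max T
  have h4 := congrArg (fun F => ‖ev2 (OL (T.U n)).subtype y h F‖) e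
  have h5 := rs_ne_zero.1 ((rs_ev2' hg.y_le hg.h_le u₁).2.trans_ne k₁)
  have h6 := rs_ne_zero.1 ((rs_ev2' hg.y_le hg.h_le u₂).2.trans_ne k₂)
  simp only [map_add, map_mul, map_pow, ev2_mq, subtype_inc, hg.on, zero_mul, add_zero, norm_mul,
    norm_pow, h5, h6, mul_one, ev2_C, MvPolynomial.eval₂_C] at h4
  exact h4
/-- the fibre over a good value -/
theorem exists_fibre (hy : ∀ i, ‖y i‖ ≤ 1)
    (h1 : ‖MvPolynomial.eval₂ (OL B).subtype y 𝒞.D₀‖ = 1) : ∃ s : Finset Λ, s.card = 𝒞.δ ∧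
      (∀ η, η ∈ s ↔ ev2 (OL B).subtype y η 𝒞.χ = 0) ∧
      𝒞.χ.map (MvPolynomial.eval₂Hom (OL B).subtype y) = ∏ η ∈ s, (X - C η) ∧
      ∀ c, (s.filter fun η => rs η = c).card = 𝒞.mu (fun i => rs (y i)) c := by
  set f := 𝒞.χ.map (MvPolynomial.eval₂Hom (OL B).subtype y) with hf
  have hm : f.Monic := 𝒞.monic.map _
  have h0 : MvPolynomial.eval₂ (OL B).subtype y 𝒞.D₀ ≠ 0 :=
    norm_pos_iff.1 (by rw [h1]; exact one_pos)
  have hn : f.roots.Nodup := by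
    refine Multiset.nodup_iff_count_le_one.2 fun a => not_lt.1 fun h3 => ?_
    rw [count_roots, one_lt_rootMultiplicity_iff_isRoot hm.ne_zero] at h3
    refine der_ne ((ev2_eq_eval _ _ _ _).trans h3.1) h0 ?_
    rw [ev2_eq_eval, ← derivative_map]
    exact h3.2
  have h2 : ∀ η, η ∈ (⟨f.roots, hn⟩ : Finset Λ) ↔ ev2 (OL B).subtype y η 𝒞.χ = 0 := fun η => by
    rw [ev2_eq_eval]
    exact mem_roots hm.ne_zero
  have h3 : f = ∏ η ∈ (⟨f.roots, hn⟩ : Finset Λ), (X - C η) :=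
    (IsAlgClosed.splits f).eq_prod_roots_of_monic hm
  have hc : (⟨f.roots, hn⟩ : Finset Λ).card = 𝒞.δ := by
    rw [Finset.card_mk, IsAlgClosed.card_roots_eq_natDegree, hf, 𝒞.monic.natDegree_map, 𝒞.deg]
  generalize (⟨f.roots, hn⟩ : Finset Λ) = s at h2 h3 hc
  refine ⟨s, hc, h2, h3, fun c => ?_⟩
  have h4 : 𝒞.χ.map (MvPolynomial.eval₂Hom (rL B) fun i => rs (y i)) =
      ∏ η ∈ s, (X - C (rs η)) := by
    refine Polynomial.funext fun b => ?_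
    obtain ⟨t, ht, rfl⟩ := rs_surj b
    have h5 : ∀ η ∈ s, ‖η‖ ≤ 1 := fun η hη => root_le hy ((h2 η).1 hη)
    rw [← ev2_eq_eval, ← (rs_ev2' hy ht _).2, ev2_eq_eval, ← hf, h3, eval_prod, eval_prod]
    simp only [eval_sub, eval_X, eval_C]
    rw [(qmu_rs_prod s fun η hη => (gal1_O Λ).sub_mem ht (h5 η hη)).2]
    exact Finset.prod_congr rfl fun η hη => rs_sub ht (h5 η hη)
  have h5 : ∏ η ∈ s, (X - C (rs η)) = ((s.val.map rs).map fun b => X - C b).prod := by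
    rw [Multiset.map_map]
    rfl
  rw [mu, h4, ← count_roots, h5, roots_multiset_prod_X_sub_C, Multiset.count_map]
  simp only [eq_comm (a := c)]
  rfl

end QChart

end Pool.Agent.ZeroCyc
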