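import Pool.Agent.Lib.MP_796ce4_ag.ZQ.Dir
import Pool.Agent.Lib.MP_796ce4_ag.ZQ.QMu
import Pool.Agent.Lib.MP_796ce4_ag.ZY.ChB

/-! Auxiliary identities for polynomials in `(y, T)`. -/

namespace Pool.Agent.ZeroCyc

open Polynomial Module
open scoped Classical

set_option linter.unusedSectionVars false

variable {d n : ℕ} {R S : Type} [CommRing R] [CommRing S]

theorem ctd_ev (φ : R →+* S) (y : Fin d → S) (h : S) (G : MvPolynomial (Fin (d + 1)) R) :
    ev2 φ y h (MvPolynomial.finSuccEquiv R d G) = MvPolynomial.eval₂ φ (Fin.cons h y) G := by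
  induction G using MvPolynomial.induction_on with
  | C c =>
    rw [MvPolynomial.finSuccEquiv_apply, MvPolynomial.eval₂Hom_C, MvPolynomial.eval₂_C]
    exact dir_ev_const φ y h c
  | add G H h1 h2 => rw [map_add, map_add, h1, h2, MvPolynomial.eval₂_add]
  | mul_X G i h1 =>
    rw [map_mul, map_mul, h1, MvPolynomial.eval₂_mul, MvPolynomial.eval₂_X]
    congr 1
    refine Fin.cases ?_ (fun k => ?_) i
    · rw [MvPolynomial.finSuccEquiv_X_zero, dir_ev_X, Fin.cons_zero]
    · rw [MvPolynomial.finSuccEquiv_X_succ, dir_ev_var, Fin.cons_succ]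
theorem ctd_id (f : MP d R) :
    ev2 (C.comp MvPolynomial.C) (fun k => C (MvPolynomial.X k)) X f = f := by
  induction f using dir_ind with
  | hc c => exact dir_ev_const _ _ _ c
  | hv k => exact dir_ev_var _ _ _ k
  | hX => exact dir_ev_X _ _ _
  | ha f g h1 h2 => rw [map_add, h1, h2]
  | hm f g h1 h2 => rw [map_mul, h1, h2]
theorem ctd_top {σ : Type} {F : MvPolynomial σ R} (hF : F.totalDegree ≤ n) (φ : R →+* S)
    (a c : σ → S) :
    (MvPolynomial.eval₂ (C.comp φ) (fun j => C (a j) + C (c j) * X) F).coeff n =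
      MvPolynomial.eval₂ φ c (MvPolynomial.homogeneousComponent n F) := by
  rw [cha_eval₂_sum_comp, finsetSum_coeff, Finset.sum_eq_single n]
  · exact (homog_top (MvPolynomial.homogeneousComponent_isHomogeneous n F) φ a c).2
  · intro k hk hn
    have h1 := Finset.mem_range.1 hk
    exact coeff_eq_zero_of_natDegree_lt
      ((homog_top (MvPolynomial.homogeneousComponent_isHomogeneous k F) φ a c).1.trans_lt
        (by omega))
  · intro hn
    rw [Finset.mem_range, not_lt] at hn
    rw [MvPolynomial.homogeneousComponent_eq_zero _ _ hn, MvPolynomial.eval₂_zero, coeff_zero]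

variable {κ : Type} [Field κ]

theorem ctd_norm {f q : MP d κ} (hf : f.Monic) (hq : Irreducible q) (h : q ∣ f) : ∃ c : κ,
    (C (MvPolynomial.C c) * q).Monic ∧ Irreducible (C (MvPolynomial.C c) * q) ∧
      C (MvPolynomial.C c) * q ∣ f := by
  obtain ⟨r, hr, e⟩ := MvPolynomial.isUnit_iff_eq_C_of_isReduced.1
    (hf.isUnit_leadingCoeff_of_dvd h)
  have hC : IsUnit (C (MvPolynomial.C r⁻¹) : MP d κ) := (hr.inv.map _).map _
  refine ⟨r⁻¹, ?_, (irreducible_isUnit_mul hC).2 hq, hC.mul_left_dvd.2 h⟩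
  rw [Monic, leadingCoeff_mul, leadingCoeff_C, e, ← map_mul, inv_mul_cancel₀ hr.ne_zero, map_one]
theorem ctd_ind {P : MP d κ → Prop} (h1 : P 1) {f : MP d κ} (hf : f.Monic)
    (h : ∀ g r : MP d κ, g.Monic → Irreducible g → g ∣ f → P r → P (g * r)) : P f := by
  induction hn : f.natDegree using Nat.strong_induction_on generalizing f with
  | _ n ih =>
    by_cases h0 : f = 1
    · exact h0 ▸ h1
    obtain ⟨q, r, hq, hi, hr, e, hlt⟩ := qmu_factor hf h0
    have h2 := h q r hq hi ⟨r, e⟩ (ih _ (hn ▸ hlt) hr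
      (fun g r' g1 g2 g3 => h g r' g1 g2 (e ▸ g3.mul_left q)) rfl)
    exact e ▸ h2

end Pool.Agent.ZeroCyc
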