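import Pool.Agent.Lib.MP_796ce4_ag.ZQ.QChart
import Pool.Agent.Lib.MP_796ce4_ag.ZY.ChA

/-! Directional derivatives. -/

namespace Pool.Agent.ZeroCyc

open Polynomial Module
open scoped Classical

set_option linter.unusedSectionVars false

variable {d : ℕ} {R S S' : Type} [CommRing R] [CommRing S] [CommRing S'] (φ : R →+* S)
  (y : Fin d → S) (h : S) (ν : Fin d → S) (θ : S) (f g : MP d R)

theorem dir_ind {P : MP d R → Prop} (hc : ∀ c, P (C (MvPolynomial.C c)))
    (hv : ∀ k, P (C (MvPolynomial.X k))) (hX : P X) (ha : ∀ f g, P f → P g → P (f + g))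
    (hm : ∀ f g, P f → P g → P (f * g)) (f : MP d R) : P f := by
  have hC : ∀ a : MvPolynomial (Fin d) R, P (C a) := by
    intro a
    induction a using MvPolynomial.induction_on with
    | C c => exact hc c
    | add a b h1 h2 => rw [map_add]; exact ha _ _ h1 h2
    | mul_X a k h1 => rw [map_mul]; exact hm _ _ h1 (hv k)
  induction f using Polynomial.induction_on with
  | C a => exact hC a
  | add f g h1 h2 => exact ha _ _ h1 h2
  | monomial n a h1 => rw [pow_succ, ← mul_assoc]; exact hm _ _ h1 hX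
theorem dir_ev_const (c : R) : ev2 φ y h (C (MvPolynomial.C c)) = φ c := by
  simp [ev2]
theorem dir_ev_var (k : Fin d) : ev2 φ y h (C (MvPolynomial.X k)) = y k := by
  simp [ev2]
theorem dir_ev_X : ev2 φ y h X = h := by
  simp [ev2]
theorem dir_coeff_zero :
    (ev2 (C.comp φ) (fun i => C (y i) + C (ν i) * X) (C h + C θ * X) f).coeff 0 =
      ev2 φ y h f := by
  have h1 := map_ev2 (C.comp φ) (evalRingHom (0 : S)) (fun i => C (y i) + C (ν i) * X)
    (C h + C θ * X) f
  have h2 : (evalRingHom (0 : S)).comp (C.comp φ) = φ := RingHom.ext fun c => by simp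
  rw [h2] at h1
  rw [coeff_zero_eq_eval_zero]
  simpa using h1

theorem dir_add : dir φ y h ν θ (f + g) = dir φ y h ν θ f + dir φ y h ν θ g := by
  simp only [dir, map_add, coeff_add]
theorem dir_sub : dir φ y h ν θ (f - g) = dir φ y h ν θ f - dir φ y h ν θ g := by
  simp only [dir, map_sub, coeff_sub]
theorem dir_mul : dir φ y h ν θ (f * g) =
    dir φ y h ν θ f * ev2 φ y h g + ev2 φ y h f * dir φ y h ν θ g := by
  rw [dir, map_mul, mul_coeff_one, dir_coeff_zero, dir_coeff_zero, add_comm]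
  rfl
theorem dir_const (c : R) : dir φ y h ν θ (C (MvPolynomial.C c)) = 0 := by
  rw [dir, dir_ev_const, RingHom.comp_apply, coeff_C_of_ne_zero one_ne_zero]
theorem dir_var (k : Fin d) : dir φ y h ν θ (C (MvPolynomial.X k)) = ν k := by
  rw [dir, dir_ev_var]
  simp
theorem dir_X : dir φ y h ν θ X = θ := by
  rw [dir, dir_ev_X]
  simp
theorem map_dir (ψ : S →+* S') : ψ (dir φ y h ν θ f) =
    dir (ψ.comp φ) (fun i => ψ (y i)) (ψ h) (fun i => ψ (ν i)) (ψ θ) f := by
  have h1 := map_ev2 (C.comp φ) (mapRingHom ψ) (fun i => C (y i) + C (ν i) * X)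
    (C h + C θ * X) f
  have h2 : (mapRingHom ψ).comp (C.comp φ) = C.comp (ψ.comp φ) := RingHom.ext fun c => by simp
  rw [h2] at h1
  rw [dir, dir, ← coeff_map, ← coe_mapRingHom, h1]
  simp
theorem dir_mq (ψ : S →+* S') (y : Fin d → S') (h : S') (ν : Fin d → S') (θ : S') :
    dir ψ y h ν θ (mq φ f) = dir (ψ.comp φ) y h ν θ f := by
  rw [dir, dir, ev2_mq, RingHom.comp_assoc]
theorem dir_lin : ∃ A : Fin d → S, ∀ ν θ,
    dir φ y h ν θ f = ∑ k, A k * ν k + ev2 φ y h (derivative f) * θ := by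
  induction f using dir_ind with
  | hc c => exact ⟨0, fun ν θ => by simp [dir_const]⟩
  | hv k =>
    refine ⟨Pi.single k 1, fun ν θ => ?_⟩
    simp [dir_var, Pi.single_apply]
  | hX => exact ⟨0, fun ν θ => by simp [dir_X]⟩
  | ha f g h1 h2 =>
    obtain ⟨A, hA⟩ := h1
    obtain ⟨A', hA'⟩ := h2
    refine ⟨A + A', fun ν θ => ?_⟩
    rw [dir_add, hA, hA', map_add, map_add]
    simp only [Pi.add_apply, add_mul, Finset.sum_add_distrib]
    ring
  | hm f g h1 h2 =>
    obtain ⟨A, hA⟩ := h1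
    obtain ⟨A', hA'⟩ := h2
    refine ⟨fun k => A k * ev2 φ y h g + ev2 φ y h f * A' k, fun ν θ => ?_⟩
    have e : ∑ k, (A k * ev2 φ y h g + ev2 φ y h f * A' k) * ν k =
        (∑ k, A k * ν k) * ev2 φ y h g + ev2 φ y h f * ∑ k, A' k * ν k := by
      rw [Finset.sum_mul, Finset.mul_sum, ← Finset.sum_add_distrib]
      exact Finset.sum_congr rfl fun k _ => by ring
    rw [dir_mul, hA, hA', derivative_mul, map_add, map_mul, map_mul, e]
    ring
theorem dir_taylor (c : S) : ∃ e, ev2 φ (fun i => y i + c * ν i) (h + c * θ) f =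
    ev2 φ y h f + c * dir φ y h ν θ f + c ^ 2 * e := by
  induction f using dir_ind with
  | hc a => exact ⟨0, by simp [dir_const, dir_ev_const]⟩
  | hv k => exact ⟨0, by simp [dir_var, dir_ev_var]⟩
  | hX => exact ⟨0, by simp [dir_X, dir_ev_X]⟩
  | ha f g h1 h2 =>
    obtain ⟨e, he⟩ := h1
    obtain ⟨e', he'⟩ := h2
    refine ⟨e + e', ?_⟩
    rw [dir_add, map_add, map_add, he, he']
    ring
  | hm f g h1 h2 =>
    obtain ⟨e, he⟩ := h1
    obtain ⟨e', he'⟩ := h2
    refine ⟨e * (ev2 φ y h g + c * dir φ y h ν θ g + c ^ 2 * e') + ev2 φ y h f * e' +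
      dir φ y h ν θ f * (dir φ y h ν θ g + c * e'), ?_⟩
    rw [dir_mul, map_mul, map_mul, he, he']
    ring
/-- the derivative along a polynomial curve -/
theorem dir_curve (lam : Fin d → S[X]) (H : S[X]) (t : S) :
    (derivative (ev2 (C.comp φ) lam H f)).eval t = dir φ (fun i => (lam i).eval t) (H.eval t)
      (fun i => (derivative (lam i)).eval t) ((derivative H).eval t) f := by
  have h0 : ∀ f : MP d R, (ev2 (C.comp φ) lam H f).eval t =
      ev2 φ (fun i => (lam i).eval t) (H.eval t) f := fun f => by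
    have h1 := map_ev2 (C.comp φ) (evalRingHom t) lam H f
    have h2 : (evalRingHom t).comp (C.comp φ) = φ := RingHom.ext fun c => by simp
    rw [h2] at h1
    exact h1
  induction f using dir_ind with
  | hc a => simp [dir_const, dir_ev_const]
  | hv k => rw [dir_var, dir_ev_var]
  | hX => rw [dir_X, dir_ev_X]
  | ha f g h1 h2 => rw [dir_add, map_add, map_add, eval_add, h1, h2]
  | hm f g h1 h2 =>
    rw [dir_mul, map_mul, derivative_mul, eval_add, eval_mul, eval_mul, h1, h2, h0, h0]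
/-- the chain rule -/
theorem dir_comp {M : ℕ} (pp : Fin M → MP d R) (G : MvPolynomial (Fin M) R) :
    dir φ y h ν θ (MvPolynomial.eval₂ (C.comp MvPolynomial.C) pp G) =
      dG φ (fun a => ev2 φ y h (pp a)) (fun a => dir φ y h ν θ (pp a)) G := by
  have h0 : ∀ G : MvPolynomial (Fin M) R,
      ev2 φ y h (MvPolynomial.eval₂ (C.comp MvPolynomial.C) pp G) =
        MvPolynomial.eval₂ φ (fun a => ev2 φ y h (pp a)) G := fun G => by
    have h2 : (ev2 φ y h).comp (C.comp MvPolynomial.C) = φ :=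
      RingHom.ext fun c => dir_ev_const φ y h c
    rw [MvPolynomial.eval₂_comp_left, h2]
    rfl
  induction G using MvPolynomial.induction_on with
  | C c =>
    rw [MvPolynomial.eval₂_C, cha_dG_C]
    exact dir_const φ y h ν θ c
  | add G H h1 h2 => rw [MvPolynomial.eval₂_add, dir_add, cha_dG_add, h1, h2]
  | mul_X G i h1 =>
    rw [MvPolynomial.eval₂_mul, MvPolynomial.eval₂_X, dir_mul, cha_dG_mul_X, h1, h0]
theorem dir_not_irred {κ σ : Type} [Field κ] [IsAlgClosed κ] {G : MvPolynomial σ κ}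
    (hG : ∀ a, MvPolynomial.pderiv a G = 0) : ¬Irreducible G := by
  have h1 : ∀ m ∈ G.support, ∀ a, ((m a : ℕ) : κ) = 0 := by
    intro m hm a
    rcases Nat.eq_zero_or_pos (m a) with h0 | h0
    · rw [h0, Nat.cast_zero]
    have e : m - Finsupp.single a 1 + Finsupp.single a 1 = m :=
      tsub_add_cancel_of_le (Finsupp.single_le_iff.2 h0)
    have h2 := MvPolynomial.coeff_pderiv (i := a) G (m - Finsupp.single a 1)
    rw [hG a, MvPolynomial.coeff_zero, e] at h2
    have h3 := (mul_eq_zero.1 h2.symm).resolve_left (MvPolynomial.mem_support_iff.1 hm)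
    have h4 : (m - Finsupp.single a 1 : σ →₀ ℕ) a + 1 = m a := by
      rw [Finsupp.tsub_apply, Finsupp.single_eq_same]
      omega
    rw [← h4, Nat.cast_add, Nat.cast_one]
    exact h3
  obtain ⟨p, hp⟩ := CharP.exists κ
  rcases CharP.char_is_prime_or_zero κ p with hq | hq
  · have : Fact p.Prime := ⟨hq⟩
    choose r hr using fun c : κ => IsAlgClosed.exists_pow_nat_eq c hq.pos
    have h2 : G = (∑ m ∈ G.support,
        MvPolynomial.monomial (m.mapRange (· / p) (Nat.zero_div p)) (r (G.coeff m))) ^ p := by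
      rw [sum_pow_char]
      conv_lhs => rw [G.as_sum]
      refine Finset.sum_congr rfl fun m hm => ?_
      have e : p • m.mapRange (· / p) (Nat.zero_div p) = m := by
        ext a
        rw [Finsupp.smul_apply, Finsupp.mapRange_apply, smul_eq_mul]
        exact Nat.mul_div_cancel' ((CharP.cast_eq_zero_iff κ p _).1 (h1 m hm a))
      rw [MvPolynomial.monomial_pow, hr, e]
    rw [h2]
    exact not_irreducible_pow hq.ne_one
  · subst hq
    have h2 : G.totalDegree = 0 := by
      rw [MvPolynomial.totalDegree_eq_zero_iff]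
      intro m hm a
      exact zero_dvd_iff.1 ((CharP.cast_eq_zero_iff κ 0 _).1 (h1 m hm a))
    obtain ⟨r, hr⟩ := IsAlgClosed.exists_pow_nat_eq (G.coeff 0) two_pos
    rw [MvPolynomial.totalDegree_eq_zero_iff_eq_C.1 h2, ← hr, map_pow]
    exact not_irreducible_pow (by norm_num)
/-- an irreducible polynomial has a non-zero derivative somewhere -/
theorem exists_dir_ne {κ : Type} [Field κ] [IsAlgClosed κ] {g : MP d κ} (hi : Irreducible g) :
    ∃ a c ν θ, dir (RingHom.id κ) a c ν θ g ≠ 0 := by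
  by_contra hn
  have h0 : ∀ a c ν θ, dir (RingHom.id κ) a c ν θ g = 0 := fun a c ν θ => by
    by_contra h1
    exact hn ⟨a, c, ν, θ, h1⟩
  obtain ⟨G, rfl⟩ := (MvPolynomial.finSuccEquiv κ d).surjective g
  refine dir_not_irred (G := G) (fun a => ?_) ((MulEquiv.irreducible_iff _).1 hi)
  refine MvPolynomial.funext fun x => ?_
  have h1 := h0 (fun i => x i.succ) (x 0)
    (fun i => (Pi.single a 1 : Fin (d + 1) → κ) i.succ) ((Pi.single a 1 : Fin (d + 1) → κ) 0)
  have h2 := dir_comp (RingHom.id κ) (fun i => x i.succ) (x 0)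
    (fun i => (Pi.single a 1 : Fin (d + 1) → κ) i.succ) ((Pi.single a 1 : Fin (d + 1) → κ) 0)
    (fun i => MvPolynomial.finSuccEquiv κ d (MvPolynomial.X i)) G
  have h3 : MvPolynomial.eval₂ (C.comp MvPolynomial.C)
      (fun i => MvPolynomial.finSuccEquiv κ d (MvPolynomial.X i)) G =
        MvPolynomial.finSuccEquiv κ d G := by
    rw [MvPolynomial.finSuccEquiv_apply]
    have e : (fun i => MvPolynomial.finSuccEquiv κ d (MvPolynomial.X i)) =
        fun i : Fin (d + 1) => (Fin.cases X (fun k => C (MvPolynomial.X k)) i : MP d κ) := by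
      funext i
      refine Fin.cases ?_ (fun k => ?_) i
      · exact MvPolynomial.finSuccEquiv_X_zero
      · exact MvPolynomial.finSuccEquiv_X_succ
    rw [e]
    rfl
  have h4 : (fun i => ev2 (RingHom.id κ) (fun i => x i.succ) (x 0)
      (MvPolynomial.finSuccEquiv κ d (MvPolynomial.X i))) = x := by
    funext i
    refine Fin.cases ?_ (fun k => ?_) i
    · rw [MvPolynomial.finSuccEquiv_X_zero, dir_ev_X]
    · rw [MvPolynomial.finSuccEquiv_X_succ, dir_ev_var]
  have h5 : (fun i => dir (RingHom.id κ) (fun i => x i.succ) (x 0)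
      (fun i => (Pi.single a 1 : Fin (d + 1) → κ) i.succ) ((Pi.single a 1 : Fin (d + 1) → κ) 0)
      (MvPolynomial.finSuccEquiv κ d (MvPolynomial.X i))) = Pi.single a 1 := by
    funext i
    refine Fin.cases ?_ (fun k => ?_) i
    · rw [MvPolynomial.finSuccEquiv_X_zero, dir_X]
    · rw [MvPolynomial.finSuccEquiv_X_succ, dir_var]
  rw [h3, h1, h4, h5] at h2
  simpa [dG, Pi.single_apply] using h2.symm

variable {K Λ : Type} [Field K] [NormedField Λ] [IsUltrametricDist Λ] [Algebra K Λ]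

theorem rs_dir {E : IntermediateField K Λ} {y ν : Fin d → Λ} {h θ : Λ} (hy : ∀ i, ‖y i‖ ≤ 1)
    (hh : ‖h‖ ≤ 1) (hν : ∀ i, ‖ν i‖ ≤ 1) (hθ : ‖θ‖ ≤ 1) (f : MP d (OL E)) :
    ‖dir (OL E).subtype y h ν θ f‖ ≤ 1 ∧ rs (dir (OL E).subtype y h ν θ f) =
      dir (rL E) (fun i => rs (y i)) (rs h) (fun i => rs (ν i)) (rs θ) f := by
  let ι : OL E →+* towO Λ := (OL E).subtype.codRestrict (towO Λ) fun c => tow_memO.2 c.2.2
  have h1 : dir (OL E).subtype y h ν θ f =
      (dir ι (fun i => ⟨y i, tow_memO.2 (hy i)⟩) ⟨h, tow_memO.2 hh⟩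
        (fun i => ⟨ν i, tow_memO.2 (hν i)⟩) ⟨θ, tow_memO.2 hθ⟩ f : towO Λ) :=
    (map_dir ι (fun i => ⟨y i, tow_memO.2 (hy i)⟩) ⟨h, tow_memO.2 hh⟩
      (fun i => ⟨ν i, tow_memO.2 (hν i)⟩) ⟨θ, tow_memO.2 hθ⟩ f (towO Λ).subtype).symm
  rw [h1]
  refine ⟨tow_memO.1 (Subtype.property _), ?_⟩
  rw [res_coe, map_dir, res_def hh, res_def hθ, funext fun i => res_def (hy i),
    funext fun i => res_def (hν i)]
  rfl

end Pool.Agent.ZeroCyc
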