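import Pool.Agent.Lib.MP_796ce4_ag.ZQ.Ev
import Pool.Agent.Lib.MP_796ce4_ag.ZY.Cube

/-! Eisenstein polynomials and power series. -/

namespace Pool.Agent.ZeroCyc

open Polynomial Module
open scoped Classical IntermediateField PowerSeries

set_option linter.unusedSectionVars false

variable {p : ℕ} {K Λ : Type} [Field K] [CharZero K] [NormedField Λ] [IsUltrametricDist Λ]
  [IsAlgClosed Λ] [Algebra K Λ] [IsGalois K Λ] [Loc p K Λ] [Fact p.Prime] [CharP (kk Λ) p]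
variable {L : IntermediateField K Λ} {π t : Λ} {E : Λ[X]} {m : ℕ}

/-- Eisenstein polynomials of degree `m` over `L` -/
structure Eis (L : IntermediateField K Λ) (π : Λ) (m : ℕ) (E : Λ[X]) : Prop where
  monic : E.Monic
  deg : E.natDegree = m
  pos : 0 < m
  ov : Over L E
  le : ∀ i < m, ‖E.coeff i‖ ≤ ‖π‖
  zero : ‖E.coeff 0‖ = ‖π‖

theorem Eis.intg (h : Eis L π m E) (hπ : ‖π‖ < 1) : Intg E := by
  intro n
  rcases lt_trichotomy n m with hn | rfl | hn
  · exact (h.le n hn).trans hπ.le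
  · rw [← h.deg, h.monic.coeff_natDegree, norm_one]
  · rw [coeff_eq_zero_of_natDegree_lt (h.deg ▸ hn), norm_zero]
    exact zero_le_one
theorem Eis.norm_root (h : Eis L π m E) (hπ : ‖π‖ < 1) (h0 : E.eval t = 0) :
    ‖t‖ ^ m = ‖π‖ ∧ ‖t‖ < 1 ∧ ‖π‖ ≤ ‖t‖ := by
  have h1 := (h.intg hπ).root_le h.monic h0
  obtain ⟨k, rfl⟩ : ∃ k, m = k + 1 := ⟨m - 1, by have := h.pos; omega⟩
  have hc : E.coeff (k + 1) = 1 := by rw [← h.deg]; exact h.monic.coeff_natDegree
  rw [eval_eq_sum_range, h.deg, Finset.sum_range_succ, Finset.sum_range_succ', hc, one_mul,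
    pow_zero, mul_one] at h0
  have hS : ‖∑ i ∈ Finset.range k, E.coeff (i + 1) * t ^ (i + 1)‖ ≤ ‖π‖ * ‖t‖ := by
    refine IsUltrametricDist.norm_sum_le_of_forall_le_of_nonneg (by positivity) fun i hi => ?_
    rw [norm_mul, norm_pow, pow_succ]
    refine mul_le_mul (h.le _ (by have := Finset.mem_range.1 hi; omega))
      (mul_le_of_le_one_left (norm_nonneg _) (pow_le_one₀ (norm_nonneg _) h1)) (by positivity)
      (norm_nonneg _)
  have h2 : ‖t‖ ^ (k + 1) ≤ ‖π‖ := by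
    rw [← norm_pow, eq_neg_of_add_eq_zero_right h0, norm_neg]
    exact (IsUltrametricDist.norm_add_le_max _ _).trans
      (max_le (hS.trans (mul_le_of_le_one_right (norm_nonneg _) h1)) h.zero.le)
  have h3 : ‖t‖ < 1 := by
    refine lt_of_le_of_ne h1 fun e => ?_
    rw [e, one_pow] at h2
    exact absurd hπ (not_lt.2 h2)
  have h4 : ‖π‖ ≤ ‖t‖ ^ (k + 1) := by
    have h5 : E.coeff 0 = -(∑ i ∈ Finset.range k, E.coeff (i + 1) * t ^ (i + 1) + t ^ (k + 1)) := by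
      linear_combination h0
    have h6 := IsUltrametricDist.norm_add_le_max
      (∑ i ∈ Finset.range k, E.coeff (i + 1) * t ^ (i + 1)) (t ^ (k + 1))
    rw [← norm_neg, ← h5, h.zero, norm_pow] at h6
    rcases le_max_iff.1 h6 with h7 | h7
    · have h8 : ‖π‖ ≤ 0 := by nlinarith [h7.trans hS, norm_nonneg π]
      exact h8.trans (by positivity)
    · exact h7
  refine ⟨le_antisymm h2 h4, h3, h4.trans ?_⟩
  rw [pow_succ]
  exact mul_le_of_le_one_left (norm_nonneg _) (pow_le_one₀ (norm_nonneg _) h1)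

theorem eis_prod {c : ℝ} (hc : 0 ≤ c) (t : Λ) (s : Multiset Λ) (h : ∀ r ∈ s, c ≤ ‖t - r‖) :
    c ^ s.card ≤ ‖(s.map fun r => t - r).prod‖ := by
  induction s using Multiset.induction_on with
  | empty => simp
  | cons a s ih =>
    rw [Multiset.card_cons, Multiset.map_cons, Multiset.prod_cons, norm_mul, pow_succ']
    exact mul_le_mul (h a (Multiset.mem_cons_self a s))
      (ih fun r hr => h r (Multiset.mem_cons_of_mem hr)) (pow_nonneg hc _) (norm_nonneg _)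

include p

theorem eis_term (hL : π ∈ L) (hπ₀ : π ≠ 0) (hπ : ‖π‖ < 1) (hU : UnrF π L) (ht : ‖t‖ ^ m = ‖π‖)
    {b : ℕ → Λ} (hb : ∀ i, b i ∈ L) {j : ℕ} (hj : j < m) :
    ‖b j * t ^ j‖ ≤ ‖∑ i ∈ Finset.range m, b i * t ^ i‖ := by
  by_cases h0 : b j = 0
  · rw [h0, zero_mul, norm_zero]
    exact norm_nonneg _
  have h1 : 0 < ‖t‖ := by
    refine lt_of_le_of_ne (norm_nonneg _) fun e => hπ₀ (norm_eq_zero.1 ?_)
    rw [← ht, ← e, zero_pow (by omega)]
  have h2 : ‖t‖ ≠ 1 := fun e => by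
    rw [e, one_pow] at ht
    exact absurd hπ (not_lt.2 ht.le)
  have h3 : ∀ i, b i ≠ 0 → ∃ z : ℤ, ‖b i * t ^ i‖ = ‖t‖ ^ (m * z + i) := fun i hi => by
    obtain ⟨z, hz⟩ := exists_norm_eq_zpow hL hπ₀ hπ hU (hb i) hi
    refine ⟨z, ?_⟩
    rw [norm_mul, norm_pow, hz, ← ht, zpow_add₀ h1.ne', zpow_mul, zpow_natCast, zpow_natCast]
  have hm : j ∈ (Finset.range m).filter fun i => b i ≠ 0 :=
    Finset.mem_filter.2 ⟨Finset.mem_range.2 hj, h0⟩
  rw [← Finset.sum_filter_of_ne (p := fun i => b i ≠ 0) fun i _ hi => left_ne_zero_of_mul hi,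
    IsUltrametricDist.norm_sum_eq_sup'_of_pairwise_ne ⟨j, hm⟩]
  · exact Finset.le_sup' (fun i => ‖b i * t ^ i‖) hm
  · intro i hi i' hi' hne e
    obtain ⟨a1, a2⟩ := Finset.mem_filter.1 hi
    obtain ⟨b1, b2⟩ := Finset.mem_filter.1 hi'
    obtain ⟨z, hz⟩ := h3 i a2
    obtain ⟨z', hz'⟩ := h3 i' b2
    rw [Finset.mem_range] at a1 b1
    rw [hz, hz'] at e
    have h4 := zpow_right_injective₀ h1 h2 e
    have h5 := congrArg (· % (m : ℤ)) h4
    simp only [Int.mul_add_emod_self_left] at h5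
    rw [Int.emod_eq_of_lt (by omega) (by omega), Int.emod_eq_of_lt (by omega) (by omega)] at h5
    exact hne (by omega)

theorem Eis.le_der (h : Eis L π m E) (hL : π ∈ L) (hπ₀ : π ≠ 0) (hπ : ‖π‖ < 1) (hU : UnrF π L)
    (h0 : E.eval t = 0) : ‖(m : Λ)‖ * ‖π‖ ≤ ‖E.derivative.eval t‖ := by
  obtain ⟨h1, h2, -⟩ := h.norm_root hπ h0
  have hm := h.pos
  rw [eval_eq_sum_range' (n := m) (by
    have := natDegree_derivative_le E
    rw [h.deg] at this
    omega)]
  refine le_trans ?_ (eis_term hL hπ₀ hπ hU h1 h.ov.derivative (j := m - 1) (by omega))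
  have h3 : m - 1 + 1 = m := by omega
  have hc : E.coeff m = 1 := by rw [← h.deg]; exact h.monic.coeff_natDegree
  rw [coeff_derivative, h3, hc, one_mul, ← Nat.cast_succ, Nat.succ_eq_add_one, h3, norm_mul,
    norm_pow, ← h1]
  exact mul_le_mul_of_nonneg_left (pow_le_pow_of_le_one (norm_nonneg _) h2.le (by omega))
    (norm_nonneg _)
theorem Eis.sep (h : Eis L π m E) (hL : π ∈ L) (hπ₀ : π ≠ 0) (hπ : ‖π‖ < 1) (hU : UnrF π L)
    {t' : Λ} (h0 : E.eval t = 0) (h1 : E.eval t' = 0) (h2 : ‖t - t'‖ < ‖(m : Λ)‖ * ‖π‖) :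
    t = t' := by
  by_contra hne
  have h3 := (h.intg hπ).taylor_le (h.norm_root hπ h0).2.1.le (h.norm_root hπ h1).2.1.le
  rw [h0, h1, sub_zero, zero_sub, norm_neg, norm_mul, norm_sub_rev, pow_two] at h3
  have h4 := le_of_mul_le_mul_left h3 (norm_pos_iff.2 (sub_ne_zero.2 hne))
  exact absurd ((h.le_der hL hπ₀ hπ hU h0).trans h4) (not_le.2 h2)
theorem Eis.card (h : Eis L π m E) (hL : π ∈ L) (hπ₀ : π ≠ 0) (hπ : ‖π‖ < 1) (hU : UnrF π L) :
    E.roots.toFinset.card = m := by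
  have := charZero_of_loc (Λ := Λ) K
  rw [Multiset.toFinset_card_of_nodup, ← h.deg, (IsAlgClosed.splits E).natDegree_eq_card_roots]
  rw [Multiset.nodup_iff_count_le_one]
  intro y
  rw [count_roots]
  by_contra hlt
  obtain ⟨h1, h2⟩ := (one_lt_rootMultiplicity_iff_isRoot h.monic.ne_zero).1 (not_le.1 hlt)
  have h3 := h.le_der hL hπ₀ hπ hU h1
  rw [show E.derivative.eval y = 0 from h2, norm_zero] at h3
  exact absurd h3 (not_le.2 (mul_pos (norm_pos_iff.2 (Nat.cast_ne_zero.2 h.pos.ne'))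
    (norm_pos_iff.2 hπ₀)))
omit p in
theorem Eis.exists_near (h : Eis L π m E) (t : Λ) :
    ∃ t', E.eval t' = 0 ∧ ‖t - t'‖ ^ m ≤ ‖E.eval t‖ := by
  have hc : E.roots.card = m := by rw [← h.deg, (IsAlgClosed.splits E).natDegree_eq_card_roots]
  obtain ⟨t', h1, h2⟩ := E.roots.toFinset.exists_min_image (fun r => ‖t - r‖) (by
    rw [Multiset.toFinset_nonempty, ← Multiset.card_pos, hc]
    exact h.pos)
  refine ⟨t', (mem_roots h.monic.ne_zero).1 (Multiset.mem_toFinset.1 h1), ?_⟩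
  rw [(IsAlgClosed.splits E).eval_eq_prod_roots_of_monic h.monic, ← hc]
  exact eis_prod (norm_nonneg _) t _ fun r hr => h2 r (Multiset.mem_toFinset.2 hr)

/-- Weierstrass preparation -/
theorem exists_eis [FiniteDimensional K L] (hπ : ‖π‖ < 1) {Φ : Λ⟦X⟧} (hΦ : Φ ∈ SL L) (hm : 0 < m)
    (h1 : ‖PowerSeries.coeff m Φ‖ = 1) (h2 : ∀ i < m, ‖PowerSeries.coeff i Φ‖ ≤ ‖π‖)
    (h0 : ‖c0 Φ‖ = ‖π‖) : ∃ E, Eis L π m E ∧ ∀ t, ‖t‖ < 1 → ‖ev t Φ‖ = ‖E.eval t‖ ∧
      (E.eval t = 0 → ‖ev t (PowerSeries.derivative Λ Φ)‖ = ‖E.derivative.eval t‖) := by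
  obtain ⟨g, rfl⟩ := hΦ
  obtain ⟨_, _, hmax⟩ := OL_local L
  simp only [PowerSeries.coeff_map, Subring.coe_subtype] at h1 h2
  have ho : (g.map (IsLocalRing.residue (OL L))).order = m := by
    rw [PowerSeries.order_eq_nat]
    simp only [PowerSeries.coeff_map, ne_eq, IsLocalRing.residue_eq_zero_iff, hmax]
    exact ⟨by rw [h1]; exact lt_irrefl _, fun i hi => (h2 i hi).trans_lt hπ⟩
  obtain ⟨f, u, H⟩ := g.exists_isWeierstrassFactorization fun e => by
    rw [e, PowerSeries.order_zero] at ho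
    exact ENat.top_ne_natCast m ho
  have hd : f.natDegree = m := by rw [H.natDegree_eq_toNat_order_map, ho, ENat.toNat_natCast]
  have hE : ((f.map (OL L).subtype : Λ[X]) : Λ⟦X⟧) ∈ SL L :=
    ⟨f, Polynomial.polynomial_map_coe.symm⟩
  have hu : u.map (OL L).subtype ∈ SL L := ⟨u, rfl⟩
  have hu1 : ‖c0 (u.map (OL L).subtype)‖ = 1 := by
    have := OL_isUnit.1 (PowerSeries.isUnit_iff_constantCoeff.1 H.isUnit)
    rwa [← PowerSeries.coeff_zero_eq_constantCoeff_apply, PowerSeries.coeff_map,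
      PowerSeries.coeff_zero_eq_constantCoeff_apply]
  have he : g.map (OL L).subtype =
      ((f.map (OL L).subtype : Λ[X]) : Λ⟦X⟧) * u.map (OL L).subtype := by
    rw [H.eq_mul, map_mul, Polynomial.polynomial_map_coe]
  refine ⟨f.map (OL L).subtype, ⟨H.isDistinguishedAt.monic.map _,
    by rw [H.isDistinguishedAt.monic.natDegree_map, hd], hm, over_map f, fun i hi => ?_, ?_⟩,
    fun t ht => ?_⟩
  · obtain ⟨v, hv⟩ := H.isUnit.exists_right_inv
    have h3 : (f : (OL L)⟦X⟧) = g * v := by rw [H.eq_mul, mul_assoc, hv, mul_one]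
    rw [coeff_map, ← coeff_coe, h3, PowerSeries.coeff_mul, map_sum]
    refine IsUltrametricDist.norm_sum_le_of_forall_le_of_nonneg (norm_nonneg _) fun x hx => ?_
    rw [map_mul, norm_mul]
    have := Finset.HasAntidiagonal.mem_antidiagonal.1 hx
    exact (mul_le_of_le_one_right (norm_nonneg _) (PowerSeries.coeff x.2 v).2.2).trans
      (h2 _ (by omega))
  · rw [← h0, he, map_mul, norm_mul, hu1, mul_one, constantCoeff_coe]
  · have h3 : ‖ev t (u.map (OL L).subtype)‖ = 1 := by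
      rw [← hu1]
      refine norm_eq_of_sub_lt ?_
      rw [hu1, norm_sub_rev]
      exact ev_near ht hu
    refine ⟨by rw [he, ev_mul ht hE hu, norm_mul, h3, mul_one, ev_coe], fun h4 => ?_⟩
    rw [he, Derivation.leibniz, smul_eq_mul, smul_eq_mul,
      ev_add ht ((SL L).mul_mem hE (derivative_mem_SL hu)) ((SL L).mul_mem hu (derivative_mem_SL hE)),
      ev_mul ht hE (derivative_mem_SL hu), ev_mul ht hu (derivative_mem_SL hE), ev_coe, h4,
      zero_mul, zero_add, norm_mul, h3, one_mul, PowerSeries.derivative_coe, ev_coe]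

end Pool.Agent.ZeroCyc
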