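import Pool.Agent.Lib.MP_796ce4_ag.ZQ.Ser

/-! Evaluation of power series in the open unit disc. -/

namespace Pool.Agent.ZeroCyc

open Polynomial Module
open scoped Classical IntermediateField PowerSeries

set_option linter.unusedSectionVars false

/-- the value of a power series -/
noncomputable def ev {Λ : Type} [NormedField Λ] (t : Λ) (f : Λ⟦X⟧) : Λ :=
  ∑' i, PowerSeries.coeff i f * t ^ i

variable {p : ℕ} {K Λ : Type} [Field K] [CharZero K] [NormedField Λ] [IsUltrametricDist Λ]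
  [IsAlgClosed Λ] [Algebra K Λ] [IsGalois K Λ] [Loc p K Λ] [Fact p.Prime] [CharP (kk Λ) p]
variable {L L' : IntermediateField K Λ} {π t t' : Λ} {f g : Λ⟦X⟧} {k : ℕ}

theorem ev_coe (t : Λ) (u : Λ[X]) : ev t (u : Λ⟦X⟧) = u.eval t := by
  rw [ev, tsum_eq_sum (s := Finset.range (u.natDegree + 1)), eval_eq_sum_range]
  · exact Finset.sum_congr rfl fun i _ => by rw [Polynomial.coeff_coe]
  · intro i hi
    rw [Finset.mem_range, not_lt] at hi
    rw [Polynomial.coeff_coe, coeff_eq_zero_of_natDegree_lt hi, zero_mul]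
theorem ev_C (t c : Λ) : ev t (PowerSeries.C c) = c := by
  rw [← Polynomial.coe_C, ev_coe, eval_C]
theorem ev_X (t : Λ) : ev t (PowerSeries.X : Λ⟦X⟧) = t := by
  rw [← Polynomial.coe_X, ev_coe, eval_X]
theorem ev_zero (f : Λ⟦X⟧) : ev 0 f = c0 f := by
  rw [ev, tsum_eq_single 0]
  · simp
  · intro i hi
    rw [zero_pow hi, mul_zero]

theorem ev_pow_sub (ht : ‖t‖ ≤ 1) (ht' : ‖t'‖ ≤ 1) (i : ℕ) : ‖t ^ i - t' ^ i‖ ≤ ‖t - t'‖ := by
  induction i with
  | zero => simp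
  | succ i ih =>
    have h : t ^ (i + 1) - t' ^ (i + 1) = t * (t ^ i - t' ^ i) + t' ^ i * (t - t') := by ring
    rw [h]
    refine (IsUltrametricDist.norm_add_le_max _ _).trans (max_le ?_ ?_)
    · rw [norm_mul]
      exact (mul_le_of_le_one_left (norm_nonneg _) ht).trans ih
    · rw [norm_mul, norm_pow]
      exact mul_le_of_le_one_left (norm_nonneg _) (pow_le_one₀ (norm_nonneg _) ht')
theorem ev_term_le (h : f ∈ SL L) (i : ℕ) : ‖PowerSeries.coeff i f * t ^ i‖ ≤ ‖t‖ ^ i := by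
  rw [norm_mul, norm_pow]
  exact mul_le_of_le_one_left (pow_nonneg (norm_nonneg _) _) (mem_SL.1 h i).2
theorem ev_term_mem (h : f ∈ SL L) (i : ℕ) : PowerSeries.coeff i f * t ^ i ∈ L ⊔ K⟮t⟯ :=
  mul_mem ((le_sup_left : L ≤ L ⊔ K⟮t⟯) (mem_SL.1 h i).1)
    (pow_mem ((le_sup_right : K⟮t⟯ ≤ L ⊔ K⟮t⟯) (IntermediateField.mem_adjoin_simple_self K t)) i)
theorem ev_fin (L : IntermediateField K Λ) [FiniteDimensional K L] (t : Λ) :
    FiniteDimensional K ↥(L ⊔ K⟮t⟯) := by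
  have := IntermediateField.adjoin.finiteDimensional (Algebra.IsIntegral.isIntegral (R := K) t)
  infer_instance
/-- the formal chain rule -/
theorem ev_der {R σ : Type} [CommRing R] [Fintype σ] {φ : R →+* Λ} (x : σ → Λ⟦X⟧)
    (G : MvPolynomial σ R) :
    PowerSeries.derivative Λ (MvPolynomial.eval₂ ((PowerSeries.C (R := Λ)).comp φ) x G) =
      ∑ a, MvPolynomial.eval₂ ((PowerSeries.C (R := Λ)).comp φ) x (MvPolynomial.pderiv a G) *
        PowerSeries.derivative Λ (x a) := by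
  induction G using MvPolynomial.induction_on with
  | C c => simp [PowerSeries.derivative_C]
  | add G G' h h' => simp only [MvPolynomial.eval₂_add, map_add, h, h', add_mul,
      Finset.sum_add_distrib]
  | mul_X G b h =>
    simp only [MvPolynomial.eval₂_mul, MvPolynomial.eval₂_X, Derivation.leibniz, h, smul_eq_mul,
      MvPolynomial.eval₂_add, add_mul, Finset.sum_add_distrib, Finset.mul_sum, mul_assoc]
    congr 1
    rw [Finset.sum_eq_single b]
    · simp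
    · intro a _ ha
      rw [MvPolynomial.pderiv_X_of_ne ha.symm]
      simp
    · simp

include p

theorem ev_cont (σ : Λ ≃ₐ[K] Λ) : Continuous σ :=
  (AddMonoidHomClass.isometry_of_norm σ (Loc.norm_gal (p := p) σ)).continuous
theorem ev_sum_mem (M : IntermediateField K Λ) [FiniteDimensional K M] {β : Type} {a : β → Λ}
    {b : β → ℝ} (hb : Summable b) (hM : ∀ i, a i ∈ M) (ha : ∀ i, ‖a i‖ ≤ b i) :
    ∃ x ∈ M, HasSum a x :=
  cauchySeq_tendsto_of_isComplete (Loc.complete (p := p) M inferInstance)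
    (fun _ => sum_mem fun i _ => hM i) (cauchySeq_finset_of_norm_bounded hb ha)

theorem ev_gal (σ : Λ ≃ₐ[K] Λ) (t : Λ) (f : Λ⟦X⟧) : ev (σ t) (gS σ f) = σ (ev t f) := by
  have h := Function.LeftInverse.map_tsum (L := SummationFilter.unconditional ℕ)
    (fun i => PowerSeries.coeff i f * t ^ i) (g := σ) (g' := σ.symm) (ev_cont (p := p) σ)
    (ev_cont (p := p) σ.symm) σ.symm_apply_apply
  rw [ev, ev, h]
  refine tsum_congr fun i => ?_
  rw [PowerSeries.coeff_map, map_mul, map_pow]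
  rfl

variable [FiniteDimensional K L]

theorem ev_hasSum (ht : ‖t‖ < 1) (h : f ∈ SL L) :
    ∃ x ∈ L ⊔ K⟮t⟯, HasSum (fun i => PowerSeries.coeff i f * t ^ i) x := by
  have := ev_fin (K := K) L t
  exact ev_sum_mem (p := p) _ (summable_geometric_of_lt_one (norm_nonneg t) ht) (ev_term_mem h)
    (ev_term_le h)
theorem ev_summable (ht : ‖t‖ < 1) (h : f ∈ SL L) :
    Summable fun i => PowerSeries.coeff i f * t ^ i := by
  obtain ⟨x, -, hx⟩ := ev_hasSum (p := p) ht h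
  exact hx.summable
theorem ev_add (ht : ‖t‖ < 1) (h : f ∈ SL L) (h' : g ∈ SL L) : ev t (f + g) = ev t f + ev t g := by
  rw [ev, ev, ev, ← (ev_summable (p := p) ht h).tsum_add (ev_summable (p := p) ht h')]
  refine tsum_congr fun i => ?_
  rw [map_add, add_mul]
theorem ev_mul (ht : ‖t‖ < 1) (h : f ∈ SL L) (h' : g ∈ SL L) : ev t (f * g) = ev t f * ev t g := by
  have := ev_fin (K := K) L t
  have hs : Summable fun x : ℕ × ℕ =>
      PowerSeries.coeff x.1 f * t ^ x.1 * (PowerSeries.coeff x.2 g * t ^ x.2) := by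
    have hg := summable_geometric_of_lt_one (norm_nonneg t) ht
    obtain ⟨x, -, hx⟩ := ev_sum_mem (p := p) (L ⊔ K⟮t⟯)
      (a := fun x : ℕ × ℕ =>
        PowerSeries.coeff x.1 f * t ^ x.1 * (PowerSeries.coeff x.2 g * t ^ x.2))
      (hg.mul_of_nonneg hg (fun i => pow_nonneg (norm_nonneg t) i)
        fun i => pow_nonneg (norm_nonneg t) i)
      (fun x => mul_mem (ev_term_mem h x.1) (ev_term_mem h' x.2)) fun x => by
        rw [norm_mul]
        exact mul_le_mul (ev_term_le h x.1) (ev_term_le h' x.2) (norm_nonneg _)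
          (pow_nonneg (norm_nonneg t) _)
    exact hx.summable
  rw [ev, ev, ev, (ev_summable (p := p) ht h).tsum_mul_tsum_eq_tsum_sum_antidiagonal
    (ev_summable (p := p) ht h') hs]
  refine tsum_congr fun n => ?_
  rw [PowerSeries.coeff_mul, Finset.sum_mul]
  refine Finset.sum_congr rfl fun x hx => ?_
  rw [← Finset.HasAntidiagonal.mem_antidiagonal.1 hx]
  ring

variable (p L) in
/-- evaluation as a ring homomorphism -/
noncomputable def evS (ht : ‖t‖ < 1) : SL L →+* Λ where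
  toFun f := ev t f
  map_one' := ev_C t 1
  map_zero' := by simpa using ev_C t 0
  map_mul' f g := ev_mul (p := p) ht f.2 g.2
  map_add' f g := ev_add (p := p) ht f.2 g.2

theorem evS_apply (ht : ‖t‖ < 1) (f : SL L) : evS p L ht f = ev t f := rfl
theorem ev_sub (ht : ‖t‖ < 1) (h : f ∈ SL L) (h' : g ∈ SL L) : ev t (f - g) = ev t f - ev t g := by
  exact map_sub (evS p L ht) ⟨f, h⟩ ⟨g, h'⟩
theorem ev_le (h : f ∈ fS L π k) {ρ : ℝ} (hπ : ‖π‖ ≤ ρ) (ht : ‖t‖ ≤ ρ) (hρ : ρ < 1) :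
    ‖ev t f‖ ≤ ρ ^ k := by
  have h0 : 0 ≤ ρ := (norm_nonneg t).trans ht
  refine IsUltrametricDist.norm_tsum_le_of_forall_le fun i => ?_
  rw [norm_mul, norm_pow]
  calc ‖PowerSeries.coeff i f‖ * ‖t‖ ^ i ≤ ρ ^ (k - i) * ρ ^ i :=
        mul_le_mul ((h i).2.trans (pow_le_pow_left₀ (norm_nonneg _) hπ _))
          (pow_le_pow_left₀ (norm_nonneg _) ht _) (pow_nonneg (norm_nonneg _) _) (pow_nonneg h0 _)
    _ ≤ ρ ^ k := by
        rw [← pow_add]
        exact pow_le_pow_of_le_one h0 hρ.le (by omega)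
theorem ev_le_one (ht : ‖t‖ < 1) (h : f ∈ SL L) : ‖ev t f‖ ≤ 1 := by
  refine IsUltrametricDist.norm_tsum_le_of_forall_le fun i => ?_
  exact (ev_term_le h i).trans (pow_le_one₀ (norm_nonneg _) ht.le)
theorem ev_sub_le (ht : ‖t‖ < 1) (ht' : ‖t'‖ < 1) (h : f ∈ SL L) :
    ‖ev t f - ev t' f‖ ≤ ‖t - t'‖ := by
  rw [ev, ev, ← (ev_summable (p := p) ht h).tsum_sub (ev_summable (p := p) ht' h)]
  refine IsUltrametricDist.norm_tsum_le_of_forall_le fun i => ?_
  rw [← mul_sub, norm_mul]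
  exact (mul_le_of_le_one_left (norm_nonneg _) (mem_SL.1 h i).2).trans (ev_pow_sub ht.le ht'.le i)
theorem ev_near (ht : ‖t‖ < 1) (h : f ∈ SL L) : ‖ev t f - c0 f‖ < 1 := by
  rw [← ev_zero]
  refine (ev_sub_le (p := p) ht (by simp) h).trans_lt ?_
  rwa [sub_zero]
theorem rs_ev (ht : ‖t‖ < 1) (h : f ∈ SL L) : rs (ev t f) = rs (c0 f) := by
  exact (rs_eq_iff (ev_le_one (p := p) ht h) (c0_mem h).2).2 (ev_near (p := p) ht h)
theorem ev_mem (ht : ‖t‖ < 1) (h : f ∈ SL L) (hL : L ≤ L') (ht' : t ∈ L') : ev t f ∈ L' := by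
  obtain ⟨x, hx, hx'⟩ := ev_hasSum (p := p) ht h
  rw [ev, hx'.tsum_eq]
  exact (sup_le hL (IntermediateField.adjoin_simple_le_iff.2 ht') : L ⊔ K⟮t⟯ ≤ L') hx

variable {B : IntermediateField K Λ}

theorem ev_comp (ht : ‖t‖ < 1) (hB : B ≤ L) :
    (evS p L ht).comp ((cS B).codRestrict (SL L) (cS_mem hB)) = (OL B).subtype :=
  RingHom.ext fun c => ev_C t c
theorem ev_sum (ht : ‖t‖ < 1) {α : Type} {s : Finset α} {u : α → Λ⟦X⟧} (h : ∀ a ∈ s, u a ∈ SL L) :
    ev t (∑ a ∈ s, u a) = ∑ a ∈ s, ev t (u a) := by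
  induction s using Finset.induction_on with
  | empty => simpa using ev_C t 0
  | insert a s ha ih =>
    rw [Finset.sum_insert ha, Finset.sum_insert ha, ev_add (p := p) ht
      (h a (Finset.mem_insert_self _ _)) (sum_mem fun b hb => h b (Finset.mem_insert_of_mem hb)),
      ih fun b hb => h b (Finset.mem_insert_of_mem hb)]
theorem ev_eval₂ (ht : ‖t‖ < 1) (hB : B ≤ L) (h : f ∈ SL L) (u : (OL B)[X]) :
    ev t (u.eval₂ (cS B) f) = u.eval₂ (OL B).subtype (ev t f) := by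
  have h1 := hom_eval₂ u ((cS B).codRestrict (SL L) (cS_mem hB)) (SL L).subtype ⟨f, h⟩
  have h2 := hom_eval₂ u ((cS B).codRestrict (SL L) (cS_mem hB)) (evS p L ht) ⟨f, h⟩
  rw [ev_comp (p := p) ht hB] at h2
  exact (congrArg (ev t) h1).symm.trans h2
theorem ev_mv {σ : Type} (ht : ‖t‖ < 1) (hB : B ≤ L) {x : σ → Λ⟦X⟧} (hx : ∀ i, x i ∈ SL L)
    (G : MvPolynomial σ (OL B)) : ev t (MvPolynomial.eval₂ (cS B) x G) =
      MvPolynomial.eval₂ (OL B).subtype (fun i => ev t (x i)) G := by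
  have h1 := MvPolynomial.hom_eval₂ G ((cS B).codRestrict (SL L) (cS_mem hB)) (SL L).subtype
    fun i => ⟨x i, hx i⟩
  have h2 := MvPolynomial.hom_eval₂ G ((cS B).codRestrict (SL L) (cS_mem hB)) (evS p L ht)
    fun i => ⟨x i, hx i⟩
  rw [ev_comp (p := p) ht hB] at h2
  exact (congrArg (ev t) h1).symm.trans h2
theorem ev_ev2 {d : ℕ} (ht : ‖t‖ < 1) (hB : B ≤ L) {x : Fin d → Λ⟦X⟧} (hx : ∀ i, x i ∈ SL L)
    (h : f ∈ SL L) (G : MP d (OL B)) : ev t (ev2 (cS B) x f G) =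
      ev2 (OL B).subtype (fun i => ev t (x i)) (ev t f) G := by
  have h1 := map_ev2 ((cS B).codRestrict (SL L) (cS_mem hB)) (SL L).subtype
    (fun i => ⟨x i, hx i⟩) ⟨f, h⟩ G
  have h2 := map_ev2 ((cS B).codRestrict (SL L) (cS_mem hB)) (evS p L ht)
    (fun i => ⟨x i, hx i⟩) ⟨f, h⟩ G
  rw [ev_comp (p := p) ht hB] at h2
  exact (congrArg (ev t) h1).symm.trans h2
/-- the chain rule -/
theorem ev_chain {σ : Type} [Fintype σ] (ht : ‖t‖ < 1) (hB : B ≤ L) {x : σ → Λ⟦X⟧}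
    (hx : ∀ i, x i ∈ SL L) (G : MvPolynomial σ (OL B)) :
    ev t (PowerSeries.derivative Λ (MvPolynomial.eval₂ (cS B) x G)) =
      ∑ a, MvPolynomial.eval₂ (OL B).subtype (fun i => ev t (x i)) (MvPolynomial.pderiv a G) *
        ev t (PowerSeries.derivative Λ (x a)) := by
  rw [ev_der, ev_sum (p := p) ht fun a _ =>
    mul_mem (mv_mem_SL (cS_mem hB) hx _) (derivative_mem_SL (hx a))]
  refine Finset.sum_congr rfl fun a _ => ?_
  rw [ev_mul (p := p) ht (mv_mem_SL (cS_mem hB) hx _) (derivative_mem_SL (hx a)),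
    ev_mv (p := p) ht hB hx]

end Pool.Agent.ZeroCyc
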