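import Pool.Agent.Lib.MP_796ce4_ag.ZY.CvW

/-! The algebra of a union of fibres with the norm of the monomial basis. -/

namespace Pool.Agent.ZeroCyc

open Polynomial Module
open scoped Classical IntermediateField PowerSeries

set_option linter.unusedSectionVars false

variable {L : Type} [NormedField L] [IsUltrametricDist L]

/-- all coefficients have norm at most `r` -/
def CB (r : ℝ) (a : L[X][X]) : Prop := ∀ i k, ‖(a.coeff i).coeff k‖ ≤ r

/-- reduced polynomials -/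
def Rd (n δ : ℕ) (a : L[X][X]) : Prop := a.degree < δ ∧ ∀ i, (a.coeff i).degree < n

/-- `A` is the quotient by `u(τ)` and `χ(τ, T)` with the norm of the monomial basis -/
structure NAlg (u : L[X]) (χ : L[X][X]) {A : Type} [NormedCommRing A] [Algebra L A]
    (π : L[X][X] →ₐ[L] A) : Prop where
  u0 : π (C u) = 0
  χ0 : π χ = 0
  red : ∀ x, ∃ a, Rd u.natDegree χ.natDegree a ∧ π a = x
  le : ∀ a r, 0 ≤ r → CB r a → ‖π a‖ ≤ r
  cb : ∀ a, Rd u.natDegree χ.natDegree a → CB ‖π a‖ a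
  pt : ∀ (𝕜 : Type) [Field 𝕜] (e : L →+* 𝕜) (t η : 𝕜), u.eval₂ e t = 0 → e2 e t η χ = 0 →
    ∃ φ : A →+* 𝕜, ∀ a, φ (π a) = e2 e t η a

theorem zqfa_div {R : Type} [CommRing R] [Nontrivial R] (M : R → Prop) (h0 : M 0)
    (hadd : ∀ x y, M x → M y → M (x + y)) (hsub : ∀ x y, M x → M y → M (x - y)) {g : R[X]}
    (hg : g.Monic) (hM : ∀ k x, M x → M (g.coeff k * x)) (f : R[X]) (hf : ∀ k, M (f.coeff k)) :
    (∀ k, M ((f /ₘ g).coeff k)) ∧ ∀ k, M ((f %ₘ g).coeff k) := by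
  suffices h : ∃ q r : R[X], (r + g * q = f ∧ r.degree < g.degree) ∧ (∀ k, M (q.coeff k)) ∧
      ∀ k, M (r.coeff k) by
    obtain ⟨q, r, h1, h2⟩ := h
    obtain ⟨e1, e2⟩ := div_modByMonic_unique q r hg h1
    rwa [e1, e2]
  induction f using degree_lt_wf.induction with
  | _ f ih =>
    by_cases h : g.degree ≤ f.degree ∧ f ≠ 0
    · obtain ⟨q, r, ⟨h1, h2⟩, h3, h4⟩ := ih _ (div_wf_lemma h hg) fun k => by
        rw [coeff_sub, ← mul_assoc, coeff_mul_X_pow', coeff_mul_C]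
        refine hsub _ _ (hf k) ?_
        split_ifs
        · exact hM _ _ (hf _)
        · exact h0
      refine ⟨q + C f.leadingCoeff * X ^ (f.natDegree - g.natDegree), r,
        ⟨by rw [mul_add, ← add_assoc, h1, sub_add_cancel], h2⟩, fun k => ?_, h4⟩
      rw [coeff_add, coeff_C_mul_X_pow]
      refine hadd _ _ (h3 k) ?_
      split_ifs
      · exact hf _
      · exact h0
    · refine ⟨0, f, ⟨by simp, ?_⟩, fun k => by simpa using h0, hf⟩
      rcases not_and_or.1 h with h | h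
      · exact not_le.1 h
      · rw [not_not.1 h, degree_zero]
        exact bot_lt_iff_ne_bot.2 (degree_ne_bot.2 hg.ne_zero)

theorem zqfa_add {x y : L} {r : ℝ} (hx : ‖x‖ ≤ r) (hy : ‖y‖ ≤ r) : ‖x + y‖ ≤ r :=
  (IsUltrametricDist.norm_add_le_max x y).trans (max_le hx hy)

theorem zqfa_sub {x y : L} {r : ℝ} (hx : ‖x‖ ≤ r) (hy : ‖y‖ ≤ r) : ‖x - y‖ ≤ r := by
  rw [sub_eq_add_neg]
  exact zqfa_add hx (by rwa [norm_neg])

theorem zqfa_mul {p q : L[X]} {r r' : ℝ} (h : ∀ k, ‖p.coeff k‖ ≤ r) (h' : ∀ k, ‖q.coeff k‖ ≤ r')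
    (k : ℕ) : ‖(p * q).coeff k‖ ≤ r * r' := by
  have h0 := (norm_nonneg _).trans (h 0)
  rw [coeff_mul]
  refine IsUltrametricDist.norm_sum_le_of_forall_le_of_nonneg
    (mul_nonneg h0 ((norm_nonneg _).trans (h' 0))) fun x _ => ?_
  rw [norm_mul]
  exact mul_le_mul (h _) (h' _) (norm_nonneg _) h0

/-- division by a monic integral polynomial preserves bounds -/
theorem norm_coeff_divMod {f g : L[X]} (hg : g.Monic) (hg1 : ∀ k, ‖g.coeff k‖ ≤ 1) {r : ℝ}
    (hf : ∀ k, ‖f.coeff k‖ ≤ r) : (∀ k, ‖(f /ₘ g).coeff k‖ ≤ r) ∧ ∀ k, ‖(f %ₘ g).coeff k‖ ≤ r :=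
  zqfa_div (fun x => ‖x‖ ≤ r) (by simpa using (norm_nonneg _).trans (hf 0))
    (fun _ _ => zqfa_add) (fun _ _ => zqfa_sub) hg (fun k x hx => by
      rw [norm_mul]
      exact (mul_le_of_le_one_left (norm_nonneg _) (hg1 k)).trans hx) f hf

theorem CB.mul {a a' : L[X][X]} {r r' : ℝ} (h : CB r a) (h' : CB r' a') : CB (r * r') (a * a') := by
  intro i k
  rw [coeff_mul, finsetSum_coeff]
  exact IsUltrametricDist.norm_sum_le_of_forall_le_of_nonneg
    (mul_nonneg ((norm_nonneg _).trans (h 0 0)) ((norm_nonneg _).trans (h' 0 0)))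
    fun x _ => zqfa_mul (h _) (h' _) k

theorem CB.mp {O : Type} [CommRing O] {ι : O →+* L} (hι : ∀ x, ‖ι x‖ ≤ 1) (a : O[X][X]) :
    CB 1 (mp ι a) := fun i k => by
  simpa [coeff_map] using hι _

theorem CB.e2_le {𝕜 : Type} [NormedField 𝕜] [IsUltrametricDist 𝕜] {e : L →+* 𝕜}
    (he : ∀ x, ‖e x‖ = ‖x‖) {t η : 𝕜} (ht : ‖t‖ ≤ 1) (hη : ‖η‖ ≤ 1) {a : L[X][X]} {r : ℝ}
    (h : CB r a) : ‖e2 e t η a‖ ≤ r := by
  have h0 := (norm_nonneg _).trans (h 0 0)
  rw [e2, coe_eval₂RingHom, eval₂_eq_sum_range]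
  refine IsUltrametricDist.norm_sum_le_of_forall_le_of_nonneg h0 fun i _ => ?_
  rw [norm_mul, norm_pow]
  refine (mul_le_of_le_one_right (norm_nonneg _) (pow_le_one₀ (norm_nonneg _) hη)).trans ?_
  rw [coe_eval₂RingHom, eval₂_eq_sum_range]
  refine IsUltrametricDist.norm_sum_le_of_forall_le_of_nonneg h0 fun k _ => ?_
  rw [norm_mul, norm_pow, he]
  exact (mul_le_of_le_one_right (norm_nonneg _) (pow_le_one₀ (norm_nonneg _) ht)).trans (h i k)

theorem zqfa_ex {R : Type} [CommRing R] (n : ℕ) (f : ℕ → R) :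
    ∃ p : R[X], p.degree < n ∧ ∀ i, p.coeff i = if i < n then f i else 0 := by
  have e : ∀ j, (∑ i ∈ Finset.range n, monomial i (f i)).coeff j = if j < n then f j else 0 :=
    fun j => by simp [finsetSum_coeff, coeff_monomial]
  exact ⟨_, (degree_lt_iff_coeff_zero _ n).2 fun m hm => by rw [e, if_neg (by omega)], e⟩

/-- the coordinates of the reduction -/
noncomputable def zqfaK (u : L[X]) (χ : L[X][X]) :
    L[X][X] →ₗ[L] (Fin χ.natDegree × Fin u.natDegree → L) :=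
  LinearMap.pi fun j => lcoeff L j.2 ∘ₗ modByMonicHom u ∘ₗ
    (lcoeff L[X] j.1 ∘ₗ modByMonicHom χ).restrictScalars L

theorem zqfaK_apply (u : L[X]) (χ a : L[X][X]) (j : Fin χ.natDegree × Fin u.natDegree) :
    zqfaK u χ a j = ((a %ₘ χ).coeff j.1 %ₘ u).coeff j.2 := rfl

section

variable {u : L[X]} {χ : L[X][X]} (hu : u.Monic) (hχ : χ.Monic)
include hu hχ

theorem zqfa_rd {a : L[X][X]} (h : Rd u.natDegree χ.natDegree a)
    (j : Fin χ.natDegree × Fin u.natDegree) : zqfaK u χ a j = (a.coeff j.1).coeff j.2 := by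
  rw [zqfaK_apply, (modByMonic_eq_self_iff hχ).2 (degree_eq_natDegree hχ.ne_zero ▸ h.1),
    (modByMonic_eq_self_iff hu).2 (degree_eq_natDegree hu.ne_zero ▸ h.2 _)]

theorem zqfa_cb {a : L[X][X]} (h : Rd u.natDegree χ.natDegree a) : CB ‖zqfaK u χ a‖ a := by
  intro i k
  by_cases hi : i < χ.natDegree
  · by_cases hk : k < u.natDegree
    · exact (zqfa_rd hu hχ h (⟨i, hi⟩, ⟨k, hk⟩)).symm ▸ norm_le_pi_norm _ _
    · rw [(degree_lt_iff_coeff_zero _ _).1 (h.2 i) k (not_lt.1 hk), norm_zero]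
      exact norm_nonneg _
  · rw [(degree_lt_iff_coeff_zero _ _).1 h.1 i (not_lt.1 hi), coeff_zero, norm_zero]
    exact norm_nonneg _

theorem zqfa_ker {a : L[X][X]} (h : a ∈ Ideal.span {C u, χ}) : zqfaK u χ a = 0 := by
  obtain ⟨α, β, rfl⟩ := Ideal.mem_span_pair.1 h
  funext j
  rw [zqfaK_apply, add_modByMonic, (modByMonic_eq_zero_iff_dvd hχ).2 (dvd_mul_left _ _), add_zero,
    mul_comm, ← smul_eq_C_mul, smul_modByMonic, coeff_smul, smul_eq_mul,
    (modByMonic_eq_zero_iff_dvd hu).2 (dvd_mul_right _ _), coeff_zero, Pi.zero_apply]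

theorem zqfa_red (a : L[X][X]) :
    ∃ b, Rd u.natDegree χ.natDegree b ∧ a - b ∈ Ideal.span {C u, χ} := by
  obtain ⟨b, h1, h2⟩ := zqfa_ex χ.natDegree fun i => (a %ₘ χ).coeff i %ₘ u
  have hd := degree_modByMonic_lt a hχ
  rw [degree_eq_natDegree hχ.ne_zero] at hd
  refine ⟨b, ⟨h1, fun i => ?_⟩, ?_⟩
  · rw [h2, ← degree_eq_natDegree hu.ne_zero]
    split_ifs
    · exact degree_modByMonic_lt _ hu
    · rw [degree_zero]
      exact bot_lt_iff_ne_bot.2 (degree_ne_bot.2 hu.ne_zero)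
  · obtain ⟨q, hq⟩ : C u ∣ a %ₘ χ - b := (C_dvd_iff_dvd_coeff _ _).2 fun i => by
      rw [coeff_sub, h2]
      split_ifs with hi
      · exact ⟨(a %ₘ χ).coeff i /ₘ u, sub_eq_of_eq_add' (modByMonic_add_div _ _).symm⟩
      · rw [(degree_lt_iff_coeff_zero _ _).1 hd i (not_lt.1 hi), sub_zero]
        exact dvd_zero _
    refine Ideal.mem_span_pair.2 ⟨q, a /ₘ χ, ?_⟩
    have := modByMonic_add_div a χ
    linear_combination this - hq

theorem zqfa_inj {a : L[X][X]} (h : zqfaK u χ a = 0) : a ∈ Ideal.span {C u, χ} := by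
  obtain ⟨b, h1, h2⟩ := zqfa_red hu hχ a
  have h3 := zqfa_ker hu hχ h2
  rw [map_sub, h, zero_sub, neg_eq_zero] at h3
  have h4 := zqfa_cb hu hχ h1
  rw [h3, norm_zero] at h4
  have : b = 0 := by
    ext i k
    simpa using h4 i k
  rwa [this, sub_zero] at h2

theorem zqfa_sur : Function.Surjective (zqfaK u χ) := by
  intro c
  choose p hp1 hp2 using fun i : Fin χ.natDegree => zqfa_ex u.natDegree fun k =>
    if h : k < u.natDegree then c (i, ⟨k, h⟩) else 0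
  obtain ⟨a, h1, h2⟩ := zqfa_ex χ.natDegree fun i => if h : i < χ.natDegree then p ⟨i, h⟩ else 0
  have h3 : Rd u.natDegree χ.natDegree a := ⟨h1, fun i => by
    rw [h2]
    split_ifs
    · exact hp1 _
    · rw [degree_zero]
      exact WithBot.bot_lt_coe _⟩
  refine ⟨a, funext fun j => ?_⟩
  rw [zqfa_rd hu hχ h3, h2, if_pos j.1.2, dif_pos j.1.2, hp2, if_pos j.2.2, dif_pos j.2.2]

theorem zqfa_le (hu1 : ∀ k, ‖u.coeff k‖ ≤ 1) (hχ1 : CB 1 χ) {a : L[X][X]} {r : ℝ} (hr : 0 ≤ r)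
    (h : CB r a) : ‖zqfaK u χ a‖ ≤ r := by
  have h1 := (zqfa_div (fun p : L[X] => ∀ k, ‖p.coeff k‖ ≤ r) (by simpa using hr)
    (fun x y hx hy k => by rw [coeff_add]; exact zqfa_add (hx k) (hy k))
    (fun x y hx hy k => by rw [coeff_sub]; exact zqfa_sub (hx k) (hy k)) hχ
    (fun i x hx k => by simpa using zqfa_mul (hχ1 i) hx k) a h).2
  exact (pi_norm_le_iff_of_nonneg hr).2 fun j => (norm_coeff_divMod hu hu1 (h1 _)).2 _

end

theorem exists_nalg [CompleteSpace L] {u : L[X]} {χ : L[X][X]} (hu : u.Monic) (hχ : χ.Monic)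
    (hu1 : ∀ k, ‖u.coeff k‖ ≤ 1) (hχ1 : CB 1 χ) :
    ∃ (A : Type) (_ : NormedCommRing A) (_ : NormedAlgebra L A) (_ : IsUltrametricDist A)
      (_ : CompleteSpace A) (π : L[X][X] →ₐ[L] A), NAlg u χ π := by
  let I : Ideal L[X][X] := Ideal.span {C u, χ}
  let κ : (L[X][X] ⧸ I) →ₗ[L] (Fin χ.natDegree × Fin u.natDegree → L) :=
    (I.restrictScalars L).liftQ (zqfaK u χ) (fun a ha => zqfa_ker hu hχ ha) ∘ₗ
      (Submodule.Quotient.restrictScalarsEquiv L I).symm.toLinearMap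
  have hκ : ∀ a, κ (Ideal.Quotient.mk I a) = zqfaK u χ a := fun a => rfl
  have hinj : Function.Injective κ := (injective_iff_map_eq_zero κ).2 fun x hx => by
    obtain ⟨a, rfl⟩ := Ideal.Quotient.mk_surjective x
    exact Ideal.Quotient.eq_zero_iff_mem.2 (zqfa_inj hu hχ hx)
  have hsur : Function.Surjective κ := fun c => by
    obtain ⟨a, ha⟩ := zqfa_sur hu hχ c
    exact ⟨_, (hκ a).trans ha⟩
  have hred : ∀ x : L[X][X] ⧸ I, ∃ a, Rd u.natDegree χ.natDegree a ∧ Ideal.Quotient.mk I a = x :=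
    fun x => by
      obtain ⟨a, rfl⟩ := Ideal.Quotient.mk_surjective x
      obtain ⟨b, h1, h2⟩ := zqfa_red hu hχ a
      exact ⟨b, h1, (Ideal.Quotient.eq.2 h2).symm⟩
  let N : NormedAddCommGroup (L[X][X] ⧸ I) := NormedAddCommGroup.induced _ _ κ hinj
  have hn : ∀ x : L[X][X] ⧸ I, ‖x‖ = ‖κ x‖ := fun _ => rfl
  let R : NormedCommRing (L[X][X] ⧸ I) :=
    { N, (inferInstance : CommRing (L[X][X] ⧸ I)) with
      norm_mul_le := fun x y => by
        obtain ⟨a, ha, rfl⟩ := hred x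
        obtain ⟨b, hb, rfl⟩ := hred y
        rw [← map_mul]
        exact zqfa_le hu hχ hu1 hχ1 (mul_nonneg (norm_nonneg _) (norm_nonneg _))
          ((zqfa_cb hu hχ ha).mul (zqfa_cb hu hχ hb)) }
  let S : NormedAlgebra L (L[X][X] ⧸ I) :=
    { (inferInstance : Algebra L (L[X][X] ⧸ I)) with
      norm_smul_le := fun c x => by
        change ‖κ (c • x)‖ ≤ ‖c‖ * ‖κ x‖
        rw [map_smul, norm_smul] }
  refine ⟨L[X][X] ⧸ I, R, S,
    IsUltrametricDist.isUltrametricDist_of_forall_norm_add_le_max_norm fun x y => ?_,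
    ((AddMonoidHomClass.isometry_of_norm κ fun _ => rfl).isUniformInducing.completeSpace_congr
      hsur).2 inferInstance, Ideal.Quotient.mkₐ L I,
    Ideal.Quotient.eq_zero_iff_mem.2 (Ideal.subset_span (by simp)),
    Ideal.Quotient.eq_zero_iff_mem.2 (Ideal.subset_span (by simp)), hred,
    fun a r hr h => zqfa_le hu hχ hu1 hχ1 hr h, fun a ha => zqfa_cb hu hχ ha,
    fun 𝕜 _ e t η h1 h2 => ⟨Ideal.Quotient.lift I (e2 e t η) fun a ha => ?_, fun a => rfl⟩⟩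
  · change ‖κ (x + y)‖ ≤ max ‖κ x‖ ‖κ y‖
    rw [map_add]
    exact IsUltrametricDist.norm_add_le_max _ _
  · obtain ⟨α, β, rfl⟩ := Ideal.mem_span_pair.1 ha
    have h3 : e2 e t η (C u) = 0 := by simpa [e2] using h1
    rw [map_add, map_mul, map_mul, h2, h3, mul_zero, mul_zero, add_zero]

end Pool.Agent.ZeroCyc
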