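import Pool.Agent.Lib.MP_796ce4_ag.ZY.FgB

/-! Strictly differentiable maps with values in a normed algebra; the implicit relation. -/

namespace Pool.Agent.ZeroCyc

open Polynomial Module
open scoped Classical IntermediateField PowerSeries

set_option linter.unusedSectionVars false

variable {L E F H A O : Type} [NormedField L] [IsUltrametricDist L] [NormedAddCommGroup E]
  [NormedSpace L E] [IsUltrametricDist E] [NormedAddCommGroup F] [NormedSpace L F]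
  [IsUltrametricDist F] [NormedAddCommGroup H] [NormedSpace L H] [IsUltrametricDist H]
  [NormedCommRing A] [NormedAlgebra L A] [IsUltrametricDist A] [CommRing O]

theorem zqfb_mul {a b : A} {c d : ℝ} (ha : ‖a‖ ≤ c) (hb : ‖b‖ ≤ d) : ‖a * b‖ ≤ c * d :=
  (norm_mul_le a b).trans (mul_le_mul ha hb (norm_nonneg _) ((norm_nonneg _).trans ha))

theorem zqfb_mul1 {a b : A} {d : ℝ} (ha : ‖a‖ ≤ 1) (hb : ‖b‖ ≤ d) : ‖a * b‖ ≤ d := by
  simpa using zqfb_mul ha hb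

theorem zqfb_smul {a : L} {b : A} {c d : ℝ} (ha : ‖a‖ ≤ c) (hb : ‖b‖ ≤ d) : ‖a • b‖ ≤ c * d := by
  rw [norm_smul]
  exact mul_le_mul ha hb (norm_nonneg _) ((norm_nonneg _).trans ha)

theorem zqfb_sub {a b : F} {c : ℝ} (ha : ‖a‖ ≤ c) (hb : ‖b‖ ≤ c) : ‖a - b‖ ≤ c := by
  rw [sub_eq_add_neg]
  exact fga_add ha (by rwa [norm_neg])

theorem SD.mulA {f g : E → A} {ℓ m : E →ₗ[L] A} (h : SD f ℓ) (hg : SD g m) {a b : A}
    (ha : ‖a‖ ≤ 1) (hb : ‖b‖ ≤ 1) :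
    SD (fun x => (a + f x) * (b + g x) - a * b) (a • m + b • ℓ) := by
  refine ⟨by simp [h.zero, hg.zero],
    fun x => fga_add (zqfb_mul1 ha (hg.le x)) (zqfb_mul1 hb (h.le x)), fun x y hx hy => ?_⟩
  have e : (a + f x) * (b + g x) - a * b - ((a + f y) * (b + g y) - a * b) -
      (a • m + b • ℓ) (x - y) = a * (g x - g y - m (x - y)) + b * (f x - f y - ℓ (x - y)) +
      (f x * (g x - g y) + g y * (f x - f y)) := by
    simp only [LinearMap.add_apply, LinearMap.smul_apply, smul_eq_mul]; ring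
  rw [e]
  refine fga_add (fga_add (zqfb_mul1 ha (hg.est x y hx hy)) (zqfb_mul1 hb (h.est x y hx hy)))
    (fga_add (zqfb_mul ((h.norm_le hx).trans (le_max_left _ _)) (hg.lip hx hy))
      (zqfb_mul ((hg.norm_le hy).trans (le_max_right _ _)) (h.lip hx hy)))

theorem SD.smulA {f : E → L} {ℓ : E →ₗ[L] L} {g : E → A} {m : E →ₗ[L] A} (h : SD f ℓ)
    (hg : SD g m) {b : A} (hb : ‖b‖ ≤ 1) : SD (fun x => f x • (b + g x)) (ℓ.smulRight b) := by
  refine ⟨by simp [h.zero], fun x => ?_, fun x y hx hy => ?_⟩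
  · simpa using zqfb_smul (h.le x) hb
  have e : f x • (b + g x) - f y • (b + g y) - (ℓ.smulRight b) (x - y) =
      (f x - f y - ℓ (x - y)) • b + (f x • (g x - g y) + (f x - f y) • g y) := by
    simp only [LinearMap.smulRight_apply, smul_add, smul_sub, sub_smul]; abel
  rw [e]
  refine fga_add ?_ (fga_add (zqfb_smul ((h.norm_le hx).trans (le_max_left _ _)) (hg.lip hx hy)) ?_)
  · simpa using zqfb_smul (h.est x y hx hy) hb
  · rw [mul_comm]
    exact zqfb_smul (h.lip hx hy) ((hg.norm_le hy).trans (le_max_right _ _))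

theorem SD.rescale {f : F → H} {ℓ : F →ₗ[L] H} (h : SD f ℓ) {S : E →ₗ[L] F} {c : L} (hc0 : c ≠ 0)
    (hc : ‖c‖ ≤ 1) (hS : ∀ x, ‖S x‖ ≤ ‖c‖ * ‖x‖) {m : E →ₗ[L] H}
    (hm : ∀ x, ℓ (S x) = c ^ 2 • m x) (hm1 : ∀ x, ‖m x‖ ≤ ‖x‖) :
    SD (fun x => (c ^ 2)⁻¹ • f (S x)) m := by
  refine ⟨by simp [h.zero], hm1, fun x y hx hy => ?_⟩
  have hc2 : c ^ 2 ≠ 0 := pow_ne_zero 2 hc0
  have hcp : 0 < ‖c‖ := norm_pos_iff.2 hc0
  have k : ∀ x, ‖x‖ < 1 → ‖S x‖ < 1 := fun x hx =>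
    ((hS x).trans (mul_le_of_le_one_left (norm_nonneg _) hc)).trans_lt hx
  have e : (c ^ 2)⁻¹ • f (S x) - (c ^ 2)⁻¹ • f (S y) - m (x - y) =
      (c ^ 2)⁻¹ • (f (S x) - f (S y) - ℓ (S x - S y)) := by
    rw [← map_sub S, hm, smul_sub, smul_sub, inv_smul_smul₀ hc2]
  rw [e, norm_smul, norm_inv, norm_pow, inv_mul_le_iff₀ (by positivity)]
  refine (h.est _ _ (k x hx) (k y hy)).trans ?_
  rw [← map_sub S]
  have h1 : max ‖S x‖ ‖S y‖ ≤ ‖c‖ * max ‖x‖ ‖y‖ :=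
    max_le ((hS x).trans (mul_le_mul_of_nonneg_left (le_max_left _ _) hcp.le))
      ((hS y).trans (mul_le_mul_of_nonneg_left (le_max_right _ _) hcp.le))
  refine (mul_le_mul h1 (hS _) (norm_nonneg _) (by positivity)).trans (le_of_eq ?_)
  ring

theorem norm_eval₂A_le {ι : O →+* A} (hι : ∀ x, ‖ι x‖ ≤ 1) {τ : A} (hτ : ‖τ‖ ≤ 1) (u : O[X]) :
    ‖u.eval₂ ι τ‖ ≤ 1 := by
  induction u using Polynomial.induction_on with
  | C a => simpa using hι a
  | add p q hp hq => rw [eval₂_add]; exact fga_add hp hq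
  | monomial n a ih =>
    rw [pow_succ, ← mul_assoc, eval₂_mul, eval₂_X]
    exact zqfb_mul1 ih hτ

theorem norm_e2A_le {ι : O →+* A} (hι : ∀ x, ‖ι x‖ ≤ 1) {τ η : A} (hτ : ‖τ‖ ≤ 1) (hη : ‖η‖ ≤ 1)
    (a : O[X][X]) : ‖e2 ι τ η a‖ ≤ 1 := by
  induction a using Polynomial.induction_on with
  | C a => rw [e2_C]; exact norm_eval₂A_le hι hτ a
  | add p q hp hq => rw [map_add]; exact fga_add hp hq
  | monomial n a ih =>
    rw [pow_succ, ← mul_assoc, map_mul, e2_X]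
    exact zqfb_mul1 ih hη

variable (L) in
theorem sd_eval₂A {ι : O →+* A} (hι : ∀ x, ‖ι x‖ ≤ 1) {τ : A} (hτ : ‖τ‖ ≤ 1) (u : O[X]) :
    SD (fun z : A => u.eval₂ ι (τ + z) - u.eval₂ ι τ)
      ((derivative u).eval₂ ι τ • LinearMap.id (R := L) (M := A)) := by
  induction u using Polynomial.induction_on with
  | C a =>
    exact (sd_linear (ℓ := (0 : A →ₗ[L] A)) (by simp)).congr (fun x _ => by simp) (by simp)
  | add p q hp hq =>
    refine (hp.add hq).congr (fun x _ => ?_) ?_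
    · simp only [eval₂_add]; ring
    · rw [derivative_add, eval₂_add, add_smul]
  | monomial n a ih =>
    rw [pow_succ, ← mul_assoc]
    generalize C a * X ^ n = p at ih ⊢
    refine (ih.mulA (sd_linear (ℓ := LinearMap.id (R := L) (M := A)) (by simp))
      (norm_eval₂A_le hι hτ p) hτ).congr (fun x _ => ?_) ?_
    · simp only [eval₂_mul, eval₂_X, LinearMap.id_apply]; ring
    · refine LinearMap.ext fun z => ?_
      simp only [derivative_mul, derivative_X, mul_one, eval₂_add, eval₂_mul, eval₂_X,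
        LinearMap.add_apply, LinearMap.smul_apply, LinearMap.id_apply, smul_eq_mul]
      ring

variable (L) in
theorem sd_e2A {ι : O →+* A} (hι : ∀ x, ‖ι x‖ ≤ 1) {τ η : A} (hτ : ‖τ‖ ≤ 1) (hη : ‖η‖ ≤ 1)
    (a : O[X][X]) : ∃ D : A, ‖D‖ ≤ 1 ∧
      SD (fun z : A × A => e2 ι (τ + z.1) (η + z.2) a - e2 ι τ η a)
        (D • LinearMap.fst L A A + e2 ι τ η (derivative a) • LinearMap.snd L A A) := by
  induction a using Polynomial.induction_on with
  | C a =>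
    refine ⟨(derivative a).eval₂ ι τ, norm_eval₂A_le hι hτ _, ((sd_eval₂A L hι hτ a).comp
      (sd_linear (ℓ := LinearMap.fst L A A) norm_fst_le)).congr (fun x _ => ?_) ?_⟩
    · simp only [e2_C, LinearMap.fst_apply]
    · refine LinearMap.ext fun z => ?_
      simp
  | add p q hp hq =>
    obtain ⟨D, hD, hp⟩ := hp
    obtain ⟨B, hB, hq⟩ := hq
    refine ⟨D + B, fga_add hD hB, (hp.add hq).congr (fun x _ => ?_) ?_⟩
    · simp only [map_add]; ring
    · rw [derivative_add, map_add, add_smul, add_smul]; abel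
  | monomial n a ih =>
    rw [pow_succ, ← mul_assoc]
    generalize C a * X ^ n = p at ih ⊢
    obtain ⟨D, hD, hp⟩ := ih
    refine ⟨η * D, zqfb_mul1 hη hD, (hp.mulA (sd_linear (ℓ := LinearMap.snd L A A) norm_snd_le)
      (norm_e2A_le hι hτ hη p) hη).congr (fun x _ => ?_) ?_⟩
    · simp only [map_mul, e2_X, LinearMap.snd_apply]; ring
    · refine LinearMap.ext fun z => ?_
      simp only [derivative_mul, derivative_X, mul_one, map_add, map_mul, e2_X,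
        LinearMap.add_apply, LinearMap.smul_apply, LinearMap.fst_apply, LinearMap.snd_apply,
        smul_eq_mul]
      ring

/-- every small displacement becomes principal after a correction in the image of `Y` -/
theorem exists_rel_alg [CompleteSpace L] [CompleteSpace A] {ι : O →+* A} (hι : ∀ x, ‖ι x‖ ≤ 1)
    {χ : O[X][X]} {u : O[X]} {τ T b v : A} (hτ : ‖τ‖ ≤ 1) (hT : ‖T‖ ≤ 1) (hb : ‖b‖ ≤ 1)
    (hv : ‖v‖ ≤ 1) {c : L} (hc0 : c ≠ 0) (hc : ‖c‖ ≤ 1) (hχ : e2 ι τ T χ = 0)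
    (hu : u.eval₂ ι τ = 0) (hb' : b * e2 ι τ T (derivative χ) = algebraMap L A c)
    (hv' : v * (derivative u).eval₂ ι τ = 1) {I σ : Type} [Fintype I] [Fintype σ]
    (mon : I → O[X][X]) (Y : (σ → L) →ₗ[L] A)
    (iso : ∀ (a : I → L) (z : σ → L), ‖∑ i, a i • e2 ι τ T (mon i) + Y z‖ = max ‖a‖ ‖z‖)
    (sur : ∀ x, ∃ (a : I → L) (z : σ → L), ∑ i, a i • e2 ι τ T (mon i) + Y z = x) :
    ∃ (Φ : A → σ → L) (ℓ : A →ₗ[L] σ → L), SD Φ ℓ ∧
      (∀ x, ∃ a : I → L, x + (∑ i, a i • e2 ι τ T (mon i) + Y (ℓ x)) = 0) ∧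
      ∀ x, ‖x‖ < 1 → ∃ (a : I → L) (ξ : A), ‖a‖ < 1 ∧ ‖ξ‖ < 1 ∧
        e2 ι (τ + c ^ 2 • (v * (x + Y (Φ x)))) (T + c • (b * ξ)) χ = 0 ∧
        u.eval₂ ι (τ + c ^ 2 • (v * (x + Y (Φ x)))) + c ^ 2 • ∑ i, a i •
          e2 ι (τ + c ^ 2 • (v * (x + Y (Φ x)))) (T + c • (b * ξ)) (mon i) = 0 := by
  have hc2 : c ^ 2 ≠ 0 := pow_ne_zero 2 hc0
  have hY : ∀ z, ‖Y z‖ ≤ ‖z‖ := fun z => by
    have := iso 0 z
    simp only [Pi.zero_apply, zero_smul, Finset.sum_const_zero, zero_add, norm_zero] at this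
    exact this.le.trans (max_le (norm_nonneg _) le_rfl)
  let px : (A × (I → L) × (σ → L) × A) →ₗ[L] A := LinearMap.fst L _ _
  let pa : (A × (I → L) × (σ → L) × A) →ₗ[L] (I → L) :=
    LinearMap.fst L _ _ ∘ₗ LinearMap.snd L _ _
  let pz : (A × (I → L) × (σ → L) × A) →ₗ[L] (σ → L) :=
    LinearMap.fst L _ _ ∘ₗ LinearMap.snd L _ _ ∘ₗ LinearMap.snd L _ _
  let pξ : (A × (I → L) × (σ → L) × A) →ₗ[L] A :=
    LinearMap.snd L _ _ ∘ₗ LinearMap.snd L _ _ ∘ₗ LinearMap.snd L _ _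
  have nx : ∀ p, ‖px p‖ ≤ ‖p‖ := fun p => norm_fst_le p
  have na : ∀ p, ‖pa p‖ ≤ ‖p‖ := fun p => (norm_fst_le p.2).trans (norm_snd_le p)
  have nz : ∀ p, ‖pz p‖ ≤ ‖p‖ := fun p =>
    (norm_fst_le p.2.2).trans ((norm_snd_le p.2).trans (norm_snd_le p))
  have nξ : ∀ p, ‖pξ p‖ ≤ ‖p‖ := fun p =>
    (norm_snd_le p.2.2).trans ((norm_snd_le p.2).trans (norm_snd_le p))
  let W : (A × (I → L) × (σ → L) × A) →ₗ[L] A := px + Y ∘ₗ pz
  have nW : ∀ p, ‖W p‖ ≤ ‖p‖ := fun p => fga_add (nx p) ((hY _).trans (nz p))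
  let S1 : (A × (I → L) × (σ → L) × A) →ₗ[L] A := c ^ 2 • (v • W)
  let S2 : (A × (I → L) × (σ → L) × A) →ₗ[L] A := c • (b • pξ)
  have eS1 : ∀ p, S1 p = c ^ 2 • (v * W p) := fun p => rfl
  have eS2 : ∀ p, S2 p = c • (b * pξ p) := fun p => rfl
  have n1 : ∀ p, ‖S1 p‖ ≤ ‖c‖ * ‖p‖ := fun p => by
    rw [eS1]
    refine zqfb_smul ?_ (zqfb_mul1 hv (nW p))
    rw [norm_pow, sq]
    exact mul_le_of_le_one_left (norm_nonneg _) hc
  have n2 : ∀ p, ‖S2 p‖ ≤ ‖c‖ * ‖p‖ := fun p => zqfb_smul le_rfl (zqfb_mul1 hb (nξ p))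
  have nS : ∀ p, ‖(S1.prod S2) p‖ ≤ ‖c‖ * ‖p‖ := fun p => max_le (n1 p) (n2 p)
  have nS' : ∀ p, ‖(S1.prod S2) p‖ ≤ ‖p‖ := fun p =>
    (nS p).trans (mul_le_of_le_one_left (norm_nonneg _) hc)
  obtain ⟨D, hD, sχ⟩ := sd_e2A L hι hτ hT χ
  have s1 := sχ.rescale hc0 hc nS (m := (D * v) • W + pξ) (fun p => by
      have e : e2 ι τ T (derivative χ) * (c • (b * pξ p)) = c ^ 2 • pξ p := by
        rw [mul_smul_comm, ← mul_assoc, mul_comm _ b, hb', ← Algebra.smul_def, smul_smul, sq]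
      show D * S1 p + e2 ι τ T (derivative χ) * S2 p = c ^ 2 • (D * v * W p + pξ p)
      rw [eS1, eS2, e, mul_smul_comm, smul_add, mul_assoc])
    (fun p => fga_add (zqfb_mul1 (zqfb_mul1 hD hv) (nW p)) (nξ p))
  have s2 := (sd_eval₂A L hι hτ u).rescale hc0 hc n1 (m := W) (fun p => by
      show (derivative u).eval₂ ι τ * S1 p = c ^ 2 • W p
      rw [eS1, mul_smul_comm, ← mul_assoc, mul_comm _ v, hv', one_mul]) nW
  have s3 : SD (fun p : A × (I → L) × (σ → L) × A =>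
      ∑ i, pa p i • e2 ι (τ + S1 p) (T + S2 p) (mon i))
      (∑ i, (LinearMap.proj i ∘ₗ pa).smulRight (e2 ι τ T (mon i))) := by
    refine SD.sum fun i _ => ?_
    obtain ⟨D', -, sm⟩ := sd_e2A L hι hτ hT (mon i)
    refine ((sd_linear (ℓ := LinearMap.proj i ∘ₗ pa)
      (fun p => (norm_le_pi_norm (pa p) i).trans (na p))).smulA (sm.comp (sd_linear nS'))
      (norm_e2A_le hι hτ hT (mon i))).congr (fun p _ => ?_) rfl
    simp only [add_sub_cancel]
    rfl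
  have sΨ := (sd_linear nx).prod ((s2.add s3).prod s1)
  set Λ := px.prod ((W + ∑ i, (LinearMap.proj i ∘ₗ pa).smulRight (e2 ι τ T (mon i))).prod
    ((D * v) • W + pξ)) with hΛ
  have eΛ : ∀ p, Λ p = (p.1, p.1 + (∑ i, p.2.1 i • e2 ι τ T (mon i) + Y p.2.2.1),
      D * v * (p.1 + Y p.2.2.1) + p.2.2.2) := fun p => by
    refine Prod.ext rfl (Prod.ext ?_ rfl)
    show W p + (∑ i, (LinearMap.proj i ∘ₗ pa).smulRight (e2 ι τ T (mon i))) p = _
    rw [LinearMap.sum_apply, add_comm (∑ i, _) (Y _), ← add_assoc]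
    rfl
  obtain ⟨g, m, sg, hlm, -, hfg, -⟩ := sΨ.inverse (fun p => le_antisymm (sΨ.le p) (by
      have h1 : ‖p.1‖ ≤ ‖Λ p‖ := by rw [eΛ]; exact le_max_left _ _
      have h2 : ‖p.1 + (∑ i, p.2.1 i • e2 ι τ T (mon i) + Y p.2.2.1)‖ ≤ ‖Λ p‖ := by
        rw [eΛ]; exact (le_max_left _ _).trans (le_max_right _ _)
      have h3 : ‖D * v * (p.1 + Y p.2.2.1) + p.2.2.2‖ ≤ ‖Λ p‖ := by
        rw [eΛ]; exact (le_max_right _ _).trans (le_max_right _ _)
      have h4 := zqfb_sub h2 h1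
      rw [add_sub_cancel_left, iso, max_le_iff] at h4
      have h5 := zqfb_sub h3 (zqfb_mul1 (zqfb_mul1 hD hv) (fga_add h1 ((hY _).trans h4.2)))
      rw [add_sub_cancel_left] at h5
      exact max_le h1 (max_le h4.1 (max_le h4.2 h5))))
    (fun y => by
      obtain ⟨a, z, h⟩ := sur (y.2.1 - y.1)
      refine ⟨(y.1, a, z, y.2.2 - D * v * (y.1 + Y z)), ?_⟩
      rw [eΛ]
      refine Prod.ext rfl (Prod.ext ?_ ?_)
      · show y.1 + (∑ i, a i • e2 ι τ T (mon i) + Y z) = y.2.1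
        rw [h, add_sub_cancel]
      · show D * v * (y.1 + Y z) + (y.2.2 - D * v * (y.1 + Y z)) = y.2.2
        rw [add_sub_cancel])
  have nin : ∀ x : A, ‖LinearMap.inl L A (A × A) x‖ ≤ ‖x‖ := fun x => by
    simp [Prod.norm_def]
  refine ⟨fun x => pz (g (LinearMap.inl L A (A × A) x)), pz ∘ₗ m ∘ₗ LinearMap.inl L A (A × A),
    (sd_linear nz).comp (sg.comp (sd_linear nin)), fun x => ?_, fun x hx => ?_⟩
  · have h := hlm (LinearMap.inl L A (A × A) x)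
    rw [eΛ] at h
    have h1 : (m (LinearMap.inl L A (A × A) x)).1 = x := congrArg Prod.fst h
    have h2 := congrArg (fun q => q.2.1) h
    simp only [h1] at h2
    exact ⟨_, h2⟩
  · have hx' := (nin x).trans_lt hx
    have h := hfg _ hx'
    have hn := (sg.norm_le hx').trans_lt hx'
    beta_reduce
    generalize g (LinearMap.inl L A (A × A) x) = p at h hn ⊢
    have h1 : px p = x := congrArg Prod.fst h
    have h2 : (c ^ 2)⁻¹ • (u.eval₂ ι (τ + S1 p) - u.eval₂ ι τ) +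
        ∑ i, pa p i • e2 ι (τ + S1 p) (T + S2 p) (mon i) = 0 := congrArg (fun q => q.2.1) h
    have h3 : (c ^ 2)⁻¹ • (e2 ι (τ + S1 p) (T + S2 p) χ - e2 ι τ T χ) = 0 :=
      congrArg (fun q => q.2.2) h
    have e1 : S1 p = c ^ 2 • (v * (x + Y (pz p))) := by rw [← h1]; rfl
    refine ⟨pa p, pξ p, (na p).trans_lt hn, (nξ p).trans_lt hn, ?_, ?_⟩
    · rw [← e1, ← eS2]
      have h4 := congrArg (fun q => c ^ 2 • q) h3
      simpa only [smul_inv_smul₀ hc2, smul_zero, hχ, sub_zero] using h4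
    · rw [← e1, ← eS2]
      have h4 := congrArg (fun q => c ^ 2 • q) h2
      simpa only [smul_add, smul_inv_smul₀ hc2, smul_zero, hu, sub_zero] using h4

end Pool.Agent.ZeroCyc
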