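import Pool.Agent.Lib.MP_796ce4_ag.ZQ.FC1
import Pool.Agent.Lib.MP_796ce4_ag.ZY.CvS

/-! Complements of the space of functions of bounded weight; moving points in a fibre. -/

namespace Pool.Agent.ZeroCyc

open Polynomial Module
open scoped Classical IntermediateField PowerSeries

set_option linter.unusedSectionVars false

section compl

variable {L A : Type} [NormedField L] [IsUltrametricDist L] [NormedCommRing A] [NormedAlgebra L A]
  [IsUltrametricDist A]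

theorem nalg_compl {u : L[X]} {χ : L[X][X]} {π : L[X][X] →ₐ[L] A} (h : NAlg u χ π) {n δ b : ℕ}
    (hn : u.natDegree = n) (hδ : χ.natDegree = δ) (M : ℕ → L[X])
    (hM : ∀ i < δ, (M i).Monic ∧ (M i).natDegree + b * i = n ∧ ∀ k, ‖(M i).coeff k‖ ≤ 1) :
    ∃ Y : ((Σ i : Fin δ, Fin (b * i)) → L) →ₗ[L] A,
      (∀ z, Y z = ∑ s, z s • π (C (M s.1 * X ^ (s.2 : ℕ)) * X ^ (s.1 : ℕ))) ∧
      (∀ (a : (Σ i : Fin δ, Fin (n - b * i)) → L) z,
        ‖∑ s, a s • π (C (X ^ (s.2 : ℕ)) * X ^ (s.1 : ℕ)) + Y z‖ = max ‖a‖ ‖z‖) ∧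
      ∀ x, ∃ (a : (Σ i : Fin δ, Fin (n - b * i)) → L) (z : (Σ i : Fin δ, Fin (b * i)) → L),
        ∑ s, a s • π (C (X ^ (s.2 : ℕ)) * X ^ (s.1 : ℕ)) + Y z = x :=
  zqfc_compl h hn hδ M hM

end compl

variable {L O 𝕜 J : Type} [NormedField L] [IsUltrametricDist L] [CommRing O] [NormedField 𝕜]
  [IsUltrametricDist 𝕜] [IsAlgClosed 𝕜] [Fintype J]

/-- the point close to `Q` over `Q.1 + s` -/
noncomputable def mvq (χ : 𝕜[X][X]) (r : ℝ) (Q : 𝕜 × 𝕜) (s : 𝕜) : 𝕜 × 𝕜 :=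
  (Q.1 + s, if h : ∃ η, On χ (Q.1 + s, η) ∧ ‖η - Q.2‖ < r then h.choose else 0)

/-- the points of the fibres over the `t j` -/
noncomputable def fbs (χ : 𝕜[X][X]) (t : J → 𝕜) : Finset (𝕜 × 𝕜) :=
  Finset.univ.biUnion fun j => (χ.map (evalRingHom (t j))).roots.toFinset.image fun η => (t j, η)

/-- a curve with incongruent fibres near which it is uniformly etale -/
structure FGD (ι : O →+* L) (e : L →+* 𝕜) (b δ : ℕ) (χ : O[X][X]) (c : O) (τ : J → O) : Prop where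
  le : ∀ x, ‖ι x‖ ≤ 1
  range : ∀ x, ‖x‖ ≤ 1 → x ∈ ι.range
  inj : Function.Injective ι
  iso : ∀ x, ‖e x‖ = ‖x‖
  wt : Wt b δ χ
  ne : ι c ≠ 0
  sep : ∀ j k, j ≠ k → ‖ι (τ j - τ k)‖ = 1
  bez : ∃ (ρ : O[X]) (α β : O[X][X]), C (C c * ρ) = α * χ + β * derivative χ ∧
    ∀ j, ‖ι (ρ.eval (τ j))‖ = 1

/-- congruent to one of the base values -/
def Near (t : J → 𝕜) (x : 𝕜) : Prop := ∃ j, ‖x - t j‖ < 1

/-- the displaced fibres minus the fibres -/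
noncomputable def Dsp (e : L →+* 𝕜) (χ : 𝕜[X][X]) (r : ℝ) (t : J → 𝕜) (x : L[X][X]) :
    𝕜 × 𝕜 →₀ ℤ :=
  ∑ Q ∈ fbs χ t, (Finsupp.single (mvq χ r Q (e2 e Q.1 Q.2 x)) 1 - Finsupp.single Q 1)

theorem mem_fbs {χ : 𝕜[X][X]} (hm : χ.Monic) {t : J → 𝕜} {Q : 𝕜 × 𝕜} :
    Q ∈ fbs χ t ↔ On χ Q ∧ ∃ j, Q.1 = t j := by
  have hon : ∀ j y, y ∈ (χ.map (evalRingHom (t j))).roots ↔ On χ (t j, y) := fun j y => by
    rw [mem_roots (hm.map _).ne_zero]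
    unfold On
    rw [ee_eq_eval]
    rfl
  simp only [fbs, Finset.mem_biUnion, Finset.mem_univ, true_and, Finset.mem_image,
    Multiset.mem_toFinset, hon]
  constructor
  · rintro ⟨j, y, h1, rfl⟩
    exact ⟨h1, j, rfl⟩
  · rintro ⟨h1, j, h2⟩
    refine ⟨j, Q.2, ?_, ?_⟩ <;> rw [← h2]
    exact h1

theorem zqfc_eval_le {g : 𝕜[X]} (hg : ∀ k, ‖g.coeff k‖ ≤ 1) {x : 𝕜} (hx : ‖x‖ ≤ 1) :
    ‖g.eval x‖ ≤ 1 := by
  rw [eval_eq_sum_range]
  refine IsUltrametricDist.norm_sum_le_of_forall_le_of_nonneg zero_le_one fun i _ => ?_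
  rw [norm_mul, norm_pow]
  exact mul_le_one₀ (hg i) (pow_nonneg (norm_nonneg _) _) (pow_le_one₀ (norm_nonneg _) hx)

theorem zqfc_lin {y : 𝕜} (hy : ‖y‖ ≤ 1) (k : ℕ) : ‖(X - C y).coeff k‖ ≤ 1 := by
  rw [coeff_sub, coeff_X, coeff_C]
  split_ifs with h1 h2 h2
  · omega
  · simp
  · simpa using hy
  · simp

theorem zqfc_eval_sub {g : 𝕜[X]} (hg : ∀ k, ‖g.coeff k‖ ≤ 1) {x y : 𝕜} (hx : ‖x‖ ≤ 1)
    (hy : ‖y‖ ≤ 1) : ‖g.eval x - g.eval y‖ ≤ ‖x - y‖ := by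
  have h1 := congrArg (eval x) (modByMonic_add_div g (X - C y))
  rw [modByMonic_X_sub_C_eq_C_eval] at h1
  simp only [eval_add, eval_C, eval_mul, eval_sub, eval_X] at h1
  rw [← h1, add_sub_cancel_left, norm_mul]
  exact mul_le_of_le_one_right (norm_nonneg _)
    (zqfc_eval_le (norm_coeff_divMod (monic_X_sub_C y) (zqfc_lin hy) hg).1 hx)

theorem zqfc_root_le {g : 𝕜[X]} (hm : g.Monic) (hg : ∀ k, ‖g.coeff k‖ ≤ 1) {x : 𝕜}
    (hx : g.eval x = 0) : ‖x‖ ≤ 1 := by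
  by_contra hlt
  rw [not_le] at hlt
  rw [eval_eq_sum_range, Finset.sum_range_succ, hm.coeff_natDegree, one_mul,
    add_eq_zero_iff_eq_neg] at hx
  rcases Nat.eq_zero_or_pos g.natDegree with h0 | h0
  · rw [h0] at hx
    simp at hx
  have h1 : ‖∑ i ∈ Finset.range g.natDegree, g.coeff i * x ^ i‖ ≤ ‖x‖ ^ (g.natDegree - 1) := by
    refine IsUltrametricDist.norm_sum_le_of_forall_le_of_nonneg (pow_nonneg (norm_nonneg _) _)
      fun i hi => ?_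
    rw [norm_mul, norm_pow]
    refine (mul_le_of_le_one_left (pow_nonneg (norm_nonneg _) _) (hg i)).trans ?_
    exact pow_le_pow_right₀ hlt.le (by have := Finset.mem_range.1 hi; omega)
  rw [hx, norm_neg, norm_pow] at h1
  exact absurd h1 (not_le.2 (pow_lt_pow_right₀ hlt (by omega)))

theorem zqfc_sub_lt {x y z : 𝕜} {r : ℝ} (h1 : ‖x - z‖ < r) (h2 : ‖y - z‖ < r) : ‖x - y‖ < r := by
  rw [show x - y = (x - z) + -(y - z) by ring]
  refine (IsUltrametricDist.norm_add_le_max _ _).trans_lt (max_lt h1 ?_)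
  rwa [norm_neg]

variable {ι : O →+* L} {e : L →+* 𝕜} {b δ : ℕ} {χ : O[X][X]} {c : O} {τ : J → O} {Q : 𝕜 × 𝕜}

theorem FGD.zqfc_le (h : FGD ι e b δ χ c τ) (x : O) : ‖(e.comp ι) x‖ ≤ 1 := by
  rw [RingHom.comp_apply, h.iso]
  exact h.le x

theorem FGD.zqfc_near (h : FGD ι e b δ χ c τ) {t : 𝕜} (hn : Near (fun j => e (ι (τ j))) t) :
    ‖t‖ ≤ 1 := by
  obtain ⟨j, hj⟩ := hn
  rw [← sub_add_cancel t (e (ι (τ j)))]
  exact (IsUltrametricDist.norm_add_le_max _ _).trans (max_le hj.le (h.zqfc_le _))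

theorem FGD.zqfc_coeff (h : FGD ι e b δ χ c τ) {t : 𝕜} (ht : ‖t‖ ≤ 1) (a : O[X][X]) (k : ℕ) :
    ‖((mp (e.comp ι) a).map (evalRingHom t)).coeff k‖ ≤ 1 := by
  rw [coeff_map, coe_evalRingHom]
  exact zqfc_eval_le (CB.mp h.zqfc_le a k) ht

theorem FGD.zqfc_pos (h : FGD ι e b δ χ c τ) : 0 < ‖ι c‖ := norm_pos_iff.2 h.ne

theorem FGD.zqfc_idx (h : FGD ι e b δ χ c τ) {j k : J} (hl : ‖e (ι (τ j)) - e (ι (τ k))‖ < 1) :
    j = k := by
  by_contra hne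
  rw [← map_sub, ← map_sub, h.iso, h.sep j k hne] at hl
  exact lt_irrefl _ hl

theorem FGD.der (h : FGD ι e b δ χ c τ) (hQ : On (mp (e.comp ι) χ) Q)
    (hn : Near (fun j => e (ι (τ j))) Q.1) :
    ‖Q.1‖ ≤ 1 ∧ ‖Q.2‖ ≤ 1 ∧ ‖ι c‖ ≤ ‖ee Q (derivative (mp (e.comp ι) χ))‖ := by
  have h1 := h.zqfc_near hn
  have h2 : ‖Q.2‖ ≤ 1 := zqfc_root_le ((h.wt.map (e.comp ι)).monic.map (evalRingHom Q.1))
    (h.zqfc_coeff h1 χ) ((ee_eq_eval Q _).symm.trans hQ)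
  refine ⟨h1, h2, ?_⟩
  obtain ⟨ρ, α, β, hb, hρ⟩ := h.bez
  obtain ⟨j, hj⟩ := hn
  have h3 := congrArg (fun a => ee Q (mp (e.comp ι) a)) hb
  have hQ' : ee Q (mp (e.comp ι) χ) = 0 := hQ
  simp only [map_add, map_mul, hQ', mul_zero, zero_add, mp_derivative, mp_C, ee_C, map_C,
    eval_C] at h3
  have h4 : ‖(ρ.map (e.comp ι)).eval Q.1‖ = 1 := by
    have h5 : (ρ.map (e.comp ι)).eval (e (ι (τ j))) = e (ι (ρ.eval (τ j))) :=
      eval_map_apply (e.comp ι) (τ j)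
    have h6 := (zqfc_eval_sub (g := ρ.map (e.comp ι))
      (fun k => by rw [coeff_map]; exact h.zqfc_le _) h1 (h.zqfc_le (τ j))).trans_lt hj
    have h7 : ‖(ρ.map (e.comp ι)).eval (e (ι (τ j)))‖ = 1 := by rw [h5, h.iso, hρ]
    rw [RingHom.comp_apply, ← h7] at h6
    rw [← sub_add_cancel ((ρ.map (e.comp ι)).eval Q.1) ((ρ.map (e.comp ι)).eval (e (ι (τ j)))),
      IsUltrametricDist.norm_add_eq_max_of_norm_ne_norm h6.ne, max_eq_right h6.le, h7]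
  have h8 := congrArg norm h3
  rw [norm_mul, norm_mul, h4, mul_one, RingHom.comp_apply, h.iso] at h8
  rw [h8]
  refine mul_le_of_le_one_left (norm_nonneg _) ?_
  rw [ee_eq_eval]
  exact zqfc_eval_le (h.zqfc_coeff h1 β) h2

theorem FGD.root_eq (h : FGD ι e b δ χ c τ) {t η η' : 𝕜} (hn : Near (fun j => e (ι (τ j))) t)
    (h1 : On (mp (e.comp ι) χ) (t, η)) (h2 : On (mp (e.comp ι) χ) (t, η'))
    (h3 : ‖η - η'‖ < ‖ι c‖) : η = η' := by
  by_contra hne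
  obtain ⟨a1, a2, a3⟩ := h.der h1 hn
  obtain ⟨-, a4, -⟩ := h.der h2 hn
  have hE : (mp (e.comp ι) χ).map (evalRingHom t) =
      (X - C η) * ((mp (e.comp ι) χ).map (evalRingHom t) /ₘ (X - C η)) :=
    (mul_divByMonic_eq_iff_isRoot.2 ((ee_eq_eval (t, η) _).symm.trans h1)).symm
  rw [cvs_der (Q := (t, η)) hE] at a3
  have h4 : ((mp (e.comp ι) χ).map (evalRingHom t)).eval η' = 0 :=
    (ee_eq_eval (t, η') _).symm.trans h2
  rw [hE, eval_mul, eval_sub, eval_X, eval_C, mul_eq_zero, sub_eq_zero] at h4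
  have h5 := zqfc_eval_sub (norm_coeff_divMod (monic_X_sub_C η) (zqfc_lin a2)
    (h.zqfc_coeff a1 χ)).1 a2 a4
  rw [h4.resolve_left fun e => hne e.symm, sub_zero] at h5
  exact absurd (a3.trans h5) (not_le.2 h3)

theorem FGD.mvq_eq (h : FGD ι e b δ χ c τ) {s η : 𝕜} (hn : Near (fun j => e (ι (τ j))) (Q.1 + s))
    (h1 : On (mp (e.comp ι) χ) (Q.1 + s, η)) (h2 : ‖η - Q.2‖ < ‖ι c‖) :
    mvq (mp (e.comp ι) χ) ‖ι c‖ Q s = (Q.1 + s, η) := by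
  have hex : ∃ η, On (mp (e.comp ι) χ) (Q.1 + s, η) ∧ ‖η - Q.2‖ < ‖ι c‖ := ⟨η, h1, h2⟩
  unfold mvq
  rw [dif_pos hex, h.root_eq hn hex.choose_spec.1 h1 (zqfc_sub_lt hex.choose_spec.2 h2)]

theorem zqfc_near_add {t : J → 𝕜} {x s : 𝕜} (hx : ∃ j, x = t j) (hs : ‖s‖ < 1) :
    Near t (x + s) := by
  obtain ⟨j, rfl⟩ := hx
  exact ⟨j, by rwa [add_sub_cancel_left]⟩

theorem FGD.zqfc_mvq_zero (h : FGD ι e b δ χ c τ)
    (hQ : Q ∈ fbs (mp (e.comp ι) χ) fun j => e (ι (τ j))) :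
    mvq (mp (e.comp ι) χ) ‖ι c‖ Q 0 = Q := by
  obtain ⟨h1, h2⟩ := (mem_fbs (h.wt.map (e.comp ι)).monic).1 hQ
  rw [h.mvq_eq (η := Q.2) (zqfc_near_add h2 (by simp)) (by rwa [add_zero])
    (by simpa using h.zqfc_pos), add_zero]

theorem FGD.zqfc_et (h : FGD ι e b δ χ c τ) (hQ : On (mp (e.comp ι) χ) Q)
    (hn : Near (fun j => e (ι (τ j))) Q.1) : Et (mp (e.comp ι) χ) Q :=
  ⟨hQ, norm_pos_iff.1 (h.zqfc_pos.trans_le (h.der hQ hn).2.2)⟩

theorem FGD.zqfc_card (h : FGD ι e b δ χ c τ) :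
    (fbs (mp (e.comp ι) χ) fun j => e (ι (τ j))).card = δ * Fintype.card J := by
  have hw := h.wt.map (e.comp ι)
  choose s h1 h2 _ using fun j : J => card_fibre hw (t := e (ι (τ j))) fun y hy =>
    h.zqfc_et hy ⟨j, by simp⟩
  have h3 : (fbs (mp (e.comp ι) χ) fun j => e (ι (τ j))).card =
      (Finset.univ.sigma s).card := by
    symm
    refine Finset.card_bij (fun p _ => (e (ι (τ p.1)), p.2)) (fun p hp => ?_) (fun p _ q _ hpq => ?_)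
      fun Q hQ => ?_
    · exact (mem_fbs hw.monic).2 ⟨(h2 _ _).1 (Finset.mem_sigma.1 hp).2, p.1, rfl⟩
    · obtain ⟨j, y⟩ := p
      obtain ⟨k, y'⟩ := q
      obtain ⟨a1, a2⟩ := Prod.mk.inj hpq
      obtain rfl : j = k := h.zqfc_idx (e := e) (by rw [a1]; simp)
      obtain rfl : y = y' := a2
      rfl
    · obtain ⟨a1, j, a2⟩ := (mem_fbs hw.monic).1 hQ
      refine ⟨⟨j, Q.2⟩, Finset.mem_sigma.2 ⟨Finset.mem_univ _, (h2 _ _).2 ?_⟩, ?_⟩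
      · rw [← a2]
        exact a1
      · exact Prod.ext a2.symm rfl
  rw [h3, Finset.card_sigma, Finset.sum_congr rfl fun j _ => h1 j, Finset.sum_const, smul_eq_mul,
    Finset.card_univ, mul_comm]

/-- a function that vanishes at the displaced points has no other zeros -/
theorem FGD.dv_eq (h : FGD ι e b δ χ c τ) {G : 𝕜[X][X]} (hG : Lead b (Fintype.card J) G)
    (s : 𝕜 × 𝕜 → 𝕜) (hs : ∀ Q ∈ fbs (mp (e.comp ι) χ) fun j => e (ι (τ j)), ‖s Q‖ < 1 ∧ ∃ η,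
      On (mp (e.comp ι) χ) (Q.1 + s Q, η) ∧ ‖η - Q.2‖ < ‖ι c‖ ∧ ee (Q.1 + s Q, η) G = 0) :
    dv (mp (e.comp ι) χ) G = ∑ Q ∈ fbs (mp (e.comp ι) χ) fun j => e (ι (τ j)),
      Finsupp.single (mvq (mp (e.comp ι) χ) ‖ι c‖ Q (s Q)) 1 ∧
    ∀ Q, On (mp (e.comp ι) χ) Q → ee Q G = 0 → Near (fun j => e (ι (τ j))) Q.1 := by
  have hw := h.wt.map (e.comp ι)
  have hP : ∀ Q ∈ fbs (mp (e.comp ι) χ) fun j => e (ι (τ j)), ‖s Q‖ < 1 ∧
      Near (fun j => e (ι (τ j))) (Q.1 + s Q) ∧ ∃ η,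
      mvq (mp (e.comp ι) χ) ‖ι c‖ Q (s Q) = (Q.1 + s Q, η) ∧
      On (mp (e.comp ι) χ) (Q.1 + s Q, η) ∧ ‖η - Q.2‖ < ‖ι c‖ ∧ ee (Q.1 + s Q, η) G = 0 := by
    intro Q hQ
    obtain ⟨a1, η, a2, a3, a4⟩ := hs Q hQ
    have hn := zqfc_near_add ((mem_fbs hw.monic).1 hQ).2 a1
    exact ⟨a1, hn, η, h.mvq_eq hn a2 a3, a2, a3, a4⟩
  have hv : VanZ (mp (e.comp ι) χ) (∑ Q ∈ fbs (mp (e.comp ι) χ) fun j => e (ι (τ j)),
      Finsupp.single (mvq (mp (e.comp ι) χ) ‖ι c‖ Q (s Q)) 1) G := by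
    refine vanZ_sum hw.monic (fun Q hQ Q' hQ' hqq => ?_) fun Q hQ => ?_
    · obtain ⟨a1, -, η, a2, -, a3, -⟩ := hP Q hQ
      obtain ⟨b1, -, η', b2, -, b3, -⟩ := hP Q' hQ'
      obtain ⟨c1, j, c2⟩ := (mem_fbs hw.monic).1 hQ
      obtain ⟨d1, k, d2⟩ := (mem_fbs hw.monic).1 hQ'
      simp only [a2, b2] at hqq
      obtain ⟨e1, rfl⟩ := Prod.mk.inj hqq
      obtain rfl : j = k := by
        refine h.zqfc_idx (e := e) ?_
        rw [← c2, ← d2]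
        refine zqfc_sub_lt (z := Q.1 + s Q) (by simpa using a1) ?_
        rw [e1]
        simpa using b1
      have e2 : Q.1 = Q'.1 := c2.trans d2.symm
      refine Prod.ext e2 (h.root_eq (t := Q.1) ⟨j, by rw [c2]; simp⟩ c1 (by rw [e2]; exact d1) ?_)
      exact zqfc_sub_lt (z := η) (by rwa [norm_sub_rev]) (by rwa [norm_sub_rev])
    · obtain ⟨-, a1, η, a2, a3, -, a4⟩ := hP Q hQ
      rw [a2]
      exact ⟨h.zqfc_et a3 a1, a4⟩
  obtain ⟨h1, h2⟩ := hG.dv_eq hw hv (by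
    rw [map_sum]
    simp only [Finsupp.degree_single, Finset.sum_const, h.zqfc_card, nsmul_eq_mul, mul_one,
      Nat.cast_mul])
  refine ⟨h1, fun Q a1 a2 => ?_⟩
  have h3 := (hG.dv_ne_zero hw).2 ⟨h2 Q a1 a2, a2⟩
  rw [h1, Finsupp.finsetSum_apply] at h3
  obtain ⟨Q', b1, b2⟩ := Finset.exists_ne_zero_of_sum_ne_zero h3
  obtain ⟨-, b3, η, b4, -⟩ := hP Q' b1
  rw [(Finsupp.single_apply_ne_zero.1 b2).1, b4]
  exact b3

/-- displacements with disjoint supports -/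
theorem FGD.dsp_add (h : FGD ι e b δ χ c τ) {x x' : L[X][X]}
    (hx : ∀ Q ∈ fbs (mp (e.comp ι) χ) fun j => e (ι (τ j)),
      e2 e Q.1 Q.2 x = 0 ∨ e2 e Q.1 Q.2 x' = 0) :
    Dsp e (mp (e.comp ι) χ) ‖ι c‖ (fun j => e (ι (τ j))) (x + x') =
      Dsp e (mp (e.comp ι) χ) ‖ι c‖ (fun j => e (ι (τ j))) x +
        Dsp e (mp (e.comp ι) χ) ‖ι c‖ (fun j => e (ι (τ j))) x' := by
  unfold Dsp
  rw [← Finset.sum_add_distrib]
  refine Finset.sum_congr rfl fun Q hQ => ?_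
  rcases hx Q hQ with h1 | h1
  · rw [map_add, h1, zero_add, h.zqfc_mvq_zero hQ, sub_self, zero_add]
  · rw [map_add, h1, add_zero, h.zqfc_mvq_zero hQ, sub_self, add_zero]

theorem FGD.dsp_zero (h : FGD ι e b δ χ c τ) {x : L[X][X]}
    (hx : ∀ Q ∈ fbs (mp (e.comp ι) χ) fun j => e (ι (τ j)), e2 e Q.1 Q.2 x = 0) :
    Dsp e (mp (e.comp ι) χ) ‖ι c‖ (fun j => e (ι (τ j))) x = 0 :=
  Finset.sum_eq_zero fun Q hQ => by rw [hx Q hQ, h.zqfc_mvq_zero hQ, sub_self]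

theorem zqfc_e2_mapC {R S : Type} [CommRing R] [CommRing S] (φ : R →+* S) (t y : S) (g : R[X]) :
    e2 φ t y (g.map C) = g.eval₂ φ y := by
  rw [e2_eq_eval, Polynomial.map_map, ← eval_map]
  congr 2
  ext x
  simp

/-- a displacement of a single rational point -/
theorem FGD.exists_single (h : FGD ι e b δ χ c τ) (j₀ : J) {η : O} (hη : On χ (τ j₀, η)) (s : L) :
    ∃ x : L[X][X], CB (‖s‖ / ‖ι c‖) x ∧ e2 e (e (ι (τ j₀))) (e (ι η)) x = e s ∧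
      ∀ Q ∈ fbs (mp (e.comp ι) χ) fun j => e (ι (τ j)), Q ≠ (e (ι (τ j₀)), e (ι η)) →
        e2 e Q.1 Q.2 x = 0 := by
  have hw := h.wt.map (e.comp ι)
  obtain ⟨g, hE⟩ : X - C η ∣ χ.map (evalRingHom (τ j₀)) :=
    dvd_iff_isRoot.2 ((ee_eq_eval (τ j₀, η) _).symm.trans hη)
  set w : O[X] := ∏ k ∈ Finset.univ.erase j₀, (X - C (τ k)) with hw'
  have hon : On (mp (e.comp ι) χ) (pm (e.comp ι) (τ j₀, η)) := by
    unfold On
    rw [← map_ee, show ee (τ j₀, η) χ = 0 from hη, map_zero]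
  have h1 := (h.der hon ⟨j₀, by simp [pm]⟩).2.2
  rw [← mp_derivative, ← map_ee, cvs_der (Q := (τ j₀, η)) hE, RingHom.comp_apply, h.iso] at h1
  have h2 : ‖ι (w.eval (τ j₀))‖ = 1 := by
    rw [hw', eval_prod, map_prod, norm_prod]
    refine Finset.prod_eq_one fun k hk => ?_
    rw [eval_sub, eval_X, eval_C]
    exact h.sep _ _ (Finset.ne_of_mem_erase hk).symm
  have h3 : ‖ι c‖ ≤ ‖ι (w.eval (τ j₀) * g.eval η)‖ := by
    rwa [map_mul, norm_mul, h2, one_mul]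
  have h4 : ι (w.eval (τ j₀) * g.eval η) ≠ 0 := norm_pos_iff.1 (h.zqfc_pos.trans_le h3)
  have h5 : ∀ t y : 𝕜, e2 e t y (C (C (s / ι (w.eval (τ j₀) * g.eval η))) *
      mp ι (C w * g.map C)) = e (s / ι (w.eval (τ j₀) * g.eval η)) *
        (w.eval₂ (e.comp ι) t * g.eval₂ (e.comp ι) y) := fun t y => by
    rw [map_mul, e2_C, eval₂_C, ← ee_mp e (t, y), mp_mp, ee_mp, map_mul (e2 _ _ _), e2_C,
      zqfc_e2_mapC]
  refine ⟨C (C (s / ι (w.eval (τ j₀) * g.eval η))) * mp ι (C w * g.map C), ?_, ?_,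
    fun Q hQ hne => ?_⟩
  · rw [← mul_one (‖s‖ / ‖ι c‖)]
    refine CB.mul (fun i k => ?_) (CB.mp h.le _)
    have h6 : 0 ≤ ‖s‖ / ‖ι c‖ := div_nonneg (norm_nonneg _) (norm_nonneg _)
    rw [coeff_C]
    split_ifs
    · rw [coeff_C]
      split_ifs
      · rw [norm_div]
        exact div_le_div_of_nonneg_left (norm_nonneg _) h.zqfc_pos h3
      · rwa [norm_zero]
    · rwa [coeff_zero, norm_zero]
  · have h6 : w.eval₂ (e.comp ι) (e (ι (τ j₀))) = e (ι (w.eval (τ j₀))) :=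
      eval₂_at_apply (e.comp ι) (τ j₀)
    have h7 : g.eval₂ (e.comp ι) (e (ι η)) = e (ι (g.eval η)) := eval₂_at_apply (e.comp ι) η
    rw [h5, h6, h7, ← map_mul, ← map_mul, ← map_mul, div_mul_cancel₀ _ h4]
  · obtain ⟨a1, j, a2⟩ := (mem_fbs hw.monic).1 hQ
    rw [h5]
    refine mul_eq_zero_of_right _ ?_
    by_cases hj : j = j₀
    · subst hj
      refine mul_eq_zero_of_right _ ?_
      have h6 : ((χ.map (evalRingHom (τ j))).map (e.comp ι)).eval Q.2 = 0 := by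
        have h7 : ee Q (mp (e.comp ι) χ) = 0 := a1
        rw [ee_mp, e2_eq_eval, a2] at h7
        rw [Polynomial.map_map, ← h7]
        congr 2
        refine RingHom.ext fun p => ?_
        exact (eval₂_at_apply (e.comp ι) (τ j)).symm
      rw [hE, Polynomial.map_mul, eval_mul, Polynomial.map_sub, map_X, map_C, eval_sub, eval_X,
        eval_C, mul_eq_zero, sub_eq_zero, eval_map] at h6
      exact h6.resolve_left fun e => hne (Prod.ext a2 e)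
    · refine mul_eq_zero_of_left ?_ _
      rw [hw', eval₂_finsetProd]
      refine Finset.prod_eq_zero (Finset.mem_erase.2 ⟨hj, Finset.mem_univ _⟩) ?_
      rw [eval₂_sub, eval₂_X, eval₂_C, a2]
      exact sub_self _

theorem FGD.zqfc_unit (h : FGD ι e b δ χ c τ) {x : O} (hx : ‖ι x‖ = 1) : IsUnit x := by
  have h0 : ι x ≠ 0 := norm_pos_iff.1 (by rw [hx]; exact one_pos)
  obtain ⟨y, hy⟩ := h.range (ι x)⁻¹ (by rw [norm_inv, hx, inv_one])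
  exact IsUnit.of_mul_eq_one y (h.inj (by rw [map_mul, hy, mul_inv_cancel₀ h0, map_one]))

theorem zqfc_inv {p : O[X]} (hp : ∀ j, IsUnit (p.eval (τ j))) :
    ∃ v : O[X], (∏ j, (X - C (τ j))) ∣ v * p - 1 := by
  obtain ⟨v, w, hv⟩ : IsCoprime p (∏ j, (X - C (τ j))) := by
    refine IsCoprime.prod_right fun j _ => ?_
    obtain ⟨y, hy⟩ := (hp j).exists_left_inv
    obtain ⟨q, hq⟩ := X_sub_C_dvd_sub_C_eval (a := τ j) (p := p)
    refine ⟨C y, -(C y * q), ?_⟩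
    have : C y * C (p.eval (τ j)) = 1 := by rw [← C_mul, hy, C_1]
    linear_combination this + C y * hq
  exact ⟨v, -w, by linear_combination hv⟩

/-- the inverses that are needed in the algebra of the fibres -/
theorem FGD.exists_inv (h : FGD ι e b δ χ c τ) : ∃ (v : O[X]) (β : O[X][X]),
    (∏ j, (X - C (τ j))) ∣ v * derivative (∏ j, (X - C (τ j))) - 1 ∧
    β * derivative χ - C (C c) ∈ Ideal.span {C (∏ j, (X - C (τ j))), χ} := by
  obtain ⟨ρ, α, β, hb, hρ⟩ := h.bez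
  obtain ⟨v, hv⟩ := zqfc_inv (τ := τ) (p := derivative (∏ j, (X - C (τ j)))) fun j => by
    rw [← Finset.mul_prod_erase _ _ (Finset.mem_univ j), derivative_mul, derivative_X_sub_C,
      one_mul, eval_add, eval_mul, eval_sub, eval_X, eval_C, sub_self, zero_mul, add_zero,
      eval_prod]
    refine h.zqfc_unit ?_
    rw [map_prod, norm_prod]
    refine Finset.prod_eq_one fun k hk => ?_
    rw [eval_sub, eval_X, eval_C]
    exact h.sep _ _ (Finset.ne_of_mem_erase hk).symm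
  obtain ⟨w, q, hq⟩ := zqfc_inv (τ := τ) (p := ρ) fun j => h.zqfc_unit (hρ j)
  refine ⟨v, C w * β, hv, Ideal.mem_span_pair.2 ⟨C (C c * q), -(C w * α), ?_⟩⟩
  have h1 := congrArg (C : O[X] → O[X][X]) hq
  rw [C_sub, C_mul, C_mul, C_1] at h1
  rw [C_mul] at hb ⊢
  linear_combination C w * hb - C (C c) * h1

end Pool.Agent.ZeroCyc
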