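import Pool.Agent.Lib.MP_796ce4_ag.ZQ.FA

/-! Complements of the space of functions of bounded weight. -/

namespace Pool.Agent.ZeroCyc

open Polynomial Module
open scoped Classical IntermediateField PowerSeries

set_option linter.unusedSectionVars false

theorem zqfc_coeff {R : Type} [CommRing R] {m : ℕ} (c : Fin m → R) (k : ℕ) :
    (∑ j : Fin m, C (c j) * X ^ (j : ℕ)).coeff k = if h : k < m then c ⟨k, h⟩ else 0 := by
  rw [finsetSum_coeff]
  simp only [coeff_C_mul_X_pow]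
  split_ifs with h
  · rw [Finset.sum_eq_single ⟨k, h⟩]
    · exact if_pos rfl
    · exact fun j _ hj => if_neg fun e => hj (Fin.ext e.symm)
    · exact fun hj => absurd (Finset.mem_univ _) hj
  · exact Finset.sum_eq_zero fun j _ => if_neg fun e : k = j => h (e ▸ j.2)

theorem zqfc_eq {R : Type} [CommRing R] {m : ℕ} {p : R[X]} (h : p.degree < m) :
    ∑ j : Fin m, C (p.coeff j) * X ^ (j : ℕ) = p := by
  ext k
  rw [zqfc_coeff (fun j : Fin m => p.coeff j)]
  split_ifs with hk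
  · rfl
  · exact (coeff_eq_zero_of_degree_lt (h.trans_le (by exact_mod_cast not_lt.1 hk))).symm

theorem zqfc_deg {R : Type} [CommRing R] {M a z : R[X]} {n k : ℕ}
    (hn : M.natDegree + k = n) (ha : a.degree < (n - k : ℕ)) (hz : z.degree < k) :
    (a + M * z).degree < n := by
  refine (degree_add_le _ _).trans_lt (max_lt (ha.trans_le (by exact_mod_cast Nat.sub_le n k)) ?_)
  by_cases h0 : z = 0
  · rw [h0, mul_zero, degree_zero]
    exact WithBot.bot_lt_coe n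
  · have h1 : z.natDegree < k := (natDegree_lt_iff_degree_lt h0).2 hz
    refine degree_le_natDegree.trans_lt ?_
    have := natDegree_mul_le (p := M) (q := z)
    exact_mod_cast (by omega : (M * z).natDegree < n)

section compl

variable {L A : Type} [NormedField L] [IsUltrametricDist L] [NormedCommRing A] [NormedAlgebra L A]
  [IsUltrametricDist A]

theorem zqfc_norm_mul {p q : L[X]} {r : ℝ} (hp : ∀ k, ‖p.coeff k‖ ≤ 1) (hq : ∀ k, ‖q.coeff k‖ ≤ r)
    (k : ℕ) : ‖(p * q).coeff k‖ ≤ r := by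
  rw [coeff_mul]
  refine IsUltrametricDist.norm_sum_le_of_forall_le_of_nonneg ((norm_nonneg _).trans (hq 0))
    fun x _ => ?_
  rw [norm_mul]
  exact (mul_le_of_le_one_left (norm_nonneg _) (hp _)).trans (hq _)

theorem zqfc_norm_fin {m : ℕ} {c : Fin m → L} {r : ℝ} (hr : 0 ≤ r) (h : ∀ j, ‖c j‖ ≤ r) (k : ℕ) :
    ‖(∑ j : Fin m, C (c j) * X ^ (j : ℕ)).coeff k‖ ≤ r := by
  rw [zqfc_coeff]
  split_ifs
  · exact h _
  · rwa [norm_zero]

theorem zqfc_pi (π : L[X][X] →ₐ[L] A) {δ : ℕ} {m : Fin δ → ℕ} (M : Fin δ → L[X])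
    (z : (Σ i : Fin δ, Fin (m i)) → L) :
    ∑ s, z s • π (C (M s.1 * X ^ (s.2 : ℕ)) * X ^ (s.1 : ℕ)) =
      π (∑ i : Fin δ, C (M i * ∑ k : Fin (m i), C (z ⟨i, k⟩) * X ^ (k : ℕ)) * X ^ (i : ℕ)) := by
  rw [Fintype.sum_sigma, map_sum]
  refine Finset.sum_congr rfl fun i _ => ?_
  rw [Finset.mul_sum, map_sum, Finset.sum_mul, map_sum]
  refine Finset.sum_congr rfl fun k _ => ?_
  rw [← map_smul, ← smul_mul_assoc, smul_C, smul_eq_C_mul, mul_left_comm]

theorem zqfc_compl {u : L[X]} {χ : L[X][X]} {π : L[X][X] →ₐ[L] A} (h : NAlg u χ π) {n δ b : ℕ}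
    (hn : u.natDegree = n) (hδ : χ.natDegree = δ) (M : ℕ → L[X])
    (hM : ∀ i < δ, (M i).Monic ∧ (M i).natDegree + b * i = n ∧ ∀ k, ‖(M i).coeff k‖ ≤ 1) :
    ∃ Y : ((Σ i : Fin δ, Fin (b * i)) → L) →ₗ[L] A,
      (∀ z, Y z = ∑ s, z s • π (C (M s.1 * X ^ (s.2 : ℕ)) * X ^ (s.1 : ℕ))) ∧
      (∀ (a : (Σ i : Fin δ, Fin (n - b * i)) → L) z,
        ‖∑ s, a s • π (C (X ^ (s.2 : ℕ)) * X ^ (s.1 : ℕ)) + Y z‖ = max ‖a‖ ‖z‖) ∧
      ∀ x, ∃ (a : (Σ i : Fin δ, Fin (n - b * i)) → L) (z : (Σ i : Fin δ, Fin (b * i)) → L),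
        ∑ s, a s • π (C (X ^ (s.2 : ℕ)) * X ^ (s.1 : ℕ)) + Y z = x := by
  have key : ∀ (a : (Σ i : Fin δ, Fin (n - b * i)) → L) (z : (Σ i : Fin δ, Fin (b * i)) → L),
      ∑ s, a s • π (C (X ^ (s.2 : ℕ)) * X ^ (s.1 : ℕ)) +
        ∑ s, z s • π (C (M s.1 * X ^ (s.2 : ℕ)) * X ^ (s.1 : ℕ)) =
      π (∑ i : Fin δ, C (∑ k : Fin (n - b * i), C (a ⟨i, k⟩) * X ^ (k : ℕ) +
        M i * ∑ k : Fin (b * i), C (z ⟨i, k⟩) * X ^ (k : ℕ)) * X ^ (i : ℕ)) := by
    intro a z
    have h1 := zqfc_pi π (fun _ => 1) a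
    simp only [one_mul] at h1
    rw [h1, zqfc_pi π (fun i => M i) z, ← map_add, ← Finset.sum_add_distrib]
    simp only [C_add, add_mul]
  refine ⟨Fintype.linearCombination L
    fun s : Σ i : Fin δ, Fin (b * i) => π (C (M s.1 * X ^ (s.2 : ℕ)) * X ^ (s.1 : ℕ)),
    fun z => Fintype.linearCombination_apply _ _ _, fun a z => ?_, fun x => ?_⟩
  · rw [Fintype.linearCombination_apply, key]
    set f : L[X][X] := ∑ i : Fin δ, C (∑ k : Fin (n - b * i), C (a ⟨i, k⟩) * X ^ (k : ℕ) +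
        M i * ∑ k : Fin (b * i), C (z ⟨i, k⟩) * X ^ (k : ℕ)) * X ^ (i : ℕ) with hf
    have hc : ∀ i, f.coeff i = if hi : i < δ then
        ∑ k : Fin (n - b * i), C (a ⟨⟨i, hi⟩, k⟩) * X ^ (k : ℕ) +
          M i * ∑ k : Fin (b * i), C (z ⟨⟨i, hi⟩, k⟩) * X ^ (k : ℕ) else 0 := fun i =>
      zqfc_coeff (fun i : Fin δ => ∑ k : Fin (n - b * i), C (a ⟨i, k⟩) * X ^ (k : ℕ) +
        M i * ∑ k : Fin (b * i), C (z ⟨i, k⟩) * X ^ (k : ℕ)) i
    have h0 : 0 ≤ max ‖a‖ ‖z‖ := le_max_of_le_left (norm_nonneg _)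
    refine le_antisymm (h.le _ _ h0 fun i k => ?_) ?_
    · rw [hc]
      split_ifs with hi
      · rw [coeff_add]
        refine (IsUltrametricDist.norm_add_le_max _ _).trans (max_le_max ?_ ?_)
        · exact zqfc_norm_fin (norm_nonneg _) (fun j => norm_le_pi_norm a _) k
        · exact zqfc_norm_mul (hM i hi).2.2
            (zqfc_norm_fin (norm_nonneg _) fun j => norm_le_pi_norm z _) k
      · rwa [coeff_zero, norm_zero]
    · have hr : Rd u.natDegree χ.natDegree f := by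
        rw [hn, hδ]
        refine ⟨degree_sum_fin_lt _, fun i => ?_⟩
        rw [hc]
        split_ifs with hi
        · exact zqfc_deg (hM i hi).2.1 (degree_sum_fin_lt _) (degree_sum_fin_lt _)
        · rw [degree_zero]
          exact WithBot.bot_lt_coe n
      have hb := h.cb f hr
      have hd : ∀ i : Fin δ, f.coeff i /ₘ M i = ∑ k : Fin (b * i), C (z ⟨i, k⟩) * X ^ (k : ℕ) ∧
          f.coeff i %ₘ M i = ∑ k : Fin (n - b * i), C (a ⟨i, k⟩) * X ^ (k : ℕ) := fun i => by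
        refine div_modByMonic_unique _ _ (hM i i.2).1 ⟨by rw [hc, dif_pos i.2], ?_⟩
        refine (degree_sum_fin_lt _).trans_le ?_
        have := (hM i i.2).2.1
        by_cases h1 : M i = 0
        · exact absurd h1 (hM i i.2).1.ne_zero
        · rw [degree_eq_natDegree h1]
          exact_mod_cast (by omega : n - b * i ≤ (M i).natDegree)
      refine max_le ((pi_norm_le_iff_of_nonneg (norm_nonneg _)).2 fun s => ?_)
        ((pi_norm_le_iff_of_nonneg (norm_nonneg _)).2 fun s => ?_)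
      · have := (norm_coeff_divMod (hM s.1 s.1.2).1 (hM s.1 s.1.2).2.2 (hb s.1)).2 s.2
        rwa [(hd s.1).2, zqfc_coeff, dif_pos s.2.2] at this
      · have := (norm_coeff_divMod (hM s.1 s.1.2).1 (hM s.1 s.1.2).2.2 (hb s.1)).1 s.2
        rwa [(hd s.1).1, zqfc_coeff, dif_pos s.2.2] at this
  · obtain ⟨f, hf, rfl⟩ := h.red x
    rw [hn, hδ] at hf
    refine ⟨fun s => (f.coeff s.1 %ₘ M s.1).coeff s.2, fun s => (f.coeff s.1 /ₘ M s.1).coeff s.2, ?_⟩
    rw [Fintype.linearCombination_apply, key]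
    congr 1
    conv_rhs => rw [← zqfc_eq hf.1]
    refine Finset.sum_congr rfl fun i _ => ?_
    obtain ⟨h1, h2, -⟩ := hM i i.2
    have h3 : (f.coeff i %ₘ M i).degree < (n - b * i : ℕ) := by
      refine (degree_modByMonic_lt _ h1).trans_le ?_
      rw [degree_eq_natDegree h1.ne_zero]
      exact_mod_cast (by omega : (M i).natDegree ≤ n - b * i)
    have h4 : (f.coeff i /ₘ M i).degree < (b * i : ℕ) := by
      by_cases h5 : f.coeff i /ₘ M i = 0
      · rw [h5, degree_zero]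
        exact WithBot.bot_lt_coe _
      · have h6 : f.coeff i ≠ 0 := fun e => h5 (by rw [e, zero_divByMonic])
        have h7 := (natDegree_lt_iff_degree_lt h6).2 (hf.2 i)
        have h8 : ¬(f.coeff i).degree < (M i).degree := fun e =>
          h5 ((divByMonic_eq_zero_iff h1).2 e)
        have h9 := natDegree_le_natDegree (not_lt.1 h8)
        rw [← natDegree_lt_iff_degree_lt h5, natDegree_divByMonic _ h1]
        omega
    rw [zqfc_eq h3, zqfc_eq h4, modByMonic_add_div]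

end compl

end Pool.Agent.ZeroCyc
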