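import Pool.Agent.Lib.MP_796ce4_ag.ZQ.FB
import Pool.Agent.Lib.MP_796ce4_ag.ZQ.FC

/-! The formal group of a union of fibres. -/

namespace Pool.Agent.ZeroCyc

open Polynomial Module
open scoped Classical IntermediateField PowerSeries

set_option linter.unusedSectionVars false

variable {L O 𝕜 J V : Type} [NormedField L] [IsUltrametricDist L] [CompleteSpace L] [CommRing O]
  [NormedField 𝕜] [IsUltrametricDist 𝕜] [IsAlgClosed 𝕜] [Fintype J] [AddCommGroup V]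
  {ι : O →+* L} {e : L →+* 𝕜} {b δ : ℕ} {χ : O[X][X]} {c : O} {τ : J → O}

section aux

variable {A : Type} [NormedCommRing A] [NormedAlgebra L A] [IsUltrametricDist A]
  {π : L[X][X] →ₐ[L] A}

theorem zqfd_CC (π : L[X][X] →ₐ[L] A) (x : L) : π (C (C x)) = algebraMap L A x :=
  π.commutes x

theorem zqfd_e2 (π : L[X][X] →ₐ[L] A) (ι : O →+* L) (a : O[X][X]) :
    e2 ((algebraMap L A).comp ι) (π (C X)) (π X) a = π (mp ι a) := by
  have : e2 ((algebraMap L A).comp ι) (π (C X)) (π X) =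
      (π : L[X][X] →+* A).comp (mp ι) := by
    refine Polynomial.ringHom_ext' (Polynomial.ringHom_ext' (RingHom.ext fun x => ?_) ?_) ?_
    · simp only [RingHom.comp_apply, e2_C, eval₂_C, mp_C, map_C, RingHom.coe_coe, zqfd_CC]
    · simp only [RingHom.comp_apply, e2_C, eval₂_X, mp_C, map_X, RingHom.coe_coe]
    · simp only [RingHom.comp_apply, e2_X, coe_mapRingHom, map_X, RingHom.coe_coe]
  exact DFunLike.congr_fun this a

theorem zqfd_root (φ : O →+* 𝕜) (τ : J → O) (j : J) :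
    (∏ k, (X - C (τ k))).eval₂ φ (φ (τ j)) = 0 := by
  rw [eval₂_finsetProd]
  exact Finset.prod_eq_zero (Finset.mem_univ j) (by rw [eval₂_sub, eval₂_X, eval₂_C, sub_self])

theorem zqfd_monic (h : FGD ι e b δ χ c τ) : (mp (e.comp ι) χ).Monic := (h.wt.map _).monic

/-- the points of the fibres are contractive characters of the algebra -/
theorem zqfd_pt (h : FGD ι e b δ χ c τ) (hA : NAlg ((∏ j, (X - C (τ j))).map ι) (mp ι χ) π)
    {Q : 𝕜 × 𝕜} (hQ : Q ∈ fbs (mp (e.comp ι) χ) fun j => e (ι (τ j))) :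
    ∃ φ : A →+* 𝕜, (∀ a, φ (π a) = e2 e Q.1 Q.2 a) ∧ ∀ y, ‖φ y‖ ≤ ‖y‖ := by
  obtain ⟨hQ1, j, hj⟩ := (mem_fbs (zqfd_monic h)).1 hQ
  obtain ⟨h1, h2, -⟩ := h.der hQ1 ⟨j, by rw [hj, sub_self, norm_zero]; exact one_pos⟩
  obtain ⟨φ, hφ⟩ := hA.pt 𝕜 e Q.1 Q.2 (by
    rw [eval₂_map, hj]
    exact zqfd_root (e.comp ι) τ j) (by
    rw [← ee_mp, mp_mp]
    exact hQ1)
  refine ⟨φ, hφ, fun y => ?_⟩
  obtain ⟨a, ha, rfl⟩ := hA.red y
  rw [hφ]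
  exact CB.e2_le h.iso h1 h2 (hA.cb a ha)

theorem zqfd_mvq0 (h : FGD ι e b δ χ c τ) {Q : 𝕜 × 𝕜}
    (hQ : Q ∈ fbs (mp (e.comp ι) χ) fun j => e (ι (τ j))) :
    mvq (mp (e.comp ι) χ) ‖ι c‖ Q 0 = Q := by
  obtain ⟨hQ1, j, hj⟩ := (mem_fbs (zqfd_monic h)).1 hQ
  have := h.mvq_eq (Q := Q) (s := 0) (η := Q.2)
    ⟨j, by rw [add_zero, hj, sub_self, norm_zero]; exact one_pos⟩
    (by rw [add_zero]; exact hQ1) (by rw [sub_self, norm_zero]; exact norm_pos_iff.2 h.ne)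
  rw [this, add_zero]

theorem zqfd_lead (ι : O →+* L) (τ : J → O) :
    Lead b (Fintype.card J) (C (∏ j, (X - C (τ j)))) := by
  have := ι.domain_nontrivial
  have hm : (∏ j, (X - C (τ j))).Monic := monic_prod_of_monic _ _ fun j _ => monic_X_sub_C _
  have hd : (∏ j, (X - C (τ j))).natDegree = Fintype.card J := by
    rw [natDegree_finsetProd_X_sub_C_eq_card, Finset.card_univ]
  exact hd ▸ lead_C hm

/-- a displacement along which a leading function vanishes is killed -/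
theorem zqfd_key (h : FGD ι e b δ χ c τ) (hA : NAlg ((∏ j, (X - C (τ j))).map ι) (mp ι χ) π)
    (Θ : (𝕜 × 𝕜 →₀ ℤ) →+ V)
    (hΘ : ∀ G G' : O[X][X], Lead b (Fintype.card J) G → Lead b (Fintype.card J) G' →
      (∀ Q, On (mp (e.comp ι) χ) Q →
        ee Q (mp (e.comp ι) G) = 0 ∨ ee Q (mp (e.comp ι) G') = 0 →
          Near (fun j => e (ι (τ j))) Q.1) →
      Θ (dv (mp (e.comp ι) χ) (mp (e.comp ι) G)) = Θ (dv (mp (e.comp ι) χ) (mp (e.comp ι) G')))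
    {x : L[X][X]} {t : A} {G : O[X][X]} (hx : ‖π x‖ < 1) (ht : ‖t‖ < ‖ι c‖)
    (hG : Lead b (Fintype.card J) G)
    (h1 : e2 ((algebraMap L A).comp ι) (π (C X) + π x) (π X + t) χ = 0)
    (h2 : e2 ((algebraMap L A).comp ι) (π (C X) + π x) (π X + t) G = 0) :
    (∀ Q ∈ fbs (mp (e.comp ι) χ) fun j => e (ι (τ j)),
      ‖e2 e Q.1 Q.2 x‖ < 1 ∧ ∃ η, On (mp (e.comp ι) χ) (Q.1 + e2 e Q.1 Q.2 x, η) ∧
        ‖η - Q.2‖ < ‖ι c‖) ∧
    Θ (Dsp e (mp (e.comp ι) χ) ‖ι c‖ (fun j => e (ι (τ j))) x) = 0 := by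
  have k : ∀ Q ∈ fbs (mp (e.comp ι) χ) fun j => e (ι (τ j)),
      ‖e2 e Q.1 Q.2 x‖ < 1 ∧ ∃ η, On (mp (e.comp ι) χ) (Q.1 + e2 e Q.1 Q.2 x, η) ∧
        ‖η - Q.2‖ < ‖ι c‖ ∧ ee (Q.1 + e2 e Q.1 Q.2 x, η) (mp (e.comp ι) G) = 0 := by
    intro Q hQ
    obtain ⟨φ, hφ, hn⟩ := zqfd_pt h hA hQ
    have e1 : φ.comp ((algebraMap L A).comp ι) = e.comp ι := RingHom.ext fun y => by
      rw [RingHom.comp_apply, RingHom.comp_apply, ← zqfd_CC π, hφ, e2_C, eval₂_C,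
        RingHom.comp_apply]
    have e3 : ∀ a : O[X][X], ee (Q.1 + e2 e Q.1 Q.2 x, Q.2 + φ t) (mp (e.comp ι) a) =
        φ (e2 ((algebraMap L A).comp ι) (π (C X) + π x) (π X + t) a) := fun a => by
      rw [map_e2, e1, ee_mp, map_add, map_add, hφ, hφ, hφ, e2_C, eval₂_X, e2_X]
    refine ⟨by rw [← hφ]; exact (hn _).trans_lt hx, Q.2 + φ t, ?_, ?_, ?_⟩
    · unfold On
      rw [e3, h1, map_zero]
    · rw [add_sub_cancel_left]
      exact (hn _).trans_lt ht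
    · rw [e3, h2, map_zero]
  refine ⟨fun Q hQ => ⟨(k Q hQ).1, (k Q hQ).2.imp fun η hη => ⟨hη.1, hη.2.1⟩⟩, ?_⟩
  obtain ⟨d1, n1⟩ := h.dv_eq (hG.map (e.comp ι)) (fun Q => e2 e Q.1 Q.2 x) k
  obtain ⟨d2, n2⟩ := h.dv_eq ((zqfd_lead (b := b) ι τ).map (e.comp ι)) (fun _ => 0) (by
    intro Q hQ
    obtain ⟨hQ1, j, hj⟩ := (mem_fbs (zqfd_monic h)).1 hQ
    refine ⟨by rw [norm_zero]; exact one_pos, Q.2, by rw [add_zero]; exact hQ1, ?_, ?_⟩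
    · rw [sub_self, norm_zero]
      exact norm_pos_iff.2 h.ne
    · rw [ee_mp, e2_C, add_zero, hj]
      exact zqfd_root (e.comp ι) τ j)
  have e4 := hΘ G _ hG (zqfd_lead ι τ) fun Q hQ hz => hz.elim (n1 Q hQ) (n2 Q hQ)
  rw [d1, d2] at e4
  unfold Dsp
  rw [Finset.sum_sub_distrib, map_sub, e4, sub_eq_zero]
  exact congrArg Θ (Finset.sum_congr rfl fun Q hQ => by rw [zqfd_mvq0 h hQ])

/-- complements whose elements vanish on the fibres outside `S` -/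
theorem zqfd_compl (h : FGD ι e b δ χ c τ) (hA : NAlg ((∏ j, (X - C (τ j))).map ι) (mp ι χ) π)
    (S : Finset J) (hS : S.card = b * δ) :
    ∃ (Y : ((Σ i : Fin δ, Fin (b * i)) → L) →ₗ[L] A)
      (P : ((Σ i : Fin δ, Fin (b * i)) → L) → L[X][X]), (∀ z, π (P z) = Y z) ∧
      (∀ z, ∀ j ∉ S, ∀ η, e2 e (e (ι (τ j))) η (P z) = 0) ∧
      (∀ (a : (Σ i : Fin δ, Fin (Fintype.card J - b * i)) → L) z,
        ‖∑ s, a s • π (C (X ^ (s.2 : ℕ)) * X ^ (s.1 : ℕ)) + Y z‖ = max ‖a‖ ‖z‖) ∧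
      ∀ x, ∃ (a : (Σ i : Fin δ, Fin (Fintype.card J - b * i)) → L)
        (z : (Σ i : Fin δ, Fin (b * i)) → L),
        ∑ s, a s • π (C (X ^ (s.2 : ℕ)) * X ^ (s.1 : ℕ)) + Y z = x := by
  have := ι.domain_nontrivial
  have hm : (∏ j, (X - C (τ j))).Monic := monic_prod_of_monic _ _ fun j _ => monic_X_sub_C _
  have hd : ((∏ j, (X - C (τ j))).map ι).natDegree = Fintype.card J := by
    rw [hm.natDegree_map, natDegree_finsetProd_X_sub_C_eq_card, Finset.card_univ]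
  have hm' : (∏ j ∈ Sᶜ, (X - C (τ j))).Monic := monic_prod_of_monic _ _ fun j _ => monic_X_sub_C _
  have hd' : (∏ j ∈ Sᶜ, (X - C (τ j))).natDegree + b * δ = Fintype.card J := by
    rw [natDegree_finsetProd_X_sub_C_eq_card, ← hS, Finset.card_compl_add_card]
  obtain ⟨Y, hY, h1, h2⟩ := nalg_compl hA (b := b) hd (h.wt.map ι).deg
    (fun i => ((∏ j ∈ Sᶜ, (X - C (τ j))) * X ^ (b * δ - b * i)).map ι) (fun i hi => by
      have hm2 := hm'.mul (monic_X_pow (b * δ - b * i))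
      refine ⟨hm2.map ι, ?_, fun k => by rw [coeff_map]; exact h.le _⟩
      rw [hm2.natDegree_map, hm'.natDegree_mul (monic_X_pow _), natDegree_X_pow]
      have := Nat.mul_le_mul_left b hi.le
      omega)
  refine ⟨Y, fun z => ∑ s, C (C (z s)) * (C ((((∏ j ∈ Sᶜ, (X - C (τ j))) *
    X ^ (b * δ - b * (s.1 : ℕ))).map ι) * X ^ (s.2 : ℕ)) * X ^ (s.1 : ℕ)), fun z => ?_,
    fun z j hj η => ?_, h1, h2⟩
  · rw [hY, map_sum]
    exact Finset.sum_congr rfl fun s _ => by rw [map_mul, zqfd_CC, Algebra.smul_def]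
  · rw [map_sum]
    refine Finset.sum_eq_zero fun s _ => ?_
    have e1 : (∏ j ∈ Sᶜ, (X - C (τ j))).eval₂ (e.comp ι) (e (ι (τ j))) = 0 := by
      rw [eval₂_finsetProd]
      exact Finset.prod_eq_zero (Finset.mem_compl.2 hj)
        (by rw [eval₂_sub, eval₂_X, eval₂_C, RingHom.comp_apply, sub_self])
    rw [map_mul, map_mul, e2_C e _ _ (_ * _), eval₂_mul, eval₂_map, eval₂_mul, e1, zero_mul,
      zero_mul, zero_mul, mul_zero]

theorem zqfd_wl {n i k : ℕ} (hk : k + b * i < n) (a : O) :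
    WL b 0 n (C (C a) * (C (X ^ k) * X ^ i) : O[X][X]) := by
  rw [← mul_assoc, ← C_mul]
  exact ((WL_X_pow (b := b) i).C_mul (k := k)
    ((natDegree_C_mul_le _ _).trans (natDegree_X_pow_le _))).mono (by omega)

theorem zqfd_three (j₀ : J) {m : ℕ} (hJ : 3 * m + 1 ≤ Fintype.card J) :
    ∃ S₁ S₂ S₃ : Finset J, S₁.card = m ∧ S₂.card = m ∧ S₃.card = m ∧ j₀ ∉ S₃ ∧
      (∀ j ∈ S₁, j ∉ S₂) ∧ (∀ j ∈ S₃, j ∉ S₁) ∧ ∀ j ∈ S₃, j ∉ S₂ := by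
  obtain ⟨S₃, a3, b3⟩ := Finset.exists_subset_card_eq (s := ({j₀} : Finset J)ᶜ) (n := m) (by
    rw [Finset.card_compl, Finset.card_singleton]; omega)
  obtain ⟨S₂, a2, b2⟩ := Finset.exists_subset_card_eq (s := S₃ᶜ) (n := m) (by
    rw [Finset.card_compl, b3]; omega)
  obtain ⟨S₁, a1, b1⟩ := Finset.exists_subset_card_eq (s := (S₂ ∪ S₃)ᶜ) (n := m) (by
    have := Finset.card_union_le S₂ S₃
    rw [Finset.card_compl]; omega)
  refine ⟨S₁, S₂, S₃, b1, b2, b3, fun hj => ?_, fun j hj hj' => ?_, fun j hj hj' => ?_,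
    fun j hj hj' => ?_⟩
  · exact Finset.mem_compl.1 (a3 hj) (Finset.mem_singleton_self _)
  · exact Finset.mem_compl.1 (a1 hj) (Finset.mem_union_left _ hj')
  · exact Finset.mem_compl.1 (a1 hj') (Finset.mem_union_right _ hj)
  · exact Finset.mem_compl.1 (a2 hj') hj

/-- the correction in the complement `Y` -/
theorem zqfd_rel [CompleteSpace A] (h : FGD ι e b δ χ c τ)
    (hA : NAlg ((∏ j, (X - C (τ j))).map ι) (mp ι χ) π)
    (Θ : (𝕜 × 𝕜 →₀ ℤ) →+ V)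
    (hΘ : ∀ G G' : O[X][X], Lead b (Fintype.card J) G → Lead b (Fintype.card J) G' →
      (∀ Q, On (mp (e.comp ι) χ) Q →
        ee Q (mp (e.comp ι) G) = 0 ∨ ee Q (mp (e.comp ι) G') = 0 →
          Near (fun j => e (ι (τ j))) Q.1) →
      Θ (dv (mp (e.comp ι) χ) (mp (e.comp ι) G)) = Θ (dv (mp (e.comp ι) χ) (mp (e.comp ι) G')))
    {σ : Type} [Fintype σ] (Y : (σ → L) →ₗ[L] A)
    (iso : ∀ (a : (Σ i : Fin δ, Fin (Fintype.card J - b * i)) → L) z,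
      ‖∑ s, a s • π (C (X ^ (s.2 : ℕ)) * X ^ (s.1 : ℕ)) + Y z‖ = max ‖a‖ ‖z‖)
    (sur : ∀ x, ∃ (a : (Σ i : Fin δ, Fin (Fintype.card J - b * i)) → L) (z : σ → L),
      ∑ s, a s • π (C (X ^ (s.2 : ℕ)) * X ^ (s.1 : ℕ)) + Y z = x) :
    ∃ (v : L[X][X]) (w : A) (Φ : A → σ → L) (ℓ : A →ₗ[L] σ → L), ‖w‖ ≤ 1 ∧ π v * w = 1 ∧ SD Φ ℓ ∧
      (∀ y, ∃ a : (Σ i : Fin δ, Fin (Fintype.card J - b * i)) → L,
        y + (∑ s, a s • π (C (X ^ (s.2 : ℕ)) * X ^ (s.1 : ℕ)) + Y (ℓ y)) = 0) ∧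
      ∀ y, ‖y‖ < 1 → ∀ x, π x = ι c ^ 2 • (π v * (y + Y (Φ y))) →
        (∀ Q ∈ fbs (mp (e.comp ι) χ) fun j => e (ι (τ j)),
          ‖e2 e Q.1 Q.2 x‖ < 1 ∧ ∃ η, On (mp (e.comp ι) χ) (Q.1 + e2 e Q.1 Q.2 x, η) ∧
            ‖η - Q.2‖ < ‖ι c‖) ∧
        Θ (Dsp e (mp (e.comp ι) χ) ‖ι c‖ (fun j => e (ι (τ j))) x) = 0 := by
  have n1 : ∀ a, ‖π (mp ι a)‖ ≤ 1 := fun a => hA.le _ 1 zero_le_one (CB.mp h.le a)
  have n2 : ∀ x, ‖(algebraMap L A).comp ι x‖ ≤ 1 := fun x => by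
    have := n1 (C (C x))
    rwa [mp_C, map_C, zqfd_CC] at this
  have n3 : ‖π (C X)‖ ≤ 1 := by
    have := n1 (C X)
    rwa [mp_C, map_X] at this
  have n4 : ‖π X‖ ≤ 1 := by
    have := n1 X
    rwa [coe_mapRingHom, map_X] at this
  have n5 : ∀ z, ‖Y z‖ = ‖z‖ := fun z => by simpa using iso 0 z
  have cpos : 0 < ‖ι c‖ := norm_pos_iff.2 h.ne
  have m1 : ∀ s : (Σ i : Fin δ, Fin (Fintype.card J - b * i)),
      e2 ((algebraMap L A).comp ι) (π (C X)) (π X) (C (X ^ (s.2 : ℕ)) * X ^ (s.1 : ℕ)) =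
        π (C (X ^ (s.2 : ℕ)) * X ^ (s.1 : ℕ)) := fun s => by
    simp only [map_mul, map_pow, e2_C, eval₂_X, e2_X]
  have u0 : π (mp ι (C (∏ j, (X - C (τ j))))) = 0 := by rw [mp_C]; exact hA.u0
  have ev : ∀ p : O[X], p.eval₂ ((algebraMap L A).comp ι) (π (C X)) = π (mp ι (C p)) :=
    fun p => by rw [← zqfd_e2, e2_C]
  obtain ⟨v, β, ⟨q, hv⟩, hβ⟩ := h.exists_inv
  obtain ⟨p1, p2, hp⟩ := Ideal.mem_span_pair.1 hβ
  have hv' : π (mp ι (C v)) * (derivative (∏ j, (X - C (τ j)))).eval₂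
      ((algebraMap L A).comp ι) (π (C X)) = 1 := by
    rw [ev, ← map_mul, ← map_mul, ← C_mul, sub_eq_iff_eq_add.1 hv]
    simp only [map_add, map_mul, map_one, u0, zero_mul, zero_add]
  obtain ⟨Φ, ℓ, hΦ, hℓ, hy⟩ := exists_rel_alg (L := L) (χ := χ) (u := ∏ j, (X - C (τ j))) n2 n3 n4
    (n1 β) (n1 (C v)) h.ne (h.le c) (by rw [zqfd_e2]; exact hA.χ0) (by rw [ev, u0]) (by
      rw [zqfd_e2, ← map_mul, ← map_mul, sub_eq_iff_eq_add.1 hp.symm]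
      simp only [map_add, map_mul, u0, hA.χ0, mul_zero, zero_add]
      rw [mp_C, map_C, zqfd_CC]) hv'
    (fun s : (Σ i : Fin δ, Fin (Fintype.card J - b * i)) => C (X ^ (s.2 : ℕ)) * X ^ (s.1 : ℕ)) Y
    (fun a z => by simp only [m1]; exact iso a z) (fun x => by simp only [m1]; exact sur x)
  refine ⟨mp ι (C v), _, Φ, ℓ, norm_eval₂A_le n2 n3 _, hv', hΦ, fun y => ?_, fun y hy1 x hx => ?_⟩
  · simpa only [m1] using hℓ y
  obtain ⟨a, ξ, ha, hξ, r1, r2⟩ := hy y hy1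
  choose a' ha' using fun s => h.range (a s) ((norm_le_pi_norm a s).trans ha.le)
  have sm : ∀ y : A, ‖y‖ < 1 → ‖ι c • y‖ < ‖ι c‖ := fun y hy => by
    rw [norm_smul]
    exact mul_lt_of_lt_one_right cpos hy
  have ml : ∀ (a : O[X][X]) (y : A), ‖y‖ < 1 → ‖π (mp ι a) * y‖ < 1 := fun a y hy =>
    ((norm_mul_le _ _).trans (mul_le_of_le_one_left (norm_nonneg _) (n1 a))).trans_lt hy
  refine zqfd_key h hA Θ hΘ (t := ι c • (π (mp ι β) * ξ))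
    (G := C (∏ j, (X - C (τ j))) + ∑ s : (Σ i : Fin δ, Fin (Fintype.card J - b * i)),
      C (C (c ^ 2 * a' s)) * (C (X ^ (s.2 : ℕ)) * X ^ (s.1 : ℕ))) ?_ (sm _ (ml _ _ hξ))
    ((zqfd_lead ι τ).add (WL.sum fun s _ => zqfd_wl (by have := s.2.2; omega) _))
    (by rw [hx]; exact r1) ?_
  · rw [hx, pow_two, mul_smul]
    refine (sm _ ((sm _ (ml _ _ ?_)).trans_le (h.le c))).trans_le (h.le c)
    exact (fga_add le_rfl ((n5 _).le.trans (hΦ.norm_le hy1))).trans_lt hy1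
  · rw [hx, ← r2, map_add, e2_C, map_sum, Finset.smul_sum]
    refine congrArg _ (Finset.sum_congr rfl fun s _ => ?_)
    rw [map_mul, e2_C, eval₂_C, smul_smul, Algebra.smul_def (ι c ^ 2 * a s), ← ha' s,
      RingHom.comp_apply, map_mul ι, map_pow ι]

end aux

theorem FGD.exists_fg (h : FGD ι e b δ χ c τ) (j₀ : J) (hJ : 3 * (b * δ) + 1 ≤ Fintype.card J)
    (Θ : (𝕜 × 𝕜 →₀ ℤ) →+ V)
    (hΘ : ∀ G G' : O[X][X], Lead b (Fintype.card J) G → Lead b (Fintype.card J) G' →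
      (∀ Q, On (mp (e.comp ι) χ) Q →
        ee Q (mp (e.comp ι) G) = 0 ∨ ee Q (mp (e.comp ι) G') = 0 →
          Near (fun j => e (ι (τ j))) Q.1) →
      Θ (dv (mp (e.comp ι) χ) (mp (e.comp ι) G)) = Θ (dv (mp (e.comp ι) χ) (mp (e.comp ι) G'))) :
    ∃ (σ : Type) (_ : Fintype σ) (x : (σ → L) → L[X][X]),
      IsFG (fun z => Θ (Dsp e (mp (e.comp ι) χ) ‖ι c‖ (fun j => e (ι (τ j))) (x z))) ∧
      (∀ z, ‖z‖ < 1 → ∀ Q ∈ fbs (mp (e.comp ι) χ) fun j => e (ι (τ j)),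
        ‖e2 e Q.1 Q.2 (x z)‖ < 1 ∧ ∃ η, On (mp (e.comp ι) χ) (Q.1 + e2 e Q.1 Q.2 (x z), η) ∧
          ‖η - Q.2‖ < ‖ι c‖) ∧
      ∀ (η : O) (s η' : L), On χ (τ j₀, η) → ‖s‖ < ‖ι c‖ ^ 3 → e2 ι (ι (τ j₀) + s) η' χ = 0 →
        ‖η' - ι η‖ < ‖ι c‖ → ∃ z : σ → L, ‖z‖ * ‖ι c‖ ^ 3 ≤ ‖s‖ ∧
          Θ (Finsupp.single (e (ι (τ j₀) + s), e η') 1 -
            Finsupp.single (e (ι (τ j₀)), e (ι η)) 1) =
          Θ (Dsp e (mp (e.comp ι) χ) ‖ι c‖ (fun j => e (ι (τ j))) (x z)) := by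
  obtain ⟨A, _, _, _, _, π, hA⟩ := exists_nalg (u := (∏ j, (X - C (τ j))).map ι) (χ := mp ι χ)
    ((monic_prod_of_monic _ _ fun j _ => monic_X_sub_C _).map ι) (h.wt.map ι).monic
    (fun k => by rw [coeff_map]; exact h.le _) (CB.mp h.le χ)
  obtain ⟨S₁, S₂, S₃, c1, c2, c3, d0, d12, d31, d32⟩ := zqfd_three j₀ hJ
  obtain ⟨Y₁, P₁, p1, z1, i1, -⟩ := zqfd_compl h hA S₁ c1
  obtain ⟨Y₂, P₂, p2, z2, i2, -⟩ := zqfd_compl h hA S₂ c2
  obtain ⟨Y₃, P₃, p3, z3, i3, s3⟩ := zqfd_compl h hA S₃ c3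
  obtain ⟨v, w, Φ, ℓ, hw, hvw, hΦ, hℓ, key⟩ := zqfd_rel h hA Θ hΘ Y₃ i3 s3
  have cpos : 0 < ‖ι c‖ := norm_pos_iff.2 h.ne
  obtain ⟨g, hg⟩ : ∃ g : L[X][X], g = C (C (ι c ^ 2)) * v := ⟨_, rfl⟩
  have hπ : ∀ a, π (g * a) = ι c ^ 2 • (π v * π a) := fun a => by
    rw [hg, map_mul, map_mul, zqfd_CC, Algebra.smul_def, mul_assoc]
  have fb : ∀ Q ∈ fbs (mp (e.comp ι) χ) fun j => e (ι (τ j)), ∃ j, Q.1 = e (ι (τ j)) :=
    fun Q hQ => ((mem_fbs (zqfd_monic h)).1 hQ).2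
  have van : ∀ {a : L[X][X]} {t η : 𝕜}, e2 e t η a = 0 → e2 e t η (g * a) = 0 := fun ha => by
    rw [map_mul, ha, mul_zero]
  have ψ0 : ∀ a, π a = 0 →
      Θ (Dsp e (mp (e.comp ι) χ) ‖ι c‖ (fun j => e (ι (τ j))) (g * a)) = 0 := fun a ha => by
    rw [h.dsp_zero fun Q hQ => van ?_, map_zero]
    obtain ⟨φ, hφ, -⟩ := zqfd_pt h hA hQ
    rw [← hφ, ha, map_zero]
  have n1 : ∀ z, ‖Y₁ z‖ = ‖z‖ := fun z => by simpa using i1 0 z
  have n2 : ∀ z, ‖Y₂ z‖ = ‖z‖ := fun z => by simpa using i2 0 z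
  have n3 : ∀ z, ‖Y₃ z‖ = ‖z‖ := fun z => by simpa using i3 0 z
  have isom : ∀ Y : ((Σ i : Fin δ, Fin (b * i)) → L) →ₗ[L] A,
      (∀ (a : (Σ i : Fin δ, Fin (Fintype.card J - b * i)) → L) z,
        ‖∑ s, a s • π (C (X ^ (s.2 : ℕ)) * X ^ (s.1 : ℕ)) + Y z‖ = max ‖a‖ ‖z‖) →
      ∀ z, ‖ℓ (Y z)‖ = ‖z‖ := fun Y i z => by
    have k1 : ‖Y z‖ = ‖z‖ := by simpa using i 0 z
    refine le_antisymm ((hΦ.le _).trans k1.le) ?_
    obtain ⟨a, ha⟩ := hℓ (Y z)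
    rw [← add_assoc, add_comm (Y z)] at ha
    have k2 := i a z
    rw [eq_neg_of_add_eq_zero_left ha, norm_neg, n3] at k2
    rw [k2]
    exact le_max_right _ _
  have co : ∀ x, ‖Y₁.coprod Y₂ x‖ ≤ ‖x‖ := fun x =>
    fga_add ((n1 _).le.trans (norm_fst_le x)) ((n2 _).le.trans (norm_snd_le x))
  obtain ⟨fg, hs⟩ := isFG_of_rel
    (ψ₁ := fun z => Θ (Dsp e (mp (e.comp ι) χ) ‖ι c‖ (fun j => e (ι (τ j))) (g * P₁ z)))
    (ψ₂ := fun z => Θ (Dsp e (mp (e.comp ι) χ) ‖ι c‖ (fun j => e (ι (τ j))) (g * P₂ z)))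
    (ψ₃ := fun z => Θ (Dsp e (mp (e.comp ι) χ) ‖ι c‖ (fun j => e (ι (τ j))) (g * P₃ z)))
    (ψ0 _ (by rw [p1, map_zero])) (ψ0 _ (by rw [p2, map_zero])) (hΦ.comp (sd_linear co))
    (fun x => by simpa using isom Y₁ i1 x) (fun x => by simpa using isom Y₂ i2 x) (by
      intro z z' hz hz'
      have k1 : ‖Y₁.coprod Y₂ (z, z')‖ < 1 := (co _).trans_lt (max_lt hz hz')
      have k2 := (key _ k1 (g * P₁ z + g * P₂ z' + g * P₃ (Φ (Y₁.coprod Y₂ (z, z')))) (by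
        rw [← mul_add, ← mul_add, hπ, map_add, map_add, p1, p2, p3]; rfl)).2
      rw [h.dsp_add, h.dsp_add, map_add, map_add] at k2
      · exact k2
      · intro Q hQ
        obtain ⟨j, hj⟩ := fb Q hQ
        rw [hj]
        by_cases hj1 : j ∈ S₁
        · exact Or.inr (van (z2 _ j (d12 j hj1) _))
        · exact Or.inl (van (z1 _ j hj1 _))
      · intro Q hQ
        obtain ⟨j, hj⟩ := fb Q hQ
        rw [hj]
        by_cases hj3 : j ∈ S₃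
        · left
          rw [map_add, van (z1 _ j (d31 j hj3) _), van (z2 _ j (d32 j hj3) _), add_zero]
        · exact Or.inr (van (z3 _ j hj3 _)))
  refine ⟨_, inferInstance, fun z => g * P₁ z, fg, fun z hz Q hQ => ?_,
    fun η s η' hη hs1 hη' hd => ?_⟩
  · obtain ⟨j, hj⟩ := fb Q hQ
    by_cases hj3 : j ∈ S₃
    · have k1 : e2 e Q.1 Q.2 (g * P₁ z) = 0 := by
        rw [hj]
        exact van (z1 _ j (d31 j hj3) _)
      rw [k1, add_zero]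
      exact ⟨by rw [norm_zero]; exact one_pos, Q.2, ((mem_fbs (zqfd_monic h)).1 hQ).1, by
        rw [sub_self, norm_zero]; exact cpos⟩
    · have k1 : e2 e Q.1 Q.2 (g * P₃ (Φ (Y₁ z))) = 0 := by
        rw [hj]
        exact van (z3 _ j hj3 _)
      have k2 := (key (Y₁ z) ((n1 z).trans_lt hz) (g * P₁ z + g * P₃ (Φ (Y₁ z))) (by
        rw [← mul_add, hπ, map_add, p1, p3])).1 Q hQ
      rwa [map_add, k1, add_zero] at k2
  · obtain ⟨x₀, b0, e0, v0⟩ := h.exists_single j₀ hη (s / ι c ^ 2)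
    have c3 : 0 < ‖ι c‖ ^ 3 := pow_pos cpos 3
    have k1 : ‖w * π x₀‖ ≤ ‖s‖ / ‖ι c‖ ^ 3 := by
      refine ((norm_mul_le _ _).trans (mul_le_of_le_one_left (norm_nonneg _) hw)).trans ?_
      refine (hA.le _ _ (by positivity) b0).trans (le_of_eq ?_)
      rw [norm_div, norm_pow, div_div, ← pow_succ]
    have k2 : ‖w * π x₀‖ < 1 := k1.trans_lt ((div_lt_one c3).2 hs1)
    obtain ⟨z, hz, hz'⟩ := hs (Φ (w * π x₀)) ((hΦ.norm_le k2).trans_lt k2)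
    refine ⟨z, (le_div_iff₀ c3).1 (hz.trans ((hΦ.norm_le k2).trans k1)), ?_⟩
    have k3 := (key _ k2 (C (C (ι c ^ 2)) * x₀ + g * P₃ (Φ (w * π x₀))) (by
      rw [map_add, hπ, map_mul, zqfd_CC, p3, mul_add, ← mul_assoc, hvw, one_mul, smul_add,
        Algebra.smul_def (ι c ^ 2) (π x₀)])).2
    have y0 : ∀ Q ∈ fbs (mp (e.comp ι) χ) fun j => e (ι (τ j)), Q ≠ (e (ι (τ j₀)), e (ι η)) →
        e2 e Q.1 Q.2 (C (C (ι c ^ 2)) * x₀) = 0 := fun Q hQ hne => by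
      rw [map_mul, v0 Q hQ hne, mul_zero]
    have y1 : e2 e (e (ι (τ j₀))) (e (ι η)) (C (C (ι c ^ 2)) * x₀) = e s := by
      rw [map_mul, e0, e2_C, eval₂_C, ← map_mul, mul_div_cancel₀ _ (pow_ne_zero 2 h.ne)]
    have y2 : (e (ι (τ j₀)), e (ι η)) ∈ fbs (mp (e.comp ι) χ) fun j => e (ι (τ j)) := by
      refine (mem_fbs (zqfd_monic h)).2 ⟨?_, j₀, rfl⟩
      have := congrArg (e.comp ι) hη
      rw [map_zero, ee, map_e2, RingHom.comp_id] at this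
      unfold On
      rw [ee_mp]
      exact this
    have y3 : mvq (mp (e.comp ι) χ) ‖ι c‖ (e (ι (τ j₀)), e (ι η)) (e s) =
        (e (ι (τ j₀) + s), e η') := by
      rw [h.mvq_eq (η := e η') ⟨j₀, ?_⟩ ?_ ?_, map_add]
      · rw [add_sub_cancel_left, h.iso]
        exact hs1.trans_le (pow_le_one₀ cpos.le (h.le c))
      · have := congrArg e hη'
        rw [map_zero, map_e2, map_add] at this
        unfold On
        rw [ee_mp]
        exact this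
      · rw [← map_sub, h.iso]
        exact hd
    rw [h.dsp_add, map_add] at k3
    · rw [hz', ← eq_neg_of_add_eq_zero_left k3]
      refine congrArg Θ ?_
      unfold Dsp
      rw [Finset.sum_eq_single_of_mem _ y2 fun Q hQ hne => by
        rw [y0 Q hQ hne, zqfd_mvq0 h hQ, sub_self], y1, y3]
    · intro Q hQ
      by_cases hne : Q = (e (ι (τ j₀)), e (ι η))
      · rw [hne]
        exact Or.inr (van (z3 _ j₀ d0 _))
      · exact Or.inl (y0 Q hQ hne)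

end Pool.Agent.ZeroCyc
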