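import Pool.Agent.Lib.MP_796ce4_ag.ZQ.Ser
import Pool.Agent.Lib.MP_796ce4_ag.ZY.Gen
import Pool.Agent.Lib.MP_796ce4_ag.ZY.Orb

/-! The part of a divisor in a residue disc; fields of definition. -/

namespace Pool.Agent.ZeroCyc

open Polynomial Module
open scoped Classical IntermediateField PowerSeries

set_option linter.unusedSectionVars false

theorem zqmt_filter {A B : Type} {f : A → B} {P : B → Prop} {P' : A → Prop} [DecidablePred P]
    [DecidablePred P'] (h : ∀ x, P (f x) ↔ P' x) (D : A →₀ ℤ) :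
    (psh f D).filter P = psh f (D.filter P') := by
  induction D using Finsupp.induction_linear with
  | zero => rw [map_zero, Finsupp.filter_zero, Finsupp.filter_zero, map_zero]
  | add a b ha hb => rw [map_add, Finsupp.filter_add, Finsupp.filter_add, map_add, ha, hb]
  | single x n =>
    by_cases hx : P' x
    · rw [psh_single, Finsupp.filter_single_of_pos _ hx,
        Finsupp.filter_single_of_pos _ ((h x).2 hx), psh_single]
    · rw [psh_single, Finsupp.filter_single_of_neg _ hx,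
        Finsupp.filter_single_of_neg _ (mt (h x).1 hx), map_zero]

section

variable {Λ : Type} [NormedField Λ] [IsUltrametricDist Λ]

/-- the part of a divisor in a residue disc -/
noncomputable def dsc (z : kk Λ × kk Λ) : (Λ × Λ →₀ ℤ) →+ (Λ × Λ →₀ ℤ) :=
  Finsupp.filterAddHom fun Q => pm rs Q = z

variable {z : kk Λ × kk Λ} {D : Λ × Λ →₀ ℤ}

theorem dsc_apply (z : kk Λ × kk Λ) (D : Λ × Λ →₀ ℤ) (Q : Λ × Λ) :
    dsc z D Q = if pm rs Q = z then D Q else 0 := Finsupp.filter_apply _ _ _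

theorem degree_dsc (z : kk Λ × kk Λ) (D : Λ × Λ →₀ ℤ) : (dsc z D).degree = psh (pm rs) D z := by
  have h : psh (pm rs) (dsc z D) = (psh (pm rs) D).filter fun y => y = z :=
    (zqmt_filter (f := pm rs) (P := fun y => y = z) (P' := fun Q => pm rs Q = z)
      (fun _ => Iff.rfl) D).symm
  have h2 : ((psh (pm rs) D).filter fun y => y = z) = Finsupp.single z (psh (pm rs) D z) := by
    ext y
    rw [Finsupp.filter_apply, Finsupp.single_apply]
    by_cases e : y = z
    · rw [if_pos e, if_pos e.symm, e]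
    · rw [if_neg e, if_neg (Ne.symm e)]
  rw [← degree_psh (pm rs), h, h2, Finsupp.degree_single]

theorem dsc_dsc (z z' : kk Λ × kk Λ) (D : Λ × Λ →₀ ℤ) :
    dsc z (dsc z' D) = if z = z' then dsc z D else 0 := by
  ext Q
  rw [dsc_apply, dsc_apply]
  by_cases e : z = z'
  · rw [if_pos e, dsc_apply, ← e]
    split_ifs <;> rfl
  · rw [if_neg e, Finsupp.zero_apply]
    split_ifs with h1 h2
    · exact absurd (h1.symm.trans h2) e
    · rfl
    · rfl

theorem zqmt_nonneg (h0 : 0 ≤ D) (Q : Λ × Λ) : 0 ≤ dsc z D Q := by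
  rw [dsc_apply]
  split_ifs
  · exact h0 Q
  · exact le_rfl

theorem dsc_eq_zero (h0 : 0 ≤ D) (h : psh (pm rs) D z = 0) : dsc z D = 0 :=
  (eq_of_le_of_degree (D := 0) (zqmt_nonneg h0) (by rw [degree_dsc, h, map_zero])).symm

/-- enough points in the disc -/
theorem dsc_eq (h0 : 0 ≤ D) {S : Finset (Λ × Λ)} (hS : ∀ Q ∈ S, pm rs Q = z ∧ D Q ≠ 0)
    (hc : psh (pm rs) D z = S.card) : dsc z D = ∑ Q ∈ S, Finsupp.single Q 1 := by
  refine (eq_of_le_of_degree (fun Q => ?_) ?_).symm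
  · rw [Finsupp.finsetSum_apply]
    simp only [Finsupp.single_apply, Finset.sum_ite_eq']
    split_ifs with h
    · rw [dsc_apply, if_pos (hS Q h).1]
      exact lt_of_le_of_ne (h0 Q) (hS Q h).2.symm
    · exact zqmt_nonneg h0 Q
  · simp only [degree_dsc, hc, map_sum, Finsupp.degree_single, Finset.sum_const, nsmul_eq_mul,
      mul_one, le_refl]

theorem sum_dsc {s : Finset (kk Λ × kk Λ)} (hs : ∀ Q, D Q ≠ 0 → pm rs Q ∈ s) :
    ∑ z ∈ s, dsc z D = D := by
  ext Q
  rw [Finsupp.finsetSum_apply]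
  simp only [dsc_apply, Finset.sum_ite_eq]
  split_ifs with h
  · rfl
  · exact (not_not.1 (mt (hs Q) h)).symm

theorem dsc_psh {σ : Λ → Λ} {F : kk Λ → kk Λ} (hF : Function.Injective F)
    (h : ∀ x, rs (σ x) = F (rs x)) (z : kk Λ × kk Λ) (D : Λ × Λ →₀ ℤ) :
    dsc (pm F z) (psh (pm σ) D) = psh (pm σ) (dsc z D) :=
  zqmt_filter (fun Q => by
    have e : pm rs (pm σ Q) = pm F (pm rs Q) := Prod.ext (h _) (h _)
    rw [e]
    exact (hF.prodMap hF).eq_iff) D

end

section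

variable {K Λ : Type} [Field K] [NormedField Λ] [IsUltrametricDist Λ] [Algebra K Λ]
  {L : IntermediateField K Λ} {d : ℕ}

/-- a curve with integral coefficients, seen over `Λ` -/
noncomputable abbrev lU (lam : Fin d → (OL L)[X]) : Fin d → Λ[X] :=
  fun i => (lam i).map (OL L).subtype

/-- the reduction of a curve with integral coefficients -/
noncomputable abbrev lD (lam : Fin d → (OL L)[X]) : Fin d → (kk Λ)[X] :=
  fun i => (lam i).map (rL L)

theorem eval_lD (lam : Fin d → (OL L)[X]) {t : Λ} (ht : ‖t‖ ≤ 1) :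
    (fun i => (lD lam i).eval (rs t)) = fun i => rs ((lU lam i).eval t) :=
  funext fun i => by
    rw [eval_map, eval_map, rs_eval₂ (fun c => c.2.2) rL_apply ht]

theorem norm_lU (lam : Fin d → (OL L)[X]) {t : Λ} (ht : ‖t‖ ≤ 1) (i : Fin d) :
    ‖(lU lam i).eval t‖ ≤ 1 := (intg_map (lam i)).eval_le ht

theorem lU_deg {lam : Fin d → (OL L)[X]} {e : ℕ} (he : ∀ i, (lam i).natDegree ≤ e) (i : Fin d) :
    (lU lam i).natDegree ≤ e := natDegree_map_le.trans (he i)

theorem lD_deg {lam : Fin d → (OL L)[X]} {e : ℕ} (he : ∀ i, (lam i).natDegree ≤ e) (i : Fin d) :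
    (lD lam i).natDegree ≤ e := natDegree_map_le.trans (he i)

end

variable {p : ℕ} {K Λ : Type} [Field K] [CharZero K] [NormedField Λ] [IsUltrametricDist Λ]
  [IsAlgClosed Λ] [Algebra K Λ] [IsGalois K Λ] [Loc p K Λ] [Fact p.Prime] [CharP (kk Λ) p]

variable {B L : IntermediateField K Λ} {n : ℕ} {σ : Λ ≃ₐ[K] Λ} {D : Λ × Λ →₀ ℤ}

theorem exists_fin (L : IntermediateField K Λ) [FiniteDimensional K L] (s : Finset Λ) :
    ∃ L', L ≤ L' ∧ FiniteDimensional K L' ∧ ∀ x ∈ s, x ∈ L' := by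
  obtain ⟨L', h1, h2, h3, -⟩ := orb_fld (Subtype.val : s → Λ) L
  exact ⟨L', h1, h2, fun x hx => h3 ⟨x, hx⟩⟩

theorem zqmt_over {L : IntermediateField K Λ} {f : Λ[X]} (h : ∀ x ∈ f.coeffs, x ∈ L) :
    Over L f := fun n => by
  by_cases e : f.coeff n = 0
  · rw [e]
    exact zero_mem _
  · exact h _ (coeff_mem_coeffs e)

theorem exists_over (L : IntermediateField K Λ) [FiniteDimensional K L] {d : ℕ}
    (lam : Fin d → Λ[X]) : ∃ L', L ≤ L' ∧ FiniteDimensional K L' ∧ ∀ i, Over L' (lam i) := by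
  obtain ⟨L', h1, h2, h3⟩ := exists_fin L (Finset.univ.biUnion fun i => (lam i).coeffs)
  exact ⟨L', h1, h2, fun i => zqmt_over fun x hx =>
    h3 x (Finset.mem_biUnion.2 ⟨i, Finset.mem_univ i, hx⟩)⟩

theorem exists_ov2 (L : IntermediateField K Λ) [FiniteDimensional K L] (G : Λ[X][X]) :
    ∃ L', L ≤ L' ∧ FiniteDimensional K L' ∧ Ov2 L' G := by
  obtain ⟨L', h1, h2, h3⟩ := exists_fin L (G.coeffs.biUnion coeffs)
  refine ⟨L', h1, h2, fun i => zqmt_over fun x hx => h3 x (Finset.mem_biUnion.2 ⟨_, ?_, hx⟩)⟩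
  refine coeff_mem_coeffs fun e => ?_
  simp [e] at hx

theorem Ov2.mono {L' : IntermediateField K Λ} (hL : L ≤ L') {G : Λ[X][X]} (h : Ov2 L G) :
    Ov2 L' G := fun i => (h i).mono hL

theorem Tower.dsc_inv (T : Tower p B) (hn : 0 < n) {z : kk Λ × kk Λ}
    (hz : pm (fr (kk Λ) p (T.r * n)) z = z) (hσ : Fix (T.U n) σ) (hD : psh (pm σ) D = D) :
    psh (pm σ) (dsc z D) = dsc z D := by
  have key : ∀ a, fr (kk Λ) p (T.r * n) a = a → ∀ x, rs (σ x) = a ↔ rs x = a := by
    intro a ha x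
    obtain ⟨t, rfl⟩ := T.exists_lift hn ha
    rw [rL_apply]
    refine ⟨fun h => ?_, fun h => ?_⟩
    · have := rs_gal (p := p) σ⁻¹ h
      rwa [hσ.inv _ t.2.1, show σ⁻¹ (σ x) = x from σ.symm_apply_apply x] at this
    · rw [rs_gal (p := p) σ h, hσ _ t.2.1]
  conv_rhs => rw [← hD]
  exact (zqmt_filter (f := pm σ) (P := fun Q => pm rs Q = z) (P' := fun Q => pm rs Q = z)
    (fun Q => Prod.ext_iff.trans ((and_congr (key _ (congrArg Prod.fst hz) _)
    (key _ (congrArg Prod.snd hz) _)).trans (Prod.ext_iff (x := pm rs Q)).symm)) D).symm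

theorem Tower.fr_lD (T : Tower p B) (hn : 0 < n) {d : ℕ} (lam : Fin d → (OL (T.U n))[X]) (j : ℕ)
    (i : Fin d) : (lD lam i).map (fr (kk Λ) p (T.r * (n * j))) = lD lam i := by
  ext k
  rw [coeff_map, coeff_map, ← mul_assoc, rL_apply]
  exact fr_fixed_mul (T.rs_fixed hn ((lam i).coeff k).2.1) j

theorem zqmt_map {R : Type} [Semiring R] {φ : R →+* R} {f : R[X]} (h : ∀ x ∈ f.coeffs, φ x = x) :
    f.map φ = f := by
  ext n
  rw [coeff_map]
  by_cases e : f.coeff n = 0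
  · rw [e, map_zero]
  · exact h _ (coeff_mem_coeffs e)

/-- the coefficients of finitely many polynomials are fixed by a power of Frobenius -/
theorem Tower.exists_fixed (T : Tower p B) {d : ℕ} (l : Fin d → (kk Λ)[X])
    (s : Finset (kk Λ)[X][X]) (s' : Finset (kk Λ × kk Λ)) : ∃ n, 0 < n ∧
      (∀ i, (l i).map (fr (kk Λ) p (T.r * n)) = l i) ∧
      (∀ G ∈ s, mp (fr (kk Λ) p (T.r * n)) G = G) ∧
      ∀ z ∈ s', pm (fr (kk Λ) p (T.r * n)) z = z := by
  obtain ⟨n, hn, h⟩ := T.exists_fixed_finset ((Finset.univ.biUnion fun i => (l i).coeffs) ∪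
    (s.biUnion fun G => G.coeffs.biUnion coeffs) ∪ (s'.image Prod.fst ∪ s'.image Prod.snd))
  simp only [Finset.mem_union, Finset.mem_biUnion, Finset.mem_image] at h
  exact ⟨n, hn, fun i => zqmt_map fun x hx => h x (.inl (.inl ⟨i, Finset.mem_univ i, hx⟩)),
    fun G hG => zqmt_map fun g hg => zqmt_map fun x hx => h x (.inl (.inr ⟨G, hG, g, hg, hx⟩)),
    fun z hz => Prod.ext (h _ (.inr (.inl ⟨z, hz, rfl⟩))) (h _ (.inr (.inr ⟨z, hz, rfl⟩)))⟩

include p in
theorem filter_gal (hD : psh (pm σ) D = D) :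
    psh (pm σ) (D.filter fun Q => ‖Q.1‖ = 1) = D.filter fun Q => ‖Q.1‖ = 1 := by
  conv_rhs => rw [← hD]
  exact (zqmt_filter (fun Q => by rw [show (pm σ Q).1 = σ Q.1 from rfl, Loc.norm_gal]) D).symm

end Pool.Agent.ZeroCyc
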