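import Pool.Agent.Lib.MP_796ce4_ag.ZQ.MB
import Pool.Agent.Lib.MP_796ce4_ag.ZQ.MT
import Pool.Agent.Lib.MP_796ce4_ag.ZQ.QMu

/-! Counting the points of a divisor in the residue discs of a chart. -/

namespace Pool.Agent.ZeroCyc

open Polynomial Module
open scoped Classical IntermediateField PowerSeries

set_option linter.unusedSectionVars false

variable {p : ℕ} {K Λ : Type} [Field K] [CharZero K] [NormedField Λ] [IsUltrametricDist Λ]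
  [IsAlgClosed Λ] [Algebra K Λ] [IsGalois K Λ] [Loc p K Λ] [Fact p.Prime] [CharP (kk Λ) p]

variable {N : ℕ} {J : Ideal (MvPolynomial (Fin (N + 1)) K)} {B L : IntermediateField K Λ}

namespace QChart

variable (𝒞 : QChart J B)

/-- the plane curve in the reduced special fibre -/
noncomputable abbrev cK (l : Fin 𝒞.d → (kk Λ)[X]) : (kk Λ)[X][X] := cv (rL B) l 𝒞.ϑ

/-- all zeros on the reduced special fibre are good -/
def GZ (l : Fin 𝒞.d → (kk Λ)[X]) (G : (kk Λ)[X][X]) : Prop :=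
  ∀ z, On (𝒞.cK l) z → ee z G = 0 → (𝒞.red.rho (rL B) l).eval z.1 ≠ 0

variable {𝒞} {lam : Fin 𝒞.d → (OL L)[X]} {e m : ℕ} {G G' : (OL L)[X][X]}
  {l : Fin 𝒞.d → (kk Λ)[X]} {z : kk Λ × kk Λ} {Q : Λ × Λ}

theorem mp_cU (hB : B ≤ L) (f : MP 𝒞.d (OL B)) :
    mp (OL L).subtype (cv (inc hB) lam f) = cv (OL B).subtype (lU lam) f := by
  rw [mp_cv, subtype_inc]

theorem mp_cD (hB : B ≤ L) (f : MP 𝒞.d (OL B)) :
    mp (rL L) (cv (inc hB) lam f) = cv (rL B) (lD lam) f := by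
  rw [mp_cv, rL_inc]

theorem mu_cv (l : Fin 𝒞.d → (kk Λ)[X]) (z : kk Λ × kk Λ) :
    ZeroCyc.mu (cv (rL B) l 𝒞.χ) z = 𝒞.mu (fun i => (l i).eval z.1) z.2 := by
  have h1 : (evalRingHom z.1).comp (MvPolynomial.eval₂Hom (C.comp (rL B)) l) =
      MvPolynomial.eval₂Hom (rL B) fun i => (l i).eval z.1 :=
    MvPolynomial.ringHom_ext (fun r => by simp) fun i => by simp
  rw [ZeroCyc.mu, QChart.mu, cv, coe_mapRingHom, Polynomial.map_map, h1]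

theorem cK_dvd (l : Fin 𝒞.d → (kk Λ)[X]) :
    𝒞.cK l ∣ cv (rL B) l 𝒞.χ ∧ ∃ k, cv (rL B) l 𝒞.χ ∣ 𝒞.cK l ^ k := by
  obtain ⟨k, hk⟩ := 𝒞.dvd₂
  have h1 := map_dvd (cv (RingHom.id _) l) 𝒞.dvd₁
  have h2 := map_dvd (cv (RingHom.id _) l) hk
  rw [map_pow] at h2
  rw [cv_mq, cv_mq, RingHom.id_comp] at h1 h2
  exact ⟨h1, k, h2⟩

theorem cK_monic (l : Fin 𝒞.d → (kk Λ)[X]) : (𝒞.cK l).Monic := 𝒞.red.monic.map _

theorem gk_iff : 𝒞.red.Gk (fun i => (l i).eval z.1) z.2 ↔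
    On (𝒞.cK l) z ∧ (𝒞.red.rho (rL B) l).eval z.1 ≠ 0 := by
  rw [On, ee_cv, Chart.eval_rho]
  exact ⟨fun h => ⟨h.1, h.2⟩, fun h => ⟨h.1, h.2⟩⟩

theorem et_cK (h0 : On (𝒞.cK l) z) (h1 : (𝒞.red.rho (rL B) l).eval z.1 ≠ 0) : Et (𝒞.cK l) z := by
  refine ⟨h0, ?_⟩
  have hk := gk_iff.2 ⟨h0, h1⟩
  rw [← cv_derivative, ee_cv]
  exact hk.der hk.on

theorem GZ.congr {G G' : (kk Λ)[X][X]} (h : 𝒞.GZ l G) (hd : 𝒞.cK l ∣ G - G') : 𝒞.GZ l G' := by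
  intro z h0 h1
  refine h z h0 ?_
  obtain ⟨q, hq⟩ := hd
  have h2 := congrArg (ee z) hq
  rwa [map_sub, map_mul, h1, show ee z (𝒞.cK l) = 0 from h0, zero_mul, sub_zero] at h2

theorem rho_lD (hB : B ≤ L) : (𝒞.red.rho (inc hB) lam).map (rL L) = 𝒞.red.rho (rL B) (lD lam) := by
  rw [Chart.map_rho, rL_inc]

/-- a monic polynomial whose zeros are good -/
theorem gz_C (hB : B ≤ L) {u : (OL L)[X]} (h : ∀ τ : Λ, ‖τ‖ ≤ 1 →
    ‖u.eval₂ (OL L).subtype τ‖ < 1 → ‖(𝒞.red.rho (inc hB) lam).eval₂ (OL L).subtype τ‖ = 1) :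
    𝒞.GZ (lD lam) (C (u.map (rL L))) := by
  intro z _ h1
  obtain ⟨τ, h2, h3⟩ := rs_surj z.1
  rw [ee_C, eval_map, ← h3, ← rs_eval₂ chartb_le chartb_r h2,
    rs_eq_zero (norm_eval₂_le chartb_le h2 u)] at h1
  rw [← rho_lD hB, eval_map, ← h3, ← rs_eval₂ chartb_le chartb_r h2]
  exact rs_ne_zero.2 (h τ h2 h1)

theorem on_rs (hB : B ≤ L) (h0 : On (𝒞.cL (lU lam)) Q) (h1 : ‖Q.1‖ ≤ 1) :
    ‖Q.2‖ ≤ 1 ∧ On (𝒞.cK (lD lam)) (pm rs Q) := by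
  have h2 := on_cL.1 h0
  have h3 := root_le (norm_lU lam h1) h2
  refine ⟨h3, ?_⟩
  have h4 : (fun i => (lD lam i).eval (pm rs Q).1) = fun i => rs ((lU lam i).eval Q.1) :=
    eval_lD lam h1
  rw [On, ee_cv, ← on_iff, h4]
  have h5 := (Chart.chartb_ev (𝒞 := 𝒞.red) (norm_lU lam h1) h3 𝒞.χ).2
  rw [h2, res_zero] at h5
  exact h5.symm

theorem zero_rs (hB : B ≤ L) (he : ∀ i, (lam i).natDegree ≤ e) (hG : Lead (𝒞.red.b * e) m G)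
    (h0 : On (𝒞.cL (lU lam)) Q) (h1 : ee Q (mp (OL L).subtype G) = 0) : ‖Q.1‖ ≤ 1 ∧ ‖Q.2‖ ≤ 1 ∧
      On (𝒞.cK (lD lam)) (pm rs Q) ∧ ee (pm rs Q) (mp (rL L) G) = 0 := by
  obtain ⟨a1, a2, -, a4⟩ := zeros_le (wt_crv (inc hB) he) hG (by rw [mp_cU]; exact h0) h1
  exact ⟨a1, a2, (on_rs hB h0 a1).2, a4⟩

theorem gd_of_rs (h0 : On (𝒞.cL (lU lam)) Q) (h1 : ‖Q.1‖ ≤ 1)
    (h2 : (𝒞.red.rho (rL B) (lD lam)).eval (rs Q.1) ≠ 0) :
    𝒞.Gd (fun i => (lU lam i).eval Q.1) Q.2 := by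
  rw [Chart.eval_rho, eval_lD lam h1] at h2
  exact gd_of_unit h2 (norm_lU lam h1) (on_cL.1 h0)

theorem GZ.gd (hB : B ≤ L) (he : ∀ i, (lam i).natDegree ≤ e) (hG : Lead (𝒞.red.b * e) m G)
    (hz : 𝒞.GZ (lD lam) (mp (rL L) G)) (h0 : On (𝒞.cL (lU lam)) Q)
    (h1 : ee Q (mp (OL L).subtype G) = 0) : 𝒞.Gd (fun i => (lU lam i).eval Q.1) Q.2 := by
  obtain ⟨a1, -, a3, a4⟩ := zero_rs hB he hG h0 h1
  exact gd_of_rs h0 a1 (hz _ a3 a4)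

theorem SPc (hB : B ≤ L) (he : ∀ i, (lam i).natDegree ≤ e) (hG : Lead (𝒞.red.b * e) m G)
    (hz : (𝒞.red.rho (rL B) (lD lam)).eval z.1 ≠ 0) :
    psh (pm rs) (dv (𝒞.cL (lU lam)) (mp (OL L).subtype G)) z ≤
      𝒞.mu (fun i => (lD lam i).eval z.1) z.2 * dv (𝒞.cK (lD lam)) (mp (rL L) G) z := by
  obtain ⟨h1, k, h2⟩ := cK_dvd (𝒞 := 𝒞) (lD lam)
  have h3 := sp_le (wt_crv (inc hB) he) (cK_monic (lD lam)) (by rw [mp_cD]; exact h1)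
    (by rw [mp_cD]; exact h2) hG (z := z) fun y hy => et_cK hy hz
  rwa [mp_cU, mp_cD, mu_cv] at h3

theorem CNT (hB : B ≤ L) (he : ∀ i, (lam i).natDegree ≤ e) (hG : Lead (𝒞.red.b * e) m G)
    (hz : 𝒞.GZ (lD lam) (mp (rL L) G)) (z : kk Λ × kk Λ) :
    psh (pm rs) (dv (𝒞.cL (lU lam)) (mp (OL L).subtype G)) z =
      𝒞.mu (fun i => (lD lam i).eval z.1) z.2 * dv (𝒞.cK (lD lam)) (mp (rL L) G) z := by
  obtain ⟨h1, k, h2⟩ := cK_dvd (𝒞 := 𝒞) (lD lam)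
  have h3 := sp_eq (wt_crv (inc hB) he) (cK_monic (lD lam)) (by rw [mp_cD]; exact h1)
    (by rw [mp_cD]; exact h2) hG (by
      rw [mp_cU]
      exact fun Q h0 h1 => (hz.gd hB he hG h0 h1).et)
    (fun Q h0 h1 y hy => et_cK hy (hz Q h0 h1)) z
  rwa [mp_cU, mp_cD, mu_cv] at h3

/-- the count for functions that reduce to a polynomial in the parameter -/
theorem CNT_C (hB : B ≤ L) (he : ∀ i, (lam i).natDegree ≤ e) {u : (OL L)[X]} (hu : u.Monic)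
    {A : (OL L)[X][X]} (hG : Lead (𝒞.red.b * e) m (C u - cv (inc hB) lam 𝒞.ϑ * A))
    (hz : 𝒞.GZ (lD lam) (C (u.map (rL L)))) :
    𝒞.GZ (lD lam) (mp (rL L) (C u - cv (inc hB) lam 𝒞.ϑ * A)) ∧ ∀ z, psh (pm rs)
      (dv (𝒞.cL (lU lam)) (mp (OL L).subtype (C u - cv (inc hB) lam 𝒞.ϑ * A))) z =
        𝒞.mu (fun i => (lD lam i).eval z.1) z.2 * (u.map (rL L)).rootMultiplicity z.1 := by
  have h1 : 𝒞.cK (lD lam) ∣ C (u.map (rL L)) - mp (rL L) (C u - cv (inc hB) lam 𝒞.ϑ * A) := by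
    rw [map_sub, map_mul, mp_C, mp_cD, sub_sub_cancel]
    exact dvd_mul_right _ _
  have h2 := hz.congr h1
  refine ⟨h2, fun z => ?_⟩
  rw [CNT hB he hG h2, ← dv_congr (cK_monic _) h1,
    dv_C (𝒞.red.wt_crv (rL B) (lD_deg he)) (hu.map _)]
  split_ifs with hE
  · rfl
  · rw [mul_zero]
    by_cases h0 : On (𝒞.cK (lD lam)) z
    · have h3 : (u.map (rL L)).rootMultiplicity z.1 = 0 :=
        rootMultiplicity_eq_zero fun h4 => hE (et_cK h0 (hz z h0 (by rw [ee_C]; exact h4)))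
      rw [h3, Nat.cast_zero, mul_zero]
    · have h3 : 𝒞.mu (fun i => (lD lam i).eval z.1) z.2 = 0 := by
        refine rootMultiplicity_eq_zero fun h4 => h0 ?_
        rw [On, ee_cv, ← on_iff, ev2_eq_eval]
        exact h4
      rw [h3, Nat.cast_zero, zero_mul]

include p

theorem MRg [FiniteDimensional K L] (hB : B ≤ L) (he : ∀ i, (lam i).natDegree ≤ e)
    (hG : Lead (𝒞.red.b * e) m G) (hG' : Lead (𝒞.red.b * e) m G')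
    (hz : 𝒞.GZ (lD lam) (mp (rL L) G)) (hz' : 𝒞.GZ (lD lam) (mp (rL L) G')) :
    clL J L (𝒞.Pf (lU lam) (dv (𝒞.cL (lU lam)) (mp (OL L).subtype G))) =
      clL J L (𝒞.Pf (lU lam) (dv (𝒞.cL (lU lam)) (mp (OL L).subtype G'))) := by
  refine MRc hB (fun i => over_map _) (lU_deg he) (hG.map _) (hG'.map _)
    (ov2_mp (fun x => x.2.1) _) (ov2_mp (fun x => x.2.1) _) fun Q h0 h1 => ?_
  have h2 := h1.elim (hz.gd hB he hG h0) (hz'.gd hB he hG' h0)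
  exact ⟨h2.et, h2.pv_ne⟩

theorem GZ.inv (hB : B ≤ L) (he : ∀ i, (lam i).natDegree ≤ e) (hG : Lead (𝒞.red.b * e) m G)
    (hz : 𝒞.GZ (lD lam) (mp (rL L) G)) {σ : Λ ≃ₐ[K] Λ} (hσ : Fix L σ) :
    psh (pm σ) (dv (𝒞.cL (lU lam)) (mp (OL L).subtype G)) =
      dv (𝒞.cL (lU lam)) (mp (OL L).subtype G) := by
  exact dv_gal hB (fun i => over_map _) (lU_deg he) (hG.map _) (ov2_mp (fun x => x.2.1) _)
    (fun Q h0 h1 => (hz.gd hB he hG h0 h1).et) hσ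

end QChart

end Pool.Agent.ZeroCyc
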