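import Pool.Agent.Lib.MP_796ce4_ag.ZY.CC
import Pool.Agent.Lib.MP_796ce4_ag.ZY.Grp
import Pool.Agent.Lib.MP_796ce4_ag.ZY.Pack

/-! Lemmas on group rings and abelian groups. -/

namespace Pool.Agent.ZeroCyc

open scoped Classical

set_option linter.unusedSectionVars false
set_option linter.unusedVariables false

section

variable {M : Type} [AddCommGroup M] {fil : ℕ → AddSubgroup M} {y₀ : M} {s w : ℕ}

theorem qgrp_nsmul {x : GA M} (hx : x ∈ II fil y₀ s w) {k : ℕ} {v : M} (hk : 0 < k)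
    (hv : v ∈ fil k) (n : ℕ) :
    n • (x * dl v) - x * dl (n • v) ∈ II fil y₀ (s + 1 + 1) (w + k + k) := by
  induction n with
  | zero =>
    rw [zero_smul, zero_smul, dl, fil_sg_zero, sub_self, mul_zero, sub_zero]
    exact zero_mem _
  | succ n ih =>
    have h1 := sub_mem ih (fil_mul_dl (fil_mul_dl hx hk ((fil k).nsmul_mem hv n)) hk hv)
    have e : (n + 1) • (x * dl v) - x * dl ((n + 1) • v) =
        n • (x * dl v) - x * dl (n • v) - x * dl (n • v) * dl v := by
      rw [succ_nsmul, succ_nsmul, dl, dl, dl, fil_sg_add]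
      ring
    rw [e]
    exact h1

/-- change of the differences -/
theorem gen_sub_gen' (hf : Antitone fil) {ι : Type} [Fintype ι] {y : M} (hy : y - y₀ ∈ fil 1)
    {k : ι → ℕ} {v v' : ι → M} (hk : ∀ i, 0 < k i) (hv : ∀ i, v i ∈ fil (k i))
    (hv' : ∀ i, v' i - v i ∈ fil (k i + 1)) :
    sg y * ∏ i, dl (v' i) - sg y * ∏ i, dl (v i) ∈
      II fil y₀ (Fintype.card ι) (∑ i, k i + 1) := by
  have hv1 : ∀ i, v' i ∈ fil (k i) := fun i => by
    simpa using (fil (k i)).add_mem (hf (Nat.le_succ _) (hv' i)) (hv i)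
  have key : ∀ A : Finset ι, sg y * ∏ i ∈ A, dl (v' i) - sg y * ∏ i ∈ A, dl (v i) ∈
      II fil y₀ A.card (∑ i ∈ A, k i + 1) := by
    intro A
    induction A using Finset.induction_on with
    | empty => simp
    | insert i A hi ih =>
      have hyv : y + v i - y₀ ∈ fil 1 := by
        rw [add_sub_right_comm]
        exact (fil 1).add_mem hy (hf (hk i) (hv i))
      have h1 := fil_mul_dl (fil_gen A hyv hk hv1) (Nat.succ_pos _) (hv' i)
      have h2 := fil_mul_dl ih (hk i) (hv i)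
      have h3 : dl (v' i) = dl (v i) + sg (v i) * dl (v' i - v i) := by
        rw [← fil_sg_sub, dl, dl]; ring
      rw [Finset.card_insert_of_notMem hi, Finset.sum_insert hi, Finset.prod_insert hi,
        Finset.prod_insert hi, h3]
      have h4 := add_mem (II_mono le_rfl (w' := k i + ∑ i ∈ A, k i + 1) (by omega) h1)
        (II_mono le_rfl (w' := k i + ∑ i ∈ A, k i + 1) (by omega) h2)
      convert h4 using 1
      rw [fil_sg_add]
      ring
  exact key Finset.univ
/-- change of the base point -/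
theorem gen_sub_base (hf : Antitone fil) {ι : Type} [Fintype ι] {y y' : M} (hy : y - y₀ ∈ fil 1)
    {n : ℕ} (hn : 0 < n) (hy' : y' - y ∈ fil n) {k : ι → ℕ} {v : ι → M} (hk : ∀ i, 0 < k i)
    (hv : ∀ i, v i ∈ fil (k i)) :
    sg y' * ∏ i, dl (v i) - sg y * ∏ i, dl (v i) ∈ II fil y₀ 1 n := by
  have h0 : sg y ∈ II fil y₀ 0 0 :=
    AddSubgroup.subset_closure ⟨y, 0, hy, by simp, by simp, by simp, by simp⟩
  have h1 := cc_mul_prod Finset.univ (v := v) (fun i _ => hf (hk i) (hv i)) (fil_mul_dl h0 hn hy')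
  rw [zero_add, zero_add, ← fil_sg_sub, sub_mul] at h1
  exact h1
/-- a raised weight -/
theorem gen_mem_raised (hf : Antitone fil) {ι : Type} [Fintype ι] {y : M} (hy : y - y₀ ∈ fil 1)
    {k : ι → ℕ} {v : ι → M} (hk : ∀ i, 0 < k i) (hv : ∀ i, v i ∈ fil (k i)) {i₀ : ι}
    (h0 : v i₀ ∈ fil (k i₀ + 1)) :
    sg y * ∏ i, dl (v i) ∈ II fil y₀ (Fintype.card ι) (∑ i, k i + 1) := by
  have h1 := gen_mem_II (fil := fil) hy (k := fun i => k i + if i = i₀ then 1 else 0) (v := v)
    (fun i => Nat.add_pos_left (hk i) _) fun i => by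
      split_ifs with h
      · rw [h]; exact h0
      · exact hv i
  rwa [Finset.sum_add_distrib, Finset.sum_ite_eq', if_pos (Finset.mem_univ _)] at h1
/-- multiplication by `p` raises the weight -/
theorem smul_mem_II (hf : Antitone fil) {p : ℕ} (hp : p.Prime)
    (h : ∀ n, ∀ v ∈ fil n, p • v ∈ fil (n + 1)) (hw : 0 < w) {x : GA M} (hx : x ∈ II fil y₀ s w) :
    p • x ∈ II fil y₀ (s + 1) (w + 1) := by
  induction hx using AddSubgroup.closure_induction with
  | zero => rw [smul_zero]; exact zero_mem _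
  | add a b _ _ ha hb => rw [smul_add]; exact add_mem ha hb
  | neg a _ ha => rw [smul_neg]; exact neg_mem ha
  | mem x hx =>
    obtain ⟨y, l, h1, h2, h3, h4, rfl⟩ := hx
    have hl : l ≠ 0 := by
      rintro rfl
      simp at h3
      omega
    obtain ⟨a, ha⟩ := Multiset.exists_mem_of_ne_zero hl
    obtain ⟨l', rfl⟩ := Multiset.exists_cons_of_mem ha
    have h5 : sg y * (l'.map fun kv => dl kv.2).prod ∈ II fil y₀ l'.card (l'.map Prod.fst).sum :=
      AddSubgroup.subset_closure ⟨y, l', h1, le_rfl, le_rfl,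
        fun kv hkv => h4 kv (Multiset.mem_cons_of_mem hkv), rfl⟩
    obtain ⟨hk, hv⟩ := h4 a ha
    rw [Multiset.card_cons] at h2
    rw [Multiset.map_cons, Multiset.sum_cons] at h3
    have h6 := add_mem (II_mono (s' := s + 1) (w' := w + 1) (by omega) (by omega)
      (qgrp_nsmul h5 hk hv p)) (II_mono (s' := s + 1) (w' := w + 1) (by omega) (by omega)
      (fil_mul_dl h5 (Nat.succ_pos _) (h _ _ hv)))
    rw [sub_add_cancel] at h6
    rw [Multiset.map_cons, Multiset.prod_cons, mul_comm (dl a.2), ← mul_assoc]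
    exact h6

/-- one factor may be taken along an axis -/
theorem gen_mem_axis {A : Type} [AddCommGroup A] {d : ℕ} {f : ℕ → AddSubgroup A} (hf : Antitone f)
    {y₀ y : Fin d → A} (hy : y - y₀ ∈ piFil d f 1) {k : Fin (s + 1) → ℕ}
    {v : Fin (s + 1) → Fin d → A} (hk : ∀ i, 0 < k i) (hv : ∀ i, v i ∈ piFil d f (k i))
    {H : AddSubgroup (GA (Fin d → A))} (hH : ∀ (y' : Fin d → A) (v' : Fin (s + 1) → Fin d → A)
      (j : Fin d), y' - y₀ ∈ piFil d f 1 → (∀ i, v' i ∈ piFil d f (k i)) →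
        (∀ j', j' ≠ j → v' 0 j' = 0) → sg y' * ∏ i, dl (v' i) ∈ H) :
    sg y * ∏ i, dl (v i) ∈ H := by
  have hv' : ∀ j, v 0 j ∈ f (k 0) := fun j => hv 0 j (Set.mem_univ j)
  obtain ⟨c, hc, e⟩ := cc_dl_sum (piFil d f 1) Finset.univ (u := fun j => Pi.single j (v 0 j))
    fun j => cc_single_mem j (hf (hk 0) (hv' j))
  rw [Finset.univ_sum_single] at e
  rw [Fin.prod_univ_succ, e, Finset.sum_mul, Finset.mul_sum]
  refine AddSubgroup.sum_mem _ fun j _ => ?_
  have key := hH (y + c j) (Fin.cons (Pi.single j (v 0 j)) fun i => v i.succ) j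
    (by rw [add_sub_right_comm]; exact add_mem hy (hc j))
    (fun i => Fin.cases (cc_single_mem j (hv' j)) (fun i => hv i.succ) i)
    fun j' hj => Pi.single_eq_of_ne hj _
  rw [Fin.prod_univ_succ, cc_sg_add] at key
  simp only [Fin.cons_zero, Fin.cons_succ] at key
  rw [← mul_assoc, ← mul_assoc, mul_assoc (sg y * sg (c j))]
  exact key

end

variable {V : Type} [AddCommGroup V]

theorem FinMod.sub {A A' H : AddSubgroup V} (h : FinMod A' H) (hA : A ≤ A') (hH : H ≤ A) :
    FinMod A H := by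
  obtain ⟨s, -, hs⟩ := h
  let π := QuotientAddGroup.mk' H
  let G : AddSubgroup (V ⧸ H) := AddSubgroup.closure ((s.image π : Finset (V ⧸ H)) : Set (V ⧸ H))
  have hG : G.FG := ⟨s.image π, rfl⟩
  have hle : A.map π ≤ G := by
    rw [AddSubgroup.map_le_iff_le_comap]
    refine (hA.trans hs).trans (sup_le ?_ fun x hx => ?_)
    · rw [AddSubgroup.closure_le]
      intro x hx
      exact AddSubgroup.subset_closure (Finset.mem_coe.2 (Finset.mem_image_of_mem π hx))
    · rw [AddSubgroup.mem_comap, show π x = 0 from (QuotientAddGroup.eq_zero_iff _).2 hx]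
      exact G.zero_mem
  have hB : (A.map π).FG := by
    have h1 : (AddSubgroup.toIntSubmodule G).FG := (Submodule.fg_iff_addSubgroup_fg _).2 hG
    have h2 : (AddSubgroup.toIntSubmodule (A.map π)).FG := h1.of_le hle
    exact (Submodule.fg_iff_addSubgroup_fg _).1 h2
  obtain ⟨t, ht⟩ := hB
  have hl : ∀ z ∈ t, ∃ a ∈ A, π a = z := fun z hz => by
    have : z ∈ A.map π := ht ▸ AddSubgroup.subset_closure (Finset.mem_coe.2 hz)
    exact this
  choose! g hg1 hg2 using hl
  refine ⟨t.image g, fun x hx => ?_, fun a ha => ?_⟩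
  · obtain ⟨z, hz, rfl⟩ := Finset.mem_image.1 hx
    exact hg1 z hz
  · have h1 : AddSubgroup.closure (t : Set (V ⧸ H)) ≤
        (AddSubgroup.closure ((t.image g : Finset V) : Set V)).map π := by
      rw [AddSubgroup.closure_le]
      intro z hz
      exact ⟨g z, AddSubgroup.subset_closure (Finset.mem_coe.2 (Finset.mem_image_of_mem g hz)),
        hg2 z hz⟩
    obtain ⟨b, hb, e⟩ := h1 (ht ▸ AddSubgroup.mem_map_of_mem π ha)
    have h2 : a - b ∈ H := QuotientAddGroup.eq_iff_sub_mem.1 e.symm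
    rw [← add_sub_cancel b a]
    exact AddSubgroup.add_mem_sup hb h2
/-- finiteness along a filtration -/
theorem FinMod.chain {G : ℕ → AddSubgroup V} {H : AddSubgroup V} (ha : Antitone G)
    (hH : H ≤ G 1) (h : ∀ w, 0 < w → FinMod (G w) (G (w + 1) ⊔ H)) {W : ℕ} (hW : G W ≤ H) :
    FinMod (G 1) H := by
  have key : ∀ n, FinMod (G 1) (G (n + 1) ⊔ H) := fun n => by
    induction n with
    | zero => exact FinMod.of_le le_sup_left
    | succ n ih =>
      exact ih.trans ((h (n + 1) n.succ_pos).sup (FinMod.of_le le_sup_right))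
        (sup_le (ha (by omega)) hH)
  exact (key W).mono (sup_le ((ha W.le_succ).trans hW) le_rfl)
/-- elements killed by all functionals are torsion -/
theorem tors_of_fun {H : AddSubgroup V} {x : V}
    (h : ∀ ℓ : V →+ ℚ, (∀ v ∈ H, ℓ v = 0) → ℓ x = 0) : ∃ m : ℕ, 0 < m ∧ m • x ∈ H := by
  by_contra hc
  push Not at hc
  let π := QuotientAddGroup.mk' H
  have hn : ∀ m : ℕ, m • π x = 0 → m = 0 := fun m hm => by
    by_contra h0
    rw [← map_nsmul] at hm
    exact hc m (Nat.pos_of_ne_zero h0) ((QuotientAddGroup.eq_zero_iff _).1 hm)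
  have hinj : Function.Injective (zmultiplesHom (V ⧸ H) (π x)) := by
    rw [injective_iff_map_eq_zero]
    intro n hz
    rw [zmultiplesHom_apply] at hz
    exact Int.natAbs_eq_zero.1 (hn _ (natAbs_nsmul_eq_zero.2 hz))
  obtain ⟨g, hg⟩ := (Module.Baer.of_divisible ℚ).extension_property_addMonoidHom _ hinj
    (Int.castAddHom ℚ)
  have h1 := h (g.comp π) fun v hv => by
    rw [AddMonoidHom.comp_apply, show π v = 0 from (QuotientAddGroup.eq_zero_iff _).2 hv, map_zero]
  have h2 := DFunLike.congr_fun hg 1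
  rw [AddMonoidHom.comp_apply, zmultiplesHom_apply, one_zsmul] at h2
  rw [AddMonoidHom.comp_apply, h2] at h1
  simp at h1
/-- the sum of all nice subgroups of `G` is nice -/
theorem nice_sSup (p : ℕ) (G : AddSubgroup V) :
    sSup {H | H ≤ G ∧ ∀ x ∈ H, Nice p H x} ≤ G ∧
      ∀ x ∈ sSup {H | H ≤ G ∧ ∀ x ∈ H, Nice p H x},
        Nice p (sSup {H | H ≤ G ∧ ∀ x ∈ H, Nice p H x}) x := by
  refine ⟨sSup_le fun _ hH => hH.1, fun x hx => ?_⟩
  let N : AddSubgroup V :=
    { carrier := {x | Nice p (sSup {H | H ≤ G ∧ ∀ x ∈ H, Nice p H x}) x}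
      zero_mem' := nice_zero p _
      add_mem' := Nice.add
      neg_mem' := Nice.neg }
  have h1 : sSup {H | H ≤ G ∧ ∀ x ∈ H, Nice p H x} ≤ N :=
    sSup_le fun H hH y hy => ⟨le_sSup hH (hH.2 y hy).mem,
      fun m hm => mulS_mono m (le_sSup hH) ((hH.2 y hy).div m hm), (hH.2 y hy).ser.mono (le_sSup hH)⟩
  exact h1 hx

end Pool.Agent.ZeroCyc
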