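import Pool.Agent.Lib.MP_796ce4_ag.ZQ.Tp
import Pool.Agent.Lib.MP_796ce4_ag.ZQ.QGrp
import Pool.Agent.Lib.MP_796ce4_ag.ZY.SigB

/-! The filtration by products of differences of transversal cycles. -/

namespace Pool.Agent.ZeroCyc

open Polynomial Module
open scoped Classical IntermediateField PowerSeries

set_option linter.unusedSectionVars false

variable {p : ℕ} {K Λ : Type} [Field K] [CharZero K] [NormedField Λ] [IsUltrametricDist Λ]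
  [IsAlgClosed Λ] [Algebra K Λ] [IsGalois K Λ] [Loc p K Λ] [Fact p.Prime] [CharP (kk Λ) p]
variable {N : ℕ} {J : Ideal (MvPolynomial (Fin (N + 1)) K)} {B : IntermediateField K Λ}

variable (J) in
/-- the value of a functional at a point -/
noncomputable def psi (ℓ : VV Λ J →+ ℚ) (y : PY Λ N) : ℚ := ℓ (clL J ⊥ (Finsupp.single y 1))

theorem psi_clL (ℓ : VV Λ J →+ ℚ) (L : IntermediateField K Λ) (D : PY Λ N →₀ ℤ) :
    ℓ (clL J L D) = finrank K L * D.sum fun y n => n * psi J ℓ y := by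
  rw [clL_eq_nsmul (L := ⊥) (n := finrank K L) (by rw [IntermediateField.finrank_bot, mul_one]),
    map_nsmul, nsmul_eq_mul]
  congr 1
  conv_lhs => rw [← Finsupp.sum_single D]
  rw [Finsupp.sum, Finsupp.sum, map_sum, map_sum]
  refine Finset.sum_congr rfl fun y _ => ?_
  rw [psi, ← zsmul_eq_mul, ← map_zsmul, ← map_zsmul, Finsupp.smul_single, smul_eq_mul, mul_one]

namespace QChart

variable {𝒞 : QChart J B} {T : Tower p B} {n s s' w w' : ℕ} {R R' : Fin 𝒞.d → Λ⟦X⟧} {h h' : Λ}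
  {H : AddSubgroup (VV Λ J)}

theorem unrF (hn : 0 < n) : UnrF (𝒞.π : Λ) (T.U n) := T.unrF 𝒞.π_max hn
theorem mem_fl_one (hn : 0 < n) {v : Fin 𝒞.d → Λ⟦X⟧} :
    v ∈ 𝒞.fl (T.U n) 1 ↔ ∀ i, v i ∈ SL (T.U n) ∧ ‖c0 (v i)‖ < 1 := by
  rw [mem_fl]
  exact forall_congr' fun i => ⟨fun h => ⟨fS_le 𝒞.π_lt h, c0_lt 𝒞.π_lt h⟩,
    fun h => fS_one (unrF hn) h.1 h.2⟩
theorem mem_Sig (hg : 𝒞.GS (T.U n) R h) {x : GA (Fin 𝒞.d → Λ⟦X⟧)}
    (hx : x ∈ II (𝒞.fl (T.U n)) R s w) : clL J (T.U n) (𝒞.Jm h x) ∈ 𝒞.Sig T n s w :=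
  AddSubgroup.mem_iSup_of_mem R (AddSubgroup.mem_iSup_of_mem h
    (AddSubgroup.mem_iSup_of_mem hg ⟨x, hx, rfl⟩))
theorem Sig_mono (hs : s ≤ s') (hw : w' ≤ w) : 𝒞.Sig T n s w ≤ 𝒞.Sig T n s' w' :=
  iSup_mono fun _ => iSup_mono fun _ => iSup_mono fun _ => AddSubgroup.map_mono (II_mono hs hw)
theorem Sig_le_FF (hn : 0 < n) : 𝒞.Sig T n s w ≤ 𝒞.FF T s w :=
  le_iSup₂ (f := fun n (_ : 0 < n) => 𝒞.Sig T n s w) n hn
theorem FF_le (hH : ∀ n, 0 < n → 𝒞.Sig T n s w ≤ H) : 𝒞.FF T s w ≤ H :=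
  iSup₂_le hH
theorem FF_mono (hs : s ≤ s') (hw : w' ≤ w) : 𝒞.FF T s w ≤ 𝒞.FF T s' w' :=
  iSup₂_mono fun _ _ => Sig_mono hs hw
theorem FF_le_Gw : 𝒞.FF T s w ≤ 𝒞.Gw T w :=
  le_iSup (fun s => 𝒞.FF T s w) s
theorem Gw_le (hH : ∀ s, 𝒞.FF T s w ≤ H) : 𝒞.Gw T w ≤ H :=
  iSup_le hH
theorem Gw_anti (hw : w' ≤ w) : 𝒞.Gw T w ≤ 𝒞.Gw T w' :=
  iSup_mono fun _ => FF_mono le_rfl hw
theorem Gw_le_Vu (hw : 0 < w) : 𝒞.Gw T w ≤ 𝒞.Vu T :=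
  Gw_anti hw
theorem FF_zero (hw : 0 < w) : 𝒞.FF T 0 w = ⊥ :=
  eq_bot_iff.2 (FF_le fun _ _ => iSup_le fun _ => iSup₂_le fun _ _ => by
    rw [II_zero hw, AddSubgroup.map_bot])
theorem Sig_mul (hn : 0 < n) {j : ℕ} (hj : 0 < j) {x : VV Λ J} (hx : x ∈ 𝒞.Sig T n s w) :
    j • x ∈ 𝒞.Sig T (n * j) s w := by
  have hU : T.U n ≤ T.U (n * j) := T.mono hn (Nat.mul_pos hn hj) (dvd_mul_right n j)
  have : 𝒞.Sig T n s w ≤ (𝒞.Sig T (n * j) s w).comap (nsmulAddMonoidHom j) := by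
    refine iSup_le fun R => iSup₂_le fun h hg => ?_
    rintro _ ⟨x, hx, rfl⟩
    have h1 : x ∈ II (𝒞.fl (T.U (n * j))) R s w := II_mono_fil (fil := 𝒞.fl (T.U n))
      (fun k v hv => mem_fl.2 fun i => fS_mono hU (mem_fl.1 hv i)) hx
    have h2 := mem_Sig (hg.mono hU) h1
    rw [T.clL_mul hn hj] at h2
    exact h2
  exact this hx
theorem Sig_le_of_II (hH : ∀ R h, 𝒞.GS (T.U n) R h → ∀ x ∈ II (𝒞.fl (T.U n)) R s w,
    clL J (T.U n) (𝒞.Jm h x) ∈ H) : 𝒞.Sig T n s w ≤ H :=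
  iSup_le fun R => iSup₂_le fun h hg => by
    rintro _ ⟨x, hx, rfl⟩
    exact hH R h hg x hx
theorem Sig_le (hH : ∀ R h, 𝒞.GS (T.U n) R h → ∀ r ≤ s, ∀ (k : Fin r → ℕ)
    (v : Fin r → Fin 𝒞.d → Λ⟦X⟧), w ≤ ∑ i, k i → (∀ i, 0 < k i) →
      (∀ i, v i ∈ 𝒞.fl (T.U n) (k i)) → clL J (T.U n) (𝒞.Jm h (sg R * ∏ i, dl (v i))) ∈ H) :
    𝒞.Sig T n s w ≤ H :=
  Sig_le_of_II fun _ h hg => II_le (H := H.comap ((clL J (T.U n)).comp (𝒞.Jm h)))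
    fun r hr R k v hR hw hk hv => hH R h (hg.move hR).1 r hr k v hw hk hv
/-- only products with the exact number of factors and the exact weight matter -/
theorem Sig_le_exact (hH : ∀ R h, 𝒞.GS (T.U n) R h → ∀ (k : Fin (s + 1) → ℕ)
    (v : Fin (s + 1) → Fin 𝒞.d → Λ⟦X⟧), ∑ i, k i = w → (∀ i, 0 < k i) →
      (∀ i, v i ∈ 𝒞.fl (T.U n) (k i)) → clL J (T.U n) (𝒞.Jm h (sg R * ∏ i, dl (v i))) ∈ H)
    (h1 : 𝒞.Sig T n s w ≤ H) (h2 : 𝒞.Sig T n (s + 1) (w + 1) ≤ H) :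
    𝒞.Sig T n (s + 1) w ≤ H := by
  refine Sig_le fun R h hg r hr k v hw hk hv => ?_
  have h0 := mem_Sig hg (gen_mem_II (y := R) (by rw [sub_self]; exact zero_mem _) hk hv)
  rw [Fintype.card_fin] at h0
  rcases hr.eq_or_lt with rfl | hr
  · rcases hw.eq_or_lt with hw | hw
    · exact hH R h hg k v hw.symm hk hv
    · exact h2 (Sig_mono le_rfl hw h0)
  · exact h1 (Sig_mono (Nat.lt_succ_iff.1 hr) hw h0)
theorem FF_le_diff {m : ℕ} (hw : s * m < w) (hH : ∀ n, 0 < n → ∀ R h, 𝒞.GS (T.U n) R h →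
    ∀ v ∈ 𝒞.fl (T.U n) (m + 1), clL J (T.U n) (𝒞.Qc h (R + v) - 𝒞.Qc h R) ∈ H) :
    𝒞.FF T s w ≤ H := by
  refine FF_le fun n hn => Sig_le_of_II fun R₀ h hg => ?_
  refine II_le_diff (H := H.comap ((clL J (T.U n)).comp (𝒞.Jm h))) fl_anti hw fun R v hR hv => ?_
  have := hH n hn R h (hg.move hR).1 v hv
  rwa [← Jm_sg, ← Jm_sg, ← map_sub] at this
theorem Vu_le (hH : ∀ n, 0 < n → ∀ R h, 𝒞.GS (T.U n) R h →
    ∀ v ∈ 𝒞.fl (T.U n) 1, clL J (T.U n) (𝒞.Qc h (R + v) - 𝒞.Qc h R) ∈ H) : 𝒞.Vu T ≤ H :=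
  iSup_le fun _ => FF_le_diff (m := 0) (by simp) hH
theorem diff_mem_FF (hn : 0 < n) (hg : 𝒞.GS (T.U n) R h) (hw : 0 < w)
    (hR : R' - R ∈ 𝒞.fl (T.U n) w) : clL J (T.U n) (𝒞.Qc h R' - 𝒞.Qc h R) ∈ 𝒞.FF T 1 w := by
  have h0 := mem_Sig hg (gen_mem_II (ι := Fin 1) (y := R) (k := fun _ => w) (v := fun _ => R' - R)
    (by rw [sub_self]; exact zero_mem _) (fun _ => hw) fun _ => hR)
  have h1 : sg R * ∏ _i : Fin 1, dl (R' - R) = sg R' - sg R := by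
    rw [Fin.prod_univ_one, dl, mul_sub, mul_one, AddMonoidAlgebra.single_mul_single, mul_one,
      add_sub_cancel]
  rw [h1, map_sub (𝒞.Jm h), Jm_sg, Jm_sg, Fin.sum_univ_one, Fintype.card_fin] at h0
  exact Sig_le_FF hn h0
theorem FF_le_FF_one {m : ℕ} (hw : s * m < w) : 𝒞.FF T s w ≤ 𝒞.FF T 1 (m + 1) :=
  FF_le_diff hw fun _ hn _ _ hg _ hv =>
    diff_mem_FF hn hg m.succ_pos (by rwa [add_sub_cancel_left])
theorem qsig_near (hn : 0 < n) (hg : 𝒞.GS (T.U n) R h) (hg' : 𝒞.GS (T.U n) R' h')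
    (hR : ∀ i, rs (c0 (R' i)) = rs (c0 (R i))) : R' - R ∈ 𝒞.fl (T.U n) 1 :=
  (mem_fl_one hn).2 fun i => ⟨sub_mem (hg'.mem i) (hg.mem i), by
    rw [Pi.sub_apply, map_sub]
    exact (rs_eq_iff (c0_mem (hg'.mem i)).2 (c0_mem (hg.mem i)).2).1 (hR i)⟩
theorem qsig_teich (hn : 0 < n) (hg : 𝒞.GS (T.U n) R h) :
    𝒞.GS (T.U n) (fun j => PowerSeries.C (teich p (rs (c0 (R j))))) (teich p (rs h)) :=
  gs_teich hg.gk T hn (fun i => T.rs_fixed hn (c0_mem (hg.mem i)).1) (T.rs_fixed hn hg.h_mem.1)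
theorem diff_mem_Vu (hn : 0 < n) (hg : 𝒞.GS (T.U n) R h) (hg' : 𝒞.GS (T.U n) R' h')
    (hR : ∀ i, rs (c0 (R' i)) = rs (c0 (R i))) (hh : rs h' = rs h) :
    clL J (T.U n) (𝒞.Qc h' R' - 𝒞.Qc h R) ∈ 𝒞.Vu T := by
  rw [Qc_congr ((rs_eq_iff hg'.h_mem.2 hg.h_mem.2).1 hh)]
  exact FF_le_Gw (diff_mem_FF hn hg one_pos (qsig_near hn hg hg' hR))
theorem sub_Lq_mem (hn : 0 < n) (hg : 𝒞.GS (T.U n) R h) : clL J (T.U n)
    (𝒞.Qc h R - 𝒞.Lq p (fun i => rs (c0 (R i))) (rs h)) ∈ 𝒞.Vu T := by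
  refine diff_mem_Vu hn (qsig_teich hn hg) hg (fun i => ?_) (teich_spec (p := p) K _).2.symm
  rw [PowerSeries.constantCoeff_C, (teich_spec (p := p) K _).2]
theorem mem_TL {L : IntermediateField K Λ} (hg : 𝒞.GS L R h) : clL J L (𝒞.Qc h R) ∈ 𝒞.TL L :=
  AddSubgroup.subset_closure ⟨R, h, hg, rfl⟩
theorem Lq_mem_TL (hn : 0 < n) {a : Fin 𝒞.d → kk Λ} {c : kk Λ} (hk : 𝒞.red.Gk a c)
    (ha : ∀ i, fr (kk Λ) p (T.r * n) (a i) = a i) (hc : fr (kk Λ) p (T.r * n) c = c) :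
    clL J (T.U n) (𝒞.Lq p a c) ∈ 𝒞.TL (T.U n) :=
  mem_TL (gs_teich hk T hn ha hc)
theorem TL_le_UU (hn : 0 < n) : 𝒞.TL (T.U n) ≤ 𝒞.UU T :=
  le_iSup₂ (f := fun n (_ : 0 < n) => 𝒞.TL (T.U n)) n hn
theorem TL_mul (hn : 0 < n) {j : ℕ} (hj : 0 < j) {x : VV Λ J} (hx : x ∈ 𝒞.TL (T.U n)) :
    j • x ∈ 𝒞.TL (T.U (n * j)) := by
  have : 𝒞.TL (T.U n) ≤ (𝒞.TL (T.U (n * j))).comap (nsmulAddMonoidHom j) := by
    refine (AddSubgroup.closure_le _).2 ?_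
    rintro _ ⟨R, h, hg, rfl⟩
    have h2 := mem_TL (hg.mono (T.mono hn (Nat.mul_pos hn hj) (dvd_mul_right n j)))
    rw [T.clL_mul hn hj] at h2
    exact h2
  exact this hx
/-- modulo `Vu` the group is generated by the standard cycles -/
theorem TL_le (hn : 0 < n) (h1 : 𝒞.Vu T ≤ H) (hH : ∀ a c, 𝒞.red.Gk a c →
    (∀ i, fr (kk Λ) p (T.r * n) (a i) = a i) → fr (kk Λ) p (T.r * n) c = c →
      clL J (T.U n) (𝒞.Lq p a c) ∈ H) : 𝒞.TL (T.U n) ≤ H := by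
  refine (AddSubgroup.closure_le _).2 ?_
  rintro _ ⟨R, h, hg, rfl⟩
  have h2 := H.add_mem (h1 (sub_Lq_mem hn hg)) (hH _ _ hg.gk
    (fun i => T.rs_fixed hn (c0_mem (hg.mem i)).1) (T.rs_fixed hn hg.h_mem.1))
  rwa [← map_add, sub_add_cancel] at h2
theorem UU_le (hH : ∀ n, 0 < n → 𝒞.TL (T.U n) ≤ H) : 𝒞.UU T ≤ H :=
  iSup₂_le hH
theorem Vu_le_UU : 𝒞.Vu T ≤ 𝒞.UU T := by
  refine Vu_le fun n hn R h hg v hv => TL_le_UU hn ?_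
  rw [map_sub]
  exact sub_mem (mem_TL (hg.move (by rwa [add_sub_cancel_left])).1) (mem_TL hg)
theorem UU_le_Atot : 𝒞.UU T ≤ Atot Λ J := by
  refine UU_le fun n hn => (AddSubgroup.closure_le _).2 ?_
  rintro _ ⟨R, h, hg, rfl⟩
  have := T.fin n hn
  exact hg.Qc_mem (p := p) (T.le n) (unrF hn) fun L' y h' hL hf hd _ _ =>
    AddSubgroup.subset_closure ⟨_, _, hf, hd.xp ((T.le n).trans hL), rfl⟩
theorem Vu_le_Azero : 𝒞.Vu T ≤ Azero Λ J := by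
  refine le_inf (Vu_le_UU.trans UU_le_Atot) (Vu_le fun n hn R h hg v hv => ?_)
  have := T.fin n hn
  obtain ⟨h1, h2⟩ := hg.move (R' := R + v) (by rwa [add_sub_cancel_left])
  rw [AddMonoidHom.mem_ker, AddMonoidHom.coe_snd, clL_snd, map_sub,
    h1.degree_Qc (p := p) (T.le n) (unrF hn), hg.degree_Qc (p := p) (T.le n) (unrF hn), funext h2,
    sub_self, Int.cast_zero, mul_zero]
theorem TL_fin (hn : 0 < n) : FinMod (𝒞.TL (T.U n)) (𝒞.Vu T) := by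
  obtain ⟨S, -, hS⟩ := exists_finset_fixed (𝕜 := kk Λ) (p := p) (Nat.mul_pos T.r_pos hn)
  refine Chart.sigb_fin ((Fintype.piFinset fun _ : Fin 𝒞.d => S) ×ˢ S)
    (fun q => clL J (T.U n) (𝒞.Lq p q.1 q.2)) fun H hH hs =>
    TL_le hn hH fun a c hk ha hc => hs (a, c) ?_ (Lq_mem_TL hn hk ha hc)
  exact Finset.mem_product.2 ⟨Fintype.mem_piFinset.2 fun i => (hS _).2 (ha i), (hS _).2 hc⟩
theorem Sig_fin (hn : 0 < n) (s w : ℕ) :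
    FinMod (𝒞.Sig T n (s + 1) w) (𝒞.FF T s w ⊔ 𝒞.Gw T (w + 1)) := by
  obtain ⟨S, -, hS⟩ := exists_finset_fixed (𝕜 := kk Λ) (p := p) (Nat.mul_pos T.r_pos hn)
  have := T.fin n hn
  choose A hA1 hA2 using fS_fin (p := p) (T.U n) (π_mem (T.le n)) 𝒞.π_ne 𝒞.π_lt (unrF hn)
  refine Chart.sigb_fin (((Fintype.piFinset fun _ : Fin 𝒞.d => S) ×ˢ S) ×ˢ
    (Fintype.piFinset fun _ : Fin (s + 1) => Fintype.piFinset fun _ : Fin 𝒞.d =>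
      (Finset.range (w + 1)).biUnion A))
    (fun q => clL J (T.U n) (𝒞.Jm (teich p q.1.2)
      (sg (fun j => PowerSeries.C (teich p (q.1.1 j))) * ∏ i, dl (q.2 i)))) fun H hH hs =>
    Sig_le_exact (fun R h hg k v hw hk hv => ?_) ((Sig_le_FF hn).trans (le_sup_left.trans hH))
      (((Sig_le_FF hn).trans FF_le_Gw).trans (le_sup_right.trans hH))
  have hg₀ := qsig_teich hn hg
  choose t ht1 ht2 using fun i j => hA2 (k i) _ (mem_fl.1 (hv i) j)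
  have hv' : ∀ i, t i ∈ 𝒞.fl (T.U n) (k i) := fun i => mem_fl.2 fun j => hA1 _ _ (ht1 i j)
  have hd : ∀ i, v i - t i ∈ 𝒞.fl (T.U n) (k i + 1) := fun i => mem_fl.2 (ht2 i)
  have hy := qsig_near hn hg₀ hg fun i => by
    rw [PowerSeries.constantCoeff_C, (teich_spec (p := p) K _).2]
  have hh : 𝒞.Jm h = 𝒞.Jm (teich p (rs h)) :=
    Jm_congr ((rs_eq_iff hg.h_mem.2 hg₀.h_mem.2).1 (teich_spec (p := p) K _).2.symm)
  have h3 := hs (((fun i => rs (c0 (R i))), rs h), t) (by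
    simp only [Finset.mem_product, Fintype.mem_piFinset, hS, Finset.mem_biUnion, Finset.mem_range]
    exact ⟨⟨fun i => T.rs_fixed hn (c0_mem (hg.mem i)).1, T.rs_fixed hn hg.h_mem.1⟩, fun i j =>
      ⟨k i, Nat.lt_succ_of_le (hw ▸ Finset.single_le_sum (f := k) (fun _ _ => Nat.zero_le _)
        (Finset.mem_univ i)), ht1 i j⟩⟩)
  generalize (fun j => PowerSeries.C (teich p (rs (c0 (R j))))) = R₀ at hg₀ hy h3
  have h0 : R₀ - R₀ ∈ 𝒞.fl (T.U n) 1 := by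
    rw [sub_self]
    exact zero_mem _
  have h1 := mem_Sig hg₀ (gen_mem_II h0 hk hv')
  have h2 := mem_Sig hg₀ (gen_sub_gen fl_anti h0 hy hk hv' hd)
  rw [Fintype.card_fin, hw] at h1 h2
  rw [map_sub, map_sub] at h2
  rw [hh, ← sub_add_cancel (clL J (T.U n) (𝒞.Jm (teich p (rs h)) (sg R * ∏ i, dl (v i))))
    (clL J (T.U n) (𝒞.Jm (teich p (rs h)) (sg R₀ * ∏ i, dl (t i))))]
  exact add_mem (hH (AddSubgroup.mem_sup_right (FF_le_Gw (Sig_le_FF hn h2)))) (h3 h1)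
theorem smul_mem_Gw (hw : 0 < w) {x : VV Λ J} (hx : x ∈ 𝒞.Gw T w) : p • x ∈ 𝒞.Gw T (w + 1) := by
  have : 𝒞.Gw T w ≤ (𝒞.Gw T (w + 1)).comap (nsmulAddMonoidHom p) :=
    Gw_le fun s => FF_le fun n hn => Sig_le_of_II fun R h hg x hx => by
      have h1 := mem_Sig hg (smul_mem_II fl_anti (Fact.out : p.Prime) (fun k v hv =>
        mem_fl.2 fun j => p_smul_mem 𝒞.π_lt (unrF hn) (mem_fl.1 hv j)) hw hx)
      rw [map_nsmul, map_nsmul] at h1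
      exact FF_le_Gw (Sig_le_FF hn h1)
  exact this hx
theorem pow_smul_mem_Gw {x : VV Λ J} (hx : x ∈ 𝒞.Vu T) (w : ℕ) : p ^ w • x ∈ 𝒞.Gw T (w + 1) := by
  induction w with
  | zero => rwa [pow_zero, one_smul]
  | succ w ih =>
    rw [pow_succ', mul_smul]
    exact smul_mem_Gw w.succ_pos ih
theorem NB_le : 𝒞.NB T ≤ 𝒞.Vu T := (nice_sSup p _).1
theorem NB_nice {x : VV Λ J} (hx : x ∈ 𝒞.NB T) : Nice p (𝒞.NB T) x := (nice_sSup p _).2 x hx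
theorem le_NB (h1 : H ≤ 𝒞.Vu T) (h2 : ∀ x ∈ H, Nice p H x) : H ≤ 𝒞.NB T := le_sSup ⟨h1, h2⟩

end QChart

end Pool.Agent.ZeroCyc
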