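import Pool.Agent.Lib.MP_796ce4_ag.ZQ.FD
import Pool.Agent.Lib.MP_796ce4_ag.ZQ.MC
import Pool.Agent.Lib.MP_796ce4_ag.ZQ.QSig
import Pool.Agent.Lib.MP_796ce4_ag.ZY.Lin

/-! Small differences of good points are divisible by `p`. -/

namespace Pool.Agent.ZeroCyc

open Polynomial Module
open scoped Classical IntermediateField PowerSeries

set_option linter.unusedSectionVars false

variable {p : ℕ} {K Λ : Type} [Field K] [CharZero K] [NormedField Λ] [IsUltrametricDist Λ]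
  [IsAlgClosed Λ] [Algebra K Λ] [IsGalois K Λ] [Loc p K Λ] [Fact p.Prime] [CharP (kk Λ) p]

variable {N : ℕ} {J : Ideal (MvPolynomial (Fin (N + 1)) K)} {B L : IntermediateField K Λ}

namespace QChart

variable {𝒞 : QChart J B}

theorem zqfe_mvq {lam : Fin 𝒞.d → Λ[X]} {Q : Λ × Λ} {s η : Λ}
    (hg : 𝒞.Gd (fun i => (lam i).eval (Q.1 + s)) η) (h2 : ‖η - Q.2‖ < ‖(𝒞.c : Λ)‖) :
    mvq (𝒞.cL lam) ‖(𝒞.c : Λ)‖ Q s = (Q.1 + s, η) := by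
  have hex : ∃ η, On (𝒞.cL lam) (Q.1 + s, η) ∧ ‖η - Q.2‖ < ‖(𝒞.c : Λ)‖ :=
    ⟨η, on_cL.2 hg.on, h2⟩
  have h3 := on_cL.1 hex.choose_spec.1
  unfold mvq
  rw [dif_pos hex, hg.unique (zqfc_sub_lt hex.choose_spec.2 h2) h3]

include p in
/-- the displaced fibres give a difference of congruent good points -/
theorem zqfe_dsp [FiniteDimensional K L] (hB : B ≤ L) {lam : Fin 𝒞.d → (OL L)[X]} {A : Type}
    [Fintype A] {t : A → Λ} (ht : ∀ j, t j ∈ L)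
    (hn : ∀ Q, On (𝒞.cL (lU lam)) Q → Near t Q.1 →
      ‖Q.1‖ ≤ 1 ∧ 𝒞.Gd (fun i => (lU lam i).eval Q.1) Q.2) (x : L[X][X])
    (hx : ∀ Q ∈ fbs (𝒞.cL (lU lam)) t, ‖e2 (algebraMap L Λ) Q.1 Q.2 x‖ < 1 ∧ ∃ η,
      On (𝒞.cL (lU lam)) (Q.1 + e2 (algebraMap L Λ) Q.1 Q.2 x, η) ∧ ‖η - Q.2‖ < ‖(𝒞.c : Λ)‖) :
    clL J L (𝒞.Pf (lU lam) (Dsp (algebraMap L Λ) (𝒞.cL (lU lam)) ‖(𝒞.c : Λ)‖ t x)) ∈ 𝒞.Sm 1 := by
  have hm : (𝒞.cL (lU lam)).Monic := 𝒞.monic.map _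
  have hl : ∀ i, Over L (lU lam i) := fun i => over_map _
  obtain ⟨s, hs⟩ : ∃ s : Λ × Λ → Λ, ∀ Q, s Q = e2 (algebraMap L Λ) Q.1 Q.2 x := ⟨_, fun _ => rfl⟩
  simp only [Dsp, ← hs] at hx ⊢
  have s1 : ∀ σ, Fix L σ → ∀ Q, s (pm σ Q) = σ (s Q) := fun σ hσ Q => by
    have h1 := map_e2 (σ : Λ →+* Λ) (algebraMap L Λ) Q.1 Q.2 x
    rw [show (σ : Λ →+* Λ).comp (algebraMap L Λ) = algebraMap L Λ from
      RingHom.ext fun y => hσ y y.2] at h1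
    rw [hs, hs]
    exact h1.symm
  have s2 : ∀ σ, Fix L σ → ∀ Q ∈ fbs (𝒞.cL (lU lam)) t, pm σ Q ∈ fbs (𝒞.cL (lU lam)) t := by
    intro σ hσ Q hQ
    obtain ⟨a1, j, a2⟩ := (mem_fbs hm).1 hQ
    refine (mem_fbs hm).2 ⟨?_, j, ?_⟩
    · have h1 := map_ee (σ : Λ →+* Λ) Q (𝒞.cL (lU lam))
      rw [(Chart.ov2_cv hB hl 𝒞.χ).map_eq hσ, show ee Q (𝒞.cL (lU lam)) = 0 from a1,
        map_zero] at h1
      exact h1.symm
    · change σ Q.1 = _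
      rw [a2, hσ _ (ht j)]
  have s3 : ∀ Q ∈ fbs (𝒞.cL (lU lam)) t, (‖Q.1‖ ≤ 1 ∧ 𝒞.Gd (fun i => (lU lam i).eval Q.1) Q.2) ∧
      ‖Q.1 + s Q‖ ≤ 1 ∧ ∃ η, 𝒞.Gd (fun i => (lU lam i).eval (Q.1 + s Q)) η ∧
        ‖η - Q.2‖ < ‖(𝒞.c : Λ)‖ := fun Q hQ => by
    obtain ⟨a1, a2⟩ := (mem_fbs hm).1 hQ
    obtain ⟨a3, η, a4, a5⟩ := hx Q hQ
    have a6 := hn _ a4 (zqfc_near_add a2 a3)
    exact ⟨hn Q a1 (by simpa using zqfc_near_add (s := 0) a2 (by simp)), a6.1, η, a6.2, a5⟩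
  have s4 : ∀ σ, Fix L σ → ∀ Q ∈ fbs (𝒞.cL (lU lam)) t,
      mvq (𝒞.cL (lU lam)) ‖(𝒞.c : Λ)‖ (pm σ Q) (s (pm σ Q)) =
        pm σ (mvq (𝒞.cL (lU lam)) ‖(𝒞.c : Λ)‖ Q (s Q)) := fun σ hσ Q hQ => by
    obtain ⟨-, -, η, a1, a2⟩ := s3 Q hQ
    have a3 := a1.gal (p := p) (hσ.mono hB)
    simp only [(hl _).apply_eval hσ, map_add] at a3
    rw [zqfe_mvq a1 a2, s1 σ hσ, zqfe_mvq (Q := pm σ Q) a3 (by
      change ‖σ η - σ Q.2‖ < _
      rwa [← map_sub, Loc.norm_gal])]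
    exact Prod.ext (map_add σ _ _).symm rfl
  have s5 : ∀ Q, (∑ Q ∈ fbs (𝒞.cL (lU lam)) t, Finsupp.single Q (1 : ℤ)) Q ≠ 0 →
      Q ∈ fbs (𝒞.cL (lU lam)) t := fun Q hQ => by
    rw [Finsupp.finsetSum_apply] at hQ
    obtain ⟨Q', b1, b2⟩ := Finset.exists_ne_zero_of_sum_ne_zero hQ
    rwa [(Finsupp.single_apply_ne_zero.1 b2).1]
  have key := orb_mem₂ L (∑ Q ∈ fbs (𝒞.cL (lU lam)) t, Finsupp.single Q (1 : ℤ))
    (fun σ hσ => by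
      rw [map_sum]
      simp only [psh_single]
      exact Finset.sum_nbij' (pm σ) (pm ⇑σ⁻¹) (s2 σ hσ) (s2 σ⁻¹ hσ.inv)
        (fun Q _ => Prod.ext (σ.symm_apply_apply _) (σ.symm_apply_apply _))
        (fun Q _ => Prod.ext (σ.apply_symm_apply _) (σ.apply_symm_apply _)) fun _ _ => rfl)
    (fun Q => 𝒞.Pf (lU lam) (Finsupp.single (mvq (𝒞.cL (lU lam)) ‖(𝒞.c : Λ)‖ Q (s Q)) 1 -
      Finsupp.single Q 1))
    (fun σ Q hσ hQ => by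
      rw [← Pf_gal (p := p) hB hl hσ, map_sub (psh _), psh_single, psh_single,
        s4 σ hσ Q (s5 Q hQ)]) (𝒞.Sm 1)
    (fun Q hQ L' hL hf q1 q2 => by
      obtain ⟨⟨a0, a1⟩, a2, η, a3, a4⟩ := s3 Q (s5 Q hQ)
      have a5 : Q.1 + s Q ∈ L' := add_mem q1 (hs Q ▸ e2_mem (fun y => hL y.2) q1 q2 x)
      have a6 : η ∈ L' := mem_of_fixed fun σ hσ => by
        have b1 := s4 σ (hσ.mono hL) Q (s5 Q hQ)
        rw [show pm σ Q = Q from Prod.ext (hσ _ q1) (hσ _ q2), zqfe_mvq a3 a4] at b1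
        exact (congrArg Prod.snd b1).symm
      rw [zqfe_mvq a3 a4, map_sub (𝒞.Pf _), Pf_single, Pf_single]
      refine AddSubgroup.subset_closure ⟨L', _, _, _, _, hf, hB.trans hL,
        ⟨a1, fun i => ((hl i).mono hL).eval q1, q2⟩, ⟨a3, fun i => ((hl i).mono hL).eval a5, a6⟩,
        fun i => ((intg_map _).eval_sub_le a2 a0).trans_lt ?_, a4.trans_le c_le, rfl⟩
      rw [add_sub_cancel_left]
      exact (hx Q (s5 Q hQ)).1)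
  rw [← lsum_apply, map_sum] at key
  simp only [lsum_single, one_smul] at key
  rwa [map_sum (𝒞.Pf _)]

theorem fe_line (T : Tower p B) (hS : 𝒞.Sm 1 ≤ 𝒞.Vu T) [FiniteDimensional K L] (hB : B ≤ L)
    {lam : Fin 𝒞.d → (OL L)[X]} (hl : ∀ i, (lam i).natDegree ≤ 1) {A : Type} [Fintype A]
    {τ : A → OL L} (hτ : Function.Injective fun j => rL L (τ j))
    (hρ : ∀ j, (𝒞.red.rho (rL B) (lD lam)).eval (rL L (τ j)) ≠ 0)
    (hA : 3 * (𝒞.red.b * 𝒞.δ) + 1 ≤ Fintype.card A) (j₀ : A) {s h h' : Λ} (hs : s ∈ L)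
    (hs' : ‖s‖ < ‖(𝒞.c : Λ)‖ ^ 3 * ‖(p : Λ)‖ ^ 2) (hh : h ∈ L) (hh' : h' ∈ L)
    (h1 : On (𝒞.cL (lU lam)) (τ j₀, h)) (h2 : On (𝒞.cL (lU lam)) (τ j₀ + s, h'))
    (h3 : ‖h' - h‖ < ‖(𝒞.c : Λ)‖) :
    clL J L (𝒞.Pf (lU lam) (Finsupp.single ((τ j₀ : Λ) + s, h') 1 -
      Finsupp.single ((τ j₀ : Λ), h) 1)) ∈ mulS p (𝒞.NB T) := by
  have : IsUltrametricDist L := ⟨fun a b c => IsUltrametricDist.dist_triangle_max (a : Λ) b c⟩
  have : CompleteSpace L := (Loc.complete L ‹_›).completeSpace_coe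
  obtain ⟨ι, hι, hI⟩ := exists_intR_OL L
  have hc : (algebraMap L Λ).comp ι = (OL L).subtype := RingHom.ext hι
  have hn1 : ∀ x, ‖ι x‖ = ‖(x : Λ)‖ := fun x => congrArg norm (hι x)
  have hcn : ‖ι (inc hB 𝒞.c)‖ = ‖(𝒞.c : Λ)‖ := hn1 _
  have hc0 : 0 < ‖(𝒞.c : Λ)‖ := norm_pos_iff.2 𝒞.c_ne
  have hF : FGD ι (algebraMap L Λ) (𝒞.red.b * 1) 𝒞.δ (cv (inc hB) lam 𝒞.χ) (inc hB 𝒞.c) τ := by
    refine ⟨fun x => (hn1 x).trans_le x.2.2, fun x => (hI.range x).1, hI.inj, fun _ => rfl,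
      𝒞.wt_crv (inc hB) hl, norm_pos_iff.1 (hc0.trans_eq hcn.symm), fun j k hjk => ?_, ?_⟩
    · rw [hn1, ← rs_ne_zero, ← rL_apply, map_sub]
      exact sub_ne_zero.2 fun e => hjk (hτ e)
    · obtain ⟨α, β, e⟩ := 𝒞.ec
      refine ⟨𝒞.red.rho (inc hB) lam, cv (inc hB) lam α, cv (inc hB) lam β, ?_, fun j => ?_⟩
      · rw [← cv_derivative, ← map_mul, ← map_mul, ← map_add, ← e, cv, coe_mapRingHom, map_C,
          map_mul (MvPolynomial.eval₂Hom _ _), MvPolynomial.eval₂Hom_C]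
        rfl
      · rw [hn1, ← rs_ne_zero, ← rL_apply, ← eval₂_at_apply, ← eval_map, rho_lD hB]
        exact hρ j
  have hn : ∀ Q, On (𝒞.cL (lU lam)) Q → Near (fun j => (τ j : Λ)) Q.1 →
      ‖Q.1‖ ≤ 1 ∧ 𝒞.Gd (fun i => (lU lam i).eval Q.1) Q.2 := by
    rintro Q hQ ⟨j, hj⟩
    obtain ⟨a1, a2⟩ := chartb_near (τ j).2.2 hj
    exact ⟨a1, gd_of_rs hQ a1 (by rw [a2, ← rL_apply]; exact hρ j)⟩
  have ht : (fun j => algebraMap L Λ (ι (τ j))) = fun j => (τ j : Λ) := funext fun j => hι _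
  have hO : ∀ x : OL L, (OL L).subtype x ∈ L := fun x => x.2.1
  obtain ⟨σ, _, x, hfg, hx, hone⟩ := hF.exists_fg j₀ (by rwa [mul_one])
    ((clL J L).comp (𝒞.Pf (lU lam))) (fun G G' hG hG' hz => by
      rw [hc, mp_cU, ht] at hz
      rw [hc, mp_cU]
      exact MRc (p := p) hB (fun i => over_map _) (lU_deg hl) (hG.map _) (hG'.map _) (ov2_mp hO _)
        (ov2_mp hO _) fun Q h0 h1 =>
          ⟨(hn Q h0 (hz Q h0 h1)).2.et, (hn Q h0 (hz Q h0 h1)).2.pv_ne⟩)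
  rw [hc, mp_cU, ht, hcn] at hfg hx hone
  have hnat : ∀ m : ℕ, ‖(m : L)‖ = ‖(m : Λ)‖ := fun m =>
    congrArg norm (map_natCast (algebraMap L Λ) m)
  have hp : ‖(p : Λ)‖ < 1 := Loc.norm_p (K := K)
  have hp2 : ‖(p : Λ)‖ ^ 2 ≤ 1 := pow_le_one₀ (norm_nonneg _) hp.le
  obtain ⟨ψ, hψ⟩ : ∃ ψ : (σ → L) → VV Λ J, ψ = fun z => ((clL J L).comp (𝒞.Pf (lU lam)))
    (Dsp (algebraMap L Λ) (𝒞.cL (lU lam)) ‖(𝒞.c : Λ)‖ (fun j => (τ j : Λ)) (x z)) := ⟨_, rfl⟩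
  have hN := fun z (hz : ‖z‖ < 1) => (hψ ▸ hfg : IsFG ψ).nice (p := p)
    (H := AddSubgroup.closure {v | ∃ z, ‖z‖ < 1 ∧ v = ψ z}) (by rwa [hnat])
    (fun m hm => by rw [hnat]; exact norm_nat_of_not_dvd K hm)
    (fun w hw => AddSubgroup.subset_closure ⟨w, hw, rfl⟩) hz
  have hle : AddSubgroup.closure {v | ∃ z, ‖z‖ < 1 ∧ v = ψ z} ≤ 𝒞.NB T := by
    refine le_NB ((AddSubgroup.closure_le _).2 ?_) fun v hv =>
      (AddSubgroup.closure_le (niceG p _)).2 ?_ hv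
    · rintro _ ⟨z, hz, rfl⟩
      rw [hψ]
      exact hS (zqfe_dsp (p := p) hB (fun j => (τ j).2.1) hn (x z) (hx z hz))
    · rintro _ ⟨z, hz, rfl⟩
      exact (hN z hz).1
  have h4 : ‖h‖ ≤ 1 := (on_rs hB h1 (τ j₀).2.2).1
  obtain ⟨z, z1, z2⟩ := hone ⟨h, hh, h4⟩ ⟨s, hs⟩ ⟨h', hh'⟩
    (lina_on.2 (by rw [← ee_mp (OL L).subtype ((τ j₀ : Λ), h), mp_cU]; exact h1))
    (hs'.trans_le (mul_le_of_le_one_right (pow_pos hc0 3).le hp2))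
    ((algebraMap L Λ).injective (by
      rw [map_e2, map_zero, hc, map_add, ← RingHom.comp_apply _ ι, hc,
        ← ee_mp (OL L).subtype (_, _), mp_cU]
      exact h2))
    (by
      change ‖h' - ((ι ⟨h, hh, h4⟩ : L) : Λ)‖ < _
      rwa [hι])
  have z3 : ‖z‖ < ‖(p : Λ)‖ ^ 2 :=
    lt_of_mul_lt_mul_right ((z1.trans_lt hs').trans_eq (mul_comm _ _)) (pow_pos hc0 3).le
  have z4 := mulS_mono p hle ((hN z (z3.trans_le hp2)).2 (by rwa [hnat]))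
  rw [hψ] at z4
  rw [map_add, ← RingHom.comp_apply, ← RingHom.comp_apply _ ι, hc] at z2
  exact z2 ▸ z4

theorem Sm_le_NB_of (T : Tower p B) (hS : 𝒞.Sm 1 ≤ 𝒞.Vu T) :
    𝒞.Sm (‖(𝒞.c : Λ)‖ ^ 3 * ‖(p : Λ)‖ ^ 2) ≤ mulS p (𝒞.NB T) := by
  refine (AddSubgroup.closure_le _).2 ?_
  rintro _ ⟨L, y, y', h, h', hfin, hB, hg, hg', hy, hh, rfl⟩
  have hp : ‖(p : Λ)‖ < 1 := Loc.norm_p (K := K)
  have hh1 : ‖h' - h‖ < ‖(𝒞.c : Λ)‖ := hh.trans_le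
    ((mul_le_of_le_one_right (pow_nonneg (norm_nonneg _) _)
      (pow_le_one₀ (norm_nonneg _) hp.le)).trans
        (pow_le_of_le_one (norm_nonneg _) c_le three_ne_zero))
  by_cases hyy : y' = y
  · subst hyy
    rw [hg.gd.unique hh1 hg'.gd.on, sub_self, map_zero]
    exact zero_mem _
  obtain ⟨i₀, hi₀⟩ := Function.ne_iff.1 hyy
  obtain ⟨k, -, hk⟩ := Finset.exists_max_image Finset.univ (fun i => ‖y' i - y i‖)
    ⟨i₀, Finset.mem_univ _⟩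
  have hs0 : 0 < ‖y' k - y k‖ :=
    (norm_pos_iff.2 (sub_ne_zero.2 hi₀)).trans_le (hk i₀ (Finset.mem_univ _))
  have hsm : ∀ i, y' i - y i ∈ L := fun i => sub_mem (hg'.y_mem i) (hg.y_mem i)
  obtain ⟨e, he⟩ : ∃ e : Fin 𝒞.d → Λ, ∀ i, e i = (y' i - y i) / (y' k - y k) := ⟨_, fun _ => rfl⟩
  have he1 : ∀ i, ‖e i‖ ≤ 1 := fun i => by
    rw [he, norm_div]
    exact div_le_one_of_le₀ (hk i (Finset.mem_univ _)) hs0.le
  have hem : ∀ i, e i ∈ L := fun i => he i ▸ div_mem (hsm i) (hsm k)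
  obtain ⟨ρ, hρ⟩ : ∃ ρ, ρ = 𝒞.red.rho (rL B) fun i => C (rs (y i)) + C (rs (e i)) * X := ⟨_, rfl⟩
  have hρ0 : ρ.eval 0 ≠ 0 := by
    rw [hρ, Chart.eval_rho]
    simpa using hg.gd.gk.unit
  have hρ1 : ρ ≠ 0 := fun h0 => hρ0 (by rw [h0, eval_zero])
  have : FiniteDimensional K B := FiniteDimensional.of_injective
    (IntermediateField.inclusion hB).toLinearMap (IntermediateField.inclusion_injective hB)
  refine mem_of_eventually (j₀ := 3 * (𝒞.red.b * 𝒞.δ) + (insert 0 ρ.roots.toFinset).card + 1)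
    fun j hj => ?_
  have hj0 : 0 < j := by omega
  obtain ⟨hfin', c, hcd, hrk⟩ := T.finrank_sup one_pos hj0 (T.U_one.le.trans hB)
  refine ⟨c, hcd, ?_⟩
  rw [← clL_eq_nsmul hrk]
  obtain ⟨τ, t1, t2⟩ := T.exists_many (Nat.mul_pos one_pos hj0) (insert 0 ρ.roots.toFinset)
    (s := 3 * (𝒞.red.b * 𝒞.δ)) (by omega)
  have hL : L ≤ L ⊔ T.U (1 * j) := le_sup_left
  have hU : T.U (1 * j) ≤ L ⊔ T.U (1 * j) := le_sup_right
  generalize L ⊔ T.U (1 * j) = L' at hfin' hL hU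
  obtain ⟨lam, hlam⟩ : ∃ lam : Fin 𝒞.d → (OL L')[X], ∀ i, lam i =
      C ⟨y i, hL (hg.y_mem i), hg.gd.y_le i⟩ + C ⟨e i, hL (hem i), he1 i⟩ * X := ⟨_, fun _ => rfl⟩
  have hd : ∀ i, (lam i).natDegree ≤ 1 := fun i => by
    rw [hlam, add_comm]; exact natDegree_linear_le
  have hev : ∀ t : Λ, (fun i => (lU lam i).eval t) = fun i => y i + e i * t :=
    fun t => funext fun i => by
      rw [lU, hlam, Polynomial.map_add, Polynomial.map_mul, map_C, map_C, map_X, eval_add,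
        eval_mul, eval_C, eval_C, eval_X]
      rfl
  have hD : 𝒞.red.rho (rL B) (lD lam) = ρ := by
    rw [hρ]
    refine congrArg _ (funext fun i => ?_)
    rw [lD, hlam, Polynomial.map_add, Polynomial.map_mul, map_C, map_C, map_X, rL_apply, rL_apply]
  have e0 : (fun i => (lU lam i).eval 0) = y := by
    rw [hev]
    simp
  have e1 : (fun i => (lU lam i).eval (0 + (y' k - y k))) = y' := by
    rw [hev]
    funext i
    rw [zero_add, he, div_mul_cancel₀ _ (norm_pos_iff.1 hs0), add_sub_cancel]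
  have t3 : ∀ i, rL _ (τ i) ≠ 0 ∧ ρ.eval (rL _ (τ i)) ≠ 0 := fun i => by
    have := t1 i
    rwa [Finset.mem_insert, not_or, Multiset.mem_toFinset, mem_roots hρ1] at this
  have key := fe_line T hS (hB.trans hL) hd (A := Option (Fin (3 * (𝒞.red.b * 𝒞.δ))))
    (τ := fun o => o.elim 0 fun i => inc hU (τ i)) (by
      rintro (_ | i) (_ | i') e
      · rfl
      · exact absurd ((map_zero (rL L')).symm.trans e).symm (t3 i').1
      · exact absurd (e.trans (map_zero (rL L'))) (t3 i).1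
      · exact congrArg some (t2 e))
    (by
      rw [hD]
      rintro (_ | i)
      · exact (map_zero (rL L')).symm ▸ hρ0
      · exact (t3 i).2)
    (by simp) none (hL (hsm k)) (hy k) (hL hg.h_mem) (hL hg'.h_mem)
    (on_cL.2 (by
      change ev2 _ (fun i => (lU lam i).eval 0) _ _ = 0
      rw [e0]
      exact hg.gd.on))
    (on_cL.2 (by
      change ev2 _ (fun i => (lU lam i).eval (0 + (y' k - y k))) _ _ = 0
      rw [e1]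
      exact hg'.gd.on)) hh1
  rw [map_sub (𝒞.Pf _), Pf_single, Pf_single] at key
  change clL J L' (Finsupp.single (𝒞.io (fun i => (lU lam i).eval (0 + (y' k - y k))) h') 1 -
    Finsupp.single (𝒞.io (fun i => (lU lam i).eval 0) h) 1) ∈ _ at key
  rwa [e0, e1] at key

end QChart

end Pool.Agent.ZeroCyc
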