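import Pool.Agent.Lib.MP_796ce4_ag.ZY.CC
import Pool.Agent.Lib.MP_796ce4_ag.ZQ.HSys

/-! Systems of polynomial equations over a complete filtered ring. -/

namespace Pool.Agent.ZeroCyc

open scoped Classical

set_option linter.unusedSectionVars false

variable {R A σ ι : Type} [CommRing R] [CommRing A] [Fintype σ] [Fintype ι]

theorem map_jac_det {A' : Type} [CommRing A'] (ψ : A →+* A') (φ : R →+* A)
    (F : σ → MvPolynomial σ R) (x : σ → A) :
    ψ (jac φ F x).det = (jac (ψ.comp φ) F fun a => ψ (x a)).det := by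
  rw [← map_jac]
  exact ψ.map_det _

/-- approximate solutions near a simple approximate solution are close to each other -/
theorem sub_mem_of_jac (φ : R →+* A) (F : σ → MvPolynomial σ R) {x x' : σ → A} (I 𝔪 : Ideal A)
    (h𝔪 : ∀ y ∈ 𝔪, IsUnit (1 + y)) (hx : ∀ a, x' a - x a ∈ 𝔪) (hj : IsUnit (jac φ F x).det)
    (hF : ∀ j, MvPolynomial.eval₂ φ x' (F j) - MvPolynomial.eval₂ φ x (F j) ∈ I) (a : σ) :
    x' a - x a ∈ I := by
  obtain ⟨c, h1, h2⟩ := exists_mat φ F x' x 𝔪 hx
  have h3 : c.det - (jac φ F x).det ∈ 𝔪 := by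
    rw [← Ideal.Quotient.eq, RingHom.map_det, RingHom.map_det]
    congr 1
    ext j k
    exact Ideal.Quotient.eq.2 (h2 j k)
  have h4 : IsUnit c.det := by
    obtain ⟨v, hv⟩ := hj.exists_right_inv
    have h5 := hj.mul (h𝔪 _ (𝔪.mul_mem_left v h3))
    rwa [mul_add, mul_one, ← mul_assoc, hv, one_mul, add_sub_cancel] at h5
  have h5 : x' - x = c⁻¹.mulVec (c.mulVec (x' - x)) := by
    rw [Matrix.mulVec_mulVec, Matrix.nonsing_inv_mul _ h4, Matrix.one_mulVec]
  rw [← Pi.sub_apply, h5, ← h1]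
  exact I.sum_mem fun j _ => I.mul_mem_left _ (hF j)

/-- a complete multiplicative filtration -/
structure Flt (F : ℕ → Ideal A) : Prop where
  top : F 0 = ⊤
  anti : Antitone F
  mul : ∀ k l, ∀ x ∈ F k, ∀ y ∈ F l, x * y ∈ F (k + l)
  sep : ∀ x, (∀ k, x ∈ F k) → x = 0
  lim : ∀ u : ℕ → A, (∀ k, u (k + 1) - u k ∈ F k) → ∃ x, ∀ k, x - u k ∈ F k
  unit : ∀ x ∈ F 1, IsUnit (1 + x)

/-- the iterates of Newton's method with a fixed matrix -/
noncomputable def flt_it (E : σ → MvPolynomial σ A) (B : Matrix σ σ A) (x₀ : σ → A) (n : ℕ) :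
    σ → A :=
  (fun x => x - B.mulVec fun j => MvPolynomial.eval₂ (RingHom.id A) x (E j))^[n] x₀

theorem flt_it_succ (E : σ → MvPolynomial σ A) (B : Matrix σ σ A) (x₀ : σ → A) (n : ℕ) :
    flt_it E B x₀ (n + 1) = flt_it E B x₀ n -
      B.mulVec fun j => MvPolynomial.eval₂ (RingHom.id A) (flt_it E B x₀ n) (E j) :=
  Function.iterate_succ_apply' _ _ _

theorem flt_newton {F : ℕ → Ideal A} (hF : Flt F) (E : σ → MvPolynomial σ A) {x₀ : σ → A}
    (h0 : ∀ j, MvPolynomial.eval₂ (RingHom.id A) x₀ (E j) ∈ F 1) (B : Matrix σ σ A)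
    (hB : ∀ j k, (jac (RingHom.id A) E x₀ * B - 1) j k ∈ F 1) : ∃ x : σ → A,
      (∀ j, MvPolynomial.eval₂ (RingHom.id A) x (E j) = 0) ∧
        ∀ n b, x b - flt_it E B x₀ n b ∈ F (n + 1) := by
  let V : (σ → A) → σ → A := fun x j => MvPolynomial.eval₂ (RingHom.id A) x (E j)
  let y : ℕ → σ → A := flt_it E B x₀
  have ys : ∀ n, y (n + 1) = y n - B.mulVec (V (y n)) := flt_it_succ E B x₀
  have mv : ∀ (𝔞 : Ideal A) (v : σ → A), (∀ j, v j ∈ 𝔞) → ∀ k, B.mulVec v k ∈ 𝔞 :=
    fun 𝔞 v hv k => Ideal.sum_mem _ fun j _ => Ideal.mul_mem_left _ _ (hv j)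
  have df : ∀ n m, (∀ j, V (y n) j ∈ F m) → ∀ k, y (n + 1) k - y n k ∈ F m := fun n m h k => by
    rw [ys, Pi.sub_apply, sub_sub_cancel_left]
    exact neg_mem (mv _ _ h k)
  have key : ∀ n, (∀ j, V (y n) j ∈ F (n + 1)) ∧ ∀ k, y n k - x₀ k ∈ F 1 := by
    intro n
    induction n with
    | zero => exact ⟨h0, fun k => by
        rw [show y 0 k = x₀ k from rfl, sub_self]
        exact zero_mem _⟩
    | succ n ih =>
      obtain ⟨h1, h2⟩ := ih
      have h4 := df n 1 fun j => hF.anti (Nat.le_add_left 1 n) (h1 j)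
      refine ⟨fun j => ?_, fun k => ?_⟩
      · obtain ⟨c, e1, e2⟩ := exists_mat (RingHom.id A) E (y (n + 1)) (y n) (F 1) h4
        have e3 : ∀ j k, jac (RingHom.id A) E (y n) j k - jac (RingHom.id A) E x₀ j k ∈ F 1 :=
          fun j k => by
            obtain ⟨c', e, -⟩ :=
              exists_sub_eq (RingHom.id A) (y n) x₀ (F 1) h2 (MvPolynomial.pderiv k (E j))
            rw [jac, jac, Matrix.of_apply, Matrix.of_apply, e]
            exact Ideal.sum_mem _ fun i _ => Ideal.mul_mem_left _ _ (h2 i)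
        have e4 : ∀ j k, (c * B - 1) j k ∈ F 1 := fun j k => by
          have e : c * B - 1 =
              (c - jac (RingHom.id A) E x₀) * B + (jac (RingHom.id A) E x₀ * B - 1) := by
            rw [Matrix.sub_mul]
            abel
          rw [e, Matrix.add_apply]
          refine add_mem ?_ (hB j k)
          rw [Matrix.mul_apply]
          refine Ideal.sum_mem _ fun i _ => Ideal.mul_mem_right _ _ ?_
          have := add_mem (e2 j i) (e3 j i)
          rwa [sub_add_sub_cancel] at this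
        have e5 : V (y (n + 1)) = -(c * B - 1).mulVec (V (y n)) := by
          have e6 : V (y (n + 1)) - V (y n) = c.mulVec (y (n + 1) - y n) := e1
          rw [ys n, sub_sub_cancel_left, Matrix.mulVec_neg, Matrix.mulVec_mulVec, ← ys n] at e6
          rw [Matrix.sub_mulVec, Matrix.one_mulVec, neg_sub, eq_add_of_sub_eq e6]
          abel
        rw [e5, Pi.neg_apply, add_comm (n + 1)]
        exact neg_mem (Ideal.sum_mem _ fun i _ => hF.mul _ _ _ (e4 j i) _ (h1 i))
      · have := add_mem (h4 k) (h2 k)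
        rwa [sub_add_sub_cancel] at this
  choose x hx using fun k => hF.lim (fun n => y n k) fun n =>
    df n n (fun j => hF.anti n.le_succ ((key n).1 j)) k
  refine ⟨x, fun j => hF.sep _ fun n => ?_, fun n k => ?_⟩
  · obtain ⟨c, e, -⟩ := exists_sub_eq (RingHom.id A) x (y n) (F n) (fun k => hx k n) (E j)
    rw [eq_add_of_sub_eq e]
    exact add_mem (Ideal.sum_mem _ fun i _ => Ideal.mul_mem_left _ _ (hx i n))
      (hF.anti n.le_succ ((key n).1 j))
  · have := add_mem (hx k (n + 1)) (df n _ (key n).1 k)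
    rwa [sub_add_sub_cancel] at this

theorem flt_coef {M : Type} [AddCommGroup M] (x : Finset ι → M) :
    ∃ c : Finset ι → M, ∀ S, x S = ∑ B ∈ S.powerset, c B := by
  let H : ∀ S : Finset ι, (∀ T ⊂ S, M) → M := fun S r =>
    x S - ∑ B ∈ (S.powerset.erase S).attach, r B.1 (Finset.ssubset_iff_subset_ne.2
      ⟨Finset.mem_powerset.1 (Finset.mem_erase.1 B.2).2, (Finset.mem_erase.1 B.2).1⟩)
  refine ⟨Finset.strongInduction (p := fun _ => M) H, fun S => ?_⟩
  rw [← Finset.sum_erase_add _ _ (Finset.mem_powerset_self S),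
    Finset.strongInduction_eq (p := fun _ => M) H S, ← Finset.sum_attach]
  exact (add_sub_cancel _ _).symm

theorem flt_coef_mem {M : Type} [AddCommGroup M] (H : AddSubgroup M) {c : Finset ι → M}
    (h : ∀ S : Finset ι, ∑ B ∈ S.powerset, c B ∈ H) (S : Finset ι) : c S ∈ H := by
  induction S using Finset.strongInduction with
  | H S ih =>
    have h1 := h S
    rw [← Finset.sum_erase_add _ _ (Finset.mem_powerset_self S)] at h1
    refine (H.add_mem_cancel_left (sum_mem fun B hB => ih B ?_)).1 h1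
    rw [Finset.mem_erase, Finset.mem_powerset] at hB
    exact Finset.ssubset_iff_subset_ne.2 ⟨hB.2, hB.1⟩

theorem flt_single {F : ℕ → Ideal A} {k : ι → ℕ} (B₀ : Finset ι) {x : A}
    (h : x ∈ F (∑ i ∈ B₀, k i)) : ∃ c : Finset ι → A, (∀ B, c B ∈ F (∑ i ∈ B, k i)) ∧
      ∀ S : Finset ι, (if B₀ ⊆ S then x else 0) = ∑ B ∈ S.powerset, c B := by
  refine ⟨fun B => if B = B₀ then x else 0, fun B => ?_, fun S => ?_⟩
  · dsimp only
    split_ifs with hB
    · rwa [hB]
    · exact zero_mem _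
  · rw [Finset.sum_ite_eq']
    simp only [Finset.mem_powerset]

theorem flt_const {F : ℕ → Ideal A} (hF : Flt F) (k : ι → ℕ) (x : A) :
    ∃ c : Finset ι → A, (∀ B, c B ∈ F (∑ i ∈ B, k i)) ∧
      ∀ S : Finset ι, x = ∑ B ∈ S.powerset, c B := by
  obtain ⟨c, h1, h2⟩ := flt_single (F := F) (k := k) ∅ (x := x)
    (by rw [Finset.sum_empty, hF.top]; exact Submodule.mem_top)
  exact ⟨c, h1, fun S => by rw [← h2, if_pos (Finset.empty_subset S)]⟩

theorem flt_mul {F : ℕ → Ideal A} (hF : Flt F) {k : ι → ℕ} {c c' : Finset ι → A}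
    (h : ∀ B, c B ∈ F (∑ i ∈ B, k i)) (h' : ∀ B, c' B ∈ F (∑ i ∈ B, k i)) :
    ∃ c'' : Finset ι → A, (∀ B, c'' B ∈ F (∑ i ∈ B, k i)) ∧ ∀ S : Finset ι,
      (∑ B ∈ S.powerset, c B) * ∑ B ∈ S.powerset, c' B = ∑ B ∈ S.powerset, c'' B := by
  refine ⟨fun B => ∑ q ∈ Finset.univ.filter fun q : Finset ι × Finset ι => q.1 ∪ q.2 = B,
    c q.1 * c' q.2, fun B => sum_mem fun q hq => ?_, fun S => ?_⟩
  · obtain rfl := (Finset.mem_filter.1 hq).2
    refine hF.anti ?_ (hF.mul _ _ _ (h _) _ (h' _))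
    rw [← Finset.sum_union_inter]
    exact Nat.le_add_right _ _
  · rw [Finset.sum_mul_sum, ← Finset.sum_product',
      ← Finset.sum_fiberwise_of_maps_to (t := S.powerset) (g := fun q => q.1 ∪ q.2)]
    · refine Finset.sum_congr rfl fun B hB => Finset.sum_congr ?_ fun _ _ => rfl
      ext q
      simp only [Finset.mem_filter, Finset.mem_product, Finset.mem_powerset, Finset.mem_univ,
        true_and, and_iff_right_iff_imp]
      rintro rfl
      exact Finset.union_subset_iff.1 (Finset.mem_powerset.1 hB)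
    · intro q hq
      rw [Finset.mem_product, Finset.mem_powerset, Finset.mem_powerset] at hq
      exact Finset.mem_powerset.2 (Finset.union_subset hq.1 hq.2)

/-- the ring of cubes -/
def flt_CR {F : ℕ → Ideal A} (hF : Flt F) (k : ι → ℕ) : Subring (Finset ι → A) where
  carrier := {y | ∃ c : Finset ι → A, (∀ B, c B ∈ F (∑ i ∈ B, k i)) ∧
    ∀ S, y S = ∑ B ∈ S.powerset, c B}
  zero_mem' := flt_const hF k 0
  one_mem' := flt_const hF k 1
  add_mem' := fun ⟨c, h, e⟩ ⟨c', h', e'⟩ => ⟨c + c', fun B => add_mem (h B) (h' B), fun S => by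
    simp [e, e', Finset.sum_add_distrib]⟩
  neg_mem' := fun ⟨c, h, e⟩ => ⟨-c, fun B => neg_mem (h B), fun S => by simp [e]⟩
  mul_mem' := fun ⟨c, h, e⟩ ⟨c', h', e'⟩ => by
    obtain ⟨c'', h1, h2⟩ := flt_mul hF h h'
    exact ⟨c'', h1, fun S => by rw [Pi.mul_apply, e, e', h2]⟩

theorem flt_eval {F : ℕ → Ideal A} (hF : Flt F) {k : ι → ℕ} (B₀ : Finset ι)
    {G : MvPolynomial σ A} (hG : ∀ m, G.coeff m ∈ F (∑ i ∈ B₀, k i)) {y : Finset ι → σ → A}
    (hy : ∀ b, (fun S => y S b) ∈ flt_CR hF k) :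
    (fun S => if B₀ ⊆ S then MvPolynomial.eval₂ (RingHom.id A) (y S) G else 0) ∈ flt_CR hF k := by
  have e : (fun S => if B₀ ⊆ S then MvPolynomial.eval₂ (RingHom.id A) (y S) G else 0) =
      ∑ m ∈ G.support, (fun S => if B₀ ⊆ S then G.coeff m else 0) *
        ∏ b ∈ m.support, (fun S => y S b) ^ m b := by
    funext S
    rw [MvPolynomial.eval₂_eq, Finset.sum_apply]
    simp only [Pi.mul_apply, Finset.prod_apply, Pi.pow_apply, RingHom.id_apply]
    split_ifs <;> simp
  rw [e]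
  exact sum_mem fun m _ => mul_mem (flt_single B₀ (hG m)) (prod_mem fun b _ => pow_mem (hy b) _)

theorem flt_eval_mem (I : Ideal A) {G : MvPolynomial σ A} (hG : ∀ m, G.coeff m ∈ I) (x : σ → A) :
    MvPolynomial.eval₂ (RingHom.id A) x G ∈ I := by
  rw [MvPolynomial.eval₂_eq]
  exact I.sum_mem fun m _ => I.mul_mem_right _ (hG m)

/-- Newton's method on all vertices of a cube at once -/
theorem Flt.exists_cube {F : ℕ → Ideal A} (hF : Flt F) {k : ι → ℕ} (hk : ∀ i, 0 < k i)
    (E : σ → MvPolynomial σ A) (a : ι → σ → MvPolynomial σ A)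
    (ha : ∀ i j m, (a i j).coeff m ∈ F (k i)) {x₀ : σ → A}
    (h0 : ∀ j, MvPolynomial.eval₂ (RingHom.id A) x₀ (E j) ∈ F 1)
    (hj : IsUnit (jac (RingHom.id A) E x₀).det) : ∃ x : Finset ι → σ → A,
      (∀ S j, MvPolynomial.eval₂ (RingHom.id A) (x S) (E j + ∑ i ∈ S, a i j) = 0) ∧
      (∀ S b, x S b - x₀ b ∈ F 1) ∧
      ∀ b, IsCube (fun n => (F n).toAddSubgroup) k fun S => x S b := by
  obtain ⟨B, hB⟩ : ∃ B, jac (RingHom.id A) E x₀ * B = 1 := ⟨_, Matrix.mul_nonsing_inv _ hj⟩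
  have hc : ∀ (S : Finset ι) j m, (∑ i ∈ S, a i j).coeff m ∈ F 1 := fun S j m => by
    rw [MvPolynomial.coeff_sum]
    exact sum_mem fun i _ => hF.anti (hk i) (ha i j m)
  choose x h1 h2 using fun S : Finset ι => flt_newton hF (fun j => E j + ∑ i ∈ S, a i j) (x₀ := x₀)
    (fun j => by
      rw [MvPolynomial.eval₂_add]
      exact add_mem (h0 j) (flt_eval_mem _ (hc S j) _)) B fun j l => by
      rw [← hB, ← Matrix.sub_mul, Matrix.mul_apply]
      refine Ideal.sum_mem _ fun i _ => Ideal.mul_mem_right _ _ ?_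
      rw [Matrix.sub_apply, jac, jac, Matrix.of_apply, Matrix.of_apply, map_add,
        MvPolynomial.eval₂_add, add_sub_cancel_left]
      refine flt_eval_mem _ (fun m => ?_) _
      rw [MvPolynomial.coeff_pderiv]
      exact Ideal.mul_mem_right _ _ (hc S j _)
  have h3 : ∀ n b,
      (fun S => flt_it (fun j => E j + ∑ i ∈ S, a i j) B x₀ n b) ∈ flt_CR hF k := by
    intro n
    induction n with
    | zero => exact fun b => flt_const hF k (x₀ b)
    | succ n ih =>
      intro b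
      generalize hy : (fun S => flt_it (fun j => E j + ∑ i ∈ S, a i j) B x₀ n) = y
      replace hy := congrFun hy
      simp only [flt_it_succ, hy] at ih ⊢
      have e : (fun S => (y S - B.mulVec fun j =>
          MvPolynomial.eval₂ (RingHom.id A) (y S) (E j + ∑ i ∈ S, a i j)) b) =
          (fun S => y S b) - ∑ j, (fun _ => B b j) *
            ((fun S : Finset ι => if (∅ : Finset ι) ⊆ S then
              MvPolynomial.eval₂ (RingHom.id A) (y S) (E j) else 0) +
              ∑ i, fun S : Finset ι => if ({i} : Finset ι) ⊆ S then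
                MvPolynomial.eval₂ (RingHom.id A) (y S) (a i j) else 0) := by
        funext S
        simp only [Pi.sub_apply, Finset.sum_apply, Pi.mul_apply, Pi.add_apply, Finset.empty_subset,
          if_true, Finset.singleton_subset_iff, Finset.sum_ite_mem, Finset.univ_inter,
          MvPolynomial.eval₂_add, MvPolynomial.eval₂_sum, Matrix.mulVec, dotProduct]
      rw [e]
      refine sub_mem (ih b) (sum_mem fun j _ => mul_mem (flt_const hF k _) (add_mem
        (flt_eval hF ∅ (fun m => ?_) ih) (sum_mem fun i _ => flt_eval hF {i} (fun m => ?_) ih)))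
      · rw [Finset.sum_empty, hF.top]
        exact Submodule.mem_top
      · rw [Finset.sum_singleton]
        exact ha i j m
  refine ⟨x, h1, fun S b => h2 S 0 b, fun b => ?_⟩
  obtain ⟨c, hc⟩ := flt_coef fun S => x S b
  obtain ⟨c', h4, h5⟩ := h3 (∑ i, k i) b
  refine ⟨c, fun T _ => ?_, hc⟩
  have h6 := flt_coef_mem (F (∑ i, k i + 1)).toAddSubgroup (c := c - c') (fun S => by
    simp only [Pi.sub_apply, Finset.sum_sub_distrib]
    rw [← hc, ← h5]
    exact h2 S _ b) T
  have h7 := add_mem (hF.anti ((Finset.sum_le_sum_of_subset (Finset.subset_univ T)).trans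
    (Nat.le_succ _)) h6) (h4 T)
  rwa [Pi.sub_apply, sub_add_cancel] at h7

/-- Hensel's lemma for systems -/
theorem Flt.exists_zero {F : ℕ → Ideal A} (hF : Flt F) (E : σ → MvPolynomial σ A) {x₀ : σ → A}
    (h0 : ∀ j, MvPolynomial.eval₂ (RingHom.id A) x₀ (E j) ∈ F 1)
    (hj : IsUnit (jac (RingHom.id A) E x₀).det) : ∃ x : σ → A,
      (∀ j, MvPolynomial.eval₂ (RingHom.id A) x (E j) = 0) ∧ ∀ b, x b - x₀ b ∈ F 1 := by
  obtain ⟨x, h1, h2, -⟩ := hF.exists_cube (ι := Empty) (k := fun i => i.elim) (fun i => i.elim) E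
    (fun i => i.elim) (fun i => i.elim) h0 hj
  exact ⟨x ∅, fun j => by simpa using h1 ∅ j, h2 ∅⟩

/-- Hensel's lemma in one variable -/
theorem Flt.exists_root {F : ℕ → Ideal A} (hF : Flt F) (f : Polynomial A) {x₀ : A}
    (h0 : f.eval x₀ ∈ F 1) (hj : IsUnit (f.derivative.eval x₀)) :
    ∃ x, f.eval x = 0 ∧ x - x₀ ∈ F 1 := by
  have e : ∀ (g : Polynomial A) (x : Unit → A), MvPolynomial.eval₂ (RingHom.id A) x
      (Polynomial.aeval (MvPolynomial.X () : MvPolynomial Unit A) g) = g.eval (x ()) :=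
    fun g x => MvPolynomial.eval_toMvPolynomial x () g
  obtain ⟨x, h1, h2⟩ := hF.exists_zero (σ := Unit)
    (fun _ => Polynomial.aeval (MvPolynomial.X ()) f) (x₀ := fun _ => x₀)
    (fun _ => by rwa [e]) (by
      rwa [@Matrix.det_unique _ _ _ _ (_) (_), jac, Matrix.of_apply, Derivation.map_aeval,
        MvPolynomial.pderiv_X_self, smul_eq_mul, mul_one, e])
  exact ⟨x (), (e f x).symm.trans (h1 ()), h2 ()⟩

/-- a cube of vectors is a vector of cubes -/
theorem isCube_pi {M : Type} [AddCommGroup M] {d : ℕ} {f : ℕ → AddSubgroup M} {k : ι → ℕ}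
    {y : Finset ι → Fin d → M} (h : ∀ j, IsCube f k fun S => y S j) :
    IsCube (piFil d f) k y := by
  choose c h1 h2 using h
  refine ⟨fun B j => c j B, fun B hB j _ => h1 j B hB, fun S => funext fun j => ?_⟩
  rw [Finset.sum_apply]
  exact h2 j S

theorem IsCube.map {M M' : Type} [AddCommGroup M] [AddCommGroup M'] {f : ℕ → AddSubgroup M}
    {f' : ℕ → AddSubgroup M'} (g : M →+ M') (hg : ∀ n, ∀ x ∈ f n, g x ∈ f' n) {k : ι → ℕ}
    {y : Finset ι → M} (h : IsCube f k y) : IsCube f' k fun S => g (y S) := by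
  obtain ⟨c, h1, h2⟩ := h
  exact ⟨fun B => g (c B), fun B hB => hg _ _ (h1 B hB),
    fun S => (congrArg g (h2 S)).trans (map_sum _ _ _)⟩

end Pool.Agent.ZeroCyc
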