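import Pool.Agent.Lib.MP_796ce4_ag.ZQ.GW
import Pool.Agent.Lib.MP_796ce4_ag.ZQ.QSig

/-! Families of complete intersections indexed by the vertices of a cube. -/

namespace Pool.Agent.ZeroCyc

open Polynomial Module
open scoped Classical IntermediateField PowerSeries

set_option linter.unusedSectionVars false

variable {K Λ : Type} [Field K] [NormedField Λ] [IsUltrametricDist Λ] [Algebra K Λ] {N : ℕ}
  {J : Ideal (MvPolynomial (Fin (N + 1)) K)} {B L L' : IntermediateField K Λ}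

namespace QChart

variable (𝒞 : QChart J B)

/-- the ideal generated by `π` and `s` -/
noncomputable def mI (hB : B ≤ L) : Ideal (MV 𝒞.d (OL L)) :=
  Ideal.span {MvPolynomial.C (inc hB 𝒞.π), MvPolynomial.X vs}

/-- the weights -/
abbrev wg (ω : ℕ) : Vr 𝒞.d → ℕ := wgt 𝒞.d 𝒞.red.b 𝒞.red.δ ω

/-- All common zeros of the basic equations in the residue field are good and simple. -/
def Good (u : (OL L)[X]) (lam w : Fin 𝒞.d → (OL L)[X]) : Prop :=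
  ∀ (t : kk Λ) (y : Fin 𝒞.d → kk Λ), u.eval₂ (rL L) t = 0 →
    (∀ j, (y j - (lam j).eval₂ (rL L) t) * (w j).eval₂ (rL L) (y j) = 0) →
      MvPolynomial.eval₂ (rL B) y 𝒞.D₀ ≠ 0 ∧ (derivative u).eval₂ (rL L) t ≠ 0 ∧
        ∀ j, (w j).eval₂ (rL L) (y j) +
          (y j - (lam j).eval₂ (rL L) t) * (derivative (w j)).eval₂ (rL L) (y j) ≠ 0

/-- the data of a family -/
structure GD (hB : B ≤ L) {ι : Type} (k : ι → ℕ) where
  ω : ℕ
  u : (OL L)[X]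
  lam : Fin 𝒞.d → (OL L)[X]
  w : Fin 𝒞.d → (OL L)[X]
  a₀ : Option (Fin 𝒞.d) → MV 𝒞.d (OL L)
  a : ι → Option (Fin 𝒞.d) → MV 𝒞.d (OL L)
  pos : ∀ i, 0 < k i
  u_monic : u.Monic
  w_monic : ∀ j, (w j).Monic
  lam_deg : ∀ j, (lam j).natDegree < ω
  mem₀ : ∀ j, a₀ j ∈ 𝒞.mI hB
  mem : ∀ i j, a i j ∈ 𝒞.mI hB ^ k i
  wb₀ : ∀ j, WB (𝒞.wg ω) (Ftop ω u w j) (a₀ j)
  wb : ∀ i j, WB (𝒞.wg ω) (Ftop ω u w j) (a i j)
  good : 𝒞.Good u lam w

variable {𝒞} {hB : B ≤ L} {π : Λ} {x x' : Vr 𝒞.d → Λ⟦X⟧} {P : MV 𝒞.d (OL L)} {n l : ℕ}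

theorem gdefs_π (hL : L ≤ L') : cS L (inc hB 𝒞.π) ∈ fS L' (𝒞.π : Λ) 1 :=
  C_mem_fS (hL (hB 𝒞.π.2.1)) (pow_one _).ge
theorem gdefs_X : (PowerSeries.X : Λ⟦X⟧) ∈ fS L' (𝒞.π : Λ) 1 := by
  have := X_pow_mem_fS (L := L') (π := (𝒞.π : Λ)) 1
  rwa [pow_one] at this
theorem gdefs_one (hL : L ≤ L') (hP : P ∈ 𝒞.mI hB) (hx : ∀ b, x b ∈ SL L')
    (hs : x vs = PowerSeries.X) : MvPolynomial.eval₂ (cS L) x P ∈ fS L' (𝒞.π : Λ) 1 := by
  obtain ⟨a, b, rfl⟩ := Ideal.mem_span_pair.1 hP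
  rw [MvPolynomial.eval₂_add, MvPolynomial.eval₂_mul, MvPolynomial.eval₂_mul, MvPolynomial.eval₂_C,
    MvPolynomial.eval₂_X, hs]
  exact add_mem (fS_mul_left 𝒞.π_lt (mv_mem_SL (cS_mem hL) hx a) (gdefs_π hL))
    (fS_mul_left 𝒞.π_lt (mv_mem_SL (cS_mem hL) hx b) gdefs_X)
theorem gdefs_one_sub (hL : L ≤ L') (hP : P ∈ 𝒞.mI hB) (hx : ∀ b, x b ∈ SL L')
    (hs : x vs = PowerSeries.X) (hs' : x' vs = PowerSeries.X)
    (h : ∀ b, x' b - x b ∈ fS L' (𝒞.π : Λ) l) :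
    MvPolynomial.eval₂ (cS L) x' P - MvPolynomial.eval₂ (cS L) x P ∈ fS L' (𝒞.π : Λ) (l + 1) := by
  obtain ⟨a, b, rfl⟩ := Ideal.mem_span_pair.1 hP
  simp only [MvPolynomial.eval₂_add, MvPolynomial.eval₂_mul, MvPolynomial.eval₂_C,
    MvPolynomial.eval₂_X, hs, hs']
  rw [add_sub_add_comm, ← sub_mul, ← sub_mul]
  exact add_mem (fS_mul 𝒞.π_lt (mv_sub_mem 𝒞.π_lt (cS_mem hL) hx h a) (gdefs_π hL))
    (fS_mul 𝒞.π_lt (mv_sub_mem 𝒞.π_lt (cS_mem hL) hx h b) gdefs_X)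
theorem mI_eval (hL : L ≤ L') (hP : P ∈ 𝒞.mI hB ^ n) (hx : ∀ b, x b ∈ SL L')
    (hs : x vs = PowerSeries.X) : MvPolynomial.eval₂ (cS L) x P ∈ fS L' (𝒞.π : Λ) n := by
  induction n generalizing P with
  | zero => exact fS_zero.2 (mv_mem_SL (cS_mem hL) hx P)
  | succ n ih =>
    rw [pow_succ] at hP
    refine Submodule.mul_induction_on hP (fun a ha b hb => ?_) fun a b ha hb => ?_
    · rw [MvPolynomial.eval₂_mul]
      exact fS_mul 𝒞.π_lt (ih ha) (gdefs_one hL hb hx hs)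
    · rw [MvPolynomial.eval₂_add]
      exact add_mem ha hb
theorem mI_eval_sub (hL : L ≤ L') (hP : P ∈ 𝒞.mI hB ^ n) (hx : ∀ b, x b ∈ SL L')
    (hs : x vs = PowerSeries.X) (hs' : x' vs = PowerSeries.X)
    (h : ∀ b, x' b - x b ∈ fS L' (𝒞.π : Λ) l) :
    MvPolynomial.eval₂ (cS L) x' P - MvPolynomial.eval₂ (cS L) x P ∈ fS L' (𝒞.π : Λ) (n + l) := by
  have hx' : ∀ b, x' b ∈ SL L' := fun b => by
    have := add_mem (fS_le 𝒞.π_lt (h b)) (hx b)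
    rwa [sub_add_cancel] at this
  induction n generalizing P with
  | zero =>
    rw [zero_add]
    exact mv_sub_mem 𝒞.π_lt (cS_mem hL) hx h P
  | succ n ih =>
    rw [pow_succ] at hP
    refine Submodule.mul_induction_on hP (fun a ha b hb => ?_) fun a b ha hb => ?_
    · have h1 := fS_mul 𝒞.π_lt (ih ha) (gdefs_one hL hb hx' hs')
      have h2 := fS_mul 𝒞.π_lt (mI_eval hL ha hx hs) (gdefs_one_sub hL hb hx hs hs' h)
      rw [show n + l + 1 = n + 1 + l by ring] at h1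
      rw [show n + (l + 1) = n + 1 + l by ring] at h2
      have h3 := add_mem h1 h2
      rw [sub_mul, mul_sub, sub_add_sub_cancel] at h3
      rwa [MvPolynomial.eval₂_mul, MvPolynomial.eval₂_mul]
    · rw [MvPolynomial.eval₂_add, MvPolynomial.eval₂_add, add_sub_add_comm]
      exact add_mem ha hb
theorem mI_res (hP : P ∈ 𝒞.mI hB) {z : Vr 𝒞.d → kk Λ} (hz : z vs = 0) :
    MvPolynomial.eval₂ (rL L) z P = 0 ∧
      ∀ b, b ≠ vs → MvPolynomial.eval₂ (rL L) z (MvPolynomial.pderiv b P) = 0 := by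
  obtain ⟨a, c, rfl⟩ := Ideal.mem_span_pair.1 hP
  have h0 : rL L (inc hB 𝒞.π) = 0 := by
    rw [rL_apply]
    exact (rs_eq_zero 𝒞.π_lt.le).2 𝒞.π_lt
  refine ⟨?_, fun b hb => ?_⟩
  · simp only [MvPolynomial.eval₂_add, MvPolynomial.eval₂_mul, MvPolynomial.eval₂_C,
      MvPolynomial.eval₂_X, h0, hz, mul_zero, add_zero]
  · simp only [map_add, MvPolynomial.pderiv_mul, MvPolynomial.pderiv_C,
      MvPolynomial.pderiv_X_of_ne hb.symm, MvPolynomial.eval₂_add, MvPolynomial.eval₂_mul,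
      MvPolynomial.eval₂_C, MvPolynomial.eval₂_X, h0, hz, mul_zero, add_zero]

theorem gdefs_fin {R κ : Type} [CommRing R] [Field κ] (φ : R →+* κ) {f : R[X]} (hf : f.Monic) :
    {t | f.eval₂ φ t = 0}.Finite := by
  refine (finite_setOfPred_isRoot (hf.map φ).ne_zero).subset fun t ht => ?_
  rw [Set.mem_ofPred_eq, IsRoot, eval_map]
  exact ht

theorem gdefs_mkS {d : ℕ} {R : Type} [CommRing R] (q : MV d R → Prop) {f₀ f₂ : MV d R}
    {F : Option (Fin d) → MV d R} (h₀ : q f₀) (h₂ : q f₂) (h : ∀ j, q (F j)) (b : Vr d) :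
    q (mkS f₀ f₂ F b) := by
  rcases b with b | j
  · fin_cases b
    · exact h₀
    · exact h none
    · exact h₂
  · exact h (some j)

theorem gdefs_ψ (L : IntermediateField K Λ) :
    ∃ ψ : SL L →+* kk Λ, ∀ f : SL L, ψ f = rs (c0 (f : Λ⟦X⟧)) :=
  ⟨(rL L).comp ((c0.comp (SL L).subtype).codRestrict (OL L) fun f => c0_mem f.2),
    fun _ => rL_apply _⟩

theorem gdefs_ev {σ : Type} (y : σ → SL L) (F : MvPolynomial σ (SL L)) :
    ((MvPolynomial.eval₂ (RingHom.id _) y F : SL L) : Λ⟦X⟧) =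
      MvPolynomial.eval₂ (SL L).subtype (fun b => (y b : Λ⟦X⟧)) F :=
  MvPolynomial.hom_eval₂ F (RingHom.id _) (SL L).subtype y

theorem gdefs_jac {R A σ : Type} [CommRing R] [CommRing A] [Fintype σ] [i : DecidableEq σ]
    (φ : R →+* A) (F : σ → MvPolynomial σ R) {x x' : σ → A} (I 𝔪 : Ideal A)
    (h𝔪 : ∀ y ∈ 𝔪, IsUnit (1 + y)) (hx : ∀ a, x' a - x a ∈ 𝔪) (hj : IsUnit (jac φ F x).det)
    (hF : ∀ j, MvPolynomial.eval₂ φ x' (F j) - MvPolynomial.eval₂ φ x (F j) ∈ I) (a : σ) :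
    x' a - x a ∈ I := by
  obtain rfl : i = fun a b => Classical.propDecidable (a = b) := Subsingleton.elim _ _
  exact sub_mem_of_jac φ F I 𝔪 h𝔪 hx hj hF a

theorem gdefs_sep {f : Λ⟦X⟧} (hπ : ‖π‖ < 1) (h : ∀ n, f ∈ fS L π n) : f = 0 := by
  ext i
  rw [map_zero, ← norm_le_zero_iff]
  refine ge_of_tendsto' (tendsto_pow_atTop_nhds_zero_of_lt_one (norm_nonneg π) hπ) fun n => ?_
  have := (h (n + i) i).2
  rwa [Nat.add_sub_cancel] at this

namespace GD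

variable {ι : Type} [Fintype ι] {k : ι → ℕ} (G : 𝒞.GD hB k)

/-- the perturbation at the vertex `A` -/
noncomputable def per (A : Finset ι) (j : Option (Fin 𝒞.d)) : MV 𝒞.d (OL L) :=
  G.a₀ j + ∑ i ∈ A, G.a i j

/-- the equations at the vertex `A` -/
noncomputable def Fe (A : Finset ι) (j : Option (Fin 𝒞.d)) : MV 𝒞.d (OL L) :=
  Fb G.u G.lam G.w j + G.per A j

/-- the system at the vertex `A` -/
noncomputable def sys (A : Finset ι) : Vr 𝒞.d → MV 𝒞.d (OL L) :=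
  mkS (MvPolynomial.X vs - emb (inc hB) 𝒞.ϑ) (emb (inc hB) 𝒞.χ) (G.Fe A)

/-- zeros in the residue field -/
structure RZ (z : Vr 𝒞.d → kk Λ) : Prop where
  s : z vs = 0
  t : G.u.eval₂ (rL L) (z vt) = 0
  y : ∀ j, (z (vy j) - (G.lam j).eval₂ (rL L) (z vt)) * (G.w j).eval₂ (rL L) (z (vy j)) = 0
  th : ev2 (rL B) (fun j => z (vy j)) (z vT) 𝒞.ϑ = 0

/-- the branch `s ↦ x(s)` through `z` -/
structure IsPt (A : Finset ι) (z : Vr 𝒞.d → kk Λ) (x : Vr 𝒞.d → Λ⟦X⟧) : Prop where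
  mem : ∀ b, x b ∈ SL (⊤ : IntermediateField K Λ)
  res : ∀ b, rs (c0 (x b)) = z b
  s : x vs = PowerSeries.X
  th : ev2 (cS B) (fun j => x (vy j)) (x vT) 𝒞.ϑ = PowerSeries.X
  eq : ∀ j, MvPolynomial.eval₂ (cS L) x (G.Fe A j) = 0

/-- the branch -/
noncomputable def pt (A : Finset ι) (z : Vr 𝒞.d → kk Λ) : Vr 𝒞.d → Λ⟦X⟧ :=
  if h : ∃ x, G.IsPt A z x then h.choose else 0

/-- its affine coordinates -/
noncomputable def py (A : Finset ι) (z : Vr 𝒞.d → kk Λ) : Fin 𝒞.d → Λ⟦X⟧ :=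
  fun j => G.pt A z (vy j)

/-- the centre of the disc -/
noncomputable def ph (z : Vr 𝒞.d → kk Λ) : Λ := c0 (G.pt ∅ z vT)

/-- the alternating sum of the transversal cycles -/
noncomputable def cyc (z : Vr 𝒞.d → kk Λ) : PY Λ N →₀ ℤ :=
  𝒞.Jm (G.ph z) (alt fun A => sg (G.py A z))

/-- the linearised equations -/
def Lin (L' : IntermediateField K Λ) (i : ι) (x : Vr 𝒞.d → Λ⟦X⟧) (θ : Λ⟦X⟧)
    (v : Fin 𝒞.d → Λ⟦X⟧) : Prop :=
  (derivative G.u).eval₂ (cS L) (x vt) * θ + MvPolynomial.eval₂ (cS L) x (G.a i none) ∈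
    fS L' (𝒞.π : Λ) (k i + 1) ∧
  ∀ j, (G.w j).eval₂ (cS L) (x (vy j)) * (v j - (derivative (G.lam j)).eval₂ (cS L) (x vt) * θ) +
    (x (vy j) - (G.lam j).eval₂ (cS L) (x vt)) *
      (derivative (G.w j)).eval₂ (cS L) (x (vy j)) * v j +
        MvPolynomial.eval₂ (cS L) x (G.a i (some j)) ∈ fS L' (𝒞.π : Λ) (k i + 1)

variable {G} {A : Finset ι} {z : Vr 𝒞.d → kk Λ}

theorem per_mem (A : Finset ι) (j : Option (Fin 𝒞.d)) : G.per A j ∈ 𝒞.mI hB := by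
  exact add_mem (G.mem₀ j) (sum_mem fun i _ => Ideal.pow_le_self (G.pos i).ne' (G.mem i j))
theorem sys_sys (A : Finset ι) : Sys (𝒞.wg G.ω)
    (Sum.elim ![1, G.u.natDegree, 𝒞.δ] fun j => (G.w j).natDegree + 1) (G.sys A) := by
  have h1 : (𝒞.ϑ).natDegree = 𝒞.red.δ := 𝒞.red.deg
  have h2 := sys_mkS (b := 𝒞.red.b) (inc hB) (ϑ := 𝒞.ϑ) (χ := 𝒞.χ) 𝒞.red.monic
    (h1.symm ▸ 𝒞.red.wt) 𝒞.monic (𝒞.deg.symm ▸ 𝒞.wt) G.u_monic G.w_monic G.lam_deg (P := G.per A)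
    fun j => by
      rw [h1]
      exact (G.wb₀ j).add (WB.sum fun i _ => G.wb i j)
  rw [h1, 𝒞.deg] at h2
  exact h2
theorem RZ.gk (h : G.RZ z) : 𝒞.red.Gk (fun j => z (vy j)) (z vT) := by
  exact ⟨h.th, (G.good (z vt) (fun j => z (vy j)) h.t h.y).1⟩
theorem rz_finite : {z | G.RZ z}.Finite := by
  have h1 := gdefs_fin (rL L) G.u_monic
  have h2 : ∀ j, ((fun t => (G.lam j).eval₂ (rL L) t) '' {t | G.u.eval₂ (rL L) t = 0} ∪
      {y | (G.w j).eval₂ (rL L) y = 0}).Finite := fun j =>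
    (h1.image _).union (gdefs_fin (rL L) (G.w_monic j))
  have h3 := (Set.Finite.pi' h2).biUnion (t := fun y => {c | ev2 (rL B) y c 𝒞.ϑ = 0}) fun y _ =>
    gdefs_fin (MvPolynomial.eval₂Hom (rL B) y) 𝒞.red.monic
  have h4 := (h1.prod (Set.Finite.pi' h2)).prod h3
  refine Set.Finite.of_finite_image (f := fun z => ((z vt, fun j => z (vy j)), z vT))
    (h4.subset ?_) ?_
  · rintro _ ⟨z, hz, rfl⟩
    have h5 : ∀ j, z (vy j) ∈ (fun t => (G.lam j).eval₂ (rL L) t) ''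
        {t | G.u.eval₂ (rL L) t = 0} ∪ {y | (G.w j).eval₂ (rL L) y = 0} := fun j => by
      rcases mul_eq_zero.1 (hz.y j) with h | h
      · exact Or.inl ⟨z vt, hz.t, (sub_eq_zero.1 h).symm⟩
      · exact Or.inr h
    exact ⟨⟨hz.t, h5⟩, Set.mem_biUnion h5 hz.th⟩
  · intro z hz z' hz' e
    obtain ⟨e1, e3⟩ := Prod.ext_iff.1 e
    obtain ⟨e1, e2⟩ := Prod.ext_iff.1 e1
    funext b
    rcases b with b | j
    · fin_cases b
      · exact hz.s.trans hz'.s.symm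
      · exact e1
      · exact e3
    · exact congrFun e2 j
/-- the Jacobian of the local system over a local ring -/
theorem RZ.jac (h : G.RZ z) {R : Type} [CommRing R] (φ : OL L →+* R) (ψ : R →+* kk Λ)
    (hψ : ∀ y, ψ y ≠ 0 → IsUnit y) (hφ : ψ.comp φ = rL L) {x : Vr 𝒞.d → R}
    (hx : ∀ b, ψ (x b) = z b) (t : R) (A : Finset ι) :
    IsUnit (jac (RingHom.id R) (mkS (MvPolynomial.X vs - MvPolynomial.C t)
      (emb (φ.comp (inc hB)) 𝒞.ϑ - MvPolynomial.X vs)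
        fun j => MvPolynomial.map φ (G.Fe A j)) x).det := by
  have e : (fun j => MvPolynomial.map φ (G.Fe A j)) = fun j =>
      Fb (G.u.map φ) (fun j => (G.lam j).map φ) (fun j => (G.w j).map φ) j +
        MvPolynomial.map φ (G.per A j) := funext fun j => by rw [Fe, map_add, map_Fb]
  have e1 : ∀ (f : (OL L)[X]) (b : Vr 𝒞.d), ψ ((f.map φ).eval (x b)) = f.eval₂ (rL L) (z b) :=
    fun f b => by rw [eval_map, hom_eval₂, hφ, hx]
  obtain ⟨-, g2, g3⟩ := G.good (z vt) (fun j => z (vy j)) h.t h.y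
  rw [e]
  refine jac_loc ψ hψ _ t (fun j b hb => ?_) ?_ ?_ fun j => ?_
  · rw [MvPolynomial.pderiv_map, MvPolynomial.eval₂_map, MvPolynomial.hom_eval₂, RingHom.id_comp,
      hφ, funext hx]
    exact (mI_res (per_mem A j) h.s).2 b hb
  · rw [map_ev2, ← RingHom.comp_assoc, hφ, rL_inc, hx]
    simp only [hx]
    exact h.gk.der h.th
  · rwa [derivative_map, e1]
  · rw [derivative_map, map_add, map_mul, map_sub, e1, e1, e1, hx]
    exact g3 j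
/-- approximate solutions are close to each other -/
theorem RZ.near (h : G.RZ z) (hL : L ≤ L') (hx : ∀ b, x b ∈ SL L') (hx' : ∀ b, x' b ∈ SL L')
    (hr : ∀ b, rs (c0 (x b)) = z b) (hr' : ∀ b, rs (c0 (x' b)) = z b) (hs : x' vs = x vs)
    (h1 : ev2 (cS B) (fun j => x' (vy j)) (x' vT) 𝒞.ϑ -
      ev2 (cS B) (fun j => x (vy j)) (x vT) 𝒞.ϑ ∈ fS L' (𝒞.π : Λ) n)
    (h2 : ∀ j, MvPolynomial.eval₂ (cS L) x' (G.Fe A j) - MvPolynomial.eval₂ (cS L) x (G.Fe A j) ∈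
      fS L' (𝒞.π : Λ) n) (b : Vr 𝒞.d) : x' b - x b ∈ fS L' (𝒞.π : Λ) n := by
  obtain ⟨φ, hφ'⟩ : ∃ φ : OL L →+* SL L', (SL L').subtype.comp φ = cS L :=
    ⟨(cS L).codRestrict (SL L') (cS_mem hL), rfl⟩
  obtain ⟨ψ, hψ⟩ := gdefs_ψ L'
  have hφ : ψ.comp φ = rL L := RingHom.ext fun c => by
    have e : ((φ c : SL L') : Λ⟦X⟧) = PowerSeries.C (c : Λ) := DFunLike.congr_fun hφ' c
    rw [RingHom.comp_apply, hψ, rL_apply, e, PowerSeries.constantCoeff_C]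
  have hφ'' : (SL L').subtype.comp (φ.comp (inc hB)) = cS B := by
    rw [← RingHom.comp_assoc, hφ', RingHom.comp_assoc, subtype_inc]
  lift x to Vr 𝒞.d → SL L' using hx
  lift x' to Vr 𝒞.d → SL L' using hx'
  replace hs : (x' vs : Λ⟦X⟧) = x vs := hs
  have hj := h.jac φ ψ (fun y hy => SL_isUnit.2 (rs_ne_zero.1 (by rwa [hψ] at hy))) hφ
    (x := x) (fun b => (hψ _).trans (hr b)) (x vs) A
  have key := gdefs_jac (RingHom.id _) _ (x' := x') (fI L' 𝒞.π_lt n) (mS L')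
    mS_unit (fun a => ?_) hj (fun j => ?_) b
  · exact key
  · rw [mem_mS, AddSubgroupClass.coe_sub, map_sub]
    exact (rs_eq_iff (c0_mem (x' a).2).2 (c0_mem (x a).2).2).1 ((hr' a).trans (hr a).symm)
  · rw [mem_fI, AddSubgroupClass.coe_sub, gdefs_ev, gdefs_ev]
    refine gdefs_mkS (fun F => MvPolynomial.eval₂ (SL L').subtype (fun b => (x' b : Λ⟦X⟧)) F -
      MvPolynomial.eval₂ (SL L').subtype (fun b => (x b : Λ⟦X⟧)) F ∈ fS L' (𝒞.π : Λ) n)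
      ?_ ?_ (fun j => ?_) j
    · rw [MvPolynomial.eval₂_sub, MvPolynomial.eval₂_sub, MvPolynomial.eval₂_X,
        MvPolynomial.eval₂_X, MvPolynomial.eval₂_C, MvPolynomial.eval₂_C, hs, sub_self]
      exact zero_mem _
    · rw [MvPolynomial.eval₂_sub, MvPolynomial.eval₂_sub, MvPolynomial.eval₂_X,
        MvPolynomial.eval₂_X, hs, sub_sub_sub_cancel_right, eval₂_emb, eval₂_emb, hφ'']
      exact h1
    · rw [MvPolynomial.eval₂_map, MvPolynomial.eval₂_map, hφ']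
      exact h2 j
theorem IsPt.eq_pt (h : G.IsPt A z x) (hz : G.RZ z) : G.pt A z = x := by
  have h0 : ∃ x, G.IsPt A z x := ⟨x, h⟩
  have h' := h0.choose_spec
  rw [pt, dif_pos h0]
  funext b
  refine sub_eq_zero.1 (gdefs_sep (L := (⊤ : IntermediateField K Λ)) 𝒞.π_lt fun n => ?_)
  refine hz.near (A := A) le_top h.mem h'.mem h.res h'.res (h'.s.trans h.s.symm) ?_
    (fun j => ?_) b
  · rw [h.th, h'.th, sub_self]
    exact zero_mem _
  · rw [h.eq, h'.eq, sub_self]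
    exact zero_mem _

end GD

end QChart

end Pool.Agent.ZeroCyc
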