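import Pool.Agent.Lib.MP_796ce4_ag.ZQ.GDefs

/-! The branches through the zeros in the residue field. -/

namespace Pool.Agent.ZeroCyc

open Polynomial Module
open scoped Classical IntermediateField PowerSeries

set_option linter.unusedSectionVars false

variable {p : ℕ} {K Λ : Type} [Field K] [CharZero K] [NormedField Λ] [IsUltrametricDist Λ]
  [IsAlgClosed Λ] [Algebra K Λ] [IsGalois K Λ] [Loc p K Λ] [Fact p.Prime] [CharP (kk Λ) p]
variable {N : ℕ} {J : Ideal (MvPolynomial (Fin (N + 1)) K)} {B L L' : IntermediateField K Λ}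

namespace QChart.GD

variable {𝒞 : QChart J B} {ι : Type} [Fintype ι] {k : ι → ℕ}

section

variable {hB : B ≤ L} {G : 𝒞.GD hB k} {A : Finset ι} {z : Vr 𝒞.d → kk Λ}

theorem gloc_cube {A σ : Type} [CommRing A] [Fintype σ] [i : DecidableEq σ] {F : ℕ → Ideal A}
    (hF : Flt F) (hk : ∀ i, 0 < k i) (E : σ → MvPolynomial σ A) (a : ι → σ → MvPolynomial σ A)
    (ha : ∀ i j m, (a i j).coeff m ∈ F (k i)) {x₀ : σ → A}
    (h0 : ∀ j, MvPolynomial.eval₂ (RingHom.id A) x₀ (E j) ∈ F 1)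
    (hj : IsUnit (jac (RingHom.id A) E x₀).det) : ∃ x : Finset ι → σ → A,
      (∀ S j, MvPolynomial.eval₂ (RingHom.id A) (x S) (E j + ∑ i ∈ S, a i j) = 0) ∧
      (∀ S b, x S b - x₀ b ∈ F 1) ∧
      ∀ b, IsCube (fun n => (F n).toAddSubgroup) k fun S => x S b := by
  obtain rfl : i = fun a b => Classical.propDecidable (a = b) := Subsingleton.elim _ _
  exact hF.exists_cube hk E a ha h0 hj

/-- the substitution `s ↦ t` -/
theorem gloc_sb {R A : Type} [CommRing R] [CommRing A] {d : ℕ} (φ : R →+* A) (t : A) :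
    ∃ sb : MV d R →+* MV d A, (∀ c, sb (MvPolynomial.C c) = MvPolynomial.C (φ c)) ∧
      sb (MvPolynomial.X vs) = MvPolynomial.C t ∧ ∀ x : Vr d → A, x vs = t → ∀ P,
        MvPolynomial.eval₂ (RingHom.id A) x (sb P) = MvPolynomial.eval₂ φ x P := by
  refine ⟨MvPolynomial.eval₂Hom (MvPolynomial.C.comp φ) fun b =>
    if b = vs then MvPolynomial.C t else MvPolynomial.X b, fun c => MvPolynomial.eval₂Hom_C _ _ _,
    by rw [MvPolynomial.eval₂Hom_X', if_pos rfl], fun x hx P => ?_⟩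
  rw [← MvPolynomial.coe_eval₂Hom, ← MvPolynomial.coe_eval₂Hom, ← RingHom.comp_apply]
  congr 1
  refine MvPolynomial.ringHom_ext (fun c => by simp) fun b => ?_
  by_cases hb : b = vs
  · subst hb
    simp [hx]
  · simp [hb]

theorem gloc_coeff (hL : L ≤ L') {sb : MV 𝒞.d (OL L) →+* MV 𝒞.d (SL L')} {φ : OL L →+* SL L'}
    (hφ : (SL L').subtype.comp φ = cS L) (h1 : ∀ c, sb (MvPolynomial.C c) = MvPolynomial.C (φ c))
    (h2 : sb (MvPolynomial.X vs) = MvPolynomial.C ⟨PowerSeries.X, X_mem_SL⟩) {n : ℕ}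
    {P : MV 𝒞.d (OL L)} (hP : P ∈ 𝒞.mI hB ^ n) (m : Vr 𝒞.d →₀ ℕ) :
    (sb P).coeff m ∈ fI L' 𝒞.π_lt n := by
  have h3 : (𝒞.mI hB).map sb ≤ (fI L' 𝒞.π_lt 1).map MvPolynomial.C := by
    rw [mI, Ideal.map_span, Ideal.span_le, Set.image_pair, h1, h2]
    rintro _ (rfl | rfl)
    · refine Ideal.mem_map_of_mem _ (mem_fI.2 ?_)
      rw [show ((φ (inc hB 𝒞.π) : SL L') : Λ⟦X⟧) = cS L (inc hB 𝒞.π) from
        DFunLike.congr_fun hφ _]
      exact gdefs_π hL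
    · exact Ideal.mem_map_of_mem _ (mem_fI.2 gdefs_X)
  have h4 : ∀ n, fI L' 𝒞.π_lt 1 ^ n ≤ fI L' 𝒞.π_lt n := fun n => by
    induction n with
    | zero => exact fun f _ => mem_fI.2 (fS_zero.2 f.2)
    | succ n ih =>
      rw [pow_succ, Ideal.mul_le]
      exact fun a ha b hb => mem_fI.2 (fS_mul 𝒞.π_lt (mem_fI.1 (ih ha)) (mem_fI.1 hb))
  have h5 := Ideal.mem_map_of_mem sb hP
  rw [Ideal.map_pow] at h5
  have h6 := Ideal.pow_right_mono h3 n h5
  rw [← Ideal.map_pow] at h6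
  exact h4 n (MvPolynomial.mem_map_C_iff.1 h6 m)

include p in
/-- the branches exist and form a cube -/
theorem RZ.exists_cube [FiniteDimensional K L'] (h : G.RZ z) (hL : L ≤ L')
    (hU : UnrF (𝒞.π : Λ) L') (hz : ∀ b, ∃ c : OL L', rL L' c = z b) :
    (∀ A, G.IsPt A z (G.pt A z) ∧ ∀ b, G.pt A z b ∈ SL L') ∧
      ∀ b, IsCube (fS L' (𝒞.π : Λ)) k fun A => G.pt A z b := by
  obtain ⟨φ, hφ'⟩ : ∃ φ : OL L →+* SL L', (SL L').subtype.comp φ = cS L :=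
    ⟨(cS L).codRestrict (SL L') (cS_mem hL), rfl⟩
  obtain ⟨ψ, hψ⟩ := gdefs_ψ L'
  have hφ : ψ.comp φ = rL L := RingHom.ext fun c => by
    have e : ((φ c : SL L') : Λ⟦X⟧) = PowerSeries.C (c : Λ) := DFunLike.congr_fun hφ' c
    rw [RingHom.comp_apply, hψ, rL_apply, e, PowerSeries.constantCoeff_C]
  have hφ'' : (SL L').subtype.comp (φ.comp (inc hB)) = cS B := by
    rw [← RingHom.comp_assoc, hφ', RingHom.comp_assoc, subtype_inc]
  have h1 : ∀ f : SL L', f ∈ fI L' 𝒞.π_lt 1 ↔ ψ f = 0 := fun f => by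
    rw [hψ, rs_eq_zero (c0_mem f.2).2, mem_fI]
    exact ⟨c0_lt 𝒞.π_lt, fS_one hU f.2⟩
  obtain ⟨sb, s1, s2, s3⟩ := gloc_sb (d := 𝒞.d) φ ⟨PowerSeries.X, X_mem_SL⟩
  choose c hc using hz
  obtain ⟨x₀, hx₀, hs₀⟩ : ∃ x₀ : Vr 𝒞.d → SL L', (∀ b, ψ (x₀ b) = z b) ∧
      x₀ vs = ⟨PowerSeries.X, X_mem_SL⟩ := by
    refine ⟨fun b => if b = vs then ⟨PowerSeries.X, X_mem_SL⟩ else
      ⟨PowerSeries.C (c b : Λ), C_mem_SL (c b).2⟩, fun b => ?_, if_pos rfl⟩
    rw [hψ]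
    beta_reduce
    split_ifs with hb
    · rw [hb, h.s, PowerSeries.constantCoeff_X, rs_zero]
    · rw [PowerSeries.constantCoeff_C, ← rL_apply, hc]
  have e1 : ∀ (f : (OL L)[X]) (b : Vr 𝒞.d), ψ ((f.map φ).eval (x₀ b)) = f.eval₂ (rL L) (z b) :=
    fun f b => by rw [eval_map, hom_eval₂, hφ, hx₀]
  obtain ⟨-, g2, g3⟩ := G.good (z vt) (fun j => z (vy j)) h.t h.y
  have hj := jac_loc ψ (fun y hy => SL_isUnit.2 (rs_ne_zero.1 (by rwa [hψ] at hy)))
    (φ.comp (inc hB)) (ϑ := 𝒞.ϑ) (u := G.u.map φ) (lam := fun j => (G.lam j).map φ)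
    (w := fun j => (G.w j).map φ) (x := x₀) ⟨PowerSeries.X, X_mem_SL⟩ (P := fun j => sb (G.a₀ j))
    (fun j b _ => (h1 _).1 (flt_eval_mem _ (fun m => by
      rw [MvPolynomial.coeff_pderiv]
      exact Ideal.mul_mem_right _ _ (gloc_coeff hL hφ' s1 s2 (n := 1)
        ((pow_one (𝒞.mI hB)).symm ▸ G.mem₀ j) _)) _))
    (by
      rw [map_ev2, ← RingHom.comp_assoc, hφ, rL_inc, hx₀]
      simp only [hx₀]
      exact h.gk.der h.th)
    (by rwa [derivative_map, e1])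
    (fun j => by
      rw [derivative_map, map_add, map_mul, map_sub, e1, e1, e1, hx₀]
      exact g3 j)
  have e2 : ∀ (x : Vr 𝒞.d → SL L') j, MvPolynomial.eval₂ (RingHom.id _) x
      (Fb (G.u.map φ) (fun j => (G.lam j).map φ) (fun j => (G.w j).map φ) j) =
      MvPolynomial.eval₂ φ x (Fb G.u G.lam G.w j) := fun x j => by
    rw [← map_Fb, MvPolynomial.eval₂_map, RingHom.id_comp]
  obtain ⟨x, k1, k2, k3⟩ := gloc_cube (flt_SL (p := p) L' 𝒞.π_lt) G.pos _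
    (fun i => mkS 0 0 fun j => sb (G.a i j))
    (fun i j m => gdefs_mkS (fun F => F.coeff m ∈ fI L' 𝒞.π_lt (k i)) (zero_mem _) (zero_mem _)
      (fun j => gloc_coeff hL hφ' s1 s2 (G.mem i j) m) j)
    (fun j => gdefs_mkS (fun F => MvPolynomial.eval₂ (RingHom.id _) x₀ F ∈ fI L' 𝒞.π_lt 1)
      (by
        rw [MvPolynomial.eval₂_sub, MvPolynomial.eval₂_X, MvPolynomial.eval₂_C, hs₀,
          RingHom.id_apply, sub_self]
        exact zero_mem _)
      (by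
        rw [h1, MvPolynomial.eval₂_sub, MvPolynomial.eval₂_X, eval₂_emb, map_sub, map_ev2,
          RingHom.id_comp, ← RingHom.comp_assoc, hφ, rL_inc, hx₀, hx₀, h.s, sub_zero]
        simp only [hx₀]
        exact h.th)
      (fun j => by
        rw [h1, MvPolynomial.eval₂_add, e2, s3 _ hs₀, ← MvPolynomial.eval₂_add,
          MvPolynomial.hom_eval₂, hφ, funext hx₀, MvPolynomial.eval₂_add,
          (mI_res (G.mem₀ j) h.s).1, add_zero]
        rcases j with _ | j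
        · rw [Fb, eval₂_up]
          exact h.t
        · rw [Fb, MvPolynomial.eval₂_mul, MvPolynomial.eval₂_sub, eval₂_up, eval₂_up,
            MvPolynomial.eval₂_X]
          exact h.y j) j) hj
  have k4 : ∀ A, x A vs = ⟨PowerSeries.X, X_mem_SL⟩ := fun A => by
    have := k1 A vs
    change MvPolynomial.eval₂ _ _ (MvPolynomial.X vs - MvPolynomial.C _ + ∑ _i ∈ A, 0) = 0 at this
    rwa [Finset.sum_const_zero, add_zero, MvPolynomial.eval₂_sub, MvPolynomial.eval₂_X,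
      MvPolynomial.eval₂_C, sub_eq_zero] at this
  have k5 : ∀ A, G.IsPt A z fun b => (x A b : Λ⟦X⟧) := fun A => by
    refine ⟨fun b => SL_mono le_top (x A b).2, fun b => ?_, congrArg Subtype.val (k4 A), ?_,
      fun j => ?_⟩
    · rw [← hψ, ← hx₀, ← sub_eq_zero, ← map_sub]
      exact (h1 _).1 (k2 A b)
    · have := k1 A vT
      change MvPolynomial.eval₂ _ _ (emb _ _ - MvPolynomial.X vs + ∑ _i ∈ A, 0) = 0 at this
      rw [Finset.sum_const_zero, add_zero, MvPolynomial.eval₂_sub, MvPolynomial.eval₂_X,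
        eval₂_emb, sub_eq_zero, k4, RingHom.id_comp] at this
      have h2 := congrArg (SL L').subtype this
      rwa [map_ev2, hφ''] at h2
    · have : MvPolynomial.eval₂ (RingHom.id _) (x A)
          (Fb (G.u.map φ) (fun j => (G.lam j).map φ) (fun j => (G.w j).map φ) j + sb (G.a₀ j) +
            ∑ i ∈ A, sb (G.a i j)) = 0 := by
        rcases j with _ | j
        · exact k1 A vt
        · exact k1 A (vy j)
      rw [add_assoc, ← map_sum, ← map_add, MvPolynomial.eval₂_add, e2, s3 _ (k4 A),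
        ← MvPolynomial.eval₂_add] at this
      have h2 := congrArg (SL L').subtype this
      rwa [MvPolynomial.hom_eval₂, hφ', map_zero] at h2
  have k6 : ∀ A, G.pt A z = fun b => (x A b : Λ⟦X⟧) := fun A => (k5 A).eq_pt h
  refine ⟨fun A => ?_, fun b => ?_⟩
  · rw [k6]
    exact ⟨k5 A, fun b => (x A b).2⟩
  · simp only [k6]
    exact (k3 b).map (SL L').subtype.toAddMonoidHom fun n y hy => hy

include p in
theorem IsPt.gal {x : Vr 𝒞.d → Λ⟦X⟧} (h : G.IsPt A z x) {σ : Λ ≃ₐ[K] Λ} (hσ : Fix L σ) :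
    G.IsPt A (fun b => rs (σ (c0 (x b)))) fun b => gS σ (x b) := by
  have e : ∀ {M : IntermediateField K Λ}, Fix M σ → (gS σ).comp (cS M) = cS M := fun hM =>
    RingHom.ext fun c => gS_eq hM (cS_mem le_rfl c)
  refine ⟨fun b => gS_mem_top (p := p) σ (h.mem b), fun b => rfl, ?_, ?_, fun j => ?_⟩
  · rw [h.s, PowerSeries.map_X]
  · have := congrArg (gS σ) h.th
    rwa [map_ev2, e (hσ.mono hB), PowerSeries.map_X] at this
  · have := congrArg (gS σ) (h.eq j)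
    rwa [MvPolynomial.hom_eval₂, e hσ, map_zero] at this

/-- the first order term of the cube -/
theorem RZ.delta (h : G.RZ z) (hL : L ≤ L') {i : ι} {x x₀ x₁ : Vr 𝒞.d → Λ⟦X⟧}
    (h₀ : G.IsPt ∅ z x₀) (h₁ : G.IsPt {i} z x₁) (m₀ : ∀ b, x₀ b ∈ SL L')
    (m₁ : ∀ b, x₁ b - x₀ b ∈ fS L' (𝒞.π : Λ) (k i)) (hx : ∀ b, x b - x₀ b ∈ fS L' (𝒞.π : Λ) 1)
    (hs : x vs = PowerSeries.X) {θ : Λ⟦X⟧} {v : Fin 𝒞.d → Λ⟦X⟧} (hθ : θ ∈ fS L' (𝒞.π : Λ) (k i))
    (hv : v ∈ 𝒞.fl L' (k i)) (hl : G.Lin L' i x θ v) :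
    (fun j => x₁ (vy j) - x₀ (vy j)) - v ∈ 𝒞.fl L' (k i + 1) := by
  have hπ := 𝒞.π_lt
  have hk := G.pos i
  have hc := cS_mem (L := L) hL
  have mx : ∀ b, x b ∈ SL L' := fun b => by
    have := add_mem (fS_le hπ (hx b)) (m₀ b)
    rwa [sub_add_cancel] at this
  have mx₁ : ∀ b, x₁ b ∈ SL L' := fun b => by
    have := add_mem (fS_le hπ (m₁ b)) (m₀ b)
    rwa [sub_add_cancel] at this
  have hx₁ : ∀ b, x₁ b - x b ∈ fS L' (𝒞.π : Λ) 1 := fun b => by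
    have := sub_mem (fS_anti hπ hk (m₁ b)) (hx b)
    rwa [sub_sub_sub_cancel_right] at this
  have rx : ∀ b, rs (c0 (x b)) = z b := fun b => by
    rw [← h₀.res b, rs_eq_iff (c0_mem (mx b)).2 (c0_mem (m₀ b)).2, ← map_sub]
    exact c0_lt hπ (hx b)
  have e0 : ∀ (f : (OL L)[X]) b, f.eval₂ (cS L) (x b) ∈ SL L' ∧
      rs (c0 (f.eval₂ (cS L) (x b))) = f.eval₂ (rL L) (z b) := fun f b => by
    refine ⟨eval₂_mem_SL hc (mx b) f, ?_⟩
    rw [hom_eval₂, ← rx]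
    exact rs_eval₂ (fun c => by simpa using (mem_OL.1 c.2).2) (fun c => by simp [rL_apply])
      (c0_mem (mx b)).2 f
  have e1 : ∀ (f : (OL L)[X]) b, f.eval₂ (cS L) (x₁ b) - f.eval₂ (cS L) (x₀ b) -
      (derivative f).eval₂ (cS L) (x b) * (x₁ b - x₀ b) ∈ fS L' (𝒞.π : Λ) (k i + 1) :=
    fun f b => by
      have h1 := eval₂_taylor_mem hπ hc (m₀ b) hk (m₁ b) f
      have h2 := fS_mul hπ (m₁ b) (eval₂_sub_mem hπ hc (m₀ b) (hx b) (derivative f))
      have h3 := sub_mem h1 h2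
      rwa [show ∀ a b c d e : Λ⟦X⟧, a - b - c * d - d * (e - c) = a - b - e * d from
        fun _ _ _ _ _ => by ring] at h3
  have e2 : ∀ j, MvPolynomial.eval₂ (cS L) x₁ (Fb G.u G.lam G.w j) -
      MvPolynomial.eval₂ (cS L) x₀ (Fb G.u G.lam G.w j) +
      MvPolynomial.eval₂ (cS L) x (G.a i j) ∈ fS L' (𝒞.π : Λ) (k i + 1) := fun j => by
    have h1 := h₀.eq j
    have h2 := h₁.eq j
    rw [Fe, per, Finset.sum_empty, add_zero, MvPolynomial.eval₂_add] at h1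
    rw [Fe, per, Finset.sum_singleton, MvPolynomial.eval₂_add, MvPolynomial.eval₂_add] at h2
    have h3 := mI_eval_sub (n := 1) hL ((pow_one (𝒞.mI hB)).symm ▸ G.mem₀ j) m₀ h₀.s h₁.s m₁
    have h4 := mI_eval_sub hL (G.mem i j) mx hs h₁.s hx₁
    rw [add_comm] at h3
    have h5 := neg_mem (add_mem h3 h4)
    rwa [show ∀ a b c d : Λ⟦X⟧, -(a - b + (c - d)) = -(a + c) - -b + d from
      fun _ _ _ _ => by ring, ← eq_neg_of_add_eq_zero_left h1,
      ← eq_neg_of_add_eq_zero_left h2] at h5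
  obtain ⟨-, g2, g3⟩ := G.good (z vt) (fun j => z (vy j)) h.t h.y
  have hτ : x₁ vt - x₀ vt - θ ∈ fS L' (𝒞.π : Λ) (k i + 1) := by
    refine fS_cancel hπ (e0 (derivative G.u) vt).1 (rs_ne_zero.1 ((e0 _ _).2 ▸ g2)) ?_
    have h1 := e2 none
    rw [Fb, eval₂_up, eval₂_up] at h1
    have h2 := sub_mem (sub_mem h1 (e1 G.u vt)) hl.1
    rwa [show ∀ a b c d e f : Λ⟦X⟧, a - b + c - (a - b - d * e) - (d * f + c) = d * (e - f) from
      fun _ _ _ _ _ _ => by ring] at h2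
  refine mem_fl.2 fun j => ?_
  have m1 : x (vy j) - (G.lam j).eval₂ (cS L) (x vt) ∈ SL L' := sub_mem (mx _) (e0 _ _).1
  have m2 := mul_mem m1 (e0 (derivative (G.w j)) (vy j)).1
  refine fS_cancel hπ (add_mem (e0 (G.w j) (vy j)).1 m2) (rs_ne_zero.1 ?_) ?_
  · rw [map_add, rs_add (c0_mem (e0 _ _).1).2 (c0_mem m2).2, map_mul,
      rs_mul (c0_mem m1).2 (c0_mem (e0 _ _).1).2, map_sub,
      rs_sub (c0_mem (mx _)).2 (c0_mem (e0 _ _).1).2, (e0 _ _).2, (e0 _ _).2, (e0 _ _).2, rx]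
    exact g3 j
  · have h1 := e2 (some j)
    simp only [Fb, MvPolynomial.eval₂_mul, MvPolynomial.eval₂_sub, eval₂_up,
      MvPolynomial.eval₂_X] at h1
    have a1 := e1 (G.lam j) vt
    have a2 := e1 (G.w j) (vy j)
    have a3 : x₁ (vy j) - x₀ (vy j) - ((G.lam j).eval₂ (cS L) (x₁ vt) -
        (G.lam j).eval₂ (cS L) (x₀ vt)) ∈ fS L' (𝒞.π : Λ) (k i) :=
      sub_mem (m₁ _) (eval₂_sub_mem hπ hc (m₀ _) (m₁ _) _)
    have a4 := fS_mul hπ a3 (eval₂_sub_mem hπ hc (mx _) (hx₁ (vy j)) (G.w j))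
    have a5 := fS_mul hπ (eval₂_sub_mem hπ hc (m₀ _) (m₁ (vy j)) (G.w j))
      (sub_mem (hx (vy j)) (eval₂_sub_mem hπ hc (m₀ _) (hx vt) (G.lam j)))
    have a6 := fS_mul_left hπ (e0 (G.w j) (vy j)).1 a1
    have a7 := fS_mul_left hπ m1 a2
    have a8 := fS_mul_left hπ (mul_mem (e0 (G.w j) (vy j)).1 (e0 (derivative (G.lam j)) vt).1) hτ
    have := add_mem (add_mem (sub_mem (add_mem (sub_mem (sub_mem h1 (hl.2 j)) a4) a5) a7) a6) a8
    refine (congrArg (· ∈ _) ?_).mp this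
    simp only [Pi.sub_apply]
    ring

end

variable {T : Tower p B} {n m : ℕ} {G : 𝒞.GD (T.le n) k} {A : Finset ι} {z : Vr 𝒞.d → kk Λ}

variable (𝒞 T n) in
/-- the Frobenius on points -/
noncomputable def frz (z : Vr 𝒞.d → kk Λ) : Vr 𝒞.d → kk Λ := fun b => fr (kk Λ) p (T.r * n) (z b)

theorem frz_iter (c : ℕ) (z : Vr 𝒞.d → kk Λ) : (frz 𝒞 T n)^[c] z = frz 𝒞 T (n * c) z := by
  funext b
  induction c with
  | zero => simp [frz, fr_apply]
  | succ c ih =>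
    rw [Function.iterate_succ_apply', frz, ih, frz, frz, fr_apply, fr_apply, fr_apply, ← pow_mul,
      ← pow_add, mul_add, mul_add, mul_one]
theorem frz_inj : Function.Injective (frz 𝒞 T n) :=
  fun _ _ h => funext fun b => (fr (kk Λ) p (T.r * n)).injective (congrFun h b)
theorem exists_frz (z : Vr 𝒞.d → kk Λ) (hn : 0 < n) : ∃ c, 0 < c ∧ frz 𝒞 T (n * c) z = z := by
  obtain ⟨c, hc, h⟩ := T.exists_fixed_finset (Finset.univ.image z)
  refine ⟨c, hc, funext fun b => ?_⟩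
  rw [frz, mul_comm n, ← mul_assoc]
  exact fr_fixed_mul (h _ (Finset.mem_image_of_mem _ (Finset.mem_univ b))) n
theorem RZ.frz (h : G.RZ z) (hn : 0 < n) : G.RZ (frz 𝒞 T n z) := by
  have e : ∀ (f : (OL (T.U n))[X]) b, f.eval₂ (rL _) (GD.frz 𝒞 T n z b) =
      fr (kk Λ) p (T.r * n) (f.eval₂ (rL _) (z b)) := fun f b => by
    rw [hom_eval₂, T.fr_rL hn, GD.frz]
  refine ⟨by rw [GD.frz, h.s, map_zero], by rw [e, h.t, map_zero], fun j => ?_,
    (h.gk.fr T n).on⟩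
  rw [e, e, GD.frz, ← map_sub, ← map_mul, h.y j, map_zero]

/-- the description of the branches that are defined over `U m` -/
structure Mov (G : 𝒞.GD (T.le n) k) (m : ℕ) (z : Vr 𝒞.d → kk Λ) : Prop where
  isPt : ∀ A, G.IsPt A z (G.pt A z)
  mem : ∀ A b, G.pt A z b ∈ SL (T.U m)
  cube : ∀ b, IsCube (fS (T.U m) (𝒞.π : Λ)) k fun A => G.pt A z b
  gs : ∀ A, 𝒞.GS (T.U m) (G.py A z) (G.ph z)
  res : rs (G.ph z) = z vT

theorem RZ.mov (h : G.RZ z) (hn : 0 < n) (hm : 0 < m) (hd : n ∣ m) (hz : GD.frz 𝒞 T m z = z) :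
    G.Mov m z := by
  have := T.fin m hm
  obtain ⟨h1, h2⟩ := h.exists_cube (p := p) (T.mono hn hm hd) (unrF hm)
    fun b => T.exists_lift hm (congrFun hz b)
  have h3 : rs (G.ph z) = z vT := (h1 ∅).1.res vT
  refine ⟨fun A => (h1 A).1, fun A => (h1 A).2, h2, fun A => ⟨fun j => (h1 A).2 _,
    c0_mem ((h1 ∅).2 _), ?_⟩, h3⟩
  rw [h3, show (fun j => rs (c0 (G.py A z j))) = fun j => z (vy j) from
    funext fun j => (h1 A).1.res _]
  exact h.gk
theorem RZ.isPt (h : G.RZ z) (hn : 0 < n) (A : Finset ι) : G.IsPt A z (G.pt A z) := by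
  obtain ⟨c, hc, e⟩ := exists_frz z hn
  exact (h.mov hn (Nat.mul_pos hn hc) (dvd_mul_right _ _) e).isPt A
theorem RZ.pt_frz (h : G.RZ z) (hn : 0 < n) (A : Finset ι) (b : Vr 𝒞.d) :
    G.pt A (GD.frz 𝒞 T n z) b = gS (T.φ ^ n) (G.pt A z b) := by
  have h1 := (h.isPt hn A).gal (p := p) (T.fix_U n hn)
  rw [show (fun b => rs ((T.φ ^ n) (c0 (G.pt A z b)))) = GD.frz 𝒞 T n z from
    funext fun b => by rw [T.rs_φ, (h.isPt hn A).res, GD.frz]] at h1
  exact congrFun (h1.eq_pt (h.frz hn)) b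
theorem RZ.cyc_frz (h : G.RZ z) (hn : 0 < n) :
    G.cyc (GD.frz 𝒞 T n z) = galC (T.φ ^ n) (G.cyc z) := by
  obtain ⟨c, hc, e⟩ := exists_frz z hn
  have hm := Nat.mul_pos hn hc
  have h1 := h.mov hn hm (dvd_mul_right _ _) e
  have := T.fin _ hm
  rw [cyc, cyc, map_alt, map_alt, map_alt]
  refine congrArg alt (funext fun A => ?_)
  rw [Jm_sg, Jm_sg, ← (h1.gs A).Qc_gal (p := p) (T.le _) (unrF hm) ((T.fix_U n hn).mono (T.le n))]
  congr 1
  · rw [ph, h.pt_frz hn]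
    rfl
  · exact funext fun j => h.pt_frz hn A _
theorem Mov.cyc_mem (h : G.Mov m z) :
    clL J (T.U m) (G.cyc z) ∈ 𝒞.Sig T m (Fintype.card ι) (∑ i, k i) :=
  mem_Sig (h.gs ∅) ((isCube_pi fun j => h.cube (vy j)).alt_mem fl_anti G.pos
    ((sub_self (G.py ∅ z)).symm ▸ zero_mem _))
theorem Mov.cyc_sub (h : G.Mov m z) : clL J (T.U m) (G.cyc z) - clL J (T.U m)
    (𝒞.Jm (G.ph z) (sg (G.py ∅ z) * ∏ i, dl (G.py {i} z - G.py ∅ z))) ∈
      𝒞.Sig T m (Fintype.card ι - 1) (∑ i, k i) := by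
  rw [cyc, ← map_sub, ← map_sub]
  exact mem_Sig (h.gs ∅) ((isCube_pi fun j => h.cube (vy j)).alt_sub fl_anti G.pos
    ((sub_self (G.py ∅ z)).symm ▸ zero_mem _))
/-- a point at which one perturbation vanishes to higher order -/
theorem Mov.raised (h : G.Mov m z) (hz : G.RZ z) (hn : 0 < n) (hm : 0 < m) (hd : n ∣ m) {i : ι}
    (hi : ∀ j, ∃ P Θ, G.a i j = P * Θ ∧ P ∈ 𝒞.mI (T.le n) ^ k i ∧
      MvPolynomial.eval₂ (rL _) z Θ = 0) : clL J (T.U m) (G.cyc z) ∈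
        𝒞.FF T (Fintype.card ι - 1) (∑ i, k i) ⊔ 𝒞.FF T (Fintype.card ι) (∑ i, k i + 1) := by
  have hL := T.mono hn hm hd
  have h0 : ∀ j, MvPolynomial.eval₂ (cS _) (G.pt ∅ z) (G.a i j) ∈
      fS (T.U m) (𝒞.π : Λ) (k i + 1) := fun j => by
    obtain ⟨P, Θ, e, hP, hΘ⟩ := hi j
    have h1 := mv_mem_SL (cS_mem hL) (h.mem ∅) Θ
    rw [e, MvPolynomial.eval₂_mul]
    refine fS_mul 𝒞.π_lt (mI_eval hL hP (h.mem ∅) (h.isPt ∅).s) (fS_one (unrF hm) h1 ?_)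
    rw [← rs_eq_zero (c0_mem h1).2, MvPolynomial.hom_eval₂, (rs_mv (ψ := rL _)
      (fun c => by simpa using (mem_OL.1 c.2).2) (fun c => by simp [rL_apply])
      (fun b => (c0_mem (h.mem ∅ b)).2) Θ).2, funext (h.isPt ∅).res, hΘ]
  have h1 := hz.delta hL (h.isPt ∅) (h.isPt {i}) (h.mem ∅) (fun b => (h.cube b).sub_mem i)
    (x := G.pt ∅ z) (fun b => by rw [sub_self]; exact zero_mem _) (h.isPt ∅).s (zero_mem _)
    (zero_mem _) ⟨by simpa using h0 none, fun j => by simpa using h0 (some j)⟩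
  rw [sub_zero] at h1
  have h2 := mem_Sig (J := J) (h.gs ∅) (gen_mem_raised fl_anti (y := G.py ∅ z)
    (by rw [sub_self]; exact zero_mem _) (v := fun i => G.py {i} z - G.py ∅ z) G.pos
    (fun i => (isCube_pi fun j => h.cube (vy j)).sub_mem i) (i₀ := i) h1)
  have h3 := add_mem (AddSubgroup.mem_sup_left (Sig_le_FF hm h.cyc_sub))
    (AddSubgroup.mem_sup_right (Sig_le_FF hm h2))
  rwa [sub_add_cancel] at h3

end QChart.GD

end Pool.Agent.ZeroCyc
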