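import Pool.Agent.Lib.MP_796ce4_ag.ZQ.HSp
import Pool.Agent.Lib.MP_796ce4_ag.ZY.MR

/-! The zero sets of two systems with one common equation are rationally equivalent. -/

namespace Pool.Agent.ZeroCyc

open Polynomial Module
open scoped Classical IntermediateField PowerSeries

set_option linter.unusedSectionVars false

variable {σ : Type} [Fintype σ]

theorem hmr_sep {k Λ : Type} [Field k] [CharZero k] [Field Λ] (ι : k →+* Λ)
    (Z : Finset (σ → Λ)) : ∃ θ : σ → k, Set.InjOn (thv ι θ) Z := by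
  let f : (σ → Λ) × (σ → Λ) → MvPolynomial σ Λ := fun z =>
    ∑ j, MvPolynomial.C (z.1 j - z.2 j) * MvPolynomial.X j
  have hf : ∀ z x, MvPolynomial.eval x (f z) = ∑ j, (z.1 j - z.2 j) * x j := fun z x => by
    simp [f]
  have h0 : ∏ z ∈ Z.offDiag, f z ≠ 0 := Finset.prod_ne_zero_iff.2 fun z hz e => by
    refine (Finset.mem_offDiag.1 hz).2.2 (funext fun j => sub_eq_zero.1 ?_)
    have := hf z (Pi.single j 1)
    rw [e, map_zero] at this
    simpa [Pi.single_apply] using this.symm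
  by_contra hc
  refine h0 (MvPolynomial.funext_set (fun _ => Set.range ι)
    (fun _ => Set.infinite_range_of_injective ι.injective) fun x hx => ?_)
  choose θ hθ using fun j => hx j trivial
  rw [map_zero, map_prod]
  by_contra h1
  refine hc ⟨θ, fun z hz z' hz' e => ?_⟩
  by_contra h2
  refine h1 (Finset.prod_eq_zero (i := (z, z')) (Finset.mem_offDiag.2 ⟨hz, hz', h2⟩) ?_)
  rw [hf]
  simp only [thv, hθ] at e
  simp only [mul_comm _ (x _), mul_sub, Finset.sum_sub_distrib]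
  exact sub_eq_zero.2 e

/-- substitution of fractions with a common denominator -/
noncomputable def hmrH {R S : Type} [CommRing R] [CommRing S] (φ : R →+* S) (P : σ → S) (D : S)
    (n : ℕ) (q : MvPolynomial σ R) : S :=
  ∑ m ∈ q.support, φ (q.coeff m) * (∏ j, P j ^ m j) * D ^ (n - ∑ j, m j)

theorem hmr_eval {R S T : Type} [CommRing R] [CommRing S] [CommRing T] (φ : R →+* S) (P : σ → S)
    (D : S) {n : ℕ} {q : MvPolynomial σ R} (hn : q.totalDegree ≤ n) (ψ : S →+* T) {z : σ → T}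
    (hz : ∀ j, ψ (P j) = z j * ψ D) :
    ψ (hmrH φ P D n q) = ψ D ^ n * MvPolynomial.eval₂ (ψ.comp φ) z q := by
  rw [hmrH, map_sum, MvPolynomial.eval₂_eq', Finset.mul_sum]
  refine Finset.sum_congr rfl fun m hm => ?_
  have h1 : ∑ j, m j ≤ n := by
    refine le_trans (le_of_eq ?_) ((MvPolynomial.le_totalDegree hm).trans hn)
    rw [Finsupp.sum_fintype _ _ fun _ => rfl]
  obtain ⟨r, hr⟩ := Nat.exists_eq_add_of_le h1
  simp only [map_mul, map_prod, map_pow, hz, mul_pow, Finset.prod_mul_distrib,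
    Finset.prod_pow_eq_pow_sum, RingHom.comp_apply]
  rw [hr, Nat.add_sub_cancel_left, pow_add]
  ring

theorem hmr_wt {R : Type} [CommRing R] {Ψ : R[X][X]} (h : Ψ.Monic) :
    ∃ b, Wt b Ψ.natDegree Ψ := by
  refine ⟨Ψ.support.sup fun i => (Ψ.coeff i).natDegree, h, rfl, fun i j e => ?_⟩
  have h0 : Ψ.coeff i ≠ 0 := fun e' => e (by rw [e', coeff_zero])
  have h1 : j ≤ Ψ.support.sup fun i => (Ψ.coeff i).natDegree :=
    (le_natDegree_of_ne_zero e).trans
      (Finset.le_sup (f := fun i => (Ψ.coeff i).natDegree) (mem_support_iff.2 h0))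
  rcases (le_natDegree_of_ne_zero h0).eq_or_lt with h2 | h2
  · rw [h2, h.coeff_natDegree, coeff_one] at e
    rw [h2, show j = 0 by by_contra h3; exact e (if_neg h3)]
    omega
  · have := Nat.mul_le_mul_left (Ψ.support.sup fun i => (Ψ.coeff i).natDegree)
      (Nat.succ_le_of_lt h2)
    rw [Nat.mul_succ] at this
    omega

/-- a polynomial that vanishes at all etale points of a reduced curve vanishes on the curve -/
theorem dvd_of_et {Λ : Type} [Field Λ] [IsAlgClosed Λ] {b δ : ℕ} {χ G : Λ[X][X]} (hχ : Wt b δ χ)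
    {t : Λ} (ht : ∀ y, On χ (t, y) → Et χ (t, y)) (h : ∀ Q, Et χ Q → ee Q G = 0) : χ ∣ G := by
  set ρ := resultant χ (derivative χ) δ δ with hρ
  have key : ∀ s, ρ.eval s ≠ 0 ↔ ∀ y, On χ (s, y) → Et χ (s, y) := fun s => by
    have hm := hχ.monic.map (evalRingHom s)
    have hd : (χ.map (evalRingHom s)).natDegree = δ := by rw [hχ.monic.natDegree_map, hχ.deg]
    have h1 := cvr_res_ne (g := (derivative χ).map (evalRingHom s)) hm (n := δ)
      (natDegree_map_le.trans ((natDegree_derivative_le χ).trans (by rw [hχ.deg]; omega)))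
    rw [hd, resultant_map_map] at h1
    refine h1.trans (forall_congr' fun y => ?_)
    simp only [On, Et, ee_eq_eval]
    exact ⟨fun a b => ⟨b, a b⟩, fun a b => (a b).2⟩
  have h0 : ρ ≠ 0 := fun e => (key t).2 ht (by rw [e, eval_zero])
  rw [← modByMonic_eq_zero_iff_dvd hχ.monic]
  ext1 i
  refine (mul_eq_zero.1 (Polynomial.funext (p := ρ * (G %ₘ χ).coeff i) (q := 0)
    fun s => ?_)).resolve_left h0
  rw [eval_mul, eval_zero]
  by_cases hs : ρ.eval s = 0
  · rw [hs, zero_mul]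
  have hE := (key s).1 hs
  obtain ⟨F, hF, hmem, -⟩ := card_fibre hχ hE
  have h2 : (G %ₘ χ).map (evalRingHom s) = 0 := by
    refine eq_zero_of_degree_lt_of_eval_finset_eq_zero F (degree_map_le.trans_lt ?_) fun y hy => ?_
    · rw [hF, ← hχ.deg, ← degree_eq_natDegree hχ.monic.ne_zero]
      exact degree_modByMonic_lt _ hχ.monic
    · have e := hE y ((hmem y).1 hy)
      have h3 := congrArg (ee (s, y)) (modByMonic_add_div G χ)
      rw [map_add, map_mul, e.1, zero_mul, add_zero, h _ e, ee_eq_eval] at h3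
      exact h3
  have h4 := congrArg (fun g => coeff g i) h2
  simp only [coeff_map, coeff_zero] at h4
  rw [show eval s ((G %ₘ χ).coeff i) = 0 from h4, mul_zero]

/-- the set of zeros of a system: all simple, and the map `q` is defined at them -/
structure SZ {R Λ : Type} [CommRing R] [Field Λ] {N : ℕ} (φ : R →+* Λ) (F : σ → MvPolynomial σ R)
    (q : Fin (N + 1) → MvPolynomial σ R) (Z : Finset (σ → Λ)) : Prop where
  mem : ∀ z, z ∈ Z ↔ ∀ j, MvPolynomial.eval₂ φ z (F j) = 0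
  simple : ∀ z ∈ Z, ∀ v, (jac φ F z).mulVec v = 0 → v = 0
  ne : ∀ z ∈ Z, (fun i => MvPolynomial.eval₂ φ z (q i)) ≠ 0

variable {K Λ : Type} [Field K] [CharZero K] [Field Λ] [IsAlgClosed Λ] [Algebra K Λ] [IsGalois K Λ]
  {N : ℕ} {J : Ideal (MvPolynomial (Fin (N + 1)) K)} {L : IntermediateField K Λ}
  [FiniteDimensional K L] {w M : σ → ℕ}

theorem hmr_field {F F' : σ → MvPolynomial σ L} {q : Fin (N + 1) → MvPolynomial σ L}
    (hF : Sys w M F) (hF' : Sys w M F') {j₀ : σ} (h0 : F j₀ = F' j₀)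
    (hsm : ∀ (v : Fin (N + 1) → Λ) (c : Λ), OnX J v → OnX J (c • v))
    (hon : ∀ z : σ → Λ, MvPolynomial.eval₂ (algebraMap L Λ) z (F j₀) = 0 →
      OnX J fun i => MvPolynomial.eval₂ (algebraMap L Λ) z (q i))
    {Z Z' : Finset (σ → Λ)} (hZ : SZ (algebraMap L Λ) F q Z) (hZ' : SZ (algebraMap L Λ) F' q Z') :
    clL J L (∑ z ∈ Z, Finsupp.single (pj fun i => MvPolynomial.eval₂ (algebraMap L Λ) z (q i)) 1) =
      clL J L (∑ z ∈ Z',
        Finsupp.single (pj fun i => MvPolynomial.eval₂ (algebraMap L Λ) z (q i)) 1) := by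
  set ι := algebraMap L Λ with hι
  have : CharZero L := charZero_of_injective_algebraMap (algebraMap K L).injective
  obtain ⟨θ, hθ⟩ := hmr_sep ι (Z ∪ Z')
  obtain ⟨Ψ, P, hm, h1, h2⟩ := exists_plane ι (hF.pencil hF') θ
  obtain ⟨b, hb⟩ := hmr_wt hm
  set n := Finset.univ.sup fun i => (q i).totalDegree with hn
  set q' : Fin (N + 1) → L[X][X] := fun i => hmrH (C.comp C) P (derivative Ψ) n (q i) with hq'
  have hC : ∀ s : Λ, (eval₂RingHom ι s).comp C = ι := fun s => RingHom.ext fun c => eval₂_C _ _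
  have hpt : ∀ Q : Λ × Λ, On (mp ι Ψ) Q → ∃ z : σ → Λ,
      (∀ i, MvPolynomial.eval₂ (eval₂RingHom ι Q.1) z (pencil F F' i) = 0) ∧ thv ι θ z = Q.2 ∧
      (fun i => ee Q (mp ι (q' i))) = ee Q (derivative (mp ι Ψ)) ^ n •
        fun i => MvPolynomial.eval₂ ι z (q i) := by
    intro Q hQ
    obtain ⟨z, e1, e2', e3⟩ := h1 Q.1 Q.2 (by rw [← ee_mp]; exact hQ)
    refine ⟨z, e1, e2', funext fun i => ?_⟩
    rw [← mp_derivative, ee_mp, ee_mp, hq', hmr_eval _ _ _
      (Finset.le_sup (f := fun i => (q i).totalDegree) (Finset.mem_univ i)) _ e3]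
    congr 2
    exact RingHom.ext fun c => by rw [RingHom.comp_apply, RingHom.comp_apply, e2_C, eval₂_C]
  have hfib : ∀ (s : L) (G : σ → MvPolynomial σ L) (Y : Finset (σ → Λ)), SZ ι G q Y →
      Set.InjOn (thv ι θ) Y →
      (∀ z i, MvPolynomial.eval₂ (eval₂RingHom ι (ι s)) z (pencil F F' i) =
        MvPolynomial.eval₂ ι z (G i)) →
      (∀ z, jac (eval₂RingHom ι (ι s)) (pencil F F') z = jac ι G z) →
      Adm (mp ι Ψ) (mp ι (C (X - C s))) ∧
      (∀ Q, On (mp ι Ψ) Q → ee Q (mp ι (C (X - C s))) = 0 → (fun i => ee Q (mp ι (q' i))) ≠ 0) ∧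
      psh (fun Q => pj fun i => ee Q (mp ι (q' i))) (dv (mp ι Ψ) (mp ι (C (X - C s)))) =
        ∑ z ∈ Y, Finsupp.single (pj fun i => MvPolynomial.eval₂ ι z (q i)) 1 := by
    intro s G Y hY hinj e1 e2'
    have hE := h2 (ι s) Y (fun z => by rw [hY.mem]; simp only [e1]) (fun z hz => by
      rw [e2', Ne, ← Matrix.exists_mulVec_eq_zero_iff]
      rintro ⟨v, hv, h3⟩
      exact hv (hY.simple z hz v h3)) hinj
    have hev : ∀ (x : Λ) (a : L[X][X]), ee (ι s, x) (mp ι a) =
        (a.map (eval₂RingHom ι (ι s))).eval x := fun x a => by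
      rw [ee_mp, eval_map]
      rfl
    have het : ∀ z ∈ Y, Et (mp ι Ψ) (ι s, thv ι θ z) := fun z hz => by
      refine ⟨?_, ?_⟩
      · rw [hev, hE, hspE, eval_prod]
        exact Finset.prod_eq_zero hz (by simp)
      · rw [← mp_derivative, hev, ← derivative_map, hE]
        exact hspE_der_ne hinj hz
    have hG : ∀ Q : Λ × Λ, ee Q (mp ι (C (X - C s))) = Q.1 - ι s := fun Q => by
      rw [mp_C, ee_C]
      simp
    have hld : Lead b 1 (mp ι (C (X - C s))) := by
      have := (lead_C (b := b) (monic_X_sub_C s)).map ι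
      rwa [natDegree_X_sub_C] at this
    have hdeg : Ψ.natDegree = Y.card := by
      rw [← hm.natDegree_map (eval₂RingHom ι (ι s)), hE, hspE, natDegree_finsetProd_X_sub_C_eq_card]
    obtain ⟨e3, e4⟩ := hld.dv_eq (hb.map ι) (vanZ_sum (hm.map _) (s := Y)
      (P := fun z => (ι s, thv ι θ z)) (fun z hz z' hz' e => hinj hz hz' (congrArg Prod.snd e))
      fun z hz => ⟨het z hz, by rw [hG, sub_self]⟩) (by simp [hdeg])
    have hq : ∀ z ∈ Y, (fun i => ee (ι s, thv ι θ z) (mp ι (q' i))) =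
        ee (ι s, thv ι θ z) (derivative (mp ι Ψ)) ^ n • fun i => MvPolynomial.eval₂ ι z (q i) := by
      intro z hz
      obtain ⟨z', a1, a2, a3⟩ := hpt _ (het z hz).1
      rw [a3, hinj ((hY.mem z').2 fun j => (e1 z' j).symm.trans (a1 j)) hz a2]
    refine ⟨e4, fun Q hQ h3 => ?_, ?_⟩
    · have h4 := e4 Q hQ h3
      obtain ⟨z, a1, -, a3⟩ := hpt Q hQ
      rw [hG, sub_eq_zero] at h3
      rw [h3] at a1
      rw [a3]
      exact smul_ne_zero (pow_ne_zero _ h4.2)
        (hY.ne z ((hY.mem z).2 fun j => (e1 z j).symm.trans (a1 j)))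
    · rw [e3, map_sum]
      refine Finset.sum_congr rfl fun z hz => ?_
      rw [psh_single, hq z hz, pj_smul (pow_ne_zero _ (het z hz).2)]
  obtain ⟨a1, a2, a3⟩ := hfib 0 F Z hZ (hθ.mono (by simp))
    (fun z i => by rw [eval₂_pencil, hC]; simp) fun z => by rw [jac_pencil, hC]; simp
  obtain ⟨b1, b2, b3⟩ := hfib 1 F' Z' hZ' (hθ.mono (by simp))
    (fun z i => by rw [eval₂_pencil, hC]; simp) fun z => by rw [jac_pencil, hC]; simp
  have hld : ∀ s : L, Lead b 1 (C (X - C s)) := fun s => by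
    have := lead_C (b := b) (monic_X_sub_C s)
    rwa [natDegree_X_sub_C] at this
  rw [← a3, ← b3]
  refine MR (fun x => x.2) hb (hld 0) (hld 1) (fun G hG => ?_) a1 b1
    fun Q hQ h => h.elim (a2 Q hQ) (b2 Q hQ)
  refine dvd_of_et (hb.map ι) (t := 0) (fun y hy => a1 _ hy (by rw [mp_C, ee_C]; simp))
    fun Q hQ => ?_
  obtain ⟨z, c1, -, c3⟩ := hpt Q hQ.1
  have c4 := c1 j₀
  rw [eval₂_pencil, hC, ← h0, sub_self, mul_zero, add_zero] at c4
  have c5 := hsm _ (ee Q (derivative (mp ι Ψ)) ^ n) (hon z c4) G hG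
  rw [← c3] at c5
  rw [MvPolynomial.map_aeval, ← c5, MvPolynomial.aeval_def, MvPolynomial.coe_eval₂Hom]
  congr 1
  exact RingHom.ext fun c => by
    rw [RingHom.comp_apply, Polynomial.algebraMap_apply, ee_C, Polynomial.algebraMap_apply, eval_C]

/-- the homotopy form of the basic relation -/
theorem MRS {R : Type} [CommRing R] {φ : R →+* Λ} (hφ : ∀ x, φ x ∈ L)
    {F F' : σ → MvPolynomial σ R} {q : Fin (N + 1) → MvPolynomial σ R}
    (hF : Sys w M F) (hF' : Sys w M F') {j₀ : σ} (h0 : F j₀ = F' j₀)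
    (hsm : ∀ (v : Fin (N + 1) → Λ) (c : Λ), OnX J v → OnX J (c • v))
    (hon : ∀ z : σ → Λ, MvPolynomial.eval₂ φ z (F j₀) = 0 →
      OnX J fun i => MvPolynomial.eval₂ φ z (q i))
    {Z Z' : Finset (σ → Λ)} (hZ : SZ φ F q Z) (hZ' : SZ φ F' q Z') :
    clL J L (∑ z ∈ Z, Finsupp.single (pj fun i => MvPolynomial.eval₂ φ z (q i)) 1) =
      clL J L (∑ z ∈ Z', Finsupp.single (pj fun i => MvPolynomial.eval₂ φ z (q i)) 1) := by
  set ψ : R →+* L := φ.codRestrict L hφ with hψ
  have e : ∀ (z : σ → Λ) (a : MvPolynomial σ R), MvPolynomial.eval₂ (algebraMap L Λ) z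
      (MvPolynomial.map ψ a) = MvPolynomial.eval₂ φ z a := fun z a => by
    rw [MvPolynomial.eval₂_map]
    rfl
  have e' : ∀ (G : σ → MvPolynomial σ R) (Y : Finset (σ → Λ)), SZ φ G q Y →
      SZ (algebraMap L Λ) (fun j => MvPolynomial.map ψ (G j)) (fun i => MvPolynomial.map ψ (q i))
        Y := fun G Y hY => ⟨fun z => by simp only [e]; exact hY.mem z, fun z hz v hv =>
    hY.simple z hz v (by
      rw [← hv]
      congr 1
      ext j k
      simp only [jac, Matrix.of_apply, MvPolynomial.pderiv_map, e]),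
    fun z hz => by simp only [e]; exact hY.ne z hz⟩
  have := hmr_field (hF.map ψ) (hF'.map ψ) (j₀ := j₀) (by rw [h0]) hsm
    (fun z hz => by simp only [e] at hz ⊢; exact hon z hz) (e' F Z hZ) (e' F' Z' hZ')
  simpa only [e] using this

end Pool.Agent.ZeroCyc
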