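import Pool.Agent.Lib.MP_796ce4_ag.ZQ.GLoc
import Pool.Agent.Lib.MP_796ce4_ag.ZQ.HMR

/-! The global relation. -/

namespace Pool.Agent.ZeroCyc

open Polynomial Module
open scoped Classical IntermediateField PowerSeries

set_option linter.unusedSectionVars false

/-- the derivative of a polynomial at `x` in the direction `v` -/
noncomputable def grel_D {σ R S : Type} [Fintype σ] [CommRing R] [CommRing S] (φ : R →+* S)
    (x v : σ → S) (P : MvPolynomial σ R) : S :=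
  ∑ a, MvPolynomial.eval₂ φ x (MvPolynomial.pderiv a P) * v a

section ring

variable {σ R S R' : Type} [Fintype σ] [CommRing R] [CommRing S] [CommRing R'] (φ : R →+* S)
  (x v w : σ → S)

theorem grel_row (F : σ → MvPolynomial σ R) (b : σ) :
    (jac φ F x).mulVec v b = grel_D φ x v (F b) := rfl

theorem grel_D_sub (P Q : MvPolynomial σ R) :
    grel_D φ x v (P - Q) = grel_D φ x v P - grel_D φ x v Q := by
  simp only [grel_D, map_sub, MvPolynomial.eval₂_sub, sub_mul, Finset.sum_sub_distrib]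

theorem grel_D_X (b : σ) : grel_D φ x v (MvPolynomial.X b) = v b := by
  unfold grel_D
  rw [Finset.sum_eq_single b]
  · simp
  · intro a _ h
    rw [MvPolynomial.pderiv_X_of_ne h.symm]
    simp
  · simp

theorem grel_D_C (c : R) : grel_D φ x v (MvPolynomial.C c) = 0 := by
  simp [grel_D]

theorem grel_D_map (ψ : R' →+* R) (P : MvPolynomial σ R') :
    grel_D φ x v (MvPolynomial.map ψ P) = grel_D (φ.comp ψ) x v P := by
  simp only [grel_D, MvPolynomial.pderiv_map, MvPolynomial.eval₂_map]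

theorem grel_D_lin (c : S) (P : MvPolynomial σ R) :
    grel_D φ x (v - c • w) P = grel_D φ x v P - c * grel_D φ x w P := by
  simp only [grel_D, Pi.sub_apply, Pi.smul_apply, smul_eq_mul, Finset.mul_sum,
    ← Finset.sum_sub_distrib]
  exact Finset.sum_congr rfl fun a _ => by ring

theorem grel_det [i : DecidableEq σ] (ψ : R' →+* R) (F : σ → MvPolynomial σ R') (y : σ → R)
    (h : φ (@Matrix.det σ i _ _ _ (jac ψ F y)) ≠ 0) :
    @Matrix.det σ (fun a b => Classical.propDecidable (a = b)) _ _ _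
      (jac (φ.comp ψ) F fun a => φ (y a)) ≠ 0 := by
  obtain rfl : i = fun a b => Classical.propDecidable (a = b) := Subsingleton.elim _ _
  rwa [← map_jac_det]

theorem grel_zero [IsDomain S] {M : Matrix σ σ S}
    (h : @Matrix.det σ (fun a b => Classical.propDecidable (a = b)) _ _ _ M ≠ 0)
    (hv : M.mulVec v = 0) : v = 0 :=
  Matrix.eq_zero_of_mulVec_eq_zero h hv

theorem grel_cases {d : ℕ} {q : Vr d → Prop} (h0 : q vs) (h1 : q vt) (h2 : q vT)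
    (h3 : ∀ j, q (vy j)) (b : Vr d) : q b := by
  rcases b with b | j
  · fin_cases b
    exacts [h0, h1, h2]
  · exact h3 j

end ring

variable {p : ℕ} {K Λ : Type} [Field K] [CharZero K] [NormedField Λ] [IsUltrametricDist Λ]
  [IsAlgClosed Λ] [Algebra K Λ] [IsGalois K Λ] [Loc p K Λ] [Fact p.Prime] [CharP (kk Λ) p]
variable {N : ℕ} {J : Ideal (MvPolynomial (Fin (N + 1)) K)} {B : IntermediateField K Λ}

namespace QChart.GD

variable {𝒞 : QChart J B} {ι : Type} [Fintype ι] {k : ι → ℕ} {T : Tower p B} {n : ℕ}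
  {G : 𝒞.GD (T.le n) k} {A : Finset ι} {z : Vr 𝒞.d → kk Λ} {x : Vr 𝒞.d → Λ}

theorem grel_sys : (∀ b, MvPolynomial.eval₂ (OL _).subtype x (G.sys A b) = 0) ↔
    ev2 (OL B).subtype (fun j => x (vy j)) (x vT) 𝒞.ϑ = x vs ∧
      ev2 (OL B).subtype (fun j => x (vy j)) (x vT) 𝒞.χ = 0 ∧
        ∀ j, MvPolynomial.eval₂ (OL _).subtype x (G.Fe A j) = 0 := by
  unfold sys
  rw [mkS_zero, MvPolynomial.eval₂_sub, MvPolynomial.eval₂_X, eval₂_emb, eval₂_emb, subtype_inc,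
    sub_eq_zero, eq_comm]

theorem grel_vT (A : Finset ι) : G.sys A vT = emb (inc (T.le n)) 𝒞.χ := rfl

theorem grel_mov (h : G.RZ z) (hn : 0 < n) : ∃ m, 0 < m ∧ T.U n ≤ T.U m ∧ G.Mov m z := by
  obtain ⟨c, hc, e⟩ := exists_frz (𝒞 := 𝒞) (T := T) z hn
  exact ⟨n * c, Nat.mul_pos hn hc, T.mono hn (Nat.mul_pos hn hc) (Dvd.intro _ rfl),
    h.mov hn (Nat.mul_pos hn hc) (Dvd.intro _ rfl) e⟩

theorem grel_tpd {m : ℕ} (h : G.Mov m z) (hm : 0 < m) (A : Finset ι) :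
    ∃ E, 𝒞.TPD (T.U m) (G.py A z) (G.ph z) (G.pt A z vT) E := by
  have := T.fin m hm
  obtain ⟨H, E, hE⟩ := (h.gs A).exists_tpd (p := p) (T.le m) (T.unrF 𝒞.π_max hm)
  have e : H = G.pt A z vT := (h.gs A).unique (T.le m) (h.mem A vT) hE.mem
    ((rs_eq_iff (c0_mem (h.mem A vT)).2 (h.gs A).h_mem.2).1 (((h.isPt A).res vT).trans h.res.symm))
    hE.near (hE.eq.trans (h.isPt A).th.symm)
  exact ⟨E, e ▸ hE⟩

/-- the values of a branch -/
theorem grel_ev (h : G.RZ z) (hn : 0 < n) (A : Finset ι) {t : Λ} (ht : ‖t‖ < 1) :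
    (∀ b, ‖ev t (G.pt A z b)‖ ≤ 1) ∧ (∀ b, rs (ev t (G.pt A z b)) = z b) ∧
      ev t (G.pt A z vs) = t ∧
      ev2 (OL B).subtype (fun j => ev t (G.pt A z (vy j))) (ev t (G.pt A z vT)) 𝒞.ϑ = t ∧
      ∀ j, MvPolynomial.eval₂ (OL _).subtype (fun b => ev t (G.pt A z b)) (G.Fe A j) = 0 := by
  obtain ⟨m, hm, hL, M⟩ := grel_mov h hn
  have := T.fin m hm
  refine ⟨fun b => ev_le_one (p := p) ht (M.mem A b),
    fun b => (rs_ev (p := p) ht (M.mem A b)).trans ((M.isPt A).res b), ?_, ?_, fun j => ?_⟩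
  · rw [(M.isPt A).s, ev_X]
  · rw [← ev_ev2 (p := p) ht (T.le m) (fun j => M.mem A (vy j)) (M.mem A vT), (M.isPt A).th, ev_X]
  · rw [← ev_mv (p := p) ht hL (M.mem A), (M.isPt A).eq j, ← map_zero (PowerSeries.C (R := Λ)),
      ev_C]

/-- the local system over the integers of `Λ` -/
noncomputable def grel_F (G : 𝒞.GD (T.le n) k) (A : Finset ι) :
    Vr 𝒞.d → MV 𝒞.d (OL (⊤ : IntermediateField K Λ)) :=
  mkS (MvPolynomial.X vs - MvPolynomial.C 0)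
    (emb ((inc (le_top : T.U n ≤ ⊤)).comp (inc (T.le n))) 𝒞.ϑ - MvPolynomial.X vs)
      fun j => MvPolynomial.map (inc (le_top : T.U n ≤ ⊤)) (G.Fe A j)

theorem grel_unit (h : G.RZ z) (A : Finset ι) {X' : Vr 𝒞.d → OL (⊤ : IntermediateField K Λ)}
    (hr : ∀ b, rs (X' b : Λ) = z b) : IsUnit (jac (RingHom.id _) (grel_F G A) X').det :=
  h.jac (inc le_top) (rL ⊤) (fun y hy => OL_isUnit.2 (rs_ne_zero.1 (rL_apply y ▸ hy)))
    (rL_inc _) (fun b => (rL_apply _).trans (hr b)) 0 A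

theorem grel_unique (h : G.RZ z) {x' : Vr 𝒞.d → Λ} (h1 : ∀ b, ‖x b‖ ≤ 1) (h1' : ∀ b, ‖x' b‖ ≤ 1)
    (hr : ∀ b, rs (x b) = z b) (hr' : ∀ b, rs (x' b) = z b) (hs : x vs = x' vs)
    (hϑ : ev2 (OL B).subtype (fun j => x (vy j)) (x vT) 𝒞.ϑ =
      ev2 (OL B).subtype (fun j => x' (vy j)) (x' vT) 𝒞.ϑ)
    (hF : ∀ j, MvPolynomial.eval₂ (OL _).subtype x (G.Fe A j) =
      MvPolynomial.eval₂ (OL _).subtype x' (G.Fe A j)) : x = x' := by
  let X₁ : Vr 𝒞.d → OL (⊤ : IntermediateField K Λ) := fun b => ⟨x b, trivial, h1 b⟩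
  let X₂ : Vr 𝒞.d → OL (⊤ : IntermediateField K Λ) := fun b => ⟨x' b, trivial, h1' b⟩
  have hd := grel_det _ _ _ _ ((grel_unit h A (X' := X₂) hr').map (rL ⊤)).ne_zero
  have key : ∀ (Y : Vr 𝒞.d → OL (⊤ : IntermediateField K Λ)) (P : MV 𝒞.d (OL ⊤)),
      ((MvPolynomial.eval₂ (RingHom.id _) Y P : OL (⊤ : IntermediateField K Λ)) : Λ) =
        MvPolynomial.eval₂ (OL ⊤).subtype (fun b => (Y b : Λ)) P := fun Y P =>
    MvPolynomial.hom_eval₂ P (RingHom.id _) (OL ⊤).subtype Y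
  have hm : ∀ j, MvPolynomial.eval₂ (OL ⊤).subtype x
      (MvPolynomial.map (inc (le_top : T.U n ≤ ⊤)) (G.Fe A j)) = MvPolynomial.eval₂ (OL ⊤).subtype x'
        (MvPolynomial.map (inc (le_top : T.U n ≤ ⊤)) (G.Fe A j)) := fun j => by
    rw [MvPolynomial.eval₂_map, MvPolynomial.eval₂_map]
    exact hF j
  have e : X₁ = X₂ := by
    refine sys_unique (rL ⊤) (RingHom.id _) (grel_F G A) (fun b => Subtype.ext ?_)
      (fun b => by rw [rL_apply, rL_apply]; exact (hr b).trans (hr' b).symm) hd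
    rw [key, key]
    change MvPolynomial.eval₂ (OL ⊤).subtype x _ = MvPolynomial.eval₂ (OL ⊤).subtype x' _
    refine grel_cases (q := fun b => MvPolynomial.eval₂ (OL ⊤).subtype x (grel_F G A b) =
      MvPolynomial.eval₂ (OL ⊤).subtype x' (grel_F G A b)) ?_ (hm none) ?_ (fun j => hm (some j)) b
    · change MvPolynomial.eval₂ _ x (MvPolynomial.X vs - MvPolynomial.C 0) =
        MvPolynomial.eval₂ _ x' (MvPolynomial.X vs - MvPolynomial.C 0)
      simp only [MvPolynomial.eval₂_sub, MvPolynomial.eval₂_X, MvPolynomial.eval₂_C, hs]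
    · change MvPolynomial.eval₂ _ x (emb _ 𝒞.ϑ - MvPolynomial.X vs) =
        MvPolynomial.eval₂ _ x' (emb _ 𝒞.ϑ - MvPolynomial.X vs)
      rw [MvPolynomial.eval₂_sub, MvPolynomial.eval₂_sub, MvPolynomial.eval₂_X,
        MvPolynomial.eval₂_X, eval₂_emb, eval₂_emb, hs]
      exact congrArg (· - x' vs) hϑ
  exact funext fun b => congrArg Subtype.val (congrFun e b)

theorem grel_ker (h : G.RZ z) (h1 : ∀ b, ‖x b‖ ≤ 1) (hr : ∀ b, rs (x b) = z b) {v : Vr 𝒞.d → Λ}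
    (hs : v vs = 0) (hϑ : grel_D (OL _).subtype x v (emb (inc (T.le n)) 𝒞.ϑ) = 0)
    (hF : ∀ j, grel_D (OL _).subtype x v (G.Fe A j) = 0) : v = 0 := by
  let X₁ : Vr 𝒞.d → OL (⊤ : IntermediateField K Λ) := fun b => ⟨x b, trivial, h1 b⟩
  have hd := grel_det _ _ _ _ ((grel_unit h A (X' := X₁) hr).map (OL ⊤).subtype).ne_zero
  have hm : ∀ j, grel_D (OL ⊤).subtype x v
      (MvPolynomial.map (inc (le_top : T.U n ≤ ⊤)) (G.Fe A j)) = 0 := fun j => by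
    rw [grel_D_map]
    exact hF j
  refine grel_zero v (M := jac (OL ⊤).subtype (grel_F G A) x) hd (funext fun b => ?_)
  rw [grel_row]
  refine grel_cases (q := fun b => grel_D (OL ⊤).subtype x v (grel_F G A b) = 0) ?_ (hm none) ?_
    (fun j => hm (some j)) b
  · change grel_D _ x v (MvPolynomial.X vs - MvPolynomial.C 0) = 0
    rw [grel_D_sub, grel_D_X, grel_D_C, hs, sub_zero]
  · change grel_D _ x v (emb _ 𝒞.ϑ - MvPolynomial.X vs) = 0
    rw [grel_D_sub, grel_D_X, hs, sub_zero, ← map_emb, grel_D_map]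
    exact hϑ

/-- a zero of the system lies on a branch -/
theorem zero_desc (hn : 0 < n) (hx : ∀ b, MvPolynomial.eval₂ (OL _).subtype x (G.sys A b) = 0) :
    G.RZ (fun b => rs (x b)) ∧ (∀ b, ‖x b‖ ≤ 1) ∧ ‖x vs‖ < 1 ∧
      (∀ b, x b = ev (x vs) (G.pt A (fun b => rs (x b)) b)) ∧
      (x vs, x vT) ∈ 𝒞.tp (G.ph fun b => rs (x b)) (G.py A fun b => rs (x b)) := by
  have h1 : ∀ b, ‖x b‖ ≤ 1 := (sys_sys (G := G) A).norm_le (fun c => c.2.2) hx
  obtain ⟨e1, e2, e3⟩ := grel_sys.1 hx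
  have hth : ev2 (rL B) (fun j => rs (x (vy j))) (rs (x vT)) 𝒞.ϑ = 0 := by
    rw [← on_iff, ← (tp_rs (fun j => h1 (vy j)) (h1 vT) 𝒞.χ).2, e2, rs_zero]
  have hs : rs (x vs) = 0 := by
    rw [← e1, (tp_rs (fun j => h1 (vy j)) (h1 vT) 𝒞.ϑ).2, hth]
  have hb : ∀ j, MvPolynomial.eval₂ (rL _) (fun b => rs (x b)) (Fb G.u G.lam G.w j) = 0 := fun j => by
    have h2 := (rs_mv (φ := (OL (T.U n)).subtype) (ψ := rL _) (fun c => c.2.2) rL_apply h1
      (G.Fe A j)).2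
    rw [e3 j, rs_zero, Fe, MvPolynomial.eval₂_add,
      (mI_res (per_mem (G := G) A j) (z := fun b => rs (x b)) hs).1, add_zero] at h2
    exact h2.symm
  have hz : G.RZ fun b => rs (x b) := ⟨hs, by simpa only [Fb, eval₂_up] using hb none,
    fun j => by simpa only [Fb, eval₂_up, MvPolynomial.eval₂_mul, MvPolynomial.eval₂_sub,
      MvPolynomial.eval₂_X] using hb (some j), hth⟩
  have ht : ‖x vs‖ < 1 := (rs_eq_zero (h1 vs)).1 hs
  obtain ⟨f1, f2, f3, f4, f5⟩ := grel_ev hz hn A ht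
  have e : x = fun b => ev (x vs) (G.pt A (fun b => rs (x b)) b) :=
    grel_unique (A := A) hz h1 f1 (fun _ => rfl) f2 f3.symm (e1.trans f4.symm)
      fun j => (e3 j).trans (f5 j).symm
  have ey : (fun j => ev (x vs) (G.py A (fun b => rs (x b)) j)) = fun j => x (vy j) :=
    funext fun j => (congrFun e (vy j)).symm
  obtain ⟨m, -, -, M⟩ := grel_mov hz hn
  refine ⟨hz, h1, ht, congrFun e, ht, (rs_eq_iff (h1 vT) (M.gs A).h_mem.2).1 M.res.symm, ?_, ?_⟩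
  · exact ey ▸ e1
  · exact ey ▸ e2
/-- transversal points give zeros of the system -/
theorem RZ.zero_of_tp (h : G.RZ z) (hn : 0 < n) {Q : Λ × Λ} (hQ : Q ∈ 𝒞.tp (G.ph z) (G.py A z)) :
    (∀ b, MvPolynomial.eval₂ (OL _).subtype (fun b => ev Q.1 (G.pt A z b)) (G.sys A b) = 0) ∧
      (∀ b, rs (ev Q.1 (G.pt A z b)) = z b) ∧ ev Q.1 (G.pt A z vs) = Q.1 ∧
      ev Q.1 (G.pt A z vT) = Q.2 := by
  obtain ⟨m, hm, -, M⟩ := grel_mov h hn
  obtain ⟨E, hE⟩ := grel_tpd M hm A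
  have e := ((hE.tp Q).1 hQ).2
  obtain ⟨-, f2, f3, f4, f5⟩ := grel_ev h hn A hQ.1
  refine ⟨grel_sys.2 ⟨f4.trans f3.symm, ?_, f5⟩, f2, f3, e.symm⟩
  have := hQ.2.2.2
  rw [e] at this
  exact this
/-- the zeros are simple -/
theorem zero_simple (hn : 0 < n) (hx : ∀ b, MvPolynomial.eval₂ (OL _).subtype x (G.sys A b) = 0)
    {v : Vr 𝒞.d → Λ} (hv : (jac (OL _).subtype (G.sys A) x).mulVec v = 0) : v = 0 := by
  obtain ⟨hz, h1, ht, e, hQ⟩ := zero_desc hn hx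
  generalize hzz : (fun b => rs (x b)) = z at hz e hQ
  have hr : ∀ b, rs (x b) = z b := congrFun hzz
  obtain ⟨m, hm, hL, M⟩ := grel_mov hz hn
  have := T.fin m hm
  obtain ⟨E, hE⟩ := grel_tpd M hm A
  let w : Vr 𝒞.d → Λ := fun b => ev (x vs) (PowerSeries.derivative Λ (G.pt A z b))
  have hw : ∀ P : MV 𝒞.d (OL (T.U n)), grel_D (OL _).subtype x w P =
      ev (x vs) (PowerSeries.derivative Λ (MvPolynomial.eval₂ (cS _) (G.pt A z) P)) := fun P => by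
    rw [ev_chain (p := p) ht hL (M.mem A), ← funext e]
    rfl
  have h01 : ev (x vs) (PowerSeries.derivative Λ PowerSeries.X) = 1 := by
    rw [PowerSeries.derivative_X, ← map_one (PowerSeries.C (R := Λ)), ev_C]
  have w1 : w vs = 1 := by
    change ev (x vs) (PowerSeries.derivative Λ (G.pt A z vs)) = 1
    rw [(M.isPt A).s, h01]
  have w2 : grel_D (OL _).subtype x w (emb (inc (T.le n)) 𝒞.ϑ) = 1 := by
    rw [hw, eval₂_emb, ← h01, ← (M.isPt A).th]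
    rfl
  have w3 : ∀ j, grel_D (OL _).subtype x w (G.Fe A j) = 0 := fun j => by
    rw [hw, (M.isPt A).eq j, map_zero, ← map_zero (PowerSeries.C (R := Λ)), ev_C]
  have w4 : grel_D (OL _).subtype x w (emb (inc (T.le n)) 𝒞.χ) ≠ 0 := by
    rw [hw, eval₂_emb]
    exact hE.der _ ((hE.tp _).1 hQ).1
  have v2 : grel_D (OL _).subtype x v (MvPolynomial.X vs - emb (inc (T.le n)) 𝒞.ϑ) = 0 :=
    congrFun hv vs
  have v3 : ∀ j, grel_D (OL _).subtype x v (G.Fe A j) = 0 := fun j => by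
    rcases j with _ | j
    · exact congrFun hv vt
    · exact congrFun hv (vy j)
  have v4 : grel_D (OL _).subtype x v (emb (inc (T.le n)) 𝒞.χ) = 0 := congrFun hv vT
  rw [grel_D_sub, grel_D_X, sub_eq_zero] at v2
  have h0 : v - v vs • w = 0 := grel_ker (A := A) hz h1 hr
    (by rw [Pi.sub_apply, Pi.smul_apply, w1, smul_eq_mul, mul_one, sub_self])
    (by rw [grel_D_lin, w2, ← v2, mul_one, sub_self])
    fun j => by rw [grel_D_lin, w3, v3, mul_zero, sub_self]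
  have h2 := grel_D_lin (OL _).subtype x v w (v vs) (emb (inc (T.le n)) 𝒞.χ)
  rw [h0, v4, zero_sub] at h2
  have h3 : v vs = 0 := by
    have h4 : v vs * grel_D (OL _).subtype x w (emb (inc (T.le n)) 𝒞.χ) = 0 := by
      rw [← neg_eq_zero, ← h2]
      simp [grel_D]
    exact (mul_eq_zero.1 h4).resolve_right w4
  rwa [h3, zero_smul, sub_zero] at h0

theorem grel_pv (x : Vr 𝒞.d → Λ) :
    (fun i => MvPolynomial.eval₂ (OL (T.U n)).subtype x (emb (inc (T.le n)) (𝒞.pp i))) =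
      𝒞.pv (fun j => x (vy j)) (x vT) := funext fun i => by
  rw [eval₂_emb]
  rfl

theorem exists_SZ (hn : 0 < n) (A : Finset ι) {𝒵 : Finset (Vr 𝒞.d → kk Λ)}
    (h𝒵 : ∀ z, z ∈ 𝒵 ↔ G.RZ z) : ∃ Z, SZ (OL _).subtype (G.sys A)
      (fun i => emb (inc (T.le n)) (𝒞.pp i)) Z ∧
      ∑ x ∈ Z, Finsupp.single (pj fun i =>
          MvPolynomial.eval₂ (OL _).subtype x (emb (inc (T.le n)) (𝒞.pp i))) (1 : ℤ) =
        ∑ z ∈ 𝒵, 𝒞.Qc (G.ph z) (G.py A z) := by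
  have hfin := (sys_sys (G := G) A).finite_zeros (OL (T.U n)).subtype
  have hmem : ∀ x, x ∈ hfin.toFinset ↔
      ∀ b, MvPolynomial.eval₂ (OL _).subtype x (G.sys A b) = 0 := fun x => hfin.mem_toFinset
  refine ⟨hfin.toFinset, ⟨hmem, fun x hx v hv => zero_simple hn ((hmem x).1 hx) hv,
    fun x hx => ?_⟩, ?_⟩
  · obtain ⟨hz, -, -, e, hQ⟩ := zero_desc hn ((hmem x).1 hx)
    obtain ⟨m, hm, -, M⟩ := grel_mov hz hn
    have := T.fin m hm
    have hg := ((M.gs A).tp_gd (p := p) hQ).1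
    have ey : (fun j => ev (x vs) (G.py A (fun b => rs (x b)) j)) = fun j => x (vy j) :=
      funext fun j => (e (vy j)).symm
    rw [grel_pv]
    exact Gd.pv_ne (ey ▸ hg)
  rw [← Finset.sum_fiberwise_of_maps_to (g := fun (x : Vr 𝒞.d → Λ) b => rs (x b))
    fun x hx => (h𝒵 _).2 (zero_desc hn ((hmem x).1 hx)).1]
  refine Finset.sum_congr rfl fun z hz => ?_
  have hz' := (h𝒵 z).1 hz
  obtain ⟨m, hm, -, M⟩ := grel_mov hz' hn
  obtain ⟨E, hE⟩ := grel_tpd M hm A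
  have hd : ∀ x ∈ hfin.toFinset.filter (fun x => (fun b => rs (x b)) = z),
      (∀ b, x b = ev (x vs) (G.pt A z b)) ∧ (x vs, x vT) ∈ 𝒞.tp (G.ph z) (G.py A z) := by
    intro x hx
    obtain ⟨h1, h2⟩ := Finset.mem_filter.1 hx
    obtain ⟨-, -, -, e, hQ⟩ := zero_desc hn ((hmem x).1 h1)
    rw [h2] at e hQ
    exact ⟨e, hQ⟩
  have ht : ∀ t ∈ E.roots.toFinset, (t, ev t (G.pt A z vT)) ∈ 𝒞.tp (G.ph z) (G.py A z) :=
    fun t ht => (hE.tp _).2 ⟨(tp_mem_roots hE.eis).1 ht, rfl⟩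
  rw [hE.Qc_eq]
  refine Finset.sum_nbij' (fun x => x vs) (fun t b => ev t (G.pt A z b))
    (fun x hx => (tp_mem_roots hE.eis).2 ((hE.tp _).1 (hd x hx).2).1) (fun t h => ?_)
    (fun x hx => (funext (hd x hx).1).symm) (fun t h => (hz'.zero_of_tp hn (ht t h)).2.2.1)
    fun x hx => ?_
  · obtain ⟨g1, g2, -, -⟩ := hz'.zero_of_tp hn (ht t h)
    exact Finset.mem_filter.2 ⟨(hmem _).2 g1, funext g2⟩
  · have ey : (fun j => ev (x vs) (G.py A z j)) = fun j => x (vy j) :=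
      funext fun j => ((hd x hx).1 (vy j)).symm
    rw [grel_pv, ey, ← (hd x hx).1 vT]
    rfl
theorem GR (hn : 0 < n) (i₀ : ι) {𝒵 : Finset (Vr 𝒞.d → kk Λ)} (h𝒵 : ∀ z, z ∈ 𝒵 ↔ G.RZ z) :
    clL J (T.U n) (∑ z ∈ 𝒵, G.cyc z) = 0 := by
  have := T.fin n hn
  have h1 : ∑ z ∈ 𝒵, G.cyc z = alt fun A => ∑ z ∈ 𝒵, 𝒞.Qc (G.ph z) (G.py A z) := by
    rw [alt_sum]
    refine Finset.sum_congr rfl fun z _ => ?_
    rw [cyc, map_alt]
    simp only [Jm_sg]
  rw [h1, map_alt]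
  refine alt_eq_zero i₀ fun A => ?_
  obtain ⟨Z, hZ, e⟩ := exists_SZ hn (insert i₀ A) h𝒵
  obtain ⟨Z', hZ', e'⟩ := exists_SZ hn A h𝒵
  rw [← e, ← e']
  refine MRS (fun c => c.2.1) (sys_sys (insert i₀ A)) (sys_sys A) (j₀ := vT)
    ((grel_vT _).trans (grel_vT _).symm) 𝒞.cone (fun y hy => ?_) hZ hZ'
  rw [grel_pv]
  refine onX_pv ?_
  rw [grel_vT, eval₂_emb] at hy
  exact hy
/-- the contribution of one orbit -/
theorem GR_main (hn : 0 < n) (i₀ : ι) {z₀ : Vr 𝒞.d → kk Λ} (h₀ : G.RZ z₀) {D : ℕ} (hD : 0 < D)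
    (h1 : frz 𝒞 T (n * D) z₀ = z₀)
    (h2 : ∀ i < D, ∀ j < D, frz 𝒞 T (n * i) z₀ = frz 𝒞 T (n * j) z₀ → i = j)
    {H : AddSubgroup (VV Λ J)} (hH : ∀ z, G.RZ z → (∀ i < D, z ≠ frz 𝒞 T (n * i) z₀) →
      ∀ c, 0 < c → frz 𝒞 T (n * c) z = z → (∀ i, 0 < i → i < c → frz 𝒞 T (n * i) z ≠ z) →
        clL J (T.U (n * c)) (G.cyc z) ∈ H) : clL J (T.U (n * D)) (G.cyc z₀) ∈ H := by
  have hZ : ∀ z, z ∈ (rz_finite (G := G)).toFinset ↔ G.RZ z := fun z => Set.Finite.mem_toFinset _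
  generalize (rz_finite (G := G)).toFinset = 𝒵 at hZ
  have hrel := GR hn i₀ hZ
  obtain ⟨ψ, hψ⟩ : ∃ ψ, ψ = frz 𝒞 T n := ⟨_, rfl⟩
  have hinj : Function.Injective ψ := hψ ▸ frz_inj
  have hit : ∀ i z, ψ^[i] z = frz 𝒞 T (n * i) z := fun i z => hψ ▸ frz_iter i z
  have hgal : ∀ z, G.RZ z → G.RZ (ψ z) ∧ G.cyc (ψ z) = galC (T.φ ^ n) (G.cyc z) :=
    fun z hz => hψ ▸ ⟨hz.frz hn, hz.cyc_frz hn⟩
  have horb : ∀ i, G.RZ (ψ^[i] z₀) ∧
      clL J (T.U n) (G.cyc (ψ^[i] z₀)) = clL J (T.U n) (G.cyc z₀) := by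
    intro i
    induction i with
    | zero => exact ⟨h₀, rfl⟩
    | succ i ih =>
      rw [Function.iterate_succ_apply']
      exact ⟨(hgal _ ih.1).1, by rw [(hgal _ ih.1).2, clL_gal, ih.2]⟩
  have hp0 : ψ^[D] z₀ = z₀ := by rw [hit, h1]
  obtain ⟨O, hO⟩ : ∃ O, O = (Finset.range D).image fun i => ψ^[i] z₀ := ⟨_, rfl⟩
  have hmO : ∀ z, z ∈ O ↔ ∃ i, ψ^[i] z₀ = z := fun z => by
    rw [hO, Finset.mem_image]
    refine ⟨fun ⟨i, _, e⟩ => ⟨i, e⟩, fun ⟨i, e⟩ =>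
      ⟨i % D, Finset.mem_range.2 (Nat.mod_lt _ hD), ?_⟩⟩
    rw [← e]
    exact Function.IsPeriodicPt.iterate_mod_apply hp0 i
  have hOZ : O ⊆ 𝒵 := fun z hz => by
    obtain ⟨i, rfl⟩ := (hmO z).1 hz
    exact (hZ _).2 (horb i).1
  have hmain : clL J (T.U n) (∑ z ∈ O, G.cyc z) = clL J (T.U (n * D)) (G.cyc z₀) := by
    rw [hO, Finset.sum_image, map_sum, Finset.sum_congr rfl fun i _ => (horb i).2,
      Finset.sum_const, Finset.card_range, T.clL_mul hn hD]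
    intro i hi j hj e
    refine h2 i (by simpa using hi) j (by simpa using hj) ?_
    simpa only [hit] using e
  have hrest : clL J (T.U n) (∑ z ∈ 𝒵 \ O, G.cyc z) ∈ H := by
    refine T.orbit_mem hn _ ψ (fun z hz => ?_) hinj.injOn _
      (fun z hz => (hgal z ((hZ z).1 (Finset.mem_sdiff.1 hz).1)).2) _
      fun z hz c hc hper hmin => ?_
    · obtain ⟨g1, g2⟩ := Finset.mem_sdiff.1 hz
      refine Finset.mem_sdiff.2 ⟨(hZ _).2 (hgal z ((hZ z).1 g1)).1, fun h3 => g2 ?_⟩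
      obtain ⟨i, e⟩ := (hmO _).1 h3
      refine (hmO _).2 ⟨i + (D - 1), hinj ?_⟩
      rw [← Function.iterate_succ_apply' ψ, show (i + (D - 1)).succ = i + D by omega,
        Function.iterate_add_apply, hp0, e]
    obtain ⟨g1, g2⟩ := Finset.mem_sdiff.1 hz
    refine hH z ((hZ z).1 g1) (fun i _ e => g2 ((hmO z).2 ⟨i, by rw [hit, e]⟩)) c hc
      (by rw [← hit, hper]) fun i a b => by rw [← hit]; exact hmin i a b
  rw [← Finset.sum_sdiff hOZ, map_add, hmain] at hrel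
  rw [eq_neg_of_add_eq_zero_right hrel]
  exact neg_mem hrest

end QChart.GD

end Pool.Agent.ZeroCyc
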