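import Pool.Agent.Lib.MP_796ce4_ag.ZY.CvB
import Pool.Agent.Lib.MP_796ce4_ag.ZQ.HSys

/-! Weights of polynomials in the variables `s, τ, T, y`. -/

namespace Pool.Agent.ZeroCyc

open Polynomial
open scoped Classical

set_option linter.unusedSectionVars false

/-- all monomials have weight less than `n` -/
def WB {σ R : Type} [CommRing R] (w : σ → ℕ) (n : ℕ) (G : MvPolynomial σ R) : Prop :=
  ∀ m ∈ G.support, Finsupp.weight w m < n

section

variable {σ R S : Type} [CommRing R] [CommRing S] {w : σ → ℕ} {n n' : ℕ} {G G' : MvPolynomial σ R}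

theorem WB.mono (h : WB w n G) (hn : n ≤ n') : WB w n' G := fun m hm => (h m hm).trans_le hn
theorem WB_zero : WB w n (0 : MvPolynomial σ R) := fun m hm => by simp at hm
theorem WB.add (h : WB w n G) (h' : WB w n G') : WB w n (G + G') := by
  intro m hm
  rcases Finset.mem_union.1 (MvPolynomial.support_add hm) with h1 | h1
  exacts [h m h1, h' m h1]
theorem WB.neg (h : WB w n G) : WB w n (-G) := by
  intro m hm
  rw [MvPolynomial.support_neg] at hm
  exact h m hm
theorem WB.sub (h : WB w n G) (h' : WB w n G') : WB w n (G - G') := by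
  rw [sub_eq_add_neg]
  exact h.add h'.neg
theorem WB.sum {T : Type} {s : Finset T} {f : T → MvPolynomial σ R} (h : ∀ t ∈ s, WB w n (f t)) :
    WB w n (∑ t ∈ s, f t) := by
  induction s using Finset.induction_on with
  | empty => exact WB_zero
  | insert a s ha ih =>
    rw [Finset.sum_insert ha]
    exact (h a (Finset.mem_insert_self _ _)).add
      (ih fun t ht => h t (Finset.mem_insert_of_mem ht))
theorem WB.mul (h : WB w (n + 1) G) (h' : WB w n' G') : WB w (n + n') (G * G') := by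
  intro m hm
  obtain ⟨a, ha, c, hc, rfl⟩ := Finset.mem_add.1 (MvPolynomial.support_mul _ _ hm)
  have h1 := h a ha
  have h2 := h' c hc
  rw [map_add]
  omega
theorem gw_mono (m : σ →₀ ℕ) (c : R) :
    WB w (Finsupp.weight w m + 1) (MvPolynomial.monomial m c) := by
  intro m' hm
  rw [Finset.mem_singleton.1 (MvPolynomial.support_monomial_subset hm)]
  exact Nat.lt_succ_self _
theorem gw_C (c : R) : WB w 1 (MvPolynomial.C c : MvPolynomial σ R) := by
  have := gw_mono (w := w) 0 c
  rwa [map_zero, zero_add] at this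
theorem WB.prod {T : Type} {s : Finset T} {f : T → MvPolynomial σ R} {e : T → ℕ}
    (h : ∀ t ∈ s, WB w (e t + 1) (f t)) : WB w (∑ t ∈ s, e t + 1) (∏ t ∈ s, f t) := by
  induction s using Finset.induction_on with
  | empty => exact gw_C 1
  | insert a s ha ih =>
    rw [Finset.sum_insert ha, Finset.prod_insert ha, add_assoc]
    exact (h a (Finset.mem_insert_self _ _)).mul
      (ih fun t ht => h t (Finset.mem_insert_of_mem ht))
theorem WB_C (c : R) : WB w 1 (MvPolynomial.C c : MvPolynomial σ R) := by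
  exact gw_C c
theorem WB_X_pow (b : σ) (e : ℕ) : WB w (e * w b + 1) (MvPolynomial.X b ^ e : MvPolynomial σ R) := by
  have := gw_mono (w := w) (Finsupp.single b e) (1 : R)
  rwa [Finsupp.weight_single, smul_eq_mul, ← MvPolynomial.X_pow_eq_monomial] at this
theorem WB.map (h : WB w n G) (φ : R →+* S) : WB w n (MvPolynomial.map φ G) := by
  exact fun m hm => h m (MvPolynomial.support_map_subset φ G hm)

/-- a polynomial in the variable `b` -/
noncomputable def up (b : σ) : R[X] →+* MvPolynomial σ R :=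
  eval₂RingHom MvPolynomial.C (MvPolynomial.X b)

theorem gw_up_C (b : σ) (c : R) : up b (C c) = MvPolynomial.C c := by
  simp [up]
theorem gw_up_X (b : σ) : up b (X : R[X]) = MvPolynomial.X b := by
  simp [up]
theorem gw_map_up (φ : R →+* S) (b : σ) (u : R[X]) :
    MvPolynomial.map φ (up b u) = up b (u.map φ) := by
  have : (MvPolynomial.map φ).comp (up b) = (up b).comp (mapRingHom φ) := by
    refine Polynomial.ringHom_ext (fun r => ?_) ?_ <;> simp [up]
  exact DFunLike.congr_fun this u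
theorem gw_term (b : σ) (c : R) (i : ℕ) : WB w (i * w b + 1) (up b (C c * X ^ i)) := by
  rw [map_mul, map_pow, gw_up_C, gw_up_X]
  have := (WB_C (w := w) c).mul (n := 0) (WB_X_pow (w := w) (R := R) b i)
  rwa [zero_add] at this

theorem eval₂_up (φ : R →+* S) (x : σ → S) (b : σ) (u : R[X]) :
    MvPolynomial.eval₂ φ x (up b u) = u.eval₂ φ (x b) := by
  have : (MvPolynomial.eval₂Hom φ x).comp (up b) = eval₂RingHom φ (x b) := by
    refine Polynomial.ringHom_ext (fun r => ?_) ?_ <;> simp [up]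
  exact DFunLike.congr_fun this u
theorem pderiv_up (b b' : σ) (u : R[X]) :
    MvPolynomial.pderiv b' (up b u) = if b' = b then up b (derivative u) else 0 := by
  induction u using Polynomial.induction_on with
  | C a => simp [gw_up_C]
  | add f g h1 h2 =>
    rw [map_add, map_add, h1, h2, derivative_add, map_add]
    split_ifs <;> simp
  | monomial n a h1 =>
    rw [pow_succ, ← mul_assoc, map_mul (up b), gw_up_X, Derivation.leibniz, h1,
      derivative_mul (g := X), derivative_X, mul_one, map_add, map_mul (up b) (derivative _), gw_up_X]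
    split_ifs with h
    · rw [h, MvPolynomial.pderiv_X_self, smul_eq_mul, smul_eq_mul]
      ring
    · rw [MvPolynomial.pderiv_X_of_ne (Ne.symm h), smul_zero, smul_zero, add_zero]
theorem WB_up (b : σ) {u : R[X]} {e : ℕ} (h : u.natDegree ≤ e) : WB w (e * w b + 1) (up b u) := by
  rw [u.as_sum_range_C_mul_X_pow, map_sum]
  refine WB.sum fun i hi => (gw_term b _ i).mono ?_
  have h1 : i ≤ e := (Nat.lt_succ_iff.1 (Finset.mem_range.1 hi)).trans h
  exact Nat.succ_le_succ (Nat.mul_le_mul_right _ h1)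
theorem WB_up_sub (b : σ) (hb : 0 < w b) {u : R[X]} (h : u.Monic) :
    WB w (w b * u.natDegree) (up b u - MvPolynomial.X b ^ u.natDegree) := by
  have e : up b u - MvPolynomial.X b ^ u.natDegree =
      ∑ i ∈ Finset.range u.natDegree, up b (C (u.coeff i) * X ^ i) := by
    conv_lhs => enter [1, 2]; rw [h.as_sum]
    rw [map_add, map_pow, gw_up_X, add_sub_cancel_left, map_sum]
  rw [e]
  refine WB.sum fun i hi => (gw_term b _ i).mono ?_
  have h1 : i + 1 ≤ u.natDegree := Finset.mem_range.1 hi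
  calc i * w b + 1 ≤ i * w b + w b := by omega
    _ = w b * (i + 1) := by ring
    _ ≤ w b * u.natDegree := Nat.mul_le_mul_left _ h1

end

/-- the variables `s, τ, T, y` -/
abbrev Vr (d : ℕ) : Type := Fin 3 ⊕ Fin d
/-- the variable `s` -/
abbrev vs {d : ℕ} : Vr d := Sum.inl 0
/-- the variable `τ` -/
abbrev vt {d : ℕ} : Vr d := Sum.inl 1
/-- the variable `T` -/
abbrev vT {d : ℕ} : Vr d := Sum.inl 2
/-- the variables `y` -/
abbrev vy {d : ℕ} (j : Fin d) : Vr d := Sum.inr j
/-- polynomials in these variables -/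
abbrev MV (d : ℕ) (R : Type) [CommRing R] : Type := MvPolynomial (Vr d) R

variable {d : ℕ} {R S A : Type} [CommRing R] [CommRing S] [CommRing A]

/-- a polynomial in `y` and `T` -/
noncomputable def emb (φ : R →+* S) : MP d R →+* MV d S :=
  ev2 (MvPolynomial.C.comp φ) (fun j => MvPolynomial.X (vy j)) (MvPolynomial.X vT)

/-- a polynomial in `τ` and `T` -/
noncomputable def em2 : R[X][X] →+* MV d R :=
  e2 MvPolynomial.C (MvPolynomial.X vt) (MvPolynomial.X vT)

/-- the weights -/
def wgt (d b δ ω : ℕ) : Vr d → ℕ := Sum.elim ![δ * (b * ω + 1) + 1, 1, b * ω + 1] fun _ => ω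

theorem gw_ne_sT : (vs : Vr d) ≠ vT := by simp [vs, vT]
theorem gw_ne_st : (vs : Vr d) ≠ vt := by simp [vs, vt]
theorem gw_ne_tT : (vt : Vr d) ≠ vT := by simp [vt, vT]
theorem gw_emb_c (φ : R →+* S) (c : R) :
    (emb φ (C (MvPolynomial.C c)) : MV d S) = MvPolynomial.C (φ c) := by
  simp [emb, ev2]
theorem gw_emb_y (φ : R →+* S) (k : Fin d) :
    emb φ (C (MvPolynomial.X k)) = MvPolynomial.X (vy k) := by
  simp [emb, ev2]
theorem gw_emb_X (φ : R →+* S) : (emb φ X : MV d S) = MvPolynomial.X vT := by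
  simp [emb, ev2]
theorem gw_ind {P : MP d R → Prop} (hc : ∀ c, P (C (MvPolynomial.C c)))
    (hv : ∀ k, P (C (MvPolynomial.X k))) (hX : P X) (ha : ∀ f g, P f → P g → P (f + g))
    (hm : ∀ f g, P f → P g → P (f * g)) (f : MP d R) : P f := by
  have hC : ∀ a : MvPolynomial (Fin d) R, P (C a) := by
    intro a
    induction a using MvPolynomial.induction_on with
    | C c => exact hc c
    | add a b h1 h2 => rw [map_add]; exact ha _ _ h1 h2
    | mul_X a k h1 => rw [map_mul]; exact hm _ _ h1 (hv k)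
  induction f using Polynomial.induction_on with
  | C a => exact hC a
  | add f g h1 h2 => exact ha _ _ h1 h2
  | monomial n a h1 => rw [pow_succ, ← mul_assoc]; exact hm _ _ h1 hX
theorem gw_emb_C {b δ ω e : ℕ} (φ : R →+* S) {g : MvPolynomial (Fin d) R}
    (h : g.totalDegree ≤ e) : WB (wgt d b δ ω) (e * ω + 1) (emb φ (C g)) := by
  rw [g.as_sum, map_sum, map_sum]
  refine WB.sum fun m hm => ?_
  rw [MvPolynomial.monomial_eq, map_mul, map_mul, gw_emb_c, Finsupp.prod, map_prod, map_prod]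
  have h1 : WB (wgt d b δ ω) (∑ j ∈ m.support, m j * ω + 1)
      (∏ j ∈ m.support, emb φ (C (MvPolynomial.X j ^ m j))) := by
    refine WB.prod fun j _ => ?_
    rw [map_pow, map_pow, gw_emb_y]
    exact WB_X_pow (vy j) (m j)
  refine ((WB_C _).mul (n := 0) h1).mono ?_
  rw [zero_add, ← Finset.sum_mul]
  exact Nat.succ_le_succ (Nat.mul_le_mul_right _ ((MvPolynomial.le_totalDegree hm).trans h))

theorem eval₂_emb (φ : R →+* S) (ψ : S →+* A) (x : Vr d → A) (f : MP d R) :
    MvPolynomial.eval₂ ψ x (emb φ f) = ev2 (ψ.comp φ) (fun j => x (vy j)) (x vT) f := by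
  have : (MvPolynomial.eval₂Hom ψ x).comp (emb φ) =
      ev2 (ψ.comp φ) (fun j => x (vy j)) (x vT) := by
    refine Polynomial.ringHom_ext' (MvPolynomial.ringHom_ext (fun r => ?_) fun i => ?_) ?_ <;>
      simp [emb, ev2]
  exact DFunLike.congr_fun this f
theorem map_emb (φ : R →+* S) (ψ : S →+* A) (f : MP d R) :
    MvPolynomial.map ψ (emb φ f) = emb (ψ.comp φ) f := by
  have : (MvPolynomial.map ψ).comp (emb φ) = (emb (ψ.comp φ) : MP d R →+* MV d A) := by
    refine Polynomial.ringHom_ext' (MvPolynomial.ringHom_ext (fun r => ?_) fun i => ?_) ?_ <;>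
      simp [emb, ev2]
  exact DFunLike.congr_fun this f
theorem pderiv_emb (φ : R →+* S) (f : MP d R) :
    MvPolynomial.pderiv vT (emb φ f) = emb φ (derivative f) ∧
      MvPolynomial.pderiv vs (emb φ f) = 0 ∧ MvPolynomial.pderiv vt (emb φ f) = 0 := by
  induction f using gw_ind with
  | hc c => simp [gw_emb_c]
  | hv k =>
    rw [gw_emb_y, derivative_C, map_zero]
    exact ⟨MvPolynomial.pderiv_X_of_ne Sum.inr_ne_inl, MvPolynomial.pderiv_X_of_ne Sum.inr_ne_inl,
      MvPolynomial.pderiv_X_of_ne Sum.inr_ne_inl⟩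
  | hX =>
    rw [gw_emb_X, derivative_X, map_one]
    exact ⟨MvPolynomial.pderiv_X_self _, MvPolynomial.pderiv_X_of_ne gw_ne_sT.symm,
      MvPolynomial.pderiv_X_of_ne gw_ne_tT.symm⟩
  | ha f g h1 h2 =>
    simp only [map_add, h1.1, h1.2.1, h1.2.2, h2.1, h2.2.1, h2.2.2, add_zero, and_self]
  | hm f g h1 h2 =>
    rw [map_mul, Derivation.leibniz, Derivation.leibniz, Derivation.leibniz, h1.1, h1.2.1, h1.2.2,
      h2.1, h2.2.1, h2.2.2, derivative_mul, map_add, map_mul, map_mul, smul_zero, smul_zero,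
      add_zero, smul_eq_mul, smul_eq_mul]
    exact ⟨by ring, rfl, rfl⟩
theorem eval₂_em2 (φ : R →+* S) (x : Vr d → S) (a : R[X][X]) :
    MvPolynomial.eval₂ φ x (em2 a) = e2 φ (x vt) (x vT) a := by
  have : (MvPolynomial.eval₂Hom φ x).comp em2 = e2 φ (x vt) (x vT) := by
    refine Polynomial.ringHom_ext' (Polynomial.ringHom_ext (fun r => ?_) ?_) ?_ <;>
      simp [em2, e2]
  exact DFunLike.congr_fun this a
theorem WB_em2 {b δ ω e k : ℕ} {a : R[X][X]} (h : ∀ i, (a.coeff i).natDegree ≤ e)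
    (hk : a.natDegree ≤ k) : WB (wgt d b δ ω) (e + k * (b * ω + 1) + 1) (em2 a : MV d R) := by
  rw [a.as_sum_range_C_mul_X_pow, map_sum]
  refine WB.sum fun i hi => ?_
  have h1 : i ≤ k := (Nat.lt_succ_iff.1 (Finset.mem_range.1 hi)).trans hk
  have e1 : (em2 (C (a.coeff i) * X ^ i) : MV d R) =
      up vt (a.coeff i) * MvPolynomial.X vT ^ i := by
    simp [em2, e2, up]
  rw [e1]
  refine ((WB_up vt (h i)).mul (WB_X_pow vT i)).mono ?_
  have h2 : i * (b * ω + 1) ≤ k * (b * ω + 1) := Nat.mul_le_mul_right _ h1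
  show e * 1 + (i * (b * ω + 1) + 1) ≤ _
  omega
theorem WB_emb_sub {b δ ω : ℕ} (φ : R →+* S) {f : MP d R} (hm : f.Monic)
    (hw : ∀ i, (f.coeff i).totalDegree ≤ b * (f.natDegree - i)) :
    WB (wgt d b δ ω) ((b * ω + 1) * f.natDegree)
      (emb φ f - MvPolynomial.X vT ^ f.natDegree) := by
  have e : emb φ f - MvPolynomial.X vT ^ f.natDegree =
      ∑ i ∈ Finset.range f.natDegree, emb φ (C (f.coeff i)) * MvPolynomial.X vT ^ i := by
    conv_lhs => enter [1, 2]; rw [hm.as_sum]
    rw [map_add, map_pow, gw_emb_X, add_sub_cancel_left, map_sum]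
    refine Finset.sum_congr rfl fun i _ => ?_
    rw [map_mul, map_pow, gw_emb_X]
  rw [e]
  refine WB.sum fun i hi => ((gw_emb_C φ (hw i)).mul (WB_X_pow vT i)).mono ?_
  obtain ⟨k, hk⟩ := Nat.exists_eq_add_of_lt (Finset.mem_range.1 hi)
  show b * (f.natDegree - i) * ω + (i * (b * ω + 1) + 1) ≤ _
  rw [hk, show i + k + 1 - i = k + 1 by omega]
  nlinarith [Nat.zero_le k]

/-- the basic equations -/
noncomputable def Fb (u : R[X]) (lam w : Fin d → R[X]) : Option (Fin d) → MV d R
  | none => up vt u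
  | some j => (MvPolynomial.X (vy j) - up vt (lam j)) * up (vy j) (w j)

/-- the weights of their leading terms -/
noncomputable def Ftop (ω : ℕ) (u : R[X]) (w : Fin d → R[X]) : Option (Fin d) → ℕ
  | none => u.natDegree
  | some j => ω * ((w j).natDegree + 1)

/-- a system of equations -/
noncomputable def mkS (f₀ f₂ : MV d R) (F : Option (Fin d) → MV d R) : Vr d → MV d R :=
  Sum.elim ![f₀, F none, f₂] fun j => F (some j)

theorem mkS_zero (φ : R →+* S) (x : Vr d → S) (f₀ f₂ : MV d R) (F : Option (Fin d) → MV d R) :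
    (∀ b, MvPolynomial.eval₂ φ x (mkS f₀ f₂ F b) = 0) ↔ MvPolynomial.eval₂ φ x f₀ = 0 ∧
      MvPolynomial.eval₂ φ x f₂ = 0 ∧ ∀ j, MvPolynomial.eval₂ φ x (F j) = 0 := by
  constructor
  · intro h
    refine ⟨h vs, h vT, fun j => ?_⟩
    cases j with
    | none => exact h vt
    | some j => exact h (vy j)
  · rintro ⟨h0, h2, h⟩ (i | j)
    · fin_cases i
      exacts [h0, h none, h2]
    · exact h (some j)

theorem sys_mkS {b ω : ℕ} (φ : S →+* R) {ϑ χ : MP d S} (h₁ : ϑ.Monic)
    (w₁ : ∀ i, (ϑ.coeff i).totalDegree ≤ b * (ϑ.natDegree - i)) (h₂ : χ.Monic)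
    (w₂ : ∀ i, (χ.coeff i).totalDegree ≤ b * (χ.natDegree - i)) {u : R[X]} {lam w : Fin d → R[X]}
    (hu : u.Monic) (hw : ∀ j, (w j).Monic) (hl : ∀ j, (lam j).natDegree < ω)
    {P : Option (Fin d) → MV d R} (hP : ∀ j, WB (wgt d b ϑ.natDegree ω) (Ftop ω u w j) (P j)) :
    Sys (wgt d b ϑ.natDegree ω)
      (Sum.elim ![1, u.natDegree, χ.natDegree] fun j => (w j).natDegree + 1)
      (mkS (MvPolynomial.X vs - emb φ ϑ) (emb φ χ) fun j => Fb u lam w j + P j) := by
  rintro (i | j)
  · fin_cases i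
    · show WB _ ((ϑ.natDegree * (b * ω + 1) + 1) * 1)
        (MvPolynomial.X vs - emb φ ϑ - MvPolynomial.X vs ^ 1)
      have e : MvPolynomial.X vs - emb φ ϑ - MvPolynomial.X vs ^ 1 =
          -((emb φ ϑ - MvPolynomial.X vT ^ ϑ.natDegree) + MvPolynomial.X vT ^ ϑ.natDegree) := by
        ring
      rw [e, mul_one]
      refine (((WB_emb_sub φ h₁ w₁).mono ?_).add (WB_X_pow vT _)).neg
      show _ ≤ ϑ.natDegree * (b * ω + 1) + 1
      rw [mul_comm]
      exact Nat.le_succ _
    · show WB _ (1 * u.natDegree) (up vt u + P none - MvPolynomial.X vt ^ u.natDegree)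
      rw [add_sub_right_comm]
      refine (WB_up_sub (w := wgt d b ϑ.natDegree ω) vt Nat.one_pos hu).add ?_
      show WB _ (1 * u.natDegree) _
      rw [one_mul]
      exact hP none
    · exact WB_emb_sub φ h₂ w₂
  · show WB _ (ω * ((w j).natDegree + 1))
      ((MvPolynomial.X (vy j) - up vt (lam j)) * up (vy j) (w j) + P (some j) -
        MvPolynomial.X (vy j) ^ ((w j).natDegree + 1))
    have e : (MvPolynomial.X (vy j) - up vt (lam j)) * up (vy j) (w j) + P (some j) -
        MvPolynomial.X (vy j) ^ ((w j).natDegree + 1) =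
        MvPolynomial.X (vy j) ^ 1 * (up (vy j) (w j) - MvPolynomial.X (vy j) ^ (w j).natDegree) -
          up vt (lam j) * up (vy j) (w j) + P (some j) := by
      ring
    have h0 := hl j
    rw [e]
    refine WB.add (WB.sub ?_ ?_) (hP (some j))
    · refine ((WB_X_pow (vy j) 1).mul (WB_up_sub (w := wgt d b ϑ.natDegree ω) (vy j)
        (show 0 < ω by omega) (hw j))).mono ?_
      show 1 * ω + ω * (w j).natDegree ≤ _
      exact le_of_eq (by ring)
    · refine ((WB_up vt le_rfl).mul (WB_up (vy j) le_rfl)).mono ?_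
      show (lam j).natDegree * 1 + ((w j).natDegree * ω + 1) ≤ _
      rw [mul_add, mul_comm ω]
      omega

theorem gw_row {κ σ : Type} [Field κ] [Fintype σ] {r v : σ → κ} (k₀ : σ) (h : ∑ k, r k * v k = 0)
    (h0 : ∀ k, k ≠ k₀ → r k = 0 ∨ v k = 0) (hr : r k₀ ≠ 0) : v k₀ = 0 := by
  rw [Finset.sum_eq_single k₀ (fun k _ hk => mul_eq_zero.2 (h0 k hk)) (by simp)] at h
  exact (mul_eq_zero.1 h).resolve_left hr

/-- the Jacobian of the local system is invertible -/
theorem jac_loc {κ : Type} [Field κ] (ψ : A →+* κ) (hψ : ∀ y, ψ y ≠ 0 → IsUnit y) (φ : S →+* A)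
    {ϑ : MP d S} {u : A[X]} {lam w : Fin d → A[X]} {x : Vr d → A} (t : A)
    {P : Option (Fin d) → MV d A}
    (hP : ∀ j b, b ≠ vs → ψ (MvPolynomial.eval₂ (RingHom.id A) x (MvPolynomial.pderiv b (P j))) = 0)
    (h₁ : ψ (ev2 φ (fun j => x (vy j)) (x vT) (derivative ϑ)) ≠ 0)
    (h₂ : ψ ((derivative u).eval (x vt)) ≠ 0)
    (h₃ : ∀ j, ψ ((w j).eval (x (vy j)) +
      (x (vy j) - (lam j).eval (x vt)) * (derivative (w j)).eval (x (vy j))) ≠ 0) :
    IsUnit (jac (RingHom.id A) (mkS (MvPolynomial.X vs - MvPolynomial.C t)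
      (emb φ ϑ - MvPolynomial.X vs) fun j => Fb u lam w j + P j) x).det := by
  refine hψ _ fun h0 => ?_
  rw [RingHom.map_det] at h0
  obtain ⟨v, hv, hm⟩ := Matrix.exists_mulVec_eq_zero_iff.2 h0
  have row : ∀ j, ∑ k, ψ (MvPolynomial.eval₂ (RingHom.id A) x (MvPolynomial.pderiv k
      (mkS (MvPolynomial.X vs - MvPolynomial.C t) (emb φ ϑ - MvPolynomial.X vs)
        (fun j => Fb u lam w j + P j) j))) * v k = 0 := fun j => congrFun hm j
  have e₁ : v vs = 0 := by
    refine gw_row vs (row vs) (fun k hk => Or.inl ?_) ?_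
    · show ψ (MvPolynomial.eval₂ _ x (MvPolynomial.pderiv k
        (MvPolynomial.X vs - MvPolynomial.C t))) = 0
      rw [map_sub, MvPolynomial.pderiv_X_of_ne hk.symm, MvPolynomial.pderiv_C, sub_zero,
        MvPolynomial.eval₂_zero, map_zero]
    · show ψ (MvPolynomial.eval₂ _ x (MvPolynomial.pderiv vs
        (MvPolynomial.X vs - MvPolynomial.C t))) ≠ 0
      rw [map_sub, MvPolynomial.pderiv_X_self, MvPolynomial.pderiv_C, sub_zero,
        MvPolynomial.eval₂_one, map_one]
      exact one_ne_zero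
  have e₂ : v vt = 0 := by
    refine gw_row vt (row vt) (fun k hk => ?_) ?_
    · by_cases hs : k = vs
      · exact Or.inr (hs ▸ e₁)
      · refine Or.inl ?_
        show ψ (MvPolynomial.eval₂ _ x (MvPolynomial.pderiv k (up vt u + P none))) = 0
        rw [map_add, pderiv_up, if_neg hk, zero_add, hP _ _ hs]
    · show ψ (MvPolynomial.eval₂ _ x (MvPolynomial.pderiv vt (up vt u + P none))) ≠ 0
      rw [map_add, pderiv_up, if_pos rfl, MvPolynomial.eval₂_add, map_add, hP _ _ gw_ne_st.symm,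
        add_zero, eval₂_up, eval₂_id]
      exact h₂
  have e₃ : ∀ j, v (vy j) = 0 := fun j => by
    refine gw_row (vy j) (row (vy j)) (fun k hk => ?_) ?_
    · by_cases hs : k = vs
      · exact Or.inr (hs ▸ e₁)
      by_cases ht : k = vt
      · exact Or.inr (ht ▸ e₂)
      refine Or.inl ?_
      show ψ (MvPolynomial.eval₂ _ x (MvPolynomial.pderiv k
        ((MvPolynomial.X (vy j) - up vt (lam j)) * up (vy j) (w j) + P (some j)))) = 0
      rw [map_add, Derivation.leibniz, map_sub, pderiv_up, pderiv_up, if_neg hk, if_neg ht,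
        MvPolynomial.pderiv_X_of_ne hk.symm, sub_zero, smul_zero, smul_zero, add_zero, zero_add,
        hP _ _ hs]
    · show ψ (MvPolynomial.eval₂ _ x (MvPolynomial.pderiv (vy j)
        ((MvPolynomial.X (vy j) - up vt (lam j)) * up (vy j) (w j) + P (some j)))) ≠ 0
      rw [map_add, Derivation.leibniz, map_sub, pderiv_up, pderiv_up, if_pos rfl,
        if_neg Sum.inr_ne_inl, MvPolynomial.pderiv_X_self, sub_zero, smul_eq_mul, smul_eq_mul,
        mul_one, MvPolynomial.eval₂_add, map_add, hP _ _ Sum.inr_ne_inl, add_zero,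
        MvPolynomial.eval₂_add, MvPolynomial.eval₂_mul, MvPolynomial.eval₂_sub,
        MvPolynomial.eval₂_X, eval₂_up, eval₂_up, eval₂_up, eval₂_id, eval₂_id, eval₂_id, add_comm]
      exact h₃ j
  have e₅ : ∀ k, k ≠ vT → v k = 0 := by
    rintro (i | j) hk
    · fin_cases i
      exacts [e₁, e₂, absurd rfl hk]
    · exact e₃ j
  have e₄ : v vT = 0 := by
    refine gw_row vT (row vT) (fun k hk => Or.inr (e₅ k hk)) ?_
    show ψ (MvPolynomial.eval₂ _ x (MvPolynomial.pderiv vT (emb φ ϑ - MvPolynomial.X vs))) ≠ 0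
    rw [map_sub, (pderiv_emb φ ϑ).1, MvPolynomial.pderiv_X_of_ne gw_ne_sT, sub_zero, eval₂_emb,
      RingHom.id_comp]
    exact h₁
  refine hv (funext fun k => ?_)
  by_cases hk : k = vT
  · exact hk ▸ e₄
  · exact e₅ k hk

theorem map_Fb (φ : R →+* S) (u : R[X]) (lam w : Fin d → R[X]) (j : Option (Fin d)) :
    MvPolynomial.map φ (Fb u lam w j) =
      Fb (u.map φ) (fun j => (lam j).map φ) (fun j => (w j).map φ) j := by
  cases j with
  | none => exact gw_map_up φ _ _
  | some j =>
    show MvPolynomial.map φ ((MvPolynomial.X (vy j) - up vt (lam j)) * up (vy j) (w j)) = _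
    rw [map_mul, map_sub, gw_map_up, gw_map_up, MvPolynomial.map_X]
    rfl

end Pool.Agent.ZeroCyc
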