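import Pool.Agent.Lib.MP_796ce4_ag.ZQ.HSys
import Pool.Agent.Lib.MP_796ce4_ag.ZY.ChB
import Pool.Agent.Lib.MP_796ce4_ag.ZY.CvD

/-! A plane model of the zero set of a one-parameter family of systems. -/

namespace Pool.Agent.ZeroCyc

open Polynomial Module
open scoped Classical IntermediateField PowerSeries

set_option linter.unusedSectionVars false

variable {σ : Type} [Fintype σ]

section ring

variable {R S T : Type} [CommRing R] [CommRing S] [CommRing T]

/-- the value of a linear form -/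
def thv (φ : R →+* S) (θ : σ → R) (z : σ → S) : S := ∑ j, φ (θ j) * z j

theorem map_thv (ψ : S →+* T) (φ : R →+* S) (θ : σ → R) (z : σ → S) :
    ψ (thv φ θ z) = thv (ψ.comp φ) θ fun j => ψ (z j) := by
  simp [thv]

/-- the polynomial with the given roots -/
noncomputable def hspE {A : Type} (Z : Finset A) (t : A → S) : S[X] := ∏ z ∈ Z, (X - C (t z))

/-- the interpolation polynomial -/
noncomputable def hspP {A : Type} (Z : Finset A) (t c : A → S) : S[X] :=
  ∑ z ∈ Z, C (c z) * ∏ z' ∈ Z.erase z, (X - C (t z'))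

theorem hspE_map {A : Type} (Z : Finset A) (t : A → S) (ψ : S →+* T) :
    (hspE Z t).map ψ = hspE Z fun z => ψ (t z) := by
  simp [hspE, Polynomial.map_prod]

theorem hspP_map {A : Type} (Z : Finset A) (t c : A → S) (ψ : S →+* T) :
    (hspP Z t c).map ψ = hspP Z (fun z => ψ (t z)) fun z => ψ (c z) := by
  simp [hspP, Polynomial.map_prod, Polynomial.map_sum]

theorem hspP_eval {A : Type} {Z : Finset A} (t c : A → S) {z : A} (hz : z ∈ Z) :
    (hspP Z t c).eval (t z) = c z * ∏ z' ∈ Z.erase z, (t z - t z') := by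
  rw [hspP, eval_finsetSum, Finset.sum_eq_single z]
  · simp [eval_prod]
  · intro y _ hy
    rw [eval_mul, eval_prod, Finset.prod_eq_zero (Finset.mem_erase.2 ⟨hy.symm, hz⟩) (by simp),
      mul_zero]
  · exact fun h => absurd hz h

theorem hspE_derivative {A : Type} (Z : Finset A) (t : A → S) :
    derivative (hspE Z t) = hspP Z t fun _ => 1 := by
  rw [hspE, derivative_prod_finset]
  simp [hspP]

theorem hspE_der_ne [IsDomain S] {A : Type} {Z : Finset A} {t : A → S} (h : Set.InjOn t Z) {z : A}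
    (hz : z ∈ Z) : (derivative (hspE Z t)).eval (t z) ≠ 0 := by
  rw [hspE_derivative, hspP_eval _ _ hz, one_mul]
  exact Finset.prod_ne_zero_iff.2 fun z' hz' e => (Finset.mem_erase.1 hz').1
    (h (Finset.mem_erase.1 hz').2 hz (sub_eq_zero.1 e).symm)

theorem hspE_equiv {A : Type} {Z : Finset A} (e : A ≃ A) (he : ∀ z, z ∈ Z ↔ e z ∈ Z) (t : A → S) :
    hspE Z (fun z => t (e z)) = hspE Z t :=
  Finset.prod_equiv e he fun _ _ => rfl

theorem hspP_equiv {A : Type} {Z : Finset A} (e : A ≃ A) (he : ∀ z, z ∈ Z ↔ e z ∈ Z)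
    (t c : A → S) : hspP Z (fun z => t (e z)) (fun z => c (e z)) = hspP Z t c := by
  refine Finset.sum_equiv e he fun z _ => ?_
  congr 1
  refine Finset.prod_equiv e (fun y => ?_) fun _ _ => rfl
  rw [Finset.mem_erase, Finset.mem_erase, he, e.injective.ne_iff]

end ring

variable {k : Type} [Field k] [CharZero k]

/-- an algebraic closure of the field of rational functions -/
abbrev hspO (k : Type) [Field k] : Type := AlgebraicClosure (RatFunc k)

/-- the integral closure of the polynomial ring -/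
noncomputable abbrev hspB (k : Type) [Field k] : Type := integralClosure k[X] (hspO k)

theorem hsp_inj : Function.Injective (algebraMap k[X] (hspO k)) := by
  rw [IsScalarTower.algebraMap_eq k[X] (RatFunc k) (hspO k)]
  exact (algebraMap (RatFunc k) (hspO k)).injective.comp (IsFractionRing.injective _ _)

theorem hsp_injB : Function.Injective (algebraMap k[X] (hspB k)) := fun _ _ h =>
  hsp_inj (congrArg Subtype.val h)

theorem hsp_descent (E : (hspB k)[X]) (hE : ∀ τ : hspB k ≃ₐ[k[X]] hspB k, E.map τ = E) :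
    ∃ Ψ : k[X][X], Ψ.map (algebraMap k[X] (hspB k)) = E := by
  refine (mem_lifts E).1 ((lifts_iff_coeff_lifts E).2 fun n => ?_)
  have : IsGalois (RatFunc k) (hspO k) := {}
  obtain ⟨f, hf⟩ := (InfiniteGalois.mem_range_algebraMap_iff_fixed (k := RatFunc k)
    (E.coeff n : hspO k)).2 fun τ => by
      have h1 := congrArg (fun g : (hspB k)[X] => ((coeff g n : hspB k) : hspO k))
        (hE (τ.restrictScalars k[X]).mapIntegralClosure)
      simp only [coeff_map] at h1
      exact h1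
  have h2 : IsIntegral k[X] f :=
    (isIntegral_algebraMap_iff (algebraMap (RatFunc k) (hspO k)).injective).1
      (hf ▸ (E.coeff n).2)
  obtain ⟨g, hg⟩ := IsIntegrallyClosed.isIntegral_iff.1 h2
  refine ⟨g, Subtype.ext ?_⟩
  rw [← hf, ← hg]
  exact IsScalarTower.algebraMap_apply k[X] (RatFunc k) (hspO k) g

variable {w M : σ → ℕ} {F : σ → MvPolynomial σ k[X]}

/-- every zero over a domain comes from a zero over the integral closure -/
theorem hsp_univ (h : Sys w M F) {D : Type} [CommRing D] [IsDomain D] {φ : k[X] →+* D}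
    (hφ : Function.Injective φ) {z : σ → D} (hz : ∀ i, MvPolynomial.eval₂ φ z (F i) = 0) :
    ∃ (Ω : Type) (_ : Field Ω) (ι : D →+* Ω) (ψ : hspB k →+* Ω) (z₀ : σ → hspB k),
      Function.Injective ι ∧ ψ.comp (algebraMap k[X] (hspB k)) = ι.comp φ ∧
      (∀ i, MvPolynomial.eval₂ (algebraMap k[X] (hspB k)) z₀ (F i) = 0) ∧
      ∀ j, ψ (z₀ j) = ι (z j) := by
  let Ω := AlgebraicClosure (FractionRing D)
  let ι : D →+* Ω := (algebraMap (FractionRing D) Ω).comp (algebraMap D (FractionRing D))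
  have hι : Function.Injective ι :=
    (algebraMap (FractionRing D) Ω).injective.comp (IsFractionRing.injective D _)
  have hιφ : Function.Injective (ι.comp φ) := hι.comp hφ
  obtain ⟨φ₁, hφ₁⟩ : ∃ φ₁ : RatFunc k →+* Ω, ∀ g, φ₁ (algebraMap k[X] (RatFunc k) g) = ι.comp φ g :=
    ⟨IsFractionRing.lift hιφ, IsFractionRing.lift_algebraMap hιφ⟩
  obtain ⟨ψ₁, h1⟩ := exists_ext_of_isIntegral (φ := algebraMap (RatFunc k) (hspO k))
    (fun x => Algebra.IsIntegral.isIntegral x) φ₁ (by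
      rw [(RingHom.injective_iff_ker_eq_bot _).1 (algebraMap (RatFunc k) (hspO k)).injective]
      exact bot_le)
  have h2 : ψ₁.comp (algebraMap k[X] (hspO k)) = ι.comp φ := by
    rw [IsScalarTower.algebraMap_eq k[X] (RatFunc k) (hspO k), ← RingHom.comp_assoc, h1]
    exact RingHom.ext hφ₁
  choose g hg h0 using h.exists_monic
  have h3 : ∀ j, ∃ b : hspB k, ψ₁ b = ι (z j) := fun j => by
    have h4 : (((g j).map (algebraMap k[X] (hspO k))).map ψ₁).IsRoot (ι (z j)) := by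
      rw [Polynomial.map_map, h2, IsRoot, eval_map, ← hom_eval₂, h0 j D φ z hz, map_zero]
    obtain ⟨b, hb⟩ := (IsAlgClosed.splits _).mem_range_of_isRoot ((hg j).map _).ne_zero h4
    refine ⟨⟨b, g j, hg j, ψ₁.injective ?_⟩, hb⟩
    rw [hom_eval₂, h2, hb, ← hom_eval₂, h0 j D φ z hz, map_zero, map_zero]
  choose z₀ hz₀ using h3
  let ψ : hspB k →+* Ω := ψ₁.comp (integralClosure k[X] (hspO k)).val.toRingHom
  have hψ : Function.Injective ψ := ψ₁.injective.comp Subtype.val_injective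
  have h5 : ψ.comp (algebraMap k[X] (hspB k)) = ι.comp φ := h2
  refine ⟨Ω, inferInstance, ι, ψ, z₀, hι, h5, fun i => hψ ?_, hz₀⟩
  rw [MvPolynomial.eval₂_comp_left, h5, map_zero, show ψ ∘ z₀ = ι ∘ z from funext hz₀,
    ← MvPolynomial.eval₂_comp_left, hz, map_zero]

variable {Λ : Type} [Field Λ] [IsAlgClosed Λ]

/-- simple zeros deform -/
theorem hsp_deform (ι : k →+* Λ) (F : σ → MvPolynomial σ k[X]) (s₀ : Λ) {Q : σ → Λ}
    (hQ : ∀ i, MvPolynomial.eval₂ (eval₂RingHom ι s₀) Q (F i) = 0)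
    (hd : (jac (eval₂RingHom ι s₀) F Q).det ≠ 0) : ∃ z : σ → Λ⟦X⟧,
      (∀ i, MvPolynomial.eval₂ ((sh s₀).comp (mapRingHom ι)) z (F i) = 0) ∧
        ∀ j, PowerSeries.constantCoeff (z j) = Q j := by
  set φ : k[X] →+* Λ⟦X⟧ := (sh s₀).comp (mapRingHom ι) with hφ
  have e : (PowerSeries.constantCoeff (R := Λ)).comp φ = eval₂RingHom ι s₀ :=
    RingHom.ext fun g => by
      rw [hφ, RingHom.comp_apply, RingHom.comp_apply, constantCoeff_sh, coe_mapRingHom, eval_map]
      rfl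
  have hm : ∀ f : Λ⟦X⟧, f ∈ Ideal.span {(PowerSeries.X : Λ⟦X⟧)} ↔
      PowerSeries.constantCoeff f = 0 := fun f => by
    rw [Ideal.mem_span_singleton, PowerSeries.X_dvd_iff]
  have e0 : (fun j => PowerSeries.constantCoeff (PowerSeries.C (Q j) : Λ⟦X⟧)) = Q :=
    funext fun j => PowerSeries.constantCoeff_C _
  obtain ⟨z, h1, h2, -⟩ := sys_newton (Ideal.span {(PowerSeries.X : Λ⟦X⟧)}) φ F
    (fun j => PowerSeries.C (Q j)) (fun j => by
      rw [hm, MvPolynomial.eval₂_comp_left, e]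
      exact (congrArg (fun v => MvPolynomial.eval₂ _ v (F j)) e0).trans (hQ j))
    ((jac (eval₂RingHom ι s₀) F Q)⁻¹.map PowerSeries.C) (fun j l => by
      rw [hm]
      have h3 : (jac φ F (fun j => PowerSeries.C (Q j)) *
          (jac (eval₂RingHom ι s₀) F Q)⁻¹.map PowerSeries.C - 1).map
            (PowerSeries.constantCoeff (R := Λ)) = 0 := by
        rw [Matrix.map_sub _ (map_sub _), Matrix.map_mul, map_jac, e, e0, Matrix.map_map,
          Matrix.map_one _ (map_zero _) (map_one _)]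
        have : (jac (eval₂RingHom ι s₀) F Q)⁻¹.map ((PowerSeries.constantCoeff (R := Λ)) ∘
          (PowerSeries.C : Λ →+* Λ⟦X⟧)) = (jac (eval₂RingHom ι s₀) F Q)⁻¹ := by
          ext a b
          simp
        rw [this, Matrix.mul_nonsing_inv _ hd.isUnit, sub_self]
      exact congrFun (congrFun h3 j) l) ⊤ (fun _ => trivial) (fun _ => trivial)
    (fun _ _ => trivial)
  refine ⟨z, h1, fun j => ?_⟩
  have := (hm _).1 (h2 j)
  rwa [map_sub, PowerSeries.constantCoeff_C, sub_eq_zero] at this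

/-- elimination -/
theorem exists_plane (ι : k →+* Λ) (h : Sys w M F) (θ : σ → k) :
    ∃ (Ψ : k[X][X]) (P : σ → k[X][X]), Ψ.Monic ∧
      (∀ s₀ x : Λ, e2 ι s₀ x Ψ = 0 → ∃ z : σ → Λ,
        (∀ i, MvPolynomial.eval₂ (eval₂RingHom ι s₀) z (F i) = 0) ∧ thv ι θ z = x ∧
          ∀ j, e2 ι s₀ x (P j) = z j * e2 ι s₀ x (derivative Ψ)) ∧
      ∀ (s₀ : Λ) (Z : Finset (σ → Λ)),
        (∀ z, z ∈ Z ↔ ∀ i, MvPolynomial.eval₂ (eval₂RingHom ι s₀) z (F i) = 0) →
        (∀ z ∈ Z, (jac (eval₂RingHom ι s₀) F z).det ≠ 0) → Set.InjOn (thv ι θ) Z →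
        Ψ.map (eval₂RingHom ι s₀) = hspE Z (thv ι θ) := by
  set a := algebraMap k[X] (hspB k) with ha
  set 𝒵 := (h.finite_zeros a).toFinset with h𝒵
  have hZ : ∀ z, z ∈ 𝒵 ↔ ∀ i, MvPolynomial.eval₂ a z (F i) = 0 := fun z =>
    Set.Finite.mem_toFinset _
  set t : (σ → hspB k) → hspB k := thv (a.comp C) θ with ht
  have hperm : ∀ τ : hspB k ≃ₐ[k[X]] hspB k, ∃ e : (σ → hspB k) ≃ (σ → hspB k),
      (∀ z, z ∈ 𝒵 ↔ e z ∈ 𝒵) ∧ (∀ z j, τ (z j) = e z j) ∧ ∀ z, τ (t z) = t (e z) := by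
    intro τ
    have hτ : (τ : hspB k →+* hspB k).comp a = a := RingHom.ext fun g => τ.commutes g
    refine ⟨Equiv.piCongrRight fun _ => τ.toEquiv, fun z => ?_, fun _ _ => rfl, fun z => ?_⟩
    · rw [hZ, hZ]
      refine forall_congr' fun i => ?_
      have h1 := MvPolynomial.eval₂_comp_left (τ : hspB k →+* hspB k) a z (F i)
      rw [hτ] at h1
      exact (map_eq_zero_iff (τ : hspB k →+* hspB k) τ.injective).symm.trans (by rw [h1]; rfl)
    · have h1 := map_thv (τ : hspB k →+* hspB k) (a.comp C) θ z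
      rw [← RingHom.comp_assoc, hτ] at h1
      exact h1
  obtain ⟨Ψ, hΨ⟩ := hsp_descent (hspE 𝒵 t) fun τ => by
    obtain ⟨e, h1, -, h3⟩ := hperm τ
    rw [hspE_map, ← hspE_equiv e h1 t]
    exact congrArg _ (funext h3)
  choose P hP using fun j => hsp_descent (hspP 𝒵 t fun z => z j) fun τ => by
    obtain ⟨e, h1, h2, h3⟩ := hperm τ
    rw [hspP_map, ← hspP_equiv e h1 t]
    exact congrArg₂ _ (funext h3) (funext fun z => h2 z j)
  have hsp : ∀ s₀ : Λ, ∃ ψ : hspB k →+* Λ, ψ.comp a = eval₂RingHom ι s₀ := fun s₀ =>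
    exists_ext_of_isIntegral (φ := a) (fun x => Algebra.IsIntegral.isIntegral x) _ (by
      rw [(RingHom.injective_iff_ker_eq_bot _).1 hsp_injB]
      exact bot_le)
  have hC : ∀ s₀ : Λ, (eval₂RingHom ι s₀).comp C = ι := fun s₀ => RingHom.ext fun c => eval₂_C _ _
  have hz : ∀ {s₀ : Λ} {ψ : hspB k →+* Λ}, ψ.comp a = eval₂RingHom ι s₀ → ∀ z ∈ 𝒵,
      (∀ i, MvPolynomial.eval₂ (eval₂RingHom ι s₀) (fun j => ψ (z j)) (F i) = 0) ∧
        ψ (t z) = thv ι θ fun j => ψ (z j) := by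
    intro s₀ ψ hψ z hz
    refine ⟨fun i => ?_, by rw [ht, map_thv, ← RingHom.comp_assoc, hψ, hC]⟩
    have h1 := MvPolynomial.eval₂_comp_left ψ a z (F i)
    rw [(hZ z).1 hz, map_zero, hψ] at h1
    exact h1.symm
  have hmap : ∀ {s₀ : Λ} {ψ : hspB k →+* Λ}, ψ.comp a = eval₂RingHom ι s₀ → ∀ G : k[X][X],
      G.map (eval₂RingHom ι s₀) = (G.map a).map ψ := fun hψ G => by rw [Polynomial.map_map, hψ]
  have hmon : Ψ.Monic := monic_of_injective hsp_injB
    (hΨ ▸ monic_prod_of_monic _ _ fun z _ => monic_X_sub_C _)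
  refine ⟨Ψ, P, hmon, fun s₀ x hx => ?_, fun s₀ Z h1 h2 h3 => ?_⟩
  · obtain ⟨ψ, hψ⟩ := hsp s₀
    have e : ∀ G : k[X][X], e2 ι s₀ x G = ((G.map a).map ψ).eval x := fun G => by
      rw [← hmap hψ, eval_map]
      rfl
    rw [e, hΨ, hspE_map, hspE, eval_prod, Finset.prod_eq_zero_iff] at hx
    obtain ⟨z, hz1, hz2⟩ := hx
    rw [eval_sub, eval_X, eval_C, sub_eq_zero] at hz2
    refine ⟨fun j => ψ (z j), (hz hψ z hz1).1, by rw [hz2, (hz hψ z hz1).2], fun j => ?_⟩
    rw [e, e, ← derivative_map, hΨ, hP, hspE_derivative, hspP_map, hspP_map, hz2,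
      hspP_eval (fun z => ψ (t z)) _ hz1, hspP_eval (fun z => ψ (t z)) _ hz1, map_one, one_mul]
  · obtain ⟨ψ, hψ⟩ := hsp s₀
    have e : Ψ.map (eval₂RingHom ι s₀) = hspE 𝒵 fun z => ψ (t z) := by
      rw [hmap hψ, hΨ, hspE_map]
    rw [e]
    refine Finset.prod_bij (fun z _ j => ψ (z j)) (fun z hz1 => (h1 _).2 (hz hψ z hz1).1)
      (fun z hz1 z' hz2 e1 => ?_) (fun Q hQ => ?_) fun z hz1 => congrArg (fun c => X - C c) (hz hψ z hz1).2
    · refine sys_unique ψ a F (fun j => by rw [(hZ z).1 hz1, (hZ z').1 hz2]) (congrFun e1) ?_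
      rw [hψ]
      exact h2 _ ((h1 _).2 (hz hψ z' hz2).1)
    · obtain ⟨y, hy1, hy2⟩ := hsp_deform ι F s₀ ((h1 Q).1 hQ) (h2 Q hQ)
      set φ : k[X] →+* Λ⟦X⟧ := (sh s₀).comp (mapRingHom ι) with hφ
      have hinj : Function.Injective φ := by
        refine Function.Injective.comp (g := sh s₀) (fun u v huv => ?_)
          (map_injective ι ι.injective)
        rw [sh_eq_taylor, sh_eq_taylor] at huv
        exact taylor_injective s₀ (Polynomial.coe_injective Λ huv)
      obtain ⟨Ω, _, ι', ψ', z₀, g1, g2, g3, g4⟩ := hsp_univ h hinj hy1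
      have g5 : Ψ.eval₂ φ (thv (φ.comp C) θ y) = 0 := by
        refine g1 ?_
        rw [hom_eval₂, map_thv, ← RingHom.comp_assoc C φ, ← g2, ← eval_map, ← Polynomial.map_map, hΨ,
          hspE_map, hspE, eval_prod, map_zero]
        refine Finset.prod_eq_zero ((hZ z₀).2 g3) ?_
        rw [eval_sub, eval_X, eval_C, ht, map_thv, ← RingHom.comp_assoc, funext g4, sub_self]
      have g6 : (PowerSeries.constantCoeff (R := Λ)).comp φ = eval₂RingHom ι s₀ :=
        RingHom.ext fun g => by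
          rw [hφ, RingHom.comp_apply, RingHom.comp_apply, constantCoeff_sh, coe_mapRingHom,
            eval_map]
          rfl
      have g7 := congrArg (PowerSeries.constantCoeff (R := Λ)) g5
      rw [hom_eval₂, map_thv, ← RingHom.comp_assoc C φ, g6, hC, funext hy2, map_zero, ← eval_map, e,
        hspE, eval_prod, Finset.prod_eq_zero_iff] at g7
      obtain ⟨z, hz1, hz2⟩ := g7
      rw [eval_sub, eval_X, eval_C, sub_eq_zero, (hz hψ z hz1).2] at hz2
      exact ⟨z, hz1, (h3 hQ ((h1 _).2 (hz hψ z hz1).1) hz2).symm⟩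

end Pool.Agent.ZeroCyc
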