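import Pool.Agent.Lib.MP_796ce4_ag.ZQ.GDefs
import Pool.Agent.Lib.MP_796ce4_ag.ZY.PRa

/-! Interpolation and the choice of auxiliary roots. -/

namespace Pool.Agent.ZeroCyc

open Polynomial Module
open scoped Classical IntermediateField PowerSeries

set_option linter.unusedSectionVars false

/-- evaluation along a curve -/
theorem kint_eval {R κ : Type} [CommRing R] [CommRing κ] {d : ℕ} (φ : R →+* κ)
    (lam : Fin d → κ[X]) (t : κ) (D : MvPolynomial (Fin d) R) :
    (MvPolynomial.eval₂ (C.comp φ) lam D).eval t =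
      MvPolynomial.eval₂ φ (fun j => (lam j).eval t) D := by
  have h := MvPolynomial.hom_eval₂ D (C.comp φ) (evalRingHom t) lam
  have e : (evalRingHom t).comp (C.comp φ) = φ := RingHom.ext fun c => by simp
  rw [e] at h
  exact h

/-- the values of one coordinate at which the polynomial vanishes -/
theorem kint_line {κ : Type} [Field κ] {d : ℕ} {D : MvPolynomial (Fin d) κ} {e : ℕ}
    (he : D.totalDegree ≤ e) (j : Fin d) (y : Fin d → κ) : ∃ Z : Finset κ, Z.card ≤ e ∧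
      (MvPolynomial.eval y D ≠ 0 → ∀ x ∉ Z, MvPolynomial.eval (Function.update y j x) D ≠ 0) := by
  let P : κ[X] := MvPolynomial.eval₂ (C.comp (RingHom.id κ))
    (fun i => if i = j then X else C (y i)) D
  have h1 : ∀ x, P.eval x = MvPolynomial.eval (Function.update y j x) D := fun x => by
    rw [kint_eval, MvPolynomial.eval₂_id]
    congr 2
    funext i
    by_cases h : i = j
    · rw [if_pos h, eval_X, h, Function.update_self]
    · rw [if_neg h, eval_C, Function.update_of_ne h]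
  have h2 : P.natDegree ≤ D.totalDegree * 1 := natDegree_eval₂_le _ (fun i => by
    split_ifs
    · exact natDegree_X_le
    · simp) D
  refine ⟨P.roots.toFinset, (Multiset.toFinset_card_le _).trans ((card_roots' P).trans (by omega)),
    fun h0 x hx e0 => hx ?_⟩
  have h3 : P ≠ 0 := fun e1 => h0 (by rw [← Function.update_eq_self j y, ← h1, e1, eval_zero])
  exact Multiset.mem_toFinset.2 ((mem_roots h3).2 ((h1 x).trans e0))

theorem kint_grid {κ : Type} [Field κ] {d : ℕ} {D : MvPolynomial (Fin d) κ} {e : ℕ}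
    (he : D.totalDegree ≤ e) (𝒯 : Finset (Fin d → κ)) (h𝒯 : ∀ y ∈ 𝒯, MvPolynomial.eval y D ≠ 0)
    (g : ℕ) (S : Set κ) (hS : ∀ Z : Finset κ, Z.card ≤ g + 𝒯.card * ((g + 1) ^ d * e + 1) →
      ∃ x ∈ S, x ∉ Z) (n : ℕ) : ∀ c : Fin d → ℕ, ∑ j, c j = n → (∀ j, c j ≤ g) →
      ∃ W : Fin d → Finset κ, (∀ j, (W j).card = c j) ∧
        (∀ j, ∀ x ∈ W j, x ∈ S ∧ ∀ y ∈ 𝒯, x ≠ y j) ∧
        ∀ y ∈ 𝒯, ∀ y' : Fin d → κ, (∀ j, y' j ∈ insert (y j) (W j)) →
          MvPolynomial.eval y' D ≠ 0 := by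
  induction n with
  | zero =>
    intro c hc _
    refine ⟨fun _ => ∅, fun j => ?_, fun j x hx => absurd hx (Finset.notMem_empty x),
      fun y hy y' h => ?_⟩
    · rw [Finset.card_empty, Finset.sum_eq_zero_iff.1 hc j (Finset.mem_univ j)]
    · rw [show y' = y from funext fun j => by simpa using h j]
      exact h𝒯 y hy
  | succ n ih =>
    intro c hc hg
    obtain ⟨j, -, hj⟩ := Finset.exists_ne_zero_of_sum_ne_zero (hc.trans_ne n.succ_ne_zero)
    have hc' : ∀ i, Function.update c j (c j - 1) i ≤ g := fun i => by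
      by_cases h : i = j
      · rw [h, Function.update_self]
        exact (Nat.sub_le _ _).trans (hg j)
      · rw [Function.update_of_ne h]
        exact hg i
    obtain ⟨W, h1, h2, h3⟩ := ih (Function.update c j (c j - 1)) (by
      rw [Finset.sum_update_of_mem (Finset.mem_univ j)]
      rw [← Finset.add_sum_erase _ _ (Finset.mem_univ j), ← Finset.sdiff_singleton_eq_erase] at hc
      omega) hc'
    have hW : ∀ i, (W i).card ≤ g := fun i => (h1 i).trans_le (hc' i)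
    choose Z hZ1 hZ2 using kint_line he j
    obtain ⟨x, hxS, hx⟩ := hS (W j ∪ 𝒯.biUnion fun y => insert (y j)
      ((Fintype.piFinset fun i => insert (y i) (W i)).biUnion Z)) (by
        refine (Finset.card_union_le _ _).trans (add_le_add (hW j) ?_)
        refine Finset.card_biUnion_le_card_mul _ _ _ fun y _ => ?_
        refine (Finset.card_insert_le _ _).trans (Nat.succ_le_succ ?_)
        refine (Finset.card_biUnion_le_card_mul _ _ e fun y' _ => hZ1 y').trans
          (Nat.mul_le_mul_right _ ?_)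
        rw [Fintype.card_piFinset]
        refine (Finset.prod_le_pow_card _ _ (g + 1) fun i _ =>
          (Finset.card_insert_le _ _).trans (Nat.succ_le_succ (hW i))).trans ?_
        rw [Finset.card_univ, Fintype.card_fin])
    simp only [Finset.mem_union, Finset.mem_biUnion, Finset.mem_insert, not_or, not_exists,
      not_and, Fintype.mem_piFinset] at hx
    refine ⟨Function.update W j (insert x (W j)), fun i => ?_, fun i z hz => ?_,
      fun y hy y' h => ?_⟩
    · by_cases h : i = j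
      · rw [h, Function.update_self, Finset.card_insert_of_notMem hx.1, h1, Function.update_self]
        omega
      · rw [Function.update_of_ne h, h1, Function.update_of_ne h]
    · by_cases h : i = j
      · rw [h, Function.update_self, Finset.mem_insert] at hz
        rw [h]
        rcases hz with rfl | hz
        · exact ⟨hxS, fun y hy => (hx.2 y hy).1⟩
        · exact h2 j z hz
      · rw [Function.update_of_ne h] at hz
        exact h2 i z hz
    · have h4 : ∀ i, i ≠ j → y' i ∈ insert (y i) (W i) := fun i hi => by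
        have := h i
        rwa [Function.update_of_ne hi] at this
      by_cases hy' : y' j = x
      · have h5 : ∀ i, Function.update y' j (y j) i ∈ insert (y i) (W i) := fun i => by
          by_cases hi : i = j
          · rw [hi, Function.update_self]
            exact Finset.mem_insert_self _ _
          · rw [Function.update_of_ne hi]
            exact h4 i hi
        have h6 := hZ2 _ (h3 y hy _ h5) x
          ((hx.2 y hy).2 _ fun i => Finset.mem_insert.1 (h5 i))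
        rwa [Function.update_idem, ← hy', Function.update_eq_self] at h6
      · refine h3 y hy y' fun i => ?_
        by_cases hi : i = j
        · have := h j
          rw [Function.update_self, Finset.mem_insert, Finset.mem_insert] at this
          rw [hi, Finset.mem_insert]
          tauto
        · exact h4 i hi

/-- every polynomial of degree at most `e` that does not vanish on the curve stays non-zero on a
grid whose coordinates are chosen one after the other -/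
theorem exists_grid {κ : Type} [Field κ] {d : ℕ} {D : MvPolynomial (Fin d) κ} {e : ℕ}
    (he : D.totalDegree ≤ e) (𝒯 : Finset (Fin d → κ)) (h𝒯 : ∀ y ∈ 𝒯, MvPolynomial.eval y D ≠ 0)
    (g : ℕ) (S : Set κ) (hS : ∀ Z : Finset κ, Z.card ≤ g + 𝒯.card * ((g + 1) ^ d * e + 1) →
      ∃ x ∈ S, x ∉ Z) : ∃ ω : Fin d → Fin g → κ, (∀ j l, ω j l ∈ S) ∧
      (∀ j, Function.Injective (ω j)) ∧ (∀ j l, ∀ y ∈ 𝒯, ω j l ≠ y j) ∧
      ∀ y ∈ 𝒯, ∀ y' : Fin d → κ, (∀ j, y' j = y j ∨ ∃ l, y' j = ω j l) →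
        MvPolynomial.eval y' D ≠ 0 := by
  obtain ⟨W, h1, h2, h3⟩ := kint_grid he 𝒯 h𝒯 g S hS _ (fun _ => g) rfl fun _ => le_rfl
  refine ⟨fun j l => (Finset.equivFinOfCardEq (h1 j)).symm l,
    fun j l => (h2 j _ (Subtype.property _)).1,
    fun j => Subtype.val_injective.comp (Equiv.injective _),
    fun j l => (h2 j _ (Subtype.property _)).2, fun y hy y' h => h3 y hy y' fun j => ?_⟩
  rcases h j with h | ⟨l, h⟩
  · exact Finset.mem_insert.2 (Or.inl h)
  · exact Finset.mem_insert.2 (Or.inr (h ▸ Subtype.property _))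

/-- the roots of a product of different linear factors are simple -/
theorem prod_simple {κ I : Type} [Field κ] [Fintype I] {a : I → κ} (ha : Function.Injective a)
    {t : κ} (ht : (∏ i, (X - C (a i))).eval t = 0) :
    (∃ i, t = a i) ∧ (derivative (∏ i, (X - C (a i)))).eval t ≠ 0 := by
  have key : ∀ s : Finset I, (∏ i ∈ s, (X - C (a i))).eval t = 0 → ∃ i ∈ s, t = a i :=
    fun s hs => by
      rw [eval_prod] at hs
      obtain ⟨i, hi, e⟩ := Finset.prod_eq_zero_iff.1 hs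
      rw [eval_sub, eval_X, eval_C] at e
      exact ⟨i, hi, sub_eq_zero.1 e⟩
  obtain ⟨i, -, hi⟩ := key _ ht
  refine ⟨⟨i, hi⟩, fun h => ?_⟩
  rw [← Finset.mul_prod_erase _ _ (Finset.mem_univ i), derivative_mul, derivative_X_sub_C, one_mul,
    eval_add, eval_mul, eval_sub, eval_X, eval_C, ← hi, sub_self, zero_mul, add_zero] at h
  obtain ⟨j, hj, e⟩ := key _ h
  exact (Finset.mem_erase.1 hj).1 (ha (e.symm.trans hi))

variable {p : ℕ} {K Λ : Type} [Field K] [CharZero K] [NormedField Λ] [IsUltrametricDist Λ]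
  [IsAlgClosed Λ] [Algebra K Λ] [IsGalois K Λ] [Loc p K Λ] [Fact p.Prime] [CharP (kk Λ) p]
variable {N : ℕ} {J : Ideal (MvPolynomial (Fin (N + 1)) K)} {B L L' : IntermediateField K Λ}

namespace QChart

variable {𝒞 : QChart J B}

/-- a polynomial in `τ` and `s` with a prescribed expansion at `τ = ζ` -/
theorem exists_int (hB : B ≤ L) (hL : L ≤ L') {D : ℕ} {ζ : Λ} (hζ : ζ ∈ OL L')
    (hR : ∀ x ∈ L', ‖x‖ ≤ 1 → ∃ R : (OL L)[X], R.natDegree < D ∧ R.eval₂ (OL L).subtype ζ = x)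
    {k : ℕ} {f : Λ⟦X⟧} (hf : f ∈ fS L' (𝒞.π : Λ) k) (M ω : ℕ) :
    ∃ P ∈ 𝒞.mI hB ^ k, WB (𝒞.wg ω) (D + M * 𝒞.wg ω vs) P ∧ ∀ x : Vr 𝒞.d → Λ⟦X⟧,
      x vt = PowerSeries.C ζ → x vs = PowerSeries.X →
        MvPolynomial.eval₂ (cS L) x P - f ∈ fS L' (𝒞.π : Λ) M := by
  have hπ : ∀ i, (𝒞.π : Λ) ^ i ≠ 0 := fun i => pow_ne_zero _ 𝒞.π_ne
  choose R hR1 hR2 using fun i => hR (PowerSeries.coeff i f / (𝒞.π : Λ) ^ (k - i))
    (div_mem (hf i).1 (pow_mem (hL (hB 𝒞.π.2.1)) _)) (by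
      rw [norm_div, norm_pow]
      exact div_le_one_of_le₀ (hf i).2 (by positivity))
  refine ⟨∑ i ∈ Finset.range M, MvPolynomial.C (inc hB 𝒞.π ^ (k - i)) * MvPolynomial.X vs ^ i *
    up vt (R i), Ideal.sum_mem _ fun i _ => Ideal.mul_mem_right _ _ ?_, WB.sum fun i hi => ?_,
    fun x hx hs => ?_⟩
  · refine Ideal.pow_le_pow_right (n := k - i + i) (by omega) ?_
    rw [pow_add, map_pow]
    exact Ideal.mul_mem_mul (Ideal.pow_mem_pow (Ideal.subset_span (by simp)) _)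
      (Ideal.pow_mem_pow (Ideal.subset_span (by simp)) _)
  · have h1 := (WB_C (w := 𝒞.wg ω) (inc hB 𝒞.π ^ (k - i))).mul (n := 0) (WB_X_pow vs i)
    rw [zero_add] at h1
    refine (h1.mul (WB_up vt le_rfl)).mono ?_
    have h2 : 𝒞.wg ω vt = 1 := rfl
    have h3 := hR1 i
    have h4 := Nat.mul_le_mul_right (𝒞.wg ω vs) (Finset.mem_range.1 hi).le
    rw [h2]
    omega
  · have h1 : ∀ i, MvPolynomial.eval₂ (cS L) x (MvPolynomial.C (inc hB 𝒞.π ^ (k - i)) *
        MvPolynomial.X vs ^ i * up vt (R i)) =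
          PowerSeries.C (PowerSeries.coeff i f) * PowerSeries.X ^ i := fun i => by
      rw [MvPolynomial.eval₂_mul, MvPolynomial.eval₂_mul, MvPolynomial.eval₂_C,
        MvPolynomial.eval₂_pow, MvPolynomial.eval₂_X, eval₂_up, hx, hs,
        ← hom_eval₂ (R i) (OL L).subtype (PowerSeries.C (R := Λ)) ζ, hR2, mul_right_comm]
      congr 1
      rw [RingHom.comp_apply, ← map_mul, map_pow]
      exact congrArg _ (mul_div_cancel₀ _ (hπ _))
    intro n
    rw [MvPolynomial.eval₂_sum, map_sub, map_sum]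
    simp only [h1, PowerSeries.coeff_C_mul, PowerSeries.coeff_X_pow, mul_ite, mul_one, mul_zero,
      Finset.sum_ite_eq, Finset.mem_range]
    split_ifs with hn
    · rw [sub_self, norm_zero]
      exact ⟨zero_mem _, by positivity⟩
    · rw [zero_sub, norm_neg, show M - n = 0 by omega, pow_zero]
      exact ⟨neg_mem (hf n).1, (hf n).2.trans (pow_le_one₀ (norm_nonneg _) 𝒞.π_lt.le)⟩

variable (𝒞) in
/-- the size of the auxiliary polynomials in `y` -/
noncomputable def gY (D M : ℕ) : ℕ := D + M * 𝒞.wg (2 * D + 1) vs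

variable (𝒞) in
/-- the size of the auxiliary polynomials in `τ` -/
noncomputable def gT (D M : ℕ) : ℕ :=
  𝒞.gY D M + D + 𝒞.red.δ * 𝒞.wg (2 * D + 1) vT + 𝒞.d * (𝒞.gY D M * (2 * D + 1))

variable (𝒞) in
/-- the size of the residue field that is needed -/
noncomputable def beta (M D : ℕ) : ℕ :=
  2 * 𝒞.gT D M + D + 𝒞.D₀.totalDegree * (2 * D) + 1 + 𝒞.gY D M +
    (D + 2 * 𝒞.gT D M) * ((𝒞.gY D M + 1) ^ 𝒞.d * 𝒞.D₀.totalDegree + 1)

/-- The base of the construction: a curve through the conjugates of `y` with tangent `e j₀`. -/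
structure KB (𝒞 : QChart J B) (T : Tower p B) (a D M : ℕ) (y : Fin 𝒞.d → Λ) (h : Λ)
    (j₀ : Fin 𝒞.d) where
  ζ : Λ
  μ : (OL (T.U a))[X]
  u₁ : (OL (T.U a))[X]
  u₂ : (OL (T.U a))[X]
  lam : Fin 𝒞.d → (OL (T.U a))[X]
  w : Fin 𝒞.d → (OL (T.U a))[X]
  cof : (OL (T.U a))[X][X]
  mem : ζ ∈ OL (T.U (a * D))
  gen : ∀ x ∈ T.U (a * D), ‖x‖ ≤ 1 →
    ∃ R : (OL (T.U a))[X], R.natDegree < D ∧ R.eval₂ (OL _).subtype ζ = x
  inj : ∀ i < D, ∀ j < D,
    fr (kk Λ) p (T.r * (a * i)) (rs ζ) = fr (kk Λ) p (T.r * (a * j)) (rs ζ) → i = j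
  μ_monic : μ.Monic
  μ_deg : μ.natDegree = D
  μ_root : μ.eval₂ (OL _).subtype ζ = 0
  μ_res : ∀ t, μ.eval₂ (rL _) t = 0 → ∃ i < D, t = fr (kk Λ) p (T.r * (a * i)) (rs ζ)
  u₁_monic : u₁.Monic
  u₂_monic : u₂.Monic
  u₁_deg : u₁.natDegree = 𝒞.gT D M
  u₂_deg : u₂.natDegree = 𝒞.gT D M
  u₂_res : ∀ t, u₂.eval₂ (rL _) t = 0 → fr (kk Λ) p (T.r * a) t = t
  lam_deg : ∀ j, (lam j).natDegree ≤ 2 * D
  lam_val : ∀ j, (lam j).eval₂ (OL _).subtype ζ = y j
  lam_der : ∀ j, (derivative (lam j)).eval₂ (OL _).subtype ζ = if j = j₀ then 1 else 0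
  w_monic : ∀ j, (w j).Monic
  w_deg : ∀ j, (w j).natDegree = 𝒞.gY D M
  w_ne : ∀ j, (w j).eval₂ (rL _) (rs (y j)) ≠ 0
  good : 𝒞.Good (μ * u₁ * u₂) lam w
  cof_deg : (∀ i, (cof.coeff i).natDegree ≤ D) ∧ cof.natDegree ≤ 𝒞.red.δ
  cof_val : ∀ c, ev2 (rL B) (fun j => rs (y j)) c 𝒞.ϑ = 0 →
    (e2 (rL _) (rs ζ) c cof = 0 ↔ c ≠ rs h)

theorem kint_prod {n : ℕ} (τ : Fin n → OL L) : (∏ i, (X - C (τ i))).Monic ∧
    (∏ i, (X - C (τ i))).natDegree = n ∧
      (∏ i, (X - C (τ i))).map (rL L) = ∏ i, (X - C (rL L (τ i))) := by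
  refine ⟨monic_prod_of_monic _ _ fun i _ => monic_X_sub_C _, ?_, ?_⟩
  · rw [natDegree_prod_of_monic _ _ fun i _ => monic_X_sub_C _]
    simp
  · simp only [Polynomial.map_prod, Polynomial.map_sub, map_X, map_C]

theorem kint_res {D : ℕ} {z : ℕ → Λ} (hz : ∀ i, ‖z i‖ ≤ 1) {μ : (OL L)[X]}
    (h : μ.map (OL L).subtype = ∏ i ∈ Finset.range D, (X - C (z i))) :
    μ.map (rL L) = ∏ i : Fin D, (X - C (rs (z i))) := by
  let z' : Fin D → OL (⊤ : IntermediateField K Λ) := fun i => ⟨z i, trivial, hz i⟩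
  have e : μ.map (inc le_top) = ∏ i, (X - C (z' i)) := by
    refine map_injective (OL ⊤).subtype Subtype.val_injective ?_
    rw [Polynomial.map_map, subtype_inc, h, Finset.prod_range]
    simp only [Polynomial.map_prod, Polynomial.map_sub, map_X, map_C]
    rfl
  rw [← rL_inc (le_top : L ≤ ⊤), ← Polynomial.map_map, e, (kint_prod _).2.2]
  simp only [rL_apply]
  rfl

include p in
/-- a function that separates the point `h` from the other points of the reduced fibre -/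
theorem kint_cof (hB : B ≤ L') {D : ℕ} {ζ : Λ} (h1 : ‖ζ‖ ≤ 1)
    (hR : ∀ x ∈ L', ‖x‖ ≤ 1 → ∃ R : (OL L)[X], R.natDegree < D ∧ R.eval₂ (OL L).subtype ζ = x)
    {y : Fin 𝒞.d → Λ} {h : Λ} (hy : ∀ j, y j ∈ OL L') (hh : h ∈ OL L')
    (hk : 𝒞.red.Gk (fun j => rs (y j)) (rs h)) : ∃ A : (OL L)[X][X],
      (∀ i, (A.coeff i).natDegree ≤ D) ∧ A.natDegree ≤ 𝒞.red.δ ∧
        ∀ c, ev2 (rL B) (fun j => rs (y j)) c 𝒞.ϑ = 0 →
          (e2 (rL _) (rs ζ) c A = 0 ↔ c ≠ rs h) := by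
  have hy1 := fun j => (hy j).2
  obtain ⟨hg, hn⟩ := hk.lift hy1 hh.2
  obtain ⟨A, a1, a2, a3⟩ := Chart.pra_fun hB
    ⟨hg, fun j => (hy j).1, hg.ep.mem (p := p) hB (fun j => (hy j).1) hh.1 hn⟩ hR (one_mem _)
    norm_one.le
  refine ⟨A, fun i => (a1 i).trans (Nat.sub_le _ _), a2, fun c hc => ?_⟩
  obtain ⟨η₀, h0, rfl⟩ := rs_surj c
  obtain ⟨b1, b2⟩ := Chart.chartb_hen (𝒞 := 𝒞.red) hy1 h0 ((Chart.chartb_ev hy1 h0 _).2.trans hc)
  obtain ⟨b3, b4⟩ := chartb_near h0 b2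
  rw [← b4, ← (rs_e2 (φ := (OL L).subtype) (fun c => c.2.2) rL_apply h1 b3 A).2, a3 _ b1,
    ← (chartb_near hh.2 hn).2]
  split_ifs with e
  · rw [rs_one, e]
    simp
  · rw [rs_zero]
    exact ⟨fun _ e' => e (hg.ep.unique ((rs_eq_iff b3 hg.h_le).1 e') b1), fun _ => rfl⟩

theorem exists_KB (T : Tower p B) {a D M : ℕ} (hD : 0 < D) (ha : 𝒞.beta M D ≤ a)
    {y : Fin 𝒞.d → Λ} {h : Λ} (hy : ∀ j, y j ∈ OL (T.U (a * D))) (hh : h ∈ OL (T.U (a * D)))
    (hk : 𝒞.red.Gk (fun j => rs (y j)) (rs h)) (j₀ : Fin 𝒞.d) :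
    Nonempty (𝒞.KB T a D M y h j₀) := by
  have ha0 : 0 < a := lt_of_lt_of_le (by unfold beta; omega) ha
  obtain ⟨ζ, μ, hζ, h1, hi, hm, hd, hμ, hR⟩ := T.exists_gen ha0 hD
  have hn : ∀ i, ‖(T.φ ^ (a * i)) ζ‖ ≤ 1 := fun i => by rw [Loc.norm_gal]; exact h1
  have hμ0 : μ.eval₂ (OL _).subtype ζ = 0 := by
    rw [← eval_map, hμ, eval_prod]
    exact Finset.prod_eq_zero (Finset.mem_range.2 hD) (by simp)
  have hμ1 : ‖(derivative μ).eval₂ (OL _).subtype ζ‖ = 1 := by
    rw [← eval_map, hμ, Finset.prod_range] at hμ0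
    rw [← eval_map, ← derivative_map, hμ, Finset.prod_range]
    exact (pra_sep (fun i : Fin D => hn i) (fun i j e => Fin.ext (hi i i.2 j j.2 e)) h1
      (by rw [hμ0, norm_zero]; exact zero_lt_one)).2
  have hinj : ∀ i < D, ∀ j < D,
      fr (kk Λ) p (T.r * (a * i)) (rs ζ) = fr (kk Λ) p (T.r * (a * j)) (rs ζ) → i = j :=
    fun i h2 j h3 e => hi i h2 j h3 ((rs_eq_iff (hn i) (hn j)).1 (by rwa [T.rs_φ, T.rs_φ]))
  have hμr : μ.map (rL _) = ∏ i : Fin D, (X - C (fr (kk Λ) p (T.r * (a * i)) (rs ζ))) := by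
    have e := kint_res hn hμ
    simpa only [T.rs_φ] using e
  choose lam hl1 hl2 hl3 using fun j => T.exists_hermite ha0 hD hζ h1 hm hd hμ0 hμ1 hR (hy j)
    (x' := if j = j₀ then 1 else 0) (by split_ifs; exacts [one_mem _, zero_mem _])
  have hl4 : ∀ j, (lam j).eval₂ (rL _) (rs ζ) = rs (y j) := fun j => by
    rw [← rs_eval₂ (φ := (OL _).subtype) (fun c => c.2.2) rL_apply h1, hl2]
  let ρ : (kk Λ)[X] := MvPolynomial.eval₂ (C.comp (rL B)) (fun j => (lam j).map (rL _)) 𝒞.D₀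
  have hρ : ∀ t, ρ.eval t =
      MvPolynomial.eval₂ (rL B) (fun j => (lam j).eval₂ (rL _) t) 𝒞.D₀ := fun t => by
    simp only [ρ, kint_eval, eval_map]
  have hρd : ρ.natDegree ≤ 𝒞.D₀.totalDegree * (2 * D) :=
    natDegree_eval₂_le _ (fun j => natDegree_map_le.trans (hl1 j)) _
  have hρi : ∀ i : ℕ, ρ.eval (fr (kk Λ) p (T.r * (a * i)) (rs ζ)) ≠ 0 := fun i => by
    have e1 : (fr (kk Λ) p (T.r * (a * i))).comp (rL (T.U a)) = rL (T.U a) :=
      RingHom.ext fun x => by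
        rw [RingHom.comp_apply, rL_apply, ← T.rs_φ, pow_mul, (T.fix_U a ha0).pow i _ x.2.1]
    have e2 : ∀ j, (lam j).eval₂ (rL _) (fr (kk Λ) p (T.r * (a * i)) (rs ζ)) =
        fr (kk Λ) p (T.r * (a * i)) (rs (y j)) := fun j => by
      rw [← hl4, hom_eval₂, e1]
    have e3 := MvPolynomial.hom_eval₂ 𝒞.D₀ (rL B) (fr (kk Λ) p (T.r * (a * i))) fun j => rs (y j)
    rw [T.fr_base] at e3
    rw [hρ, funext e2, ← e3]
    exact (_root_.map_ne_zero _).2 hk.unit
  have hρ0 : ρ ≠ 0 := fun e => hρi 0 (by rw [e, eval_zero])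
  obtain ⟨τ₀, hτ1, hτ2⟩ := T.exists_many ha0 (ρ.roots.toFinset ∪
    Finset.univ.image fun i : Fin D => fr (kk Λ) p (T.r * (a * i)) (rs ζ))
    (s := 𝒞.gT D M + 𝒞.gT D M) (by
      have a1 := Finset.card_union_le ρ.roots.toFinset
        (Finset.univ.image fun i : Fin D => fr (kk Λ) p (T.r * (a * i)) (rs ζ))
      have a2 := Multiset.toFinset_card_le ρ.roots
      have a3 := card_roots' ρ
      have a5 := Finset.card_image_le (s := Finset.univ)
        (f := fun i : Fin D => fr (kk Λ) p (T.r * (a * i)) (rs ζ))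
      rw [Finset.card_univ, Fintype.card_fin] at a5
      unfold beta at ha
      omega)
  let τ : Fin (𝒞.gT D M) ⊕ Fin (𝒞.gT D M) → OL (T.U a) := fun x => τ₀ (finSumFinEquiv x)
  let z : Fin D ⊕ (Fin (𝒞.gT D M) ⊕ Fin (𝒞.gT D M)) → kk Λ :=
    Sum.elim (fun i => fr (kk Λ) p (T.r * (a * i)) (rs ζ)) fun x => rL _ (τ x)
  have hx : ∀ i x, z (Sum.inl i) ≠ z (Sum.inr x) := fun i x e =>
    hτ1 _ (Finset.mem_union_right _ (Finset.mem_image.2 ⟨i, Finset.mem_univ _, e⟩))
  have hz : Function.Injective z := by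
    rintro (i | x) (i' | x') e
    · exact congrArg _ (Fin.ext (hinj i i.2 i' i'.2 e))
    · exact absurd e (hx i x')
    · exact absurd e.symm (hx i' x)
    · exact congrArg _ (finSumFinEquiv.injective (hτ2 e))
  have hzρ : ∀ x, ρ.eval (z x) ≠ 0 := by
    rintro (i | x)
    · exact hρi i
    · exact fun e => hτ1 _ (Finset.mem_union_left _ (Multiset.mem_toFinset.2 ((mem_roots hρ0).2 e)))
  have hu : (μ * (∏ i, (X - C (τ (Sum.inl i)))) * ∏ i, (X - C (τ (Sum.inr i)))).map (rL _) =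
      ∏ x, (X - C (z x)) := by
    rw [Fintype.prod_sum_type, Fintype.prod_sum_type, Polynomial.map_mul, Polynomial.map_mul, hμr,
      (kint_prod _).2.2, (kint_prod _).2.2, mul_assoc]
    rfl
  obtain ⟨ω, hω1, hω2, hω3, hω4⟩ := exists_grid (D := MvPolynomial.map (rL B) 𝒞.D₀)
    (e := 𝒞.D₀.totalDegree) (Finset.sup_mono (MvPolynomial.support_map_subset _ _))
    (Finset.univ.image fun x j => (lam j).eval₂ (rL _) (z x)) (fun y' hy' => by
      obtain ⟨x, -, rfl⟩ := Finset.mem_image.1 hy'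
      rw [MvPolynomial.eval_map, ← hρ]
      exact hzρ x) (𝒞.gY D M) (Set.range (rL (T.U a))) fun Z hZ => by
        have a5 := Finset.card_image_le (s := Finset.univ)
          (f := fun x j => (lam j).eval₂ (rL _) (z x))
        rw [Finset.card_univ, Fintype.card_sum, Fintype.card_sum, Fintype.card_fin,
          Fintype.card_fin, ← two_mul] at a5
        have a6 := Nat.mul_le_mul_right ((𝒞.gY D M + 1) ^ 𝒞.d * 𝒞.D₀.totalDegree + 1) a5
        obtain ⟨t, ht, -⟩ := T.exists_many ha0 Z (s := 1) (by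
          unfold beta at ha
          omega)
        exact ⟨_, ⟨t 0, rfl⟩, ht 0⟩
  choose ω' hω' using hω1
  have hw : ∀ j, (∏ l, (X - C (ω' j l))).map (rL _) = ∏ l, (X - C (ω j l)) := fun j => by
    simp only [(kint_prod _).2.2, hω']
  have hwne : ∀ x j, (∏ l, (X - C (ω' j l))).eval₂ (rL _) ((lam j).eval₂ (rL _) (z x)) ≠ 0 :=
    fun x j e => by
      rw [← eval_map, hw] at e
      obtain ⟨l, e'⟩ := (prod_simple (hω2 j) e).1
      exact hω3 j l _ (Finset.mem_image.2 ⟨x, Finset.mem_univ _, rfl⟩) e'.symm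
  obtain ⟨cof, hc1, hc2, hc3⟩ := kint_cof (T.le _) h1 hR hy hh hk
  refine ⟨⟨ζ, μ, ∏ i, (X - C (τ (Sum.inl i))), ∏ i, (X - C (τ (Sum.inr i))), lam,
    fun j => ∏ l, (X - C (ω' j l)), cof, ⟨hζ, h1⟩, hR, hinj, hm, hd, hμ0, fun t ht => ?_,
    (kint_prod _).1, (kint_prod _).1, (kint_prod _).2.1, (kint_prod _).2.1, fun t ht => ?_, hl1, hl2,
    hl3, fun j => (kint_prod _).1, fun j => (kint_prod _).2.1, fun j => ?_, fun t y' ht hy' => ?_,
    ⟨hc1, hc2⟩, hc3⟩⟩
  · rw [← eval_map, hμr] at ht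
    obtain ⟨i, e⟩ := (prod_simple (fun i j e => Fin.ext (hinj i i.2 j j.2 e)) ht).1
    exact ⟨i, i.2, e⟩
  · rw [← eval_map, (kint_prod _).2.2] at ht
    obtain ⟨i, rfl⟩ := (prod_simple (fun i j e => Sum.inr_injective (Sum.inr_injective
      (hz (a₁ := Sum.inr (Sum.inr i)) (a₂ := Sum.inr (Sum.inr j)) e))) ht).1
    exact RingHom.congr_fun (T.fr_rL ha0) _
  · have e : z (Sum.inl ⟨0, hD⟩) = rs ζ := by
      change fr (kk Λ) p (T.r * (a * 0)) (rs ζ) = rs ζ
      rw [mul_zero, mul_zero, fr_apply, pow_zero, pow_one]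
    rw [← hl4, ← e]
    exact hwne _ j
  · rw [← eval_map, hu] at ht
    obtain ⟨⟨x, rfl⟩, h2⟩ := prod_simple hz ht
    refine ⟨?_, by rwa [← eval_map, ← derivative_map, hu], fun j => ?_⟩
    · rw [← MvPolynomial.eval_map]
      refine hω4 _ (Finset.mem_image.2 ⟨x, Finset.mem_univ _, rfl⟩) y' fun j => ?_
      refine (mul_eq_zero.1 (hy' j)).imp sub_eq_zero.1 fun e => ?_
      rw [← eval_map, hw] at e
      exact (prod_simple (hω2 j) e).1
    · by_cases e : y' j = (lam j).eval₂ (rL _) (z x)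
      · rw [e, sub_self, zero_mul, add_zero]
        exact hwne x j
      · have e' := (mul_eq_zero.1 (hy' j)).resolve_left (sub_ne_zero.2 e)
        rw [e', zero_add]
        refine mul_ne_zero (sub_ne_zero.2 e) ?_
        rw [← eval_map, hw] at e'
        rw [← eval_map, ← derivative_map, hw]
        exact (prod_simple (hω2 j) e').2

end QChart

end Pool.Agent.ZeroCyc
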