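import Pool.Agent.Lib.MP_796ce4_ag.ZQ.KInt
import Pool.Agent.Lib.MP_796ce4_ag.ZQ.GLoc

/-! The family attached to a product of differences. -/

namespace Pool.Agent.ZeroCyc

open Polynomial Module
open scoped Classical IntermediateField PowerSeries

set_option linter.unusedSectionVars false

variable {p : ℕ} {K Λ : Type} [Field K] [CharZero K] [NormedField Λ] [IsUltrametricDist Λ]
  [IsAlgClosed Λ] [Algebra K Λ] [IsGalois K Λ] [Loc p K Λ] [Fact p.Prime] [CharP (kk Λ) p]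
variable {N : ℕ} {J : Ideal (MvPolynomial (Fin (N + 1)) K)} {B : IntermediateField K Λ}

/-- the perturbations -/
structure QChart.KP (𝒞 : QChart J B) (T : Tower p B) (a D M : ℕ) {ι : Type} (k : ι → ℕ) where
  P₀ : Fin 𝒞.d → MV 𝒞.d (OL (T.U a))
  P : ι → Fin 𝒞.d → MV 𝒞.d (OL (T.U a))
  Q : ι → MV 𝒞.d (OL (T.U a))
  pos : ∀ i, 0 < k i
  mem₀ : ∀ j, P₀ j ∈ 𝒞.mI (T.le a)
  memP : ∀ i j, P i j ∈ 𝒞.mI (T.le a) ^ k i
  memQ : ∀ i, Q i ∈ 𝒞.mI (T.le a) ^ k i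
  wb₀ : ∀ j, WB (𝒞.wg (2 * D + 1)) (𝒞.gY D M) (P₀ j)
  wbP : ∀ i j, WB (𝒞.wg (2 * D + 1)) (𝒞.gY D M) (P i j)
  wbQ : ∀ i, WB (𝒞.wg (2 * D + 1)) (𝒞.gY D M) (Q i)

namespace QChart.KB

variable {𝒞 : QChart J B} {T : Tower p B} {a D M : ℕ} {y : Fin 𝒞.d → Λ} {h : Λ} {j₀ : Fin 𝒞.d}
  (b : 𝒞.KB T a D M y h j₀) {ι : Type} [Fintype ι]

/-- the function that kills the unwanted points -/
noncomputable def th (u : (OL (T.U a))[X]) : MV 𝒞.d (OL (T.U a)) :=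
  em2 b.cof * (∏ j, up (vy j) (b.w j)) * up vt u

/-- the main point in the residue field -/
noncomputable def z₀ : Vr 𝒞.d → kk Λ := Sum.elim ![0, rs b.ζ, rs h] fun j => rs (y j)

/-- the approximate main branch -/
noncomputable def x₀ (R : Fin 𝒞.d → Λ⟦X⟧) (H : Λ⟦X⟧) : Vr 𝒞.d → Λ⟦X⟧ :=
  Sum.elim ![PowerSeries.X, PowerSeries.C b.ζ, H] R

variable {k : ι → ℕ} (c : 𝒞.KP T a D M k) (i₀ : ι) (I : Finset ι)

/-- the perturbation of the base point -/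
noncomputable def p₀ : Option (Fin 𝒞.d) → MV 𝒞.d (OL (T.U a))
  | none => 0
  | some j => -c.P₀ j

/-- the perturbation in the direction `i` -/
noncomputable def pa (i : ι) : Option (Fin 𝒞.d) → MV 𝒞.d (OL (T.U a))
  | none => if i = i₀ then -c.Q i * b.th b.u₁ else if i ∈ I then -c.Q i * b.th b.u₂ else 0
  | some j => if i = i₀ ∨ i ∈ I then 0 else -c.P i j

theorem keya_gY (j : Fin 𝒞.d) :
    𝒞.gY D M ≤ Ftop (2 * D + 1) (b.μ * b.u₁ * b.u₂) b.w (some j) := by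
  rw [Ftop, b.w_deg]
  nlinarith [Nat.zero_le (D * 𝒞.gY D M)]
theorem keya_wb {u : (OL (T.U a))[X]} (hu : u.natDegree = 𝒞.gT D M) {Q : MV 𝒞.d (OL (T.U a))}
    (hQ : WB (𝒞.wg (2 * D + 1)) (𝒞.gY D M) Q) :
    WB (𝒞.wg (2 * D + 1)) (Ftop (2 * D + 1) (b.μ * b.u₁ * b.u₂) b.w none) (-Q * b.th u) := by
  have h1 := WB_em2 (d := 𝒞.d) (b := 𝒞.red.b) (δ := 𝒞.red.δ) (ω := 2 * D + 1) b.cof_deg.1
    b.cof_deg.2
  have h2 := WB.prod (w := 𝒞.wg (2 * D + 1)) (s := Finset.univ)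
    fun j _ => WB_up (vy j) (b.w_deg j).le
  have h3 := WB_up (w := 𝒞.wg (2 * D + 1)) vt hu.le
  have h4 := h1.mul h2
  rw [← add_assoc] at h4
  have h5 := h4.mul h3
  rw [← add_assoc] at h5
  have h6 := h5.mul hQ.neg
  rw [mul_comm (-Q)]
  refine h6.mono ?_
  rw [Ftop, (b.μ_monic.mul b.u₁_monic).natDegree_mul b.u₂_monic, b.μ_monic.natDegree_mul b.u₁_monic,
    b.μ_deg, b.u₁_deg, b.u₂_deg]
  have e1 : 𝒞.wg (2 * D + 1) vt = 1 := rfl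
  have e2 : ∀ j, 𝒞.wg (2 * D + 1) (vy j) = 2 * D + 1 := fun _ => rfl
  have e3 : 𝒞.gT D M = 𝒞.gY D M + D + 𝒞.red.δ * (𝒞.red.b * (2 * D + 1) + 1) +
    𝒞.d * (𝒞.gY D M * (2 * D + 1)) := rfl
  simp only [e1, e2, Finset.sum_const, Finset.card_univ, Fintype.card_fin, smul_eq_mul]
  omega
theorem p₀_spec (j : Option (Fin 𝒞.d)) : p₀ c j ∈ 𝒞.mI (T.le a) ∧
    WB (𝒞.wg (2 * D + 1)) (Ftop (2 * D + 1) (b.μ * b.u₁ * b.u₂) b.w j) (p₀ c j) := by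
  rcases j with _ | j
  · exact ⟨zero_mem _, WB_zero⟩
  · exact ⟨neg_mem (c.mem₀ j), (c.wb₀ j).neg.mono (b.keya_gY j)⟩
theorem pa_spec (i : ι) (j : Option (Fin 𝒞.d)) : b.pa c i₀ I i j ∈ 𝒞.mI (T.le a) ^ k i ∧
    WB (𝒞.wg (2 * D + 1)) (Ftop (2 * D + 1) (b.μ * b.u₁ * b.u₂) b.w j) (b.pa c i₀ I i j) := by
  rcases j with _ | j
  · rw [pa]
    split_ifs
    · exact ⟨Ideal.mul_mem_right _ _ (neg_mem (c.memQ i)), b.keya_wb b.u₁_deg (c.wbQ i)⟩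
    · exact ⟨Ideal.mul_mem_right _ _ (neg_mem (c.memQ i)), b.keya_wb b.u₂_deg (c.wbQ i)⟩
    · exact ⟨zero_mem _, WB_zero⟩
  · rw [pa]
    split_ifs
    · exact ⟨zero_mem _, WB_zero⟩
    · exact ⟨neg_mem (c.memP i j), (c.wbP i j).neg.mono (b.keya_gY j)⟩

/-- the family -/
noncomputable def gd : 𝒞.GD (T.le a) k where
  ω := 2 * D + 1
  u := b.μ * b.u₁ * b.u₂
  lam := b.lam
  w := b.w
  a₀ := p₀ c
  a := b.pa c i₀ I
  pos := c.pos
  u_monic := (b.μ_monic.mul b.u₁_monic).mul b.u₂_monic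
  w_monic := b.w_monic
  lam_deg := fun j => Nat.lt_succ_of_le (b.lam_deg j)
  mem₀ := fun j => (b.p₀_spec c j).1
  mem := fun i j => (b.pa_spec c i₀ I i j).1
  wb₀ := fun j => (b.p₀_spec c j).2
  wb := fun i j => (b.pa_spec c i₀ I i j).2
  good := b.good

theorem keya_rs (u : (OL (T.U a))[X]) :
    u.eval₂ (rL _) (rs b.ζ) = rs (u.eval₂ (OL _).subtype b.ζ) :=
  (rs_eval₂ chartb_le chartb_r b.mem.2 u).symm
theorem keya_μ : b.μ.eval₂ (rL _) (rs b.ζ) = 0 := by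
  rw [keya_rs, b.μ_root, rs_zero]
theorem keya_lam (j : Fin 𝒞.d) : (b.lam j).eval₂ (rL _) (rs b.ζ) = rs (y j) := by
  rw [keya_rs, b.lam_val]
theorem keya_u : b.u₁.eval₂ (rL _) (rs b.ζ) ≠ 0 ∧ b.u₂.eval₂ (rL _) (rs b.ζ) ≠ 0 := by
  have h1 := (b.good (rs b.ζ) (fun j => rs (y j))
    (by rw [eval₂_mul, eval₂_mul, keya_μ, zero_mul, zero_mul])
    fun j => by rw [keya_lam, sub_self, zero_mul]).2.1
  simp only [derivative_mul, eval₂_add, eval₂_mul, keya_μ, zero_mul, add_zero] at h1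
  exact ⟨right_ne_zero_of_mul (left_ne_zero_of_mul h1), right_ne_zero_of_mul h1⟩
theorem keya_th {S : Type} [CommRing S] (φ : OL (T.U a) →+* S) (z : Vr 𝒞.d → S)
    (u : (OL (T.U a))[X]) : MvPolynomial.eval₂ φ z (b.th u) =
      e2 φ (z vt) (z vT) b.cof * (∏ j, (b.w j).eval₂ φ (z (vy j))) * u.eval₂ φ (z vt) := by
  rw [th, MvPolynomial.eval₂_mul, MvPolynomial.eval₂_mul, MvPolynomial.eval₂_prod, eval₂_em2,
    eval₂_up]
  simp only [eval₂_up]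
theorem rz₀ (hk : 𝒞.red.Gk (fun j => rs (y j)) (rs h)) : (b.gd c i₀ I).RZ b.z₀ := by
  refine ⟨rfl, ?_, fun j => ?_, hk.on⟩
  · change (b.μ * b.u₁ * b.u₂).eval₂ (rL _) (rs b.ζ) = 0
    rw [eval₂_mul, eval₂_mul, keya_μ, zero_mul, zero_mul]
  · change (rs (y j) - (b.lam j).eval₂ (rL _) (rs b.ζ)) * _ = 0
    rw [keya_lam, sub_self, zero_mul]
theorem keya_ext {S : Type} {z z' : Vr 𝒞.d → S} (h0 : z vs = z' vs) (h1 : z vt = z' vt)
    (h2 : z vT = z' vT) (h3 : ∀ j, z (vy j) = z' (vy j)) : z = z' := by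
  funext x
  rcases x with x | j
  · fin_cases x
    exacts [h0, h1, h2]
  · exact h3 j
theorem z₀_per (hn : 0 < a * D) (hy : ∀ j, y j ∈ OL (T.U (a * D))) (hh : h ∈ OL (T.U (a * D))) :
    GD.frz 𝒞 T (a * D) b.z₀ = b.z₀ ∧ ∀ i < D, ∀ j < D,
      GD.frz 𝒞 T (a * i) b.z₀ = GD.frz 𝒞 T (a * j) b.z₀ → i = j :=
  ⟨keya_ext (map_zero _) (T.rs_fixed hn b.mem.1) (T.rs_fixed hn hh.1)
    fun j => T.rs_fixed hn (hy j).1, fun i hi j hj e => b.inj i hi j hj (congrFun e vt)⟩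
theorem keya_per {α : Type} {f : α → α} (hf : Function.Injective f) {s : Finset α}
    (hs : ∀ x ∈ s, f x ∈ s) {x : α} (hx : x ∈ s) : ∃ e, 0 < e ∧ e ≤ s.card ∧ f^[e] x = x := by
  have h1 : ∀ n, f^[n] x ∈ s := fun n => by
    induction n with
    | zero => exact hx
    | succ n ih => rw [Function.iterate_succ_apply']; exact hs _ ih
  obtain ⟨i, hi, j, hj, hne, e⟩ := Finset.exists_ne_map_eq_of_card_lt_of_maps_to
    (s := Finset.range (s.card + 1)) (t := s) (f := fun n => f^[n] x) (by simp) fun n _ => h1 n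
  rw [Finset.mem_range] at hi hj
  wlog hlt : i < j generalizing i j
  · exact this j hj i hi hne.symm e.symm (by omega)
  obtain ⟨n, rfl⟩ := Nat.exists_eq_add_of_lt hlt
  refine ⟨n + 1, n.succ_pos, by omega, hf.iterate i ?_⟩
  rw [← Function.iterate_add_apply, ← add_assoc]
  exact e.symm
theorem keya_fr (ha : 0 < a) (i : ℕ) :
    (fr (kk Λ) p (T.r * (a * i))).comp (rL (T.U a)) = rL (T.U a) := RingHom.ext fun x => by
  rw [RingHom.comp_apply, ← mul_assoc]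
  exact fr_fixed_mul (DFunLike.congr_fun (T.fr_rL ha) x) i
theorem keya_left {z : Vr 𝒞.d → kk Λ} {i : ι} {u : (OL (T.U a))[X]}
    (hi : i = i₀ ∧ u = b.u₁ ∨ i ≠ i₀ ∧ i ∈ I ∧ u = b.u₂)
    (hz : MvPolynomial.eval₂ (rL _) z (b.th u) = 0) (j : Option (Fin 𝒞.d)) :
    ∃ P Θ, (b.gd c i₀ I).a i j = P * Θ ∧ P ∈ 𝒞.mI (T.le a) ^ k i ∧
      MvPolynomial.eval₂ (rL _) z Θ = 0 := by
  rcases j with _ | j
  · refine ⟨-c.Q i, b.th u, ?_, neg_mem (c.memQ i), hz⟩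
    change b.pa c i₀ I i none = _
    rcases hi with ⟨h1, rfl⟩ | ⟨h1, h2, rfl⟩
    · rw [pa, if_pos h1]
    · rw [pa, if_neg h1, if_pos h2]
  · refine ⟨0, b.th u, ?_, zero_mem _, hz⟩
    change b.pa c i₀ I i (some j) = _
    rw [pa, if_pos (hi.imp And.left fun h => h.2.1), zero_mul]
/-- the other zeros -/
theorem other (ha : 0 < a) {z : Vr 𝒞.d → kk Λ} (hz : (b.gd c i₀ I).RZ z) (hI : i₀ ∉ I)
    (h0 : ∀ i < D, z ≠ GD.frz 𝒞 T (a * i) b.z₀) :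
    (∃ i, ∀ j, ∃ P Θ, (b.gd c i₀ I).a i j = P * Θ ∧ P ∈ 𝒞.mI (T.le a) ^ k i ∧
      MvPolynomial.eval₂ (rL _) z Θ = 0) ∨
    (I = ∅ ∧ ∃ e, 0 < e ∧ e ≤ 𝒞.red.δ ∧ GD.frz 𝒞 T (a * e) z = z) := by
  by_cases hw : ∃ j, (b.w j).eval₂ (rL _) (z (vy j)) = 0
  · obtain ⟨j, hj⟩ := hw
    refine Or.inl ⟨i₀, b.keya_left c i₀ I (Or.inl ⟨rfl, rfl⟩) ?_⟩
    rw [keya_th, Finset.prod_eq_zero (Finset.mem_univ j) hj, mul_zero, zero_mul]
  have hy : ∀ j, z (vy j) = (b.lam j).eval₂ (rL _) (z vt) := fun j =>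
    sub_eq_zero.1 ((mul_eq_zero.1 (hz.y j)).resolve_right fun e => hw ⟨j, e⟩)
  have ht : (b.μ * b.u₁ * b.u₂).eval₂ (rL _) (z vt) = 0 := hz.t
  rw [eval₂_mul, eval₂_mul, mul_eq_zero, mul_eq_zero] at ht
  rcases ht with (ht | ht) | ht
  · obtain ⟨i, hi, e⟩ := b.μ_res _ ht
    obtain ⟨η, hη⟩ := (fr_bijective (𝕜 := kk Λ) (p := p) (T.r * (a * i))).2 (z vT)
    have hy' : ∀ j, z (vy j) = fr (kk Λ) p (T.r * (a * i)) (rs (y j)) := fun j => by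
      rw [hy, e, ← b.keya_lam, hom_eval₂, keya_fr ha]
    have h1 : ev2 (rL B) (fun j => rs (y j)) η 𝒞.ϑ = 0 := by
      refine (fr (kk Λ) p (T.r * (a * i))).injective ?_
      rw [map_ev2, T.fr_base, hη, map_zero, ← hz.th]
      simp only [hy']
    have h2 : η ≠ rs h := fun e' => h0 i hi
      (keya_ext (hz.s.trans (map_zero _).symm) e (by rw [← hη, e']; rfl) hy')
    refine Or.inl ⟨i₀, b.keya_left c i₀ I (Or.inl ⟨rfl, rfl⟩) ?_⟩
    have h3 := congrArg (fr (kk Λ) p (T.r * (a * i))) ((b.cof_val η h1).2 h2)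
    rw [map_e2, keya_fr ha, map_zero, hη, ← e] at h3
    rw [keya_th, h3, zero_mul, zero_mul]
  · refine Or.inl ⟨i₀, b.keya_left c i₀ I (Or.inl ⟨rfl, rfl⟩) ?_⟩
    rw [keya_th, ht, mul_zero]
  · rcases I.eq_empty_or_nonempty with hI' | ⟨i, hi⟩
    · have h1 := b.u₂_res _ ht
      have h2 : ∀ j, fr (kk Λ) p (T.r * a) (z (vy j)) = z (vy j) := fun j => by
        rw [hy, hom_eval₂, T.fr_rL ha, h1]
      obtain ⟨s, hs, hs'⟩ := exists_roots (𝒞 := 𝒞) fun j => z (vy j)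
      obtain ⟨e, he, he', h3⟩ := keya_per (fr (kk Λ) p (T.r * a)).injective (s := s)
        (fun x hx => (hs' _).2 (by
          have h4 := congrArg (fr (kk Λ) p (T.r * a)) ((hs' x).1 hx)
          rw [map_ev2, T.fr_base, map_zero] at h4
          simpa only [h2] using h4)) ((hs' _).2 hz.th)
      rw [← RingHom.coe_pow, fr_pow, mul_assoc] at h3
      refine Or.inr ⟨hI', e, he, he'.trans hs, keya_ext ?_ ?_ h3 fun j => ?_⟩
      · rw [GD.frz, hz.s, map_zero]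
      · rw [GD.frz, ← mul_assoc]
        exact fr_fixed_mul h1 e
      · rw [GD.frz, ← mul_assoc]
        exact fr_fixed_mul (h2 j) e
    · refine Or.inl ⟨i, b.keya_left c i₀ I (Or.inr ⟨fun e => hI (e ▸ hi), hi, rfl⟩) ?_⟩
      rw [keya_th, ht, mul_zero]

variable {R : Fin 𝒞.d → Λ⟦X⟧} {H : Λ⟦X⟧} {v : ι → Fin 𝒞.d → Λ⟦X⟧}

/-- the perturbations have the right expansions along the approximate main branch -/
structure Fit (R : Fin 𝒞.d → Λ⟦X⟧) (H : Λ⟦X⟧) (v : ι → Fin 𝒞.d → Λ⟦X⟧) : Prop where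
  base : ∀ j, MvPolynomial.eval₂ (cS _) (b.x₀ R H) ((b.gd c i₀ I).Fe ∅ j) ∈
    fS (T.U (a * D)) (𝒞.π : Λ) M
  lin : ∀ i, ∃ θ ∈ fS (T.U (a * D)) (𝒞.π : Λ) (k i),
    (b.gd c i₀ I).Lin (T.U (a * D)) i (b.x₀ R H) θ (v i)

theorem keya_C (u : (OL (T.U a))[X]) (x : Λ) :
    u.eval₂ (cS _) (PowerSeries.C x) = PowerSeries.C (u.eval₂ (OL (T.U a)).subtype x) :=
  (hom_eval₂ u _ (PowerSeries.C (R := Λ)) x).symm
theorem keya_x₀ (hg : 𝒞.GS (T.U (a * D)) R h) (hy : ∀ j, c0 (R j) = y j)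
    (hH : H ∈ SL (T.U (a * D))) (h1 : ‖c0 H - h‖ < 1) :
    (∀ x, b.x₀ R H x ∈ SL (T.U (a * D))) ∧ (fun x => rs (c0 (b.x₀ R H x))) = b.z₀ := by
  refine ⟨?_, keya_ext ?_ ?_ (chartb_near hg.h_mem.2 h1).2 fun j => congrArg rs (hy j)⟩
  · rintro (x | j)
    · fin_cases x
      exacts [X_mem_SL, C_mem_SL b.mem, hH]
    · exact hg.mem j
  · exact (congrArg rs PowerSeries.constantCoeff_X).trans rs_zero
  · exact congrArg rs (PowerSeries.constantCoeff_C _)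
theorem keya_inv (ha : 0 < a) (hD : 0 < D) (hg : 𝒞.GS (T.U (a * D)) R h)
    (hy : ∀ j, c0 (R j) = y j) (hH : H ∈ SL (T.U (a * D))) (h1 : ‖c0 H - h‖ < 1)
    {u : (OL (T.U a))[X]} (hu : u.eval₂ (rL _) (rs b.ζ) ≠ 0) :
    MvPolynomial.eval₂ (cS _) (b.x₀ R H) (b.th u) ∈ SL (T.U (a * D)) ∧ ∃ g ∈ SL (T.U (a * D)),
      g * MvPolynomial.eval₂ (cS _) (b.x₀ R H) (b.th u) = 1 := by
  have hL : T.U a ≤ T.U (a * D) := T.mono ha (Nat.mul_pos ha hD) (dvd_mul_right a D)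
  obtain ⟨h2, h3⟩ := b.keya_x₀ hg hy hH h1
  have h4 := mv_mem_SL (cS_mem hL) h2 (b.th u)
  refine ⟨h4, SL_inv h4 (rs_ne_zero.1 ?_)⟩
  have h5 : (c0 (Λ := Λ)).comp (cS (T.U a)) = (OL (T.U a)).subtype :=
    RingHom.ext fun c => PowerSeries.constantCoeff_C _
  have hk := hg.gk.on
  simp only [hy] at hk
  rw [MvPolynomial.hom_eval₂, h5, (rs_mv chartb_le chartb_r (fun x => (c0_mem (h2 x)).2) _).2, h3,
    keya_th]
  exact mul_ne_zero (mul_ne_zero (fun e => (b.cof_val _ hk).1 e rfl)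
    (Finset.prod_ne_zero_iff.2 fun j _ => b.w_ne j)) hu

theorem exists_fit (ha : 0 < a) (hD : 0 < D) (hg : 𝒞.GS (T.U (a * D)) R h)
    (hy : ∀ j, c0 (R j) = y j) (hH : H ∈ SL (T.U (a * D))) (h1 : ‖c0 H - h‖ < 1)
    (hk : ∀ i, 0 < k i) (hM : ∀ i, k i < M) (hv : ∀ i, v i ∈ 𝒞.fl (T.U (a * D)) (k i))
    (hax : ∀ i, i = i₀ ∨ i ∈ I → ∀ j, j ≠ j₀ → v i j = 0) :
    ∃ c : 𝒞.KP T a D M k, b.Fit c i₀ I R H v := by
  have hL : T.U a ≤ T.U (a * D) := T.mono ha (Nat.mul_pos ha hD) (dvd_mul_right a D)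
  have hπ := 𝒞.π_lt
  have hv' := fun i => mem_fl.1 (hv i)
  have hR : ∀ j, R j - PowerSeries.C (y j) ∈ fS (T.U (a * D)) (𝒞.π : Λ) 1 := fun j =>
    hy j ▸ sub_c0_mem (hg.mem j)
  have hw := fun j u => eval₂_mem_SL (cS_mem hL) (hg.mem j) u
  obtain ⟨t₁, g₁, m₁, e₁⟩ := b.keya_inv ha hD hg hy hH h1 b.keya_u.1
  obtain ⟨t₂, g₂, m₂, e₂⟩ := b.keya_inv ha hD hg hy hH h1 b.keya_u.2
  have hU := eval₂_mem_SL (cS_mem hL) (C_mem_SL b.mem) (derivative (b.μ * b.u₁ * b.u₂))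
  choose P₀ a₁ a₂ a₃ using fun j => exists_int (T.le a) hL b.mem b.gen
    (fS_mul_right hπ (hR j) (hw j (b.w j))) M (2 * D + 1)
  choose P b₁ b₂ b₃ using fun i j => exists_int (T.le a) hL b.mem b.gen
    (add_mem (fS_mul_left hπ (hw j (b.w j)) (hv' i j)) (fS_mul_left hπ
      (mul_mem (fS_le hπ (hR j)) (hw j (derivative (b.w j)))) (hv' i j))) M (2 * D + 1)
  choose Q c₁ c₂ c₃ using fun i => exists_int (T.le a) hL b.mem b.gen
    (fS_mul_right hπ (fS_mul_left hπ hU (hv' i j₀))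
      (g := if i = i₀ then g₁ else g₂) (by split_ifs; exacts [m₁, m₂])) M (2 * D + 1)
  let c : 𝒞.KP T a D M k := ⟨P₀, P, Q, hk, fun j => by simpa using a₁ j, b₁, c₁, a₂, b₂, c₂⟩
  have hl : ∀ j, (b.lam j).eval₂ (cS _) (PowerSeries.C b.ζ) = PowerSeries.C (y j) := fun j => by
    rw [keya_C, b.lam_val]
  refine ⟨c, fun j => ?_, fun i => ?_⟩
  · rw [GD.Fe, GD.per, Finset.sum_empty, add_zero, MvPolynomial.eval₂_add]
    rcases j with _ | j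
    · change MvPolynomial.eval₂ _ _ (up vt (b.μ * b.u₁ * b.u₂)) + MvPolynomial.eval₂ _ _ 0 ∈ _
      rw [eval₂_up, MvPolynomial.eval₂_zero, add_zero]
      change (b.μ * b.u₁ * b.u₂).eval₂ _ (PowerSeries.C b.ζ) ∈ _
      rw [keya_C, eval₂_mul, eval₂_mul, b.μ_root, zero_mul, zero_mul, map_zero]
      exact zero_mem _
    · change MvPolynomial.eval₂ _ _ ((MvPolynomial.X (vy j) - up vt (b.lam j)) *
        up (vy j) (b.w j)) + MvPolynomial.eval₂ _ _ (-P₀ j) ∈ _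
      rw [MvPolynomial.eval₂_mul, MvPolynomial.eval₂_sub, MvPolynomial.eval₂_X, eval₂_up, eval₂_up,
        MvPolynomial.eval₂_neg, ← sub_eq_add_neg, ← neg_sub]
      change -(_ - (R j - (b.lam j).eval₂ _ (PowerSeries.C b.ζ)) * (b.w j).eval₂ _ (R j)) ∈ _
      rw [hl]
      exact neg_mem (a₃ j _ rfl rfl)
  by_cases hi : i = i₀ ∨ i ∈ I
  · refine ⟨v i j₀, hv' i j₀, ?_, fun j => ?_⟩
    · change (derivative (b.μ * b.u₁ * b.u₂)).eval₂ _ (PowerSeries.C b.ζ) * v i j₀ +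
        MvPolynomial.eval₂ _ _ (b.pa c i₀ I i none) ∈ _
      have h2 := c₃ i (b.x₀ R H) rfl rfl
      refine fS_anti hπ (hM i) ?_
      rw [pa]
      split_ifs at h2 ⊢ with h3 h4
      · have h5 := neg_mem (fS_mul_right hπ h2 t₁)
        rw [sub_mul, mul_assoc _ g₁, e₁, mul_one, neg_sub, sub_eq_add_neg, ← neg_mul] at h5
        rwa [MvPolynomial.eval₂_mul, MvPolynomial.eval₂_neg]
      · have h5 := neg_mem (fS_mul_right hπ h2 t₂)
        rw [sub_mul, mul_assoc _ g₂, e₂, mul_one, neg_sub, sub_eq_add_neg, ← neg_mul] at h5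
        rwa [MvPolynomial.eval₂_mul, MvPolynomial.eval₂_neg]
      · exact absurd (hi.resolve_left h3) h4
    · change (b.w j).eval₂ _ (R j) * (v i j - (derivative (b.lam j)).eval₂ _ (PowerSeries.C b.ζ) *
        v i j₀) + (R j - (b.lam j).eval₂ _ (PowerSeries.C b.ζ)) *
          (derivative (b.w j)).eval₂ _ (R j) * v i j +
            MvPolynomial.eval₂ _ _ (b.pa c i₀ I i (some j)) ∈ _
      rw [pa, if_pos hi, MvPolynomial.eval₂_zero, add_zero, hl, keya_C, b.lam_der]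
      split_ifs with h3
      · rw [h3, map_one, one_mul, sub_self, mul_zero, zero_add, add_comm (k i)]
        exact fS_mul hπ (fS_mul_right hπ (hR _) (hw _ _)) (hv' i j₀)
      · rw [hax i hi j h3, map_zero, zero_mul, sub_self, mul_zero, mul_zero, add_zero]
        exact zero_mem _
  · refine ⟨0, zero_mem _, ?_, fun j => ?_⟩
    · change _ * 0 + MvPolynomial.eval₂ _ _ (b.pa c i₀ I i none) ∈ _
      rw [pa, if_neg fun e => hi (Or.inl e), if_neg fun e => hi (Or.inr e), mul_zero,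
        MvPolynomial.eval₂_zero, add_zero]
      exact zero_mem _
    · change (b.w j).eval₂ _ (R j) * (v i j - _ * 0) +
        (R j - (b.lam j).eval₂ _ (PowerSeries.C b.ζ)) * (derivative (b.w j)).eval₂ _ (R j) * v i j +
          MvPolynomial.eval₂ _ _ (b.pa c i₀ I i (some j)) ∈ _
      rw [pa, if_neg hi, hl, mul_zero, sub_zero, MvPolynomial.eval₂_neg, ← sub_eq_add_neg,
        ← neg_sub]
      exact fS_anti hπ (hM i) (neg_mem (b₃ i j _ rfl rfl))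

/-- the main branch -/
theorem Fit.main {b : 𝒞.KB T a D M y h j₀} {c : 𝒞.KP T a D M k} {i₀ : ι} {I : Finset ι}
    (hf : b.Fit c i₀ I R H v) (ha : 0 < a)
    (hD : 0 < D) (hM : 0 < M) (hg : 𝒞.GS (T.U (a * D)) R h) (hy : ∀ j, c0 (R j) = y j)
    (hH : H ∈ SL (T.U (a * D))) (h1 : ‖c0 H - h‖ < 1) (h2 : ev2 (cS B) R H 𝒞.ϑ = PowerSeries.X)
    (hv : ∀ i, v i ∈ 𝒞.fl (T.U (a * D)) (k i)) :
    (b.gd c i₀ I).py ∅ b.z₀ - R ∈ 𝒞.fl (T.U (a * D)) M ∧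
      ∀ i, (b.gd c i₀ I).py {i} b.z₀ - (b.gd c i₀ I).py ∅ b.z₀ - v i ∈
        𝒞.fl (T.U (a * D)) (k i + 1) := by
  have hn := Nat.mul_pos ha hD
  have hL : T.U a ≤ T.U (a * D) := T.mono ha hn (dvd_mul_right a D)
  have hz := b.rz₀ c i₀ I (by simpa only [hy] using hg.gk)
  have hm := hz.mov ha hn (dvd_mul_right a D)
    (b.z₀_per hn (fun j => hy j ▸ c0_mem (hg.mem j)) hg.h_mem).1
  obtain ⟨h3, h4⟩ := b.keya_x₀ hg hy hH h1
  have h5 := hz.near (A := ∅) (n := M) hL h3 (hm.mem ∅) (congrFun h4) (hm.isPt ∅).res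
    (hm.isPt ∅).s (by
      rw [(hm.isPt ∅).th]
      change _ - ev2 (cS B) R H 𝒞.ϑ ∈ _
      rw [h2, sub_self]
      exact zero_mem _) fun j => by
      rw [(hm.isPt ∅).eq, zero_sub]
      exact neg_mem (hf.base j)
  refine ⟨mem_fl.2 fun j => h5 (vy j), fun i => ?_⟩
  obtain ⟨θ, hθ, hl⟩ := hf.lin i
  exact hz.delta hL (hm.isPt ∅) (hm.isPt {i}) (hm.mem ∅) (fun x => (hm.cube x).sub_mem i)
    (fun x => fS_anti 𝒞.π_lt hM (by simpa only [neg_sub] using neg_mem (h5 x))) rfl hθ (hv i) hl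

end QChart.KB

end Pool.Agent.ZeroCyc
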