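import Pool.Agent.Lib.MP_796ce4_ag.ZQ.KeyA
import Pool.Agent.Lib.MP_796ce4_ag.ZQ.GRel

/-! Symmetry, propagation and finiteness. -/

namespace Pool.Agent.ZeroCyc

open Polynomial Module
open scoped Classical IntermediateField PowerSeries

set_option linter.unusedSectionVars false

variable {p : ℕ} {K Λ : Type} [Field K] [CharZero K] [NormedField Λ] [IsUltrametricDist Λ]
  [IsAlgClosed Λ] [Algebra K Λ] [IsGalois K Λ] [Loc p K Λ] [Fact p.Prime] [CharP (kk Λ) p]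
variable {N : ℕ} {J : Ideal (MvPolynomial (Fin (N + 1)) K)} {B : IntermediateField K Λ}

namespace QChart

variable {𝒞 : QChart J B} {T : Tower p B}

theorem KEY {a D M : ℕ} (hD : 0 < D) (ha : 𝒞.beta M D ≤ a) {R : Fin 𝒞.d → Λ⟦X⟧} {h : Λ}
    (hg : 𝒞.GS (T.U (a * D)) R h) {ι : Type} [Fintype ι] {k : ι → ℕ} (hk : ∀ i, 0 < k i)
    (hM : ∑ i, k i < M) {v : ι → Fin 𝒞.d → Λ⟦X⟧} (hv : ∀ i, v i ∈ 𝒞.fl (T.U (a * D)) (k i))
    (i₀ : ι) (I : Finset ι) (hI : i₀ ∉ I) (j₀ : Fin 𝒞.d)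
    (hax : ∀ i, i = i₀ ∨ i ∈ I → ∀ j, j ≠ j₀ → v i j = 0) {H : AddSubgroup (VV Λ J)}
    (h1 : 𝒞.FF T (Fintype.card ι - 1) (∑ i, k i) ≤ H)
    (h2 : 𝒞.FF T (Fintype.card ι) (∑ i, k i + 1) ≤ H) (h3 : 𝒞.FF T 1 M ≤ H)
    (h4 : I = ∅ → ∀ c, 0 < c → c ≤ 𝒞.red.δ → 𝒞.Sig T (a * c) (Fintype.card ι) (∑ i, k i) ≤ H) :
    clL J (T.U (a * D)) (𝒞.Jm h (sg R * ∏ i, dl (v i))) ∈ H := by
  have ha0 : 0 < a := lt_of_lt_of_le (by unfold beta; omega) ha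
  have hn : 0 < a * D := Nat.mul_pos ha0 hD
  have hM0 : 0 < M := lt_of_le_of_lt (Nat.zero_le _) hM
  have := T.fin _ hn
  have hy : ∀ j, c0 (R j) ∈ OL (T.U (a * D)) := fun j => c0_mem (hg.mem j)
  obtain ⟨b⟩ := exists_KB T hD ha hy hg.h_mem hg.gk j₀
  obtain ⟨Hs, hH, n1, n2⟩ := tp_root (p := p) (T.le _) (unrF hn) hg
  obtain ⟨c, hf⟩ := b.exists_fit i₀ I ha0 hD hg (fun _ => rfl) hH n1 hk
    (fun i => lt_of_le_of_lt (Finset.single_le_sum (f := k) (fun _ _ => Nat.zero_le _)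
      (Finset.mem_univ i)) hM) hv hax
  have hz := b.rz₀ c i₀ I hg.gk
  obtain ⟨p1, p2⟩ := b.z₀_per hn hy hg.h_mem
  have k0 : clL J (T.U (a * D)) ((b.gd c i₀ I).cyc b.z₀) ∈ H := by
    refine GD.GR_main ha0 i₀ hz hD p1 p2 fun z hz' h0 c' hc' hper hmin => ?_
    have hm := Nat.mul_pos ha0 hc'
    have mov := hz'.mov ha0 hm (dvd_mul_right a c') hper
    rcases b.other c i₀ I ha0 hz' hI h0 with ⟨i, hi⟩ | ⟨hI0, e, he, heδ, hfe⟩
    · exact sup_le h1 h2 (mov.raised hz' ha0 hm (dvd_mul_right a c') hi)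
    · exact h4 hI0 c' hc' ((not_lt.1 fun hlt => hmin e he hlt hfe).trans heδ) mov.cyc_mem
  have mov := hz.mov ha0 hn (dvd_mul_right a D) p1
  have hJ : 𝒞.Jm ((b.gd c i₀ I).ph b.z₀) = 𝒞.Jm h :=
    Jm_congr ((rs_eq_iff (mov.gs ∅).h_mem.2 hg.h_mem.2).1 mov.res)
  have k1 := h1 (Sig_le_FF hn mov.cyc_sub)
  rw [hJ] at k1
  obtain ⟨m1, m2⟩ := hf.main ha0 hD hM0 hg (fun _ => rfl) hH n1 n2 hv
  have k2 := h2 (Sig_le_FF hn (mem_Sig hg (gen_sub_gen' fl_anti (fl_anti hM0 m1) hk hv m2)))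
  have k3 := h3 (Sig_le_FF hn (mem_Sig hg (gen_sub_base (y₀ := R) fl_anti
    (by rw [sub_self]; exact zero_mem _) hM0 m1 hk hv)))
  rw [map_sub, map_sub] at k2 k3
  have k4 := sub_mem (sub_mem (sub_mem k0 k1) k2) k3
  rwa [sub_sub_cancel, sub_sub_cancel, sub_sub_cancel] at k4

theorem keyb_S3 {s : ℕ} (hs : 𝒞.d ≤ s + 1) (w M : ℕ) {a : ℕ}
    (ha : 𝒞.beta (max M (w + 1)) 1 ≤ a) : 𝒞.Sig T (a * 1) (s + 2) w ≤
    𝒞.FF T (s + 1) w ⊔ 𝒞.FF T (s + 2) (w + 1) ⊔ 𝒞.FF T 1 M := by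
  have hn : 0 < a * 1 := Nat.mul_pos (lt_of_lt_of_le (by unfold beta; omega) ha) one_pos
  refine Sig_le_of_II fun R h hg => II_le_axis (H := AddSubgroup.comap
    ((clL J (T.U (a * 1))).comp (𝒞.Jm h))
      (𝒞.FF T (s + 1) w ⊔ 𝒞.FF T (s + 2) (w + 1) ⊔ 𝒞.FF T 1 M))
    (fun _ _ hab => fS_anti 𝒞.π_lt hab) hs (fun x hx => ?_)
    fun y j k₁ k₂ a₁ a₂ k v hy hw hk₁ hk₂ ha₁ ha₂ hk hv => ?_
  · exact AddSubgroup.mem_sup_left (AddSubgroup.mem_sup_left (Sig_le_FF hn (mem_Sig hg hx)))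
  let k' : Option (Option (Fin s)) → ℕ := fun o => o.elim k₁ fun o' => o'.elim k₂ k
  let v' : Option (Option (Fin s)) → Fin 𝒞.d → Λ⟦X⟧ :=
    fun o => o.elim (Pi.single j a₁) fun o' => o'.elim (Pi.single j a₂) v
  have hk' : ∀ i, 0 < k' i := by
    rintro (_ | _ | i)
    exacts [hk₁, hk₂, hk i]
  have hv' : ∀ i, v' i ∈ 𝒞.fl (T.U (a * 1)) (k' i) := by
    rintro (_ | _ | i)
    exacts [cc_single_mem j ha₁, cc_single_mem j ha₂, hv i]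
  have e1 : ∑ i, k' i = ∑ i, k i + (k₁ + k₂) := by
    rw [Fintype.sum_option, Fintype.sum_option]
    show k₁ + (k₂ + ∑ i, k i) = _
    ring
  have e2 : sg y * (∏ i, dl (v i)) * (dl (Pi.single j a₁) * dl (Pi.single j a₂)) =
      sg y * ∏ i, dl (v' i) := by
    rw [Fintype.prod_option, Fintype.prod_option]
    simp only [v', Option.elim_none, Option.elim_some]
    ring
  have e3 : Fintype.card (Option (Option (Fin s))) = s + 2 := by simp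
  rw [e2]
  rw [← e1] at hw
  rcases hw.eq_or_lt with hw | hw
  · refine KEY one_pos ha (hg.move hy).1 hk' (by rw [← hw]; omega) hv' none {some none} (by simp) j
      ?_ ?_ ?_ ((FF_mono le_rfl (le_max_left _ _)).trans le_sup_right) fun h0 => absurd h0 (by simp)
    · rintro i (rfl | hi) j' hj'
      · exact Pi.single_eq_of_ne hj' _
      · rw [Finset.mem_singleton.1 hi]
        exact Pi.single_eq_of_ne hj' _
    · rw [e3, ← hw]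
      exact le_sup_left.trans le_sup_left
    · rw [e3, ← hw]
      exact le_sup_right.trans le_sup_left
  · have h0 := mem_Sig hg (gen_mem_II hy hk' hv')
    rw [e3] at h0
    exact AddSubgroup.mem_sup_left (AddSubgroup.mem_sup_right (Sig_le_FF hn (Sig_mono le_rfl hw h0)))

theorem S3 {s : ℕ} (hs : 𝒞.d ≤ s + 1) (w M : ℕ) : 𝒞.FF T (s + 2) w ≤
    𝒞.FF T (s + 1) w ⊔ 𝒞.FF T (s + 2) (w + 1) ⊔ 𝒞.FF T 1 M := by
  refine FF_le fun n hn x hx => mem_of_eventually (j₀ := 𝒞.beta (max M (w + 1)) 1 + 1)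
    fun j hj => ⟨j, dvd_rfl, ?_⟩
  have h1 := Sig_mul hn (by omega : 0 < j) hx
  rw [← mul_one (n * j)] at h1
  exact keyb_S3 hs w M ((by omega : _ ≤ j).trans (Nat.le_mul_of_pos_left j hn)) h1
theorem FF_succ_le {s : ℕ} (hs : 𝒞.d ≤ s + 1) (w M : ℕ) :
    𝒞.FF T (s + 2) w ≤ 𝒞.FF T (s + 1) w ⊔ 𝒞.FF T 1 M := by
  have key : ∀ t, 𝒞.FF T (s + 2) w ≤
      𝒞.FF T (s + 2) (w + t) ⊔ (𝒞.FF T (s + 1) w ⊔ 𝒞.FF T 1 M) := fun t => by
    induction t with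
    | zero => exact le_sup_left
    | succ t ih =>
      refine ih.trans (sup_le ((S3 hs (w + t) M).trans (sup_le (sup_le ?_ le_sup_left)
        (le_sup_right.trans le_sup_right))) le_sup_right)
      exact (FF_mono le_rfl (Nat.le_add_right _ _)).trans (le_sup_left.trans le_sup_right)
  refine (key ((s + 2) * M + 1)).trans (sup_le ?_ le_rfl)
  exact ((FF_le_FF_one (m := M) (by omega)).trans (FF_mono le_rfl M.le_succ)).trans le_sup_right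
theorem Gw_le_FF (w M : ℕ) : 𝒞.Gw T w ≤ 𝒞.FF T (𝒞.d + 1) w ⊔ 𝒞.FF T 1 M := by
  refine Gw_le fun s => ?_
  induction s with
  | zero => exact (FF_mono (Nat.zero_le _) le_rfl).trans le_sup_left
  | succ s ih =>
    rcases le_or_gt s 𝒞.d with h | h
    · exact (FF_mono (Nat.succ_le_succ h) le_rfl).trans le_sup_left
    · obtain ⟨s, rfl⟩ : ∃ t, s = t + 1 := ⟨s - 1, by omega⟩
      exact (FF_succ_le h.le w M).trans (sup_le ih le_sup_right)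
theorem exists_Gw_le (M : ℕ) : ∃ w, 𝒞.Gw T (w + 1) ≤ 𝒞.FF T 1 M :=
  ⟨(𝒞.d + 1) * M, (Gw_le_FF _ M).trans (sup_le
    ((FF_le_FF_one (m := M) (Nat.lt_succ_self _)).trans (FF_mono le_rfl M.le_succ)) le_rfl)⟩
theorem PR {a D : ℕ} (s w : ℕ) (hD : 0 < D) (ha : 𝒞.beta (w + 1) D ≤ a) :
    𝒞.Sig T (a * D) (s + 1) w ≤ (⨆ c ∈ Finset.Icc 1 𝒞.red.δ, 𝒞.Sig T (a * c) (s + 1) w) ⊔
      (𝒞.FF T s w ⊔ 𝒞.Gw T (w + 1)) := by
  have ha0 : 0 < a := lt_of_lt_of_le (by unfold beta; omega) ha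
  have hn : 0 < a * D := Nat.mul_pos ha0 hD
  refine Sig_le_exact (fun R h hg k v hw hk hv => ?_)
    ((Sig_le_FF hn).trans (le_sup_left.trans le_sup_right))
    (((Sig_le_FF hn).trans FF_le_Gw).trans (le_sup_right.trans le_sup_right))
  subst hw
  refine gen_mem_axis (H := AddSubgroup.comap ((clL J (T.U (a * D))).comp (𝒞.Jm h))
      ((⨆ c ∈ Finset.Icc 1 𝒞.red.δ, 𝒞.Sig T (a * c) (s + 1) (∑ i, k i)) ⊔
        (𝒞.FF T s (∑ i, k i) ⊔ 𝒞.Gw T (∑ i, k i + 1))))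
    (fun _ _ hab => fS_anti 𝒞.π_lt hab) (y₀ := R) (by rw [sub_self]; exact zero_mem _) hk hv
    fun y' v' j hy' hv' hax => ?_
  refine KEY hD ha (hg.move hy').1 hk (Nat.lt_succ_self _) hv' 0 ∅ (Finset.notMem_empty _) j
    ?_ ?_ (FF_le_Gw.trans (le_sup_right.trans le_sup_right))
    (FF_le_Gw.trans (le_sup_right.trans le_sup_right)) fun _ c hc hc' => ?_
  · rintro i (rfl | hi)
    · exact hax
    · exact absurd hi (Finset.notMem_empty _)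
  · rw [Fintype.card_fin, Nat.add_sub_cancel]
    exact le_sup_left.trans le_sup_right
  · rw [Fintype.card_fin]
    exact (le_iSup₂_of_le (f := fun c (_ : c ∈ Finset.Icc 1 𝒞.red.δ) =>
      𝒞.Sig T (a * c) (s + 1) (∑ i, k i)) c (Finset.mem_Icc.2 ⟨hc, hc'⟩) le_rfl).trans le_sup_left
theorem FF_fin (s w : ℕ) : FinMod (𝒞.FF T (s + 1) w) (𝒞.FF T s w ⊔ 𝒞.Gw T (w + 1)) := by
  obtain ⟨M, hM⟩ := tower_lemma (fun n => 𝒞.Sig T n (s + 1) w) (𝒞.FF T s w ⊔ 𝒞.Gw T (w + 1))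
    𝒞.red.δ (fun D => 𝒞.beta (w + 1) D)
    (fun n j hn hj x hx => Sig_mul hn hj hx) fun a D _ hD ha => PR s w hD ha
  exact FinMod.of_le_sup (FinMod.biSup _ fun m hm => Sig_fin (Finset.mem_Icc.1 hm).1 s w)
    (iSup₂_le fun m hm => Sig_le_FF (Finset.mem_Icc.1 hm).1) (FF_le hM)
theorem FF_fin' (s : ℕ) {w : ℕ} (hw : 0 < w) : FinMod (𝒞.FF T s w) (𝒞.Gw T (w + 1)) := by
  induction s with
  | zero => exact FinMod.of_le (by rw [FF_zero hw]; exact bot_le)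
  | succ s ih =>
    obtain ⟨s₁, h1, h2⟩ := FF_fin (𝒞 := 𝒞) (T := T) s w
    obtain ⟨s₂, h3, h4⟩ := ih
    refine ⟨s₁ ∪ s₂, fun x hx => (Finset.mem_union.1 hx).elim (h1 x) fun h =>
      FF_mono s.le_succ le_rfl (h3 x h), h2.trans ?_⟩
    rw [Finset.coe_union, AddSubgroup.closure_union, sup_assoc]
    exact sup_le_sup_left (sup_le h4 le_sup_right) _
theorem Vu_fin {M : ℕ} (hM : 0 < M) : FinMod (𝒞.Vu T) (𝒞.FF T 1 M) := by
  obtain ⟨W, hW⟩ := exists_Gw_le (𝒞 := 𝒞) (T := T) M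
  exact FinMod.chain (G := 𝒞.Gw T) (fun _ _ h => Gw_anti h) (FF_le_Gw.trans (Gw_le_Vu hM))
    (fun w hw => FinMod.of_le_sup ((FF_fin' (𝒞.d + 1) hw).mono le_sup_left) FF_le_Gw
      ((Gw_le_FF w M).trans (sup_le_sup_left le_sup_right _))) hW
theorem Vu_tors (M : ℕ) : ∃ w, ∀ x ∈ 𝒞.Vu T, p ^ w • x ∈ 𝒞.FF T 1 M := by
  obtain ⟨W, hW⟩ := exists_Gw_le (𝒞 := 𝒞) (T := T) M
  exact ⟨W, fun x hx => hW (pow_smul_mem_Gw hx W)⟩

end QChart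

end Pool.Agent.ZeroCyc
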