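import Pool.Agent.Lib.MP_796ce4_ag.ZY.CvB
import Pool.Agent.Lib.MP_796ce4_ag.ZY.CvJ
import Pool.Agent.Lib.MP_796ce4_ag.ZY.CvP

/-! Plane curves with multiple components. -/

namespace Pool.Agent.ZeroCyc

open Polynomial Module
open scoped Classical IntermediateField PowerSeries

set_option linter.unusedSectionVars false

variable {𝕜 : Type} [Field 𝕜]

/-- the multiplicity of a point in its fibre -/
noncomputable def mu (χ : 𝕜[X][X]) (Q : 𝕜 × 𝕜) : ℕ :=
  (χ.map (evalRingHom Q.1)).rootMultiplicity Q.2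

variable [IsAlgClosed 𝕜] {b δ m N : ℕ} {χ θ G G' : 𝕜[X][X]}

theorem mu_pos (hχ : χ.Monic) {Q : 𝕜 × 𝕜} : 0 < mu χ Q ↔ On χ Q := by
  rw [mu, rootMultiplicity_pos (hχ.map _).ne_zero, On, ee_eq_eval]
  rfl

theorem zqma_on (χ : 𝕜[X][X]) (t y : 𝕜) : (χ.map (evalRingHom t)).IsRoot y ↔ On χ (t, y) := by
  unfold On
  rw [ee_eq_eval]
  rfl

theorem zqma_et (hθ : θ.Monic) {Q : 𝕜 × 𝕜} (h : Et θ Q) : mu θ Q = 1 := by
  refine le_antisymm (not_lt.1 fun hlt => h.2 ?_) ((mu_pos hθ).2 h.1)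
  rw [ee_eq_eval, ← derivative_map]
  exact ((one_lt_rootMultiplicity_iff_isRoot (hθ.map _).ne_zero).1 hlt).2

theorem zqma_dvd {Q : 𝕜 × 𝕜} (h : θ ∣ χ) (h0 : On θ Q) : On χ Q := by
  obtain ⟨q, rfl⟩ := h
  rw [On, map_mul, show ee Q θ = 0 from h0, zero_mul]

theorem zqma_pow {Q : 𝕜 × 𝕜} (h : χ ∣ θ ^ N) (h0 : On χ Q) : On θ Q := by
  have := zqma_dvd h h0
  rw [On, map_pow] at this
  exact pow_eq_zero_iff'.1 this |>.1

/-- the multiplicity of a root of the resultant under an etale fibre of the reduced curve -/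
theorem res_mu (hχ : χ.Monic) (hθ : θ.Monic) (h1 : θ ∣ χ) (h2 : χ ∣ θ ^ N)
    (hr : resultant χ G ≠ 0) {t : 𝕜} (ht : ∀ y, On θ (t, y) → Et θ (t, y)) :
    (resultant χ G).rootMultiplicity t =
      ∑ y ∈ (θ.map (evalRingHom t)).roots.toFinset, mu χ (t, y) * oq θ (t, y) G := by
  set s := (θ.map (evalRingHom t)).roots.toFinset with hs
  have hm : (θ.map (evalRingHom t)).Monic := hθ.map _
  have het : ∀ y ∈ s, Et θ (t, y) := fun y hy =>
    ht y ((zqma_on θ t y).1 ((mem_roots hm.ne_zero).1 (Multiset.mem_toFinset.1 hy)))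
  have hn : (θ.map (evalRingHom t)).roots.Nodup := by
    rw [Multiset.nodup_iff_count_le_one]
    intro y
    by_cases hy : y ∈ s
    · rw [count_roots]
      exact (zqma_et hθ (het y hy)).le
    · rw [Multiset.count_eq_zero.2 fun h => hy (Multiset.mem_toFinset.2 h)]
      exact zero_le_one
  set η : 𝕜 → 𝕜⟦X⟧ := fun y => ZeroCyc.hs θ (t, y) with hη
  have hc : ∀ y ∈ s, PowerSeries.constantCoeff (η y) = y := fun y hy => (hs_spec hθ (het y hy)).2
  have e : θ.map (sh t) = ∏ y ∈ s, (X - C (η y)) :=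
    cvb_eq_prod s (fun y hy y' hy' h => by rw [← hc y hy, h, hc y' hy']) (hθ.map _)
      (by rw [hθ.natDegree_map, hs, Multiset.toFinset_card_of_nodup hn,
        ← (IsAlgClosed.splits _).natDegree_eq_card_roots, hθ.natDegree_map])
      fun y hy => by rw [eval_map]; exact (hs_spec hθ (het y hy)).1
  obtain ⟨g, hg⟩ := h2
  obtain ⟨s', hs', e'⟩ := monic_dvd_prod (s ×ˢ Finset.range N) (fun p => η p.1) (hχ.map (sh t))
    (g := g.map (sh t)) (by
      rw [← Polynomial.map_mul, ← hg, Polynomial.map_pow, e, Finset.prod_product, ← Finset.prod_pow]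
      exact Finset.prod_congr rfl fun y _ => by simp)
  have hs1 : ∀ p ∈ s', p.1 ∈ s := fun p hp => (Finset.mem_product.1 (hs' hp)).1
  have hn' : (G.map (sh t)).natDegree ≤ G.natDegree := natDegree_map_le
  have h3 : sh t (resultant χ G) = ∏ p ∈ s', jq θ (t, p.1) G := by
    have := cvr_res_prod (fun p : 𝕜 × ℕ => η p.1) s' monic_one _ hn'
    rw [mul_one, ← e', hχ.natDegree_map, resultant_map_map, natDegree_one, resultant_zero_left_deg,
      coeff_one_zero, one_pow, mul_one] at this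
    exact this.trans (Finset.prod_congr rfl fun y _ => by rw [eval_map]; rfl)
  obtain ⟨h4, h5⟩ := oq_C χ (t, 0) hr
  rw [oq, jq_C] at h5
  rw [jq_C] at h4
  simp only at h4 h5
  rw [h3] at h4 h5
  have h6 : ∀ p ∈ s', jq θ (t, p.1) G ≠ 0 := Finset.prod_ne_zero_iff.1 h4
  have h7 : ∑ p ∈ s', oq θ (t, p.1) G = (resultant χ G).rootMultiplicity t := by
    rw [← h5, PowerSeries.order_prod,
      ← Finset.sum_congr rfl fun y hy => PowerSeries.coe_toNat_order (h6 y hy), ← Nat.cast_sum,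
      ENat.toNat_natCast]
    rfl
  have h8 : χ.map (evalRingHom t) = ((s'.val.map Prod.fst).map fun a => X - C a).prod := by
    rw [← cvr_map_sh, e', Polynomial.map_prod, Multiset.map_map]
    exact Finset.prod_congr rfl fun p hp => by
      rw [Polynomial.map_sub, map_X, map_C, hc _ (hs1 p hp)]; rfl
  rw [← h7, ← Finset.sum_fiberwise_of_maps_to hs1]
  refine Finset.sum_congr rfl fun y _ => ?_
  rw [Finset.sum_congr rfl fun p hp => by rw [(Finset.mem_filter.1 hp).2], Finset.sum_const,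
    smul_eq_mul, mu, ← count_roots, h8, roots_multiset_prod_X_sub_C, Multiset.count_map]
  congr 1
  exact congrArg Finset.card (Finset.filter_congr fun p _ => eq_comm)

theorem degree_mu (hχ : Wt b δ χ) (hθ : θ.Monic) (h1 : θ ∣ χ) (h2 : χ ∣ θ ^ N) (hG : Lead b m G)
    (hz : ∀ Q, On θ Q → ee Q G = 0 → ∀ y, On θ (Q.1, y) → Et θ (Q.1, y)) :
    ((dv θ G).sum fun Q n => (mu χ Q : ℤ) * n) = δ * m := by
  obtain ⟨q, hq⟩ := id h1
  have hθw : Wt b θ.natDegree θ :=
    Wt.of_mul (hq ▸ hχ) hθ (hθ.of_mul_monic_left (hq ▸ hχ.monic))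
  have hr := (hG.res hχ).1.ne_zero
  rw [Finsupp.sum_of_support_subset _ (s := (resultant χ G).roots.toFinset ×ˢ cvrY χ G)
    (fun Q hQ => ?_) _ (fun _ _ => mul_zero _), Finset.sum_product, ← Nat.cast_mul,
    ← cvr_sum_mult hχ hG, Nat.cast_sum]
  · refine Finset.sum_congr rfl fun t ht => ?_
    have h3 : ∃ y, On χ (t, y) ∧ ee (t, y) G = 0 := by
      by_contra! h3
      have h4 := (res_mult hχ.monic hr t ∅ (by simp)).2.2.2 fun y h0 h => absurd h (h3 y h0)
      have h5 := (rootMultiplicity_pos hr).2 ((mem_roots hr).1 (Multiset.mem_toFinset.1 ht))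
      rw [Finset.sum_empty] at h4
      omega
    obtain ⟨y0, h3, h4⟩ := h3
    have h5 := hz _ (zqma_pow h2 h3) h4
    have h6 : ∀ y, y ∈ (θ.map (evalRingHom t)).roots.toFinset ↔ On θ (t, y) := fun y => by
      rw [Multiset.mem_toFinset, mem_roots (hθ.map _).ne_zero, zqma_on]
    rw [res_mu hχ.monic hθ h1 h2 hr h5, Nat.cast_sum]
    symm
    refine (Finset.sum_congr rfl fun y hy => ?_).trans (Finset.sum_subset (fun y hy => ?_)
      fun y _ hy => ?_)
    · rw [hG.dv_apply hθw, if_pos (h5 y ((h6 y).1 hy)), Nat.cast_mul]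
    · exact Finset.mem_biUnion.2 ⟨t, ht, Multiset.mem_toFinset.2 ((mem_roots
        (hχ.monic.map _).ne_zero).2 ((zqma_on χ t y).2 (zqma_dvd h1 ((h6 y).1 hy))))⟩
    · rw [hG.dv_apply hθw, if_neg fun h => hy ((h6 y).2 h.1), mul_zero]
  · have h0 := Finsupp.mem_support_iff.1 hQ
    rw [hG.dv_apply hθw] at h0
    by_cases he : Et θ Q
    · refine cvr_mem hχ hG (zqma_dvd h1 he.1) (by_contra fun h3 => h0 ?_)
      rw [if_pos he, (oq_eq_zero hθ he h3).2, Nat.cast_zero]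
    · exact absurd (if_neg he) h0

/-- the multiplicity is constant on the components -/
theorem mu_const (hχ : χ.Monic) (h1 : θ ∣ χ) (h2 : χ ∣ θ ^ N) {χ₁ χ₂ : 𝕜[X][X]} (h : θ = χ₁ * χ₂)
    (h₁ : χ₁.Monic) (h₂ : χ₂.Monic) (hi : Irreducible χ₁) :
    ∃ k, ∀ Q, On χ₁ Q → Et θ Q → mu χ Q = k := by
  obtain ⟨k, r, hr, e⟩ := WfDvdMonoid.max_power_factor hχ.ne_zero hi
  have h3 : r ∣ χ₂ ^ N := by
    have h4 : r ∣ χ₁ ^ N * χ₂ ^ N := by
      rw [← mul_pow, ← h]
      exact (Dvd.intro_left _ e.symm).trans h2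
    exact (hi.isRelPrime_iff_not_dvd.2 hr).symm.pow_right.dvd_of_dvd_mul_left h4
  refine ⟨k, fun Q h0 hQ => ?_⟩
  rw [h] at hQ
  obtain ⟨h5, h6⟩ := (et_mul.1 hQ).resolve_right fun h5 => h5.2 h0
  have h7 := zqma_et h₁ h5
  have h8 := (hχ.map (evalRingHom Q.1)).ne_zero
  rw [mu] at h7 ⊢
  rw [e, Polynomial.map_mul, Polynomial.map_pow] at h8 ⊢
  rw [rootMultiplicity_mul h8, rootMultiplicity_eq_zero (p := r.map _) fun h9 =>
    h6 (zqma_pow h3 ((zqma_on r Q.1 Q.2).1 h9)), ← count_roots, roots_pow, Multiset.count_nsmul,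
    count_roots, h7, mul_one, add_zero]

end Pool.Agent.ZeroCyc
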