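import Pool.Agent.Lib.MP_796ce4_ag.ZQ.MA
import Pool.Agent.Lib.MP_796ce4_ag.ZY.ChartB

/-! Specialisation of divisors to a special fibre with multiple components. -/

namespace Pool.Agent.ZeroCyc

open Polynomial Module
open scoped Classical IntermediateField PowerSeries

set_option linter.unusedSectionVars false

variable {K Λ : Type} [Field K] [NormedField Λ] [IsUltrametricDist Λ] [IsAlgClosed Λ] [Algebra K Λ]
  {L : IntermediateField K Λ} {b δ m N : ℕ} {χ G : (OL L)[X][X]} {θ : (kk Λ)[X][X]}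

/-- the zeros of a leading function are integral -/
theorem zeros_le (hχ : Wt b δ χ) (hG : Lead b m G) {Q : Λ × Λ} (h0 : On (mp (OL L).subtype χ) Q)
    (h1 : ee Q (mp (OL L).subtype G) = 0) : ‖Q.1‖ ≤ 1 ∧ ‖Q.2‖ ≤ 1 ∧
      On (mp (rL L) χ) (pm rs Q) ∧ ee (pm rs Q) (mp (rL L) G) = 0 := by
  rw [On, ee_mp] at h0
  rw [ee_mp] at h1
  have h2 := val_zero (v := NormedField.valuation) (fun c => by exact_mod_cast chartb_le c)
    hχ hG h0 h1
  have h3 : ‖Q.1‖ ≤ 1 := by exact_mod_cast h2.1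
  have h4 : ‖Q.2‖ ≤ 1 := by exact_mod_cast h2.2
  refine ⟨h3, h4, ?_, ?_⟩
  · have := (rs_e2 (ψ := rL L) chartb_le chartb_r h3 h4 χ).2
    rw [h0, rs_zero] at this
    rw [On, ee_mp]
    exact this.symm
  · have := (rs_e2 (ψ := rL L) chartb_le chartb_r h3 h4 G).2
    rw [h1, rs_zero] at this
    rw [ee_mp]
    exact this.symm

theorem zqmb_lift : ∃ l : Λ → OL (⊤ : IntermediateField K Λ), ∀ x : Λ, ‖x‖ ≤ 1 →
    (OL (⊤ : IntermediateField K Λ)).subtype (l x) = x ∧ rL ⊤ (l x) = rs x := by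
  refine ⟨fun x => if h : x ∈ OL (⊤ : IntermediateField K Λ) then ⟨x, h⟩ else 0, fun x hx => ?_⟩
  have h : x ∈ OL (⊤ : IntermediateField K Λ) := (rs_coe_top x).1.2 hx
  simp only [dif_pos h]
  exact ⟨rfl, rL_apply _⟩

theorem zqmb_card {R : (OL L)[X]} (hR : R.Monic) (a : kk Λ) :
    Multiset.card ((R.map (OL L).subtype).roots.filter fun t => rs t = a) =
      (R.map (rL L)).rootMultiplicity a := by
  obtain ⟨l, hl⟩ := zqmb_lift (K := K) (Λ := Λ)
  have hm := hR.map (OL L).subtype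
  have hle : ∀ t ∈ (R.map (OL L).subtype).roots, ‖t‖ ≤ 1 := fun t ht =>
    (intg_map R).root_le hm ((mem_roots hm.ne_zero).1 ht)
  have hp := (IsAlgClosed.splits (R.map (OL L).subtype)).eq_prod_roots_of_monic hm
  generalize (R.map (OL L).subtype).roots = M at hle hp ⊢
  have h1 : R.map (inc (le_top : L ≤ ⊤)) = (M.map fun t => X - C (l t)).prod := by
    refine map_injective (OL (⊤ : IntermediateField K Λ)).subtype Subtype.val_injective ?_
    rw [Polynomial.map_map, subtype_inc, hp, Polynomial.map_multiset_prod, Multiset.map_map]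
    refine congrArg _ (Multiset.map_congr rfl fun t ht => ?_)
    simp only [Function.comp, Polynomial.map_sub, map_X, map_C, (hl t (hle t ht)).1]
  have h2 : R.map (rL L) = ((M.map rs).map fun t => X - C t).prod := by
    rw [← rL_inc (le_top : L ≤ ⊤), ← Polynomial.map_map, h1, Polynomial.map_multiset_prod,
      Multiset.map_map, Multiset.map_map]
    refine congrArg _ (Multiset.map_congr rfl fun t ht => ?_)
    simp only [Function.comp, Polynomial.map_sub, map_X, map_C, (hl t (hle t ht)).2]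
  rw [← count_roots, h2, roots_multiset_prod_X_sub_C, Multiset.count_map]
  exact congrArg _ (Multiset.filter_congr fun t _ => eq_comm)

theorem sum_rootMultiplicity_le {R : (OL L)[X]} (hR : R.Monic) (a : kk Λ) (s : Finset Λ)
    (hs : ∀ t ∈ s, rs t = a) : ∑ t ∈ s, (R.map (OL L).subtype).rootMultiplicity t ≤
      (R.map (rL L)).rootMultiplicity a := by
  rw [← zqmb_card hR a]
  set M := (R.map (OL L).subtype).roots.filter fun t => rs t = a with hM
  calc ∑ t ∈ s, (R.map (OL L).subtype).rootMultiplicity t = ∑ t ∈ s, M.count t :=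
        Finset.sum_congr rfl fun t ht => by
          rw [hM, Multiset.count_filter_of_pos (p := fun t => rs t = a) (hs t ht), count_roots]
    _ ≤ ∑ t ∈ s ∪ M.toFinset, M.count t := Finset.sum_le_sum_of_subset Finset.subset_union_left
    _ = Multiset.card M := Multiset.sum_count_eq_card fun t ht =>
        Finset.mem_union_right _ (Multiset.mem_toFinset.2 ht)

/-- the number of roots in a residue class -/
theorem card_roots_rs {R : (OL L)[X]} (hR : R.Monic) (a : kk Λ) :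
    Multiset.card ((R.map (OL L).subtype).roots.filter fun t => rs t = a) =
      (R.map (rL L)).rootMultiplicity a := zqmb_card hR a

theorem zqmb_res {R S : Type} [CommRing R] [CommRing S] [Nontrivial S] (φ : R →+* S)
    {f : R[X][X]} (hf : f.Monic) (g : R[X][X]) :
    resultant (mp φ f) (mp φ g) = (resultant f g).map φ := by
  have h1 : (mp φ f).natDegree = f.natDegree := hf.natDegree_map (mapRingHom φ)
  have h2 : (mp φ g).natDegree ≤ g.natDegree := natDegree_map_le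
  obtain ⟨k, hk⟩ := Nat.exists_eq_add_of_le h2
  have h3 : (mp φ f).Monic := hf.map (mapRingHom φ)
  have h4 : resultant (mp φ f) (mp φ g) f.natDegree g.natDegree = (resultant f g).map φ :=
    resultant_map_map f g _ _ (mapRingHom φ)
  rw [← h4, hk, resultant_add_right_deg _ _ _ _ k le_rfl, ← h1, h3.coeff_natDegree, one_pow,
    one_mul]

theorem zqmb_mapC {R S : Type} [CommRing R] [CommRing S] (φ : R →+* S) (E : R[X]) :
    mp φ (E.map C) = (E.map φ).map C := by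
  show (E.map C).map (mapRingHom φ) = _
  rw [Polynomial.map_map, Polynomial.map_map]
  congr 1
  exact RingHom.ext fun x => by simp

/-- an integral polynomial with prescribed roots in a residue class -/
theorem zqmb_poly {A : Type} (S : Finset A) (t : A → Λ) (n : A → ℕ) (a : kk Λ)
    (ht : ∀ P ∈ S, ‖t P‖ ≤ 1 ∧ rs (t P) = a) (M : ℕ) :
    ∃ w : (OL (⊤ : IntermediateField K Λ))[X], w.Monic ∧ M ≤ w.natDegree ∧
      (∀ P ∈ S, (X - C (t P)) ^ n P ∣ w.map (OL ⊤).subtype) ∧ (X - C a) ^ M ∣ w.map (rL ⊤) ∧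
      ∀ y, y ≠ a → (w.map (rL ⊤)).eval y ≠ 0 := by
  obtain ⟨l, hl⟩ := zqmb_lift (K := K) (Λ := Λ)
  obtain ⟨t0, h0, h0'⟩ := rs_surj a
  have hm1 : (∏ P ∈ S, (X - C (l (t P))) ^ n P).Monic :=
    monic_prod_of_monic _ _ fun P _ => (monic_X_sub_C _).pow _
  have hm2 : ((X - C (l t0)) ^ M).Monic := (monic_X_sub_C _).pow _
  have e : ((∏ P ∈ S, (X - C (l (t P))) ^ n P) * (X - C (l t0)) ^ M).map (rL ⊤) =
      (X - C a) ^ (∑ P ∈ S, n P) * (X - C a) ^ M := by
    rw [Polynomial.map_mul, Polynomial.map_prod, Polynomial.map_pow, Polynomial.map_sub, map_X,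
      map_C, (hl t0 h0).2, h0', ← Finset.prod_pow_eq_pow_sum]
    congr 1
    refine Finset.prod_congr rfl fun P hP => ?_
    rw [Polynomial.map_pow, Polynomial.map_sub, map_X, map_C, (hl _ (ht P hP).1).2, (ht P hP).2]
  refine ⟨(∏ P ∈ S, (X - C (l (t P))) ^ n P) * (X - C (l t0)) ^ M, hm1.mul hm2, ?_,
    fun P hP => ?_, ?_, fun y hy => ?_⟩
  · rw [hm1.natDegree_mul hm2, (monic_X_sub_C _).natDegree_pow, natDegree_X_sub_C]
    omega
  · rw [Polynomial.map_mul, Polynomial.map_prod]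
    refine Dvd.dvd.mul_right (dvd_trans (dvd_of_eq ?_) (Finset.dvd_prod_of_mem _ hP)) _
    rw [Polynomial.map_pow, Polynomial.map_sub, map_X, map_C, (hl _ (ht P hP).1).1]
  · rw [e]
    exact Dvd.intro_left _ rfl
  · rw [e, ← pow_add, eval_pow, eval_sub, eval_X, eval_C]
    exact pow_ne_zero _ (sub_ne_zero.2 hy)

theorem zqmb_vanC {𝕜 : Type} [Field 𝕜] [IsAlgClosed 𝕜] {f : 𝕜[X][X]} (hm : f.Monic) {Q : 𝕜 × 𝕜}
    (h : Et f Q) {n : ℕ} {w : 𝕜[X]} (hw : (X - C Q.1) ^ n ∣ w) : Van f Q n (C w) := by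
  have h1 : Van f Q 1 (C (X - C Q.1)) := (van_one hm h).2 (by rw [ee_C]; simp)
  refine cvj_van_dvd (cvj_van_pow h1 n) ?_
  obtain ⟨q, rfl⟩ := hw
  exact ⟨C q, by rw [C_mul, C_pow]⟩

theorem zqmb_vanT {𝕜 : Type} [Field 𝕜] [IsAlgClosed 𝕜] {f : 𝕜[X][X]} (hm : f.Monic) {Q : 𝕜 × 𝕜}
    (h : Et f Q) {n : ℕ} {w : 𝕜[X]} (hw : (X - C Q.2) ^ n ∣ w) : Van f Q n (w.map C) := by
  have h1 : Van f Q 1 ((X - C Q.2).map C) := (van_one hm h).2 (by rw [cvs_ee_mapC]; simp)
  refine cvj_van_dvd (cvj_van_pow h1 n) ?_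
  rw [← Polynomial.map_pow]
  exact Polynomial.map_dvd C hw

/-- the orders at finitely many etale points are bounded by the roots of the resultant -/
theorem zqmb_sum {𝕜 : Type} [Field 𝕜] [IsAlgClosed 𝕜] {f g : 𝕜[X][X]} (hm : f.Monic)
    (hr : resultant f g ≠ 0) (S : Finset (𝕜 × 𝕜)) (hS : ∀ P ∈ S, Et f P) :
    ∑ P ∈ S, oq f P g ≤ ∑ t ∈ S.image Prod.fst, (resultant f g).rootMultiplicity t := by
  rw [← Finset.sum_fiberwise_of_maps_to (g := Prod.fst) (t := S.image Prod.fst)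
    fun P hP => Finset.mem_image_of_mem _ hP]
  refine Finset.sum_le_sum fun t _ => ?_
  have h1 := (res_mult hm hr t ((S.filter fun P => P.1 = t).image Prod.snd) fun y hy => by
    obtain ⟨P, hP, rfl⟩ := Finset.mem_image.1 hy
    obtain ⟨h1, rfl⟩ := Finset.mem_filter.1 hP
    exact hS P h1).2.1
  rw [Finset.sum_image fun P hP P' hP' h => Prod.ext
    ((Finset.mem_filter.1 hP).2.trans (Finset.mem_filter.1 hP').2.symm) h] at h1
  refine le_trans (le_of_eq (Finset.sum_congr rfl fun P hP => ?_)) h1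
  rw [← (Finset.mem_filter.1 hP).2]

theorem zqmb_wt {𝕜 : Type} [Field 𝕜] {f g : 𝕜[X][X]} (hf : Wt b δ f) (hg : g.Monic) (h : g ∣ f) :
    Wt b g.natDegree g := by
  obtain ⟨q, rfl⟩ := h
  exact hf.of_mul hg (hg.of_mul_monic_left hf.monic)

theorem zqmb_on {𝕜 : Type} [Field 𝕜] {f g : 𝕜[X][X]} (h : f ∣ g ^ N) {Q : 𝕜 × 𝕜} (h0 : On f Q) :
    On g Q := by
  obtain ⟨q, hq⟩ := h
  have h1 := congrArg (ee Q) hq
  rw [map_pow, map_mul, show ee Q f = 0 from h0, zero_mul] at h1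
  exact eq_zero_of_pow_eq_zero h1

theorem zqmb_top {χ G : (OL (⊤ : IntermediateField K Λ))[X][X]} (hχ : Wt b δ χ) (hθ : θ.Monic)
    (h1 : θ ∣ mp (rL ⊤) χ) (h2 : mp (rL ⊤) χ ∣ θ ^ N) (hG : Lead b m G) {a c : kk Λ}
    (hz : ∀ y, On θ (a, y) → Et θ (a, y)) (hon : On θ (a, c)) (S : Finset (Λ × Λ))
    (hS : ∀ P ∈ S, Et (mp (OL ⊤).subtype χ) P ∧ ‖P.1‖ ≤ 1 ∧ ‖P.2‖ ≤ 1 ∧ pm rs P = (a, c)) :
    ∑ P ∈ S, oq (mp (OL ⊤).subtype χ) P (mp (OL ⊤).subtype G) ≤
      mu (mp (rL ⊤) χ) (a, c) * oq θ (a, c) (mp (rL ⊤) G) := by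
  have hwθ := zqmb_wt (hχ.map (rL ⊤)) hθ h1
  have het := hz c hon
  set e := oq θ (a, c) (mp (rL ⊤) G) with he
  set n : Λ × Λ → ℕ := fun P => oq (mp (OL ⊤).subtype χ) P (mp (OL ⊤).subtype G) with hn
  set s := (θ.map (evalRingHom a)).roots.toFinset with hs
  have hmem : ∀ y, y ∈ s ↔ On θ (a, y) := fun y => by
    rw [hs, Multiset.mem_toFinset, mem_roots (hθ.map _).ne_zero, On, ee_eq_eval]
    rfl
  have hsurj : Function.Surjective (rL (⊤ : IntermediateField K Λ)) := fun y => by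
    obtain ⟨l, hl⟩ := zqmb_lift (K := K) (Λ := Λ)
    obtain ⟨x, hx, rfl⟩ := rs_surj y
    exact ⟨l x, (hl x hx).2⟩
  obtain ⟨E, hE⟩ := map_surjective _ hsurj (∏ y ∈ s.erase c, (X - C y))
  obtain ⟨H, -, -, hH1, hH2, hH3⟩ := zqmb_poly (K := K) S Prod.snd n c
    (fun P hP => ⟨(hS P hP).2.2.1, congrArg Prod.snd (hS P hP).2.2.2⟩) (e + 1)
  obtain ⟨m0, hm0⟩ := exists_WL b 0 (E.map C * G + H.map C)
  obtain ⟨w, hw0, hw1, hw2, hw3, -⟩ := zqmb_poly (K := K) S Prod.fst n a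
    (fun P hP => ⟨(hS P hP).2.1, congrArg Prod.fst (hS P hP).2.2.2⟩) (m0 + e + 1)
  have hL : Lead b w.natDegree (C w + (E.map C * G + H.map C)) :=
    (lead_C hw0).add (hm0.mono (by omega))
  generalize hG' : C w + (E.map C * G + H.map C) = G' at hL
  have hmap : ∀ {T : Type} [CommRing T] (φ : OL (⊤ : IntermediateField K Λ) →+* T), mp φ G' =
      C (w.map φ) + ((E.map φ).map C * mp φ G + (H.map φ).map C) := fun φ => by
    rw [← hG', map_add, map_add, map_mul, mp_C, zqmb_mapC, zqmb_mapC]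
  have hχ1 := hχ.map (OL (⊤ : IntermediateField K Λ)).subtype
  have hχ2 := hχ.map (rL (⊤ : IntermediateField K Λ))
  have hr1 := ((hL.map (OL (⊤ : IntermediateField K Λ)).subtype).res hχ1).1
  have hr2 := ((hL.map (rL (⊤ : IntermediateField K Λ))).res hχ2).1
  have hR : (resultant χ G').Monic := monic_of_injective
    (f := (OL (⊤ : IntermediateField K Λ)).subtype) Subtype.val_injective
    (by rwa [zqmb_res _ hχ.monic] at hr1)
  have hw4 : (X - C a) ^ (e + 1) ∣ w.map (rL ⊤) := (pow_dvd_pow _ (by omega)).trans hw3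
  calc ∑ P ∈ S, n P ≤ ∑ P ∈ S, oq (mp (OL ⊤).subtype χ) P (mp (OL ⊤).subtype G') := by
        refine Finset.sum_le_sum fun P hP => ?_
        have hP1 := (hS P hP).1
        refine (van_iff_le ((hL.map _).jq_ne hχ1 hP1)).1 ?_
        rw [hmap]
        exact (zqmb_vanC hχ1.monic hP1 (hw2 P hP)).add
          (((van_oq _ _ _).mul_left _).add (zqmb_vanT hχ1.monic hP1 (hH1 P hP)))
    _ ≤ ∑ t ∈ S.image Prod.fst,
          (resultant (mp (OL ⊤).subtype χ) (mp (OL ⊤).subtype G')).rootMultiplicity t :=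
        zqmb_sum hχ1.monic hr1.ne_zero S fun P hP => (hS P hP).1
    _ ≤ (resultant (mp (rL ⊤) χ) (mp (rL ⊤) G')).rootMultiplicity a := by
        rw [zqmb_res _ hχ.monic, zqmb_res _ hχ.monic]
        refine sum_rootMultiplicity_le hR a _ fun t ht => ?_
        obtain ⟨P, hP, rfl⟩ := Finset.mem_image.1 ht
        exact congrArg Prod.fst (hS P hP).2.2.2
    _ = mu (mp (rL ⊤) χ) (a, c) * oq θ (a, c) (mp (rL ⊤) G') := by
        rw [res_mu hχ2.monic hθ h1 h2 hr2.ne_zero hz]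
        refine Finset.sum_eq_single_of_mem c ((hmem c).2 hon) fun y hy hyc => ?_
        have h3 : (w.map (rL ⊤)).eval a = 0 :=
          eval_eq_zero_of_dvd_of_eval_eq_zero hw4 (by simp)
        have h4 : (E.map (rL ⊤)).eval y = 0 := by
          rw [hE, eval_prod]
          exact Finset.prod_eq_zero (Finset.mem_erase.2 ⟨hyc, hy⟩) (by simp)
        have h5 : ee (a, y) (mp (rL ⊤) G') ≠ 0 := by
          rw [hmap, map_add, map_add, map_mul, ee_C, cvs_ee_mapC, cvs_ee_mapC]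
          simp only [h3, h4, zero_mul, zero_add]
          exact hH3 y hyc
        rw [(oq_eq_zero hθ (hz y ((hmem y).1 hy)) h5).2, mul_zero]
    _ ≤ mu (mp (rL ⊤) χ) (a, c) * e := by
        refine Nat.mul_le_mul_left _ (not_lt.1 fun hlt => ?_)
        have h3 : Van θ (a, c) (e + 1) (mp (rL ⊤) G') := (van_oq _ _ _).mono hlt
        have h4 := (h3.sub (zqmb_vanC hθ het hw4)).sub (zqmb_vanT hθ het hH2)
        rw [hmap, add_sub_cancel_left, add_sub_cancel_right] at h4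
        have h5 : ee (a, c) ((E.map (rL ⊤)).map C) ≠ 0 := by
          rw [cvs_ee_mapC, hE, eval_prod]
          refine Finset.prod_ne_zero_iff.2 fun y hy => ?_
          rw [eval_sub, eval_X, eval_C]
          exact sub_ne_zero.2 (Finset.mem_erase.1 hy).1.symm
        obtain ⟨h6, h7⟩ := oq_eq_zero hθ het h5
        have h8 := Van.cancel (n := e + 1) h6 (by rwa [h7, zero_add])
        have h9 := (van_iff_le ((hG.map _).jq_ne hwθ het)).1 h8
        omega

theorem sp_le (hχ : Wt b δ χ) (hθ : θ.Monic) (h1 : θ ∣ mp (rL L) χ) (h2 : mp (rL L) χ ∣ θ ^ N)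
    (hG : Lead b m G) {z : kk Λ × kk Λ} (hz : ∀ y, On θ (z.1, y) → Et θ (z.1, y)) :
    psh (pm rs) (dv (mp (OL L).subtype χ) (mp (OL L).subtype G)) z ≤
      mu (mp (rL L) χ) z * dv θ (mp (rL L) G) z := by
  have hχ1 := hχ.map (OL L).subtype
  have hG1 := hG.map (OL L).subtype
  set D := dv (mp (OL L).subtype χ) (mp (OL L).subtype G) with hD
  by_cases h0 : psh (pm rs) D z = 0
  · rw [h0]
    exact mul_nonneg (Nat.cast_nonneg _) (dv_nonneg _ _ _)
  have hsup : ∀ P, D P ≠ 0 → Et (mp (OL L).subtype χ) P ∧ ‖P.1‖ ≤ 1 ∧ ‖P.2‖ ≤ 1 ∧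
      On (mp (rL L) χ) (pm rs P) := fun P hP => by
    obtain ⟨a1, a2⟩ := (hG1.dv_ne_zero hχ1).1 hP
    obtain ⟨b1, b2, b3, -⟩ := zeros_le hχ hG a1.1 a2
    exact ⟨a1, b1, b2, b3⟩
  have hon : On θ z := by
    obtain ⟨P, hP, rfl⟩ := psh_ne_zero h0
    exact zqmb_on h2 (hsup P hP).2.2.2
  have e1 : ∀ f : (OL L)[X][X], mp (OL ⊤).subtype (mp (inc (le_top : L ≤ ⊤)) f) =
      mp (OL L).subtype f := fun f => by rw [mp_mp, subtype_inc]
  have e2 : ∀ f : (OL L)[X][X], mp (rL ⊤) (mp (inc (le_top : L ≤ ⊤)) f) = mp (rL L) f :=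
    fun f => by rw [mp_mp, rL_inc]
  have key := zqmb_top (a := z.1) (c := z.2) (hχ.map (inc (le_top : L ≤ ⊤))) hθ
    (by rwa [e2]) (by rwa [e2]) (hG.map (inc (le_top : L ≤ ⊤))) hz hon
    (D.support.filter fun P => pm rs P = z) fun P hP => by
      obtain ⟨a1, a2⟩ := Finset.mem_filter.1 hP
      obtain ⟨b1, b2, b3, -⟩ := hsup P (Finsupp.mem_support_iff.1 a1)
      exact ⟨by rwa [e1], b2, b3, a2⟩
  rw [e1, e1, e2, e2] at key
  have e3 : psh (pm rs) D z = ((∑ P ∈ D.support.filter fun P => pm rs P = z,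
      oq (mp (OL L).subtype χ) P (mp (OL L).subtype G) : ℕ) : ℤ) := by
    show Finsupp.mapDomain (pm rs) D z = _
    rw [Finsupp.mapDomain, Finsupp.sum_apply, Finsupp.sum, Nat.cast_sum, Finset.sum_filter]
    refine Finset.sum_congr rfl fun P hP => ?_
    by_cases h : pm rs P = z
    · rw [if_pos h, h, Finsupp.single_eq_same, hD, hG1.dv_apply hχ1,
        if_pos (hsup P (Finsupp.mem_support_iff.1 hP)).1]
    · rw [if_neg h, Finsupp.single_eq_of_ne' h]
  rw [e3, (hG.map _).dv_apply (zqmb_wt (hχ.map (rL L)) hθ h1), if_pos (show Et θ z from hz _ hon)]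
  exact_mod_cast key

theorem sp_eq (hχ : Wt b δ χ) (hθ : θ.Monic) (h1 : θ ∣ mp (rL L) χ) (h2 : mp (rL L) χ ∣ θ ^ N)
    (hG : Lead b m G) (ha : Adm (mp (OL L).subtype χ) (mp (OL L).subtype G))
    (hz : ∀ Q, On θ Q → ee Q (mp (rL L) G) = 0 → ∀ y, On θ (Q.1, y) → Et θ (Q.1, y))
    (z : kk Λ × kk Λ) : psh (pm rs) (dv (mp (OL L).subtype χ) (mp (OL L).subtype G)) z =
      mu (mp (rL L) χ) z * dv θ (mp (rL L) G) z := by
  have hχ1 := hχ.map (OL L).subtype
  have hG1 := hG.map (OL L).subtype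
  let D' : kk Λ × kk Λ →₀ ℤ := Finsupp.onFinset (dv θ (mp (rL L) G)).support
    (fun Q => mu (mp (rL L) χ) Q * dv θ (mp (rL L) G) Q)
    fun Q hQ => Finsupp.mem_support_iff.2 (right_ne_zero_of_mul hQ)
  have hdeg : D'.degree = δ * m := by
    rw [← degree_mu (hχ.map (rL L)) hθ h1 h2 (hG.map (rL L)) hz, Finsupp.degree_apply,
      Finsupp.sum]
    exact Finset.sum_subset Finsupp.support_onFinset_subset
      fun Q _ hQ => Finsupp.notMem_support_iff.1 hQ
  have hle : psh (pm rs) (dv (mp (OL L).subtype χ) (mp (OL L).subtype G)) ≤ D' := fun Q => by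
    show _ ≤ (mu (mp (rL L) χ) Q : ℤ) * dv θ (mp (rL L) G) Q
    by_cases h0 : psh (pm rs) (dv (mp (OL L).subtype χ) (mp (OL L).subtype G)) Q = 0
    · rw [h0]
      exact mul_nonneg (Nat.cast_nonneg _) (dv_nonneg _ _ _)
    · obtain ⟨P, hP, hPQ⟩ := psh_ne_zero h0
      obtain ⟨a1, a2⟩ := (hG1.dv_ne_zero hχ1).1 hP
      obtain ⟨-, -, b3, b4⟩ := zeros_le hχ hG a1.1 a2
      rw [hPQ] at b3 b4
      exact sp_le hχ hθ h1 h2 hG (hz Q (zqmb_on h2 b3) b4)
  have h := eq_of_le_of_degree hle (by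
    rw [hdeg, degree_psh, (hG1.degree_dv_eq_iff hχ1).2 ha])
  rw [h]
  rfl

end Pool.Agent.ZeroCyc
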