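import Pool.Agent.Lib.MP_796ce4_ag.ZQ.MC
import Pool.Agent.Lib.MP_796ce4_ag.ZQ.QSig

/-! Transversal points as zeros of a function on a plane curve. -/

namespace Pool.Agent.ZeroCyc

open Polynomial Module
open scoped Classical IntermediateField PowerSeries

set_option linter.unusedSectionVars false

section ring

variable {R A : Type} [CommRing R] [CommRing A]

/-- the same polynomial in two variables -/
noncomputable def zqmd_P (φ : R →+* A) : R[X][X] →+* MvPolynomial (Fin 2) A :=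
  e2 (MvPolynomial.C.comp φ) (MvPolynomial.X 0) (MvPolynomial.X 1)

theorem zqmd_eval (φ : R →+* A) (x : Fin 2 → A) (a : R[X][X]) :
    MvPolynomial.eval₂ (RingHom.id A) x (zqmd_P φ a) = e2 φ (x 0) (x 1) a := by
  have h : (MvPolynomial.eval₂Hom (RingHom.id A) x).comp (zqmd_P φ) = e2 φ (x 0) (x 1) := by
    ext <;> simp [zqmd_P, e2]
  exact DFunLike.congr_fun h a

theorem zqmd_mon (φ : R →+* A) (n : ℕ) (c : R) :
    zqmd_P φ (C (monomial n c)) = MvPolynomial.C (φ c) * MvPolynomial.X 0 ^ n := by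
  simp [zqmd_P, e2_C]

theorem zqmd_d10 (φ : R →+* A) (u : R[X]) : MvPolynomial.pderiv 1 (zqmd_P φ (C u)) = 0 := by
  induction u using Polynomial.induction_on' with
  | add a b ha hb => rw [map_add, map_add, map_add, ha, hb, add_zero]
  | monomial n c =>
    rw [zqmd_mon]
    simp [Derivation.leibniz_pow, MvPolynomial.pderiv_X]

theorem zqmd_d0 (φ : R →+* A) (u : R[X]) :
    MvPolynomial.pderiv 0 (zqmd_P φ (C u)) = zqmd_P φ (C (derivative u)) := by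
  induction u using Polynomial.induction_on' with
  | add a b ha hb => simp only [map_add, ha, hb]
  | monomial n c =>
    rw [derivative_monomial, zqmd_mon, zqmd_mon]
    simp [Derivation.leibniz_pow, MvPolynomial.pderiv_X]
    ring

theorem zqmd_d1 (φ : R →+* A) (a : R[X][X]) :
    MvPolynomial.pderiv 1 (zqmd_P φ a) = zqmd_P φ (derivative a) := by
  have h : ∀ n (u : R[X]), zqmd_P φ (monomial n u) = zqmd_P φ (C u) * MvPolynomial.X 1 ^ n := by
    intro n u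
    rw [← C_mul_X_pow_eq_monomial, map_mul, map_pow, zqmd_P, e2_X]
  induction a using Polynomial.induction_on' with
  | add a b ha hb => simp only [map_add, ha, hb]
  | monomial n u =>
    rw [derivative_monomial, h, h, Derivation.leibniz, zqmd_d10]
    simp [Derivation.leibniz_pow, MvPolynomial.pderiv_X]
    ring

theorem zqmd_det {i : DecidableEq (Fin 2)} (M : Matrix (Fin 2) (Fin 2) A) :
    @Matrix.det _ i _ _ _ M = M 0 0 * M 1 1 - M 0 1 * M 1 0 := by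
  obtain rfl : i = instDecidableEqFin 2 := Subsingleton.elim _ _
  exact Matrix.det_fin_two M

theorem zqmd_newton {F : ℕ → Ideal A} (hF : Flt F) (φ : R →+* A) {s t₀ h₀ : A} (hs : s ∈ F 1)
    {u : R[X]} (a : R[X][X]) {θ : R[X][X]} (h1 : u.eval₂ φ t₀ ∈ F 1) (h2 : e2 φ t₀ h₀ θ ∈ F 1)
    (h3 : IsUnit ((derivative u).eval₂ φ t₀)) (h4 : IsUnit (e2 φ t₀ h₀ (derivative θ))) :
    ∃ t h, u.eval₂ φ t = s * e2 φ t h a ∧ e2 φ t h θ = s ∧ t - t₀ ∈ F 1 ∧ h - h₀ ∈ F 1 := by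
  obtain ⟨x, e, hx⟩ := hF.exists_zero
    (![zqmd_P φ (C u) - MvPolynomial.C s * zqmd_P φ a, zqmd_P φ θ - MvPolynomial.C s] :
      Fin 2 → MvPolynomial (Fin 2) A) (x₀ := ![t₀, h₀]) (Fin.forall_fin_two.2 ⟨by
        simp only [Matrix.cons_val_zero, MvPolynomial.eval₂_sub, MvPolynomial.eval₂_mul,
          MvPolynomial.eval₂_C, zqmd_eval, e2_C, RingHom.id_apply]
        exact sub_mem h1 (Ideal.mul_mem_right _ _ hs), by
        simp only [Matrix.cons_val_zero, Matrix.cons_val_one, MvPolynomial.eval₂_sub,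
          MvPolynomial.eval₂_C, zqmd_eval, RingHom.id_apply]
        exact sub_mem h2 hs⟩) (by
      obtain ⟨v, hv⟩ := h3.mul h4
      have key : ∀ b c d : A, IsUnit (((derivative u).eval₂ φ t₀ - s * b) *
          e2 φ t₀ h₀ (derivative θ) - (0 - s * c) * d) := fun b c d => by
        have h5 := v.isUnit.mul (hF.unit _ (Ideal.mul_mem_right
          (v⁻¹ * (c * d - b * e2 φ t₀ h₀ (derivative θ))) _ hs))
        rw [mul_add, mul_left_comm, Units.mul_inv_cancel_left, hv] at h5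
        refine Eq.mp (congrArg IsUnit ?_) h5
        ring
      rw [zqmd_det]
      simp only [jac, Matrix.of_apply, Matrix.cons_val_zero, Matrix.cons_val_one, map_sub,
        MvPolynomial.pderiv_C_mul, MvPolynomial.pderiv_C, zqmd_d0, zqmd_d1, derivative_C, map_zero,
        sub_zero, MvPolynomial.eval₂_sub, MvPolynomial.eval₂_mul, MvPolynomial.eval₂_C,
        MvPolynomial.eval₂_zero, zqmd_eval, e2_C, RingHom.id_apply]
      exact key _ _ _)
  have e0 := e 0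
  have e1 := e 1
  simp only [Matrix.cons_val_zero, Matrix.cons_val_one, MvPolynomial.eval₂_sub,
    MvPolynomial.eval₂_mul, MvPolynomial.eval₂_C, zqmd_eval, e2_C, RingHom.id_apply] at e0 e1
  exact ⟨x 0, x 1, sub_eq_zero.1 e0, sub_eq_zero.1 e1, hx 0, hx 1⟩

end ring

variable {p : ℕ} {K Λ : Type} [Field K] [CharZero K] [NormedField Λ] [IsUltrametricDist Λ]
  [IsAlgClosed Λ] [Algebra K Λ] [IsGalois K Λ] [Loc p K Λ] [Fact p.Prime] [CharP (kk Λ) p]

variable {N : ℕ} {J : Ideal (MvPolynomial (Fin (N + 1)) K)} {B L L' : IntermediateField K Λ}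

theorem zqmd_coe (hL : L ≤ L') (x y : SL L') (a : (OL L)[X][X]) :
    ((e2 ((cS L).codRestrict (SL L') (cS_mem hL)) x y a : SL L') : Λ⟦X⟧) = e2 (cS L) x y a :=
  map_e2 (SL L').subtype _ x y a

theorem zqmd_c0 (x y : Λ⟦X⟧) (a : (OL L)[X][X]) :
    c0 (e2 (cS L) x y a) = e2 (OL L).subtype (c0 x) (c0 y) a := by
  have h1 : (c0 (Λ := Λ)).comp (cS L) = (OL L).subtype :=
    RingHom.ext fun c => PowerSeries.constantCoeff_C _
  rw [map_e2, h1]

theorem zqmd_ev [FiniteDimensional K L'] (hL : L ≤ L') {t : Λ} (ht : ‖t‖ < 1) (x y : SL L')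
    (a : (OL L)[X][X]) :
    evS p L' ht (e2 ((cS L).codRestrict (SL L') (cS_mem hL)) x y a) =
      e2 (OL L).subtype (ev t x) (ev t y) a := by
  rw [map_e2, ev_comp ht hL, evS_apply, evS_apply]

namespace QChart

variable {𝒞 : QChart J B} {lam : Fin 𝒞.d → (OL L)[X]} {u : (OL L)[X]} {e m n : ℕ}

include p in
theorem exists_tz [FiniteDimensional K L'] (hB : B ≤ L) (hL : L ≤ L') (hU : UnrF (𝒞.π : Λ) L')
    (A : (OL L)[X][X]) {t₀ h₀ : Λ} (ht : t₀ ∈ OL L') (hh : h₀ ∈ OL L')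
    (hk : 𝒞.red.Gk (fun i => (lD lam i).eval (rs t₀)) (rs h₀))
    (hu : (u.map (rL L)).rootMultiplicity (rs t₀) = 1) :
    ∃ τ H : Λ⟦X⟧, τ ∈ SL L' ∧ H ∈ SL L' ∧ ‖c0 τ - t₀‖ < 1 ∧ ‖c0 H - h₀‖ < 1 ∧
      u.eval₂ (cS L) τ = PowerSeries.X * e2 (cS L) τ H A ∧
      ev2 (cS B) (fun i => (lam i).eval₂ (cS L) τ) H 𝒞.ϑ = PowerSeries.X := by
  let φ := (cS L).codRestrict (SL L') (cS_mem hL)
  let x : SL L' := ⟨PowerSeries.C t₀, C_mem_SL ht⟩
  let y : SL L' := ⟨PowerSeries.C h₀, C_mem_SL hh⟩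
  have key : ∀ a, ‖c0 (e2 φ x y a : Λ⟦X⟧)‖ ≤ 1 ∧
      rs (c0 (e2 φ x y a : Λ⟦X⟧)) = e2 (rL L) (rs t₀) (rs h₀) a := fun a => by
    rw [zqmd_coe hL, zqmd_c0, PowerSeries.constantCoeff_C, PowerSeries.constantCoeff_C]
    exact rs_e2 chartb_le chartb_r ht.2 hh.2 a
  have k1 : ∀ a, e2 (rL L) (rs t₀) (rs h₀) a = 0 → e2 φ x y a ∈ fI L' 𝒞.π_lt 1 := fun a h =>
    mem_fI.2 (fS_one hU (e2 φ x y a).2 ((rs_eq_zero (key a).1).1 ((key a).2.trans h)))
  have k2 : ∀ a, e2 (rL L) (rs t₀) (rs h₀) a ≠ 0 → IsUnit (e2 φ x y a) := fun a h =>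
    SL_isUnit.2 (rs_ne_zero.1 fun h' => h ((key a).2.symm.trans h'))
  have k3 : ∀ f, e2 (rL L) (rs t₀) (rs h₀) (cv (inc hB) lam f) =
      ev2 (rL B) (fun i => (lD lam i).eval (rs t₀)) (rs h₀) f := fun f => by
    rw [e2_cv, rL_inc]
    simp only [eval_map]
  obtain ⟨u0, u1⟩ := rootMultiplicity_pos'.1 (hu.symm ▸ one_pos :
    0 < (u.map (rL L)).rootMultiplicity (rs t₀))
  have u2 : ¬(derivative (u.map (rL L))).IsRoot (rs t₀) := fun h =>
    ((one_lt_rootMultiplicity_iff_isRoot u0).2 ⟨u1, h⟩).ne' hu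
  rw [IsRoot.def, eval_map] at u1
  rw [derivative_map, IsRoot.def, eval_map] at u2
  obtain ⟨t, h, e1, e3, m1, m2⟩ := zqmd_newton (flt_SL (p := p) L' 𝒞.π_lt) φ
    (s := ⟨PowerSeries.X, X_mem_SL⟩) (t₀ := x) (h₀ := y)
    (mem_fI.2 (by simpa only [pow_one] using X_pow_mem_fS 1)) (u := u) A
    (θ := cv (inc hB) lam 𝒞.ϑ) (e2_C φ x y u ▸ k1 _ ((e2_C _ _ _ _).trans u1))
    (k1 _ ((k3 _).trans hk.on)) (e2_C φ x y _ ▸ k2 _ (by rwa [e2_C]))
    (k2 _ (by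
      rw [← cv_derivative, k3]
      exact hk.der hk.on))
  have m3 := c0_lt 𝒞.π_lt (mem_fI.1 m1)
  have m4 := c0_lt 𝒞.π_lt (mem_fI.1 m2)
  rw [AddSubgroupClass.coe_sub, map_sub, PowerSeries.constantCoeff_C] at m3 m4
  refine ⟨t, h, t.2, h.2, m3, m4, ?_, ?_⟩
  · rw [← e2_C _ _ (h : Λ⟦X⟧), ← zqmd_coe hL, ← zqmd_coe hL, e2_C, e1, Subring.coe_mul]
  · have e4 := (zqmd_coe hL t h _).symm.trans (congrArg (fun z : SL L' => (z : Λ⟦X⟧)) e3)
    rw [e2_cv] at e4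
    exact e4

/-- the zeros in a disc over a simple root form a transversal cycle -/
theorem tz_disc (T : Tower p B) (hn : 0 < n) (hB : B ≤ L) (hL : L ≤ T.U n)
    (he : ∀ i, (lam i).natDegree ≤ e) (hu : u.Monic) {A : (OL L)[X][X]}
    (hG : Lead (𝒞.red.b * e) m (C u - cv (inc hB) lam 𝒞.ϑ * A))
    (hz : 𝒞.GZ (lD lam) (C (u.map (rL L)))) {z : kk Λ × kk Λ}
    (hf : pm (fr (kk Λ) p (T.r * n)) z = z) (h0 : On (𝒞.cK (lD lam)) z)
    (h1 : (u.map (rL L)).rootMultiplicity z.1 = 1) :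
    clL J (T.U n) (𝒞.Pf (lU lam) (dsc z (dv (𝒞.cL (lU lam))
        (mp (OL L).subtype (C u - cv (inc hB) lam 𝒞.ϑ * A)))) -
      𝒞.Lq p (fun i => (lD lam i).eval z.1) z.2) ∈ 𝒞.Vu T := by
  have := T.fin n hn
  have hB' : B ≤ T.U n := hB.trans hL
  have hU : UnrF (𝒞.π : Λ) (T.U n) := unrF hn
  obtain ⟨t₀, ht₀⟩ : ∃ x : OL (T.U n), rL _ x = z.1 := T.exists_lift hn (congrArg Prod.fst hf)
  obtain ⟨h₀, hh₀⟩ : ∃ x : OL (T.U n), rL _ x = z.2 := T.exists_lift hn (congrArg Prod.snd hf)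
  rw [rL_apply] at ht₀ hh₀
  have hroot : (u.map (rL L)).IsRoot z.1 := (rootMultiplicity_pos'.1 (by omega)).2
  have hk : 𝒞.red.Gk (fun i => (lD lam i).eval z.1) z.2 :=
    gk_iff.2 ⟨h0, hz z h0 ((ee_C _ _).trans hroot)⟩
  obtain ⟨τ, H, mτ, mH, nτ, nH, e1, e3⟩ := exists_tz (p := p) (lam := lam) (u := u) hB hL hU A
    t₀.2 h₀.2 (by rwa [ht₀, hh₀]) (by rwa [ht₀])
  let R : Fin 𝒞.d → Λ⟦X⟧ := fun j => (lam j).eval₂ (cS L) τ
  have hR : ∀ j, R j ∈ SL (T.U n) := fun j => eval₂_mem_SL (cS_mem hL) mτ _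
  have rτ : rs (c0 τ) = z.1 := (chartb_near t₀.2.2 nτ).2.trans ht₀
  have rH : rs (c0 H) = z.2 := (chartb_near h₀.2.2 nH).2.trans hh₀
  have evR : ∀ t, ‖t‖ < 1 → (fun j => ev t (R j)) = fun j => (lU lam j).eval (ev t τ) := by
    intro t ht
    funext j
    rw [ev_eval₂ (p := p) ht hL mτ, eval_map]
  have hc : (fun j => rs (c0 (R j))) = fun j => (lD lam j).eval z.1 := by
    have h2 := evR 0 (by simp)
    simp only [ev_zero] at h2
    rw [← rτ, eval_lD lam (c0_mem mτ).2]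
    funext j
    rw [congrFun h2 j]
  have hg : 𝒞.GS (T.U n) R h₀ := ⟨hR, h₀.2, by rwa [hc, hh₀]⟩
  obtain ⟨H', E, hE⟩ := hg.exists_tpd (p := p) hB' hU
  obtain rfl : H' = H := hg.unique hB' mH hE.mem nH hE.near (hE.eq.trans e3.symm)
  have tp : ∀ t ∈ E.roots.toFinset, (t, ev t H') ∈ 𝒞.tp h₀ R := fun t ht =>
    (hE.tp _).2 ⟨(tp_mem_roots hE.eis).1 ht, rfl⟩
  have th : ∀ t ∈ E.roots.toFinset,
      ev2 (OL B).subtype (fun j => (lU lam j).eval (ev t τ)) (ev t H') 𝒞.ϑ = t := fun t ht => by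
    rw [← evR t (tp t ht).1]
    exact (tp t ht).2.2.1
  have inj : Set.InjOn (fun t => (ev t τ, ev t H')) (E.roots.toFinset : Set Λ) := by
    intro t ht t' ht' e
    have a1 := th t ht
    rw [(Prod.mk.inj e).1, (Prod.mk.inj e).2] at a1
    exact a1.symm.trans (th t' ht')
  have hD := dsc_eq (z := z) (dv_nonneg (𝒞.cL (lU lam))
    (mp (OL L).subtype (C u - cv (inc hB) lam 𝒞.ϑ * A)))
    (S := E.roots.toFinset.image fun t => (ev t τ, ev t H')) (fun Q hQ => by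
      obtain ⟨t, ht, rfl⟩ := Finset.mem_image.1 hQ
      have lt := (tp t ht).1
      refine ⟨Prod.ext ((rs_ev (p := p) lt mτ).trans rτ) ((rs_ev (p := p) lt mH).trans rH),
        (Lead.dv_ne_zero (wt_crv (OL B).subtype (lU_deg he)) (hG.map _)).2 ⟨Gd.et ?_, ?_⟩⟩
      · rw [← evR t lt]
        exact (hg.tp_gd (p := p) (tp t ht)).1
      · have a1 := congrArg (ev t) e1
        have a2 := zqmd_ev (p := p) hL lt ⟨τ, mτ⟩ ⟨H', mH⟩ A
        have a3 := zqmd_coe hL ⟨τ, mτ⟩ ⟨H', mH⟩ A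
        have a4 := th t ht
        rw [evS_apply, a3] at a2
        rw [ev_eval₂ (p := p) lt hL mτ, ev_mul (p := p) lt X_mem_SL (a3 ▸ Subtype.property _),
          ev_X, a2] at a1
        simp only [eval_map] at a4
        rw [ee_mp, map_sub, map_mul, e2_C, e2_cv, subtype_inc, a1, a4, sub_self]) (by
      rw [(CNT_C hB he hu hG hz).2, h1, Finset.card_image_of_injOn inj,
        hE.eis.card (p := p) (π_mem hB') 𝒞.π_ne 𝒞.π_lt hU, hc, hh₀, Nat.cast_one, mul_one])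
  have h2 := sub_Lq_mem (p := p) hn hg
  rw [hE.Qc_eq, hc, hh₀] at h2
  rw [hD, Finset.sum_image inj, map_sum]
  simp only [Pf_single]
  rwa [← Finset.sum_congr rfl fun t ht => by rw [← evR t (tp t ht).1]]

end QChart

end Pool.Agent.ZeroCyc
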