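import Pool.Agent.Lib.MP_796ce4_ag.ZQ.MT
import Pool.Agent.Lib.MP_796ce4_ag.ZQ.QSig

/-! Sums over residue discs; values of functionals. -/

namespace Pool.Agent.ZeroCyc

open Polynomial Module
open scoped Classical IntermediateField PowerSeries

set_option linter.unusedSectionVars false

variable {p : ℕ} {K Λ : Type} [Field K] [CharZero K] [NormedField Λ] [IsUltrametricDist Λ]
  [IsAlgClosed Λ] [Algebra K Λ] [IsGalois K Λ] [Loc p K Λ] [Fact p.Prime] [CharP (kk Λ) p]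

variable {N : ℕ} {J : Ideal (MvPolynomial (Fin (N + 1)) K)} {B L : IntermediateField K Λ}

variable (J) in
/-- the value of a functional on a cycle -/
noncomputable def Psi (ℓ : VV Λ J →+ ℚ) : (PY Λ N →₀ ℤ) →+ ℚ := ℓ.comp (clL J ⊥)

variable {ℓ : VV Λ J →+ ℚ}

theorem Psi_single (y : PY Λ N) (k : ℤ) : Psi J ℓ (Finsupp.single y k) = k * psi J ℓ y := by
  rw [← Finsupp.smul_single_one, map_zsmul, zsmul_eq_mul]
  rfl

theorem clL_Psi (ℓ : VV Λ J →+ ℚ) (L : IntermediateField K Λ) (D : PY Λ N →₀ ℤ) :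
    ℓ (clL J L D) = finrank K L * Psi J ℓ D := by
  rw [clL_eq_nsmul (L := ⊥) (L' := L) (n := finrank K L)
    (by rw [IntermediateField.finrank_bot, mul_one]) D, map_nsmul, nsmul_eq_mul]
  rfl

theorem Psi_eq_zero [FiniteDimensional K L] {D : PY Λ N →₀ ℤ} (h : ℓ (clL J L D) = 0) :
    Psi J ℓ D = 0 := by
  rw [clL_Psi] at h
  exact (mul_eq_zero.1 h).resolve_left (Nat.cast_ne_zero.2 Module.finrank_pos.ne')

theorem psi_gal (σ : Λ ≃ₐ[K] Λ) (y : PY Λ N) : psi J ℓ (galY σ y) = psi J ℓ y := by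
  unfold psi
  rw [← galC_single, clL_gal]

namespace QChart

variable {𝒞 : QChart J B} {T : Tower p B} {n : ℕ} {y : Fin 𝒞.d → Λ} {h h₀ : Λ}

theorem Psi_Pf (lam : Fin 𝒞.d → Λ[X]) (D : Λ × Λ →₀ ℤ) : Psi J ℓ (𝒞.Pf lam D) =
    D.sum fun Q k => (k : ℚ) * psi J ℓ (𝒞.io (fun i => (lam i).eval Q.1) Q.2) := by
  conv_lhs => rw [← Finsupp.sum_single D, map_finsuppSum, map_finsuppSum]
  exact Finsupp.sum_congr fun Q _ => by rw [Pf_single, Psi_single]

theorem Psi_Lf (l : Fin 𝒞.d → (kk Λ)[X]) (E : kk Λ × kk Λ →₀ ℤ) : Psi J ℓ (𝒞.Lf p l E) =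
    E.sum fun z k => (k : ℚ) * Psi J ℓ (𝒞.Lq p (fun i => (l i).eval z.1) z.2) := by
  conv_lhs => rw [← Finsupp.sum_single E, map_finsuppSum, map_finsuppSum]
  exact Finsupp.sum_congr fun Q _ => by rw [Lf_single, map_zsmul, zsmul_eq_mul]

/-- the functional is constant on good residue discs -/
def Cst (𝒞 : QChart J B) (ℓ : VV Λ J →+ ℚ) : Prop := ∀ y h y' h', 𝒞.Gd y h → 𝒞.Gd y' h' →
  (∀ i, ‖y' i - y i‖ < 1) → ‖h' - h‖ < 1 → psi J ℓ (𝒞.io y' h') = psi J ℓ (𝒞.io y h)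

theorem Psi_Qc (hℓ : 𝒞.Cst ℓ) (hn : 0 < n) {R : Fin 𝒞.d → Λ⟦X⟧} (hR : 𝒞.GS (T.U n) R h₀)
    (hg : 𝒞.Gd y h) (hy : ∀ j, rs (y j) = rs (c0 (R j))) (hh : rs h = rs h₀) :
    Psi J ℓ (𝒞.Qc h₀ R) = 𝒞.mu (fun i => rs (y i)) (rs h) * psi J ℓ (𝒞.io y h) := by
  have := T.fin n hn
  obtain ⟨H, E, ht⟩ := hR.exists_tpd (p := p) (T.le n) (unrF hn)
  have h1 : ∀ t ∈ E.roots.toFinset, Psi J ℓ (Finsupp.single
      (𝒞.io (fun j => ev t (R j)) (ev t H)) 1) = psi J ℓ (𝒞.io y h) := fun t htm => by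
    have h0 : E.eval t = 0 := (mem_roots ht.eis.monic.ne_zero).1 (Multiset.mem_toFinset.1 htm)
    obtain ⟨g1, g2, g3⟩ := hR.tp_gd (p := p) ((ht.tp (t, ev t H)).2 ⟨h0, rfl⟩)
    rw [Psi_single, Int.cast_one, one_mul]
    exact hℓ y h _ _ hg g1
      (fun i => (rs_eq_iff (g1.y_le i) (hg.y_le i)).1 ((g2 i).trans (hy i).symm))
      ((rs_eq_iff g1.h_le hg.h_le).1 (g3.trans hh.symm))
  rw [ht.Qc_eq, map_sum, Finset.sum_congr rfl h1, Finset.sum_const, nsmul_eq_mul,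
    ht.eis.card (p := p) (π_mem (T.le n)) 𝒞.π_ne 𝒞.π_lt (unrF hn), funext hy, hh]

theorem Psi_Lq (T : Tower p B) (hℓ : 𝒞.Cst ℓ) (hg : 𝒞.Gd y h) :
    Psi J ℓ (𝒞.Lq p (fun i => rs (y i)) (rs h)) =
      𝒞.mu (fun i => rs (y i)) (rs h) * psi J ℓ (𝒞.io y h) := by
  obtain ⟨n, hn, hf⟩ := T.exists_fixed_finset
    (insert (rs h) (Finset.univ.image fun i => rs (y i)))
  refine Psi_Qc hℓ hn (gs_teich hg.gk T hn
    (fun i => hf _ (Finset.mem_insert_of_mem (Finset.mem_image_of_mem _ (Finset.mem_univ i))))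
    (hf _ (Finset.mem_insert_self _ _))) hg (fun j => ?_) (teich_spec K _).2.symm
  rw [PowerSeries.constantCoeff_C, (teich_spec K _).2]

theorem exists_gd_rs {a : Fin 𝒞.d → kk Λ} {c : kk Λ} (hk : 𝒞.red.Gk a c) :
    ∃ y h, 𝒞.Gd y h ∧ (fun i => rs (y i)) = a ∧ rs h = c := by
  choose y h1 h2 using fun i => rs_surj (a i)
  obtain rfl : (fun i => rs (y i)) = a := funext h2
  obtain ⟨h, h3, h4⟩ := exists_gd hk h1
  exact ⟨y, h, h3, rfl, h4⟩

theorem kill_Vu (T : Tower p B) (hℓ : ∀ y h y' h', 𝒞.Gd y h → 𝒞.Gd y' h' →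
    (∀ i, ‖y' i - y i‖ < 1) → ‖h' - h‖ < 1 → psi J ℓ (𝒞.io y' h') = psi J ℓ (𝒞.io y h)) :
    ∀ x ∈ 𝒞.Vu T, ℓ x = 0 := by
  refine Vu_le (H := ℓ.ker) fun n hn R h hR v hv => ?_
  obtain ⟨y, h', hg, e1, e2⟩ := exists_gd_rs hR.gk
  obtain ⟨hR', e3⟩ := hR.move (R' := R + v) (by rwa [add_sub_cancel_left])
  rw [AddMonoidHom.mem_ker, clL_Psi, map_sub, Psi_Qc hℓ hn hR hg (congrFun e1) e2,
    Psi_Qc hℓ hn hR' hg (fun j => (congrFun e1 j).trans (e3 j).symm) e2, sub_self, mul_zero]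

/-- a functional that vanishes at all good points kills the transversal cycles -/
theorem kill_UU (T : Tower p B) (hℓ : ∀ y h, 𝒞.Gd y h → psi J ℓ (𝒞.io y h) = 0) :
    ∀ x ∈ 𝒞.UU T, ℓ x = 0 := by
  refine UU_le (H := ℓ.ker) fun n hn => (AddSubgroup.closure_le _).2 ?_
  rintro _ ⟨R, h, hR, rfl⟩
  have := T.fin n hn
  refine hR.Qc_mem (p := p) (T.le n) (unrF hn) fun L' y h' _ _ hg _ _ => ?_
  rw [AddMonoidHom.mem_ker, clL_Psi, Psi_single, hℓ y h' hg.gd, mul_zero, mul_zero]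

/-- an invariant divisor is treated disc by disc -/
theorem disc_mem (hn : 0 < n) {lam : Fin 𝒞.d → (OL (T.U n))[X]} {D : Λ × Λ →₀ ℤ}
    {E : kk Λ × kk Λ →₀ ℤ} (hD : psh (pm (T.φ ^ n)) D = D)
    (hE : psh (pm (fr (kk Λ) p (T.r * n))) E = E)
    (hg : ∀ z, E z ≠ 0 → 𝒞.red.Gk (fun i => (lD lam i).eval z.1) z.2) {H : AddSubgroup (VV Λ J)}
    (hH : ∀ z c, 0 < c → pm (fr (kk Λ) p (T.r * (n * c))) z = z →
      clL J (T.U (n * c)) (𝒞.Pf (lU lam) (dsc z D) -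
        E z • 𝒞.Lq p (fun i => (lD lam i).eval z.1) z.2) ∈ H) :
    clL J (T.U n) (𝒞.Pf (lU lam) D - 𝒞.Lf p (lD lam) E) ∈ H := by
  have i1 : Function.Injective (fr (kk Λ) p (T.r * n)) := RingHom.injective _
  have i2 : Function.Injective (pm (fr (kk Λ) p (T.r * n))) := i1.prodMap i1
  have i3 : Function.Injective (pm (T.φ ^ n)) := (T.φ ^ n).injective.prodMap (T.φ ^ n).injective
  have e1 : ∀ z, E (pm (fr (kk Λ) p (T.r * n)) z) = E z := fun z => by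
    conv_lhs => rw [← hE]
    exact psh_apply_inj i2 E z
  have e2 : ∀ Q, D (pm (T.φ ^ n) Q) = D Q := fun Q => by
    conv_lhs => rw [← hD]
    exact psh_apply_inj i3 D Q
  have e3 : ∀ i x, (lD lam i).eval (fr (kk Λ) p (T.r * n) x) =
      fr (kk Λ) p (T.r * n) ((lD lam i).eval x) := fun i x => by
    have := T.fr_lD hn lam 1 i
    rw [mul_one] at this
    conv_lhs => rw [← this, eval_map, eval₂_at_apply]
  have ho : ∀ i, Over (T.U n) (lU lam i) := fun i k => by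
    rw [coeff_map]
    exact ((lam i).coeff k).2.1
  have h1 := T.orbit_mem (J := J) hn (D.support.image (pm rs) ∪ E.support)
    (pm (fr (kk Λ) p (T.r * n))) (fun z hz => ?_) i2.injOn
    (fun z => 𝒞.Pf (lU lam) (dsc z D) - E z • 𝒞.Lq p (fun i => (lD lam i).eval z.1) z.2)
    (fun z _ => ?_) H (fun z _ c hc hz _ => hH z c hc (by rwa [pm_fr_iterate, mul_assoc] at hz))
  · rw [Finset.sum_sub_distrib, ← map_sum, sum_dsc fun Q hQ => Finset.mem_union_left _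
      (Finset.mem_image_of_mem _ (Finsupp.mem_support_iff.2 hQ))] at h1
    have h2 : 𝒞.Lf p (lD lam) E = ∑ z ∈ D.support.image (pm rs) ∪ E.support,
        E z • 𝒞.Lq p (fun i => (lD lam i).eval z.1) z.2 := by
      unfold Lf
      rw [lsum_apply]
      exact Finsupp.sum_of_support_subset E Finset.subset_union_right _ fun _ _ => zero_zsmul _
    rwa [h2]
  · rcases Finset.mem_union.1 hz with hz | hz
    · obtain ⟨Q, hQ, rfl⟩ := Finset.mem_image.1 hz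
      refine Finset.mem_union_left _ (Finset.mem_image.2 ⟨pm (T.φ ^ n) Q, ?_, ?_⟩)
      · rwa [Finsupp.mem_support_iff, e2, ← Finsupp.mem_support_iff]
      · exact Prod.ext (T.rs_φ n Q.1) (T.rs_φ n Q.2)
    · refine Finset.mem_union_right _ ?_
      rwa [Finsupp.mem_support_iff, e1, ← Finsupp.mem_support_iff]
  · have h3 : dsc (pm (fr (kk Λ) p (T.r * n)) z) D = psh (pm (T.φ ^ n)) (dsc z D) := by
      conv_lhs => rw [← hD]
      exact dsc_psh i1 (T.rs_φ n) z D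
    rw [map_sub, map_zsmul, h3, Pf_gal (T.le n) ho (T.fix_U n hn), e1]
    by_cases hz : E z = 0
    · rw [hz, zero_zsmul, zero_zsmul]
    · rw [← Lq_fr (hg z hz) T n]
      congr 3
      exact funext fun i => e3 i z.1

end QChart

end Pool.Agent.ZeroCyc
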