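import Pool.Agent.Lib.MP_796ce4_ag.ZQ.ME1
import Pool.Agent.Lib.MP_796ce4_ag.ZQ.MD
import Pool.Agent.Lib.MP_796ce4_ag.ZQ.MQ

/-! A good point is a multiple of a transversal cycle modulo `Vu`. -/

namespace Pool.Agent.ZeroCyc

open Polynomial Module
open scoped Classical IntermediateField PowerSeries

set_option linter.unusedSectionVars false

variable {p : ℕ} {K Λ : Type} [Field K] [CharZero K] [NormedField Λ] [IsUltrametricDist Λ]
  [IsAlgClosed Λ] [Algebra K Λ] [IsGalois K Λ] [Loc p K Λ] [Fact p.Prime] [CharP (kk Λ) p]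

variable {N : ℕ} {J : Ideal (MvPolynomial (Fin (N + 1)) K)} {B L : IntermediateField K Λ}

namespace QChart

variable {𝒞 : QChart J B} {n e e₀ e' m : ℕ} {c : kk Λ}

theorem zqme_rs0 {t : Λ} (ht : ‖t‖ < 1) : rs t = 0 := (rs_eq_zero ht.le).2 ht

theorem zqme_eval (lam : Fin 𝒞.d → (OL L)[X]) {t : Λ} (ht : ‖t‖ < 1) :
    (fun i => rs ((lU lam i).eval t)) = fun i => (lD lam i).eval 0 := by
  rw [← eval_lD lam ht.le, zqme_rs0 ht]

/-- the fibre over a point of the disc around zero -/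
theorem zqme_fib (lam : Fin 𝒞.d → (OL L)[X]) {t : Λ} (ht : ‖t‖ < 1)
    (hρ : (𝒞.red.rho (rL B) (lD lam)).eval 0 ≠ 0) (c : kk Λ) : ∃ S : Finset Λ,
      (∀ η, η ∈ S ↔ rs η = c ∧ On (𝒞.cL (lU lam)) (t, η)) ∧
      S.card = 𝒞.mu (fun i => (lD lam i).eval 0) c := by
  have hy := norm_lU lam ht.le
  rw [Chart.eval_rho, ← zqme_eval lam ht] at hρ
  obtain ⟨s, -, h1, -, h2⟩ := exists_fibre (𝒞 := 𝒞) hy
    (rs_ne_zero.1 ((Chart.chartb_mv hy _).2.trans_ne hρ))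
  refine ⟨s.filter fun η => rs η = c, fun η => ?_, by rw [h2, zqme_eval lam ht]⟩
  rw [Finset.mem_filter, h1, on_cL, and_comm]

/-- the zeros in a disc over zero are points of the fibres -/
theorem fib_disc (hB : B ≤ L) {lam : Fin 𝒞.d → (OL L)[X]} (he : ∀ i, (lam i).natDegree ≤ e₀)
    {u : (OL L)[X]} (hu : u.Monic) {A : (OL L)[X][X]}
    (hG : Lead (𝒞.red.b * e₀) m (C u - cv (inc hB) lam 𝒞.ϑ * A))
    (hz : 𝒞.GZ (lD lam) (C (u.map (rL L)))) {τ : Fin e' → OL L} (hi : Function.Injective τ)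
    (hlt : ∀ i, ‖(τ i : Λ)‖ < 1) (h0 : (u.map (rL L)).rootMultiplicity 0 = e')
    (hρ : (𝒞.red.rho (rL B) (lD lam)).eval 0 ≠ 0) {S : Fin e' → Finset Λ}
    (hS : ∀ i η, η ∈ S i ↔ rs η = c ∧ On (𝒞.cL (lU lam)) (τ i, η))
    (hv : ∀ i, ∀ η ∈ S i, e2 (OL L).subtype (τ i) η (C u - cv (inc hB) lam 𝒞.ϑ * A) = 0) :
    dsc (0, c) (dv (𝒞.cL (lU lam)) (mp (OL L).subtype (C u - cv (inc hB) lam 𝒞.ϑ * A))) =
      ∑ i, ∑ η ∈ S i, Finsupp.single ((τ i : Λ), η) 1 := by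
  have hinj : Set.InjOn (fun x : (_ : Fin e') × Λ => ((τ x.1 : Λ), x.2))
      (Finset.univ.sigma S : Finset ((_ : Fin e') × Λ)) := by
    rintro ⟨i, η⟩ - ⟨j, η'⟩ - h
    obtain rfl : i = j := hi (Subtype.ext (congrArg Prod.fst h))
    obtain rfl : η = η' := congrArg Prod.snd h
    rfl
  have hcard : ∀ i, (S i).card = 𝒞.mu (fun i => (lD lam i).eval 0) c := fun i => by
    obtain ⟨S', h1, h2⟩ := zqme_fib lam (hlt i) hρ c
    rw [← h2]
    exact congrArg _ (Finset.ext fun η => (hS i η).trans (h1 η).symm)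
  rw [dsc_eq (S := (Finset.univ.sigma S).image fun x => ((τ x.1 : Λ), x.2)) (dv_nonneg _ _)
    ?_ ?_, Finset.sum_image hinj, Finset.sum_sigma]
  · intro Q hQ
    obtain ⟨⟨i, η⟩, hx, rfl⟩ := Finset.mem_image.1 hQ
    have hη : η ∈ S i := (Finset.mem_sigma.1 hx).2
    obtain ⟨h1, h2⟩ := (hS i η).1 hη
    refine ⟨Prod.ext (zqme_rs0 (hlt i)) h1, (Lead.dv_ne_zero (𝒞.wt_crv (OL B).subtype (lU_deg he))
      (hG.map _)).2 ⟨Gd.et (gd_of_rs h2 (hlt i).le ?_), (ee_mp _ _ _).trans (hv i η hη)⟩⟩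
    rwa [zqme_rs0 (hlt i)]
  · rw [(CNT_C hB he hu hG hz).2, Finset.card_image_of_injOn hinj, Finset.card_sigma, h0]
    simp only [hcard, Finset.sum_const, Finset.card_univ, Fintype.card_fin, smul_eq_mul]
    push_cast
    ring

variable {T : Tower p B} {lam : Fin 𝒞.d → (OL (T.U n))[X]} {τ : Fin e' → OL (T.U n)}
  {u : (OL (T.U n))[X]} {A : (OL (T.U n))[X][X]}

theorem zqme_sub {R : Type} [CommRing R] (a b : R[X][X]) : a - b * 0 = a := by
  rw [mul_zero, sub_zero]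

theorem zqme_lead (h : 𝒞.M2D (T.le n) c lam e₀ τ u A) :
    Lead (𝒞.red.b * e₀) u.natDegree (C u - cv (inc (T.le n)) lam 𝒞.ϑ * 0) := by
  rw [zqme_sub]
  exact lead_C h.monic

theorem zqme_u (h : 𝒞.M2D (T.le n) c lam e₀ τ u A) (i : Fin e') (η : Λ) :
    e2 (OL (T.U n)).subtype (τ i) η (C u) = 0 := by
  rw [e2_C]
  exact (eval₂_at_apply (OL (T.U n)).subtype (τ i)).trans (by rw [h.root, map_zero])

theorem zqme_zero (h : 𝒞.M2D (T.le n) c lam e₀ τ u A) (i : Fin e') (η : Λ) :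
    e2 (OL (T.U n)).subtype (τ i) η (C u - cv (inc (T.le n)) lam 𝒞.ϑ * 0) = 0 := by
  rw [zqme_sub, zqme_u h]

/-- the two divisors agree modulo `Vu` in the other discs -/
theorem zqme_other (hn : 0 < n) (h : 𝒞.M2D (T.le n) c lam e₀ τ u A)
    (hρ : (𝒞.red.rho (rL B) (lD lam)).eval 0 ≠ 0) {z : kk Λ × kk Λ} (hz : z ≠ (0, c)) {j : ℕ}
    (hj : 0 < j) (hf : pm (fr (kk Λ) p (T.r * (n * j))) z = z) :
    clL J (T.U (n * j)) (𝒞.Pf (lU lam) (dsc z
      (dv (𝒞.cL (lU lam)) (mp (OL _).subtype (C u - cv (inc (T.le n)) lam 𝒞.ϑ * A)) -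
        dv (𝒞.cL (lU lam)) (mp (OL _).subtype (C u - cv (inc (T.le n)) lam 𝒞.ϑ * 0))))) ∈
      𝒞.Vu T := by
  obtain ⟨a, c'⟩ := z
  rw [map_sub (dsc _)]
  by_cases ha : a = 0
  · subst ha
    have hc : c' ≠ c := fun e => hz (by rw [e])
    choose S hS _ using fun i => zqme_fib lam (h.lt i) hρ c'
    rw [fib_disc (T.le n) h.deg h.monic h.lead h.gz h.inj h.lt h.zero hρ hS ?_,
      fib_disc (T.le n) h.deg h.monic (zqme_lead h) h.gz h.inj h.lt h.zero hρ hS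
        fun i η _ => zqme_zero h i η, sub_self, map_zero, map_zero]
    · exact zero_mem _
    · intro i η hη
      obtain ⟨h1, h2⟩ := (hS i η).1 hη
      rw [map_sub, map_mul, zqme_u h, h.van i η h2 (h1 ▸ hc), mul_zero, sub_zero]
  have hzero : (𝒞.mu (fun i => (lD lam i).eval a) c' : ℤ) *
      ((u.map (rL _)).rootMultiplicity a : ℤ) = 0 → clL J (T.U (n * j)) (𝒞.Pf (lU lam)
        (dsc (a, c') (dv (𝒞.cL (lU lam))
          (mp (OL _).subtype (C u - cv (inc (T.le n)) lam 𝒞.ϑ * A))) - dsc (a, c')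
        (dv (𝒞.cL (lU lam)) (mp (OL _).subtype (C u - cv (inc (T.le n)) lam 𝒞.ϑ * 0))))) ∈
      𝒞.Vu T := fun h0 => by
    rw [dsc_eq_zero (dv_nonneg _ _)
        (((CNT_C (T.le n) h.deg h.monic h.lead h.gz).2 (a, c')).trans h0),
      dsc_eq_zero (dv_nonneg _ _)
        (((CNT_C (T.le n) h.deg h.monic (zqme_lead h) h.gz).2 (a, c')).trans h0),
      sub_self, map_zero, map_zero]
    exact zero_mem _
  by_cases h1 : (u.map (rL _)).rootMultiplicity a = 0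
  · exact hzero (by rw [h1, Nat.cast_zero, mul_zero])
  by_cases h2 : On (𝒞.cK (lD lam)) (a, c')
  · have h3 : (u.map (rL _)).rootMultiplicity a = 1 := by
      have := h.simple a ha
      omega
    have hnj := Nat.mul_pos hn hj
    have hle := T.mono hn hnj (dvd_mul_right n j)
    have k1 := tz_disc T hnj (T.le n) hle h.deg h.monic h.lead h.gz hf h2 h3
    have k2 := tz_disc T hnj (T.le n) hle h.deg h.monic (zqme_lead h) h.gz hf h2 h3
    have k3 := (𝒞.Vu T).sub_mem k1 k2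
    rwa [← map_sub, sub_sub_sub_cancel_right, ← map_sub] at k3
  · refine hzero ?_
    rw [mu, rootMultiplicity_eq_zero, Nat.cast_zero, zero_mul]
    intro h3
    refine h2 ?_
    rw [On, ee_cv]
    exact on_iff.1 ((ev2_eq_eval _ _ _ _).trans h3)

theorem M2D.disc (hn : 0 < n) (h : 𝒞.M2D (T.le n) c lam e₀ τ u A)
    (hc : fr (kk Λ) p (T.r * n) c = c) (hρ : (𝒞.red.rho (rL B) (lD lam)).eval 0 ≠ 0) :
    clL J (T.U n) (𝒞.Pf (lU lam) (dsc (0, c)
      (dv (𝒞.cL (lU lam)) (mp (OL _).subtype (C u - cv (inc (T.le n)) lam 𝒞.ϑ * A)) -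
        dv (𝒞.cL (lU lam)) (mp (OL _).subtype (C u - cv (inc (T.le n)) lam 𝒞.ϑ * 0))))) ∈
      𝒞.Vu T := by
  have := T.fin n hn
  have g1 := (CNT_C (T.le n) h.deg h.monic h.lead h.gz).1
  have g2 := (CNT_C (T.le n) h.deg h.monic (zqme_lead h) h.gz).1
  have h0 := MRg (p := p) (T.le n) h.deg h.lead (zqme_lead h) g1 g2
  have i1 := GZ.inv (p := p) (T.le n) h.deg h.lead g1 (T.fix_U n hn)
  have i2 := GZ.inv (p := p) (T.le n) h.deg (zqme_lead h) g2 (T.fix_U n hn)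
  have ho := fun z hz j hj hf => zqme_other (z := z) (j := j) hn h hρ hz hj hf
  rw [← sub_eq_zero, ← map_sub, ← map_sub] at h0
  have i3 := congrArg₂ (· - ·) i1 i2
  simp only [← map_sub] at i3
  generalize dv (𝒞.cL (lU lam)) (mp (OL _).subtype (C u - cv (inc (T.le n)) lam 𝒞.ϑ * A)) -
    dv (𝒞.cL (lU lam)) (mp (OL _).subtype (C u - cv (inc (T.le n)) lam 𝒞.ϑ * 0)) = D
    at h0 i3 ho ⊢
  have hz : pm (fr (kk Λ) p (T.r * n)) ((0 : kk Λ), c) = (0, c) := Prod.ext (map_zero _) hc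
  have key := disc_mem (𝒞 := 𝒞) hn (lam := lam) (D := D - dsc (0, c) D) (E := 0)
    (by rw [map_sub, i3, T.dsc_inv hn hz (T.fix_U n hn) i3]) (map_zero _)
    (fun z hz => absurd rfl hz) (H := 𝒞.Vu T) fun z j hj hf => by
      rw [Finsupp.zero_apply, zero_smul, sub_zero, map_sub (dsc z), dsc_dsc]
      by_cases hz : z = (0, c)
      · rw [if_pos hz, sub_self, map_zero, map_zero]
        exact zero_mem _
      · rw [if_neg hz, sub_zero]
        exact ho z hz j hj hf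
  rw [map_zero, sub_zero, map_sub, map_sub, h0, zero_sub] at key
  exact (neg_mem_iff).1 key

theorem M2D.fibre (hn : 0 < n) (h : 𝒞.M2D (T.le n) c lam e₀ τ u A)
    (hc : fr (kk Λ) p (T.r * n) c = c) (hk : 𝒞.red.Gk (fun i => (lD lam i).eval 0) c) :
    clL J (T.U n) (𝒞.Pf (lU lam) (dsc (0, c)
        (dv (𝒞.cL (lU lam)) (mp (OL _).subtype (C u - cv (inc (T.le n)) lam 𝒞.ϑ * 0))))) -
      e' • clL J (T.U n) (𝒞.Lq p (fun i => (lD lam i).eval 0) c) ∈ 𝒞.Vu T := by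
  have hρ := (gk_iff (z := ((0 : kk Λ), c)).1 hk).2
  choose S hS _ using fun i => zqme_fib lam (h.lt i) hρ c
  obtain ⟨h₀, hh₀⟩ := T.exists_lift hn hc
  rw [rL_apply] at hh₀
  rw [fib_disc (T.le n) h.deg h.monic (zqme_lead h) h.gz h.inj h.lt h.zero hρ hS
    fun i η _ => zqme_zero h i η, map_sum, map_sum]
  have e1 : e' • clL J (T.U n) (𝒞.Lq p (fun i => (lD lam i).eval 0) c) =
      ∑ _i : Fin e', clL J (T.U n) (𝒞.Lq p (fun i => (lD lam i).eval 0) c) := by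
    rw [Finset.sum_const, Finset.card_univ, Fintype.card_fin]
  rw [e1, ← Finset.sum_sub_distrib]
  refine sum_mem fun i _ => ?_
  have hy := norm_lU lam (h.lt i).le
  have e2 : (fun j => rs (c0 (PowerSeries.C ((lU lam j).eval (τ i : Λ))))) =
      fun j => (lD lam j).eval 0 := by
    rw [← zqme_eval lam (h.lt i)]
    exact funext fun j => by rw [PowerSeries.constantCoeff_C]
  have hg : 𝒞.GS (T.U n) (fun j => PowerSeries.C ((lU lam j).eval (τ i : Λ))) h₀ :=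
    ⟨fun j => C_mem_SL ⟨(over_map (lam j)).eval (τ i).2.1, hy j⟩, h₀.2, by rwa [e2, hh₀]⟩
  have k := sub_Lq_mem hn hg
  rw [e2, hh₀, Qc_const hy (h₀ : Λ) (s := S i) fun η => ?_, map_sub] at k
  · rw [map_sum]
    simpa only [Pf_single] using k
  · rw [hS, on_cL]
    refine and_congr_left fun h1 => ?_
    rw [← hh₀]
    exact rs_eq_iff (root_le hy h1) h₀.2.2

theorem ml2_main (hn : 0 < n) [FiniteDimensional K L] {ϖ h : Λ} {s : Fin e → Λ ≃ₐ[K] Λ}
    {μ : (OL (T.U n))[X]} (hT : TRD (𝒞.π : Λ) (T.U n) L ϖ s μ) {y : Fin 𝒞.d → Λ}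
    (hg : 𝒞.GdL L y h) : ∃ j : ℕ, clL J L (Finsupp.single (𝒞.io y h) 1) -
      j • clL J (T.U n) (𝒞.Lq p (fun i => rs (y i)) (rs h)) ∈ 𝒞.Vu T := by
  obtain ⟨lam, e₀, e', τ, u, A, hM, hy, hmu, hz⟩ := exists_m2d T hn hT hg
  have hc := hT.fixed hn hg.h_mem
  have e1 : (fun i => rs (y i)) = fun i => (lD lam i).eval 0 := by
    rw [← zqme_eval lam hT.lt]
    exact funext fun i => by rw [eval_map, hy]
  have hk : 𝒞.red.Gk (fun i => (lD lam i).eval 0) (rs h) := e1 ▸ hg.gd.gk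
  have hρ := (gk_iff (z := ((0 : kk Λ), rs h)).1 hk).2
  have e2 : ∀ t, (fun i => (lU lam i).eval (s t ϖ)) = fun i => s t (y i) := fun t =>
    funext fun i => by rw [eval_map, hT.eval_gal, hy]
  have hB : ∀ t, Fix B (s t) := fun t => (hT.fix t).mono (T.le n)
  have hinj : Function.Injective fun t => (s t ϖ, s t h) := fun t t' e =>
    hT.inj (congrArg Prod.fst e)
  have e3 : dsc (0, rs h) (dv (𝒞.cL (lU lam))
      (mp (OL _).subtype (C u - cv (inc (T.le n)) lam 𝒞.ϑ * A))) =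
        ∑ t, Finsupp.single (s t ϖ, s t h) 1 := by
    rw [dsc_eq (S := Finset.univ.image fun t => (s t ϖ, s t h)) (dv_nonneg _ _) ?_ ?_,
      Finset.sum_image hinj.injOn]
    · intro Q hQ
      obtain ⟨t, -, rfl⟩ := Finset.mem_image.1 hQ
      refine ⟨Prod.ext (zqme_rs0 (hT.lt_gal (p := p) t)) (hT.rs_gal (p := p) hg.h_mem t),
        (Lead.dv_ne_zero (𝒞.wt_crv (OL B).subtype (lU_deg hM.deg)) (hM.lead.map _)).2
          ⟨Gd.et ?_, ?_⟩⟩
      · exact (e2 t).symm ▸ hg.gd.gal (p := p) (hB t)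
      · rw [ee_mp, hT.e2_gal, hz, map_zero]
    · rw [(CNT_C (T.le n) hM.deg hM.monic hM.lead hM.gz).2, Finset.card_image_of_injective _ hinj,
        Finset.card_univ, Fintype.card_fin, hM.zero, ← hmu, e1, Nat.cast_mul]
  have k := (𝒞.Vu T).add_mem (hM.disc hn hc hρ) (hM.fibre hn hc hk)
  rw [map_sub, map_sub, map_sub, sub_add_sub_cancel, e3, map_sum, ← e1] at k
  refine ⟨e', ?_⟩
  rw [← hT.clL_sum]
  simpa only [Pf_single, e2, io_gal (hB _), galC_single] using k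

end QChart

end Pool.Agent.ZeroCyc
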