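import Pool.Agent.Lib.MP_796ce4_ag.ZQ.Ser
import Pool.Agent.Lib.MP_796ce4_ag.ZY.Gen
import Pool.Agent.Lib.MP_796ce4_ag.ZY.TotRam
import Pool.Agent.Lib.MP_796ce4_ag.ZY.Orb

/-! Totally ramified extensions. -/

namespace Pool.Agent.ZeroCyc

open Polynomial Module
open scoped Classical IntermediateField PowerSeries

set_option linter.unusedSectionVars false

variable {p : ℕ} {K Λ : Type} [Field K] [CharZero K] [NormedField Λ] [IsUltrametricDist Λ]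
  [IsAlgClosed Λ] [Algebra K Λ] [IsGalois K Λ] [Loc p K Λ] [Fact p.Prime] [CharP (kk Λ) p]

variable {B L₀ L : IntermediateField K Λ} {π ϖ : Λ} {e : ℕ} {s : Fin e → Λ ≃ₐ[K] Λ}
  {μ : (OL L₀)[X]}

/-- a totally ramified extension with a uniformiser, its conjugates and its equation -/
structure TRD (π : Λ) (L₀ L : IntermediateField K Λ) {e : ℕ} (ϖ : Λ) (s : Fin e → Λ ≃ₐ[K] Λ)
    (μ : (OL L₀)[X]) : Prop where
  le : L₀ ≤ L
  pos : 0 < e
  mem : ϖ ∈ L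
  ne : ϖ ≠ 0
  lt : ‖ϖ‖ < 1
  unr : UnrF ϖ L
  pow : ‖ϖ‖ ^ e = ‖π‖
  fix : ∀ t, Fix L₀ (s t)
  rank : e * finrank K L₀ = finrank K L
  map : μ.map (OL L₀).subtype = ∏ t, (X - C (s t ϖ))
  dist : Dist μ
  deg : μ.natDegree = e
  inj : Function.Injective fun t => s t ϖ
  root : μ.eval₂ (OL L₀).subtype ϖ = 0
  res : ∀ y ∈ L, ‖y‖ ≤ 1 → ∃ c ∈ L₀, ‖c‖ ≤ 1 ∧ ‖y - c‖ < 1
  poly : ∀ y ∈ L, ‖y‖ ≤ 1 → ∃ R : (OL L₀)[X], R.natDegree ≤ e ∧ R.eval₂ (OL L₀).subtype ϖ = y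

theorem zqmu_gal {σ : Λ ≃ₐ[K] Λ} (hσ : Fix L₀ σ) (R : (OL L₀)[X]) (x : Λ) :
    R.eval₂ (OL L₀).subtype (σ x) = σ (R.eval₂ (OL L₀).subtype x) := by
  have h1 : (σ : Λ →+* Λ).comp (OL L₀).subtype = (OL L₀).subtype :=
    RingHom.ext fun c => hσ c c.2.1
  have h2 := hom_eval₂ R (OL L₀).subtype (σ : Λ →+* Λ) x
  rw [h1] at h2
  exact h2.symm

theorem zqmu_dvd (hs : ∀ t, Fix L₀ (s t)) (hμ : μ.map (OL L₀).subtype = ∏ t, (X - C (s t ϖ)))
    (hm : μ.Monic) (hi : Function.Injective fun t => s t ϖ) {F : (OL L₀)[X]}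
    (hF : F.eval₂ (OL L₀).subtype ϖ = 0) : μ ∣ F := by
  rw [← Polynomial.map_dvd_map (OL L₀).subtype (OL L₀).subtype_injective hm, hμ]
  refine Finset.prod_dvd_of_coprime
    ((pairwise_coprime_X_sub_C hi).set_pairwise _) fun t _ => ?_
  rw [dvd_iff_isRoot, IsRoot, eval_map, zqmu_gal (hs t), hF, map_zero]

include p in
theorem zqmu_zero (hμ : μ.map (OL L₀).subtype = ∏ t, (X - C (s t ϖ))) :
    ‖((μ.eval 0 : OL L₀) : Λ)‖ = ‖ϖ‖ ^ e := by
  have h1 : ((μ.eval 0 : OL L₀) : Λ) = (μ.map (OL L₀).subtype).eval 0 := by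
    rw [eval_zero_map]
    rfl
  rw [h1, hμ, eval_prod, norm_prod, Finset.prod_congr rfl fun t _ => by
    rw [eval_sub, eval_X, eval_C, zero_sub, norm_neg, Loc.norm_gal (p := p)]]
  rw [Finset.prod_const, Finset.card_univ, Fintype.card_fin]

theorem zqmu_totram [FiniteDimensional K L] (hle : L₀ ≤ L) (hϖ : ϖ ∈ L)
    (hpoly : ∀ y ∈ L, ‖y‖ ≤ 1 → ∃ R : Λ[X], Over L₀ R ∧ Intg R ∧ R.eval ϖ = y) :
    ∃ (e : ℕ) (s : Fin e → Λ ≃ₐ[K] Λ), 0 < e ∧ (∀ t, Fix L₀ (s t)) ∧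
      e * finrank K L₀ = finrank K L ∧ Over L₀ (∏ t, (X - C (s t ϖ))) ∧
      Function.Injective fun t => s t ϖ := by
  have : CharZero L₀ := algebraRat.charZero L₀
  have hint : IsIntegral L₀ ϖ := Algebra.IsIntegral.isIntegral ϖ
  have hL : IntermediateField.restrictScalars K L₀⟮ϖ⟯ = L := by
    apply le_antisymm
    · intro x hx
      have : L₀⟮ϖ⟯ ≤ IntermediateField.extendScalars hle :=
        IntermediateField.adjoin_simple_le_iff.2 hϖ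
      exact this hx
    · have h2 : ∀ y ∈ L, ‖y‖ ≤ 1 → y ∈ L₀⟮ϖ⟯ := by
        intro y hy hy1
        obtain ⟨R, hR, -, rfl⟩ := hpoly y hy hy1
        obtain ⟨g, rfl⟩ := hR.exists_map
        rw [eval_map_algebraMap]
        exact IntermediateField.algebra_adjoin_le_adjoin _ _
          (Polynomial.aeval_mem_adjoin_singleton _ _)
      intro y hy
      rcases le_total ‖y‖ 1 with h | h
      · exact h2 y hy h
      · have := h2 y⁻¹ (L.inv_mem hy) (by rw [norm_inv]; exact inv_le_one_of_one_le₀ h)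
        simpa using L₀⟮ϖ⟯.inv_mem this
  set g := (minpoly L₀ ϖ).map (algebraMap L₀ Λ) with hg
  have hnd : g.roots.Nodup := nodup_roots (minpoly.irreducible hint).separable.map
  have hcard : g.roots.toFinset.card = (minpoly L₀ ϖ).natDegree := by
    rw [Multiset.toFinset_card_of_nodup hnd, ← (IsAlgClosed.splits g).natDegree_eq_card_roots,
      hg, natDegree_map]
  let r := (Finset.equivFinOfCardEq hcard).symm
  have hr : ∀ t, ∃ σ : Λ ≃ₐ[L₀] Λ, σ ϖ = r t := by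
    intro t
    have h2 : aeval (r t : Λ) (minpoly L₀ ϖ) = 0 := by
      rw [← eval_map_algebraMap]
      exact (mem_roots'.1 (Multiset.mem_toFinset.1 (r t).2)).2
    exact minpoly.exists_algEquiv_of_root' hint.isAlgebraic h2
  choose σ hσ using hr
  have hprod : ∏ t, (X - C ((σ t).restrictScalars K ϖ)) = g := by
    simp only [AlgEquiv.restrictScalars_apply, hσ]
    rw [Equiv.prod_comp r fun x => X - C (x : Λ), Finset.prod_coe_sort _ fun x => X - C x,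
      Finset.prod_eq_multiset_prod, Multiset.toFinset_val, hnd.dedup]
    exact ((IsAlgClosed.splits g).eq_prod_roots_of_monic ((minpoly.monic hint).map _)).symm
  refine ⟨(minpoly L₀ ϖ).natDegree, fun t => (σ t).restrictScalars K,
    minpoly.natDegree_pos hint, fun t x hx => (σ t).commutes ⟨x, hx⟩, ?_, ?_, ?_⟩
  · rw [← IntermediateField.adjoin.finrank hint, mul_comm, finrank_mul_finrank, ← hL]
    rfl
  · rw [hprod]
    intro n
    rw [hg, coeff_map]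
    exact ((minpoly L₀ ϖ).coeff n).2
  · intro t t' h
    simp only [AlgEquiv.restrictScalars_apply, hσ] at h
    exact r.injective (Subtype.ext h)

theorem Tower.exists_trd (T : Tower p B) (hπ : π ∈ B) (h0 : π ≠ 0) (h1 : ‖π‖ < 1) (hU : UnrF π B)
    {m : ℕ} (hm : 0 < m) [FiniteDimensional K L] (hL : T.U m ≤ L) : ∃ n, 0 < n ∧ m ∣ n ∧
      ∃ (e : ℕ) (ϖ : Λ) (s : Fin e → Λ ≃ₐ[K] Λ) (μ : (OL (T.U n))[X]),
        TRD π (T.U n) L ϖ s μ := by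
  obtain ⟨n, hn, hmn, hle, hres⟩ := T.exists_res hm hL
  have := T.fin n hn
  obtain ⟨ϖ, hϖ, hϖ0, hϖ1, hu⟩ := Loc.unif (p := p) L inferInstance
  have hpoly := fun y hy hy1 => totram_poly (p := p) hle hϖ hϖ0 hϖ1 hu hres (y := y) hy hy1
  obtain ⟨e, s, he, hs, hrk, hov, hinj⟩ := zqmu_totram hle hϖ hpoly
  have hsϖ : ∀ t, ‖s t ϖ‖ < 1 := fun t => by rw [Loc.norm_gal (p := p)]; exact hϖ1
  have hint : Intg (∏ t, (X - C (s t ϖ))) :=
    Intg.prod fun t _ => intg_X.sub (intg_C (hsϖ t).le)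
  obtain ⟨μ, hμ1, hμ2, hμ3⟩ := exists_OL_poly hov hint
  have hmon : μ.Monic := hμ3 (monic_prod_X_sub_C _ _)
  have hdeg : μ.natDegree = e := by
    rw [hμ2, natDegree_finsetProd_X_sub_C_eq_card, Finset.card_univ, Fintype.card_fin]
  have hμ : Dist μ := ⟨hmon, fun i hi => by
    have := totram_coeff Finset.univ (fun t => s t ϖ) hsϖ i
      (by rw [Finset.card_univ, Fintype.card_fin]; exact hdeg ▸ hi)
    rwa [← hμ1, coeff_map] at this⟩
  have hroot : μ.eval₂ (OL (T.U n)).subtype ϖ = 0 := by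
    refine (s ⟨0, he⟩).injective ?_
    rw [← zqmu_gal (hs _), map_zero, ← eval_map, hμ1, eval_prod]
    exact Finset.prod_eq_zero (Finset.mem_univ ⟨0, he⟩) (by rw [eval_sub, eval_X, eval_C, sub_self])
  have hR : ∀ y ∈ L, ‖y‖ ≤ 1 → ∃ R : (OL (T.U n))[X], R.natDegree ≤ e ∧
      R.eval₂ (OL (T.U n)).subtype ϖ = y := by
    intro y hy hy1
    obtain ⟨R, a1, a2, a3⟩ := hpoly y hy hy1
    obtain ⟨R', b1, -, -⟩ := exists_OL_poly a1 a2
    refine ⟨R' %ₘ μ, hdeg ▸ natDegree_modByMonic_le R' hmon, ?_⟩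
    rw [eval₂_modByMonic_eq_self_of_root hroot, ← eval_map, b1, a3]
  have hz := zqmu_zero (p := p) hμ1
  refine ⟨n, hn, hmn, e, ϖ, s, μ, hle, he, hϖ, hϖ0, hϖ1, hu, le_antisymm ?_ ?_, hs, hrk, hμ1, hμ,
    hdeg, hinj, hroot, hres, hR⟩
  · rw [← hz]
    refine T.unrF hU hn _ (μ.eval 0).2.1 ?_
    rw [hz]
    exact pow_lt_one₀ (norm_nonneg _) hϖ1 he.ne'
  · have hπL : π ∈ L := hle (T.le n hπ)
    obtain ⟨R, -, hRe⟩ := hR (π / ϖ) (L.div_mem hπL hϖ) (by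
      rw [norm_div, div_le_one (norm_pos_iff.2 hϖ0)]
      exact hu π hπL h1)
    obtain ⟨Q, hQ⟩ := zqmu_dvd hs hμ1 hmon hinj
      (F := C (⟨π, mem_OL.2 ⟨T.le n hπ, h1.le⟩⟩ : OL (T.U n)) - X * R) (by
        rw [eval₂_sub, eval₂_C, eval₂_mul, eval₂_X, hRe, mul_div_cancel₀ _ hϖ0]
        exact sub_self π)
    have h2 := congrArg (fun F => ‖((eval 0 F : OL (T.U n)) : Λ)‖) hQ
    simp only [eval_sub, eval_C, eval_mul, eval_X, zero_mul, sub_zero, Subring.coe_mul,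
      norm_mul] at h2
    rw [h2, hz]
    exact mul_le_of_le_one_right (by positivity) (Q.eval 0).2.2

theorem TRD.root_iff (h : TRD π L₀ L ϖ s μ) {t : Λ} :
    μ.eval₂ (OL L₀).subtype t = 0 ↔ ∃ i, t = s i ϖ := by
  rw [← eval_map, h.map, eval_prod, Finset.prod_eq_zero_iff]
  simp only [Finset.mem_univ, true_and, eval_sub, eval_X, eval_C, sub_eq_zero]

theorem TRD.sep (h : TRD π L₀ L ϖ s μ) : (μ.map (OL L₀).subtype).Separable := by
  rw [h.map]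
  exact separable_prod_X_sub_C_iff.2 h.inj

theorem TRD.eval_gal (h : TRD π L₀ L ϖ s μ) (R : (OL L₀)[X]) (i : Fin e) :
    R.eval₂ (OL L₀).subtype (s i ϖ) = s i (R.eval₂ (OL L₀).subtype ϖ) :=
  zqmu_gal (h.fix i) R ϖ

theorem TRD.e2_gal (h : TRD π L₀ L ϖ s μ) (G : (OL L₀)[X][X]) (η : Λ) (i : Fin e) :
    e2 (OL L₀).subtype (s i ϖ) (s i η) G = s i (e2 (OL L₀).subtype ϖ η G) := by
  have h1 : (s i : Λ →+* Λ).comp (eval₂RingHom (OL L₀).subtype ϖ) =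
      eval₂RingHom (OL L₀).subtype (s i ϖ) := RingHom.ext fun R => (h.eval_gal R i).symm
  have h2 := hom_eval₂ G (eval₂RingHom (OL L₀).subtype ϖ) (s i : Λ →+* Λ) η
  rw [h1] at h2
  exact h2.symm

theorem TRD.dvd (h : TRD π L₀ L ϖ s μ) {F : (OL L₀)[X]} (hF : F.eval₂ (OL L₀).subtype ϖ = 0) :
    μ ∣ F := zqmu_dvd h.fix h.map h.dist.monic h.inj hF

theorem TRD.clL_sum {N : ℕ} {J : Ideal (MvPolynomial (Fin (N + 1)) K)} (h : TRD π L₀ L ϖ s μ)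
    (D : PY Λ N →₀ ℤ) : clL J L₀ (∑ i, galC (s i) D) = clL J L D := by
  rw [map_sum, Finset.sum_congr rfl fun i _ => clL_gal (s i) D, Finset.sum_const, Finset.card_univ,
    Fintype.card_fin, clL_eq_nsmul h.rank]

theorem TRD.fixed {T : Tower p B} {n : ℕ} (hn : 0 < n) {μ : (OL (T.U n))[X]}
    (h : TRD π (T.U n) L ϖ s μ) {y : Λ} (hy : y ∈ L) : fr (kk Λ) p (T.r * n) (rs y) = rs y := by
  by_cases h1 : ‖y‖ ≤ 1
  · obtain ⟨c, hc, hc1, hd⟩ := h.res y hy h1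
    rw [(rs_eq_iff h1 hc1).2 hd]
    exact T.rs_fixed hn hc
  · rw [res_big h1, map_zero]

include p

theorem TRD.lt_gal (h : TRD π L₀ L ϖ s μ) (i : Fin e) : ‖s i ϖ‖ < 1 := by
  rw [Loc.norm_gal (p := p)]
  exact h.lt

theorem TRD.rs_gal (h : TRD π L₀ L ϖ s μ) {y : Λ} (hy : y ∈ L) (i : Fin e) : rs (s i y) = rs y := by
  by_cases h1 : ‖y‖ ≤ 1
  · obtain ⟨c, hc, hc1, hd⟩ := h.res y hy h1
    have h2 := (rs_eq_iff h1 hc1).2 hd
    rw [ZeroCyc.rs_gal (p := p) (s i) h2, h.fix i c hc, h2]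
  · rw [res_big h1, res_big (by rwa [Loc.norm_gal (p := p)])]

theorem TRD.zero (h : TRD π L₀ L ϖ s μ) : ‖((μ.eval 0 : OL L₀) : Λ)‖ = ‖π‖ :=
  (zqmu_zero (p := p) h.map).trans h.pow

theorem TRD.norm_pow (h : TRD π L₀ L ϖ s μ) {x : Λ} (hx : x ∈ L) (h0 : x ≠ 0) (h1 : ‖x‖ ≤ 1) :
    ∃ k : ℕ, ‖x‖ = ‖ϖ‖ ^ k := by
  obtain ⟨j, hj⟩ := exists_norm_eq_zpow h.mem h.ne h.lt h.unr hx h0
  have hj0 : 0 ≤ j := by
    rw [hj] at h1
    exact (zpow_le_one_iff_right_of_lt_one₀ (norm_pos_iff.2 h.ne) h.lt).1 h1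
  exact ⟨j.toNat, by rw [hj, ← zpow_natCast, Int.toNat_of_nonneg hj0]⟩

end Pool.Agent.ZeroCyc
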