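import Pool.Agent.Lib.MP_796ce4_ag.ZQ.MC
import Pool.Agent.Lib.MP_796ce4_ag.ZQ.MU
import Pool.Agent.Lib.MP_796ce4_ag.ZQ.QSig

/-! The functions that move a good point to transversal cycles. -/

namespace Pool.Agent.ZeroCyc

open Polynomial Module
open scoped Classical IntermediateField PowerSeries

set_option linter.unusedSectionVars false

variable {p : ℕ} {K Λ : Type} [Field K] [CharZero K] [NormedField Λ] [IsUltrametricDist Λ]
  [IsAlgClosed Λ] [Algebra K Λ] [IsGalois K Λ] [Loc p K Λ] [Fact p.Prime] [CharP (kk Λ) p]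

variable {N : ℕ} {J : Ideal (MvPolynomial (Fin (N + 1)) K)} {B L : IntermediateField K Λ}

theorem zqme1_mapC {R S : Type} [CommRing R] [CommRing S] (φ : R →+* S) (t y : S) (g : R[X]) :
    e2 φ t y (g.map C) = g.eval₂ φ y := by
  rw [e2_eq_eval, Polynomial.map_map, ← eval_map]
  congr 2
  ext x
  simp

theorem zqme1_lead {R : Type} [CommRing R] {b M e : ℕ} {u c : R[X]} {P Q : R[X][X]} (hu : u.Monic)
    (hM : WL b 0 M (P * Q)) (hc : c.natDegree ≤ e) (h : M + e ≤ u.natDegree) :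
    Lead b u.natDegree (C u - P * (C c * Q)) := by
  rw [sub_eq_add_neg, mul_left_comm]
  exact (lead_C hu).add ((hM.C_mul hc).neg.mono (by omega))

theorem zqme1_rs {t : Λ} (ht : ‖t‖ ≤ 1) (u : (OL L)[X]) :
    rs (u.eval₂ (OL L).subtype t) = (u.map (rL L)).eval (rs t) := by
  rw [rs_eval₂ chartb_le chartb_r ht, eval_map]

theorem zqme1_lt {t : Λ} (ht : ‖t‖ < 1) (u : (OL L)[X]) :
    ‖u.eval₂ (OL L).subtype t‖ = 1 ↔ (u.map (rL L)).eval 0 ≠ 0 := by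
  rw [← rs_ne_zero, zqme1_rs ht.le, (rs_eq_zero ht.le).2 ht]

namespace QChart

/-- a curve, a union of fibres, and a perturbation that keeps the points outside one disc -/
structure M2D (𝒞 : QChart J B) (hB : B ≤ L) (c : kk Λ) (lam : Fin 𝒞.d → (OL L)[X]) (e₀ : ℕ)
    {e' : ℕ} (τ : Fin e' → OL L) (u : (OL L)[X]) (A : (OL L)[X][X]) : Prop where
  deg : ∀ i, (lam i).natDegree ≤ e₀
  inj : Function.Injective τ
  lt : ∀ i, ‖(τ i : Λ)‖ < 1
  monic : u.Monic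
  root : ∀ i, u.eval (τ i) = 0
  lead : Lead (𝒞.red.b * e₀) u.natDegree (C u - cv (inc hB) lam 𝒞.ϑ * A)
  gz : 𝒞.GZ (lD lam) (C (u.map (rL L)))
  zero : (u.map (rL L)).rootMultiplicity 0 = e'
  simple : ∀ t, t ≠ 0 → (u.map (rL L)).rootMultiplicity t ≤ 1
  van : ∀ i η, On (𝒞.cL (lU lam)) (τ i, η) → rs η ≠ c → e2 (OL L).subtype (τ i) η A = 0

variable {𝒞 : QChart J B} {n e : ℕ} {ϖ h : Λ} {s : Fin e → Λ ≃ₐ[K] Λ} {y : Fin 𝒞.d → Λ}

/-- the roots outside a rational residue class -/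
theorem exists_cof (T : Tower p B) (hn : 0 < n) (hy : ∀ i, y i ∈ T.U n) (hy1 : ∀ i, ‖y i‖ ≤ 1)
    {c : kk Λ} (hc : fr (kk Λ) p (T.r * n) c = c) : ∃ f : (OL (T.U n))[X],
      (∀ η, ev2 (OL B).subtype y η 𝒞.χ = 0 → rs η ≠ c → f.eval₂ (OL _).subtype η = 0) ∧
      ∀ η, ‖η‖ ≤ 1 → rs η = c → ‖f.eval₂ (OL _).subtype η‖ = 1 := by
  set P := 𝒞.χ.map (MvPolynomial.eval₂Hom (OL B).subtype y) with hP
  have hm : P.Monic := 𝒞.monic.map _
  have ho : Over (T.U n) P := Chart.chartb_over (𝒞 := 𝒞.red) (T.le n) hy 𝒞.χ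
  set S := P.roots.toFinset.filter fun η => rs η ≠ c with hS
  have hmem : ∀ η, η ∈ S ↔ P.eval η = 0 ∧ rs η ≠ c := fun η => by
    rw [hS, Finset.mem_filter, Multiset.mem_toFinset, mem_roots hm.ne_zero, IsRoot.def]
  have hle : ∀ η ∈ S, ‖η‖ ≤ 1 := fun η hη =>
    root_le hy1 ((ev2_eq_eval _ _ _ _).trans ((hmem η).1 hη).1)
  obtain ⟨t, ht⟩ := T.exists_lift hn hc
  rw [rL_apply] at ht
  have hst : ∀ σ, Fix (T.U n) σ → ∀ η ∈ S, σ η ∈ S := fun σ hσ η hη => by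
    obtain ⟨h1, h2⟩ := (hmem η).1 hη
    refine (hmem _).2 ⟨by rw [← ho.apply_eval hσ, h1, map_zero], fun h3 => h2 ?_⟩
    have h4 := rs_gal σ⁻¹ (h3.trans ht.symm)
    rwa [hσ.inv _ t.2.1, ht, ← AlgEquiv.mul_apply, inv_mul_cancel, AlgEquiv.one_apply] at h4
  have hov : Over (T.U n) (∏ η ∈ S, (X - C η)) := fun k => mem_of_fixed fun σ hσ => by
    have h1 : (∏ η ∈ S, (X - C η)).map (σ : Λ →+* Λ) = ∏ η ∈ S, (X - C η) := by
      rw [Polynomial.map_prod]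
      refine Finset.prod_equiv σ.toEquiv (fun η => ⟨hst σ hσ η, fun h1 => ?_⟩) fun η _ => by simp
      have h2 := hst σ⁻¹ hσ.inv _ h1
      rwa [show σ⁻¹ (σ.toEquiv η) = η from σ.symm_apply_apply η] at h2
    have h2 := congrArg (coeff · k) h1
    simpa only [coeff_map, RingHom.coe_coe] using h2
  obtain ⟨f, hf, -, -⟩ := exists_OL_poly hov
    (Intg.prod fun η hη => intg_X.sub (intg_C (hle η hη)))
  refine ⟨f, fun η h1 h2 => ?_, fun η h1 h2 => ?_⟩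
  · rw [← eval_map, hf, eval_prod]
    exact Finset.prod_eq_zero ((hmem η).2 ⟨(ev2_eq_eval _ _ _ _).symm.trans h1, h2⟩) (by simp)
  · rw [← eval_map, hf, eval_prod, norm_prod]
    refine Finset.prod_eq_one fun η' hη => ?_
    rw [eval_sub, eval_X, eval_C, ← rs_ne_zero, rs_sub h1 (hle η' hη), h2]
    exact sub_ne_zero.2 ((hmem η').1 hη).2.symm

theorem exists_m2d (T : Tower p B) (hn : 0 < n) [FiniteDimensional K L] {μ : (OL (T.U n))[X]}
    (hT : TRD (𝒞.π : Λ) (T.U n) L ϖ s μ) (hg : 𝒞.GdL L y h) :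
    ∃ (lam : Fin 𝒞.d → (OL (T.U n))[X]) (e₀ e' : ℕ) (τ : Fin e' → OL (T.U n))
      (u : (OL (T.U n))[X]) (A : (OL (T.U n))[X][X]), 𝒞.M2D (T.le n) (rs h) lam e₀ τ u A ∧
      (∀ i, (lam i).eval₂ (OL _).subtype ϖ = y i) ∧ 𝒞.mu (fun i => rs (y i)) (rs h) * e' = e ∧
      e2 (OL _).subtype ϖ h (C u - cv (inc (T.le n)) lam 𝒞.ϑ * A) = 0 := by
  have hB : B ≤ L := (T.le n).trans hT.le
  choose lam hl1 hl2 using fun i => hT.poly (y i) (hg.y_mem i) (hg.gd.y_le i)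
  have hϖ : 0 < ‖ϖ‖ := norm_pos_iff.2 hT.ne
  have hπ : 0 < ‖(𝒞.π : Λ)‖ := norm_pos_iff.2 𝒞.π_ne
  have v1 : ev2 (OL B).subtype y h 𝒞.ϑ ∈ L := by
    rw [ev2_eq_eval]
    exact (Chart.chartb_over (𝒞 := 𝒞.red) hB hg.y_mem 𝒞.ϑ).eval hg.h_mem
  have v2 := hg.gd.norm_ϑ T
  have v3 : ev2 (OL B).subtype y h 𝒞.ϑ ≠ 0 := fun e1 => by
    rw [e1, norm_zero, zero_pow (mu_pos hg.gd.gk).ne'] at v2
    exact hπ.ne v2
  obtain ⟨e', v4⟩ := hT.norm_pow v1 v3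
    (Chart.chartb_ev (𝒞 := 𝒞.red) hg.gd.y_le hg.gd.h_le 𝒞.ϑ).1
  have v5 : 𝒞.mu (fun i => rs (y i)) (rs h) * e' = e := by
    rw [v4, ← pow_mul, ← hT.pow, mul_comm] at v2
    exact pow_right_injective₀ hϖ hT.lt.ne v2
  obtain ⟨τ, hτ⟩ : ∃ τ : Fin e' → OL (T.U n), ∀ i, ‖(τ i : Λ)‖ = ‖(𝒞.π : Λ)‖ ^ ((i : ℕ) + 2) :=
    ⟨fun i => inc (T.le n) 𝒞.π ^ ((i : ℕ) + 2), fun i => by
      rw [SubmonoidClass.coe_pow, norm_pow]; rfl⟩
  have t1 : ∀ i, ‖(τ i : Λ)‖ < ‖ϖ‖ := fun i => by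
    rw [hτ]
    refine (pow_lt_self_of_lt_one₀ hπ 𝒞.π_lt (by omega)).trans_le ?_
    rw [← hT.pow]
    exact pow_le_of_le_one hϖ.le hT.lt.le hT.pos.ne'
  have t2 : ∀ i, ‖(τ i : Λ)‖ < 1 := fun i => (t1 i).trans hT.lt
  have m1 : (∏ i, (X - C (τ i))).Monic := monic_prod_of_monic _ _ fun i _ => monic_X_sub_C _
  have m2 : (∏ i, (X - C (τ i))).map (rL _) = X ^ e' := by
    rw [Polynomial.map_prod, Finset.prod_congr rfl fun i _ => (show (X - C (τ i)).map (rL _) = X by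
      rw [Polynomial.map_sub, map_X, map_C, rL_apply, (rs_eq_zero (t2 i).le).2 (t2 i), C_0,
        sub_zero]), Finset.prod_const, Finset.card_fin]
  have m3 : ‖(∏ i, (X - C (τ i))).eval₂ (OL _).subtype ϖ‖ = ‖ϖ‖ ^ e' := by
    rw [eval₂_finsetProd, norm_prod, Finset.prod_congr rfl fun i _ =>
      (show ‖(X - C (τ i)).eval₂ (OL _).subtype ϖ‖ = ‖ϖ‖ by
        rw [eval₂_sub, eval₂_X, eval₂_C]
        exact norm_eq_of_sub_lt (by simpa using t1 i)), Finset.prod_const, Finset.card_fin]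
  choose f f1 f2 using fun i => exists_cof (𝒞 := 𝒞) T hn
    (y := fun j => (lU lam j).eval (τ i : Λ)) (fun j => (over_map (lam j)).eval (τ i).2.1)
    (norm_lU lam (t2 i).le) (hT.fixed hn hg.h_mem)
  have f3 : ‖(∏ i, f i).eval₂ (OL _).subtype h‖ = 1 := by
    rw [eval₂_finsetProd, norm_prod]
    exact Finset.prod_eq_one fun i _ => f2 i h hg.gd.h_le rfl
  have m4 : ∀ i, (∏ i, (X - C (τ i))).eval (τ i) = 0 := fun i => by
    rw [eval_prod, Finset.prod_eq_zero (Finset.mem_univ i) (by simp)]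
  have f5 : ∀ i η, On (𝒞.cL (lU lam)) (τ i, η) → rs η ≠ rs h →
      (∏ i, f i).eval₂ (OL _).subtype η = 0 := fun i η h1 h2 => by
    rw [eval₂_finsetProd]
    exact Finset.prod_eq_zero (Finset.mem_univ i)
      (f1 i η ((on_cL (Q := ((τ i : Λ), η))).1 h1) h2)
  generalize ∏ i, (X - C (τ i)) = μ₀ at m1 m2 m3 m4
  generalize ∏ i, f i = F at f3 f5
  obtain ⟨M, hM⟩ := exists_WL (𝒞.red.b * e) 0 (cv (inc (T.le n)) lam 𝒞.ϑ * F.map C)
  have r1 : ((𝒞.red.rho (inc (T.le n)) lam).map (rL _)).eval 0 ≠ 0 := by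
    rw [← zqme1_lt hT.lt, Chart.eval₂_rho, subtype_inc, funext hl2]
    exact hg.gd.unit
  obtain ⟨u, u1, u2, u3⟩ := T.exists_sep hn (ρ := 𝒞.red.rho (inc (T.le n)) lam * X) (by
    rw [Polynomial.map_mul, map_X]
    exact mul_ne_zero (fun e1 => r1 (by rw [e1, eval_zero])) X_ne_zero) (M + e)
  have u4 : ∀ t : Λ, ‖t‖ < 1 → ‖u.eval₂ (OL _).subtype t‖ = 1 := fun t ht => by
    refine (norm_eval₂_le chartb_le ht.le u).eq_of_not_lt fun h1 => ?_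
    have h2 := (u3 t ht.le h1).1
    rw [eval₂_mul, eval₂_X, mul_comm] at h2
    exact (tow_mul_lt ht (norm_eval₂_le chartb_le ht.le _)).ne h2
  have u5 : (u.map (rL _)).eval 0 ≠ 0 := (zqme1_lt hT.lt u).1 (u4 ϖ hT.lt)
  have u6 : (X ^ e' * u.map (rL _) : (kk Λ)[X]) ≠ 0 :=
    mul_ne_zero (pow_ne_zero _ X_ne_zero) (u1.map _).ne_zero
  have hU : ∀ x : OL (T.U n), (OL _).subtype x ∈ L := fun x => hT.le x.2.1
  have f4 : F.eval₂ (OL _).subtype h ≠ 0 := norm_pos_iff.1 (f3 ▸ one_pos)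
  obtain ⟨c', c1, c2⟩ := hT.poly ((μ₀ * u).eval₂ (OL _).subtype ϖ /
      (ev2 (OL B).subtype y h 𝒞.ϑ * F.eval₂ (OL _).subtype h))
    (div_mem (eval₂_mem hU hT.mem _) (mul_mem v1 (eval₂_mem hU hg.h_mem _))) (by
      rw [norm_div, eval₂_mul, norm_mul, norm_mul, m3, u4 ϖ hT.lt, v4, f3,
        div_self (by positivity)])
  refine ⟨lam, e, e', τ, μ₀ * u, C c' * F.map C,
    ⟨hl1, fun i j hij => ?_, t2, m1.mul u1, fun i => ?_, ?_, gz_C (T.le n) fun t h1 h2 => ?_, ?_,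
      fun t ht => ?_, fun i η h1 h2 => ?_⟩, hl2, v5, ?_⟩
  · have h1 := hτ i
    rw [hij, hτ j] at h1
    have h2 := pow_right_injective₀ hπ 𝒞.π_lt.ne h1
    exact Fin.ext (by omega)
  · rw [eval_mul, m4, zero_mul]
  · refine zqme1_lead (m1.mul u1) hM c1 ?_
    rw [m1.natDegree_mul u1]
    omega
  · rcases h1.lt_or_eq with h3 | h3
    · exact (zqme1_lt h3 _).2 r1
    · rw [eval₂_mul, norm_mul, (chartb_dist' m1 m2).norm_eval h3, one_mul] at h2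
      have h4 := (u3 t h1 h2).1
      rwa [eval₂_mul, eval₂_X, norm_mul, h3, mul_one] at h4
  · rw [Polynomial.map_mul, m2, rootMultiplicity_mul u6, rootMultiplicity_eq_zero (p := u.map _) u5,
      add_zero, ← sub_zero X, ← C_0, rootMultiplicity_X_sub_C_pow]
  · rw [Polynomial.map_mul, m2, rootMultiplicity_mul u6, rootMultiplicity_eq_zero (p := X ^ e')
      (by simpa using fun h1 => absurd h1 ht), zero_add]
    by_contra hlt
    obtain ⟨h1, h2⟩ := (one_lt_rootMultiplicity_iff_isRoot (u1.map _).ne_zero).1 (not_le.1 hlt)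
    obtain ⟨x, x1, rfl⟩ := rs_surj t
    rw [IsRoot.def, ← zqme1_rs x1, rs_eq_zero (norm_eval₂_le chartb_le x1 _)] at h1
    rw [IsRoot.def, derivative_map, ← zqme1_rs x1] at h2
    exact rs_ne_zero.2 (u3 x x1 h1).2 h2
  · rw [map_mul, zqme1_mapC, f5 i η h1 h2, mul_zero]
  · rw [map_sub, e2_C, map_mul, map_mul, e2_C, zqme1_mapC, e2_cv, subtype_inc, funext hl2, c2,
      mul_left_comm, div_mul_cancel₀ _ (mul_ne_zero v3 f4), sub_self]

end QChart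

end Pool.Agent.ZeroCyc
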