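import Pool.Agent.Lib.MP_796ce4_ag.ZQ.ME

/-! Good points modulo `Vu`; reduction of divisors. -/

namespace Pool.Agent.ZeroCyc

open Polynomial Module
open scoped Classical IntermediateField PowerSeries

set_option linter.unusedSectionVars false

variable {p : ℕ} {K Λ : Type} [Field K] [CharZero K] [NormedField Λ] [IsUltrametricDist Λ]
  [IsAlgClosed Λ] [Algebra K Λ] [IsGalois K Λ] [Loc p K Λ] [Fact p.Prime] [CharP (kk Λ) p]

variable {N : ℕ} {J : Ideal (MvPolynomial (Fin (N + 1)) K)} {B L : IntermediateField K Λ}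

namespace QChart

variable {𝒞 : QChart J B} {y y' : Fin 𝒞.d → Λ} {h h' : Λ} {ℓ : VV Λ J →+ ℚ} {n : ℕ}

theorem zqmg_U (T : Tower p B) [FiniteDimensional K L] (hB : B ≤ L) : T.U 1 ≤ L := by
  have : FiniteDimensional K B := FiniteDimensional.of_injective
    (IntermediateField.inclusion hB).toLinearMap (IntermediateField.inclusion_injective hB)
  rw [T.U_one]
  exact hB

theorem ML2 (T : Tower p B) (hn : 0 < n) [FiniteDimensional K L] (hL : T.U n ≤ L)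
    (hg : 𝒞.GdL L y h) : ∃ j : ℕ, clL J L (Finsupp.single (𝒞.io y h) 1) -
      j • clL J (T.U n) (𝒞.Lq p (fun i => rs (y i)) (rs h)) ∈ 𝒞.Vu T := by
  obtain ⟨n', hn', ⟨c, rfl⟩, e, ϖ, s, μ, hT⟩ :=
    T.exists_trd 𝒞.π.2.1 𝒞.π_ne 𝒞.π_lt 𝒞.π_max hn hL
  obtain ⟨j, hj⟩ := ml2_main hn' hT hg
  rw [T.clL_mul hn (Nat.pos_of_mul_pos_left hn'), smul_smul] at hj
  exact ⟨_, hj⟩

theorem ML2_UU (T : Tower p B) [FiniteDimensional K L] (hB : B ≤ L) (hg : 𝒞.GdL L y h) :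
    clL J L (Finsupp.single (𝒞.io y h) 1) ∈ 𝒞.UU T := by
  obtain ⟨n', hn', -, e, ϖ, s, μ, hT⟩ :=
    T.exists_trd 𝒞.π.2.1 𝒞.π_ne 𝒞.π_lt 𝒞.π_max one_pos (zqmg_U T hB)
  obtain ⟨j, hj⟩ := ml2_main hn' hT hg
  have h2 := TL_le_UU hn' (Lq_mem_TL hn' hg.gd.gk (fun i => hT.fixed hn' (hg.y_mem i))
    (hT.fixed hn' hg.h_mem))
  have h3 := add_mem (Vu_le_UU hj) (nsmul_mem h2 j)
  rwa [sub_add_cancel] at h3

/-- the degree determines the multiple -/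
theorem eq_of_mem_Vu (T : Tower p B) (hn : 0 < n) {a : Fin 𝒞.d → kk Λ} {c : kk Λ}
    (hk : 𝒞.red.Gk a c) {x : VV Λ J} {j : ℤ} (h : x - j • clL J (T.U n) (𝒞.Lq p a c) ∈ 𝒞.Vu T)
    {k : ℤ} (hx : x.2 = finrank K (T.U n) * (𝒞.mu a c * k)) : j = k := by
  have := T.fin n hn
  have h1 : (x - j • clL J (T.U n) (𝒞.Lq p a c)).2 = 0 := (Vu_le_Azero h).2
  rw [Prod.snd_sub, Prod.smul_snd, clL_snd, degree_Lq hk T, hx, zsmul_eq_mul,
    Int.cast_natCast] at h1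
  have h2 : (finrank K (T.U n) : ℚ) ≠ 0 := Nat.cast_ne_zero.2 finrank_pos.ne'
  have h3 : (𝒞.mu a c : ℚ) ≠ 0 := Nat.cast_ne_zero.2 (mu_pos hk).ne'
  have h4 : (j : ℚ) = k := mul_left_cancel₀ (mul_ne_zero h2 h3) (by linear_combination -h1)
  exact Int.cast_injective h4

theorem Sm_le_Vu (T : Tower p B) : 𝒞.Sm 1 ≤ 𝒞.Vu T := by
  refine (AddSubgroup.closure_le _).2 ?_
  rintro _ ⟨L, y, y', h, h', hf, hB, hg, hg', hy, hh, rfl⟩
  obtain ⟨j, hj⟩ := ML2 T one_pos (zqmg_U T hB) hg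
  obtain ⟨j', hj'⟩ := ML2 T one_pos (zqmg_U T hB) hg'
  rw [funext fun i => (chartb_near (hg.gd.y_le i) (hy i)).2,
    (chartb_near hg.gd.h_le hh).2] at hj'
  have h2 : clL J L (Finsupp.single (𝒞.io y' h') 1 - Finsupp.single (𝒞.io y h) 1) -
      ((j' : ℤ) - j) • clL J (T.U 1) (𝒞.Lq p (fun i => rs (y i)) (rs h)) ∈ 𝒞.Vu T := by
    rw [map_sub, sub_smul, natCast_zsmul, natCast_zsmul, sub_sub_sub_comm]
    exact sub_mem hj' hj
  have h3 := eq_of_mem_Vu T one_pos hg.gd.gk h2 (k := 0) (by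
    rw [clL_snd, map_sub, Finsupp.degree_single, Finsupp.degree_single, sub_self, Int.cast_zero,
      mul_zero, mul_zero, mul_zero])
  rwa [h3, zero_zsmul, sub_zero] at h2

theorem psi_eq (T : Tower p B) (hℓ : ∀ x ∈ 𝒞.Vu T, ℓ x = 0) (hg : 𝒞.Gd y h) (hg' : 𝒞.Gd y' h')
    (hy : ∀ i, ‖y' i - y i‖ < 1) (hh : ‖h' - h‖ < 1) :
    psi J ℓ (𝒞.io y' h') = psi J ℓ (𝒞.io y h) := by
  have := T.fin 1 one_pos
  obtain ⟨L, hL, hf, hm⟩ := exists_fin (T.U 1)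
    (insert h (insert h' (Finset.univ.image y ∪ Finset.univ.image y')))
  have h2 := Psi_eq_zero (hℓ _ (Sm_le_Vu T (AddSubgroup.subset_closure ⟨L, y, y', h, h', hf,
    (T.le 1).trans hL, ⟨hg, fun i => hm _ (by simp), hm _ (by simp)⟩,
    ⟨hg', fun i => hm _ (by simp), hm _ (by simp)⟩, hy, hh, rfl⟩)))
  rw [map_sub, Psi_single, Psi_single, Int.cast_one, one_mul, one_mul] at h2
  exact sub_eq_zero.1 h2

theorem cst_of (T : Tower p B) (hℓ : ∀ x ∈ 𝒞.Vu T, ℓ x = 0) : 𝒞.Cst ℓ :=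
  fun _ _ _ _ hg hg' hy hh => psi_eq T hℓ hg hg' hy hh

/-- an invariant divisor in a rational disc -/
theorem ML3 (T : Tower p B) (hn : 0 < n) {lam : Fin 𝒞.d → Λ[X]} (hl : ∀ i, Over (T.U n) (lam i))
    {D : Λ × Λ →₀ ℤ} (hD : ∀ σ, Fix (T.U n) σ → psh (pm σ) D = D) {a : Fin 𝒞.d → kk Λ} {c : kk Λ}
    (hk : 𝒞.red.Gk a c) (hg : ∀ Q, D Q ≠ 0 → 𝒞.Gd (fun i => (lam i).eval Q.1) Q.2 ∧
      (fun i => rs ((lam i).eval Q.1)) = a ∧ rs Q.2 = c) {k : ℤ} (hd : D.degree = 𝒞.mu a c * k) :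
    clL J (T.U n) (𝒞.Pf lam D - k • 𝒞.Lq p a c) ∈ 𝒞.Vu T := by
  have := T.fin n hn
  have h1 := Pf_mem (p := p) (T.le n) hl hD
    (H := 𝒞.Vu T ⊔ AddSubgroup.zmultiples (clL J (T.U n) (𝒞.Lq p a c)))
    fun Q hQ L' hL hf m1 m2 => by
      obtain ⟨g1, g2, g3⟩ := hg Q hQ
      obtain ⟨j, hj⟩ := ML2 T hn hL ⟨g1, fun i => ((hl i).mono hL).eval m1, m2⟩
      rw [g2, g3] at hj
      have h2 := AddSubgroup.add_mem_sup hj
        (nsmul_mem (AddSubgroup.mem_zmultiples (clL J (T.U n) (𝒞.Lq p a c))) j)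
      rwa [sub_add_cancel] at h2
  obtain ⟨v, hv, _, ⟨j, rfl⟩, e⟩ := AddSubgroup.mem_sup.1 h1
  have h2 : clL J (T.U n) (𝒞.Pf lam D) - j • clL J (T.U n) (𝒞.Lq p a c) ∈ 𝒞.Vu T := by
    rwa [← e, add_sub_cancel_right]
  have h3 := eq_of_mem_Vu T hn hk h2 (k := k) (by
    rw [clL_snd, Pf, degree_psh, hd, Int.cast_mul, Int.cast_natCast])
  rwa [map_sub, map_zsmul, ← h3]

/-- a divisor and the lift of its reduction -/
theorem RED (T : Tower p B) (hn : 0 < n) {lam : Fin 𝒞.d → (OL (T.U n))[X]} {e m : ℕ}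
    (he : ∀ i, (lam i).natDegree ≤ e) {G : (OL (T.U n))[X][X]} (hG : Lead (𝒞.red.b * e) m G)
    (hz : 𝒞.GZ (lD lam) (mp (rL _) G)) :
    clL J (T.U n) (𝒞.Pf (lU lam) (dv (𝒞.cL (lU lam)) (mp (OL _).subtype G)) -
      𝒞.Lf p (lD lam) (dv (𝒞.cK (lD lam)) (mp (rL _) G))) ∈ 𝒞.Vu T := by
  have hB := T.le n
  have hW := 𝒞.red.wt_crv (rL B) (lD_deg he)
  have hG' := hG.map (rL (T.U n))
  have hE : ∀ z, dv (𝒞.cK (lD lam)) (mp (rL _) G) z ≠ 0 →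
      𝒞.red.Gk (fun i => (lD lam i).eval z.1) z.2 := fun z h0 => by
    obtain ⟨a1, a2⟩ := (hG'.dv_ne_zero hW).1 h0
    exact gk_iff.2 ⟨a1.1, hz z a1.1 a2⟩
  refine disc_mem hn (hz.inv (p := p) hB he hG (T.fix_U n hn)) ?_ hE fun z c hc hf => ?_
  · have h1 := (hG'.dv_map hW (fun Q h0 h1 => et_cK h0 (hz Q h0 h1)) (fr (kk Λ) p (T.r * n))).1
    have h2 := fun i => T.fr_lD hn lam 1 i
    rw [mul_one] at h2
    rw [(Chart.crv_inv T n (lD_deg he) h2).2, mp_mp, T.fr_rL hn] at h1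
    exact h1.symm
  have hnc := Nat.mul_pos hn hc
  have hU : T.U n ≤ T.U (n * c) := T.mono hn hnc (dvd_mul_right n c)
  have h1 := CNT hB he hG hz z
  by_cases h0 : dv (𝒞.cK (lD lam)) (mp (rL _) G) z = 0
  · rw [h0, mul_zero] at h1
    rw [dsc_eq_zero (dv_nonneg _ _) h1, h0, zero_smul, map_zero, sub_zero, map_zero]
    exact zero_mem _
  refine ML3 T hnc (fun i => (over_map _).mono hU)
    (fun σ hσ => T.dsc_inv hnc hf hσ (hz.inv (p := p) hB he hG (hσ.mono hU))) (hE z h0)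
    (fun Q hQ => ?_) ((degree_dsc _ _).trans h1)
  rw [dsc_apply] at hQ
  by_cases hq : pm rs Q = z
  · rw [if_pos hq] at hQ
    obtain ⟨a1, a2⟩ := ((hG.map (OL _).subtype).dv_ne_zero
      (𝒞.wt_crv (OL B).subtype (lU_deg he))).1 hQ
    subst hq
    exact ⟨hz.gd hB he hG a1.1 a2, (eval_lD lam (zero_rs hB he hG a1.1 a2).1).symm, rfl⟩
  · exact absurd (if_neg hq) hQ

end QChart

end Pool.Agent.ZeroCyc
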