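import Pool.Agent.Lib.MP_796ce4_ag.ZQ.MG
import Pool.Agent.Lib.MP_796ce4_ag.ZY.LR

/-! Lifting relations from the reduced special fibre. -/

namespace Pool.Agent.ZeroCyc

open Polynomial Module
open scoped Classical IntermediateField PowerSeries

set_option linter.unusedSectionVars false

variable {p : ℕ} {K Λ : Type} [Field K] [CharZero K] [NormedField Λ] [IsUltrametricDist Λ]
  [IsAlgClosed Λ] [Algebra K Λ] [IsGalois K Λ] [Loc p K Λ] [Fact p.Prime] [CharP (kk Λ) p]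

variable {N : ℕ} {J : Ideal (MvPolynomial (Fin (N + 1)) K)} {B : IntermediateField K Λ}

namespace QChart

variable {𝒞 : QChart J B} {T : Tower p B} {n e : ℕ} {lam : Fin 𝒞.d → (kk Λ)[X]}

theorem LR0 (hn : 0 < n) (he : ∀ i, (lam i).natDegree ≤ e)
    (hl : ∀ i, (lam i).map (fr (kk Λ) p (T.r * n)) = lam i) {m : ℕ} {G G' : (kk Λ)[X][X]}
    (hG : Lead (𝒞.red.b * e) m G) (hG' : Lead (𝒞.red.b * e) m G')
    (fG : mp (fr (kk Λ) p (T.r * n)) G = G) (fG' : mp (fr (kk Λ) p (T.r * n)) G' = G')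
    (hz : 𝒞.GZ lam G) (hz' : 𝒞.GZ lam G') :
    clL J (T.U n) (𝒞.Lf p lam (dv (𝒞.cK lam) G - dv (𝒞.cK lam) G')) ∈ 𝒞.Vu T := by
  choose l hl1 hl2 using fun i => T.exists_lift_poly hn (hl i)
  obtain ⟨A, rfl, hA⟩ := T.exists_lift_lead hn hG fG
  obtain ⟨A', rfl, hA'⟩ := T.exists_lift_lead hn hG' fG'
  have he' : ∀ i, (l i).natDegree ≤ e := fun i => (hl2 i).le.trans (he i)
  obtain rfl : lam = lD l := funext fun i => (hl1 i).symm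
  have r1 := RED (𝒞 := 𝒞) T hn he' hA hz
  have r2 := RED (𝒞 := 𝒞) T hn he' hA' hz'
  have := T.fin n hn
  have key := MRg (p := p) (𝒞 := 𝒞) (T.le n) he' hA hA' hz hz'
  have hs := sub_mem r2 r1
  rw [map_sub, map_sub, key, sub_sub_sub_cancel_left] at hs
  rw [map_sub, map_sub]
  exact hs

theorem LR (hn : 0 < n) (he : ∀ i, (lam i).natDegree ≤ e)
    (hl : ∀ i, (lam i).map (fr (kk Λ) p (T.r * n)) = lam i) {χ₁ χ₂ : (kk Λ)[X][X]}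
    (h : (𝒞.red.crv (rL B) lam e he).χ = χ₁ * χ₂) (h₁ : χ₁.Monic) (h₂ : χ₂.Monic)
    (f₁ : mp (fr (kk Λ) p (T.r * n)) χ₁ = χ₁) (f₂ : mp (fr (kk Λ) p (T.r * n)) χ₂ = χ₂)
    {D : kk Λ × kk Λ →₀ ℤ} (hD : D ∈ ((𝒞.red.crv (rL B) lam e he).factor χ₁ χ₂ h h₁ h₂).PP)
    (hF : psh (pm (fr (kk Λ) p (T.r * n))) D = D) :
    clL J (T.U n) (𝒞.Lf p lam D) ∈ 𝒞.Vu T := by
  obtain ⟨hI, hI'⟩ := Chart.crv_inv T n he hl
  have hI₁ : ((𝒞.red.crv (rL B) lam e he).factor χ₁ χ₂ h h₁ h₂).Inv (fr (kk Λ) p (T.r * n)) :=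
    ⟨f₁, hI.ρ⟩
  obtain ⟨u, a, hw, fu, fa, rfl⟩ := Cv.exists_inv_wit hI₁
    ((algP_kk K).per (Nat.mul_pos T.r_pos hn)) hD hF
  obtain ⟨hL, hz, hd⟩ := lr_factor _ h h₁ h₂ hw.monic hw.cop hw.wl
  have fC : mp (fr (kk Λ) p (T.r * n)) (C u) = C u := by rw [mp_C, fu]
  have fβ : mp (fr (kk Λ) p (T.r * n)) (𝒞.red.crv (rL B) lam e he).β = (𝒞.red.crv (rL B) lam e he).β :=
    hI' 𝒞.red.β₀
  have key := LR0 (T := T) hn he hl hL (lead_C hw.monic)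
    (by rw [map_add, map_mul, map_mul, map_mul, mp_derivative, fC, fβ, f₁, f₂, fa]) fC
    (fun Q h0 h1 => hz Q h0 (Or.inl h1)) fun Q h0 h1 => hz Q h0 (Or.inr h1)
  exact hd ▸ key

/-- the lift of a rational good point of a component -/
theorem zqmh_closure (hn : 0 < n) (he : ∀ i, (lam i).natDegree ≤ e)
    (hl : ∀ i, (lam i).map (fr (kk Λ) p (T.r * n)) = lam i) {χ₁ χ₂ : (kk Λ)[X][X]}
    (h : (𝒞.red.crv (rL B) lam e he).χ = χ₁ * χ₂) (h₁ : χ₁.Monic) (h₂ : χ₂.Monic)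
    {D : kk Λ × kk Λ →₀ ℤ} (hD : D ∈ AddSubgroup.closure {D | ∃ Q,
      ((𝒞.red.crv (rL B) lam e he).factor χ₁ χ₂ h h₁ h₂).Gp Q ∧
        pm (fr (kk Λ) p (T.r * n)) Q = Q ∧ D = Finsupp.single Q 1}) :
    psh (pm (fr (kk Λ) p (T.r * n))) D = D ∧ clL J (T.U n) (𝒞.Lf p lam D) ∈ 𝒞.TL (T.U n) := by
  induction hD using AddSubgroup.closure_induction with
  | mem D hD =>
    obtain ⟨Q, hQ, hf, rfl⟩ := hD
    refine ⟨by rw [psh_single, hf], ?_⟩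
    have hg : (𝒞.red.crv (rL B) lam e he).Gp Q := by
      refine ⟨?_, hQ.2⟩
      have h0 : ee Q χ₁ = 0 := hQ.1
      unfold On
      rw [h, map_mul, h0, zero_mul]
    rw [Lf_single, one_smul]
    refine Lq_mem_TL hn (Chart.crv_gp.1 hg) (fun i => ?_) (congrArg Prod.snd hf)
    rw [← lr_eval_fr (hl i)]
    exact congrArg (fun t => (lam i).eval t) (congrArg Prod.fst hf)
  | zero => exact ⟨map_zero _, by rw [map_zero, map_zero]; exact zero_mem _⟩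
  | add x y _ _ hx hy =>
    exact ⟨by rw [map_add, hx.1, hy.1], by rw [map_add, map_add]; exact add_mem hx.2 hy.2⟩
  | neg x _ hx =>
    exact ⟨by rw [map_neg, hx.1], by rw [map_neg, map_neg]; exact neg_mem hx.2⟩

/-- the lift of the norm of a point -/
theorem zqmh_nrm (hn : 0 < n) (hl : ∀ i, (lam i).map (fr (kk Λ) p (T.r * n)) = lam i)
    {Q : kk Λ × kk Λ} (hk : 𝒞.red.Gk (fun i => (lam i).eval Q.1) Q.2) {j : ℕ} (hj : 0 < j) :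
    clL J (T.U n) (𝒞.Lf p lam (nrm (pm (fr (kk Λ) p (T.r * n))) j Q)) =
      clL J (T.U (n * j)) (𝒞.Lq p (fun i => (lam i).eval Q.1) Q.2) := by
  rw [T.clL_mul hn hj, nrm, map_sum, map_sum, ← Finset.card_range j, ← Finset.sum_const,
    Finset.card_range]
  refine Finset.sum_congr rfl fun i _ => ?_
  rw [pm_fr_iterate, Lf_single, one_smul, eq_comm, ← clL_gal (T.φ ^ (n * i)) (𝒞.Lq p _ _),
    ← Lq_fr hk T (n * i), ← mul_assoc, eq_comm]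
  congr 2
  funext s
  exact lr_eval_fr (lr_map_fr (hl s) i) Q.1

theorem FPR : ∃ β : ℕ → ℕ, ∀ a D, 0 < a → 0 < D → β D ≤ a →
    𝒞.TL (T.U (a * D)) ≤ (⨆ c ∈ Finset.Icc 1 𝒞.red.δ, 𝒞.TL (T.U (a * c))) ⊔ 𝒞.Vu T := by
  refine ⟨fun D => 4 * cst 𝒞.red.δ (𝒞.red.b * D) (𝒞.red.W * D) ^ 2 + 1, fun a D ha hD hβ => ?_⟩
  have haD := Nat.mul_pos ha hD
  refine TL_le haD le_sup_right fun a₀ c₀ hk ha₀ hc₀ => ?_
  obtain ⟨y, h, hg, hy, -, -⟩ := hk.exists_gdL T haD ha₀ hc₀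
  obtain ⟨ζ, -, hζ, hζ1, -, -, -, -, hR⟩ := T.exists_gen ha hD
  choose R hR1 hR2 using fun i => hR (y i) (hg.y_mem i) (hg.gd.y_le i)
  obtain ⟨lam, hlam⟩ : ∃ lam : Fin 𝒞.d → (kk Λ)[X], lam = fun i => (R i).map (rL _) := ⟨_, rfl⟩
  have he : ∀ i, (lam i).natDegree ≤ D := fun i => by
    rw [hlam]
    exact natDegree_map_le.trans (hR1 i).le
  have hl : ∀ i, (lam i).map (fr (kk Λ) p (T.r * a)) = lam i := fun i => by
    rw [hlam]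
    simp only [Polynomial.map_map, T.fr_rL ha]
  have hev : (fun i => (lam i).eval (rs ζ)) = a₀ := funext fun i => by
    rw [hlam, ← hy i, ← hR2 i, rs_eval₂ (fun x => x.2.2) rL_apply hζ1]
    exact eval_map _ _
  subst hev
  have hQ : (𝒞.red.crv (rL B) lam D he).Gp (rs ζ, c₀) := Chart.crv_gp.2 hk
  have hQD : pm (fr (kk Λ) p (T.r * (a * D))) (rs ζ, c₀) = (rs ζ, c₀) :=
    Prod.ext (T.rs_fixed haD hζ) hc₀
  obtain ⟨k, χ₁, χ₂, hk0, hkδ, ⟨D', hD'⟩, h, h₁, h₂, hi, f₁, f₂, hon⟩ :=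
    exists_component (𝒞.red.crv (rL B) lam D he).wt.monic (fr_bijective (T.r * a))
      (Chart.crv_inv T a he hl).1.χ hQ.et hD (by rw [fr_pow, mul_assoc]; exact hQD)
  rw [fr_pow, mul_assoc] at f₁ f₂
  rw [(𝒞.red.crv (rL B) lam D he).wt.deg] at hkδ
  have hak := Nat.mul_pos ha hk0
  have hD'0 : 0 < D' := Nat.pos_of_mul_pos_left (hD' ▸ hD)
  have hl' : ∀ i, (lam i).map (fr (kk Λ) p (T.r * (a * k))) = lam i := fun i => by
    rw [← mul_assoc]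
    exact lr_map_fr (hl i) k
  have hI : ((𝒞.red.crv (rL B) lam D he).factor χ₁ χ₂ h h₁ h₂).Inv (fr (kk Λ) p (T.r * (a * k))) :=
    ⟨f₁, (Chart.crv_inv T (a * k) he hl').1.ρ⟩
  have hρ : ((𝒞.red.crv (rL B) lam D he).factor χ₁ χ₂ h h₁ h₂).ρ ≠ 0 := fun h0 =>
    hQ.2 (by rw [show (𝒞.red.crv (rL B) lam D he).ρ = 0 from h0, eval_zero])
  have hq : 4 * ((𝒞.red.crv (rL B) lam D he).factor χ₁ χ₂ h h₁ h₂).c0 ^ 2 < p ^ (T.r * (a * k)) := by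
    have h1 : ((𝒞.red.crv (rL B) lam D he).factor χ₁ χ₂ h h₁ h₂).c0 ≤
        cst 𝒞.red.δ (𝒞.red.b * D) (𝒞.red.W * D) :=
      cst_mono ((𝒞.red.crv (rL B) lam D he).factor_wl h h₁ h₂).2 le_rfl le_rfl
    have h2 : a ≤ T.r * (a * k) :=
      (Nat.le_mul_of_pos_right a hk0).trans (Nat.le_mul_of_pos_left _ T.r_pos)
    have h3 : T.r * (a * k) < p ^ (T.r * (a * k)) :=
      Nat.lt_pow_self (Fact.out : p.Prime).one_lt
    have h4 := Nat.mul_le_mul_left 4 (Nat.pow_le_pow_left h1 2)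
    have h5 : 4 * cst 𝒞.red.δ (𝒞.red.b * D) (𝒞.red.W * D) ^ 2 + 1 ≤ a := hβ
    omega
  have hZ := nrm_mem (F := pm (fr (kk Λ) p (T.r * (a * k))))
    (S := {Q | ((𝒞.red.crv (rL B) lam D he).factor χ₁ χ₂ h h₁ h₂).Gp Q})
    (fun Q hQ => hI.gp (RingHom.injective _) hQ) (r := D') (y := (rs ζ, c₀)) ⟨hon, hQ.2⟩
    (by rw [pm_fr_iterate, mul_assoc, mul_assoc, ← hD']; exact hQD)
  obtain ⟨Z₁, hZ₁, Z₂, hZ₂, hZ'⟩ := AddSubgroup.mem_sup.1 (ff_gen hρ hi (algP_kk K)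
    (Nat.mul_pos T.r_pos hak) hI hq (Cv.mem_DvF.2 ⟨hZ.2.1, hZ.2.2.1⟩))
  obtain ⟨g₁, m₁⟩ := zqmh_closure hak he hl' h h₁ h₂ hZ₁
  have g₂ : psh (pm (fr (kk Λ) p (T.r * (a * k)))) Z₂ = Z₂ := by
    have e₁ := hZ.2.2.1
    rw [← hZ', map_add, g₁] at e₁
    exact add_left_cancel e₁
  have m₂ := LR hak he hl' h h₁ h₂ f₁ f₂ hZ₂ g₂
  have e₂ := zqmh_nrm (Q := (rs ζ, c₀)) hak hl' hk hD'0
  rw [mul_assoc, ← hD', ← hZ', map_add, map_add] at e₂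
  rw [← e₂]
  refine AddSubgroup.add_mem_sup ?_ m₂
  exact le_iSup₂ (f := fun c (_ : c ∈ Finset.Icc 1 𝒞.red.δ) => 𝒞.TL (T.U (a * c))) k
    (Finset.mem_Icc.2 ⟨hk0, hkδ⟩) m₁

theorem UU_fin (T : Tower p B) : FinMod (𝒞.UU T) (𝒞.Vu T) := by
  obtain ⟨β, hβ⟩ := FPR (𝒞 := 𝒞) (T := T)
  obtain ⟨M, hM⟩ := tower_lemma (fun n => 𝒞.TL (T.U n)) (𝒞.Vu T) 𝒞.red.δ β
    (fun n j hn hj x hx => TL_mul hn hj hx) hβ
  exact (FinMod.biSup (Finset.Icc 1 M) fun t ht => TL_fin (Finset.mem_Icc.1 ht).1).of_le_sup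
    (iSup₂_le fun m hm => TL_le_UU (Finset.mem_Icc.1 hm).1) (UU_le hM)

end QChart

end Pool.Agent.ZeroCyc
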