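import Pool.Agent.Lib.MP_796ce4_ag.ZQ.MB
import Pool.Agent.Lib.MP_796ce4_ag.ZY.ML1a

/-! A function on a plane curve with prescribed simple zeros in the open disc. -/

namespace Pool.Agent.ZeroCyc

open Polynomial Module
open scoped Classical IntermediateField PowerSeries

set_option linter.unusedSectionVars false

variable {K Λ : Type} [Field K] [NormedField Λ] [IsUltrametricDist Λ] [IsAlgClosed Λ] [Algebra K Λ]
  {L : IntermediateField K Λ}

theorem zqmi2_key {R : Type} [CommRing R] {χ : R[X][X]} {μ H ξ : R[X]} (h : χ.eval H = μ * ξ)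
    (ρ : R[X]) (j : ℕ) : ∃ E : R[X][X], (C (μ * X ^ j) + C ρ * (X - C H)) * E -
      C μ * (C (X ^ j) * E - C (ρ * ξ)) = χ * C ρ := by
  obtain ⟨E, hE⟩ : X - C H ∣ χ - C (χ.eval H) := X_sub_C_dvd_sub_C_eval
  refine ⟨E, ?_⟩
  rw [eq_add_of_sub_eq hE, h]
  simp only [map_mul]
  ring

theorem zqmi2_unit {ξ ρ : (OL L)[X]} (hξ : ‖((ξ.eval 0 : OL L) : Λ)‖ = 1) (E : (OL L)[X][X])
    {j : ℕ} (hj : 0 < j) {Q : Λ × Λ} (h1 : ‖Q.1‖ < 1) (h2 : ‖Q.2‖ ≤ 1)
    (h3 : ‖ρ.eval₂ (OL L).subtype Q.1‖ = 1) :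
    ee Q (mp (OL L).subtype (C (X ^ j) * E - C (ρ * ξ))) ≠ 0 := by
  have e4 : ξ.eval₂ (OL L).subtype 0 = ((ξ.eval 0 : OL L) : Λ) := by
    have := eval₂_at_apply (p := ξ) (OL L).subtype 0
    rw [map_zero] at this
    exact this
  have a1 : ‖ξ.eval₂ (OL L).subtype Q.1‖ = 1 :=
    ml1a_one (e4 ▸ hξ) (ml1a_ev_congr h1 (by simp) ξ)
  rw [ee_mp, map_sub, map_mul, e2_C, e2_C, eval₂_X_pow, eval₂_mul, sub_ne_zero]
  intro e
  have a2 := ml1a_mul_lt (x := Q.1 ^ j) (by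
    rw [norm_pow]
    exact pow_lt_one₀ (norm_nonneg _) h1 hj.ne') (ml1a_e2_le h1.le h2 E)
  rw [e, norm_mul, h3, a1, one_mul] at a2
  exact lt_irrefl _ a2

theorem ml1_fun {b δ : ℕ} {χ : (OL L)[X][X]} (hχ : Wt b δ χ) {μ H ξ ρ : (OL L)[X]} (hμ : Dist μ)
    (hs : (μ.map (OL L).subtype).Separable) (h : χ.eval H = μ * ξ)
    (hξ : ‖((ξ.eval 0 : OL L) : Λ)‖ = 1) (hρ : ρ.map (rL L) ≠ 0)
    (het : ∀ t, μ.eval₂ (OL L).subtype t = 0 →
      Et (mp (OL L).subtype χ) (t, H.eval₂ (OL L).subtype t)) :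
    ∃ m₀, ∀ m, m₀ ≤ m → ∃ G : (OL L)[X][X], Lead b m G ∧
      (∀ Q, On (mp (OL L).subtype χ) Q → ee Q (mp (OL L).subtype G) = 0 →
        (‖Q.1‖ = 1 ∧ ‖ρ.eval₂ (OL L).subtype Q.1‖ = 1) ∨
          (μ.eval₂ (OL L).subtype Q.1 = 0 ∧ Q.2 = H.eval₂ (OL L).subtype Q.1)) ∧
      dv (mp (OL L).subtype χ) (mp (OL L).subtype G) =
        (dv (mp (OL L).subtype χ) (mp (OL L).subtype G)).filter (fun Q => ‖Q.1‖ = 1) +
          ∑ t ∈ (μ.map (OL L).subtype).roots.toFinset,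
            Finsupp.single (t, H.eval₂ (OL L).subtype t) 1 := by
  obtain ⟨ρ₀, r1, r2⟩ := ml1a_rho hρ
  obtain ⟨M, hM⟩ := exists_WL b 0 (C ρ₀ * (X - C H))
  refine ⟨μ.natDegree + (M + 1), fun m hm => ?_⟩
  obtain ⟨j, rfl⟩ := Nat.exists_eq_add_of_le (le_of_add_le_left hm)
  have hj : 0 < j := by omega
  obtain ⟨E, key⟩ := zqmi2_key h ρ₀ j
  have hG : Lead b (μ.natDegree + j) (C (μ * X ^ j) + C ρ₀ * (X - C H)) := by
    have h1 := lead_C (b := b) (hμ.monic.mul (monic_X_pow j))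
    rw [hμ.monic.natDegree_mul (monic_X_pow _), natDegree_X_pow] at h1
    exact h1.add (hM.mono (by omega))
  have ev : ∀ Q : Λ × Λ, ee Q (mp (OL L).subtype (C (μ * X ^ j) + C ρ₀ * (X - C H))) =
      μ.eval₂ (OL L).subtype Q.1 * Q.1 ^ j +
        ρ₀.eval₂ (OL L).subtype Q.1 * (Q.2 - H.eval₂ (OL L).subtype Q.1) := fun Q => by
    rw [ee_mp]
    simp only [map_add, map_mul, map_sub, map_pow, e2_C, e2_X, eval₂_X]
  have hU := fun (Q : Λ × Λ) h1 h2 => zqmi2_unit hξ E hj (Q := Q) h1 h2 (r1 _ h1)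
  generalize C (μ * X ^ j) + C ρ₀ * (X - C H) = G at key hG ev
  generalize C (X ^ j) * E - C (ρ₀ * ξ) = U at key hU
  have hG1 := hG.map (OL L).subtype
  have hw := hχ.map (OL L).subtype
  replace key := congrArg (mp (OL L).subtype) key
  rw [map_sub, map_mul, map_mul, map_mul, mp_C] at key
  have zG : ∀ Q, On (mp (OL L).subtype χ) Q → ee Q (mp (OL L).subtype G) = 0 →
      (‖Q.1‖ = 1 ∧ ‖ρ.eval₂ (OL L).subtype Q.1‖ = 1) ∨
        (μ.eval₂ (OL L).subtype Q.1 = 0 ∧ Q.2 = H.eval₂ (OL L).subtype Q.1) := by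
    intro Q q0 q1
    obtain ⟨q2, q3, -⟩ := zeros_le hχ hG q0 q1
    rcases q2.eq_or_lt with q5 | q5
    · refine Or.inl ⟨q5, r2 _ q5 ?_⟩
      rw [ev, add_eq_zero_iff_eq_neg] at q1
      have q4 := congrArg norm q1
      rw [norm_neg, norm_mul, norm_pow, hμ.norm_eval q5, q5, one_pow, one_mul] at q4
      refine (ml1a_ev_le q2 _).eq_or_lt.resolve_right fun q6 => ?_
      exact (ml1a_mul_lt q6 (ml1a_sub_le q3 (ml1a_ev_le q2 H))).ne' q4
    · have q4 := congrArg (ee Q) key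
      rw [map_sub, map_mul, map_mul, map_mul, q1, q0, zero_mul, zero_mul, zero_sub, neg_eq_zero,
        ← mp_C, ee_mp, e2_C] at q4
      have q6 := (mul_eq_zero.1 q4).resolve_right (hU Q q5 q3)
      rw [ev, q6, zero_mul, zero_add] at q1
      exact Or.inr ⟨q6, sub_eq_zero.1 ((mul_eq_zero.1 q1).resolve_left
        (norm_ne_zero_iff.1 ((r1 _ q5).trans_ne one_ne_zero)))⟩
  have m0 : μ.map (OL L).subtype ≠ 0 := (hμ.monic.map _).ne_zero
  have rt : ∀ t, t ∈ (μ.map (OL L).subtype).roots.toFinset ↔ μ.eval₂ (OL L).subtype t = 0 :=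
    fun t => by rw [Multiset.mem_toFinset, mem_roots m0, IsRoot.def, eval_map]
  refine ⟨G, hG, zG, ?_⟩
  ext Q
  rw [Finsupp.add_apply, Finsupp.filter_apply, Finsupp.finsetSum_apply]
  by_cases q0 : μ.eval₂ (OL L).subtype Q.1 = 0 ∧ Q.2 = H.eval₂ (OL L).subtype Q.1
  · have q1 := hμ.root_lt q0.1
    have q2 : Et (mp (OL L).subtype χ) Q := by
      have := het _ q0.1
      rwa [← q0.2] at this
    rw [if_neg q1.ne, zero_add, Finset.sum_eq_single_of_mem Q.1 ((rt _).2 q0.1), ← q0.2,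
      Finsupp.single_eq_same, hG1.dv_apply hw, if_pos q2]
    · have e1 := hG1.jq_ne hw q2
      have e2 := oq_eq_zero hw.monic q2 (hU Q q1 (q0.2 ▸ ml1a_ev_le q1.le H))
      have e3 := oq_C (mp (OL L).subtype χ) Q m0
      have e4 := jq_congr hw.monic q2 ⟨_, key⟩
      have e5 : jq (mp (OL L).subtype χ) Q (mp (OL L).subtype E) ≠ 0 := fun e => by
        rw [map_mul, map_mul, e, mul_zero] at e4
        exact mul_ne_zero e3.1 e2.1 e4.symm
      have e6 := oq_mul e1 e5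
      have e7 := oq_mul e3.1 e2.1
      rw [e2.2, add_zero, e3.2, oq, ← e4, ← oq, e6] at e7
      have e8 := rootMultiplicity_le_one_of_separable hs Q.1
      have e9 := (van_iff_le e1).1 ((van_one hw.monic q2).2 (by
        rw [ev, q0.1, ← q0.2, sub_self, zero_mul, mul_zero, add_zero]))
      omega
    · intro t _ ht
      exact Finsupp.single_eq_of_ne fun e => ht (congrArg Prod.fst e).symm
  · rw [Finset.sum_eq_zero, add_zero]
    · split_ifs with q1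
      · rfl
      · by_contra q2
        obtain ⟨q3, q4⟩ := (hG1.dv_ne_zero hw).1 q2
        exact q0 ((zG Q q3.1 q4).resolve_left fun q => q1 q.1)
    · intro t ht
      refine Finsupp.single_eq_of_ne fun e => q0 ?_
      rw [e]
      exact ⟨(rt _).1 ht, rfl⟩

end Pool.Agent.ZeroCyc
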