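import Pool.Agent.Lib.MP_796ce4_ag.ZQ.MI1
import Pool.Agent.Lib.MP_796ce4_ag.ZQ.MI2
import Pool.Agent.Lib.MP_796ce4_ag.ZQ.MC

/-! Moving a regular point to good points. -/

namespace Pool.Agent.ZeroCyc

open Polynomial Module
open scoped Classical IntermediateField PowerSeries

set_option linter.unusedSectionVars false

variable {p : ℕ} {K Λ : Type} [Field K] [CharZero K] [NormedField Λ] [IsUltrametricDist Λ]
  [IsAlgClosed Λ] [Algebra K Λ] [IsGalois K Λ] [Loc p K Λ] [Fact p.Prime] [CharP (kk Λ) p]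

variable {N : ℕ} {J : Ideal (MvPolynomial (Fin (N + 1)) K)} {B L : IntermediateField K Λ}

namespace QChart

variable {𝒞 : QChart J B} {h : Λ} {y : Fin 𝒞.d → Λ}

theorem exists_ml1 (T : Tower p B) [FiniteDimensional K L] (hB : B ≤ L) (hg : 𝒞.Rg y h)
    (hy : ∀ i, y i ∈ L) (hh : h ∈ L) : ∃ n, 0 < n ∧
    ∃ (lam : Fin 𝒞.d → (OL (T.U n))[X]) (e : ℕ) (G : (OL (T.U n))[X][X]) (u : (OL (T.U n))[X])
      (D : Λ × Λ →₀ ℤ), (∀ i, (lam i).natDegree ≤ e) ∧ u.Monic ∧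
      Lead (𝒞.red.b * e) u.natDegree G ∧ 𝒞.GZ (lD lam) (mp (rL _) (C u)) ∧ 0 ≤ D ∧
      D ≤ dv (𝒞.cL (lU lam)) (mp (OL _).subtype G) ∧
      (∀ Q, D Q ≠ 0 → 𝒞.Gd (fun i => (lU lam i).eval Q.1) Q.2) ∧
      (∀ σ, Fix (T.U n) σ → psh (pm σ) D = D) ∧
      clL J (T.U n) (𝒞.Pf (lU lam) (dv (𝒞.cL (lU lam)) (mp (OL _).subtype (C u)))) =
        clL J (T.U n) (𝒞.Pf (lU lam) D) + clL J L (Finsupp.single (𝒞.io y h) 1) := by
  have : FiniteDimensional K B :=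
    FiniteDimensional.of_injective (IntermediateField.inclusion hB).toLinearMap
      (IntermediateField.inclusion_injective hB)
  obtain ⟨n, hn, -, k, ϖ, s, μ, hT⟩ := T.exists_trd 𝒞.π.2.1 𝒞.π_ne 𝒞.π_lt 𝒞.π_max one_pos
    (T.U_one.le.trans hB)
  have := T.fin n hn
  have hU := T.le n
  obtain ⟨lam, H, ξ, hl, hH, hχ, hξ, hρ⟩ := ml1_curve T hn hT hg hy hh
  obtain ⟨e, he⟩ : ∃ e, ∀ i, (lam i).natDegree ≤ e :=
    ⟨Finset.univ.sup fun i => (lam i).natDegree, fun i =>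
      Finset.le_sup (f := fun i => (lam i).natDegree) (Finset.mem_univ i)⟩
  have hls : ∀ t, (fun i => (lU lam i).eval (s t ϖ)) = fun i => s t (y i) :=
    fun t => funext fun i => by rw [eval_map, hT.eval_gal, hl]
  have hHs : ∀ t, H.eval₂ (OL _).subtype (s t ϖ) = s t h := fun t => by rw [hT.eval_gal, hH]
  have hfix : ∀ t, Fix B (s t) := fun t => (hT.fix t).mono hU
  have het : ∀ t, Et (𝒞.cL (lU lam)) (s t ϖ, s t h) := fun t => by
    constructor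
    · rw [ee_cv]
      dsimp only
      rw [hls, Chart.chartb_gal (hfix t), hg.on, map_zero]
    · rw [← cv_derivative, ee_cv]
      dsimp only
      rw [hls, Chart.chartb_gal (hfix t)]
      exact (_root_.map_ne_zero _).2 hg.der
  obtain ⟨m₀, hm₀⟩ := ml1_fun (wt_crv (inc hU) he) hT.dist hT.sep hχ hξ hρ fun t ht => by
    obtain ⟨i, rfl⟩ := hT.root_iff.1 ht
    rw [mp_cU, hHs]
    exact het i
  obtain ⟨u, hu, hdeg, hsep⟩ := T.exists_sep hn hρ m₀
  obtain ⟨G, hG, hz, hdv⟩ := hm₀ _ hdeg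
  rw [mp_cU] at hz hdv
  have hgz : 𝒞.GZ (lD lam) (mp (rL _) (C u)) := by
    rw [mp_C]
    exact gz_C hU fun τ h1 h2 => (hsep τ h1 h2).1
  have zG : ∀ Q, On (𝒞.cL (lU lam)) Q → ee Q (mp (OL _).subtype G) = 0 →
      𝒞.Gd (fun i => (lU lam i).eval Q.1) Q.2 ∨ ∃ t, Q = (s t ϖ, s t h) := fun Q h0 h1 => by
    refine (hz Q h0 h1).imp (fun h2 => gd_of_rs h0 h2.1.le ?_) fun h2 => ?_
    · rw [← rho_lD hU, eval_map, ← rs_eval₂ chartb_le chartb_r h2.1.le]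
      exact rs_ne_zero.2 h2.2
    · obtain ⟨t, ht⟩ := hT.root_iff.1 h2.1
      exact ⟨t, Prod.ext ht (by rw [h2.2, ht, hHs])⟩
  have aG : ∀ Q, On (𝒞.cL (lU lam)) Q → ee Q (mp (OL _).subtype G) = 0 →
      Et (𝒞.cL (lU lam)) Q ∧ 𝒞.pv (fun i => (lU lam i).eval Q.1) Q.2 ≠ 0 := fun Q h0 h1 => by
    rcases zG Q h0 h1 with h2 | ⟨t, rfl⟩
    · exact ⟨h2.et, h2.pv_ne⟩
    · refine ⟨het t, fun h2 => ?_⟩
      dsimp only at h2
      rw [hls, pv_gal (hfix t)] at h2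
      have h3 : 𝒞.pv y h = 0 := funext fun a => (map_eq_zero (s t)).1 (congrFun h2 a)
      have h4 := hg.prim
      rw [h3, norm_zero] at h4
      exact zero_ne_one h4
  have hZ : (μ.map (OL _).subtype).roots.toFinset = Finset.univ.image fun t => s t ϖ := by
    ext t
    rw [Multiset.mem_toFinset, mem_roots (hT.dist.monic.map _).ne_zero, IsRoot.def, eval_map,
      hT.root_iff, Finset.mem_image]
    exact exists_congr fun _ => ⟨fun a => ⟨Finset.mem_univ _, a.symm⟩, fun a => a.2.symm⟩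
  have h0 := dv_nonneg (𝒞.cL (lU lam)) (mp (OL _).subtype G)
  refine ⟨n, hn, lam, e, G, u,
    (dv (𝒞.cL (lU lam)) (mp (OL _).subtype G)).filter fun Q => ‖Q.1‖ = 1, he, hu, hG, hgz,
    fun Q => ?_, fun Q => ?_, fun Q hQ => ?_, fun σ hσ => filter_gal (p := p) (dv_gal (p := p) hU
      (fun i => over_map _) (lU_deg he) (hG.map _) (ov2_mp (fun x => x.2.1) _)
      (fun Q h1 h2 => (aG Q h1 h2).1) hσ), ?_⟩
  · rw [Finsupp.filter_apply]
    split_ifs
    · exact h0 Q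
    · exact le_rfl
  · rw [Finsupp.filter_apply]
    split_ifs
    · exact le_rfl
    · exact h0 Q
  · rw [Finsupp.filter_apply] at hQ
    split_ifs at hQ with h1
    · obtain ⟨h2, h3⟩ := ((hG.map _).dv_ne_zero (wt_crv _ (lU_deg he))).1 hQ
      refine (zG Q h2.1 h3).resolve_right ?_
      rintro ⟨t, rfl⟩
      exact (hT.lt_gal (p := p) t).ne h1
    · exact absurd rfl hQ
  · rw [← MRc (p := p) hU (fun i => over_map _) (lU_deg he) (hG.map _) ((lead_C hu).map _)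
      (ov2_mp (fun x => x.2.1) _) (ov2_mp (fun x => x.2.1) _) fun Q h1 h2 => h2.elim (aG Q h1)
        fun h3 => ⟨(hgz.gd hU he (lead_C hu) h1 h3).et, (hgz.gd hU he (lead_C hu) h1 h3).pv_ne⟩,
      ← hT.clL_sum, ← map_add]
    refine congrArg _ ((congrArg _ hdv).trans ?_)
    rw [map_add, hZ, Finset.sum_image fun a _ b _ hab => hT.inj hab, map_sum]
    refine congrArg _ (Finset.sum_congr rfl fun t _ => ?_)
    rw [Pf_single]
    dsimp only
    rw [hls, hHs, io_gal (hfix t), galC_single]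

theorem ML1 (T : Tower p B) [FiniteDimensional K L] (hB : B ≤ L) (hg : 𝒞.Rg y h)
    (hy : ∀ i, y i ∈ L) (hh : h ∈ L) {H : AddSubgroup (VV Λ J)}
    (hH : ∀ L' y h, B ≤ L' → FiniteDimensional K L' → 𝒞.GdL L' y h →
      clL J L' (Finsupp.single (𝒞.io y h) 1) ∈ H) :
    clL J L (Finsupp.single (𝒞.io y h) 1) ∈ H := by
  obtain ⟨n, hn, lam, e, G, u, D, he, hu, -, hgz, -, -, hD, hD', h1⟩ := exists_ml1 T hB hg hy hh
  have := T.fin n hn
  have hU := T.le n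
  have key : ∀ E : Λ × Λ →₀ ℤ, (∀ σ, Fix (T.U n) σ → psh (pm σ) E = E) →
      (∀ Q, E Q ≠ 0 → 𝒞.Gd (fun i => (lU lam i).eval Q.1) Q.2) →
      clL J (T.U n) (𝒞.Pf (lU lam) E) ∈ H := fun E a1 a2 =>
    Pf_mem (p := p) hU (fun i => over_map _) a1 fun Q hQ L' hL' hf b1 b2 =>
      hH L' _ _ (hU.trans hL') hf ⟨a2 Q hQ, fun i => by
        rw [eval_map]
        exact eval₂_mem (fun c => hL' c.2.1) b1 _, b2⟩
  have m1 := key _ (fun σ hσ => hgz.inv (p := p) hU he (lead_C hu) hσ) fun Q hQ => by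
    obtain ⟨h2, h3⟩ := (((lead_C hu).map _).dv_ne_zero (wt_crv _ (lU_deg he))).1 hQ
    exact hgz.gd hU he (lead_C hu) h2.1 h3
  rw [h1] at m1
  exact (H.add_mem_cancel_left (key D hD' hD)).1 m1

end QChart

end Pool.Agent.ZeroCyc
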