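import Pool.Agent.Lib.MP_796ce4_ag.ZQ.MU
import Pool.Agent.Lib.MP_796ce4_ag.ZQ.QSig
import Pool.Agent.Lib.MP_796ce4_ag.ZQ.Dir
import Pool.Agent.Lib.MP_796ce4_ag.ZY.ML1a

/-! A curve through a regular point with a transversal section. -/

namespace Pool.Agent.ZeroCyc

open Polynomial Module
open scoped Classical IntermediateField PowerSeries

set_option linter.unusedSectionVars false

variable {p : ℕ} {K Λ : Type} [Field K] [CharZero K] [NormedField Λ] [IsUltrametricDist Λ]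
  [IsAlgClosed Λ] [Algebra K Λ] [IsGalois K Λ] [Loc p K Λ] [Fact p.Prime] [CharP (kk Λ) p]

variable {N : ℕ} {J : Ideal (MvPolynomial (Fin (N + 1)) K)} {B L : IntermediateField K Λ}

/-- a bound on integral directions gives the bound on all directions -/
theorem zqmi1_dir {E : IntermediateField K Λ} (hB : B ≤ E) {d : ℕ} (a : Fin d → OL E) (b : OL E)
    (f : MP d (OL B))
    (hd : ∀ (ν : Fin d → OL E) (θ : OL E), ‖((dir (inc hB) a b ν θ f : OL E) : Λ)‖ < 1)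
    (ν : Fin d → Λ) (θ : Λ) (hν : ∀ i, ‖ν i‖ ≤ 1) (hθ : ‖θ‖ ≤ 1) :
    ‖dir (OL B).subtype (fun i => (a i : Λ)) (b : Λ) ν θ f‖ < 1 := by
  obtain ⟨A, hA⟩ := dir_lin (OL B).subtype (fun i => (a i : Λ)) (b : Λ) f
  have key : ∀ (ν : Fin d → OL E) (θ : OL E), ‖∑ k, A k * (ν k : Λ) +
      ev2 (OL B).subtype (fun i => (a i : Λ)) (b : Λ) (derivative f) * (θ : Λ)‖ < 1 := by
    intro ν θ
    have h1 := map_dir (inc hB) a b ν θ f (OL E).subtype
    rw [subtype_inc] at h1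
    rw [← hA]
    exact lt_of_eq_of_lt (congrArg norm h1.symm) (hd ν θ)
  have h1 : ∀ k, ‖A k‖ < 1 := fun k => by
    have h2 := key (Pi.single k 1) 0
    rw [Finset.sum_eq_single k] at h2
    · simpa using h2
    · intro j _ hj
      simp [Pi.single_eq_of_ne hj]
    · simp
  have h2 : ‖ev2 (OL B).subtype (fun i => (a i : Λ)) (b : Λ) (derivative f)‖ < 1 := by
    simpa using key 0 1
  rw [hA]
  refine ml1a_add_lt ?_ (ml1a_mul_lt h2 hθ)
  exact Finset.sum_induction _ (fun x : Λ => ‖x‖ < 1) (fun _ _ => ml1a_add_lt) (by simp)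
    fun k _ => ml1a_mul_lt (h1 k) (hν k)

theorem zqmi1_zero {E : IntermediateField K Λ} (u : (OL E)[X]) :
    u.eval₂ (OL E).subtype 0 = ((u.eval 0 : OL E) : Λ) := by
  have := eval₂_at_apply (p := u) (OL E).subtype 0
  rw [map_zero] at this
  exact this

namespace QChart

variable {𝒞 : QChart J B} {n e : ℕ} {ϖ h : Λ} {s : Fin e → Λ ≃ₐ[K] Λ} {y : Fin 𝒞.d → Λ}

theorem ml1_curve (T : Tower p B) (hn : 0 < n) {μ : (OL (T.U n))[X]}
    (hT : TRD (𝒞.π : Λ) (T.U n) L ϖ s μ) (hg : 𝒞.Rg y h) (hy : ∀ i, y i ∈ L) (hh : h ∈ L) :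
    ∃ (lam : Fin 𝒞.d → (OL (T.U n))[X]) (H ξ : (OL (T.U n))[X]),
      (∀ i, (lam i).eval₂ (OL _).subtype ϖ = y i) ∧ H.eval₂ (OL _).subtype ϖ = h ∧
      (cv (inc (T.le n)) lam 𝒞.χ).eval H = μ * ξ ∧ ‖((ξ.eval 0 : OL (T.U n)) : Λ)‖ = 1 ∧
      (𝒞.red.rho (inc (T.le n)) lam).map (rL _) ≠ 0 := by
  choose R hR using fun i => hT.poly (y i) (hy i) (hg.y_le i)
  obtain ⟨P, -, hP⟩ := hT.poly h hh hg.h_le
  have e0 : (evalRingHom (0 : OL (T.U n))).comp (C.comp (inc (T.le n))) = inc (T.le n) :=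
    RingHom.ext fun c => by simp
  have e1 : (eval₂RingHom (OL (T.U n)).subtype ϖ).comp (C.comp (inc (T.le n))) =
      (OL B).subtype := RingHom.ext fun c => by
    rw [RingHom.comp_apply, RingHom.comp_apply, coe_eval₂RingHom, eval₂_C]
    rfl
  obtain ⟨ξ, hξ⟩ : μ ∣ ev2 (C.comp (inc (T.le n))) R P 𝒞.χ := by
    refine hT.dvd ?_
    have h1 := map_ev2 (C.comp (inc (T.le n))) (eval₂RingHom (OL (T.U n)).subtype ϖ) R P 𝒞.χ
    rw [e1] at h1
    simp only [coe_eval₂RingHom, fun i => (hR i).2, hP] at h1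
    exact h1.trans hg.on
  have m0 := hT.zero (p := p)
  obtain ⟨ν, θ, hu⟩ : ∃ (ν : Fin 𝒞.d → OL (T.U n)) (θ : OL (T.U n)),
      ‖((ξ.eval 0 + dir (inc (T.le n)) (fun i => (R i).eval 0) (P.eval 0) ν θ 𝒞.χ :
        OL (T.U n)) : Λ)‖ = 1 := by
    rcases (ml1a_le (ξ.eval 0)).eq_or_lt with h1 | h1
    · obtain ⟨A, hA⟩ := dir_lin (inc (T.le n)) (fun i => (R i).eval 0) (P.eval 0) 𝒞.χ
      refine ⟨0, 0, ?_⟩
      rw [hA]
      simpa using h1
    · by_contra hc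
      have h2 : ∀ (ν : Fin 𝒞.d → OL (T.U n)) (θ : OL (T.U n)),
          ‖((dir (inc (T.le n)) (fun i => (R i).eval 0) (P.eval 0) ν θ 𝒞.χ :
            OL (T.U n)) : Λ)‖ < 1 := fun ν θ =>
        (ml1a_le _).lt_of_ne fun h3 => hc ⟨ν, θ, ml1a_one h3 (by
          rw [Subring.coe_add]
          exact lt_of_eq_of_lt (congrArg norm (add_sub_cancel_right _ _)) h1)⟩
      have z : ‖(0 : Λ)‖ < 1 := by simp
      have h3 := hg.reg (T.U n) (fun i => (((R i).eval 0 : OL (T.U n)) : Λ))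
        ((P.eval 0 : OL (T.U n)) : Λ) (T.le n) (unrF hn) (fun i => ((R i).eval 0).2.1)
        (P.eval 0).2.1 (fun i => by
          rw [← zqmi1_zero, ← (hR i).2]
          exact ml1a_ev_congr z hT.lt _) (by
          rw [← zqmi1_zero, ← hP]
          exact ml1a_ev_congr z hT.lt _)
        fun ν θ hν hθ => zqmi1_dir (T.le n) _ _ _ h2 ν θ hν hθ
      have h4 := map_ev2 (C.comp (inc (T.le n))) (evalRingHom (0 : OL (T.U n))) R P 𝒞.χ
      rw [e0, hξ] at h4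
      simp only [coe_evalRingHom, eval_mul] at h4
      have h5 := map_ev2 (inc (T.le n)) (OL (T.U n)).subtype (fun i => (R i).eval 0)
        (P.eval 0) 𝒞.χ
      rw [subtype_inc, ← h4, map_mul] at h5
      have h6 := h3.trans_eq (congrArg norm h5.symm)
      rw [norm_mul] at h6
      have h7 : ‖(OL (T.U n)).subtype (μ.eval 0)‖ = ‖(𝒞.π : Λ)‖ := m0
      rw [h7] at h6
      exact absurd h6 (not_le.2 (mul_lt_of_lt_one_right (norm_pos_iff.2 𝒞.π_ne) h1))
  obtain ⟨m, hm⟩ := Chart.ml1a_lam (𝒞 := 𝒞.red) (T.le n) (fun i => R i + μ * C (ν i))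
    (hT.dist.monic.mul monic_X)
  obtain ⟨r, hr⟩ := dir_taylor (C.comp (inc (T.le n))) R P (fun i => C (ν i) + X * X ^ m i)
    (C θ) 𝒞.χ μ
  refine ⟨fun i => R i + μ * (C (ν i) + X * X ^ m i), P + μ * C θ,
    ξ + dir (C.comp (inc (T.le n))) R P (fun i => C (ν i) + X * X ^ m i) (C θ) 𝒞.χ + μ * r,
    fun i => ?_, ?_, ?_, ?_, ?_⟩
  · rw [eval₂_add, eval₂_mul, hT.root, zero_mul, add_zero, (hR i).2]
  · rw [eval₂_add, eval₂_mul, hT.root, zero_mul, add_zero, hP]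
  · rw [cv, coe_mapRingHom, ← ev2_eq_eval, hr, hξ]
    ring
  · have h1 := map_dir (C.comp (inc (T.le n))) R P (fun i => C (ν i) + X * X ^ m i) (C θ) 𝒞.χ
      (evalRingHom (0 : OL (T.U n)))
    rw [e0] at h1
    simp only [coe_evalRingHom, eval_add, eval_mul, eval_C, eval_X, zero_mul, add_zero] at h1
    rw [eval_add, eval_add, eval_mul, h1]
    refine ml1a_one hu ?_
    rw [Subring.coe_add (_ : Subring Λ) _ (μ.eval 0 * r.eval 0), add_sub_cancel_left,
      Subring.coe_mul]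
    exact ml1a_mul_lt (m0.trans_lt 𝒞.π_lt) (ml1a_le _)
  · have e : (fun i => R i + μ * (C (ν i) + X * X ^ m i)) =
        fun i => R i + μ * C (ν i) + μ * X * X ^ m i := funext fun i => by ring
    rw [e]
    exact hm

end QChart

end Pool.Agent.ZeroCyc
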