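import Pool.Agent.Lib.MP_796ce4_ag.ZQ.MH
import Pool.Agent.Lib.MP_796ce4_ag.ZY.FTor

/-! Functionals are constant along the components of the special fibre. -/

namespace Pool.Agent.ZeroCyc

open Polynomial Module
open scoped Classical IntermediateField PowerSeries

set_option linter.unusedSectionVars false

variable {p : ℕ} {K Λ : Type} [Field K] [CharZero K] [NormedField Λ] [IsUltrametricDist Λ]
  [IsAlgClosed Λ] [Algebra K Λ] [IsGalois K Λ] [Loc p K Λ] [Fact p.Prime] [CharP (kk Λ) p]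

variable {N : ℕ} {J : Ideal (MvPolynomial (Fin (N + 1)) K)} {B : IntermediateField K Λ}

namespace QChart

variable {𝒞 : QChart J B} {ℓ : VV Λ J →+ ℚ} {e : ℕ} {l : Fin 𝒞.d → (kk Λ)[X]}
  {χ₁ χ₂ : (kk Λ)[X][X]} {z z' : kk Λ × kk Λ}

theorem tor_curve (T : Tower p B) (he : ∀ i, (l i).natDegree ≤ e) (h : 𝒞.cK l = χ₁ * χ₂)
    (h₁ : χ₁.Monic) (h₂ : χ₂.Monic) (hi : Irreducible χ₁) (hz : On χ₁ z) (hz' : On χ₁ z')
    (hρ : (𝒞.red.rho (rL B) l).eval z.1 ≠ 0) (hρ' : (𝒞.red.rho (rL B) l).eval z'.1 ≠ 0) :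
    ∃ n m : ℕ, 0 < n ∧ 0 < m ∧ m • clL J (T.U n) (𝒞.Lq p (fun i => (l i).eval z.1) z.2 -
      𝒞.Lq p (fun i => (l i).eval z'.1) z'.2) ∈ 𝒞.Vu T := by
  obtain ⟨n, hn, hl, hs, hs'⟩ := T.exists_fixed l {χ₁, χ₂} {z, z'}
  have f₁ := hs χ₁ (Finset.mem_insert_self _ _)
  have f₂ := hs χ₂ (Finset.mem_insert_of_mem (Finset.mem_singleton_self _))
  have fz := hs' z (Finset.mem_insert_self _ _)
  have fz' := hs' z' (Finset.mem_insert_of_mem (Finset.mem_singleton_self _))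
  have hχ : (𝒞.red.crv (rL B) l e he).χ = χ₁ * χ₂ := h
  obtain ⟨hI, -⟩ := Chart.crv_inv (𝒞 := 𝒞.red) T n he hl
  have g0 : ((𝒞.red.crv (rL B) l e he).factor χ₁ χ₂ hχ h₁ h₂).Gp z := ⟨hz, hρ⟩
  have g1 : ((𝒞.red.crv (rL B) l e he).factor χ₁ χ₂ hχ h₁ h₂).Gp z' := ⟨hz', hρ'⟩
  have hd : ∀ Q, ((𝒞.red.crv (rL B) l e he).factor χ₁ χ₂ hχ h₁ h₂).Gp Q →
      Finsupp.single Q (1 : ℤ) ∈ ((𝒞.red.crv (rL B) l e he).factor χ₁ χ₂ hχ h₁ h₂).Dv := by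
    intro Q hQ Q' hQ'
    rw [Finsupp.single_apply_ne_zero] at hQ'
    rw [hQ'.1]
    exact hQ
  have hF : psh (pm (fr (kk Λ) p (T.r * n)))
      (Finsupp.single z (1 : ℤ) - Finsupp.single z' 1) =
      Finsupp.single z 1 - Finsupp.single z' 1 := by
    rw [map_sub, psh_single, psh_single, fz, fz']
  have hr : ((𝒞.red.crv (rL B) l e he).factor χ₁ χ₂ hχ h₁ h₂).ρ ≠ 0 := fun h0 =>
    g0.2 (by rw [h0, eval_zero])
  obtain ⟨m, hm0, hP⟩ := Cv.ff_torsion hr hi (algP_kk K) (Nat.mul_pos T.r_pos hn) ⟨f₁, hI.ρ⟩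
    (Cv.mem_DvF.2 ⟨sub_mem (hd _ g0) (hd _ g1), hF⟩) (by simp)
  refine ⟨n, m, hn, hm0, ?_⟩
  have := LR hn he hl hχ h₁ h₂ f₁ f₂ hP (by rw [map_nsmul, hF])
  rw [map_nsmul, map_nsmul, map_sub, Lf_single, Lf_single, one_zsmul, one_zsmul] at this
  exact this

theorem phi_eq (T : Tower p B) (hℓ : ∀ x ∈ 𝒞.Vu T, ℓ x = 0) (he : ∀ i, (l i).natDegree ≤ e)
    (h : 𝒞.cK l = χ₁ * χ₂) (h₁ : χ₁.Monic) (h₂ : χ₂.Monic) (hi : Irreducible χ₁) (hz : On χ₁ z)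
    (hz' : On χ₁ z') (hρ : (𝒞.red.rho (rL B) l).eval z.1 ≠ 0)
    (hρ' : (𝒞.red.rho (rL B) l).eval z'.1 ≠ 0) :
    Psi J ℓ (𝒞.Lq p (fun i => (l i).eval z.1) z.2) =
      Psi J ℓ (𝒞.Lq p (fun i => (l i).eval z'.1) z'.2) := by
  obtain ⟨n, m, hn, hm, hv⟩ := tor_curve T he h h₁ h₂ hi hz hz' hρ hρ'
  have := T.fin n hn
  have h0 := hℓ _ hv
  rw [map_nsmul, nsmul_eq_mul, mul_eq_zero] at h0
  have h1 := Psi_eq_zero (h0.resolve_left (Nat.cast_ne_zero.2 hm.ne'))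
  rwa [map_sub, sub_eq_zero] at h1

/-- every value at a good point occurs in every good fibre -/
theorem fib_val (T : Tower p B) (hℓ : ∀ x ∈ 𝒞.Vu T, ℓ x = 0) {y y₀ : Fin 𝒞.d → Λ} {h : Λ}
    (hg : 𝒞.Gd y h) (hy : ∀ i, ‖y₀ i‖ ≤ 1)
    (h1 : ‖MvPolynomial.eval₂ (OL B).subtype y₀ 𝒞.D₀‖ = 1) :
    ∃ h₀, 𝒞.Gd y₀ h₀ ∧ psi J ℓ (𝒞.io y₀ h₀) = psi J ℓ (𝒞.io y h) := by
  obtain ⟨l, hl⟩ : ∃ l : Fin 𝒞.d → (kk Λ)[X],
      l = fun i => C (rs (y i)) + C (rs (y₀ i) - rs (y i)) * X := ⟨_, rfl⟩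
  have he : ∀ i, (l i).natDegree ≤ 1 := fun i => by
    simp only [hl]
    compute_degree
  have e0 : (fun i => (l i).eval 0) = fun i => rs (y i) := by
    funext i
    simp [hl]
  have e1 : (fun i => (l i).eval 1) = fun i => rs (y₀ i) := by
    funext i
    simp [hl]
  obtain ⟨k0, hρ⟩ := (gk_iff (l := l) (z := (0, rs h))).1 (by rw [e0]; exact hg.gk)
  obtain ⟨χ₁, χ₂, e, h₁, h₂, hi, hz⟩ := cvb_exists_irr _ _ (cK_monic l) rfl k0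
  obtain ⟨c, hc⟩ := IsAlgClosed.exists_root (χ₁.map (evalRingHom (1 : kk Λ))) (by
    rw [h₁.degree_map]
    exact fun h0 => hi.ne_one (h₁.degree_le_zero_iff_eq_one.1 h0.le))
  have hz' : On χ₁ (1, c) := (zqma_on χ₁ 1 c).1 hc
  have hρ' : (𝒞.red.rho (rL B) l).eval 1 ≠ 0 := by
    rw [Chart.eval_rho, e1]
    exact (Chart.chartb_mv hy _).2 ▸ rs_ne_zero.2 h1
  have k1 : On (𝒞.cK l) (1, c) := zqma_dvd ⟨χ₂, e⟩ hz'
  have hk : 𝒞.red.Gk (fun i => rs (y₀ i)) c := e1 ▸ (gk_iff (l := l) (z := (1, c))).2 ⟨k1, hρ'⟩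
  obtain ⟨h₀, hg₀, rfl⟩ := exists_gd hk hy
  refine ⟨h₀, hg₀, ?_⟩
  have h2 := phi_eq T hℓ he e h₁ h₂ hi hz hz' hρ hρ'
  obtain ⟨d1, k, d2⟩ := cK_dvd l
  obtain ⟨j, hj⟩ := mu_const (𝒞.wt_crv (rL B) he).monic d1 d2 e h₁ h₂ hi
  have m0 := hj _ hz (et_cK k0 hρ)
  have m1 := hj _ hz' (et_cK k1 hρ')
  rw [mu_cv] at m0 m1
  dsimp only at h2 m0 m1
  rw [e0] at h2 m0
  rw [e1] at h2 m1
  have hp := mu_pos hk
  rw [Psi_Lq T (cst_of T hℓ) hg, Psi_Lq T (cst_of T hℓ) hg₀, m0, ← m1] at h2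
  exact (mul_left_cancel₀ (Nat.cast_ne_zero.2 hp.ne') h2).symm

end QChart

end Pool.Agent.ZeroCyc
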