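import Pool.Agent.Lib.MP_796ce4_ag.ZY.CvB
import Pool.Agent.Lib.MP_796ce4_ag.ZY.CvJ
import Pool.Agent.Lib.MP_796ce4_ag.ZY.CvP

/-! Counting zeros on components, and the inequality of Riemann. -/

namespace Pool.Agent.ZeroCyc

open Polynomial Module
open scoped Classical IntermediateField PowerSeries

set_option linter.unusedSectionVars false

variable {𝕜 : Type} [Field 𝕜] [IsAlgClosed 𝕜] {b δ m N : ℕ} {χ θ G G' : 𝕜[X][X]}

theorem zqmw_cases {R : Type} [CommRing R] [IsDomain R] {f : R[X]} (hf : f.Monic) :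
    f = 1 ∨ Irreducible f ∨ ∃ g g' : R[X], g.Monic ∧ g'.Monic ∧ g * g' = f ∧
      g.natDegree < f.natDegree ∧ g'.natDegree < f.natDegree := by
  by_cases h1 : f = 1
  · exact Or.inl h1
  by_cases h2 : Irreducible f
  · exact Or.inr (Or.inl h2)
  rw [hf.irreducible_iff_natDegree, not_and] at h2
  have h3 := h2 h1
  push Not at h3
  obtain ⟨g, g', hg, hg', e, a1, a2⟩ := h3
  have := hg.natDegree_mul hg'
  rw [e] at this
  exact Or.inr (Or.inr ⟨g, g', hg, hg', e, by omega, by omega⟩)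

/-- the monic irreducible factors -/
theorem exists_factors {R : Type} [CommRing R] [IsDomain R] {f : R[X]} (hf : f.Monic) :
    ∃ s : Multiset R[X], s.prod = f ∧ ∀ g ∈ s, g.Monic ∧ Irreducible g := by
  induction hn : f.natDegree using Nat.strong_induction_on generalizing f with
  | _ n ih =>
    rcases zqmw_cases hf with h | h | ⟨g, g', hg, hg', e, h1, h2⟩
    · exact ⟨0, h.symm, fun g hg => absurd hg (Multiset.notMem_zero g)⟩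
    · exact ⟨{f}, Multiset.prod_singleton f, fun g hg => by
        rw [Multiset.mem_singleton.1 hg]; exact ⟨hf, h⟩⟩
    · obtain ⟨s, a1, a2⟩ := ih _ (hn ▸ h1) hg rfl
      obtain ⟨s', b1, b2⟩ := ih _ (hn ▸ h2) hg' rfl
      refine ⟨s + s', by rw [Multiset.prod_add, a1, b1, e], fun x hx => ?_⟩
      exact (Multiset.mem_add.1 hx).elim (a2 x) (b2 x)

theorem zqmw_const {A : Type} {D : A →₀ ℤ} {f : A → ℚ} {k : ℚ} (h : ∀ Q, D Q ≠ 0 → f Q = k) :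
    (D.sum fun Q n => (n : ℚ) * f Q) = (D.degree : ℚ) * k := by
  rw [Finsupp.degree_apply, Int.cast_sum, Finset.sum_mul]
  exact Finset.sum_congr rfl fun Q hQ =>
    congrArg ((D Q : ℚ) * ·) (h Q (Finsupp.mem_support_iff.1 hQ))

theorem zqmw_add {A : Type} (D D' : A →₀ ℤ) (f : A → ℚ) :
    ((D + D').sum fun Q n => (n : ℚ) * f Q) =
      (D.sum fun Q n => (n : ℚ) * f Q) + D'.sum fun Q n => (n : ℚ) * f Q :=
  Finsupp.sum_add_index' (fun _ => by simp) fun _ _ _ => by rw [Int.cast_add, add_mul]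

theorem zqmw_on {χ₁ χ₂ : 𝕜[X][X]} {Q : 𝕜 × 𝕜} (h : On χ₁ Q) : On (χ₁ * χ₂) Q := by
  unfold On at h ⊢
  rw [map_mul, h, zero_mul]

theorem zqmw_gp (c : Cv 𝕜) {χ₁ χ₂ : 𝕜[X][X]} (h : c.χ = χ₁ * χ₂) (h₁ : χ₁.Monic) (h₂ : χ₂.Monic)
    {Q : 𝕜 × 𝕜} (hQ : (c.factor χ₁ χ₂ h h₁ h₂).Gp Q) : c.Gp Q :=
  ⟨by rw [h]; exact zqmw_on hQ.1, hQ.2⟩

theorem zqmw_left (c : Cv 𝕜) {χ₁ χ₂ : 𝕜[X][X]} (h : c.χ = χ₁ * χ₂) (h₁ : χ₁.Monic)
    (h₂ : χ₂.Monic) (hG : Lead c.b m G) {Q : 𝕜 × 𝕜} (hQ : c.Gp Q) (e1 : Et χ₁ Q)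
    (e2 : ¬On χ₂ Q) : dv c.χ G Q = dv χ₁ G Q := by
  have hw : Wt c.b χ₁.natDegree χ₁ := (c.factor χ₁ χ₂ h h₁ h₂).wt
  rw [hG.dv_apply c.wt, hG.dv_apply hw, if_pos hQ.et, if_pos e1, h]
  unfold oq
  rw [jq_mul_left h₁ h₂ e1 e2]

theorem zqmw_split (c : Cv 𝕜) {χ₁ χ₂ : 𝕜[X][X]} (h : c.χ = χ₁ * χ₂) (h' : c.χ = χ₂ * χ₁)
    (h₁ : χ₁.Monic) (h₂ : χ₂.Monic) (hG : Lead c.b m G) :
    (dv c.χ G).filter c.Gp = (dv χ₁ G).filter (c.factor χ₁ χ₂ h h₁ h₂).Gp +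
      (dv χ₂ G).filter (c.factor χ₂ χ₁ h' h₂ h₁).Gp := by
  ext Q
  rw [Finsupp.add_apply]
  by_cases hQ : c.Gp Q
  · rw [Finsupp.filter_apply_pos _ _ hQ]
    have he := hQ.et
    rw [h, et_mul] at he
    rcases he with ⟨e1, e2⟩ | ⟨e1, e2⟩
    · rw [Finsupp.filter_apply_pos _ _ (show (c.factor χ₁ χ₂ h h₁ h₂).Gp Q from ⟨e1.1, hQ.2⟩),
        Finsupp.filter_apply_neg _ _ fun e : (c.factor χ₂ χ₁ h' h₂ h₁).Gp Q => e2 e.1, add_zero]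
      exact zqmw_left c h h₁ h₂ hG hQ e1 e2
    · rw [Finsupp.filter_apply_pos _ _ (show (c.factor χ₂ χ₁ h' h₂ h₁).Gp Q from ⟨e1.1, hQ.2⟩),
        Finsupp.filter_apply_neg _ _ fun e : (c.factor χ₁ χ₂ h h₁ h₂).Gp Q => e2 e.1, zero_add]
      exact zqmw_left c h' h₂ h₁ hG hQ e1 e2
  · rw [Finsupp.filter_apply_neg _ _ hQ,
      Finsupp.filter_apply_neg _ _ fun e => hQ (zqmw_gp c h h₁ h₂ e),
      Finsupp.filter_apply_neg _ _ fun e => hQ (zqmw_gp c h' h₂ h₁ e), add_zero]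

theorem zqmw_irr (c : Cv 𝕜) (hG : Lead c.b m G) (hG' : Lead c.b m G')
    (hz : ∀ Q, On c.χ Q → ee Q G' = 0 → c.ρ.eval Q.1 ≠ 0) (f : 𝕜 × 𝕜 → ℚ) {k : ℚ} (hk : 0 ≤ k)
    (hf : ∀ Q, c.Gp Q → f Q = k) :
    (((dv c.χ G).filter c.Gp).sum fun Q n => (n : ℚ) * f Q) ≤
      (dv c.χ G').sum fun Q n => (n : ℚ) * f Q := by
  rw [zqmw_const (k := k) fun Q hQ => hf Q (by
      by_contra e
      exact hQ (Finsupp.filter_apply_neg _ _ e)),
    zqmw_const (k := k) fun Q hQ => hf Q (by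
      obtain ⟨a1, a2⟩ := (hG'.dv_ne_zero c.wt).1 hQ
      exact ⟨a1.1, hz Q a1.1 a2⟩)]
  refine mul_le_mul_of_nonneg_right (Int.cast_le.2 ?_) hk
  rw [(hG'.degree_dv_eq_iff c.wt).2 fun Q a1 a2 => Cv.Gp.et ⟨a1, hz Q a1 a2⟩]
  refine le_trans ?_ (hG.degree_dv_le c.wt)
  have h1 : 0 ≤ dv c.χ G - (dv c.χ G).filter c.Gp := fun Q => by
    rw [Finsupp.sub_apply]
    by_cases hQ : c.Gp Q
    · rw [Finsupp.filter_apply_pos _ _ hQ, sub_self]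
      exact le_rfl
    · rw [Finsupp.filter_apply_neg _ _ hQ, sub_zero]
      exact dv_nonneg _ _ Q
  have h2 := cvj_degree_nonneg h1
  rw [map_sub] at h2
  exact sub_nonneg.1 h2

/-- componentwise count of zeros -/
theorem weighted_sum (c : Cv 𝕜) (hG : Lead c.b m G) (hG' : Lead c.b m G')
    (hz : ∀ Q, On c.χ Q → ee Q G' = 0 → c.ρ.eval Q.1 ≠ 0) (f : 𝕜 × 𝕜 → ℚ)
    (h0 : ∀ Q, c.Gp Q → 0 ≤ f Q)
    (hf : ∀ χ₁ χ₂, c.χ = χ₁ * χ₂ → χ₁.Monic → χ₂.Monic → Irreducible χ₁ → ∀ Q Q', On χ₁ Q →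
      On χ₁ Q' → c.ρ.eval Q.1 ≠ 0 → c.ρ.eval Q'.1 ≠ 0 → f Q = f Q') :
    (((dv c.χ G).filter c.Gp).sum fun Q n => (n : ℚ) * f Q) ≤
      (dv c.χ G').sum fun Q n => (n : ℚ) * f Q := by
  induction hn : c.χ.natDegree using Nat.strong_induction_on generalizing c with
  | _ n ih =>
    rcases zqmw_cases c.wt.monic with h | h | ⟨g, g', hg, hg', e, h1, h2⟩
    · refine zqmw_irr c hG hG' hz f le_rfl fun Q hQ => ?_
      have h1 : ee Q c.χ = 0 := hQ.1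
      rw [h, map_one] at h1
      exact absurd h1 one_ne_zero
    · by_cases hex : ∃ Q, c.Gp Q
      · obtain ⟨Q₀, hQ₀⟩ := hex
        exact zqmw_irr c hG hG' hz f (h0 Q₀ hQ₀) fun Q hQ =>
          hf c.χ 1 (mul_one _).symm c.wt.monic monic_one h Q Q₀ hQ.1 hQ₀.1 hQ.2 hQ₀.2
      · exact zqmw_irr c hG hG' hz f le_rfl fun Q hQ => absurd ⟨Q, hQ⟩ hex
    · have e' : c.χ = g' * g := by rw [← e, mul_comm]
      have key : ∀ (a a' : 𝕜[X][X]) (h : c.χ = a * a') (ha : a.Monic) (ha' : a'.Monic),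
          a.natDegree < n →
          (((dv a G).filter (c.factor a a' h ha ha').Gp).sum fun Q n => (n : ℚ) * f Q) ≤
            (dv a G').sum fun Q n => (n : ℚ) * f Q := fun a a' h ha ha' hl =>
        ih _ hl (c.factor a a' h ha ha') hG hG'
          (fun Q a1 a2 => hz Q (by rw [h]; exact zqmw_on a1) a2)
          (fun Q hQ => h0 Q (zqmw_gp c h ha ha' hQ))
          (fun x y hxy hx hy => hf x (y * a')
            (by rw [h, show a = x * y from hxy, mul_assoc]) hx (hy.mul ha')) rfl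
      have hs : dv c.χ G' = dv g G' + dv g' G' := by
        have ha : Adm c.χ G' := fun Q a1 a2 => Cv.Gp.et ⟨a1, hz Q a1 a2⟩
        have hw := c.wt
        rw [← e] at ha hw ⊢
        exact (hG'.dv_split hw hg hg' ha).1
      rw [zqmw_split c e.symm e' hg hg' hG, hs, zqmw_add, zqmw_add]
      exact add_le_add (key g g' e.symm hg hg' (hn ▸ h1)) (key g' g e' hg' hg (hn ▸ h2))

/-- Riemann's inequality -/
theorem exists_rr (c : Cv 𝕜) (hi : Irreducible c.χ) {P₀ P₁ : 𝕜 × 𝕜} (h₀ : c.Gp P₀)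
    (h₁ : c.Gp P₁) : ∃ (n : ℕ) (u : 𝕜[X]) (a : 𝕜[X][X]) (E : 𝕜 × 𝕜 →₀ ℤ), c.Wit u a ∧ 0 ≤ E ∧
      E ∈ c.Dv ∧ E.degree + 1 = n ∧ dv c.χ (c.G u a) - dv c.χ (C u) =
        E + Finsupp.single P₁ 1 - n • Finsupp.single P₀ 1 := by
  have hs : ∀ P, c.Gp P → Finsupp.single P (1 : ℤ) ∈ c.Dv := fun P hP Q hQ => by
    rw [(Finsupp.single_apply_ne_zero.1 hQ).1]
    exact hP
  have hD : (c.c0 + 1) • Finsupp.single P₀ (1 : ℤ) ∈ c.Dv := c.Dv.nsmul_mem (hs _ h₀) _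
  obtain ⟨u, hu, hu', hle⟩ := Cv.exists_u hD
  have hZ : dv c.χ (C u) - (c.c0 + 1) • Finsupp.single P₀ 1 + Finsupp.single P₁ 1 ∈ c.Dv :=
    c.Dv.add_mem (c.Dv.sub_mem (Cv.dv_C_mem hu hu') hD) (hs _ h₁)
  have hd : (dv c.χ (C u) - (c.c0 + 1) • Finsupp.single P₀ 1 + Finsupp.single P₁ 1).degree +
      (c.c0 : ℤ) = (c.δ : ℤ) * u.natDegree := by
    rw [map_add, map_sub, map_nsmul, Cv.degree_dv_C hu hu', Finsupp.degree_single,
      Finsupp.degree_single]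
    simp only [nsmul_eq_mul, Nat.cast_add, Nat.cast_one]
    ring
  obtain ⟨a, ha, hv⟩ := Cv.exists_G hi hZ (add_nonneg (sub_nonneg.2 hle) (cvj_single_nonneg _))
    hd.le u
  have hw : c.Wit u a := ⟨hu, hu', ha.2⟩
  refine ⟨c.c0 + 1, u, a, dv c.χ (c.G u a) -
    (dv c.χ (C u) - (c.c0 + 1) • Finsupp.single P₀ 1 + Finsupp.single P₁ 1), hw,
    sub_nonneg.2 (hw.lead.le_dv c.wt hv), c.Dv.sub_mem hw.dv_mem hZ, ?_, by abel⟩
  rw [map_sub, hw.degree_dv, ← hd]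
  simp only [Nat.cast_add, Nat.cast_one]
  ring

/-- curve data from a Bezout identity -/
theorem exists_cv {R : Type} [CommRing R] {χ α β : R[X][X]} {ρ : R[X]} (hχ : Wt b δ χ)
    (h : C ρ = α * χ + β * derivative χ) : ∃ c : Cv R, c.χ = χ ∧ c.ρ = ρ ∧ c.b = b ∧ c.δ = δ := by
  obtain ⟨w, hw⟩ := exists_WL b (b * δ) β
  exact ⟨⟨χ, α, β, ρ, δ, b, w + ρ.natDegree, hχ, h, Nat.le_add_left _ _, hw.mono (by omega)⟩,
    rfl, rfl, rfl, rfl⟩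

end Pool.Agent.ZeroCyc
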