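import Pool.Agent.Lib.MP_796ce4_ag.ZQ.MI
import Pool.Agent.Lib.MP_796ce4_ag.ZQ.MN
import Pool.Agent.Lib.MP_796ce4_ag.ZQ.MW

/-! Convexity of functionals. -/

namespace Pool.Agent.ZeroCyc

open Polynomial Module
open scoped Classical IntermediateField PowerSeries

set_option linter.unusedSectionVars false

theorem zqmj_sum_le {A : Type} {E F : A →₀ ℤ} {f g : A → ℚ}
    (h : ∀ z, (E z : ℚ) * f z ≤ (F z : ℚ) * g z) :
    (E.sum fun z k => (k : ℚ) * f z) ≤ F.sum fun z k => (k : ℚ) * g z := by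
  rw [Finsupp.sum_of_support_subset E (s := E.support ∪ F.support) Finset.subset_union_left _
      fun _ _ => by rw [Int.cast_zero, zero_mul],
    Finsupp.sum_of_support_subset F (s := E.support ∪ F.support) Finset.subset_union_right _
      fun _ _ => by rw [Int.cast_zero, zero_mul]]
  exact Finset.sum_le_sum fun z _ => h z

theorem zqmj_psh {A A' : Type} (r : A → A') (D : A →₀ ℤ) (f : A' → ℚ) :
    ((psh r D).sum fun z k => (k : ℚ) * f z) = D.sum fun Q k => (k : ℚ) * f (r Q) :=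
  Finsupp.sum_mapDomain_index (fun _ => by rw [Int.cast_zero, zero_mul])
    fun _ _ _ => by rw [Int.cast_add, add_mul]

theorem zqmj_mono {A A' : Type} (r : A → A') {D D' : A →₀ ℤ} (h : D ≤ D') (z : A') :
    psh r D z ≤ psh r D' z := by
  have h1 := psh_nonneg r (sub_nonneg.2 h) z
  rw [map_sub, Finsupp.sub_apply] at h1
  exact sub_nonneg.1 h1

variable {p : ℕ} {K Λ : Type} [Field K] [CharZero K] [NormedField Λ] [IsUltrametricDist Λ]
  [IsAlgClosed Λ] [Algebra K Λ] [IsGalois K Λ] [Loc p K Λ] [Fact p.Prime] [CharP (kk Λ) p]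

variable {N : ℕ} {J : Ideal (MvPolynomial (Fin (N + 1)) K)} {B L : IntermediateField K Λ}

namespace QChart

variable {𝒞 : QChart J B} {ℓ : VV Λ J →+ ℚ} {y : Fin 𝒞.d → Λ} {h : Λ}

/-- the value of the functional on a good residue disc -/
theorem zqmj_val (T : Tower p B) (hℓ : 𝒞.Cst ℓ)
    (h0 : ∀ y h, 𝒞.Gd y h → 0 ≤ psi J ℓ (𝒞.io y h)) (a : Fin 𝒞.d → kk Λ) (c : kk Λ) :
    ∃ v : ℚ, 0 ≤ v ∧ (𝒞.red.Gk a c → Psi J ℓ (𝒞.Lq p a c) = 𝒞.mu a c * v) ∧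
      ∀ y h, 𝒞.Gd y h → (fun i => rs (y i)) = a → rs h = c → psi J ℓ (𝒞.io y h) = v := by
  by_cases hk : 𝒞.red.Gk a c
  · obtain ⟨y, h, hg, rfl, rfl⟩ := exists_gd_rs hk
    refine ⟨_, h0 y h hg, fun _ => Psi_Lq T hℓ hg, fun y' h' hg' e e' => ?_⟩
    exact hℓ y h y' h' hg hg' (fun i => (rs_eq_iff (hg'.y_le i) (hg.y_le i)).1 (congrFun e i))
      ((rs_eq_iff hg'.h_le hg.h_le).1 e')
  · exact ⟨0, le_rfl, fun h => absurd h hk, fun y h hg e e' => absurd (e ▸ e' ▸ hg.gk) hk⟩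

theorem psi_le (T : Tower p B) (hℓ : 𝒞.Cst ℓ) (h0 : ∀ y h, 𝒞.Gd y h → 0 ≤ psi J ℓ (𝒞.io y h))
    (hB : B ≤ L) {lam : Fin 𝒞.d → (OL L)[X]} {e m : ℕ} (he : ∀ i, (lam i).natDegree ≤ e)
    {G : (OL L)[X][X]} (hG : Lead (𝒞.red.b * e) m G) {D : Λ × Λ →₀ ℤ} (hD0 : 0 ≤ D)
    (hD : D ≤ dv (𝒞.cL (lU lam)) (mp (OL L).subtype G))
    (hg : ∀ Q, D Q ≠ 0 → 𝒞.Gd (fun i => (lU lam i).eval Q.1) Q.2) :
    Psi J ℓ (𝒞.Pf (lU lam) D) ≤ ((dv (𝒞.cK (lD lam)) (mp (rL L) G)).filter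
      (𝒞.red.crv (rL B) (lD lam) e (lD_deg he)).Gp).sum fun z k =>
        (k : ℚ) * Psi J ℓ (𝒞.Lq p (fun i => (lD lam i).eval z.1) z.2) := by
  choose v hv0 hv1 hv2 using fun z : kk Λ × kk Λ =>
    zqmj_val T hℓ h0 (fun i => (lD lam i).eval z.1) z.2
  have hQ : ∀ Q, D Q ≠ 0 →
      (fun i => rs ((lU lam i).eval Q.1)) = fun i => (lD lam i).eval (pm rs Q).1 := fun Q hQ => by
    have h1 : dv (𝒞.cL (lU lam)) (mp (OL L).subtype G) Q ≠ 0 :=
      ((lt_of_le_of_ne (hD0 Q) hQ.symm).trans_le (hD Q)).ne'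
    obtain ⟨a1, a2⟩ := ((hG.map _).dv_ne_zero (𝒞.wt_crv _ (lU_deg he))).1 h1
    exact (eval_lD lam (zero_rs hB he hG a1.1 a2).1).symm
  have e1 : Psi J ℓ (𝒞.Pf (lU lam) D) = (psh (pm rs) D).sum fun z k => (k : ℚ) * v z := by
    rw [Psi_Pf, zqmj_psh]
    refine Finsupp.sum_congr fun Q hq => ?_
    have hq' := Finsupp.mem_support_iff.1 hq
    rw [hv2 (pm rs Q) _ _ (hg Q hq') (hQ Q hq') rfl]
  rw [e1]
  refine zqmj_sum_le fun z => ?_
  by_cases hz : (𝒞.red.crv (rL B) (lD lam) e (lD_deg he)).Gp z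
  · rw [Finsupp.filter_apply_pos _ _ hz, hv1 z (Chart.crv_gp.1 hz), ← mul_assoc]
    refine mul_le_mul_of_nonneg_right ?_ (hv0 z)
    have h1 := (zqmj_mono (pm rs) hD z).trans (SPc hB he hG hz.2)
    rw [mul_comm] at h1
    exact_mod_cast h1
  · have h1 : psh (pm rs) D z = 0 := by
      by_contra h1
      obtain ⟨Q, hq, rfl⟩ := psh_ne_zero h1
      exact hz (Chart.crv_gp.2 (hQ Q hq ▸ (hg Q hq).gk))
    rw [Finsupp.filter_apply_neg _ _ hz, h1, Int.cast_zero, zero_mul, zero_mul]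

theorem CVX (T : Tower p B) (hℓ : ∀ x ∈ 𝒞.Vu T, ℓ x = 0)
    (h0 : ∀ y h, 𝒞.Gd y h → 0 ≤ psi J ℓ (𝒞.io y h)) (hg : 𝒞.Rg y h) :
    0 ≤ psi J ℓ (𝒞.io y h) := by
  have : FiniteDimensional K B :=
    have := T.fin 1 one_pos
    Module.Finite.of_injective (IntermediateField.inclusion (T.le 1)).toLinearMap
      (IntermediateField.inclusion_injective (T.le 1))
  obtain ⟨L, hB, hL, hs⟩ := exists_fin B (insert h (Finset.univ.image y))
  obtain ⟨n, hn, lam, e, G, u, D, he, hu, hG, hz, hD0, hD, hgd, -, hcl⟩ := exists_ml1 T hB hg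
    (fun i => hs _ (Finset.mem_insert_of_mem (Finset.mem_image_of_mem y (Finset.mem_univ i))))
    (hs _ (Finset.mem_insert_self _ _))
  have := T.fin n hn
  have hc := cst_of T hℓ
  have e1 := congrArg ℓ hcl
  rw [map_add, clL_Psi, clL_Psi, clL_Psi, Psi_single, Int.cast_one, one_mul] at e1
  have e2 := Psi_eq_zero (hℓ _ (RED T hn he (lead_C hu) hz))
  rw [map_sub, sub_eq_zero, Psi_Lf] at e2
  have e3 := psi_le T hc h0 (T.le n) he hG hD0 hD hgd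
  have e4 := weighted_sum (𝒞.red.crv (rL B) (lD lam) e (lD_deg he)) (hG.map (rL _))
    ((lead_C hu).map (rL _)) hz
    (fun z => Psi J ℓ (𝒞.Lq p (fun i => (lD lam i).eval z.1) z.2)) (fun z hz => by
      obtain ⟨v, a1, a2, -⟩ := zqmj_val T hc h0 (fun i => (lD lam i).eval z.1) z.2
      rw [a2 (Chart.crv_gp.1 hz)]
      exact mul_nonneg (Nat.cast_nonneg _) a1)
    fun χ₁ χ₂ a1 a2 a3 a4 z z' b1 b2 b3 b4 =>
      phi_eq T hℓ (lD_deg he) a1 a2 a3 a4 b1 b2 b3 b4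
  have e5 := (e3.trans e4).trans e2.ge
  have e6 : (0 : ℚ) < finrank K L := Nat.cast_pos.2 finrank_pos
  have e7 := mul_le_mul_of_nonneg_left e5 (Nat.cast_nonneg (α := ℚ) (finrank K (T.U n)))
  rw [e1, le_add_iff_nonneg_right] at e7
  exact (mul_nonneg_iff_of_pos_left e6).1 e7

end QChart

end Pool.Agent.ZeroCyc
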