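import Pool.Agent.Lib.MP_796ce4_ag.ZQ.MQ
import Pool.Agent.Lib.MP_796ce4_ag.ZQ.MW
import Pool.Agent.Lib.MP_796ce4_ag.ZY.FTor

/-! The inequality of Riemann on a line in characteristic zero. -/

namespace Pool.Agent.ZeroCyc

open Polynomial Module
open scoped Classical IntermediateField PowerSeries

set_option linter.unusedSectionVars false

variable {p : ℕ} {K Λ : Type} [Field K] [CharZero K] [NormedField Λ] [IsUltrametricDist Λ]
  [IsAlgClosed Λ] [Algebra K Λ] [IsGalois K Λ] [Loc p K Λ] [Fact p.Prime] [CharP (kk Λ) p]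

variable {N : ℕ} {J : Ideal (MvPolynomial (Fin (N + 1)) K)} {B L : IntermediateField K Λ}

namespace QChart

variable {𝒞 : QChart J B} {ℓ : VV Λ J →+ ℚ} {y : Fin 𝒞.d → Λ} {h h' : Λ}

theorem exists_line (hD : MvPolynomial.eval₂ (OL B).subtype y 𝒞.D₀ ≠ 0) :
    ∃ (lam : Fin 𝒞.d → Λ[X]) (c : Cv Λ), (∀ i, (lam i).natDegree ≤ 1) ∧
      (fun i => (lam i).eval 0) = y ∧ c.χ = 𝒞.cL lam ∧ c.b = 𝒞.red.b * 1 ∧ Irreducible c.χ ∧
      c.ρ = C (𝒞.c : Λ) * 𝒞.red.rho (OL B).subtype lam := by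
  have hd : (mq (OL B).subtype 𝒞.χ).natDegree = 𝒞.δ := (𝒞.monic.natDegree_map _).trans 𝒞.deg
  obtain ⟨Θ, h0, h1⟩ := ZeroCyc.bertini (b := 𝒞.red.b) (χ := mq (OL B).subtype 𝒞.χ)
    (𝒞.monic.map _) (fun i => by
      rw [hd, coe_mapRingHom, coeff_map]
      exact (Finset.sup_mono (MvPolynomial.support_map_subset _ _)).trans (𝒞.wt i)) 𝒞.irr y
    fun c' hc' => by
      rw [coe_mapRingHom, derivative_map, ← coe_mapRingHom, ev2_mq, RingHom.id_comp]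
      rw [ev2_mq, RingHom.id_comp] at hc'
      exact der_ne hc' hD
  obtain ⟨e, he⟩ := ftor_ne h0
  have h2 := h1 e he
  rw [cv_mq, RingHom.id_comp] at h2
  have h3 : ∀ i, (C (y i) + C (e i) * X : Λ[X]).natDegree ≤ 1 := fun i => by
    rw [add_comm]
    exact natDegree_linear_le
  obtain ⟨α, β, hab⟩ := 𝒞.ec
  obtain ⟨c, c1, c2, c3, -⟩ := exists_cv
    (α := cv (OL B).subtype (fun i => C (y i) + C (e i) * X) α)
    (β := cv (OL B).subtype (fun i => C (y i) + C (e i) * X) β)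
    (ρ := C (𝒞.c : Λ) * 𝒞.red.rho (OL B).subtype fun i => C (y i) + C (e i) * X)
    (wt_crv (𝒞 := 𝒞) (OL B).subtype h3) (by
      rw [← cv_derivative, ← map_mul, ← map_mul, ← map_add, ← hab]
      simp [cv, Chart.rho])
  exact ⟨_, c, h3, funext fun i => by simp, c1, c3, c1 ▸ h2, c2⟩

theorem rr_le (T : Tower p B) (h0 : ∀ v, v ≠ 0 → OnX J v → 0 ≤ psi J ℓ (pj v))
    (hD : MvPolynomial.eval₂ (OL B).subtype y 𝒞.D₀ ≠ 0) (h1 : ev2 (OL B).subtype y h 𝒞.χ = 0)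
    (h2 : ev2 (OL B).subtype y h' 𝒞.χ = 0) (h3 : psi J ℓ (𝒞.io y h) = 0) :
    psi J ℓ (𝒞.io y h') ≤ 0 := by
  obtain ⟨lam, c, l1, l2, l3, l4, l5, l6⟩ := exists_line hD
  have hρ : ∀ t, c.ρ.eval t ≠ 0 ↔
      MvPolynomial.eval₂ (OL B).subtype (fun i => (lam i).eval t) 𝒞.D₀ ≠ 0 := fun t => by
    rw [l6, eval_mul, eval_C, Chart.eval_rho, mul_ne_zero_iff]
    exact and_iff_right 𝒞.c_ne
  have hgp : ∀ z, ev2 (OL B).subtype y z 𝒞.χ = 0 → c.Gp (0, z) := fun z hz =>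
    ⟨by rw [l3, on_cL, l2]; exact hz, (hρ 0).2 (by rw [l2]; exact hD)⟩
  have hpv : ∀ Q, c.Gp Q → 𝒞.pv (fun i => (lam i).eval Q.1) Q.2 ≠ 0 ∧
      OnX J (𝒞.pv (fun i => (lam i).eval Q.1) Q.2) := fun Q hQ => by
    have h4 := on_cL.1 (l3 ▸ hQ.1)
    exact ⟨𝒞.ne0 _ _ h4 ((hρ _).1 hQ.2), onX_pv h4⟩
  obtain ⟨n, u, a, E, hw, hE0, hE, -, he⟩ := exists_rr c l5 (hgp h h1) (hgp h' h2)
  have := T.fin 1 one_pos
  obtain ⟨L1, a1, a2, a3⟩ := exists_over (T.U 1) lam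
  obtain ⟨L2, b1, b2, b3⟩ := exists_ov2 L1 (c.G u a)
  obtain ⟨L3, d1, d2, d3⟩ := exists_ov2 L2 (C u)
  have key := MRc (𝒞 := 𝒞) (L := L3) ((T.le 1).trans (a1.trans (b1.trans d1)))
    (fun i => (a3 i).mono (b1.trans d1)) l1 (l4 ▸ hw.lead) (lead_C hw.monic) (b3.mono d1) d3
    fun Q hQ hz => by
      have h5 : c.Gp Q := by
        refine ⟨l3 ▸ hQ, hz.elim hw.cvp_rho fun h6 => Cv.cop_iff.1 hw.cop _ ?_⟩
        rwa [ee_C] at h6
      exact ⟨l3 ▸ h5.et, (hpv Q h5).1⟩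
  have h6 : Psi J ℓ (𝒞.Pf lam (dv c.χ (c.G u a) - dv c.χ (C u))) = 0 :=
    Psi_eq_zero (L := L3) (by rw [map_sub, map_sub, l3, key, sub_self, map_zero])
  rw [he, map_sub, map_add, map_nsmul, Pf_single, Pf_single, l2, map_sub, map_add, map_nsmul,
    Psi_single, Psi_single, h3] at h6
  have h7 : 0 ≤ Psi J ℓ (𝒞.Pf lam E) := by
    rw [Psi_Pf]
    refine Finset.sum_nonneg fun Q hQ => mul_nonneg (by exact_mod_cast hE0 Q) ?_
    obtain ⟨h8, h9⟩ := hpv Q (hE Q (Finsupp.mem_support_iff.1 hQ))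
    exact h0 _ h8 h9
  simp only [Int.cast_one, one_mul, mul_zero, smul_zero, sub_zero] at h6
  linarith

end QChart

end Pool.Agent.ZeroCyc
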