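import Pool.Agent.Lib.MP_796ce4_ag.ZQ.MN
import Pool.Agent.Lib.MP_796ce4_ag.ZQ.MR1
import Pool.Agent.Lib.MP_796ce4_ag.ZQ.FE

/-! Transversal cycles of degree zero are torsion modulo `Vu`. -/

namespace Pool.Agent.ZeroCyc

open Polynomial Module
open scoped Classical IntermediateField PowerSeries

set_option linter.unusedSectionVars false

variable {p : ℕ} {K Λ : Type} [Field K] [CharZero K] [NormedField Λ] [IsUltrametricDist Λ]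
  [IsAlgClosed Λ] [Algebra K Λ] [IsGalois K Λ] [Loc p K Λ] [Fact p.Prime] [CharP (kk Λ) p]

variable {N : ℕ} {J : Ideal (MvPolynomial (Fin (N + 1)) K)} {B L : IntermediateField K Λ}

namespace QChart

variable {𝒞 : QChart J B}

theorem Sm_le_NB (T : Tower p B) : ∃ r : ℝ, 0 < r ∧ 𝒞.Sm r ≤ mulS p (𝒞.NB T) := by
  have hΛ : CharZero Λ := charZero_of_injective_algebraMap (algebraMap K Λ).injective
  have hp : (p : Λ) ≠ 0 := Nat.cast_ne_zero.2 (Fact.out : p.Prime).ne_zero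
  exact ⟨_, mul_pos (pow_pos (norm_pos_iff.2 𝒞.c_ne) 3) (pow_pos (norm_pos_iff.2 hp) 2),
    Sm_le_NB_of T (Sm_le_Vu T)⟩

theorem zqmk_psi (ℓ : VV Λ J →+ ℚ) (M : ℚ) (y : PY Λ N) :
    psi J (ℓ - (AddMonoidHom.mulLeft M).comp (AddMonoidHom.snd _ _)) y = psi J ℓ y - M := by
  rw [psi, psi, AddMonoidHom.sub_apply, AddMonoidHom.comp_apply, AddMonoidHom.coe_snd, clL_snd,
    IntermediateField.finrank_bot, Finsupp.degree_single]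
  simp

theorem UU_tor (T : Tower p B) (hall : ∀ ℓ : VV Λ J →+ ℚ, (∀ x ∈ 𝒞.Vu T, ℓ x = 0) →
    (∀ y h, 𝒞.Gd y h → 0 ≤ psi J ℓ (𝒞.io y h)) → ∀ v, v ≠ 0 → OnX J v → 0 ≤ psi J ℓ (pj v))
    {x : VV Λ J} (hx : x ∈ 𝒞.UU T) (h0 : x.2 = 0) : ∃ m : ℕ, 0 < m ∧ m • x ∈ 𝒞.Vu T := by
  refine tors_of_fun fun ℓ hℓ => ?_
  obtain ⟨a, c, hk⟩ := Chart.exists_gk (𝒞 := 𝒞.red)
  obtain ⟨y₀, h₀, hg₀, -, -⟩ := exists_gd_rs hk
  obtain ⟨s, -, hs, -, -⟩ := exists_fibre hg₀.y_le hg₀.unit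
  obtain ⟨η, hη, hmin⟩ := s.exists_min_image (fun η => psi J ℓ (𝒞.io y₀ η))
    ⟨h₀, (hs h₀).2 hg₀.on⟩
  set M := psi J ℓ (𝒞.io y₀ η) with hM
  set ℓ' : VV Λ J →+ ℚ := ℓ - (AddMonoidHom.mulLeft M).comp (AddMonoidHom.snd _ _) with hℓ'
  have hval : ∀ v : VV Λ J, v.2 = 0 → ℓ' v = ℓ v := fun v hv => by
    rw [hℓ', AddMonoidHom.sub_apply, AddMonoidHom.comp_apply, AddMonoidHom.coe_snd, hv, map_zero,
      sub_zero]
  have hk' : ∀ v ∈ 𝒞.Vu T, ℓ' v = 0 := fun v hv => by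
    rw [hval v (Vu_le_Azero hv).2, hℓ v hv]
  have hpsi : ∀ y, psi J ℓ' y = psi J ℓ y - M := zqmk_psi ℓ M
  have hD : MvPolynomial.eval₂ (OL B).subtype y₀ 𝒞.D₀ ≠ 0 :=
    norm_pos_iff.1 (by rw [hg₀.unit]; exact one_pos)
  have hge : ∀ y h, 𝒞.Gd y h → 0 ≤ psi J ℓ' (𝒞.io y h) := fun y h hg => by
    obtain ⟨h₁, hg₁, e⟩ := fib_val T hℓ hg hg₀.y_le hg₀.unit
    rw [hpsi, ← e, sub_nonneg]
    exact hmin h₁ ((hs h₁).2 hg₁.on)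
  have hall' := hall ℓ' hk' hge
  have hz : ∀ y h, 𝒞.Gd y h → psi J ℓ' (𝒞.io y h) = 0 := fun y h hg => by
    obtain ⟨h₁, hg₁, e⟩ := fib_val T hk' hg hg₀.y_le hg₀.unit
    refine le_antisymm ?_ (hge y h hg)
    rw [← e]
    exact rr_le T hall' hD ((hs η).1 hη) hg₁.on (by rw [hpsi, ← hM, sub_self])
  rw [← hval x h0]
  exact kill_UU T hz x hx

end QChart

end Pool.Agent.ZeroCyc
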