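import Pool.Agent.Lib.MP_796ce4_ag.ZQ.QChart
import Pool.Agent.Lib.MP_796ce4_ag.ZY.ChI
import Pool.Agent.Lib.MP_796ce4_ag.ZY.ChR
import Pool.Agent.Lib.MP_796ce4_ag.ZY.MRc

/-! Basic properties of charts. -/

namespace Pool.Agent.ZeroCyc

open Polynomial Module
open scoped Classical IntermediateField PowerSeries

set_option linter.unusedSectionVars false

theorem lsum_single {A V : Type} [AddCommGroup V] (f : A → V) (a : A) (n : ℤ) :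
    lsum f (Finsupp.single a n) = n • f a := by
  simp [lsum]
theorem lsum_apply {A V : Type} [AddCommGroup V] (f : A → V) (D : A →₀ ℤ) :
    lsum f D = D.sum fun a n => n • f a := by
  rfl

variable {p : ℕ} {K Λ : Type} [Field K] [CharZero K] [NormedField Λ] [IsUltrametricDist Λ]
  [IsAlgClosed Λ] [Algebra K Λ] [IsGalois K Λ] [Loc p K Λ] [Fact p.Prime] [CharP (kk Λ) p]
variable {N : ℕ} {J : Ideal (MvPolynomial (Fin (N + 1)) K)} {B L : IntermediateField K Λ}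

namespace QChart

variable {𝒞 : QChart J B} {y y' : Fin 𝒞.d → Λ} {h h' : Λ} {a : Fin 𝒞.d → kk Λ} {c : kk Λ}

theorem Jm_sg (h₀ : Λ) (R : Fin 𝒞.d → Λ⟦X⟧) : 𝒞.Jm h₀ (sg R) = 𝒞.Qc h₀ R := by
  exact (lsum_single _ R 1).trans (one_smul _ _)
theorem Pf_single (lam : Fin 𝒞.d → Λ[X]) (Q : Λ × Λ) (n : ℤ) : 𝒞.Pf lam (Finsupp.single Q n) =
    Finsupp.single (𝒞.io (fun i => (lam i).eval Q.1) Q.2) n := by
  exact psh_single _ Q n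
theorem Lf_single (p : ℕ) (lam : Fin 𝒞.d → (kk Λ)[X]) (Q : kk Λ × kk Λ) (n : ℤ) :
    𝒞.Lf p lam (Finsupp.single Q n) = n • 𝒞.Lq p (fun i => (lam i).eval Q.1) Q.2 := by
  exact lsum_single _ Q n
theorem π_mem (hB : B ≤ L) : (𝒞.π : Λ) ∈ L := hB 𝒞.π.2.1
theorem c_le : ‖(𝒞.c : Λ)‖ ≤ 1 := 𝒞.c.2.2
theorem δ'_le : 𝒞.red.δ ≤ 𝒞.δ := by
  have h1 := natDegree_le_of_dvd 𝒞.dvd₁ (𝒞.monic.map _).ne_zero
  rwa [coe_mapRingHom, 𝒞.monic.natDegree_map, 𝒞.red.monic.natDegree_map, 𝒞.deg, 𝒞.red.deg] at h1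
theorem δ_pos : 0 < 𝒞.δ := 𝒞.red.pos.trans_le δ'_le
theorem wt_crv {S : Type} [CommRing S] [Nontrivial S] (φ : OL B →+* S) {lam : Fin 𝒞.d → S[X]}
    {e : ℕ} (he : ∀ i, (lam i).natDegree ≤ e) : Wt (𝒞.red.b * e) 𝒞.δ (cv φ lam 𝒞.χ) := by
  exact 𝒞.deg ▸ wt_cv φ he 𝒞.monic (𝒞.deg.symm ▸ 𝒞.wt)
theorem on_cL {lam : Fin 𝒞.d → Λ[X]} {Q : Λ × Λ} : On (𝒞.cL lam) Q ↔
    ev2 (OL B).subtype (fun i => (lam i).eval Q.1) Q.2 𝒞.χ = 0 := by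
  rw [On, ee_cv]
theorem on_iff : ev2 (rL B) a c 𝒞.χ = 0 ↔ ev2 (rL B) a c 𝒞.ϑ = 0 := by
  obtain ⟨n, hn⟩ := 𝒞.dvd₂
  have h1 := map_dvd (ev2 (RingHom.id _) a c) 𝒞.dvd₁
  have h2 := map_dvd (ev2 (RingHom.id _) a c) hn
  simp only [map_pow, ev2_mq, RingHom.id_comp] at h1 h2
  exact ⟨fun h => eq_zero_of_pow_eq_zero (zero_dvd_iff.1 (h ▸ h2)), fun h => zero_dvd_iff.1 (h ▸ h1)⟩
theorem root_le (hy : ∀ i, ‖y i‖ ≤ 1) (h0 : ev2 (OL B).subtype y h 𝒞.χ = 0) : ‖h‖ ≤ 1 := by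
  exact (Chart.chartb_intg hy _).root_le (𝒞.monic.map _) ((ev2_eq_eval _ _ _ _).symm.trans h0)
theorem onX_pv (h0 : ev2 (OL B).subtype y h 𝒞.χ = 0) : OnX J (𝒞.pv y h) := by
  intro G hG
  have h1 := map_dvd (ev2 (RingHom.id Λ) y h) (𝒞.on G hG)
  have h2 : (ev2 (RingHom.id Λ) y h).comp (algebraMap K (MP 𝒞.d Λ)) = algebraMap K Λ :=
    RingHom.ext fun c => by
      rw [RingHom.comp_apply, Polynomial.algebraMap_apply, ev2_C, MvPolynomial.algebraMap_apply,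
        MvPolynomial.eval₂_C, RingHom.id_apply]
  rw [ev2_mq, RingHom.id_comp, h0, zero_dvd_iff, MvPolynomial.map_aeval, h2] at h1
  simp only [ev2_mq, RingHom.id_comp] at h1
  exact h1
theorem pv_mem (hB : B ≤ L) (hy : ∀ i, y i ∈ L) (hh : h ∈ L) (i : Fin (N + 1)) :
    𝒞.pv y h i ∈ L := by
  rw [pv, ev2_eq_eval]
  exact (Chart.chartb_over hB hy _).eval hh
theorem pv_congr (hy : ∀ i, ‖y i‖ ≤ 1) (hh : ‖h‖ ≤ 1) (hy' : ∀ i, ‖y' i - y i‖ < 1)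
    (hh' : ‖h' - h‖ < 1) (i : Fin (N + 1)) : ‖𝒞.pv y' h' i - 𝒞.pv y h i‖ < 1 := by
  exact (rs_eq_iff (Chart.chartb_ev (fun i => (chartb_near (hy i) (hy' i)).1)
    (chartb_near hh hh').1 _).1 (Chart.chartb_ev hy hh _).1).1 (Chart.chartb_cong hy hh hy' hh' _)
theorem Gd.gk (hg : 𝒞.Gd y h) : 𝒞.red.Gk (fun i => rs (y i)) (rs h) := by
  exact ⟨on_iff.1 (by rw [← (Chart.chartb_ev hg.y_le hg.h_le _).2, hg.on, rs_zero]),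
    (Chart.chartb_mv hg.y_le _).2 ▸ rs_ne_zero.2 hg.unit⟩
theorem gd_of_unit (hk : MvPolynomial.eval₂ (rL B) (fun i => rs (y i)) 𝒞.D₀ ≠ 0)
    (hy : ∀ i, ‖y i‖ ≤ 1) (h0 : ev2 (OL B).subtype y h 𝒞.χ = 0) : 𝒞.Gd y h := by
  exact ⟨hy, root_le hy h0, h0, rs_ne_zero.1 ((Chart.chartb_mv hy _).2.trans_ne hk)⟩
theorem Gd.congr (hg : 𝒞.Gd y h) (hy : ∀ i, ‖y' i - y i‖ < 1)
    (h0 : ev2 (OL B).subtype y' h' 𝒞.χ = 0) : 𝒞.Gd y' h' := by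
  have h1 := fun i => chartb_near (hg.y_le i) (hy i)
  refine gd_of_unit ?_ (fun i => (h1 i).1) h0
  rw [funext fun i => (h1 i).2]
  exact hg.gk.unit
theorem Gd.primX (hg : 𝒞.Gd y h) : PrimX J (𝒞.pv y h) := by
  exact ⟨onX_pv hg.on, 𝒞.prim y h hg.y_le hg.on hg.unit⟩
theorem Gd.pv_ne (hg : 𝒞.Gd y h) : 𝒞.pv y h ≠ 0 := by
  intro h0
  have h1 := hg.primX.2
  rw [h0, norm_zero] at h1
  exact zero_ne_one h1
theorem GdL.xp (hg : 𝒞.GdL L y h) (hB : B ≤ L) : XP J L (𝒞.io y h) := by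
  exact ⟨𝒞.pv y h, hg.gd.pv_ne, hg.gd.primX.1, pv_mem hB hg.y_mem hg.h_mem, rfl⟩
theorem GdL.mono {L' : IntermediateField K Λ} (hg : 𝒞.GdL L y h) (hL : L ≤ L') :
    𝒞.GdL L' y h := ⟨hg.gd, fun i => hL (hg.y_mem i), hL hg.h_mem⟩
theorem qb_e {x : OL B} {α β f g : MP 𝒞.d (OL B)}
    (e : C (MvPolynomial.C x * 𝒞.D₀) = α * f + β * g) (h0 : ev2 (OL B).subtype y h f = 0) :
    (x : Λ) * MvPolynomial.eval₂ (OL B).subtype y 𝒞.D₀ =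
      ev2 (OL B).subtype y h β * ev2 (OL B).subtype y h g := by
  have h1 := congrArg (ev2 (OL B).subtype y h) e
  rwa [ev2_C, map_add, map_mul, map_mul, h0, mul_zero, zero_add, MvPolynomial.eval₂_mul,
    MvPolynomial.eval₂_C] at h1
theorem qb_le {x : OL B} {α β f g : MP 𝒞.d (OL B)}
    (e : C (MvPolynomial.C x * 𝒞.D₀) = α * f + β * g) (hy : ∀ i, ‖y i‖ ≤ 1) (hh : ‖h‖ ≤ 1)
    (h1 : ‖MvPolynomial.eval₂ (OL B).subtype y 𝒞.D₀‖ = 1) (h0 : ev2 (OL B).subtype y h f = 0) :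
    ‖(x : Λ)‖ ≤ ‖ev2 (OL B).subtype y h g‖ := by
  have h2 := congrArg norm (qb_e e h0)
  rw [norm_mul, norm_mul, h1, mul_one] at h2
  exact h2.trans_le (mul_le_of_le_one_left (norm_nonneg _) (Chart.chartb_ev hy hh _).1)
theorem Gd.le_der (hg : 𝒞.Gd y h) :
    ‖(𝒞.c : Λ)‖ ≤ ‖ev2 (OL B).subtype y h (derivative 𝒞.χ)‖ := by
  obtain ⟨α, β, e⟩ := 𝒞.ec
  exact qb_le e hg.y_le hg.h_le hg.unit hg.on
theorem der_ne (h0 : ev2 (OL B).subtype y h 𝒞.χ = 0)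
    (h1 : MvPolynomial.eval₂ (OL B).subtype y 𝒞.D₀ ≠ 0) :
    ev2 (OL B).subtype y h (derivative 𝒞.χ) ≠ 0 := by
  obtain ⟨α, β, e⟩ := 𝒞.ec
  exact right_ne_zero_of_mul (qb_e e h0 ▸ mul_ne_zero 𝒞.c_ne h1)
theorem Gd.et {lam : Fin 𝒞.d → Λ[X]} {Q : Λ × Λ} (hg : 𝒞.Gd (fun i => (lam i).eval Q.1) Q.2) :
    Et (𝒞.cL lam) Q := by
  refine ⟨on_cL.2 hg.on, fun h => ?_⟩
  rw [← cv_derivative, ee_cv] at h
  exact der_ne hg.on (norm_ne_zero_iff.1 (hg.unit.trans_ne one_ne_zero)) h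
theorem Gd.unique (hg : 𝒞.Gd y h) (hh : ‖h' - h‖ < ‖(𝒞.c : Λ)‖)
    (h0 : ev2 (OL B).subtype y h' 𝒞.χ = 0) : h' = h := by
  have h1 := (Chart.chartb_intg hg.y_le 𝒞.χ).taylor_le hg.h_le (root_le hg.y_le h0)
  rw [derivative_map, ← ev2_eq_eval, ← ev2_eq_eval, ← ev2_eq_eval, h0, hg.on, sub_zero, zero_sub,
    norm_neg, norm_mul] at h1
  by_contra h2
  have h3 := norm_pos_iff.2 (sub_ne_zero.2 h2)
  nlinarith [hg.le_der]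
theorem exists_gd (hk : 𝒞.red.Gk (fun i => rs (y i)) c) (hy : ∀ i, ‖y i‖ ≤ 1) :
    ∃ h, 𝒞.Gd y h ∧ rs h = c := by
  obtain ⟨t, ht, rfl⟩ := rs_surj c
  have h0 := (Chart.chartb_ev hy ht _).2.trans (on_iff.2 hk.on)
  rw [rs_eq_zero (Chart.chartb_ev hy ht _).1, ev2_eq_eval] at h0
  obtain ⟨x, h1, h2⟩ := (Chart.chartb_intg hy _).exists_root_near (𝒞.monic.map _) h0
  exact ⟨x, gd_of_unit hk.unit hy ((ev2_eq_eval _ _ _ _).trans h1), (chartb_near ht h2).2⟩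
theorem le_χ (hy : ∀ i, ‖y i‖ ≤ 1) (hh : ‖h‖ ≤ 1)
    (h1 : ‖MvPolynomial.eval₂ (OL B).subtype y 𝒞.D₀‖ = 1) (h0 : ev2 (OL B).subtype y h 𝒞.ϑ = 0) :
    ‖(𝒞.π : Λ)‖ ≤ ‖ev2 (OL B).subtype y h 𝒞.χ‖ := by
  obtain ⟨α, β, e⟩ := 𝒞.eπ
  exact qb_le e hy hh h1 h0
theorem pv_gal {σ : Λ ≃ₐ[K] Λ} (hσ : Fix B σ) (y : Fin 𝒞.d → Λ) (h : Λ) :
    𝒞.pv (fun i => σ (y i)) (σ h) = σ ∘ 𝒞.pv y h := by
  exact funext fun _ => Chart.chartb_gal hσ y h _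
theorem io_gal {σ : Λ ≃ₐ[K] Λ} (hσ : Fix B σ) (y : Fin 𝒞.d → Λ) (h : Λ) :
    𝒞.io (fun i => σ (y i)) (σ h) = galY σ (𝒞.io y h) := by
  rw [io, io, galY_pj, pv_gal hσ]
/-- common zeros with a leading function are integral -/
theorem zero_le {lam : Fin 𝒞.d → Λ[X]} (hl : ∀ i, Intg (lam i)) {e m : ℕ}
    (he : ∀ i, (lam i).natDegree ≤ e) {G : Λ[X][X]} (hG : Lead (𝒞.red.b * e) m G) (iG : In2 G)
    {Q : Λ × Λ} (h0 : On (𝒞.cL lam) Q) (h1 : ee Q G = 0) : ‖Q.1‖ ≤ 1 ∧ ‖Q.2‖ ≤ 1 := by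
  have ht : ∀ x : Λ, x ∈ (⊤ : IntermediateField K Λ) := fun _ => IntermediateField.mem_top
  choose l hl1 hl2 using fun i => exists_OL_poly (L := (⊤ : IntermediateField K Λ))
    (fun n => ht _) (hl i)
  obtain ⟨G', rfl, hG'⟩ := chartb_lead (φ := (OL (⊤ : IntermediateField K Λ)).subtype) hG
    fun i j => ⟨⟨_, ht _, iG i j⟩, rfl⟩
  rw [ee_mp] at h1
  have h2 := val_zero (v := NormedField.valuation) (fun c => by exact_mod_cast chartb_le c)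
    (𝒞.wt_crv (inc (le_top : B ≤ ⊤)) fun i => (hl2 i).1.trans_le (he i)) hG' (by
      rw [e2_cv, subtype_inc]
      simpa only [eval₂_eq_eval_map, hl1] using on_cL.1 h0) h1
  exact_mod_cast h2

include p

theorem Gd.gal (hg : 𝒞.Gd y h) {σ : Λ ≃ₐ[K] Λ} (hσ : Fix B σ) :
    𝒞.Gd (fun i => σ (y i)) (σ h) := by
  exact ⟨fun i => (Loc.norm_gal σ _).trans_le (hg.y_le i), (Loc.norm_gal σ _).trans_le hg.h_le,
    by rw [Chart.chartb_gal hσ, hg.on, map_zero],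
    by rw [← ev2_C _ _ (σ h), Chart.chartb_gal hσ, Loc.norm_gal, ev2_C, hg.unit]⟩

variable {lam : Fin 𝒞.d → Λ[X]} {e m : ℕ} {G G' : Λ[X][X]}

theorem MRc [FiniteDimensional K L] (hB : B ≤ L) (hl : ∀ i, Over L (lam i))
    (he : ∀ i, (lam i).natDegree ≤ e) (hG : Lead (𝒞.red.b * e) m G)
    (hG' : Lead (𝒞.red.b * e) m G') (oG : Ov2 L G) (oG' : Ov2 L G')
    (hz : ∀ Q, On (𝒞.cL lam) Q → ee Q G = 0 ∨ ee Q G' = 0 →
      Et (𝒞.cL lam) Q ∧ 𝒞.pv (fun i => (lam i).eval Q.1) Q.2 ≠ 0) :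
    clL J L (𝒞.Pf lam (dv (𝒞.cL lam) G)) = clL J L (𝒞.Pf lam (dv (𝒞.cL lam) G')) := by
  obtain ⟨G₀, rfl, hG₀⟩ := mrc_lift (p := p) hG oG
  obtain ⟨G₁, rfl, hG₁⟩ := mrc_lift (p := p) hG' oG'
  choose lam₀ hlam using fun i => (gal1_iff (S := L.toSubfield.toSubring)).1 (hl i)
  let ψ : OL B →+* L.toSubfield.toSubring :=
    (OL B).subtype.codRestrict _ fun x => hB x.2.1
  have he₀ : ∀ i, (lam₀ i).natDegree ≤ e := fun i => by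
    rw [← natDegree_map_eq_of_injective L.toSubfield.toSubring.subtype_injective, hlam]
    exact he i
  have hcv : ∀ f, mp L.toSubfield.toSubring.subtype (cv ψ lam₀ f) = cv (OL B).subtype lam f := by
    intro f
    rw [mp_cv]
    simp only [hlam]
    rfl
  have key := MR (J := J) (L := L) (φ := L.toSubfield.toSubring.subtype) (fun x => x.2)
    (q := fun i => cv ψ lam₀ (𝒞.pp i)) (𝒞.wt_crv ψ he₀) hG₀ hG₁
  simp only [hcv, ee_cv] at key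
  refine key (fun F hF => ?_) (fun Q h0 h1 => (hz Q h0 (Or.inl h1)).1)
    (fun Q h0 h1 => (hz Q h0 (Or.inr h1)).1) fun Q h0 h1 => (hz Q h0 h1).2
  have h1 := map_dvd (cv (RingHom.id Λ) lam) (𝒞.on F hF)
  rw [mrc_aeval (p := p)] at h1
  simpa only [cv_mq, RingHom.id_comp] using h1
theorem dv_gal (hB : B ≤ L) (hl : ∀ i, Over L (lam i)) (he : ∀ i, (lam i).natDegree ≤ e)
    (hG : Lead (𝒞.red.b * e) m G) (oG : Ov2 L G) (ha : Adm (𝒞.cL lam) G) {σ : Λ ≃ₐ[K] Λ}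
    (hσ : Fix L σ) : psh (pm σ) (dv (𝒞.cL lam) G) = dv (𝒞.cL lam) G := by
  have h := (Lead.dv_map (𝒞.wt_crv (OL B).subtype he) hG ha (σ : Λ →+* Λ)).1
  rw [(Chart.ov2_cv hB hl 𝒞.χ).map_eq hσ, oG.map_eq hσ] at h
  exact h.symm
theorem Pf_gal (hB : B ≤ L) (hl : ∀ i, Over L (lam i)) {σ : Λ ≃ₐ[K] Λ} (hσ : Fix L σ)
    (D : Λ × Λ →₀ ℤ) : 𝒞.Pf lam (psh (pm σ) D) = galC σ (𝒞.Pf lam D) := by
  change psh _ (psh _ D) = psh (galY σ) (psh _ D)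
  rw [psh_psh, psh_psh]
  refine psh_congr fun Q _ => ?_
  simp only [Function.comp_apply]
  rw [← io_gal (hσ.mono hB)]
  simp only [(hl _).apply_eval hσ]
  rfl
/-- an invariant divisor -/
theorem Pf_mem [FiniteDimensional K L] (hB : B ≤ L) (hl : ∀ i, Over L (lam i)) {D : Λ × Λ →₀ ℤ}
    (hD : ∀ σ, Fix L σ → psh (pm σ) D = D) {H : AddSubgroup (VV Λ J)}
    (hH : ∀ Q, D Q ≠ 0 → ∀ L', L ≤ L' → FiniteDimensional K L' → Q.1 ∈ L' → Q.2 ∈ L' →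
      clL J L' (Finsupp.single (𝒞.io (fun i => (lam i).eval Q.1) Q.2) 1) ∈ H) :
    clL J L (𝒞.Pf lam D) ∈ H := by
  have h := orb_mem₂ L D hD
    (fun Q => Finsupp.single (𝒞.io (fun i => (lam i).eval Q.1) Q.2) 1) (fun σ Q hσ _ => by
      rw [galC_single, ← io_gal (hσ.mono hB)]
      simp only [(hl _).apply_eval hσ]
      rfl) H hH
  simp only [Finsupp.smul_single, smul_eq_mul, mul_one] at h
  exact h

end QChart

end Pool.Agent.ZeroCyc
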