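import Pool.Agent.Lib.MP_796ce4_ag.ZQ.Ev
import Pool.Agent.Lib.MP_796ce4_ag.ZY.FgB

/-! Charts with non-reduced special fibre. -/

namespace Pool.Agent.ZeroCyc

open Polynomial Module
open scoped Classical IntermediateField PowerSeries

set_option linter.unusedSectionVars false

/-- the derivative of `f` at `(y, h)` in the direction `(ν, θ)` -/
noncomputable def dir {d : ℕ} {R S : Type} [CommRing R] [CommRing S] (φ : R →+* S)
    (y : Fin d → S) (h : S) (ν : Fin d → S) (θ : S) (f : MP d R) : S :=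
  (ev2 (C.comp φ) (fun i => C (y i) + C (ν i) * X) (C h + C θ * X) f).coeff 1

/-- the additive map with prescribed values on the generators -/
noncomputable def lsum {A V : Type} [AddCommGroup V] (f : A → V) : (A →₀ ℤ) →+ V :=
  Finsupp.liftAddHom fun a => zmultiplesHom V (f a)

variable {K Λ : Type} [Field K] [NormedField Λ] [IsUltrametricDist Λ] [Algebra K Λ] {N : ℕ}

/-- A monic hypersurface `χ = 0` with a polynomial map to the cone over the variety, and a lift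
`red.χ` of the reduced equation of the special fibre. -/
structure QChart (J : Ideal (MvPolynomial (Fin (N + 1)) K)) (B : IntermediateField K Λ) where
  red : Chart (⊥ : Ideal (MvPolynomial (Fin (0 + 1)) K)) B
  δ : ℕ
  χ : MP red.d (OL B)
  pp : Fin (N + 1) → MP red.d (OL B)
  π : OL B
  c : OL B
  monic : χ.Monic
  deg : χ.natDegree = δ
  wt : ∀ i, (χ.coeff i).totalDegree ≤ red.b * (δ - i)
  on : ∀ G ∈ J, mq (OL B).subtype χ ∣
    MvPolynomial.aeval (fun i => mq (OL B).subtype (pp i)) G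
  cone : ∀ (v : Fin (N + 1) → Λ) (c : Λ), OnX J v → OnX J (c • v)
  π_ne : (π : Λ) ≠ 0
  π_lt : ‖(π : Λ)‖ < 1
  π_max : UnrF (π : Λ) B
  dvd₁ : mq (rL B) red.χ ∣ mq (rL B) χ
  dvd₂ : ∃ n, mq (rL B) χ ∣ mq (rL B) red.χ ^ n
  eπ : ∃ α β, C (MvPolynomial.C π * red.D₀) = α * red.χ + β * χ
  c_ne : (c : Λ) ≠ 0
  ec : ∃ α β, C (MvPolynomial.C c * red.D₀) = α * χ + β * derivative χ
  prim : ∀ y h, (∀ i, ‖y i‖ ≤ 1) → ev2 (OL B).subtype y h χ = 0 →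
    ‖MvPolynomial.eval₂ (OL B).subtype y red.D₀‖ = 1 →
      ‖fun i => ev2 (OL B).subtype y h (pp i)‖ = 1
  ne0 : ∀ y h, ev2 (OL B).subtype y h χ = 0 → MvPolynomial.eval₂ (OL B).subtype y red.D₀ ≠ 0 →
    (fun i => ev2 (OL B).subtype y h (pp i)) ≠ 0
  irr : Irreducible (mq (OL B).subtype χ)

/-- a form that is not a zero divisor on the reduced special fibre -/
def NZ (J : Ideal (MvPolynomial (Fin (N + 1)) K)) {B : IntermediateField K Λ}
    (Ξ : MvPolynomial (Fin (N + 1)) (OL B)) : Prop :=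
  (∃ k, Ξ.IsHomogeneous k) ∧ ∀ (F : MvPolynomial (Fin (N + 1)) (kk Λ)) (k : ℕ), F.IsHomogeneous k →
    (∀ v : Fin (N + 1) → Λ, PrimX J v → ‖MvPolynomial.eval₂ (OL B).subtype v Ξ‖ = 1 →
      MvPolynomial.eval (fun a => rs (v a)) F = 0) →
    ∀ v : Fin (N + 1) → Λ, PrimX J v → MvPolynomial.eval (fun a => rs (v a)) F = 0

namespace QChart

variable {J : Ideal (MvPolynomial (Fin (N + 1)) K)} {B : IntermediateField K Λ} (𝒞 : QChart J B)

/-- the dimension -/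
abbrev d : ℕ := 𝒞.red.d
/-- the lift of the reduced equation -/
abbrev ϑ : MP 𝒞.d (OL B) := 𝒞.red.χ
/-- the polynomial that defines the good locus -/
abbrev D₀ : MvPolynomial (Fin 𝒞.d) (OL B) := 𝒞.red.D₀

/-- homogeneous coordinates of the point `(y, h)` -/
noncomputable def pv (y : Fin 𝒞.d → Λ) (h : Λ) : Fin (N + 1) → Λ :=
  fun i => ev2 (OL B).subtype y h (𝒞.pp i)

/-- the image of `(y, h)` in projective space -/
noncomputable def io (y : Fin 𝒞.d → Λ) (h : Λ) : PY Λ N := pj (𝒞.pv y h)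

/-- good points -/
structure Gd (y : Fin 𝒞.d → Λ) (h : Λ) : Prop where
  y_le : ∀ i, ‖y i‖ ≤ 1
  h_le : ‖h‖ ≤ 1
  on : ev2 (OL B).subtype y h 𝒞.χ = 0
  unit : ‖MvPolynomial.eval₂ (OL B).subtype y 𝒞.D₀‖ = 1

/-- good points over `L` -/
structure GdL (L : IntermediateField K Λ) (y : Fin 𝒞.d → Λ) (h : Λ) : Prop where
  gd : 𝒞.Gd y h
  y_mem : ∀ i, y i ∈ L
  h_mem : h ∈ L

/-- the multiplicity of the special fibre -/
noncomputable def mu (a : Fin 𝒞.d → kk Λ) (c : kk Λ) : ℕ :=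
  (𝒞.χ.map (MvPolynomial.eval₂Hom (rL B) a)).rootMultiplicity c

/-- the points at which `Ξ` is a unit are good points of the chart -/
def Covers (Ξ : MvPolynomial (Fin (N + 1)) (OL B)) : Prop :=
  ∃ (cy : (Fin (N + 1) → Λ) → Fin 𝒞.d → Λ) (ch : (Fin (N + 1) → Λ) → Λ), ∀ v, PrimX J v →
    ‖MvPolynomial.eval₂ (OL B).subtype v Ξ‖ = 1 → 𝒞.Gd (cy v) (ch v) ∧ pj v = 𝒞.io (cy v) (ch v) ∧
      (∀ L : IntermediateField K Λ, B ≤ L → (∀ i, v i ∈ L) → (∀ i, cy v i ∈ L) ∧ ch v ∈ L) ∧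
      ∀ v', PrimX J v' → (∀ i, ‖v' i - v i‖ < 1) →
        (∀ i, ‖cy v' i - cy v i‖ < 1) ∧ ‖ch v' - ch v‖ < 1

/-- the chart is regular and generically etale at the point `(y, h)` -/
structure Rg (y : Fin 𝒞.d → Λ) (h : Λ) : Prop where
  y_le : ∀ i, ‖y i‖ ≤ 1
  h_le : ‖h‖ ≤ 1
  on : ev2 (OL B).subtype y h 𝒞.χ = 0
  der : ev2 (OL B).subtype y h (derivative 𝒞.χ) ≠ 0
  prim : ‖𝒞.pv y h‖ = 1
  reg : ∀ (L : IntermediateField K Λ) (y₀ : Fin 𝒞.d → Λ) (h₀ : Λ), B ≤ L → UnrF (𝒞.π : Λ) L →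
    (∀ i, y₀ i ∈ L) → h₀ ∈ L → (∀ i, ‖y₀ i - y i‖ < 1) → ‖h₀ - h‖ < 1 →
    (∀ ν θ, (∀ i, ‖ν i‖ ≤ 1) → ‖θ‖ ≤ 1 → ‖dir (OL B).subtype y₀ h₀ ν θ 𝒞.χ‖ < 1) →
      ‖(𝒞.π : Λ)‖ ≤ ‖ev2 (OL B).subtype y₀ h₀ 𝒞.χ‖

/-- the point `P` is a regular point of the chart -/
def Adapted (P : Fin (N + 1) → Λ) : Prop :=
  ∃ y h, 𝒞.Rg y h ∧ pj P = 𝒞.io y h ∧ ∀ L : IntermediateField K Λ, B ≤ L → (∀ i, P i ∈ L) →
    (∀ i, y i ∈ L) ∧ h ∈ L

/-- the plane curve over a curve with coefficients in `Λ` -/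
noncomputable abbrev cL (lam : Fin 𝒞.d → Λ[X]) : Λ[X][X] := cv (OL B).subtype lam 𝒞.χ

/-- push-forward of divisors on a curve -/
noncomputable def Pf (lam : Fin 𝒞.d → Λ[X]) : (Λ × Λ →₀ ℤ) →+ (PY Λ N →₀ ℤ) :=
  psh fun Q => 𝒞.io (fun i => (lam i).eval Q.1) Q.2

/-- the points of the residue disc of `h₀` with `y = R(ϑ)` -/
def tp (h₀ : Λ) (R : Fin 𝒞.d → Λ⟦X⟧) : Set (Λ × Λ) :=
  {Q | ‖Q.1‖ < 1 ∧ ‖Q.2 - h₀‖ < 1 ∧ ev2 (OL B).subtype (fun j => ev Q.1 (R j)) Q.2 𝒞.ϑ = Q.1 ∧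
    ev2 (OL B).subtype (fun j => ev Q.1 (R j)) Q.2 𝒞.χ = 0}

/-- the transversal cycle -/
noncomputable def Qc (h₀ : Λ) (R : Fin 𝒞.d → Λ⟦X⟧) : PY Λ N →₀ ℤ :=
  ∑ᶠ Q ∈ 𝒞.tp h₀ R, Finsupp.single (𝒞.io (fun j => ev Q.1 (R j)) Q.2) 1

/-- the parametrisation of the transversal cycles of a residue disc -/
noncomputable def Jm (h₀ : Λ) : GA (Fin 𝒞.d → Λ⟦X⟧) →+ (PY Λ N →₀ ℤ) :=
  (lsum (𝒞.Qc h₀)).comp AddMonoidAlgebra.coeffAddEquiv.toAddMonoidHom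

/-- series over `L` with good reduction -/
structure GS (L : IntermediateField K Λ) (R : Fin 𝒞.d → Λ⟦X⟧) (h₀ : Λ) : Prop where
  mem : ∀ j, R j ∈ SL L
  h_mem : h₀ ∈ OL L
  gk : 𝒞.red.Gk (fun j => rs (c0 (R j))) (rs h₀)

/-- the standard transversal cycle over a point of the special fibre -/
noncomputable def Lq (p : ℕ) (a : Fin 𝒞.d → kk Λ) (c : kk Λ) : PY Λ N →₀ ℤ :=
  𝒞.Qc (teich p c) fun j => PowerSeries.C (teich p (a j))

/-- lifts of divisors on a curve in the reduced special fibre -/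
noncomputable def Lf (p : ℕ) (lam : Fin 𝒞.d → (kk Λ)[X]) :
    (kk Λ × kk Λ →₀ ℤ) →+ (PY Λ N →₀ ℤ) :=
  lsum fun Q => 𝒞.Lq p (fun i => (lam i).eval Q.1) Q.2

/-- the filtration of the parameter space -/
abbrev fl (L : IntermediateField K Λ) : ℕ → AddSubgroup (Fin 𝒞.d → Λ⟦X⟧) :=
  piFil 𝒞.d (fS L (𝒞.π : Λ))

/-- classes of products of differences over `L` -/
noncomputable def SigL (L : IntermediateField K Λ) (s w : ℕ) : AddSubgroup (VV Λ J) :=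
  ⨆ (R : Fin 𝒞.d → Λ⟦X⟧) (h₀ : Λ) (_ : 𝒞.GS L R h₀),
    (II (𝒞.fl L) R s w).map ((clL J L).comp (𝒞.Jm h₀))

/-- classes of transversal cycles over `L` -/
noncomputable def TL (L : IntermediateField K Λ) : AddSubgroup (VV Λ J) :=
  AddSubgroup.closure {v | ∃ R h, 𝒞.GS L R h ∧ v = clL J L (𝒞.Qc h R)}

/-- differences of good points at distance less than `r` -/
noncomputable def Sm (r : ℝ) : AddSubgroup (VV Λ J) :=
  AddSubgroup.closure {v | ∃ (L : IntermediateField K Λ) (y y' : Fin 𝒞.d → Λ) (h h' : Λ),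
    FiniteDimensional K L ∧ B ≤ L ∧ 𝒞.GdL L y h ∧ 𝒞.GdL L y' h' ∧ (∀ i, ‖y' i - y i‖ < r) ∧
      ‖h' - h‖ < r ∧
        v = clL J L (Finsupp.single (𝒞.io y' h') 1 - Finsupp.single (𝒞.io y h) 1)}

variable {p : ℕ} (T : Tower p B)

/-- products of at most `s` differences of weight `w` over `U n` -/
noncomputable def Sig (n s w : ℕ) : AddSubgroup (VV Λ J) := 𝒞.SigL (T.U n) s w

/-- the same over all unramified extensions -/
noncomputable def FF (s w : ℕ) : AddSubgroup (VV Λ J) := ⨆ (n : ℕ) (_ : 0 < n), 𝒞.Sig T n s w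

/-- the weight filtration -/
noncomputable def Gw (w : ℕ) : AddSubgroup (VV Λ J) := ⨆ s : ℕ, 𝒞.FF T s w

/-- differences of congruent transversal cycles -/
noncomputable def Vu : AddSubgroup (VV Λ J) := 𝒞.Gw T 1

/-- all transversal cycles -/
noncomputable def UU : AddSubgroup (VV Λ J) := ⨆ (n : ℕ) (_ : 0 < n), 𝒞.TL (T.U n)

/-- the sum of all nice subgroups -/
noncomputable def NB : AddSubgroup (VV Λ J) := sSup {H | H ≤ 𝒞.Vu T ∧ ∀ x ∈ H, Nice p H x}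

end QChart

end Pool.Agent.ZeroCyc
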