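import Pool.Agent.Lib.MP_796ce4_ag.ZQ.QSig

/-! Close series give close transversal points. -/

namespace Pool.Agent.ZeroCyc

open Polynomial Module
open scoped Classical IntermediateField PowerSeries

set_option linter.unusedSectionVars false

variable {p : ℕ} {K Λ : Type} [Field K] [CharZero K] [NormedField Λ] [IsUltrametricDist Λ]
  [IsAlgClosed Λ] [Algebra K Λ] [IsGalois K Λ] [Loc p K Λ] [Fact p.Prime] [CharP (kk Λ) p]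
variable {N : ℕ} {J : Ideal (MvPolynomial (Fin (N + 1)) K)} {B L : IntermediateField K Λ}

theorem rm_tri {a b c : Λ} {ε : ℝ} (h1 : ‖a - b‖ < ε) (h2 : ‖b - c‖ < ε) : ‖a - c‖ < ε := by
  rw [← sub_add_sub_cancel a b c]
  exact (IsUltrametricDist.norm_add_le_max _ _).trans_lt (max_lt h1 h2)

theorem rm_mem {π t : Λ} {m : ℕ} {E : Λ[X]} (h : Eis L π m E) :
    t ∈ E.roots.toFinset ↔ E.eval t = 0 :=
  Multiset.mem_toFinset.trans (mem_roots h.monic.ne_zero)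

include p in
theorem rm_near [FiniteDimensional K L] {π t t' : Λ} {f f' : Λ⟦X⟧} {k : ℕ} {ρ r : ℝ}
    (hf : f ∈ SL L) (hf' : f' ∈ SL L) (h : f' - f ∈ fS L π k) (hπ : ‖π‖ ≤ ρ) (ht : ‖t‖ ≤ ρ)
    (ht' : ‖t'‖ ≤ ρ) (hρ : ρ < 1) (hk : ρ ^ k < r) (htt : ‖t' - t‖ < r) :
    ‖ev t' f' - ev t f‖ < r := by
  refine rm_tri (b := ev t' f) ?_
    ((ev_sub_le (p := p) (ht'.trans_lt hρ) (ht.trans_lt hρ) hf).trans_lt htt)
  rw [← ev_sub (p := p) (ht'.trans_lt hρ) hf' hf]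
  exact (ev_le (p := p) h hπ ht' hρ).trans_lt hk

include K in
theorem rm_eps {π : Λ} (hπ : π ≠ 0) {r : ℝ} (hr : 0 < r) (δ : ℕ) :
    ∃ ε, 0 < ε ∧ ε ≤ r ∧ ε ≤ 1 ∧ ∀ m : ℕ, 0 < m → m ≤ δ → ε ≤ ‖(m : Λ)‖ * ‖π‖ := by
  have : CharZero Λ := charZero_of_injective_algebraMap (algebraMap K Λ).injective
  induction δ with
  | zero => exact ⟨min r 1, lt_min hr one_pos, min_le_left _ _, min_le_right _ _,
      fun m h1 h2 => absurd h2 h1.not_ge⟩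
  | succ d ih =>
    obtain ⟨ε, h1, h2, h3, h4⟩ := ih
    refine ⟨min ε (‖((d + 1 : ℕ) : Λ)‖ * ‖π‖), lt_min h1 (mul_pos
      (norm_pos_iff.2 (Nat.cast_ne_zero.2 d.succ_ne_zero)) (norm_pos_iff.2 hπ)),
      (min_le_left _ _).trans h2, (min_le_left _ _).trans h3, fun m h5 h6 => ?_⟩
    rcases h6.lt_or_eq with h7 | rfl
    · exact (min_le_left _ _).trans (h4 m h5 (Nat.lt_succ_iff.1 h7))
    · exact min_le_right _ _

theorem rm_rho {a : ℝ} (h0 : 0 ≤ a) (h1 : a < 1) {δ : ℕ} (hδ : 0 < δ) : ∃ ρ, 0 ≤ ρ ∧ ρ < 1 ∧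
    a ≤ ρ ∧ ∀ (x : ℝ) (m : ℕ), 0 ≤ x → x < 1 → m ≤ δ → x ^ m = a → x ≤ ρ := by
  have h2 : 0 ≤ a ^ (δ : ℝ)⁻¹ := Real.rpow_nonneg h0 _
  have h3 : (a ^ (δ : ℝ)⁻¹) ^ δ = a := Real.rpow_inv_natCast_pow h0 hδ.ne'
  generalize a ^ (δ : ℝ)⁻¹ = ρ at h2 h3
  have h4 : ρ < 1 := (pow_lt_one_iff_of_nonneg h2 hδ.ne').1 (h3 ▸ h1)
  refine ⟨ρ, h2, h4, h3 ▸ pow_le_of_le_one h2 h4.le hδ.ne', fun x m h5 h6 h7 h8 => ?_⟩
  refine (pow_le_pow_iff_left₀ h5 h2 hδ.ne').1 ?_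
  rw [h3, ← h8]
  exact pow_le_pow_of_le_one h5 h6.le h7

include p in
/-- matching the roots of two Eisenstein polynomials -/
theorem Eis.match {π : Λ} {m : ℕ} {E E' : Λ[X]} (h : Eis L π m E) (h' : Eis L π m E') (hL : π ∈ L)
    (hπ₀ : π ≠ 0) (hπ : ‖π‖ < 1) (hU : UnrF π L) {ε : ℝ} (h0 : 0 < ε) (hε : ε ≤ ‖(m : Λ)‖ * ‖π‖)
    (hE : ∀ t, E.eval t = 0 → ‖E'.eval t‖ < ε ^ m) : ∃ s : Finset (Λ × Λ),
      (∀ Q, Q ∈ s ↔ E.eval Q.1 = 0 ∧ E'.eval Q.2 = 0 ∧ ‖Q.2 - Q.1‖ < ε) ∧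
      (∀ {V : Type} [AddCommGroup V] (f : Λ → V),
        ∑ t ∈ E.roots.toFinset, f t = ∑ Q ∈ s, f Q.1 ∧
        ∑ t ∈ E'.roots.toFinset, f t = ∑ Q ∈ s, f Q.2) := by
  have h1 : ∀ t, E.eval t = 0 → ∃ t', E'.eval t' = 0 ∧ ‖t' - t‖ < ε := fun t ht => by
    obtain ⟨t', h2, h3⟩ := h'.exists_near t
    refine ⟨t', h2, ?_⟩
    rw [norm_sub_rev]
    exact lt_of_pow_lt_pow_left₀ m h0.le (h3.trans_lt (hE t ht))
  choose! g g1 g2 using h1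
  have i1 : Set.InjOn g E.roots.toFinset := fun t ht u hu e => by
    have ht' := (rm_mem h).1 (Finset.mem_coe.1 ht)
    have hu' := (rm_mem h).1 (Finset.mem_coe.1 hu)
    refine h.sep (p := p) hL hπ₀ hπ hU ht' hu' ((rm_tri (b := g t) ?_ ?_).trans_le hε)
    · rw [norm_sub_rev]
      exact g2 t ht'
    · rw [e]
      exact g2 u hu'
  have i2 : Set.InjOn (fun t => (t, g t)) E.roots.toFinset := fun t _ u _ e => congrArg Prod.fst e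
  have e1 : E.roots.toFinset.image g = E'.roots.toFinset := by
    refine Finset.eq_of_subset_of_card_le (fun u hu => ?_) ?_
    · obtain ⟨t, ht, rfl⟩ := Finset.mem_image.1 hu
      exact (rm_mem h').2 (g1 t ((rm_mem h).1 ht))
    · rw [Finset.card_image_of_injOn i1, h.card (p := p) hL hπ₀ hπ hU,
        h'.card (p := p) hL hπ₀ hπ hU]
  refine ⟨E.roots.toFinset.image fun t => (t, g t), fun Q => ⟨fun hQ => ?_, fun hQ => ?_⟩,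
    fun f => ⟨?_, ?_⟩⟩
  · obtain ⟨t, ht, rfl⟩ := Finset.mem_image.1 hQ
    have ht' := (rm_mem h).1 ht
    exact ⟨ht', g1 t ht', g2 t ht'⟩
  · refine Finset.mem_image.2 ⟨Q.1, (rm_mem h).2 hQ.1, Prod.ext rfl ?_⟩
    refine h'.sep (p := p) hL hπ₀ hπ hU (g1 _ hQ.1) hQ.2.1
      ((rm_tri (g2 _ hQ.1) ?_).trans_le hε)
    rw [norm_sub_rev]
    exact hQ.2.2
  · rw [Finset.sum_image i2]
  · rw [Finset.sum_image i2, ← e1, Finset.sum_image i1]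

namespace QChart

variable {𝒞 : QChart J B}

theorem RM (T : Tower p B) {r : ℝ} (hr : 0 < r) : ∃ M, 0 < M ∧ 𝒞.FF T 1 M ≤ 𝒞.Sm r := by
  obtain ⟨ε, ε0, εr, ε1, εm⟩ := rm_eps (K := K) 𝒞.π_ne hr 𝒞.δ
  obtain ⟨ρ, ρ0, ρ1, ρπ, ρt⟩ := rm_rho (norm_nonneg (𝒞.π : Λ)) 𝒞.π_lt (δ_pos (𝒞 := 𝒞))
  obtain ⟨M, hM⟩ := exists_pow_lt_of_lt_one (pow_pos ε0 𝒞.δ) ρ1
  have hM1 : ρ ^ (M + 1) < ε ^ 𝒞.δ := (pow_le_pow_of_le_one ρ0 ρ1.le M.le_succ).trans_lt hM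
  have hM2 : ρ ^ (M + 1) < r :=
    hM1.trans_le ((pow_le_of_le_one ε0.le ε1 (δ_pos (𝒞 := 𝒞)).ne').trans εr)
  refine ⟨M + 1, M.succ_pos, FF_le_diff (m := M) (by omega) fun n hn R h hR v hv => ?_⟩
  have := T.fin n hn
  have hB := T.le n
  have hU : UnrF (𝒞.π : Λ) (T.U n) := unrF hn
  generalize T.U n = L at *
  have hv1 : R + v - R ∈ 𝒞.fl L (M + 1) := by rwa [add_sub_cancel_left]
  generalize R + v = R' at *
  obtain ⟨hR', e3⟩ := hR.move (fl_anti (Nat.le_add_left 1 M) hv1)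
  have hRv : ∀ j, R' j - R j ∈ fS L (𝒞.π : Λ) (M + 1) := mem_fl.1 hv1
  obtain ⟨H, E, ht⟩ := hR.exists_tpd (p := p) hB hU
  obtain ⟨H', E', ht'⟩ := hR'.exists_tpd (p := p) hB hU
  have hE := ht.eis
  have hE' := ht'.eis
  rw [funext e3] at hE'
  have hm := mu_le (𝒞 := 𝒞) (fun j => rs (c0 (R j))) (rs h)
  generalize 𝒞.mu (fun j => rs (c0 (R j))) (rs h) = m at hE hE' hm
  have hH : H' - H ∈ fS L (𝒞.π : Λ) (M + 1) := hR.sub_mem hB hRv e3 ht.mem ht'.mem ht.near ht'.near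
    (by rw [ht'.eq, ht.eq, sub_self]; exact zero_mem _)
  have hρ : ∀ {G : Λ[X]}, Eis L (𝒞.π : Λ) m G → ∀ t, G.eval t = 0 → ‖t‖ ≤ ρ := fun hG t h0 =>
    ρt _ m (norm_nonneg t) (hG.norm_root 𝒞.π_lt h0).2.1 hm (hG.norm_root 𝒞.π_lt h0).1
  obtain ⟨s, hs, hsum⟩ := hE.match (p := p) hE' (π_mem hB) 𝒞.π_ne 𝒞.π_lt hU ε0 (εm m hE.pos hm)
    fun t h0 => by
      have h1 := (hρ hE t h0).trans_lt ρ1
      have h2 := ht.norm t h1
      rw [h0, norm_zero, norm_eq_zero] at h2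
      have h3 := ev_le (p := p) (ev2_sub_mem 𝒞.π_lt (cS_mem hB) hR.mem hRv ht.mem hH 𝒞.χ) ρπ
        (hρ hE t h0) ρ1
      rw [ev_sub (p := p) h1 (ev2_mem_SL (cS_mem hB) hR'.mem ht'.mem _)
        (ev2_mem_SL (cS_mem hB) hR.mem ht.mem _), h2, sub_zero, ht'.norm t h1] at h3
      exact (h3.trans_lt hM1).trans_le (pow_le_pow_of_le_one ε0.le ε1 hm)
  have e : ∀ σ : Λ ≃ₐ[K] Λ, Fix L σ → ∀ t, ∀ f ∈ SL L, ev (σ t) f = σ (ev t f) :=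
    fun σ hσ t f hf => by rw [← ev_gal (p := p), gS_eq hσ hf]
  have h1 := orb_mem₂ (J := J) L (∑ Q ∈ s, Finsupp.single Q 1)
    (fun σ hσ => by
      rw [map_sum]
      refine Finset.sum_equiv (σ.toEquiv.prodCongr σ.toEquiv) (fun Q => ?_)
        fun Q _ => psh_single _ _ _
      rw [hs, hs]
      change _ ↔ E.eval (σ Q.1) = 0 ∧ E'.eval (σ Q.2) = 0 ∧ ‖σ Q.2 - σ Q.1‖ < ε
      rw [← hE.ov.apply_eval hσ, ← hE'.ov.apply_eval hσ, map_eq_zero, map_eq_zero, ← map_sub,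
        Loc.norm_gal])
    (fun Q => Finsupp.single (𝒞.io (fun j => ev Q.2 (R' j)) (ev Q.2 H')) 1 -
      Finsupp.single (𝒞.io (fun j => ev Q.1 (R j)) (ev Q.1 H)) 1)
    (fun σ Q hσ _ => by
      rw [map_sub, galC_single, galC_single, ← io_gal (hσ.mono hB), ← io_gal (hσ.mono hB)]
      change Finsupp.single (𝒞.io (fun j => ev (σ Q.2) (R' j)) (ev (σ Q.2) H')) 1 -
        Finsupp.single (𝒞.io (fun j => ev (σ Q.1) (R j)) (ev (σ Q.1) H)) 1 = _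
      rw [funext fun j => e σ hσ Q.1 (R j) (hR.mem j), funext fun j => e σ hσ Q.2 (R' j) (hR'.mem j),
        e σ hσ Q.1 H ht.mem, e σ hσ Q.2 H' ht'.mem]) (𝒞.Sm r)
    (fun Q hQ L' hL hf m1 m2 => by
      rw [Finsupp.finsetSum_apply] at hQ
      obtain ⟨Q', hQ', h2⟩ := Finset.exists_ne_zero_of_sum_ne_zero hQ
      obtain rfl : Q = Q' := (Finsupp.single_apply_ne_zero.1 h2).1
      obtain ⟨q1, q2, q3⟩ := (hs Q).1 hQ'
      have r1 := hρ hE _ q1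
      have r2 := hρ hE' _ q2
      exact AddSubgroup.subset_closure ⟨L', _, _, _, _, hf, hB.trans hL,
        ⟨(hR.tp_gd (p := p) ((ht.tp (Q.1, ev Q.1 H)).2 ⟨q1, rfl⟩)).1,
          fun j => ev_mem (p := p) (r1.trans_lt ρ1) (hR.mem j) hL m1,
          ev_mem (p := p) (r1.trans_lt ρ1) ht.mem hL m1⟩,
        ⟨(hR'.tp_gd (p := p) ((ht'.tp (Q.2, ev Q.2 H')).2 ⟨q2, rfl⟩)).1,
          fun j => ev_mem (p := p) (r2.trans_lt ρ1) (hR'.mem j) hL m2,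
          ev_mem (p := p) (r2.trans_lt ρ1) ht'.mem hL m2⟩,
        fun j => rm_near (p := p) (hR.mem j) (hR'.mem j) (hRv j) ρπ r1 r2 ρ1 hM2 (q3.trans_le εr),
        rm_near (p := p) ht.mem ht'.mem hH ρπ r1 r2 ρ1 hM2 (q3.trans_le εr), rfl⟩)
  rw [← lsum_apply, map_sum] at h1
  simp only [lsum_single, one_smul] at h1
  rwa [ht.Qc_eq, ht'.Qc_eq, (hsum _).1, (hsum _).2, ← Finset.sum_sub_distrib]

end QChart

end Pool.Agent.ZeroCyc
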