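import Pool.Agent.Lib.MP_796ce4_ag.ZQ.CMain
import Pool.Agent.Lib.MP_796ce4_ag.ZQ.CModC
import Pool.Agent.Lib.MP_796ce4_ag.ZQ.KeyB
import Pool.Agent.Lib.MP_796ce4_ag.ZQ.RM
import Pool.Agent.Lib.MP_796ce4_ag.ZQ.MJ
import Pool.Agent.Lib.MP_796ce4_ag.ZQ.MK
import Pool.Agent.Lib.MP_796ce4_ag.ZQ.MH
import Pool.Agent.Lib.MP_796ce4_ag.ZY.Pack
import Pool.Agent.Lib.MP_796ce4_ag.ZY.ML1
import Pool.Agent.Lib.MP_796ce4_ag.ZY.LocInst

/-! The structure theorem for regular models. -/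

namespace Pool.Agent.ZeroCyc

open Polynomial Module
open scoped Classical IntermediateField PowerSeries

set_option linter.unusedSectionVars false

section

variable {p : ℕ} {K Λ : Type} [Field K] [CharZero K] [NormedField Λ] [IsUltrametricDist Λ]
  [IsAlgClosed Λ] [Algebra K Λ] [IsGalois K Λ] [Loc p K Λ] [Fact p.Prime] [CharP (kk Λ) p]
variable {N : ℕ} {J : Ideal (MvPolynomial (Fin (N + 1)) K)} {B L : IntermediateField K Λ} {π : Λ}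

theorem RegX.mem_UU (hX : RegX J π) (T : Tower p B) (hU : UnrF π B) {𝒞 : QChart J B}
    {Ξ : MvPolynomial (Fin (N + 1)) (OL B)} (hΞ : NZ J Ξ) (hc : 𝒞.Covers Ξ)
    [FiniteDimensional K L] (hB : B ≤ L) {y : PY Λ N} (hy : XP J L y) :
    clL J L (Finsupp.single y 1) ∈ 𝒞.UU T := by
  obtain ⟨P, hP, hPL, rfl⟩ := hy.exists_prim hX.smul
  obtain ⟨cy, ch, hc⟩ := hc
  have hB' : FiniteDimensional K B := by
    exact Module.Finite.of_injective (IntermediateField.inclusion hB).toLinearMap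
      (IntermediateField.inclusion_injective hB)
  refine mem_of_coprime fun l hl => ?_
  obtain ⟨i, 𝒞', -, ⟨y', h', hE, hio, hmem⟩, hunit, -⟩ := exists_qchart hX T hU hΞ hP one_pos
    (l := l + 1) (Nat.succ_le_succ hl.one_le)
  have hj : 0 < (l + 1) ^ i := pow_pos l.succ_pos i
  obtain ⟨hfin, c, hcd, hrk⟩ := T.finrank_sup one_pos hj (T.U_one.le.trans hB)
  refine ⟨c, fun h => hl.one_lt.ne' (Nat.dvd_one.1 ((Nat.dvd_add_right dvd_rfl).1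
    (hl.dvd_of_dvd_pow (h.trans hcd)))), ?_⟩
  rw [← clL_eq_nsmul hrk, hio]
  have := T.fin _ (Nat.mul_pos one_pos hj)
  obtain ⟨T'⟩ := exists_tower (p := p) (T.U (1 * (l + 1) ^ i))
  obtain ⟨hy', hh'⟩ := hmem (L ⊔ T.U (1 * (l + 1) ^ i)) le_sup_right fun a =>
    (le_sup_left : L ≤ _) (hPL a)
  refine QChart.ML1 T' le_sup_right hE hy' hh' fun L'' y'' h'' hL'' hf hg => ?_
  have hB'' : B ≤ L'' := (T.le _).trans hL''
  obtain ⟨h1, h2, h3, -⟩ := hc _ hg.gd.primX (hunit _ _ hg.gd)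
  obtain ⟨h4, h5⟩ := h3 L'' hB'' (QChart.pv_mem hL'' hg.y_mem hg.h_mem)
  rw [show 𝒞'.io y'' h'' = 𝒞.io _ _ from h2]
  exact QChart.ML2_UU T hB'' ⟨h1, h4, h5⟩

theorem RegX.nonneg (hX : RegX J π) (T : Tower p B) (hU : UnrF π B) {𝒞 : QChart J B}
    {Ξ : MvPolynomial (Fin (N + 1)) (OL B)} (hΞ : NZ J Ξ) (hc : 𝒞.Covers Ξ) (ℓ : VV Λ J →+ ℚ)
    (hℓ : ∀ x ∈ 𝒞.Vu T, ℓ x = 0) (h0 : ∀ y h, 𝒞.Gd y h → 0 ≤ psi J ℓ (𝒞.io y h))
    (v : Fin (N + 1) → Λ) (hv : v ≠ 0) (hon : OnX J v) : 0 ≤ psi J ℓ (pj v) := by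
  obtain ⟨P, hP, -, e⟩ := XP.exists_prim (L := ⊤) hX.smul ⟨v, hv, hon, fun _ => trivial, rfl⟩
  obtain ⟨cy, ch, hc⟩ := hc
  obtain ⟨i, 𝒞', -, ⟨y', h', hE, hio, -⟩, hunit, -⟩ := exists_qchart hX T hU hΞ hP one_pos le_rfl
  have := T.fin _ (Nat.mul_pos one_pos (pow_pos two_pos i))
  obtain ⟨T'⟩ := exists_tower (p := p) (T.U (1 * 2 ^ i))
  rw [e, hio]
  refine QChart.CVX T' (QChart.kill_Vu T' fun y h y₁ h₁ hg hg₁ hy hh => ?_) (fun y h hg => ?_) hE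
  · obtain ⟨h1, h2, -, h3⟩ := hc _ hg.primX (hunit _ _ hg)
    obtain ⟨h4, h5, -⟩ := hc _ hg₁.primX (hunit _ _ hg₁)
    obtain ⟨h6, h7⟩ := h3 _ hg₁.primX (QChart.pv_congr hg.y_le hg.h_le hy hh)
    rw [show 𝒞'.io y h = 𝒞.io _ _ from h2, show 𝒞'.io y₁ h₁ = 𝒞.io _ _ from h5]
    exact QChart.psi_eq T hℓ h1 h4 h6 h7
  · obtain ⟨h1, h2, -⟩ := hc _ hg.primX (hunit _ _ hg)
    rw [show 𝒞'.io y h = 𝒞.io _ _ from h2]
    exact h0 _ _ h1

theorem RegX.pack (hX : RegX J π) [FiniteDimensional K B] (hU : UnrF π B) {𝒞 : QChart J B}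
    {Ξ : MvPolynomial (Fin (N + 1)) (OL B)} (hΞ : NZ J Ξ) (hc : 𝒞.Covers Ξ) :
    ∃ V U, Pack p J B V U := by
  obtain ⟨T⟩ := exists_tower (p := p) B
  obtain ⟨r, hr, h1⟩ := 𝒞.Sm_le_NB T
  obtain ⟨M, hM, h2⟩ := 𝒞.RM T hr
  have h3 := h2.trans h1
  have h4 : FinMod (𝒞.Vu T) (mulS p (𝒞.NB T)) := (QChart.Vu_fin hM).mono h3
  refine ⟨𝒞.NB T, 𝒞.UU T, QChart.NB_le.trans QChart.Vu_le_Azero, fun _ hx => QChart.NB_nice hx,
    h4.sub QChart.NB_le (mulS_le _ _), QChart.UU_le_Atot,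
    (𝒞.UU_fin T).trans (h4.mono (mulS_le _ _)) QChart.Vu_le_UU, fun x hx h0 => ?_,
    fun L hL _ y hy => hX.mem_UU T hU hΞ hc hL hy⟩
  obtain ⟨m, hm, hx'⟩ := QChart.UU_tor T (hX.nonneg T hU hΞ hc) hx h0
  obtain ⟨w, hw⟩ := QChart.Vu_tors (𝒞 := 𝒞) (T := T) M
  refine ⟨p ^ w * m, Nat.mul_pos (pow_pos (Fact.out : p.Prime).pos _) hm, ?_⟩
  rw [mul_smul]
  exact mulS_le _ _ (h3 (hw _ hx'))

include p in
theorem RegX.main (hX : RegX J π) : ∃ (n : ℕ) (F : Type) (_ : AddCommGroup F) (_ : Finite F),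
    Nonempty ((A0 J Λ ⧸ maxDiv (A0 J Λ)) ≃+ (Fin n → ℤ_[p]) × F) := by
  obtain ⟨T⟩ := exists_tower (p := p) (⊥ : IntermediateField K Λ)
  obtain ⟨e₁⟩ := A0_equiv (J := J) (Λ := Λ) hX.smul
  obtain ⟨e₂⟩ := maxDiv_congr e₁
  obtain ⟨n, F, iF, hF, ⟨e⟩⟩ := zp_of_pack (J := J) T (fun L y hL hy => by
    obtain ⟨P, hP, -, -⟩ := hy.exists_prim hX.smul
    refine ⟨1, one_pos, by rw [T.U_one]; exact bot_le, fun l hl => ?_⟩
    obtain ⟨i, 𝒞, -, -, -, Ξ, hΞ, hc⟩ := exists_qchart hX T hX.unr (nz_one ⊥) hP one_pos hl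
    have hn : 0 < 1 * l ^ i := Nat.mul_pos one_pos (pow_pos (by omega) _)
    have := T.fin _ hn
    exact ⟨i, hX.pack (T.unrF hX.unr hn) hΞ hc⟩)
  exact ⟨n, F, iF, hF, ⟨e₂.trans e⟩⟩

end

section

variable (p : ℕ) [Fact p.Prime] (K Λ : Type) [Field K] [NormedField Λ] [IsUltrametricDist Λ]
  [IsAlgClosed Λ] [NormedAlgebra ℚ_[p] Λ] [Algebra ℚ_[p] K] [Algebra K Λ]
  [IsScalarTower ℚ_[p] K Λ] [FiniteDimensional ℚ_[p] K] [Algebra.IsAlgebraic K Λ]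

theorem isIntegral_of_norm_le_one [Algebra ℤ_[p] K] [IsScalarTower ℤ_[p] ℚ_[p] K] {x : K}
    (hx : ‖algebraMap K Λ x‖ ≤ 1) : IsIntegral ℤ_[p] x := by
  have : Algebra.IsAlgebraic ℚ_[p] Λ := Algebra.IsAlgebraic.trans ℚ_[p] K Λ
  have hm := minpoly.monic (Algebra.IsIntegral.isIntegral (R := ℚ_[p]) x)
  rw [NormedAlgebra.norm_eq_spectralNorm ℚ_[p], spectralNorm,
    minpoly.algebraMap_eq (algebraMap K Λ).injective, spectralValue_le_one_iff hm] at hx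
  obtain ⟨g, hg, -, hgm⟩ := lifts_and_natDegree_eq_and_monic (f := algebraMap ℤ_[p] ℚ_[p])
    ((lifts_iff_coeff_lifts _).2 fun n => ⟨⟨_, hx n⟩, rfl⟩) hm
  refine ⟨g, hgm, ?_⟩
  rw [IsScalarTower.algebraMap_eq ℤ_[p] ℚ_[p] K, ← eval₂_map, hg]
  exact minpoly.aeval ℚ_[p] x

end

theorem final_reg (p : ℕ) [Fact p.Prime] (K : Type) [Field K] [Algebra ℚ_[p] K]
    [FiniteDimensional ℚ_[p] K] [Algebra ℤ_[p] K] [IsScalarTower ℤ_[p] ℚ_[p] K] {N : ℕ}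
    (I : Ideal (MvPolynomial (Fin (N + 1)) (integralClosure ℤ_[p] K)))
    (hI : RegModel (integralClosure ℤ_[p] K) I) :
    ∃ (n : ℕ) (F : Type) (_ : AddCommGroup F) (_ : Finite F), Nonempty
      ((A0 (I.map (MvPolynomial.map (algebraMap _ K))) (AlgebraicClosure K) ⧸
        maxDiv (A0 (I.map (MvPolynomial.map (algebraMap _ K))) (AlgebraicClosure K))) ≃+
          (Fin n → ℤ_[p]) × F) := by
  have : CharZero K := charZero_of_injective_algebraMap (algebraMap ℚ_[p] K).injective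
  have : Algebra.IsAlgebraic ℚ_[p] (AlgebraicClosure K) :=
    Algebra.IsAlgebraic.trans ℚ_[p] K (AlgebraicClosure K)
  let : NormedField (AlgebraicClosure K) := spectralNorm.normedField ℚ_[p] (AlgebraicClosure K)
  let : NormedAlgebra ℚ_[p] (AlgebraicClosure K) := spectralNorm.normedAlgebra _ _
  have : IsUltrametricDist (AlgebraicClosure K) :=
    IsUltrametricDist.isUltrametricDist_of_forall_norm_add_le_max_norm
      (isNonarchimedean_spectralNorm (K := ℚ_[p]) (L := AlgebraicClosure K))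
  have : Loc p K (AlgebraicClosure K) := loc_of_padic p K (AlgebraicClosure K)
  have : CharP (kk (AlgebraicClosure K)) p := tow_charP (p := p) (K := K)
  obtain ⟨π, hπ⟩ := exists_ints (p := p) (Λ := AlgebraicClosure K)
    (O := integralClosure ℤ_[p] K) (K := K)
    (fun c => norm_le_one_of_isIntegral p K (AlgebraicClosure K) c.2) Subtype.val_injective
    fun x hx => ⟨⟨x, isIntegral_of_norm_le_one p K (AlgebraicClosure K) hx⟩, rfl⟩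
  exact (hI.regX (p := p) rfl hπ).main (p := p)

end Pool.Agent.ZeroCyc
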