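import Pool.Agent.Lib.MP_796ce4_ag.ZY.ChartB
import Pool.Agent.Lib.MP_796ce4_ag.ZQ.Flt

/-! Power series with integral coefficients and the filtration by the powers of `(π, X)`. -/

namespace Pool.Agent.ZeroCyc

open Polynomial Module
open scoped Classical IntermediateField PowerSeries

set_option linter.unusedSectionVars false

section

variable {K Λ : Type} [Field K] [NormedField Λ] [IsUltrametricDist Λ] [Algebra K Λ]

/-- every element of `L` of norm less than one has norm at most `‖π‖` -/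
def UnrF (π : Λ) (L : IntermediateField K Λ) : Prop := ∀ x ∈ L, ‖x‖ < 1 → ‖x‖ ≤ ‖π‖

/-- power series with coefficients in the integers of `L` -/
noncomputable def SL (L : IntermediateField K Λ) : Subring Λ⟦X⟧ :=
  (PowerSeries.map (OL L).subtype).range

/-- the `k`-th power of the ideal `(π, X)` -/
def fS (L : IntermediateField K Λ) (π : Λ) (k : ℕ) : AddSubgroup Λ⟦X⟧ where
  carrier := {f | ∀ i, PowerSeries.coeff i f ∈ L ∧ ‖PowerSeries.coeff i f‖ ≤ ‖π‖ ^ (k - i)}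
  zero_mem' := fun i => ⟨by simp, by simp⟩
  add_mem' := fun h h' i => by
    rw [map_add]
    exact ⟨L.add_mem (h i).1 (h' i).1,
      (IsUltrametricDist.norm_add_le_max _ _).trans (max_le (h i).2 (h' i).2)⟩
  neg_mem' := fun h i => by
    rw [map_neg, norm_neg]
    exact ⟨L.neg_mem (h i).1, (h i).2⟩

/-- the constant coefficient -/
noncomputable abbrev c0 : Λ⟦X⟧ →+* Λ := PowerSeries.constantCoeff

/-- the constants -/
noncomputable abbrev cS (L : IntermediateField K Λ) : OL L →+* Λ⟦X⟧ :=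
  (PowerSeries.C (R := Λ)).comp (OL L).subtype

/-- the action on the coefficients -/
noncomputable abbrev gS (σ : Λ ≃ₐ[K] Λ) : Λ⟦X⟧ →+* Λ⟦X⟧ := PowerSeries.map (σ : Λ →+* Λ)

variable {L L' : IntermediateField K Λ} {π : Λ} {f g : Λ⟦X⟧} {k l : ℕ}

theorem mem_SL : f ∈ SL L ↔ ∀ i, PowerSeries.coeff i f ∈ OL L := by
  refine ⟨?_, fun h => ⟨PowerSeries.mk fun i => ⟨_, h i⟩, ?_⟩⟩
  · rintro ⟨F, rfl⟩ i
    rw [PowerSeries.coeff_map]
    exact (PowerSeries.coeff i F).2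
  · ext i
    rw [PowerSeries.coeff_map, PowerSeries.coeff_mk]
    rfl
theorem mem_fS : f ∈ fS L π k ↔
    ∀ i, PowerSeries.coeff i f ∈ L ∧ ‖PowerSeries.coeff i f‖ ≤ ‖π‖ ^ (k - i) := Iff.rfl
theorem fS_zero : f ∈ fS L π 0 ↔ f ∈ SL L := by
  simp only [mem_fS, mem_SL, mem_OL, Nat.zero_sub, pow_zero]
theorem fS_anti (hπ : ‖π‖ < 1) : Antitone (fS L π) := by
  intro k l h f hf i
  exact ⟨(hf i).1, (hf i).2.trans (pow_le_pow_of_le_one (norm_nonneg _) hπ.le (by omega))⟩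
theorem fS_le (hπ : ‖π‖ < 1) (h : f ∈ fS L π k) : f ∈ SL L := by
  exact fS_zero.1 (fS_anti hπ (Nat.zero_le k) h)
theorem fS_mono (h : L ≤ L') : fS L π k ≤ fS L' π k := by
  exact fun f hf i => ⟨h (hf i).1, (hf i).2⟩
theorem SL_mono (h : L ≤ L') : SL L ≤ SL L' := by
  exact fun f hf => mem_SL.2 fun i => OL_mono h (mem_SL.1 hf i)
theorem fS_of_mem (h : f ∈ fS L' π k) (h' : f ∈ SL L) : f ∈ fS L π k := by
  exact fun i => ⟨(mem_SL.1 h' i).1, (h i).2⟩
theorem fS_mul (hπ : ‖π‖ < 1) (h : f ∈ fS L π k) (h' : g ∈ fS L π l) :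
    f * g ∈ fS L π (k + l) := by
  intro n
  rw [PowerSeries.coeff_mul]
  refine ⟨L.sum_mem fun q _ => L.mul_mem (h _).1 (h' _).1, ?_⟩
  refine Finset.sum_induction _ (fun y : Λ => ‖y‖ ≤ ‖π‖ ^ (k + l - n))
    (fun a b ha hb => (IsUltrametricDist.norm_add_le_max a b).trans (max_le ha hb))
    (by simp) fun q hq => ?_
  have e := Finset.HasAntidiagonal.mem_antidiagonal.1 hq
  rw [norm_mul]
  refine (mul_le_mul (h _).2 (h' _).2 (norm_nonneg _) (by positivity)).trans ?_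
  rw [← pow_add]
  exact pow_le_pow_of_le_one (norm_nonneg _) hπ.le (by omega)
theorem fS_mul_left (hπ : ‖π‖ < 1) (h : f ∈ SL L) (h' : g ∈ fS L π l) : f * g ∈ fS L π l := by
  simpa using fS_mul hπ (fS_zero.2 h) h'
theorem fS_mul_right (hπ : ‖π‖ < 1) (h : f ∈ fS L π k) (h' : g ∈ SL L) : f * g ∈ fS L π k := by
  simpa using fS_mul hπ h (fS_zero.2 h')
theorem C_mem_fS {c : Λ} (hc : c ∈ L) (h : ‖c‖ ≤ ‖π‖ ^ k) : PowerSeries.C c ∈ fS L π k := by
  intro i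
  rw [PowerSeries.coeff_C]
  split_ifs with hi
  · subst hi
    exact ⟨hc, h⟩
  · exact ⟨L.zero_mem, by simp⟩
theorem C_mem_SL {c : Λ} (hc : c ∈ OL L) : PowerSeries.C c ∈ SL L := by
  exact ⟨PowerSeries.C ⟨c, hc⟩, PowerSeries.map_C _ _⟩
theorem cS_mem (h : L ≤ L') (c : OL L) : cS L c ∈ SL L' := C_mem_SL (OL_mono h c.2)
theorem X_mem_SL : (PowerSeries.X : Λ⟦X⟧) ∈ SL L := by
  exact ⟨PowerSeries.X, PowerSeries.map_X _⟩
theorem X_pow_mem_fS (k : ℕ) : (PowerSeries.X : Λ⟦X⟧) ^ k ∈ fS L π k := by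
  intro i
  rw [PowerSeries.coeff_X_pow]
  split_ifs with hi
  · subst hi
    exact ⟨L.one_mem, by simp⟩
  · exact ⟨L.zero_mem, by simp⟩
theorem c0_mem (h : f ∈ SL L) : c0 f ∈ OL L := by
  simpa using mem_SL.1 h 0
theorem c0_lt (hπ : ‖π‖ < 1) (h : f ∈ fS L π 1) : ‖c0 f‖ < 1 := by
  have := (h 0).2
  rw [PowerSeries.coeff_zero_eq_constantCoeff_apply, Nat.sub_zero, pow_one] at this
  exact this.trans_lt hπ
theorem fS_one (hU : UnrF π L) (h : f ∈ SL L) (h0 : ‖c0 f‖ < 1) : f ∈ fS L π 1 := by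
  intro i
  refine ⟨(mem_SL.1 h i).1, ?_⟩
  rcases i with _ | i
  · rw [PowerSeries.coeff_zero_eq_constantCoeff_apply, Nat.sub_zero, pow_one]
    exact hU _ (c0_mem h).1 h0
  · rw [show 1 - (i + 1) = 0 by omega, pow_zero]
    exact (mem_SL.1 h _).2
theorem sub_c0_mem (h : f ∈ SL L) : f - PowerSeries.C (c0 f) ∈ fS L π 1 := by
  intro i
  rcases i with _ | i
  · simp
  · rw [show 1 - (i + 1) = 0 by omega, pow_zero, map_sub, PowerSeries.coeff_succ_C, sub_zero]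
    exact mem_SL.1 h _
theorem SL_inv (h : f ∈ SL L) (h0 : ‖c0 f‖ = 1) : ∃ g ∈ SL L, g * f = 1 := by
  obtain ⟨F, rfl⟩ := h
  have hu : IsUnit F := PowerSeries.isUnit_iff_constantCoeff.2 (OL_isUnit.2 h0)
  obtain ⟨G, hG⟩ := hu.exists_left_inv
  exact ⟨_, ⟨G, rfl⟩, by rw [← map_mul, hG, map_one]⟩
theorem SL_isUnit {f : SL L} : IsUnit f ↔ ‖c0 (f : Λ⟦X⟧)‖ = 1 := by
  refine ⟨fun h => ?_, fun h => ?_⟩
  · obtain ⟨g, hg⟩ := h.exists_left_inv
    have h1 : ‖c0 (g : Λ⟦X⟧)‖ * ‖c0 (f : Λ⟦X⟧)‖ = 1 := by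
      rw [← norm_mul, ← map_mul, ← Subring.coe_mul, hg, Subring.coe_one, map_one, norm_one]
    refine le_antisymm (c0_mem f.2).2 (h1.symm.trans_le ?_)
    exact mul_le_of_le_one_left (norm_nonneg _) (c0_mem g.2).2
  · obtain ⟨g, hg, h1⟩ := SL_inv f.2 h
    exact IsUnit.of_mul_eq_one_right (⟨g, hg⟩ : SL L) (Subtype.ext h1)
theorem fS_cancel (hπ : ‖π‖ < 1) (h : f ∈ SL L) (h0 : ‖c0 f‖ = 1)
    (h1 : f * g ∈ fS L π k) : g ∈ fS L π k := by
  obtain ⟨u, hu, e⟩ := SL_inv h h0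
  have := fS_mul_left hπ hu h1
  rwa [← mul_assoc, e, one_mul] at this
theorem derivative_mem_SL (h : f ∈ SL L) : PowerSeries.derivative Λ f ∈ SL L := by
  refine mem_SL.2 fun i => ?_
  rw [PowerSeries.coeff_derivative]
  exact (OL L).mul_mem (mem_SL.1 h _) ((OL L).add_mem (natCast_mem _ i) (OL L).one_mem)

variable {R : Type} [CommRing R] {φ : R →+* Λ⟦X⟧}

theorem ser_eval (hφ : ∀ c, φ c ∈ SL L) (x : SL L) (u : R[X]) :
    u.eval₂ φ x = (((u.map (φ.codRestrict (SL L) hφ)).eval x : SL L) : Λ⟦X⟧) := by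
  rw [eval_map]
  exact (hom_eval₂ u (φ.codRestrict (SL L) hφ) (SL L).subtype x).symm
theorem ser_mem (hπ : ‖π‖ < 1) (h : f ∈ SL L) (h' : g - f ∈ fS L π k) : g ∈ SL L := by
  simpa using (SL L).add_mem (fS_le hπ h') h
theorem ser_mul_sub (hπ : ‖π‖ < 1) {a a' b b' : Λ⟦X⟧} (ha : a ∈ SL L) (hb : b ∈ SL L)
    (h : a' - a ∈ fS L π k) (h' : b' - b ∈ fS L π k) : a' * b' - a * b ∈ fS L π k := by
  rw [show a' * b' - a * b = (a' - a) * b' + a * (b' - b) by ring]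
  exact (fS L π k).add_mem (fS_mul_right hπ h (ser_mem hπ hb h')) (fS_mul_left hπ ha h')
theorem eval₂_mem_SL (hφ : ∀ c, φ c ∈ SL L) (h : f ∈ SL L) (u : R[X]) : u.eval₂ φ f ∈ SL L := by
  rw [show f = ((⟨f, h⟩ : SL L) : Λ⟦X⟧) from rfl, ser_eval hφ]
  exact Subtype.property _
theorem mv_mem_SL {σ : Type} (hφ : ∀ c, φ c ∈ SL L) {x : σ → Λ⟦X⟧} (hx : ∀ i, x i ∈ SL L)
    (G : MvPolynomial σ R) : MvPolynomial.eval₂ φ x G ∈ SL L := by
  induction G using MvPolynomial.induction_on with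
  | C a => simpa using hφ a
  | add a b ha hb => simpa using (SL L).add_mem ha hb
  | mul_X a i ha => simpa using (SL L).mul_mem ha (hx i)
theorem ev2_mem_SL {d : ℕ} (hφ : ∀ c, φ c ∈ SL L) {x : Fin d → Λ⟦X⟧} (hx : ∀ i, x i ∈ SL L)
    (h : f ∈ SL L) (G : MP d R) : ev2 φ x f G ∈ SL L := by
  exact eval₂_mem_SL (φ := MvPolynomial.eval₂Hom φ x) (fun c => mv_mem_SL hφ hx c) h G
theorem eval₂_sub_mem (hπ : ‖π‖ < 1) (hφ : ∀ c, φ c ∈ SL L) (h : f ∈ SL L)
    (h' : g - f ∈ fS L π k) (u : R[X]) : u.eval₂ φ g - u.eval₂ φ f ∈ fS L π k := by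
  have hg := ser_mem hπ h h'
  obtain ⟨z, hz⟩ := (u.map (φ.codRestrict (SL L) hφ)).evalSubFactor ⟨g, hg⟩ ⟨f, h⟩
  have e := congrArg Subtype.val hz
  rw [AddSubgroupClass.coe_sub, ← ser_eval hφ, ← ser_eval hφ] at e
  rw [e]
  exact fS_mul_left hπ z.2 h'
theorem mv_sub_mem {σ : Type} (hπ : ‖π‖ < 1) (hφ : ∀ c, φ c ∈ SL L) {x x' : σ → Λ⟦X⟧}
    (hx : ∀ i, x i ∈ SL L) (hx' : ∀ i, x' i - x i ∈ fS L π k) (G : MvPolynomial σ R) :
    MvPolynomial.eval₂ φ x' G - MvPolynomial.eval₂ φ x G ∈ fS L π k := by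
  induction G using MvPolynomial.induction_on with
  | C a => simp
  | add a b ha hb =>
    rw [MvPolynomial.eval₂_add, MvPolynomial.eval₂_add, add_sub_add_comm]
    exact (fS L π k).add_mem ha hb
  | mul_X a i ha =>
    rw [MvPolynomial.eval₂_mul, MvPolynomial.eval₂_mul, MvPolynomial.eval₂_X, MvPolynomial.eval₂_X]
    exact ser_mul_sub hπ (mv_mem_SL hφ hx a) (hx i) ha (hx' i)
theorem ev2_sub_mem {d : ℕ} (hπ : ‖π‖ < 1) (hφ : ∀ c, φ c ∈ SL L) {x x' : Fin d → Λ⟦X⟧}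
    (hx : ∀ i, x i ∈ SL L) (hx' : ∀ i, x' i - x i ∈ fS L π k) (h : f ∈ SL L)
    (h' : g - f ∈ fS L π k) (G : MP d R) : ev2 φ x' g G - ev2 φ x f G ∈ fS L π k := by
  induction G using Polynomial.induction_on with
  | C a =>
    rw [ev2_C, ev2_C]
    exact mv_sub_mem hπ hφ hx hx' a
  | add a b ha hb =>
    rw [map_add, map_add, add_sub_add_comm]
    exact (fS L π k).add_mem ha hb
  | monomial n a ha =>
    have e : ∀ (y : Fin d → Λ⟦X⟧) (t : Λ⟦X⟧), ev2 φ y t X = t := fun y t => eval₂_X _ _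
    rw [pow_succ, ← mul_assoc, map_mul _ _ X, map_mul _ _ X, e, e]
    exact ser_mul_sub hπ (ev2_mem_SL hφ hx h _) h ha h'
/-- first order expansion -/
theorem eval₂_taylor_mem (hπ : ‖π‖ < 1) (hφ : ∀ c, φ c ∈ SL L) (h : f ∈ SL L) (hk : 0 < k)
    (h' : g - f ∈ fS L π k) (u : R[X]) :
    u.eval₂ φ g - u.eval₂ φ f - (derivative u).eval₂ φ f * (g - f) ∈ fS L π (k + 1) := by
  obtain ⟨z, hz⟩ := (u.map (φ.codRestrict (SL L) hφ)).binomExpansion ⟨f, h⟩ ⟨g - f, fS_le hπ h'⟩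
  have e := congrArg Subtype.val hz
  rw [derivative_map, Subring.coe_add, Subring.coe_add, Subring.coe_mul, Subring.coe_mul,
    ← ser_eval hφ, ← ser_eval hφ, ← ser_eval hφ, Subring.coe_add, Subring.coe_pow] at e
  simp only [add_sub_cancel] at e
  rw [e, show ∀ a b c : Λ⟦X⟧, a + b + c - a - b = c from fun a b c => by ring, sq]
  exact fS_mul_left hπ z.2 (fS_anti hπ (by omega) (fS_mul hπ h' h'))

/-- the filtration as ideals -/
def fI (L : IntermediateField K Λ) {π : Λ} (hπ : ‖π‖ < 1) (k : ℕ) : Ideal (SL L) where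
  carrier := {f | (f : Λ⟦X⟧) ∈ fS L π k}
  zero_mem' := (fS L π k).zero_mem
  add_mem' := fun h h' => (fS L π k).add_mem h h'
  smul_mem' := fun c _ h => fS_mul_left hπ c.2 h

/-- the maximal ideal -/
def mS (L : IntermediateField K Λ) : Ideal (SL L) where
  carrier := {f | ‖c0 (f : Λ⟦X⟧)‖ < 1}
  zero_mem' := by simp
  add_mem' := fun {a b} h h' => by
    simpa only [Set.mem_ofPred_eq, Subring.coe_add, map_add] using gal1_add_lt h h'
  smul_mem' := fun c f h => by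
    have := tow_mul_lt h (c0_mem c.2).2
    rw [mul_comm] at this
    simpa only [Set.mem_ofPred_eq, smul_eq_mul, Subring.coe_mul, map_mul] using this

theorem mem_fI {hπ : ‖π‖ < 1} {f : SL L} : f ∈ fI L hπ k ↔ (f : Λ⟦X⟧) ∈ fS L π k := Iff.rfl
theorem mem_mS {f : SL L} : f ∈ mS L ↔ ‖c0 (f : Λ⟦X⟧)‖ < 1 := Iff.rfl
theorem mS_unit (f : SL L) (h : f ∈ mS L) : IsUnit (1 + f) := by
  rw [SL_isUnit, Subring.coe_add, map_add, Subring.coe_one, map_one]
  have h1 : ‖(1 : Λ) - (1 + c0 (f : Λ⟦X⟧))‖ < ‖(1 : Λ)‖ := by simpa using mem_mS.1 h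
  rw [norm_eq_of_sub_lt h1, norm_one]

end

variable {p : ℕ} {K Λ : Type} [Field K] [CharZero K] [NormedField Λ] [IsUltrametricDist Λ]
  [IsAlgClosed Λ] [Algebra K Λ] [IsGalois K Λ] [Loc p K Λ] [Fact p.Prime] [CharP (kk Λ) p]
variable {L : IntermediateField K Λ} {π : Λ} {f : Λ⟦X⟧} {k : ℕ} {σ : Λ ≃ₐ[K] Λ}

theorem gS_eq (hσ : Fix L σ) (h : f ∈ SL L) : gS σ f = f := by
  ext i
  rw [PowerSeries.coeff_map]
  exact hσ _ (mem_SL.1 h i).1
include p
theorem gS_mem_top (σ : Λ ≃ₐ[K] Λ) (h : f ∈ SL (⊤ : IntermediateField K Λ)) :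
    gS σ f ∈ SL (⊤ : IntermediateField K Λ) := by
  refine mem_SL.2 fun i => ⟨trivial, ?_⟩
  rw [PowerSeries.coeff_map]
  exact (Loc.norm_gal σ _).trans_le (mem_SL.1 h i).2
theorem mem_SL_of_fixed (h : f ∈ SL (⊤ : IntermediateField K Λ)) (h' : ∀ σ, Fix L σ → gS σ f = f) :
    f ∈ SL L := by
  refine mem_SL.2 fun i => ⟨mem_of_fixed fun σ hσ => ?_, (mem_SL.1 h i).2⟩
  have := congrArg (PowerSeries.coeff i) (h' σ hσ)
  rwa [PowerSeries.coeff_map] at this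
theorem flt_SL (L : IntermediateField K Λ) [FiniteDimensional K L] (hπ : ‖π‖ < 1) :
    Flt (fI L hπ) := by
  have ht := tendsto_pow_atTop_nhds_zero_of_lt_one (norm_nonneg π) hπ
  have ht' := fun i => ht.comp (Filter.tendsto_sub_atTop_nat i)
  refine ⟨eq_top_iff.2 fun x _ => fS_zero.2 x.2, fun k l h x hx => fS_anti hπ h hx,
    fun k l x hx y hy => fS_mul hπ hx hy, fun x hx => Subtype.ext (PowerSeries.ext fun i => ?_),
    fun u hu => ?_, fun x hx => mS_unit x (c0_lt hπ hx)⟩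
  · exact norm_le_zero_iff.1 (ge_of_tendsto' (ht' i) fun k => (hx k i).2)
  · have h1 : ∀ k m, k ≤ m → u m - u k ∈ fI L hπ k := fun k m h => by
      induction m, h using Nat.le_induction with
      | base => simp
      | succ m h ih =>
        rw [← sub_add_sub_cancel _ (u m)]
        exact Ideal.add_mem _ (fS_anti hπ h (hu m)) ih
    have h2 : ∀ i k m, k ≤ m → ‖PowerSeries.coeff i (u m : Λ⟦X⟧) - PowerSeries.coeff i (u k)‖ ≤
        ‖π‖ ^ (k - i) := fun i k m h => by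
      simpa using (h1 k m h i).2
    have h3 : ∀ i, ∃ y ∈ (L : Set Λ),
        Filter.Tendsto (fun m => PowerSeries.coeff i (u m : Λ⟦X⟧)) Filter.atTop (nhds y) :=
      fun i => cauchySeq_tendsto_of_isComplete (Loc.complete (p := p) L inferInstance)
        (fun m => (mem_SL.1 (u m).2 i).1) (cauchySeq_of_le_tendsto_0' (fun k => ‖π‖ ^ (k - i))
          (fun k m h => by rw [dist_comm, dist_eq_norm]; exact h2 i k m h) (ht' i))
    choose y hy hy' using h3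
    refine ⟨⟨PowerSeries.mk y, mem_SL.2 fun i => ?_⟩, fun k i => ?_⟩
    · rw [PowerSeries.coeff_mk]
      exact ⟨hy i, le_of_tendsto' (hy' i).norm fun m => (mem_SL.1 (u m).2 i).2⟩
    · rw [AddSubgroupClass.coe_sub, map_sub, PowerSeries.coeff_mk]
      exact ⟨L.sub_mem (hy i) (mem_SL.1 (u k).2 i).1, le_of_tendsto ((hy' i).sub_const _).norm
        (Filter.eventually_atTop.2 ⟨k, fun m hm => h2 i k m hm⟩)⟩
/-- finitely many classes in each step of the filtration -/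
theorem fS_fin (L : IntermediateField K Λ) [FiniteDimensional K L] (hL : π ∈ L) (h0 : π ≠ 0)
    (hπ : ‖π‖ < 1) (hU : UnrF π L) (k : ℕ) : ∃ s : Finset Λ⟦X⟧, (∀ g ∈ s, g ∈ fS L π k) ∧
      ∀ f ∈ fS L π k, ∃ g ∈ s, f - g ∈ fS L π (k + 1) := by
  obtain ⟨s, hs, hs'⟩ := Loc.resfin (p := p) L inferInstance
  let F : (Fin (k + 1) → s) → Λ⟦X⟧ := fun t =>
    PowerSeries.mk fun i => if h : i < k + 1 then (t ⟨i, h⟩ : Λ) * π ^ (k - i) else 0
  have hp : ∀ i, 0 < ‖π‖ ^ i := fun i => pow_pos (norm_pos_iff.2 h0) i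
  refine ⟨Finset.univ.image F, fun g hg i => ?_, fun f hf => ?_⟩
  · obtain ⟨t, -, rfl⟩ := Finset.mem_image.1 hg
    simp only [F, PowerSeries.coeff_mk]
    split_ifs with h
    · refine ⟨L.mul_mem (hs _ (t _).2).1 (pow_mem hL _), ?_⟩
      rw [norm_mul, norm_pow]
      exact mul_le_of_le_one_left (hp _).le (hs _ (t _).2).2
    · exact ⟨L.zero_mem, by simp⟩
  · have hm : ∀ i, PowerSeries.coeff i f / π ^ (k - i) ∈ L := fun i =>
      L.div_mem (hf i).1 (pow_mem hL _)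
    choose t ht ht' using fun i : Fin (k + 1) => hs' _ (hm i) (by
      rw [norm_div, norm_pow]
      exact (div_le_one (hp _)).2 (hf i).2)
    refine ⟨F fun i => ⟨t i, ht i⟩, Finset.mem_image_of_mem _ (Finset.mem_univ _), fun i => ?_⟩
    simp only [F, map_sub, PowerSeries.coeff_mk]
    split_ifs with h
    · refine ⟨L.sub_mem (hf i).1 (L.mul_mem (hs _ (ht _)).1 (pow_mem hL _)), ?_⟩
      have h1 := hU _ (L.sub_mem (hm i) (hs _ (ht ⟨i, h⟩)).1) (ht' ⟨i, h⟩)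
      rw [← div_mul_cancel₀ (PowerSeries.coeff i f) (pow_ne_zero (k - i) h0), ← sub_mul, norm_mul,
        norm_pow, show k + 1 - i = k - i + 1 by omega, pow_succ']
      exact mul_le_mul_of_nonneg_right h1 (hp _).le
    · rw [sub_zero, show k + 1 - i = k - i by omega]
      exact hf i
theorem p_smul_mem (hπ : ‖π‖ < 1) (hU : UnrF π L) (h : f ∈ fS L π k) :
    p • f ∈ fS L π (k + 1) := by
  have h1 : PowerSeries.C (p : Λ) ∈ fS L π 1 :=
    C_mem_fS (natCast_mem L p) (by simpa using hU _ (natCast_mem L p) (Loc.norm_p K))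
  rw [nsmul_eq_mul, add_comm, ← map_natCast (PowerSeries.C (R := Λ))]
  exact fS_mul hπ h1 h
theorem Tower.unrF {B : IntermediateField K Λ} (T : Tower p B) (hU : UnrF π B) {n : ℕ}
    (hn : 0 < n) : UnrF π (T.U n) := by
  intro x hx h
  obtain ⟨y, hy, e⟩ := T.unr n hn x hx
  rw [e] at h ⊢
  exact hU y hy h

end Pool.Agent.ZeroCyc
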