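import Pool.Agent.Lib.MP_796ce4_ag.ZQ.QMu
import Pool.Agent.Lib.MP_796ce4_ag.ZQ.Eis

/-! Transversal points. -/

namespace Pool.Agent.ZeroCyc

open Polynomial Module
open scoped Classical IntermediateField PowerSeries

set_option linter.unusedSectionVars false

variable {p : ℕ} {K Λ : Type} [Field K] [CharZero K] [NormedField Λ] [IsUltrametricDist Λ]
  [IsAlgClosed Λ] [Algebra K Λ] [IsGalois K Λ] [Loc p K Λ] [Fact p.Prime] [CharP (kk Λ) p]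
variable {N : ℕ} {J : Ideal (MvPolynomial (Fin (N + 1)) K)} {B L : IntermediateField K Λ}

namespace QChart

variable {𝒞 : QChart J B} {R R' : Fin 𝒞.d → Λ⟦X⟧} {h₀ h₁ : Λ} {H H' : Λ⟦X⟧} {E : Λ[X]} {k : ℕ}

/-- the description of the transversal points -/
structure TPD (𝒞 : QChart J B) (L : IntermediateField K Λ) (R : Fin 𝒞.d → Λ⟦X⟧) (h₀ : Λ)
    (H : Λ⟦X⟧) (E : Λ[X]) : Prop where
  mem : H ∈ SL L
  near : ‖c0 H - h₀‖ < 1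
  eq : ev2 (cS B) R H 𝒞.ϑ = PowerSeries.X
  eis : Eis L (𝒞.π : Λ) (𝒞.mu (fun j => rs (c0 (R j))) (rs h₀)) E
  tp : ∀ Q, Q ∈ 𝒞.tp h₀ R ↔ E.eval Q.1 = 0 ∧ Q.2 = ev Q.1 H
  norm : ∀ t, ‖t‖ < 1 → ‖ev t (ev2 (cS B) R H 𝒞.χ)‖ = ‖E.eval t‖
  der : ∀ t, E.eval t = 0 → ev t (PowerSeries.derivative Λ (ev2 (cS B) R H 𝒞.χ)) ≠ 0

theorem GS.mono {L' : IntermediateField K Λ} (hg : 𝒞.GS L R h₀) (hL : L ≤ L') : 𝒞.GS L' R h₀ :=
  ⟨fun j => SL_mono hL (hg.mem j), OL_mono hL hg.h_mem, hg.gk⟩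
theorem mem_fl {v : Fin 𝒞.d → Λ⟦X⟧} : v ∈ 𝒞.fl L k ↔ ∀ j, v j ∈ fS L (𝒞.π : Λ) k := by
  exact ⟨fun h j => h j trivial, fun h j _ => h j⟩
theorem fl_anti : Antitone (𝒞.fl L) := by
  exact fun _ _ hab _ hv => mem_fl.2 fun j => fS_anti 𝒞.π_lt hab (mem_fl.1 hv j)
theorem GS.move (hg : 𝒞.GS L R h₀) (h : R' - R ∈ 𝒞.fl L 1) :
    𝒞.GS L R' h₀ ∧ ∀ j, rs (c0 (R' j)) = rs (c0 (R j)) := by
  have h1 := mem_fl.1 h
  have h2 : ∀ j, rs (c0 (R' j)) = rs (c0 (R j)) := fun j =>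
    (chartb_near (c0_mem (hg.mem j)).2 (by
      rw [← map_sub]
      exact c0_lt 𝒞.π_lt (h1 j))).2
  refine ⟨⟨fun j => ?_, hg.h_mem, ?_⟩, h2⟩
  · have h3 := (SL L).add_mem (hg.mem j) (fS_le 𝒞.π_lt (h1 j))
    rwa [Pi.sub_apply, add_sub_cancel] at h3
  · rw [funext h2]
    exact hg.gk
theorem tp_congr (h : ‖h₀ - h₁‖ < 1) : 𝒞.tp h₀ = 𝒞.tp h₁ := by
  funext R
  ext Q
  exact and_congr_right fun _ => and_congr_left fun _ =>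
    ⟨fun h1 => tow_tri h1 h, fun h1 => tow_tri h1 (tow_symm h)⟩
theorem Qc_congr (h : ‖h₀ - h₁‖ < 1) : 𝒞.Qc h₀ = 𝒞.Qc h₁ := by
  funext R
  rw [Qc, Qc, tp_congr h]
theorem Jm_congr (h : ‖h₀ - h₁‖ < 1) : 𝒞.Jm h₀ = 𝒞.Jm h₁ := by
  rw [Jm, Jm, Qc_congr h]
theorem tp_rs {d : ℕ} {y : Fin d → Λ} {h : Λ} (hy : ∀ i, ‖y i‖ ≤ 1) (hh : ‖h‖ ≤ 1)
    (f : MP d (OL L)) : ‖ev2 (OL L).subtype y h f‖ ≤ 1 ∧
      rs (ev2 (OL L).subtype y h f) = ev2 (rL L) (fun i => rs (y i)) (rs h) f :=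
  ⟨norm_eval₂_le (φ := MvPolynomial.eval₂Hom (OL L).subtype y)
      (fun c => (rs_mv chartb_le chartb_r hy c).1) hh f,
    rs_eval₂ (φ := MvPolynomial.eval₂Hom (OL L).subtype y)
      (ψ := MvPolynomial.eval₂Hom (rL L) fun i => rs (y i))
      (fun c => (rs_mv chartb_le chartb_r hy c).1)
      (fun c => (rs_mv chartb_le chartb_r hy c).2.symm) hh f⟩
theorem tp_c0 {d : ℕ} (x : Fin d → Λ⟦X⟧) (H : Λ⟦X⟧) (f : MP d (OL L)) :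
    c0 (ev2 (cS L) x H f) = ev2 (OL L).subtype (fun j => c0 (x j)) (c0 H) f := by
  have h1 : (c0 (Λ := Λ)).comp (cS L) = (OL L).subtype :=
    RingHom.ext fun c => PowerSeries.constantCoeff_C _
  rw [map_ev2, h1]
theorem tp_rs_c0 {L' : IntermediateField K Λ} (hg : 𝒞.GS L R h₀) (h1 : ‖c0 H - h₀‖ < 1)
    (f : MP 𝒞.d (OL L')) : ‖c0 (ev2 (cS L') R H f)‖ ≤ 1 ∧
      rs (c0 (ev2 (cS L') R H f)) = ev2 (rL L') (fun j => rs (c0 (R j))) (rs h₀) f := by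
  have h2 := chartb_near hg.h_mem.2 h1
  rw [tp_c0, ← h2.2]
  exact tp_rs (fun j => (c0_mem (hg.mem j)).2) h2.1 f
theorem tp_der (hg : 𝒞.GS L R h₀) (h1 : ‖c0 H - h₀‖ < 1) :
    ‖c0 (ev2 (cS B) R H (derivative 𝒞.ϑ))‖ = 1 := by
  rw [← rs_ne_zero, (tp_rs_c0 hg h1 _).2]
  exact hg.gk.der hg.gk.on
theorem tp_coe (hB : B ≤ L) (hR : ∀ j, R j ∈ SL L) (x : SL L) (f : MP 𝒞.d (OL B)) :
    (((f.map (MvPolynomial.eval₂Hom ((cS B).codRestrict (SL L) (cS_mem hB))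
      fun j => ⟨R j, hR j⟩)).eval x : SL L) : Λ⟦X⟧) = ev2 (cS B) R x f := by
  rw [← ev2_eq_eval]
  exact map_ev2 _ (SL L).subtype _ _ _
theorem tp_fac (hB : B ≤ L) (hg : 𝒞.GS L R h₀) (hH : H ∈ SL L) (hH' : H' ∈ SL L)
    (h1 : ‖c0 H - h₀‖ < 1) (h2 : ‖c0 H' - h₀‖ < 1) : ∃ D ∈ SL L, ‖c0 D‖ = 1 ∧
      ev2 (cS B) R H' 𝒞.ϑ - ev2 (cS B) R H 𝒞.ϑ = D * (H' - H) := by
  obtain ⟨q, hq⟩ := binomExpansion (𝒞.ϑ.map (MvPolynomial.eval₂Hom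
    ((cS B).codRestrict (SL L) (cS_mem hB)) fun j => ⟨R j, hg.mem j⟩)) ⟨H, hH⟩ (⟨H', hH'⟩ - ⟨H, hH⟩)
  rw [add_sub_cancel, derivative_map] at hq
  have h3 := congrArg (fun x : SL L => (x : Λ⟦X⟧)) hq
  simp only [Subring.coe_add, Subring.coe_mul, SubmonoidClass.coe_pow, AddSubgroupClass.coe_sub,
    tp_coe hB hg.mem] at h3
  refine ⟨ev2 (cS B) R H (derivative 𝒞.ϑ) + q * (H' - H), (SL L).add_mem
    (ev2_mem_SL (cS_mem hB) hg.mem hH _) ((SL L).mul_mem q.2 ((SL L).sub_mem hH' hH)), ?_, ?_⟩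
  · have h4 := tp_der hg h1
    have h5 : ‖c0 (H' - H) * c0 (q : Λ⟦X⟧)‖ < 1 := tow_mul_lt (by
      rw [map_sub]
      exact tow_tri h2 (tow_symm h1)) (c0_mem q.2).2
    rw [← h4]
    refine norm_eq_of_sub_lt ?_
    rwa [h4, map_add, sub_add_cancel_left, norm_neg, map_mul, mul_comm]
  · rw [h3]
    ring
/-- the last coordinate depends continuously on the others -/
theorem GS.sub_mem (hB : B ≤ L) (hg : 𝒞.GS L R h₀) (hR : ∀ j, R' j - R j ∈ fS L (𝒞.π : Λ) k)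
    (hR' : ∀ j, rs (c0 (R' j)) = rs (c0 (R j))) (hH : H ∈ SL L) (hH' : H' ∈ SL L)
    (h1 : ‖c0 H - h₀‖ < 1) (h2 : ‖c0 H' - h₀‖ < 1)
    (h : ev2 (cS B) R' H' 𝒞.ϑ - ev2 (cS B) R H 𝒞.ϑ ∈ fS L (𝒞.π : Λ) k) :
    H' - H ∈ fS L (𝒞.π : Λ) k := by
  obtain ⟨D, hD, hD1, e⟩ := tp_fac hB hg hH hH' h1 h2
  have h3 : ev2 (cS B) R' H' 𝒞.ϑ - ev2 (cS B) R H' 𝒞.ϑ ∈ fS L (𝒞.π : Λ) k :=
    ev2_sub_mem 𝒞.π_lt (cS_mem hB) hg.mem hR hH' (by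
      rw [sub_self]
      exact zero_mem _) _
  have h4 := AddSubgroup.sub_mem _ h h3
  rw [sub_sub_sub_cancel_left, e] at h4
  exact fS_cancel 𝒞.π_lt hD hD1 h4
theorem GS.unique (hB : B ≤ L) (hg : 𝒞.GS L R h₀) (hH : H ∈ SL L) (hH' : H' ∈ SL L)
    (h1 : ‖c0 H - h₀‖ < 1) (h2 : ‖c0 H' - h₀‖ < 1)
    (h : ev2 (cS B) R H' 𝒞.ϑ = ev2 (cS B) R H 𝒞.ϑ) : H' = H := by
  obtain ⟨D, -, hD1, e⟩ := tp_fac hB hg hH hH' h1 h2
  rw [h, sub_self] at e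
  refine sub_eq_zero.1 ((mul_eq_zero.1 e.symm).resolve_left fun h0 => ?_)
  rw [h0, map_zero, norm_zero] at hD1
  exact zero_ne_one hD1
/-- constant series -/
theorem tp_const {y : Fin 𝒞.d → Λ} (hy : ∀ i, ‖y i‖ ≤ 1) (h₀ : Λ) (Q : Λ × Λ) :
    Q ∈ 𝒞.tp h₀ (fun j => PowerSeries.C (y j)) ↔ ‖Q.2 - h₀‖ < 1 ∧
      ev2 (OL B).subtype y Q.2 𝒞.χ = 0 ∧ Q.1 = ev2 (OL B).subtype y Q.2 𝒞.ϑ := by
  simp only [tp, Set.mem_ofPred_eq, ev_C]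
  refine ⟨fun h => ⟨h.2.1, h.2.2.2, h.2.2.1.symm⟩, fun h => ⟨?_, h.1, h.2.2.symm, h.2.1⟩⟩
  have h1 := root_le hy h.2.1
  have h2 := tp_rs hy h1 𝒞.χ
  have h3 := tp_rs hy h1 𝒞.ϑ
  rw [h.2.1, rs_zero] at h2
  rw [h.2.2, ← rs_eq_zero h3.1, h3.2]
  exact on_iff.1 h2.2.symm
theorem Qc_const {y : Fin 𝒞.d → Λ} (hy : ∀ i, ‖y i‖ ≤ 1) (h₀ : Λ) {s : Finset Λ}
    (hs : ∀ η, η ∈ s ↔ ‖η - h₀‖ < 1 ∧ ev2 (OL B).subtype y η 𝒞.χ = 0) :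
    𝒞.Qc h₀ (fun j => PowerSeries.C (y j)) = ∑ η ∈ s, Finsupp.single (𝒞.io y η) 1 := by
  have h1 : 𝒞.tp h₀ (fun j => PowerSeries.C (y j)) =
      (fun η => (ev2 (OL B).subtype y η 𝒞.ϑ, η)) '' (s : Set Λ) := by
    ext Q
    rw [tp_const hy]
    refine ⟨fun h => ⟨Q.2, (hs _).2 ⟨h.1, h.2.1⟩, Prod.ext h.2.2.symm rfl⟩, ?_⟩
    rintro ⟨η, hη, rfl⟩
    exact ⟨((hs η).1 hη).1, ((hs η).1 hη).2, rfl⟩
  rw [Qc, h1, finsum_mem_image fun _ _ _ _ h => congrArg Prod.snd h, finsum_mem_coe_finset]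
  simp only [ev_C]
theorem tp_mem_roots {π : Λ} {m : ℕ} (h : Eis L π m E) {t : Λ} :
    t ∈ E.roots.toFinset ↔ E.eval t = 0 := by
  rw [Multiset.mem_toFinset, mem_roots h.monic.ne_zero, IsRoot.def]
theorem tp_image (h : 𝒞.TPD L R h₀ H E) :
    𝒞.tp h₀ R = (fun t => (t, ev t H)) '' (E.roots.toFinset : Set Λ) := by
  ext Q
  rw [h.tp]
  refine ⟨fun h1 => ⟨Q.1, (tp_mem_roots h.eis).2 h1.1, Prod.ext rfl h1.2.symm⟩, ?_⟩
  rintro ⟨t, ht, rfl⟩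
  exact ⟨(tp_mem_roots h.eis).1 ht, rfl⟩
theorem TPD.Qc_eq (h : 𝒞.TPD L R h₀ H E) : 𝒞.Qc h₀ R = ∑ t ∈ E.roots.toFinset,
    Finsupp.single (𝒞.io (fun j => ev t (R j)) (ev t H)) 1 := by
  rw [Qc, tp_image h, finsum_mem_image fun _ _ _ _ h => congrArg Prod.fst h, finsum_mem_coe_finset]

include p

theorem gs_teich {a : Fin 𝒞.d → kk Λ} {c : kk Λ} (hk : 𝒞.red.Gk a c) (T : Tower p B) {n : ℕ}
    (hn : 0 < n) (ha : ∀ i, fr (kk Λ) p (T.r * n) (a i) = a i) (hc : fr (kk Λ) p (T.r * n) c = c) :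
    𝒞.GS (T.U n) (fun j => PowerSeries.C (teich p (a j))) (teich p c) := by
  refine ⟨fun j => C_mem_SL ⟨T.teich_mem hn (ha j), (teich_spec K _).1⟩,
    ⟨T.teich_mem hn hc, (teich_spec K _).1⟩, ?_⟩
  simp only [PowerSeries.constantCoeff_C, (teich_spec K _).2]
  exact hk

variable [FiniteDimensional K L]

theorem GS.tp_gd (hg : 𝒞.GS L R h₀) {Q : Λ × Λ} (hQ : Q ∈ 𝒞.tp h₀ R) :
    𝒞.Gd (fun j => ev Q.1 (R j)) Q.2 ∧ (∀ j, rs (ev Q.1 (R j)) = rs (c0 (R j))) ∧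
      rs Q.2 = rs h₀ := by
  obtain ⟨h1, h2, -, h4⟩ := hQ
  have h5 : ∀ j, rs (ev Q.1 (R j)) = rs (c0 (R j)) := fun j => rs_ev (p := p) h1 (hg.mem j)
  refine ⟨gd_of_unit ?_ (fun j => ev_le_one (p := p) h1 (hg.mem j)) h4, h5,
    (chartb_near hg.h_mem.2 h2).2⟩
  rw [funext h5]
  exact hg.gk.unit
theorem tp_root (hB : B ≤ L) (hU : UnrF (𝒞.π : Λ) L) (hg : 𝒞.GS L R h₀) :
    ∃ H ∈ SL L, ‖c0 H - h₀‖ < 1 ∧ ev2 (cS B) R H 𝒞.ϑ = PowerSeries.X := by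
  have h0 : ‖c0 (PowerSeries.C h₀) - h₀‖ < 1 := by
    rw [PowerSeries.constantCoeff_C, sub_self, norm_zero]
    exact one_pos
  obtain ⟨x, h1, h2⟩ := (flt_SL (p := p) L 𝒞.π_lt).exists_root
    (𝒞.ϑ.map (MvPolynomial.eval₂Hom ((cS B).codRestrict (SL L) (cS_mem hB))
      fun j => ⟨R j, hg.mem j⟩) - C ⟨PowerSeries.X, X_mem_SL⟩)
    (x₀ := ⟨PowerSeries.C h₀, C_mem_SL hg.h_mem⟩) (by
      refine mem_fI.2 (fS_one hU (Subtype.property _) ?_)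
      have h3 := tp_rs_c0 hg h0 𝒞.ϑ
      rw [eval_sub, eval_C, AddSubgroupClass.coe_sub, tp_coe hB hg.mem, map_sub,
        PowerSeries.constantCoeff_X, sub_zero, ← rs_eq_zero h3.1, h3.2]
      exact hg.gk.on) (by
      rw [SL_isUnit, derivative_sub, derivative_C, sub_zero, derivative_map, tp_coe hB hg.mem]
      exact tp_der hg h0)
  refine ⟨x, x.2, ?_, ?_⟩
  · have h3 := c0_lt 𝒞.π_lt (mem_fI.1 h2)
    rwa [AddSubgroupClass.coe_sub, map_sub, PowerSeries.constantCoeff_C] at h3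
  · have h3 := congrArg (fun x : SL L => (x : Λ⟦X⟧)) h1
    simp only [eval_sub, eval_C, AddSubgroupClass.coe_sub, tp_coe hB hg.mem,
      ZeroMemClass.coe_zero] at h3
    exact sub_eq_zero.1 h3
theorem tp_shape (hB : B ≤ L) (hU : UnrF (𝒞.π : Λ) L) (hg : 𝒞.GS L R h₀) (hH : H ∈ SL L)
    (h1 : ‖c0 H - h₀‖ < 1) (h2 : ev2 (cS B) R H 𝒞.ϑ = PowerSeries.X) :
    ∃ (L' : IntermediateField K Λ) (a b : Λ⟦X⟧), a ∈ SL L' ∧ b ∈ SL L' ∧ ‖c0 a‖ = 1 ∧ ‖c0 b‖ = 1 ∧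
      ev2 (cS B) R H 𝒞.χ = PowerSeries.X ^ 𝒞.mu (fun j => rs (c0 (R j))) (rs h₀) * a -
        PowerSeries.C (𝒞.π : Λ) * b := by
  obtain ⟨T⟩ := exists_tower (p := p) L
  obtain ⟨n, u₁, u₂, u₃, -, e, n1, n2, n3⟩ := exists_LOC hg.gk hB hU T
  have m : ∀ u : MP 𝒞.d (OL (T.U n)), ev2 (cS (T.U n)) R H u ∈ SL (T.U n) := fun u =>
    ev2_mem_SL (cS_mem le_rfl) (fun j => SL_mono (T.le n) (hg.mem j)) (SL_mono (T.le n) hH) u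
  have o : ∀ u : MP 𝒞.d (OL (T.U n)), ev2 (rL _) (fun j => rs (c0 (R j))) (rs h₀) u ≠ 0 →
      ‖c0 (ev2 (cS (T.U n)) R H u)‖ = 1 := fun u hu => by
    rwa [← rs_ne_zero, (tp_rs_c0 hg h1 u).2]
  obtain ⟨v, hv, ev1⟩ := SL_inv (m u₃) (o u₃ n3)
  have v1 : ‖c0 v‖ = 1 := by
    have h3 := congrArg (fun x => ‖c0 x‖) ev1
    simp only [map_mul, norm_mul, o u₃ n3, mul_one, map_one, norm_one] at h3
    exact h3
  have e1 := congrArg (ev2 (cS (T.U n)) R H) e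
  have e2 : (cS (T.U n)).comp (inc (hB.trans (T.le n))) = cS B := rfl
  rw [map_mul, map_add, map_mul, map_mul, map_pow, ev2_mq, ev2_mq, e2, h2, ev2_C,
    MvPolynomial.eval₂_C] at e1
  refine ⟨T.U n, ev2 (cS (T.U n)) R H u₁ * v, ev2 (cS (T.U n)) R H u₂ * v,
    (SL _).mul_mem (m _) hv, (SL _).mul_mem (m _) hv, ?_, ?_, ?_⟩
  · rw [map_mul, norm_mul, o u₁ n1, v1, mul_one]
  · rw [map_mul, norm_mul, o u₂ n2, v1, mul_one]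
  · have e3 : cS (T.U n) (inc (hB.trans (T.le n)) 𝒞.π) = PowerSeries.C (𝒞.π : Λ) := rfl
    rw [e3] at e1
    linear_combination (-v) * e1 - ev2 (cS B) R H 𝒞.χ * ev1
theorem GS.exists_tpd (hB : B ≤ L) (hU : UnrF (𝒞.π : Λ) L) (hg : 𝒞.GS L R h₀) :
    ∃ H E, 𝒞.TPD L R h₀ H E := by
  obtain ⟨H, hH, h1, h2⟩ := tp_root (p := p) hB hU hg
  obtain ⟨L', a, b, ha, hb, a1, b1, e⟩ := tp_shape (p := p) hB hU hg hH h1 h2
  have hm := mu_pos hg.gk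
  have hb' : ∀ i, ‖(𝒞.π : Λ) * PowerSeries.coeff i b‖ ≤ ‖(𝒞.π : Λ)‖ := fun i => by
    rw [norm_mul]
    exact mul_le_of_le_one_right (norm_nonneg _) (mem_SL.1 hb i).2
  obtain ⟨E, hE, hn⟩ := exists_eis (p := p) 𝒞.π_lt (ev2_mem_SL (cS_mem hB) hg.mem hH 𝒞.χ) hm
    (by
      rw [e, map_sub, PowerSeries.coeff_X_pow_mul', if_pos le_rfl, Nat.sub_self,
        PowerSeries.coeff_C_mul, PowerSeries.coeff_zero_eq_constantCoeff_apply, ← a1]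
      refine norm_eq_of_sub_lt ?_
      rw [sub_sub_cancel, a1]
      exact (hb' _).trans_lt 𝒞.π_lt)
    (fun i hi => by
      rw [e, map_sub, PowerSeries.coeff_X_pow_mul', if_neg hi.not_ge, zero_sub, norm_neg,
        PowerSeries.coeff_C_mul]
      exact hb' i)
    (by
      rw [e, map_sub, map_mul, map_mul, map_pow, PowerSeries.constantCoeff_X, zero_pow hm.ne',
        zero_mul, zero_sub, norm_neg, PowerSeries.constantCoeff_C, norm_mul, b1, mul_one])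
  have q1 : ∀ t, ‖t‖ < 1 → ‖ev t H - h₀‖ < 1 := fun t ht => tow_tri (ev_near (p := p) ht hH) h1
  have q2 : ∀ t, ‖t‖ < 1 → ev2 (OL B).subtype (fun j => ev t (R j)) (ev t H) 𝒞.ϑ = t :=
    fun t ht => by rw [← ev_ev2 (p := p) ht hB hg.mem hH, h2, ev_X]
  have q3 : ∀ t, ‖t‖ < 1 →
      ‖ev2 (OL B).subtype (fun j => ev t (R j)) (ev t H) 𝒞.χ‖ = ‖E.eval t‖ :=
    fun t ht => by rw [← ev_ev2 (p := p) ht hB hg.mem hH, (hn t ht).1]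
  refine ⟨H, E, hH, h1, h2, hE, fun Q => ⟨fun hQ => ?_, fun hQ => ?_⟩, fun t ht => (hn t ht).1,
    fun t ht h0 => ?_⟩
  · obtain ⟨ht, g1, g2, g3⟩ := hQ
    have hy : ∀ j, ‖ev Q.1 (R j)‖ ≤ 1 := fun j => ev_le_one (p := p) ht (hg.mem j)
    have g4 : ev Q.1 H = Q.2 := by
      refine Intg.root_unique (f := 𝒞.ϑ.map (MvPolynomial.eval₂Hom (OL B).subtype
        fun j => ev Q.1 (R j)) - C Q.1) ((Chart.chartb_intg hy _).sub (intg_C ht.le))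
        (ev_le_one (p := p) ht hH) ?_ ?_ ?_ (tow_tri (q1 _ ht) (tow_symm g1))
      · rw [eval_sub, eval_C, ← ev2_eq_eval, q2 _ ht, sub_self]
      · rw [eval_sub, eval_C, ← ev2_eq_eval, g2, sub_self]
      · rw [derivative_sub, derivative_C, sub_zero, derivative_map, ← ev2_eq_eval, ← rs_ne_zero,
          (tp_rs hy (ev_le_one (p := p) ht hH) _).2, (chartb_near hg.h_mem.2 (q1 _ ht)).2,
          funext fun j => rs_ev (p := p) ht (hg.mem j)]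
        exact hg.gk.der hg.gk.on
    refine ⟨norm_eq_zero.1 ?_, g4.symm⟩
    rw [← q3 _ ht, g4, g3, norm_zero]
  · have ht := (hE.norm_root 𝒞.π_lt hQ.1).2.1
    refine ⟨ht, ?_, ?_, norm_eq_zero.1 ?_⟩
    · rw [hQ.2]
      exact q1 _ ht
    · rw [hQ.2]
      exact q2 _ ht
    · rw [hQ.2, q3 _ ht, hQ.1, norm_zero]
  · have g1 := hE.le_der (p := p) (π_mem hB) 𝒞.π_ne 𝒞.π_lt hU ht
    rw [← (hn t (hE.norm_root 𝒞.π_lt ht).2.1).2 ht, h0, norm_zero] at g1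
    have := charZero_of_loc (p := p) (Λ := Λ) K
    exact g1.not_gt (mul_pos (norm_pos_iff.2 (Nat.cast_ne_zero.2 hm.ne')) (norm_pos_iff.2 𝒞.π_ne))
theorem GS.degree_Qc (hB : B ≤ L) (hU : UnrF (𝒞.π : Λ) L) (hg : 𝒞.GS L R h₀) :
    (𝒞.Qc h₀ R).degree = 𝒞.mu (fun j => rs (c0 (R j))) (rs h₀) := by
  obtain ⟨H, E, h⟩ := hg.exists_tpd (p := p) hB hU
  rw [h.Qc_eq, map_sum, ← h.eis.card (p := p) (π_mem hB) 𝒞.π_ne 𝒞.π_lt hU]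
  simp only [Finsupp.degree_single, Finset.sum_const, nsmul_eq_mul, mul_one]
omit [FiniteDimensional K L] in
theorem tp_gal {σ : Λ ≃ₐ[K] Λ} (hσ : Fix B σ) (Q : Λ × Λ) :
    pm σ Q ∈ 𝒞.tp (σ h₀) (fun j => gS σ (R j)) ↔ Q ∈ 𝒞.tp h₀ R := by
  change (‖σ Q.1‖ < 1 ∧ ‖σ Q.2 - σ h₀‖ < 1 ∧
    ev2 (OL B).subtype (fun j => ev (σ Q.1) (gS σ (R j))) (σ Q.2) 𝒞.ϑ = σ Q.1 ∧
    ev2 (OL B).subtype (fun j => ev (σ Q.1) (gS σ (R j))) (σ Q.2) 𝒞.χ = 0) ↔ _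
  simp only [ev_gal (p := p)]
  rw [Chart.chartb_gal hσ, Chart.chartb_gal hσ, ← map_sub, Loc.norm_gal (p := p),
    Loc.norm_gal (p := p), EmbeddingLike.apply_eq_iff_eq, map_eq_zero]
  exact Iff.rfl
theorem GS.Qc_gal (hB : B ≤ L) (hU : UnrF (𝒞.π : Λ) L) (hg : 𝒞.GS L R h₀) {σ : Λ ≃ₐ[K] Λ}
    (hσ : Fix B σ) : 𝒞.Qc (σ h₀) (fun j => gS σ (R j)) = galC σ (𝒞.Qc h₀ R) := by
  obtain ⟨H, E, h⟩ := hg.exists_tpd (p := p) hB hU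
  have hi : Function.Injective (pm σ : Λ × Λ → Λ × Λ) := σ.injective.prodMap σ.injective
  have hs : Function.Surjective (pm σ : Λ × Λ → Λ × Λ) := σ.surjective.prodMap σ.surjective
  have h1 : 𝒞.tp (σ h₀) (fun j => gS σ (R j)) = pm σ '' 𝒞.tp h₀ R := by
    ext Q
    obtain ⟨Q, rfl⟩ := hs Q
    rw [tp_gal (p := p) hσ, hi.mem_set_image]
  have h2 : (𝒞.tp h₀ R).Finite := by
    rw [tp_image h]
    exact (Finset.finite_toSet _).image _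
  rw [Qc, Qc, h1, finsum_mem_image hi.injOn, AddMonoidHom.map_finsum_mem _ _ h2]
  refine finsum_mem_congr rfl fun Q _ => ?_
  rw [galC_single, ← io_gal hσ]
  change Finsupp.single (𝒞.io (fun j => ev (σ Q.1) (gS σ (R j))) (σ Q.2)) 1 = _
  simp only [ev_gal (p := p)]
/-- the class of a transversal cycle is the sum of classes of good points in the disc -/
theorem GS.Qc_mem (hB : B ≤ L) (hU : UnrF (𝒞.π : Λ) L) (hg : 𝒞.GS L R h₀)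
    {G : AddSubgroup (VV Λ J)} (hG : ∀ L' y h, L ≤ L' → FiniteDimensional K L' → 𝒞.GdL L' y h →
      (∀ j, rs (y j) = rs (c0 (R j))) → rs h = rs h₀ →
        clL J L' (Finsupp.single (𝒞.io y h) 1) ∈ G) : clL J L (𝒞.Qc h₀ R) ∈ G := by
  obtain ⟨H, E, h⟩ := hg.exists_tpd (p := p) hB hU
  have e : ∀ σ : Λ ≃ₐ[K] Λ, Fix L σ → ∀ t, ∀ f ∈ SL L, ev (σ t) f = σ (ev t f) :=
    fun σ hσ t f hf => by rw [← ev_gal (p := p), gS_eq hσ hf]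
  have h1 := orb_mem₂ (J := J) L (∑ t ∈ E.roots.toFinset, Finsupp.single (t, ev t H) 1)
    (fun σ hσ => by
      rw [map_sum]
      refine Finset.sum_equiv σ.toEquiv (fun t => ?_) fun t _ => ?_
      · rw [tp_mem_roots h.eis, tp_mem_roots h.eis]
        change _ ↔ E.eval (σ t) = 0
        rw [← h.eis.ov.apply_eval hσ, map_eq_zero]
      · rw [psh_single]
        change Finsupp.single (σ t, σ (ev t H)) 1 = Finsupp.single (σ t, ev (σ t) H) 1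
        rw [e σ hσ t H h.mem])
    (fun Q => Finsupp.single (𝒞.io (fun j => ev Q.1 (R j)) Q.2) 1)
    (fun σ Q hσ _ => by
      rw [galC_single, ← io_gal (hσ.mono hB)]
      change Finsupp.single (𝒞.io (fun j => ev (σ Q.1) (R j)) (σ Q.2)) 1 = _
      rw [funext fun j => e σ hσ Q.1 (R j) (hg.mem j)]) G
    (fun Q hQ L' hL hf m1 m2 => by
      rw [Finsupp.finsetSum_apply] at hQ
      obtain ⟨t, ht, h2⟩ := Finset.exists_ne_zero_of_sum_ne_zero hQ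
      have h3 : Q ∈ 𝒞.tp h₀ R := by
        rw [tp_image h]
        exact ⟨t, ht, (Finsupp.single_apply_ne_zero.1 h2).1.symm⟩
      obtain ⟨g1, g2, g3⟩ := hg.tp_gd (p := p) h3
      exact hG L' _ _ hL hf ⟨g1, fun j => ev_mem (p := p) h3.1 (hg.mem j) hL m1, m2⟩ g2 g3)
  rw [← lsum_apply, map_sum] at h1
  simp only [lsum_single, one_smul] at h1
  rwa [h.Qc_eq]
omit [FiniteDimensional K L] in
theorem Lq_fr {a : Fin 𝒞.d → kk Λ} {c : kk Λ} (hk : 𝒞.red.Gk a c) (T : Tower p B) (n : ℕ) :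
    𝒞.Lq p (fun i => fr (kk Λ) p (T.r * n) (a i)) (fr (kk Λ) p (T.r * n) c) =
      galC (T.φ ^ n) (𝒞.Lq p a c) := by
  obtain ⟨m, hm, hf⟩ := (algP_kk (p := p) (Λ := Λ) K).per_finset T.r_pos
    (insert c (Finset.univ.image a))
  have := T.fin m hm
  have hg := gs_teich hk T hm (fun i => hf _ (by simp)) (hf _ (by simp))
  rw [Lq, Lq, ← hg.Qc_gal (p := p) (T.le m) (T.unrF 𝒞.π_max hm) (T.φ_fix.pow n), T.teich_fr]
  congr 1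
  funext j
  rw [T.teich_fr, PowerSeries.map_C]
  rfl
omit [FiniteDimensional K L] in
theorem degree_Lq {a : Fin 𝒞.d → kk Λ} {c : kk Λ} (hk : 𝒞.red.Gk a c) (T : Tower p B) :
    (𝒞.Lq p a c).degree = 𝒞.mu a c := by
  obtain ⟨m, hm, hf⟩ := (algP_kk (p := p) (Λ := Λ) K).per_finset T.r_pos
    (insert c (Finset.univ.image a))
  have := T.fin m hm
  have hg := gs_teich hk T hm (fun i => hf _ (by simp)) (hf _ (by simp))
  rw [Lq, hg.degree_Qc (p := p) (T.le m) (T.unrF 𝒞.π_max hm)]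
  simp only [PowerSeries.constantCoeff_C, (teich_spec K _).2]

end QChart

end Pool.Agent.ZeroCyc
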